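import Mathlib

/-!
# Sums of `n^{-1-u}` over odd integers, elementary upper and lower bounds
-/

namespace H40.PR

open Real Finset

/-- midpoint inequality for `x ^ (-1-u)` -/
theorem mid_le (n u : ℝ) (hn : 1 < n) (hu : 0 < u) :
    n ^ (-(1+u)) ≤ ((n-1) ^ (-u) - (n+1) ^ (-u)) / (2*u) := by
  have hmono : MonotoneOn (fun t : ℝ => (n-t)^(-u) - (n+t)^(-u) - 2*u*t*n^(-(1+u))) (Set.Icc 0 1) := by
    have hd : ∀ t ∈ Set.Ioo (0:ℝ) 1, HasDerivAt (fun t : ℝ => (n-t)^(-u) - (n+t)^(-u) - 2*u*t*n^(-(1+u)))
        (u*(n-t)^(-(1+u)) + u*(n+t)^(-(1+u)) - 2*u*n^(-(1+u))) t := by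
      intro t ht
      have h1 : HasDerivAt (fun t : ℝ => (n-t)^(-u)) (u*(n-t)^(-(1+u))) t := by
        have := ((hasDerivAt_id' t).const_sub n).rpow_const (p := -u) (Or.inl (by linarith [ht.2] : (0:ℝ) < n - t).ne')
        convert this using 1
        rw [show -(1+u) = -u - 1 by ring]; ring
      have h2 : HasDerivAt (fun t : ℝ => (n+t)^(-u)) (-(u*(n+t)^(-(1+u)))) t := by
        have := ((hasDerivAt_id' t).const_add n).rpow_const (p := -u) (Or.inl (by linarith [ht.1] : (0:ℝ) < n + t).ne')
        convert this using 1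
        rw [show -(1+u) = -u - 1 by ring]; ring
      have h3 : HasDerivAt (fun t : ℝ => 2*u*t*n^(-(1+u))) (2*u*n^(-(1+u))) t := by
        have := ((hasDerivAt_id' t).const_mul (2*u)).mul_const (n^(-(1+u)))
        simpa using this
      have := (h1.sub h2).sub h3
      exact this.congr_deriv (by ring)
    apply monotoneOn_of_deriv_nonneg (convex_Icc 0 1)
    · apply ContinuousOn.sub
      · apply ContinuousOn.sub
        · apply ContinuousOn.rpow_const (by fun_prop)
          intro t ht; left; have := ht.2; linarith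
        · apply ContinuousOn.rpow_const (by fun_prop)
          intro t ht; left; have := ht.1; linarith
      · fun_prop
    · intro t ht
      rw [interior_Icc] at ht
      exact (hd t ht).differentiableAt.differentiableWithinAt
    · intro t ht
      rw [interior_Icc] at ht
      rw [(hd t ht).deriv]
      have ha : 0 < n - t := by linarith [ht.2]
      have hb : 0 < n + t := by linarith [ht.1]
      have hn0 : 0 < n := by linarith
      -- AM-GM
      have h1 : 2 * n^(-(1+u)) ≤ (n-t)^(-(1+u)) + (n+t)^(-(1+u)) := by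
        set a := (n-t)^(-(1+u)/2) with ha'
        set b := (n+t)^(-(1+u)/2) with hb'
        have e1 : (n-t)^(-(1+u)) = a^2 := by
          rw [ha', ← Real.rpow_natCast, ← Real.rpow_mul ha.le]; norm_num
        have e2 : (n+t)^(-(1+u)) = b^2 := by
          rw [hb', ← Real.rpow_natCast, ← Real.rpow_mul hb.le]; norm_num
        have e3 : n^(-(1+u)) ≤ a*b := by
          rw [ha', hb', ← Real.mul_rpow ha.le hb.le]
          have : n^(-(1+u)) = (n*n)^(-(1+u)/2) := by
            rw [Real.mul_rpow hn0.le hn0.le, ← Real.rpow_add hn0]; congr 1; ring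
          rw [this]
          apply Real.rpow_le_rpow_of_nonpos (by positivity) (by nlinarith [sq_nonneg t]) (by linarith)
        rw [e1, e2]
        nlinarith [sq_nonneg (a-b)]
      nlinarith
  have h0 := hmono (Set.left_mem_Icc.2 zero_le_one) (Set.right_mem_Icc.2 zero_le_one) zero_le_one
  simp only [sub_zero, add_zero, mul_zero, zero_mul, sub_self, mul_one] at h0
  rw [le_div_iff₀ (by positivity)]
  linarith

/-- trapezoid inequality for `x ^ (-1-u)` -/
theorem trap_le (n u : ℝ) (hn : 0 < n) (hu : 0 < u) :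
    (n ^ (-u) - (n+2) ^ (-u)) / (2*u) ≤ (n ^ (-(1+u)) + (n+2) ^ (-(1+u)))/2 := by
  have hmono : MonotoneOn (fun t : ℝ => t/2*u*(n^(-(1+u)) + (n+t)^(-(1+u))) + (n+t)^(-u)) (Set.Icc 0 2) := by
    have hd : ∀ t ∈ Set.Ioo (0:ℝ) 2, HasDerivAt (fun t : ℝ => t/2*u*(n^(-(1+u)) + (n+t)^(-(1+u))) + (n+t)^(-u))
        (1/2*u*(n^(-(1+u)) + (n+t)^(-(1+u))) + t/2*u*(-((1+u)*(n+t)^(-(2+u)))) + (-(u*(n+t)^(-(1+u))))) t := by
      intro t ht
      have hne : n + t ≠ 0 := (by linarith [ht.1] : (0:ℝ) < n + t).ne'
      have h2 : HasDerivAt (fun t : ℝ => (n+t)^(-u)) (-(u*(n+t)^(-(1+u)))) t := by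
        have := ((hasDerivAt_id' t).const_add n).rpow_const (p := -u) (Or.inl hne)
        convert this using 1
        rw [show -(1+u) = -u - 1 by ring]; ring
      have h3 : HasDerivAt (fun t : ℝ => (n+t)^(-(1+u))) (-((1+u)*(n+t)^(-(2+u)))) t := by
        have := ((hasDerivAt_id' t).const_add n).rpow_const (p := -(1+u)) (Or.inl hne)
        convert this using 1
        rw [show -(2+u) = -(1+u) - 1 by ring]; ring
      have h4 : HasDerivAt (fun t : ℝ => t/2*u) (1/2*u) t := by
        have := ((hasDerivAt_id' t).div_const 2).mul_const u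
        simpa using this
      have := (h4.mul (h3.const_add (n^(-(1+u))))).add h2
      exact this
    apply monotoneOn_of_deriv_nonneg (convex_Icc 0 2)
    · apply ContinuousOn.add
      · apply ContinuousOn.mul (by fun_prop)
        apply ContinuousOn.add (by fun_prop)
        apply ContinuousOn.rpow_const (by fun_prop)
        intro t ht; left; have := ht.1; linarith
      · apply ContinuousOn.rpow_const (by fun_prop)
        intro t ht; left; have := ht.1; linarith
    · intro t ht
      rw [interior_Icc] at ht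
      exact (hd t ht).differentiableAt.differentiableWithinAt
    · intro t ht
      rw [interior_Icc] at ht
      rw [(hd t ht).deriv]
      have ht0 := ht.1
      have hb : 0 < n + t := by linarith
      -- Bernoulli
      have h1 : (n+t)^(-(1+u)) + t*(1+u)*(n+t)^(-(2+u)) ≤ n^(-(1+u)) := by
        have e1 : (n+t)^(-(2+u)) = (n+t)^(-(1+u)) / (n+t) := by
          rw [show -(2+u) = -(1+u) - 1 by ring, Real.rpow_sub_one hb.ne']
        have e2 : n^(-(1+u)) = (n+t)^(-(1+u)) * ((n+t)/n)^(1+u) := by
          rw [Real.div_rpow hb.le hn.le, Real.rpow_neg hb.le, Real.rpow_neg hn.le]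
          field_simp
        have e3 : 1 + (1+u)*(t/(n+t)) ≤ ((n+t)/n)^(1+u) := by
          calc 1 + (1+u)*(t/(n+t)) ≤ (1 + t/(n+t))^(1+u) := by
                apply one_add_mul_self_le_rpow_one_add _ (by linarith)
                have : 0 ≤ t/(n+t) := by positivity
                linarith
            _ ≤ ((n+t)/n)^(1+u) := by
                apply Real.rpow_le_rpow (by positivity) _ (by linarith)
                rw [show (n+t)/n = 1 + t/n by field_simp]
                have : t/(n+t) ≤ t/n := by
                  apply div_le_div_of_nonneg_left ht0.le hn (by linarith)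
                linarith
        rw [e1, e2]
        have hpos : 0 ≤ (n+t)^(-(1+u)) := by positivity
        calc (n+t)^(-(1+u)) + t*(1+u)*((n+t)^(-(1+u)) / (n+t)) = (n+t)^(-(1+u)) * (1 + (1+u)*(t/(n+t))) := by ring
          _ ≤ _ := mul_le_mul_of_nonneg_left e3 hpos
      have : 0 ≤ u*(n^(-(1+u)) - ((n+t)^(-(1+u)) + t*(1+u)*(n+t)^(-(2+u)))) :=
        mul_nonneg hu.le (by linarith)
      nlinarith
  have h0 := hmono (Set.left_mem_Icc.2 zero_le_two) (Set.right_mem_Icc.2 zero_le_two) zero_le_two
  simp only [zero_div, zero_mul, add_zero, zero_add] at h0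
  rw [div_le_iff₀ (by positivity)]
  nlinarith [h0]

end H40.PR
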