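import Mathlib
import Pool.Agent.H40.PRConv

/-!
# The finite Euler product `B N u = ∏_{2 < p < N} (1 - p^{-1-u})` and its bounds
-/

namespace H40.PR

open Real Finset

/-- `n ↦ n^{-1-u}` on odd integers, `0` on even integers -/
noncomputable def oddHom (u : ℝ) : ℕ →* ℝ where
  toFun n := if Odd n then (n:ℝ) ^ (-(1+u)) else 0
  map_one' := by simp
  map_mul' m n := by
    by_cases hm : Odd m <;> by_cases hn : Odd n <;> simp [Nat.odd_mul, hm, hn]
    rw [Real.mul_rpow (by positivity) (by positivity)]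

theorem oddHom_apply (u : ℝ) (n : ℕ) : oddHom u n = if Odd n then (n:ℝ) ^ (-(1+u)) else 0 := rfl

theorem oddHom_odd (u : ℝ) {n : ℕ} (h : Odd n) : oddHom u n = (n:ℝ) ^ (-(1+u)) := by
  rw [oddHom_apply, if_pos h]

theorem oddHom_nonneg (u : ℝ) (n : ℕ) : 0 ≤ oddHom u n := by
  rw [oddHom_apply]; split_ifs <;> positivity

theorem oddHom_prime_lt {u : ℝ} (hu : 0 ≤ u) {p : ℕ} (hp : p.Prime) : oddHom u p < 1 := by
  rw [oddHom_apply]; split_ifs
  · apply Real.rpow_lt_one_of_one_lt_of_neg _ (by linarith)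
    exact_mod_cast hp.one_lt
  · norm_num

/-- the finite Euler product over the odd primes below `N` -/
noncomputable def B (N : ℕ) (u : ℝ) : ℝ := ∏ p ∈ N.primesBelow, (1 - oddHom u p)

theorem B_pos (N : ℕ) {u : ℝ} (hu : 0 ≤ u) : 0 < B N u := by
  apply Finset.prod_pos
  intro p hp
  have := oddHom_prime_lt hu (Nat.prime_of_mem_primesBelow hp)
  linarith

theorem B_le_one (N : ℕ) {u : ℝ} (hu : 0 ≤ u) : B N u ≤ 1 := by
  apply Finset.prod_le_one
  · intro p hp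
    have := oddHom_prime_lt hu (Nat.prime_of_mem_primesBelow hp)
    linarith
  · intro p hp
    have := oddHom_nonneg u p
    linarith

theorem B_antitone {u : ℝ} (hu : 0 ≤ u) {M N : ℕ} (h : M ≤ N) : B N u ≤ B M u := by
  have hsub : M.primesBelow ⊆ N.primesBelow := by
    intro p hp
    rw [Nat.mem_primesBelow] at hp ⊢
    exact ⟨by omega, hp.2⟩
  unfold B
  rw [← Finset.prod_sdiff hsub]
  have h1 : ∏ p ∈ N.primesBelow \ M.primesBelow, (1 - oddHom u p) ≤ 1 := by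
    apply Finset.prod_le_one
    · intro p hp
      have := oddHom_prime_lt hu (Nat.prime_of_mem_primesBelow (Finset.mem_sdiff.1 hp).1)
      linarith
    · intro p hp
      have := oddHom_nonneg u p
      linarith
  have h2 := B_pos M hu
  unfold B at h2
  nlinarith

theorem B_inv (N : ℕ) {u : ℝ} (hu : 0 ≤ u) :
    HasSum (fun m : N.smoothNumbers => oddHom u m) (B N u)⁻¹ := by
  have := (EulerProduct.summable_and_hasSum_smoothNumbers_prod_primesBelow_geometric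
    (f := oddHom u) (fun {p} hp => by
      rw [Real.norm_eq_abs, abs_of_nonneg (oddHom_nonneg u p)]; exact oddHom_prime_lt hu hp) N).2
  rwa [Finset.prod_inv_distrib] at this

/-- partial sums over odd numbers, upper bound -/
theorem odd_sum_le {u : ℝ} (hu : 0 < u) (K : ℕ) :
    ∑ j ∈ range (K+1), ((2*j+1 : ℕ):ℝ) ^ (-(1+u)) ≤ 1 + ((2:ℝ)^(-u) - ((2*K+2 : ℕ):ℝ)^(-u))/(2*u) := by
  induction K with
  | zero => simp
  | succ K ih =>
    rw [Finset.sum_range_succ]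
    have := mid_le ((2*K+3:ℕ):ℝ) u (by push_cast; have : (0:ℝ) ≤ K := by positivity
                                       linarith) hu
    have e1 : ((2*K+3:ℕ):ℝ) - 1 = ((2*K+2 : ℕ):ℝ) := by push_cast; ring
    have e2 : ((2*K+3:ℕ):ℝ) + 1 = ((2*(K+1)+2 : ℕ):ℝ) := by push_cast; ring
    rw [e1, e2] at this
    have e3 : (2*(K+1)+1 : ℕ) = 2*K+3 := by ring
    rw [e3]
    have h2u : 0 < 2*u := by positivity
    have : ((2:ℝ)^(-u) - ((2*(K+1)+2 : ℕ):ℝ)^(-u))/(2*u) = ((2:ℝ)^(-u) - ((2*K+2 : ℕ):ℝ)^(-u))/(2*u) +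
      (((2*K+2 : ℕ):ℝ)^(-u) - ((2*(K+1)+2 : ℕ):ℝ)^(-u))/(2*u) := by field_simp; ring
    linarith

theorem odd_sum_ge {u : ℝ} (hu : 0 < u) (K : ℕ) :
    1 + (3:ℝ)^(-(1+u))/2 + ((3:ℝ)^(-u) - ((2*K+3 : ℕ):ℝ)^(-u))/(2*u) + ((2*K+3 : ℕ):ℝ)^(-(1+u))/2 ≤
      ∑ j ∈ range (K+2), ((2*j+1 : ℕ):ℝ) ^ (-(1+u)) := by
  induction K with
  | zero => 
    simp [Finset.sum_range_succ]
    linarith
  | succ K ih =>
    rw [Finset.sum_range_succ]
    have := trap_le ((2*K+3:ℕ):ℝ) u (by positivity) hu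
    have e2 : ((2*K+3:ℕ):ℝ) + 2 = ((2*(K+1)+3 : ℕ):ℝ) := by push_cast; ring
    rw [e2] at this
    have e3 : (2*(K+2)+1 : ℕ) = 2*(K+1)+3 := by ring
    rw [e3]
    have : ((3:ℝ)^(-u) - ((2*(K+1)+3 : ℕ):ℝ)^(-u))/(2*u) = ((3:ℝ)^(-u) - ((2*K+3 : ℕ):ℝ)^(-u))/(2*u) +
      (((2*K+3 : ℕ):ℝ)^(-u) - ((2*(K+1)+3 : ℕ):ℝ)^(-u))/(2*u) := by field_simp; ring
    linarith

theorem sum_oddHom_range (u : ℝ) (K : ℕ) :
    ∑ n ∈ range (2*K+2), oddHom u n = ∑ j ∈ range (K+1), ((2*j+1 : ℕ):ℝ) ^ (-(1+u)) := by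
  induction K with
  | zero => simp [Finset.sum_range_succ, oddHom_apply]
  | succ K ih =>
    rw [Finset.sum_range_succ _ (K+1), ← ih, show 2*(K+1)+2 = (2*K+2)+1+1 by ring,
      Finset.sum_range_succ, Finset.sum_range_succ]
    rw [oddHom_apply u (2*K+2), if_neg (by simp [Nat.odd_iff]), add_zero,
      oddHom_odd u (by use K+1; ring : Odd (2*K+2+1))]
    congr 3

theorem B_lower (N : ℕ) {u : ℝ} (hu : 0 < u) : 1 ≤ B N u * (1 + (2:ℝ)^(-u)/(2*u)) := by
  have hsum := B_inv N hu.le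
  have hle : (B N u)⁻¹ ≤ 1 + (2:ℝ)^(-u)/(2*u) := by
    rw [← hsum.tsum_eq]
    apply hsum.summable.tsum_le_of_sum_le
    intro F
    have h1 : ∑ m ∈ F, oddHom u m = ∑ m ∈ F.map (Function.Embedding.subtype _), oddHom u m := by
      rw [Finset.sum_map]; rfl
    rw [h1]
    obtain ⟨K, hK⟩ : ∃ K : ℕ, F.map (Function.Embedding.subtype _) ⊆ range (2*K+2) := by
      obtain ⟨M, hM⟩ := Finset.exists_nat_subset_range (F.map (Function.Embedding.subtype _))
      exact ⟨M, hM.trans (Finset.range_subset_range.2 (by omega))⟩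
    calc _ ≤ ∑ n ∈ range (2*K+2), oddHom u n :=
          Finset.sum_le_sum_of_subset_of_nonneg hK (fun _ _ _ => oddHom_nonneg _ _)
      _ ≤ _ := by
          rw [sum_oddHom_range]
          refine (odd_sum_le hu K).trans ?_
          have : 0 ≤ ((2*K+2 : ℕ):ℝ)^(-u) := by positivity
          gcongr
          linarith
  have hpos := B_pos N hu.le
  rw [inv_le_iff_one_le_mul₀ hpos, mul_comm] at hle
  exact hle

theorem B_upper {N K : ℕ} (hN : 2*K+4 ≤ N) {u : ℝ} (hu : 0 < u) :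
    B N u * (1 + (3:ℝ)^(-(1+u))/2 + ((3:ℝ)^(-u) - ((2*K+3 : ℕ):ℝ)^(-u))/(2*u)) ≤ 1 := by
  have hsum := B_inv N hu.le
  have hge : 1 + (3:ℝ)^(-(1+u))/2 + ((3:ℝ)^(-u) - ((2*K+3 : ℕ):ℝ)^(-u))/(2*u) ≤ (B N u)⁻¹ := by
    rw [← hsum.tsum_eq]
    have h1 := odd_sum_ge hu K
    have h2 := sum_oddHom_range u (K+1)
    have h3 : ∑ n ∈ range (2*(K+1)+2), oddHom u n ≤ ∑' m : N.smoothNumbers, oddHom u m := by
      have : ∑ n ∈ range (2*(K+1)+2), oddHom u n = ∑ n ∈ (range (2*(K+1)+2)).erase 0, oddHom u n := by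
        rw [← Finset.add_sum_erase _ _ (show 0 ∈ range (2*(K+1)+2) by simp)]
        simp [oddHom_apply]
      rw [this]
      have hmem : ∀ n ∈ (range (2*(K+1)+2)).erase 0, n ∈ N.smoothNumbers := by
        intro n hn
        rw [Finset.mem_erase, Finset.mem_range] at hn
        exact Nat.mem_smoothNumbers_of_lt (by omega) (by omega)
      classical
      set F : Finset N.smoothNumbers := ((range (2*(K+1)+2)).erase 0).subtype (· ∈ N.smoothNumbers) with hF
      have e : ∑ n ∈ (range (2*(K+1)+2)).erase 0, oddHom u n = ∑ m ∈ F, oddHom u m :=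
        (Finset.sum_subtype_of_mem (fun n => oddHom u n) hmem).symm
      rw [e]
      exact hsum.summable.sum_le_tsum F (fun _ _ => oddHom_nonneg _ _)
    have h4 : 0 ≤ ((2*K+3 : ℕ):ℝ)^(-(1+u))/2 := by positivity
    linarith
  have hpos := B_pos N hu.le
  calc _ ≤ B N u * (B N u)⁻¹ := mul_le_mul_of_nonneg_left hge hpos.le
    _ = 1 := mul_inv_cancel₀ hpos.ne'

end H40.PR
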