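import Mathlib
import Pool.Agent.H40.PROdd

/-!
# Laplace transforms of the finite Euler product
-/

namespace H40.PR

open Real Finset MeasureTheory Set

theorem integrableOn_pow_exp (n : ℕ) {X : ℝ} (hX : 0 < X) :
    IntegrableOn (fun u : ℝ => u^n * exp (-(X*u))) (Ioi 0) := by
  have := integrableOn_rpow_mul_exp_neg_mul_rpow (p := 1) (s := n) (b := X)
    (by have : (0:ℝ) ≤ n := by positivity
        linarith) (by norm_num) hX
  refine this.congr_fun ?_ measurableSet_Ioi
  intro u hu
  simp only [Real.rpow_natCast, Real.rpow_one, neg_mul]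

theorem integral_pow_exp (n : ℕ) {X : ℝ} (hX : 0 < X) :
    ∫ u in Ioi (0:ℝ), u^n * exp (-(X*u)) = n.factorial / X^(n+1) := by
  have := Real.integral_rpow_mul_exp_neg_mul_Ioi (a := n+1) (r := X) (by positivity) hX
  rw [Real.Gamma_nat_eq_factorial] at this
  rw [show ((n:ℝ)+1) = ((n+1:ℕ):ℝ) by push_cast; ring, Real.rpow_natCast] at this
  simp only [Nat.cast_add, Nat.cast_one, add_sub_cancel_right, Real.rpow_natCast] at this
  rw [this, div_pow, one_pow]
  ring

theorem continuous_oddHom {p : ℕ} (hp : 0 < p) : Continuous (fun u : ℝ => oddHom u p) := by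
  by_cases h : Odd p
  · have : (fun u : ℝ => oddHom u p) = fun u => (p:ℝ) ^ (-(1+u)) := by
      ext u; rw [oddHom_odd u h]
    rw [this]
    apply Continuous.rpow continuous_const (by fun_prop)
    intro u; left; positivity
  · have : (fun u : ℝ => oddHom u p) = fun u => 0 := by
      ext u; rw [oddHom_apply, if_neg h]
    rw [this]; fun_prop

theorem continuous_B (N : ℕ) : Continuous (B N) := by
  unfold B
  apply continuous_finsetProd
  intro p hp
  have := (Nat.prime_of_mem_primesBelow hp).pos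
  have := continuous_oddHom this
  fun_prop

/-- bounded continuous times `exp (-X u)` is integrable -/
theorem integrableOn_exp_mul {X C : ℝ} (hX : 0 < X) {f : ℝ → ℝ} (hf : Continuous f)
    (hC : ∀ u, 0 < u → |f u| ≤ C) : IntegrableOn (fun u : ℝ => exp (-(X*u)) * f u) (Ioi 0) := by
  have h0 := (integrableOn_pow_exp 0 hX).const_mul C
  refine h0.mono' (by fun_prop) ?_
  filter_upwards [self_mem_ae_restrict measurableSet_Ioi] with u hu
  rw [norm_mul, Real.norm_eq_abs, Real.norm_eq_abs, abs_of_pos (exp_pos _)]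
  have := hC u hu
  have h1 := exp_pos (-(X*u))
  simp only [pow_zero, one_mul]
  nlinarith

theorem integrableOn_exp_B (N : ℕ) {X : ℝ} (hX : 0 < X) :
    IntegrableOn (fun u : ℝ => exp (-(X*u)) * B N u) (Ioi 0) :=
  integrableOn_exp_mul hX (continuous_B N) (C := 1) (fun u hu => by
    rw [abs_of_pos (B_pos N hu.le)]; exact B_le_one N hu.le)

/-- the Laplace transform of `B N` -/
noncomputable def RB (N : ℕ) (X : ℝ) : ℝ := ∫ u in Ioi (0:ℝ), exp (-(X*u)) * B N u

noncomputable def Rc (c X : ℝ) : ℝ := 4/(X+c)^2 - 8/(X+2*c)^3 - 2/(X+693/1000+2*c)^2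

noncomputable def rc (c u : ℝ) : ℝ :=
  4*(u^1*exp (-(c*u))) - 4*(u^2*exp (-(2*c*u))) - 2*(u^1*exp (-((693/1000+2*c)*u)))

theorem exp_mul_rc (c X u : ℝ) : exp (-(X*u)) * rc c u =
    4*(u^1*exp (-((X+c)*u))) - 4*(u^2*exp (-((X+2*c)*u))) - 2*(u^1*exp (-((X+693/1000+2*c)*u))) := by
  unfold rc
  have e1 : exp (-((X+c)*u)) = exp (-(X*u)) * exp (-(c*u)) := by rw [← exp_add]; congr 1; ring
  have e2 : exp (-((X+2*c)*u)) = exp (-(X*u)) * exp (-(2*c*u)) := by rw [← exp_add]; congr 1; ring
  have e3 : exp (-((X+693/1000+2*c)*u)) = exp (-(X*u)) * exp (-((693/1000+2*c)*u)) := by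
    rw [← exp_add]; congr 1; ring
  rw [e1, e2, e3]; ring

theorem integrableOn_rc {c X : ℝ} (hc : 0 ≤ c) (hX : 0 < X) :
    IntegrableOn (fun u : ℝ => exp (-(X*u)) * rc c u) (Ioi 0) := by
  simp_rw [exp_mul_rc]
  exact (((integrableOn_pow_exp 1 (by positivity)).const_mul 4).sub
    ((integrableOn_pow_exp 2 (by positivity)).const_mul 4)).sub
    ((integrableOn_pow_exp 1 (by positivity)).const_mul 2)

theorem integral_sub3 {f g h : ℝ → ℝ} {S : Set ℝ} (hf : IntegrableOn f S) (hg : IntegrableOn g S)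
    (hh : IntegrableOn h S) : ∫ x in S, (f x - g x - h x) =
      (∫ x in S, f x) - (∫ x in S, g x) - (∫ x in S, h x) := by
  rw [integral_sub (f := fun x => f x - g x) (hf.sub hg) hh, integral_sub hf hg]

theorem integral_rc {c X : ℝ} (hc : 0 ≤ c) (hX : 0 < X) :
    ∫ u in Ioi (0:ℝ), exp (-(X*u)) * rc c u = Rc c X := by
  simp_rw [exp_mul_rc]
  have h1 := (integrableOn_pow_exp 1 (show 0 < X + c by positivity)).const_mul 4
  have h2 := (integrableOn_pow_exp 2 (show 0 < X + 2*c by positivity)).const_mul 4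
  have h3 := (integrableOn_pow_exp 1 (show 0 < X + 693/1000 + 2*c by positivity)).const_mul 2
  rw [integral_sub3 h1 h2 h3, integral_const_mul, integral_const_mul,
    integral_const_mul, integral_pow_exp 1 (by positivity), integral_pow_exp 2 (by positivity),
    integral_pow_exp 1 (by positivity)]
  unfold Rc
  norm_num [Nat.factorial]
  ring

theorem log_two_ge : (693/1000:ℝ) ≤ Real.log 2 := by
  have := Real.log_two_gt_d9; linarith

theorem two_rpow_le {u : ℝ} (hu : 0 ≤ u) : (2:ℝ)^(-u) ≤ exp (-(693/1000*u)) := by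
  rw [Real.rpow_def_of_pos two_pos]
  apply exp_le_exp.2
  have := log_two_ge
  nlinarith

theorem rc_le_B (N : ℕ) (c : ℝ) {u : ℝ} (hu : 0 < u) : rc c u ≤ B N u := by
  have h1 := B_lower N hu
  have h2 := two_rpow_le hu.le
  have hB := B_pos N hu.le
  set X := 2*u + exp (-(693/1000*u)) with hX
  have hXpos : 0 < X := by have := exp_pos (-(693/1000*u)); positivity
  have h3 : 2*u ≤ B N u * X := by
    have : B N u * (1 + (2:ℝ)^(-u)/(2*u)) * (2*u) = B N u * (2*u + (2:ℝ)^(-u)) := by
      field_simp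
    have h4 : 1 * (2*u) ≤ B N u * (1 + (2:ℝ)^(-u)/(2*u)) * (2*u) :=
      mul_le_mul_of_nonneg_right h1 (by positivity)
    rw [this, one_mul] at h4
    refine h4.trans (mul_le_mul_of_nonneg_left ?_ hB.le)
    rw [hX]; linarith
  set y := exp (-(c*u)) with hy
  have e2 : exp (-(2*c*u)) = y^2 := by rw [hy, ← exp_nat_mul]; congr 1; push_cast; ring
  have e3 : exp (-((693/1000+2*c)*u)) = exp (-(693/1000*u)) * y^2 := by
    rw [← e2, ← exp_add]; congr 1; ring
  have hrc : rc c u = 2*u*(2*y - X*y^2) := by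
    unfold rc
    rw [e2, e3, hX]; ring
  rw [hrc]
  have h5 : X * (2*y - X*y^2) ≤ 1 := by nlinarith [sq_nonneg (X*y-1)]
  have h6 : 2*u*(2*y - X*y^2) * X ≤ B N u * X := by
    calc 2*u*(2*y - X*y^2) * X = 2*u*(X * (2*y - X*y^2)) := by ring
      _ ≤ 2*u*1 := mul_le_mul_of_nonneg_left h5 (by positivity)
      _ ≤ B N u * X := by linarith
  exact le_of_mul_le_mul_right h6 hXpos

/-- the main lower bound for combinations of `RB` -/
theorem Rc_le_RB (N : ℕ) {c X κ x : ℝ} (hc : 0 ≤ c) (hX : 0 < X) (hκ0 : 0 ≤ κ) (hκ : κ ≤ 1) (hx : 0 ≤ x) :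
    Rc c X - κ * Rc c (X+x) ≤ RB N X - κ * RB N (X+x) := by
  rw [← integral_rc hc hX, ← integral_rc hc (by positivity : 0 < X + x), RB, RB,
    ← integral_const_mul, ← integral_const_mul,
    ← integral_sub (integrableOn_rc hc hX) ((integrableOn_rc hc (by positivity)).const_mul κ),
    ← integral_sub (integrableOn_exp_B N hX) ((integrableOn_exp_B N (by positivity)).const_mul κ)]
  apply setIntegral_mono_on
  · exact (integrableOn_rc hc hX).sub ((integrableOn_rc hc (by positivity)).const_mul κ)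
  · exact (integrableOn_exp_B N hX).sub ((integrableOn_exp_B N (by positivity)).const_mul κ)
  · exact measurableSet_Ioi
  · intro u hu
    have h1 := rc_le_B N c hu
    have e1 : exp (-((X+x)*u)) = exp (-(X*u)) * exp (-(x*u)) := by rw [← exp_add]; congr 1; ring
    rw [e1]
    have h2 : exp (-(x*u)) ≤ 1 := by
      rw [exp_le_one_iff]
      have : 0 ≤ x * u := mul_nonneg hx (le_of_lt hu)
      linarith
    have h3 := exp_pos (-(x*u))
    have h4 : 0 ≤ 1 - κ * exp (-(x*u)) := by nlinarith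
    have h5 := exp_pos (-(X*u))
    have : 0 ≤ exp (-(X*u)) * (1 - κ * exp (-(x*u))) * (B N u - rc c u) := by
      apply mul_nonneg (by positivity) (by linarith)
    nlinarith

theorem RB_nonneg (N : ℕ) (X : ℝ) : 0 ≤ RB N X := by
  apply setIntegral_nonneg measurableSet_Ioi
  intro u hu
  exact mul_nonneg (exp_pos _).le (B_pos N (le_of_lt hu)).le

end H40.PR
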