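import Mathlib
import Pool.Agent.H40.PRInt

/-!
# The flow
-/

namespace H40.PR

open Real Finset MeasureTheory Set

/-- `m ^ (-(1+u))` in exponential form -/
noncomputable def Em (m : ℕ) (u : ℝ) : ℝ := exp (-((1+u) * Real.log m))

theorem Em_pos (m : ℕ) (u : ℝ) : 0 < Em m u := exp_pos _

theorem Em_one (u : ℝ) : Em 1 u = 1 := by simp [Em]

theorem Em_mul {m n : ℕ} (hm : m ≠ 0) (hn : n ≠ 0) (u : ℝ) : Em (m*n) u = Em m u * Em n u := by
  unfold Em
  rw [← exp_add]; congr 1
  push_cast
  rw [Real.log_mul (by exact_mod_cast hm) (by exact_mod_cast hn)]; ring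

theorem Em_eq_rpow {m : ℕ} (hm : m ≠ 0) (u : ℝ) : Em m u = (m:ℝ)^(-(1+u)) := by
  unfold Em
  rw [Real.rpow_def_of_pos (by positivity)]
  congr 1; ring

theorem hasDerivAt_Em (m : ℕ) (u : ℝ) : HasDerivAt (Em m) (-(Real.log m * Em m u)) u := by
  unfold Em
  have h1 : HasDerivAt (fun u : ℝ => -((1+u) * Real.log m)) (-Real.log m) u := by
    have := (((hasDerivAt_id' u).const_add 1).mul_const (Real.log m)).neg
    exact this.congr_deriv (by ring)
  have := h1.exp
  exact this.congr_deriv (by ring)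

theorem Em_lt_one {m : ℕ} (hm : 2 ≤ m) {u : ℝ} (hu : -1 < u) : Em m u < 1 := by
  unfold Em
  rw [exp_lt_one_iff]
  have : 0 < Real.log m := Real.log_pos (by exact_mod_cast hm)
  have : 0 < (1+u) * Real.log m := mul_pos (by linarith) this
  linarith

theorem Em_le_one {m : ℕ} {u : ℝ} (hu : -1 ≤ u) : Em m u ≤ 1 := by
  unfold Em
  rw [exp_le_one_iff]
  have : 0 ≤ Real.log m := Real.log_natCast_nonneg m
  have : 0 ≤ (1+u) * Real.log m := mul_nonneg (by linarith) this
  linarith

theorem Em_le {m : ℕ} (hm : 3 ≤ m) {u : ℝ} (hu : 0 ≤ u) : Em m u ≤ exp (-u) := by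
  unfold Em
  apply exp_le_exp.2
  have h1 : 1 ≤ Real.log m := by
    have h3 := Real.log_three_gt_d9
    have : Real.log 3 ≤ Real.log m := Real.log_le_log (by norm_num) (by exact_mod_cast hm)
    linarith
  nlinarith

/-- odd primes below `N` -/
def oddP (N : ℕ) : Finset ℕ := N.primesBelow.erase 2

theorem mem_oddP {N q : ℕ} : q ∈ oddP N ↔ q ≠ 2 ∧ q < N ∧ q.Prime := by
  unfold oddP
  rw [Finset.mem_erase, Nat.mem_primesBelow]

theorem oddP_three_le {N q : ℕ} (h : q ∈ oddP N) : 3 ≤ q := by
  rw [mem_oddP] at h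
  have := h.2.2.two_le
  omega

theorem B_eq_prod (N : ℕ) (u : ℝ) : B N u = ∏ q ∈ oddP N, (1 - Em q u) := by
  unfold B oddP
  by_cases h2 : 2 ∈ N.primesBelow
  · rw [← Finset.mul_prod_erase _ _ h2]
    rw [oddHom_apply, if_neg (by decide), sub_zero, one_mul]
    apply Finset.prod_congr rfl
    intro q hq
    rw [Finset.mem_erase, Nat.mem_primesBelow] at hq
    rw [oddHom_odd u (hq.2.2.odd_of_ne_two hq.1), Em_eq_rpow hq.2.2.ne_zero]
  · rw [Finset.erase_eq_of_notMem h2]
    apply Finset.prod_congr rfl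
    intro q hq
    have hq2 : q ≠ 2 := by rintro rfl; exact h2 hq
    rw [Nat.mem_primesBelow] at hq
    rw [oddHom_odd u (hq.2.odd_of_ne_two hq2), Em_eq_rpow hq.2.ne_zero]

theorem hasDerivAt_B (N : ℕ) {u : ℝ} (hu : 0 ≤ u) :
    HasDerivAt (B N) (B N u * ∑ q ∈ oddP N, Real.log q * (Em q u / (1 - Em q u))) u := by
  have h : HasDerivAt (fun u => ∏ q ∈ oddP N, (1 - Em q u))
      (∑ q ∈ oddP N, (∏ r ∈ (oddP N).erase q, (1 - Em r u)) • (Real.log q * Em q u)) u := by
    apply HasDerivAt.fun_finsetProd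
    intro q hq
    have := (hasDerivAt_Em q u).const_sub 1
    simpa using this
  have e : B N = fun u => ∏ q ∈ oddP N, (1 - Em q u) := by ext u; exact B_eq_prod N u
  rw [e]
  refine h.congr_deriv ?_
  simp only
  rw [Finset.mul_sum]
  apply Finset.sum_congr rfl
  intro q hq
  have h1 : 1 - Em q u ≠ 0 := by
    have := Em_lt_one (m := q) (by have := oddP_three_le hq; omega) (u := u) (by linarith)
    linarith
  rw [← Finset.mul_prod_erase _ _ hq, smul_eq_mul]
  field_simp

/-- clock of the prime 2 -/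
noncomputable def xk (k : ℕ) : ℝ := 23/100 + 4/5*k

noncomputable def tau (k : ℕ) (u : ℝ) : ℝ := if k = 0 then 1 else (1/2)^k * exp (-(xk k * u))

noncomputable def f2 (k : ℕ) (u : ℝ) : ℝ := if k = 0 then 0 else xk k * ((1/2)^k * exp (-(xk k * u)))

noncomputable def pi2 (k : ℕ) (u : ℝ) : ℝ := tau k u - tau (k+1) u

theorem xk_pos (k : ℕ) : 0 < xk k := by unfold xk; positivity

theorem xk_ge {k : ℕ} (hk : k ≠ 0) : 103/100 ≤ xk k := by
  unfold xk
  have : (1:ℝ) ≤ k := by exact_mod_cast Nat.one_le_iff_ne_zero.2 hk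
  linarith

theorem hasDerivAt_tau (k : ℕ) (u : ℝ) : HasDerivAt (tau k) (-(f2 k u)) u := by
  unfold tau f2
  by_cases hk : k = 0
  · simp only [hk, if_true, neg_zero]; exact hasDerivAt_const u 1
  · simp only [hk, if_false]
    have h1 : HasDerivAt (fun u : ℝ => -(xk k * u)) (-xk k) u := by
      have := ((hasDerivAt_id' u).const_mul (xk k)).neg
      exact this.congr_deriv (by ring)
    have := h1.exp.const_mul ((1/2:ℝ)^k)
    exact this.congr_deriv (by ring)

theorem f2_nonneg (k : ℕ) (u : ℝ) : 0 ≤ f2 k u := by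
  unfold f2; split_ifs
  · exact le_rfl
  · have := xk_pos k; positivity

theorem tau_nonneg (k : ℕ) (u : ℝ) : 0 ≤ tau k u := by
  unfold tau; split_ifs <;> positivity

theorem pi2_zero (u : ℝ) : pi2 0 u = 1 - 1/2 * exp (-(103/100*u)) := by
  unfold pi2 tau xk; norm_num

theorem pi2_succ {k : ℕ} (hk : k ≠ 0) (u : ℝ) :
    pi2 k u = (1/2)^k * (exp (-(xk k * u)) * (1 - 1/2*exp (-(4/5*u)))) := by
  unfold pi2 tau
  rw [if_neg hk, if_neg (Nat.succ_ne_zero k)]
  have : exp (-(xk (k+1) * u)) = exp (-(xk k * u)) * exp (-(4/5*u)) := by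
    rw [← exp_add]; congr 1; unfold xk; push_cast; ring
  rw [this, pow_succ]; ring

theorem pi2_nonneg (k : ℕ) {u : ℝ} (hu : 0 ≤ u) : 0 ≤ pi2 k u := by
  by_cases hk : k = 0
  · rw [hk, pi2_zero]
    have : exp (-(103/100*u)) ≤ 1 := by rw [exp_le_one_iff]; linarith
    linarith
  · rw [pi2_succ hk]
    have : exp (-(4/5*u)) ≤ 1 := by rw [exp_le_one_iff]; linarith
    have : 0 ≤ 1 - 1/2*exp (-(4/5*u)) := by linarith
    positivity

theorem pi2_le_one (k : ℕ) {u : ℝ} (hu : 0 ≤ u) : pi2 k u ≤ 1 := by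
  unfold pi2
  have h1 : tau k u ≤ 1 := by
    unfold tau; split_ifs
    · exact le_rfl
    · have h2 : ((1:ℝ)/2)^k ≤ 1 := pow_le_one₀ (by norm_num) (by norm_num)
      have h3 : exp (-(xk k * u)) ≤ 1 := by
        rw [exp_le_one_iff]; have := mul_nonneg (xk_pos k).le hu; linarith
      have h4 := exp_pos (-(xk k * u))
      have h5 : (0:ℝ) < (1/2)^k := by positivity
      nlinarith
  have := tau_nonneg (k+1) u
  linarith

theorem hasDerivAt_pi2 (k : ℕ) (u : ℝ) : HasDerivAt (pi2 k) (f2 (k+1) u - f2 k u) u := by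
  have := (hasDerivAt_tau k u).sub (hasDerivAt_tau (k+1) u)
  exact this.congr_deriv (by ring)

/-- exponent of 2 and odd part -/
noncomputable def kk (n : ℕ) : ℕ := n.factorization 2
noncomputable def mm (n : ℕ) : ℕ := n / 2^(n.factorization 2)

/-- the probability mass of `n` at time `u` -/
noncomputable def P (N n : ℕ) (u : ℝ) : ℝ := pi2 (kk n) u * Em (mm n) u * B N u

/-- flux from `n` to `n/p` at time `u` -/
noncomputable def F (N n p : ℕ) (u : ℝ) : ℝ :=
  if p = 2 then f2 (kk n) u * Em (mm n) u * B N u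
  else (n.factorization p) * (Real.log p / (1 - Em p u)) * pi2 (kk n) u * Em (mm n) u * B N u

theorem F_nonneg (N n : ℕ) {p : ℕ} (hp : p.Prime) {u : ℝ} (hu : 0 ≤ u) : 0 ≤ F N n p u := by
  have hB := B_pos N hu
  have hE := Em_pos (mm n) u
  unfold F; split_ifs
  · have := f2_nonneg (kk n) u; positivity
  · have h1 := pi2_nonneg (kk n) hu
    have h2 : 0 < 1 - Em p u := by
      have := Em_lt_one (m := p) hp.two_le (u := u) (by linarith); linarith
    have h3 : 0 ≤ Real.log p := Real.log_natCast_nonneg p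
    positivity

theorem mm_ne_zero {n : ℕ} (hn : n ≠ 0) : mm n ≠ 0 := (Nat.ordCompl_pos 2 hn).ne'

theorem kk_mul_odd {n q : ℕ} (hn : n ≠ 0) (hq : q.Prime) (hq2 : q ≠ 2) : kk (n*q) = kk n := by
  unfold kk
  rw [Nat.factorization_mul hn hq.ne_zero, Finsupp.add_apply, hq.factorization]
  simp [hq2]

theorem kk_mul_two {n : ℕ} (hn : n ≠ 0) : kk (n*2) = kk n + 1 := by
  unfold kk
  rw [Nat.factorization_mul hn two_ne_zero, Finsupp.add_apply, Nat.prime_two.factorization]
  simp

theorem mm_mul_odd {n q : ℕ} (hq : q.Prime) (hq2 : q ≠ 2) : mm (n*q) = mm n * q := by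
  unfold mm
  rw [Nat.ordCompl_mul]
  congr 1
  rw [hq.factorization]
  simp [hq2]

theorem mm_mul_two (n : ℕ) : mm (n*2) = mm n := by
  unfold mm
  rw [Nat.ordCompl_mul, Nat.prime_two.factorization]
  simp

theorem two_pow_mul_mm (n : ℕ) : 2^(kk n) * mm n = n := Nat.ordProj_mul_ordCompl_eq_self n 2

/-- `log (mm n)` as a sum over odd primes, for `N`-smooth numbers -/
theorem log_mm {N n : ℕ} (hn : n ∈ N.smoothNumbers) :
    Real.log (mm n) = ∑ q ∈ oddP N, (n.factorization q : ℝ) * Real.log q := by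
  have hn0 : n ≠ 0 := Nat.ne_zero_of_mem_smoothNumbers hn
  have h1 : Real.log n = ∑ q ∈ n.primeFactors, (n.factorization q : ℝ) * Real.log q := by
    conv_lhs => rw [← Nat.prod_factorization_pow_eq_self hn0]
    rw [Nat.prod_factorization_eq_prod_primeFactors]
    push_cast
    rw [Real.log_prod (by
      intro q hq
      have := (Nat.prime_of_mem_primeFactors hq).pos
      positivity)]
    apply Finset.sum_congr rfl
    intro q hq
    rw [Real.log_pow]
  have h2 : Real.log n = kk n * Real.log 2 + Real.log (mm n) := by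
    conv_lhs => rw [← two_pow_mul_mm n]
    push_cast
    rw [Real.log_mul (by positivity) (by exact_mod_cast mm_ne_zero hn0), Real.log_pow]
  have h3 : ∑ q ∈ n.primeFactors, (n.factorization q : ℝ) * Real.log q =
      ∑ q ∈ insert 2 (oddP N), (n.factorization q : ℝ) * Real.log q := by
    apply Finset.sum_subset
    · intro q hq
      rw [Finset.mem_insert, mem_oddP]
      have hp := Nat.prime_of_mem_primeFactors hq
      by_cases h : q = 2
      · left; exact h
      · right
        exact ⟨h, Nat.mem_smoothNumbers'.1 hn q hp (Nat.dvd_of_mem_primeFactors hq), hp⟩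
    · intro q _ hq
      rw [← Nat.support_factorization, Finsupp.notMem_support_iff] at hq
      rw [hq]; simp
  rw [Finset.sum_insert (by simp [mem_oddP])] at h3
  unfold kk at h2
  push_cast at h3
  linarith

/-- net flux -/
theorem hasDerivAt_P {N n : ℕ} (hn : n ∈ N.smoothNumbers) {u : ℝ} (hu : 0 ≤ u) :
    HasDerivAt (P N n) ((F N (n*2) 2 u + ∑ q ∈ oddP N, F N (n*q) q u) -
      (F N n 2 u + ∑ q ∈ oddP N, F N n q u)) u := by
  have hn0 : n ≠ 0 := Nat.ne_zero_of_mem_smoothNumbers hn
  have h1 := ((hasDerivAt_pi2 (kk n) u).mul (hasDerivAt_Em (mm n) u)).mul (hasDerivAt_B N hu)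
  have e : P N n = (pi2 (kk n) * Em (mm n)) * B N := by ext u; simp [P]
  rw [e]
  refine h1.congr_deriv ?_
  have hF2 : F N n 2 u = f2 (kk n) u * Em (mm n) u * B N u := by simp [F]
  have hF2' : F N (n*2) 2 u = f2 (kk n + 1) u * Em (mm n) u * B N u := by
    simp [F, kk_mul_two hn0, mm_mul_two]
  have hq : ∀ q ∈ oddP N, F N (n*q) q u - F N n q u =
      pi2 (kk n) u * Em (mm n) u * B N u * (Real.log q * (Em q u / (1 - Em q u))) -
      pi2 (kk n) u * Em (mm n) u * B N u * ((n.factorization q : ℝ) * Real.log q) := by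
    intro q hq
    have hq' := mem_oddP.1 hq
    have h1 : 1 - Em q u ≠ 0 := by
      have := Em_lt_one (m := q) (by have := oddP_three_le hq; omega) (u := u) (by linarith)
      linarith
    have hfac : (n*q).factorization q = n.factorization q + 1 := by
      rw [Nat.factorization_mul hn0 hq'.2.2.ne_zero, Finsupp.add_apply, hq'.2.2.factorization]
      simp
    unfold F
    rw [if_neg hq'.1, if_neg hq'.1, kk_mul_odd hn0 hq'.2.2 hq'.1, mm_mul_odd hq'.2.2 hq'.1,
      Em_mul (mm_ne_zero hn0) hq'.2.2.ne_zero, hfac]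
    push_cast
    field_simp
    ring
  have hsum : (∑ q ∈ oddP N, F N (n*q) q u) - ∑ q ∈ oddP N, F N n q u =
      pi2 (kk n) u * Em (mm n) u * B N u * (∑ q ∈ oddP N, Real.log q * (Em q u / (1 - Em q u))) -
      pi2 (kk n) u * Em (mm n) u * B N u * Real.log (mm n) := by
    rw [← Finset.sum_sub_distrib, Finset.sum_congr rfl hq, Finset.sum_sub_distrib, ← Finset.mul_sum,
      ← Finset.mul_sum, log_mm hn]
  have : (F N (n*2) 2 u + ∑ q ∈ oddP N, F N (n*q) q u) - (F N n 2 u + ∑ q ∈ oddP N, F N n q u) =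
     (F N (n*2) 2 u - F N n 2 u) + ((∑ q ∈ oddP N, F N (n*q) q u) - ∑ q ∈ oddP N, F N n q u) := by ring
  rw [this, hsum, hF2, hF2']
  simp only [Pi.mul_apply]
  ring

theorem F_zero_of_not_dvd {N n p : ℕ} (hp : p.Prime) (h : ¬ p ∣ n) (u : ℝ) : F N n p u = 0 := by
  have hf : n.factorization p = 0 := Nat.factorization_eq_zero_of_not_dvd h
  unfold F
  split_ifs with h2
  · subst h2
    unfold kk f2; rw [hf]; simp
  · rw [hf]; simp

/-- bound for the fluxes -/
theorem F_le {N n p : ℕ} (hn : n ≠ 0) (hp : p.Prime) {u : ℝ} (hu : 0 ≤ u) :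
    F N n p u ≤ (xk (kk n) + (n.factorization p) * (2 * Real.log p)) * exp (-u) := by
  have hB := B_pos N hu
  have hB1 := B_le_one N hu
  have hE := Em_pos (mm n) u
  have hE1 := Em_le_one (m := mm n) (u := u) (by linarith)
  have hx := xk_pos (kk n)
  have hlog : 0 ≤ Real.log p := Real.log_natCast_nonneg p
  have hexp := exp_pos (-u)
  unfold F; split_ifs with h2
  · by_cases hk : kk n = 0
    · rw [hk]; simp [f2]; rw [hk] at hx; positivity
    · have hf : f2 (kk n) u ≤ xk (kk n) * exp (-u) := by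
        unfold f2; rw [if_neg hk]
        apply mul_le_mul_of_nonneg_left _ hx.le
        have h3 : ((1:ℝ)/2)^(kk n) ≤ 1 := pow_le_one₀ (by norm_num) (by norm_num)
        have h4 : exp (-(xk (kk n) * u)) ≤ exp (-u) := by
          apply exp_le_exp.2
          have := xk_ge hk
          nlinarith
        have h5 : (0:ℝ) < (1/2)^(kk n) := by positivity
        have h6 := exp_pos (-(xk (kk n) * u))
        nlinarith
      have hf0 := f2_nonneg (kk n) u
      calc f2 (kk n) u * Em (mm n) u * B N u ≤ f2 (kk n) u * 1 * 1 := by gcongr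
        _ ≤ xk (kk n) * exp (-u) := by linarith
        _ ≤ _ := by
          apply mul_le_mul_of_nonneg_right _ hexp.le
          have : 0 ≤ (n.factorization p : ℝ) * (2 * Real.log p) := by positivity
          linarith
  · by_cases hv : n.factorization p = 0
    · rw [hv]; simp; positivity
    · have hdvd : p ∣ n := Nat.dvd_of_factorization_pos hv
      have hp3 : 3 ≤ p := by have := hp.two_le; omega
      have hpm : p ∣ mm n := by
        have h3 : p ∣ 2^(kk n) * mm n := by rw [two_pow_mul_mm]; exact hdvd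
        exact (Nat.Coprime.dvd_of_dvd_mul_left (Nat.Coprime.pow_right _ ((Nat.coprime_primes hp Nat.prime_two).2 h2)) h3)
      have hm3 : 3 ≤ mm n := hp3.trans (Nat.le_of_dvd (Nat.pos_of_ne_zero (mm_ne_zero hn)) hpm)
      have hEm := Em_le hm3 hu
      have hEp : Em p u ≤ 1/2 := by
        have h4 : Em p u ≤ Em p 0 := by
          unfold Em; apply exp_le_exp.2; nlinarith
        have h5 : Em p 0 = (p:ℝ)⁻¹ := by
          unfold Em; rw [add_zero, one_mul, exp_neg, Real.exp_log (by have := hp.pos; positivity)]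
        have h6 : (p:ℝ)⁻¹ ≤ 1/2 := by
          rw [← one_div]; apply one_div_le_one_div_of_le (by norm_num); exact_mod_cast hp.two_le
        linarith
      have h7 : Real.log p / (1 - Em p u) ≤ 2 * Real.log p := by
        rw [div_le_iff₀ (by linarith)]
        nlinarith
      have h8 := pi2_nonneg (kk n) hu
      have h9 := pi2_le_one (kk n) hu
      have h10 : 0 ≤ Real.log p / (1 - Em p u) := div_nonneg hlog (by linarith)
      calc (n.factorization p:ℝ) * (Real.log p / (1 - Em p u)) * pi2 (kk n) u * Em (mm n) u * B N u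
          ≤ (n.factorization p:ℝ) * (2 * Real.log p) * 1 * exp (-u) * 1 := by gcongr
        _ = ((n.factorization p:ℝ) * (2 * Real.log p)) * exp (-u) := by ring
        _ ≤ _ := by
          apply mul_le_mul_of_nonneg_right _ hexp.le
          linarith

theorem continuousOn_F (N n : ℕ) {p : ℕ} (hp : p.Prime) : ContinuousOn (F N n p) (Ioi 0) := by
  have hE : ∀ m, Continuous (Em m) := fun m => by unfold Em; fun_prop
  have hB := continuous_B N
  have hf : ∀ k, Continuous (f2 k) := fun k => by unfold f2; split_ifs <;> fun_prop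
  have hp2 : ∀ k, Continuous (pi2 k) := fun k => by
    unfold pi2 tau; split_ifs <;> fun_prop
  have hEm := hE (mm n)
  have hEp := hE p
  have hfk := hf (kk n)
  have hpk := hp2 (kk n)
  unfold F
  by_cases h : p = 2
  · simp only [h, if_true]; fun_prop
  · simp only [h, if_false]
    apply ContinuousOn.mul _ hB.continuousOn
    apply ContinuousOn.mul _ hEm.continuousOn
    apply ContinuousOn.mul _ hpk.continuousOn
    apply ContinuousOn.mul continuousOn_const
    apply ContinuousOn.div continuousOn_const (by fun_prop)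
    intro u hu
    have := Em_lt_one (m := p) hp.two_le (u := u) (by have : (0:ℝ) < u := hu
                                                      linarith)
    linarith

theorem integrableOn_F (N : ℕ) {n p : ℕ} (hn : n ≠ 0) (hp : p.Prime) :
    IntegrableOn (F N n p) (Ioi 0) := by
  have h0 := (integrableOn_pow_exp 0 (show (0:ℝ) < 1 by norm_num)).const_mul
    (xk (kk n) + (n.factorization p) * (2 * Real.log p))
  refine h0.mono' ((continuousOn_F N n hp).aestronglyMeasurable measurableSet_Ioi) ?_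
  filter_upwards [self_mem_ae_restrict measurableSet_Ioi] with u hu
  rw [Real.norm_eq_abs, abs_of_nonneg (F_nonneg N n hp (le_of_lt hu))]
  have := F_le (N := N) hn hp (le_of_lt hu)
  simpa using this

/-- total flux from `n` to `n/p` -/
noncomputable def IF (N n p : ℕ) : ℝ := ∫ u in Ioi (0:ℝ), F N n p u

theorem IF_nonneg (N n : ℕ) {p : ℕ} (hp : p.Prime) : 0 ≤ IF N n p :=
  setIntegral_nonneg measurableSet_Ioi (fun u hu => F_nonneg N n hp (le_of_lt hu))

theorem IF_zero {N n p : ℕ} (hp : p.Prime) (h : ¬ p ∣ n) : IF N n p = 0 := by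
  unfold IF
  simp_rw [F_zero_of_not_dvd hp h]
  simp

theorem P_nonneg (N n : ℕ) {u : ℝ} (hu : 0 ≤ u) : 0 ≤ P N n u := by
  have hB := B_pos N hu
  have hE := Em_pos (mm n) u
  have h1 := pi2_nonneg (kk n) hu
  unfold P; positivity

theorem tendsto_exp_neg_mul {c : ℝ} (hc : 0 < c) :
    Filter.Tendsto (fun u : ℝ => exp (-(c*u))) Filter.atTop (nhds 0) := by
  have h1 : Filter.Tendsto (fun u : ℝ => c*u) Filter.atTop Filter.atTop :=
    Filter.tendsto_id.const_mul_atTop hc
  exact Real.tendsto_exp_neg_atTop_nhds_zero.comp h1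

theorem tendsto_P {N n : ℕ} (hn : 2 ≤ n) : Filter.Tendsto (P N n) Filter.atTop (nhds 0) := by
  have hn0 : n ≠ 0 := by omega
  have hbound : ∀ u : ℝ, 0 ≤ u → P N n u ≤ exp (-(1*u)) := by
    intro u hu
    have hB := B_pos N hu
    have hB1 := B_le_one N hu
    have hE := Em_pos (mm n) u
    have hE1 := Em_le_one (m := mm n) (u := u) (by linarith)
    have h8 := pi2_nonneg (kk n) hu
    have h9 := pi2_le_one (kk n) hu
    unfold P
    rw [one_mul]
    by_cases hk : kk n = 0
    · have hm : 3 ≤ mm n := by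
        have h1 := two_pow_mul_mm n
        rw [hk, pow_zero, one_mul] at h1
        have h2 : ¬ 2 ∣ n := by
          intro h
          have := (Nat.prime_two.dvd_iff_one_le_factorization hn0).1 h
          unfold kk at hk; omega
        rw [h1]
        omega
      have := Em_le hm hu
      calc pi2 (kk n) u * Em (mm n) u * B N u ≤ 1 * exp (-u) * 1 := by gcongr
        _ = _ := by ring
    · have : pi2 (kk n) u ≤ exp (-u) := by
        rw [pi2_succ hk]
        have h3 : ((1:ℝ)/2)^(kk n) ≤ 1 := pow_le_one₀ (by norm_num) (by norm_num)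
        have h4 : exp (-(xk (kk n) * u)) ≤ exp (-u) := by
          apply exp_le_exp.2
          have := xk_ge hk
          nlinarith
        have h6 : 1 - 1/2*exp (-(4/5*u)) ≤ 1 := by have := exp_pos (-(4/5*u)); linarith
        have h7 : 0 ≤ 1 - 1/2*exp (-(4/5*u)) := by
          have : exp (-(4/5*u)) ≤ 1 := by rw [exp_le_one_iff]; linarith
          linarith
        calc _ ≤ 1 * (exp (-u) * 1) := by gcongr
          _ = _ := by ring
      calc pi2 (kk n) u * Em (mm n) u * B N u ≤ exp (-u) * 1 * 1 := by gcongr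
        _ = _ := by ring
  refine tendsto_of_tendsto_of_tendsto_of_le_of_le' tendsto_const_nhds (tendsto_exp_neg_mul one_pos) ?_ ?_
  · filter_upwards [Filter.eventually_ge_atTop 0] with u hu using P_nonneg N n hu
  · filter_upwards [Filter.eventually_ge_atTop 0] with u hu using hbound u hu

theorem tendsto_B (N : ℕ) : Filter.Tendsto (B N) Filter.atTop (nhds 1) := by
  have e : B N = fun u => ∏ q ∈ oddP N, (1 - Em q u) := by ext u; exact B_eq_prod N u
  rw [e]
  have : Filter.Tendsto (fun u => ∏ q ∈ oddP N, (1 - Em q u)) Filter.atTop (nhds (∏ q ∈ oddP N, (1 - 0))) := by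
    apply tendsto_finsetProd
    intro q hq
    apply Filter.Tendsto.const_sub
    have h3 := oddP_three_le hq
    refine tendsto_of_tendsto_of_tendsto_of_le_of_le' tendsto_const_nhds (tendsto_exp_neg_mul one_pos) ?_ ?_
    · filter_upwards with u using (Em_pos q u).le
    · filter_upwards [Filter.eventually_ge_atTop 0] with u hu
      have := Em_le h3 hu
      simpa using this
  simpa using this

theorem tendsto_P_one (N : ℕ) : Filter.Tendsto (P N 1) Filter.atTop (nhds 1) := by
  have h1 : P N 1 = fun u => (1 - 1/2 * exp (-(103/100*u))) * B N u := by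
    ext u
    unfold P
    have hk : kk 1 = 0 := by simp [kk]
    have hm : mm 1 = 1 := by simp [mm]
    rw [hk, hm, pi2_zero, Em_one, mul_one]
  rw [h1]
  have h2 := ((tendsto_exp_neg_mul (show (0:ℝ) < 103/100 by norm_num)).const_mul (1/2:ℝ)).const_sub 1
  have := h2.mul (tendsto_B N)
  simpa using this

theorem continuous_P (N n : ℕ) : Continuous (P N n) := by
  have hE : ∀ m, Continuous (Em m) := fun m => by unfold Em; fun_prop
  have hB := continuous_B N
  have hp2 : ∀ k, Continuous (pi2 k) := fun k => by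
    unfold pi2 tau; split_ifs <;> fun_prop
  have hEm := hE (mm n)
  have hpk := hp2 (kk n)
  unfold P
  fun_prop

theorem integral_net {N n : ℕ} (hn : n ∈ N.smoothNumbers) {l : ℝ}
    (hl : Filter.Tendsto (P N n) Filter.atTop (nhds l)) :
    (IF N (n*2) 2 + ∑ q ∈ oddP N, IF N (n*q) q) - (IF N n 2 + ∑ q ∈ oddP N, IF N n q) = l - P N n 0 := by
  have hn0 : n ≠ 0 := Nat.ne_zero_of_mem_smoothNumbers hn
  have i1 := integrableOn_F N (mul_ne_zero hn0 two_ne_zero) Nat.prime_two
  have i2 : ∀ q ∈ oddP N, IntegrableOn (F N (n*q) q) (Ioi 0) := fun q hq =>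
    integrableOn_F N (mul_ne_zero hn0 (mem_oddP.1 hq).2.2.ne_zero) (mem_oddP.1 hq).2.2
  have i3 := integrableOn_F N hn0 Nat.prime_two
  have i4 : ∀ q ∈ oddP N, IntegrableOn (F N n q) (Ioi 0) := fun q hq =>
    integrableOn_F N hn0 (mem_oddP.1 hq).2.2
  have j2 : IntegrableOn (fun u => ∑ q ∈ oddP N, F N (n*q) q u) (Ioi 0) := integrable_finset_sum _ i2
  have j4 : IntegrableOn (fun u => ∑ q ∈ oddP N, F N n q u) (Ioi 0) := integrable_finset_sum _ i4
  have h := MeasureTheory.integral_Ioi_of_hasDerivAt_of_tendsto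
    (f := P N n) (a := 0) (m := l)
    (f' := fun u => (F N (n*2) 2 u + ∑ q ∈ oddP N, F N (n*q) q u) -
      (F N n 2 u + ∑ q ∈ oddP N, F N n q u))
    (continuous_P N n).continuousWithinAt
    (fun u hu => hasDerivAt_P hn (le_of_lt hu)) ((i1.add j2).sub (i3.add j4)) hl
  rw [← h]
  rw [integral_sub (f := fun u => F N (n*2) 2 u + ∑ q ∈ oddP N, F N (n*q) q u)
    (g := fun u => F N n 2 u + ∑ q ∈ oddP N, F N n q u) (i1.add j2) (i3.add j4),
    integral_add i1 j2, integral_add i3 j4, integral_finset_sum _ i2, integral_finset_sum _ i4]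
  rfl

/-- load of `n` -/
noncomputable def load (N n : ℕ) : ℝ := IF N n 2 + ∑ q ∈ oddP N, IF N n q

theorem inflow_le {N n : ℕ} (hn : n ∈ N.smoothNumbers) (h2 : 2 ≤ n) :
    IF N (n*2) 2 + ∑ q ∈ oddP N, IF N (n*q) q ≤ load N n := by
  have h := integral_net hn (tendsto_P (N := N) h2)
  have := P_nonneg N n (le_refl (0:ℝ))
  unfold load; linarith

theorem load_primes_le {N : ℕ} : load N 2 + ∑ q ∈ oddP N, load N q ≤ 1 := by
  have h1 : 1 ∈ N.smoothNumbers := by
    rw [Nat.mem_smoothNumbers']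
    intro p hp h; exact absurd (Nat.dvd_one.1 h) hp.one_lt.ne'
  have h := integral_net h1 (tendsto_P_one N)
  have h0 := P_nonneg N 1 (le_refl (0:ℝ))
  have e1 : IF N 1 2 = 0 := IF_zero Nat.prime_two (by norm_num)
  have e2 : ∑ q ∈ oddP N, IF N 1 q = 0 := Finset.sum_eq_zero (fun q hq =>
    IF_zero (mem_oddP.1 hq).2.2 (by
      intro h; exact absurd (Nat.dvd_one.1 h) (mem_oddP.1 hq).2.2.one_lt.ne'))
  rw [e1, e2] at h
  simp only [one_mul] at h
  have e3 : load N 2 = IF N 2 2 := by
    unfold load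
    rw [Finset.sum_eq_zero, add_zero]
    intro q hq
    apply IF_zero (mem_oddP.1 hq).2.2
    intro h
    exact (mem_oddP.1 hq).1 ((Nat.prime_dvd_prime_iff_eq (mem_oddP.1 hq).2.2 Nat.prime_two).1 h)
  have e4 : ∀ q ∈ oddP N, load N q = IF N q q := by
    intro q hq
    unfold load
    have hp := (mem_oddP.1 hq).2.2
    rw [Finset.sum_eq_single q, IF_zero Nat.prime_two, zero_add]
    · intro h
      exact (mem_oddP.1 hq).1 ((Nat.prime_dvd_prime_iff_eq Nat.prime_two hp).1 h).symm
    · intro r hr hrq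
      apply IF_zero (mem_oddP.1 hr).2.2
      intro h
      exact hrq ((Nat.prime_dvd_prime_iff_eq (mem_oddP.1 hr).2.2 hp).1 h)
    · intro h; exact absurd hq h
  rw [e3, Finset.sum_congr rfl e4]
  linarith

end H40.PR
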