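import Mathlib
import Pool.Agent.H40.PRNumA
import Pool.Agent.H40.PRNumB
import Pool.Agent.H40.PRNumC
import Pool.Agent.H40.PRNumD

/-!
# Rational inequalities (collected)
-/
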