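import Mathlib
import Pool.Agent.H40.PRNum

/-!
# Final numerical inequalities for the loads
-/

set_option maxHeartbeats 4000000

namespace H40.PR

open Real

theorem exp_neg_ge {p q : ℕ} {v : ℝ} (hq : 0 < q) (hv : 0 < v)
    (h : v^q * (2.7182818286:ℝ)^p ≤ 1) : v ≤ exp (-((p:ℝ)/q)) := by
  have h1 : exp (-((p:ℝ)/q)) ^ q = (exp 1 ^ p)⁻¹ := by
    rw [← exp_nat_mul, ← exp_nat_mul, ← exp_neg]
    congr 1
    have : (q:ℝ) ≠ 0 := by positivity
    field_simp
  have h2 : exp 1 ^ p ≤ (2.7182818286:ℝ)^p :=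
    pow_le_pow_left₀ (exp_pos 1).le Real.exp_one_lt_d9.le p
  have h3 : v^q ≤ exp (-((p:ℝ)/q)) ^ q := by
    rw [h1, le_inv_comm₀ (by positivity) (by positivity)]
    refine h2.trans ?_
    rw [le_inv_comm₀ (by positivity) (by positivity), ← one_div, le_div_iff₀ (by positivity)]
    exact h
  exact le_of_pow_le_pow_left₀ hq.ne' (exp_pos _).le h3

theorem odd_step {L g1 g2 E h hj ε : ℝ} (hL : 0 < L) (hh : 18/25 ≤ h) (hhj : 0 < hj)
    (hg1 : 1/(L*(L+h)) ≤ g1) (hg2 : 1/(3/2*L*(3/2*L+hj)) ≤ g2) (hE : ε ≤ E) (hε : 0 < ε)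
    (hpoly : 3/2*(3/2*L+hj)*(h-18/25) ≤ 9/10*ε*(L+h)*(L+18/25)) :
    1/(L+18/25) ≤ L*g1 + 9/10*(L*E)*g2 := by
  have hh0 : 0 < h := by linarith
  have hE0 : 0 < E := by linarith
  have h1 : 1/(L+h) ≤ L*g1 := by
    have := mul_le_mul_of_nonneg_left hg1 hL.le
    refine le_trans (le_of_eq ?_) this
    field_simp
  have hg2' : 0 ≤ g2 := le_trans (by positivity) hg2
  have h2 : 9/10*ε/(3/2*(3/2*L+hj)) ≤ 9/10*(L*E)*g2 := by
    have e1 : 9/10*(L*ε)*(1/(3/2*L*(3/2*L+hj))) ≤ 9/10*(L*E)*g2 := by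
      apply mul_le_mul _ hg2 (by positivity) (by positivity)
      have := mul_le_mul_of_nonneg_left hE hL.le
      linarith
    refine le_trans (le_of_eq ?_) e1
    field_simp
  have h3 : 1/(L+18/25) - 1/(L+h) ≤ 9/10*ε/(3/2*(3/2*L+hj)) := by
    have e : 1/(L+18/25) - 1/(L+h) = (h-18/25)/((L+18/25)*(L+h)) := by
      field_simp; ring
    rw [e, div_le_div_iff₀ (by positivity) (by positivity)]
    nlinarith [hpoly]
  linarith

theorem A_step {L g1 g2 E h hj ε : ℝ} (hL : 0 < L) (hh : 18/25 ≤ h) (hhj : 0 < hj)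
    (hg1 : 1/(L+(693/1000+h)) ≤ g1) (hg2 : 1/((2*L+103/100)*(2*L+103/100+hj)) ≤ g2) (hE : ε ≤ E) (hε : 0 < ε)
    (hpoly : (h-18/25)*((2*L+103/100)*(2*L+103/100+hj)) ≤ L*ε*(L+1413/1000)*(L+(693/1000+h))) :
    1/(L+1413/1000) ≤ g1 + L*E*g2 := by
  have hh0 : 0 < h := by linarith
  have hE0 : 0 < E := by linarith
  have h2 : L*ε/((2*L+103/100)*(2*L+103/100+hj)) ≤ L*E*g2 := by
    have e1 : L*ε*(1/((2*L+103/100)*(2*L+103/100+hj))) ≤ L*E*g2 := by
      apply mul_le_mul _ hg2 (by positivity) (by positivity)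
      exact mul_le_mul_of_nonneg_left hE hL.le
    refine le_trans (le_of_eq ?_) e1
    field_simp
  have h3 : 1/(L+1413/1000) - 1/(L+(693/1000+h)) ≤ L*ε/((2*L+103/100)*(2*L+103/100+hj)) := by
    have e : 1/(L+1413/1000) - 1/(L+(693/1000+h)) = (h-18/25)/((L+1413/1000)*(L+(693/1000+h))) := by
      field_simp; ring
    rw [e, div_le_div_iff₀ (by positivity) (by positivity)]
    nlinarith [hpoly]
  linarith

/-- shorthand for the half-combination -/
theorem RBhalf (N : ℕ) {c X x : ℝ} (hc : 0 ≤ c) (hX : 0 < X) (hx : 0 ≤ x) :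
    Rc c X - 1/2 * Rc c (X+x) ≤ RB N X - 1/2 * RB N (X+x) :=
  Rc_le_RB N hc hX (by norm_num) (by norm_num) hx

theorem Rc_le_RB0 (N : ℕ) {c X : ℝ} (hc : 0 ≤ c) (hX : 0 < X) : Rc c X ≤ RB N X := by
  have := Rc_le_RB N hc hX (κ := 0) (x := 0) le_rfl zero_le_one le_rfl
  simpa using this


theorem odd_final (N : ℕ) {L : ℝ} (hL : 2197/1000 ≤ L) :
    1/(L+18/25) ≤ L*(RB N L - 1/2*RB N (L+103/100)) +
      9/10*(L*exp (-(L/2)))*(RB N (3/2*L) - 1/2*RB N (3/2*L+103/100)) := by
  have hL0 : 0 < L := by linarith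
  rcases le_total L (18/5:ℝ) with hcase | hcase
  · have hE : (413/2500:ℝ) ≤ exp (-(L/2)) := by
      refine (exp_neg_ge (p := 9) (q := 5) (by norm_num) (by norm_num) (by norm_num)).trans ?_
      apply exp_le_exp.2
      push_cast
      linarith
    refine odd_step hL0 (h := (187/200:ℝ)) (hj := (22/25:ℝ)) (by norm_num) (by norm_num)
      ((G0 L (by linarith)).trans (RBhalf N (by norm_num) hL0 (by norm_num)))
      ((G1 (3/2*L) (by linarith)).trans (RBhalf N (by norm_num) (by positivity) (by norm_num))) hE (by norm_num) ?_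
    nlinarith [mul_nonneg (show (0:ℝ) ≤ L - (2197/1000:ℝ) by linarith) (show (0:ℝ) ≤ L - (2197/1000:ℝ) by linarith)]
  rcases le_total L (51/10:ℝ) with hcase | hcase
  · have hE : (7807/100000:ℝ) ≤ exp (-(L/2)) := by
      refine (exp_neg_ge (p := 51) (q := 20) (by norm_num) (by norm_num) (by norm_num)).trans ?_
      apply exp_le_exp.2
      push_cast
      linarith
    refine odd_step hL0 (h := (173/200:ℝ)) (hj := (81/100:ℝ)) (by norm_num) (by norm_num)
      ((G2 L (by linarith)).trans (RBhalf N (by norm_num) hL0 (by norm_num)))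
      ((G4 (3/2*L) (by linarith)).trans (RBhalf N (by norm_num) (by positivity) (by norm_num))) hE (by norm_num) ?_
    nlinarith [mul_nonneg (show (0:ℝ) ≤ L - (18/5:ℝ) by linarith) (show (0:ℝ) ≤ L - (18/5:ℝ) by linarith)]
  rcases le_total L (13/2:ℝ) with hcase | hcase
  · have hE : (3877/100000:ℝ) ≤ exp (-(L/2)) := by
      refine (exp_neg_ge (p := 13) (q := 4) (by norm_num) (by norm_num) (by norm_num)).trans ?_
      apply exp_le_exp.2
      push_cast
      linarith
    refine odd_step hL0 (h := (163/200:ℝ)) (hj := (153/200:ℝ)) (by norm_num) (by norm_num)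
      ((G3 L (by linarith)).trans (RBhalf N (by norm_num) hL0 (by norm_num)))
      ((G6 (3/2*L) (by linarith)).trans (RBhalf N (by norm_num) (by positivity) (by norm_num))) hE (by norm_num) ?_
    nlinarith [mul_nonneg (show (0:ℝ) ≤ L - (51/10:ℝ) by linarith) (show (0:ℝ) ≤ L - (51/10:ℝ) by linarith)]
  rcases le_total L (38/5:ℝ) with hcase | hcase
  · have hE : (559/25000:ℝ) ≤ exp (-(L/2)) := by
      refine (exp_neg_ge (p := 19) (q := 5) (by norm_num) (by norm_num) (by norm_num)).trans ?_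
      apply exp_le_exp.2
      push_cast
      linarith
    refine odd_step hL0 (h := (157/200:ℝ)) (hj := (147/200:ℝ)) (by norm_num) (by norm_num)
      ((G5 L (by linarith)).trans (RBhalf N (by norm_num) hL0 (by norm_num)))
      ((G8 (3/2*L) (by linarith)).trans (RBhalf N (by norm_num) (by positivity) (by norm_num))) hE (by norm_num) ?_
    nlinarith [mul_nonneg (show (0:ℝ) ≤ L - (13/2:ℝ) by linarith) (show (0:ℝ) ≤ L - (13/2:ℝ) by linarith)]
  rcases le_total L (43/5:ℝ) with hcase | hcase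
  · have hE : (339/25000:ℝ) ≤ exp (-(L/2)) := by
      refine (exp_neg_ge (p := 43) (q := 10) (by norm_num) (by norm_num) (by norm_num)).trans ?_
      apply exp_le_exp.2
      push_cast
      linarith
    refine odd_step hL0 (h := (153/200:ℝ)) (hj := (18/25:ℝ)) (by norm_num) (by norm_num)
      ((G6 L (by linarith)).trans (RBhalf N (by norm_num) hL0 (by norm_num)))
      ((G9 (3/2*L) (by linarith)).trans (RBhalf N (by norm_num) (by positivity) (by norm_num))) hE (by norm_num) ?_
    nlinarith [mul_nonneg (show (0:ℝ) ≤ L - (38/5:ℝ) by linarith) (show (0:ℝ) ≤ L - (38/5:ℝ) by linarith)]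
  rcases le_total L (97/10:ℝ) with hcase | hcase
  · have hE : (7827/1000000:ℝ) ≤ exp (-(L/2)) := by
      refine (exp_neg_ge (p := 97) (q := 20) (by norm_num) (by norm_num) (by norm_num)).trans ?_
      apply exp_le_exp.2
      push_cast
      linarith
    refine odd_step hL0 (h := (3/4:ℝ)) (hj := (141/200:ℝ)) (by norm_num) (by norm_num)
      ((G7 L (by linarith)).trans (RBhalf N (by norm_num) hL0 (by norm_num)))
      ((G10 (3/2*L) (by linarith)).trans (RBhalf N (by norm_num) (by positivity) (by norm_num))) hE (by norm_num) ?_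
    nlinarith [mul_nonneg (show (0:ℝ) ≤ L - (43/5:ℝ) by linarith) (show (0:ℝ) ≤ L - (43/5:ℝ) by linarith)]
  rcases le_total L (113/10:ℝ) with hcase | hcase
  · have hE : (3517/1000000:ℝ) ≤ exp (-(L/2)) := by
      refine (exp_neg_ge (p := 113) (q := 20) (by norm_num) (by norm_num) (by norm_num)).trans ?_
      apply exp_le_exp.2
      push_cast
      linarith
    refine odd_step hL0 (h := (147/200:ℝ)) (hj := (141/200:ℝ)) (by norm_num) (by norm_num)
      ((G8 L (by linarith)).trans (RBhalf N (by norm_num) hL0 (by norm_num)))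
      ((G10 (3/2*L) (by linarith)).trans (RBhalf N (by norm_num) (by positivity) (by norm_num))) hE (by norm_num) ?_
    nlinarith [mul_nonneg (show (0:ℝ) ≤ L - (97/10:ℝ) by linarith) (show (0:ℝ) ≤ L - (97/10:ℝ) by linarith)]
  have h1 := (G9 L (by linarith)).trans (RBhalf N (by norm_num) hL0 (by norm_num))
  have h2 : 0 ≤ RB N (3/2*L) - 1/2*RB N (3/2*L+103/100) :=
    le_trans (by positivity) ((G9 (3/2*L) (by linarith)).trans (RBhalf N (by norm_num) (by positivity) (by norm_num)))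
  have h3 := mul_le_mul_of_nonneg_left h1 hL0.le
  have h4 : L*(1/(L*(L+(18/25:ℝ)))) = 1/(L+18/25) := by field_simp
  rw [h4] at h3
  have h5 : 0 ≤ 9/10*(L*exp (-(L/2)))*(RB N (3/2*L) - 1/2*RB N (3/2*L+103/100)) :=
    mul_nonneg (by positivity) h2
  linarith


theorem A_final (N : ℕ) {L : ℝ} (hL0 : 1098/1000 ≤ L) (hL1 : L ≤ 1099/1000 ∨ 1609/1000 ≤ L) :
    1/(L+1413/1000) ≤ (103/100*RB N (L+103/100) + L*(RB N (L+103/100) - 1/2*RB N (L+183/100))) +
      L*exp (-L)*(RB N (2*L+103/100) - 1/2*RB N (2*L+103/100+4/5)) := by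
  have hLp : 0 < L := by linarith
  have hA : ∀ c : ℝ, 0 ≤ c → 103/100*Rc c (L+103/100) + L*(Rc c (L+103/100) - 1/2*Rc c (L+183/100)) ≤
      103/100*RB N (L+103/100) + L*(RB N (L+103/100) - 1/2*RB N (L+183/100)) := by
    intro c hc
    have h1 := Rc_le_RB0 N hc (show 0 < L+103/100 by positivity)
    have h2 := RBhalf N hc (show 0 < L+103/100 by positivity) (show (0:ℝ) ≤ 4/5 by norm_num)
    rw [show L+103/100+4/5 = L+183/100 by ring] at h2
    have h3 := mul_le_mul_of_nonneg_left h2 hLp.le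
    linarith
  rcases le_total L (11/10:ℝ) with hcase | hcase
  · have hlow : (549/500:ℝ) ≤ L := by
      first | exact hL0 | (rcases hL1 with h | h <;> linarith)
    have hE : (208/625:ℝ) ≤ exp (-L) := by
      refine (exp_neg_ge (p := 11) (q := 10) (by norm_num) (by norm_num) (by norm_num)).trans ?_
      apply exp_le_exp.2
      push_cast
      linarith
    refine A_step hLp (h := (43/50:ℝ)) (hj := (43/40:ℝ)) (by norm_num) (by norm_num)
      (le_trans (le_of_eq (by norm_num)) ((A0 L (by linarith)).trans (hA (17/20:ℝ) (by norm_num))))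
      ((H0 (2*L+103/100) (by linarith)).trans (RBhalf N (by norm_num) (by positivity) (by norm_num))) hE (by norm_num) ?_
    obtain ⟨t, ht, rfl⟩ : ∃ t : ℝ, 0 ≤ t ∧ L = (549/500:ℝ) + t := ⟨L - (549/500:ℝ), by linarith, by ring⟩
    nlinarith [mul_nonneg ht ht, mul_nonneg (mul_nonneg ht ht) ht]
  rcases le_total L (19/10:ℝ) with hcase | hcase
  · have hlow : (1609/1000:ℝ) ≤ L := by
      first | exact hL0 | (rcases hL1 with h | h <;> linarith)
    have hE : (299/2000:ℝ) ≤ exp (-L) := by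
      refine (exp_neg_ge (p := 19) (q := 10) (by norm_num) (by norm_num) (by norm_num)).trans ?_
      apply exp_le_exp.2
      push_cast
      linarith
    refine A_step hLp (h := (41/50:ℝ)) (hj := (213/200:ℝ)) (by norm_num) (by norm_num)
      (le_trans (le_of_eq (by norm_num)) ((A1 L (by linarith)).trans (hA (9/10:ℝ) (by norm_num))))
      ((H1 (2*L+103/100) (by linarith)).trans (RBhalf N (by norm_num) (by positivity) (by norm_num))) hE (by norm_num) ?_
    obtain ⟨t, ht, rfl⟩ : ∃ t : ℝ, 0 ≤ t ∧ L = (1609/1000:ℝ) + t := ⟨L - (1609/1000:ℝ), by linarith, by ring⟩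
    nlinarith [mul_nonneg ht ht, mul_nonneg (mul_nonneg ht ht) ht]
  rcases le_total L (11/5:ℝ) with hcase | hcase
  · have hlow : (19/10:ℝ) ≤ L := by
      first | exact hL0 | (rcases hL1 with h | h <;> linarith)
    have hE : (1107/10000:ℝ) ≤ exp (-L) := by
      refine (exp_neg_ge (p := 11) (q := 5) (by norm_num) (by norm_num) (by norm_num)).trans ?_
      apply exp_le_exp.2
      push_cast
      linarith
    refine A_step hLp (h := (4/5:ℝ)) (hj := (53/50:ℝ)) (by norm_num) (by norm_num)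
      (le_trans (le_of_eq (by norm_num)) ((A2 L (by linarith)).trans (hA (9/10:ℝ) (by norm_num))))
      ((H2 (2*L+103/100) (by linarith)).trans (RBhalf N (by norm_num) (by positivity) (by norm_num))) hE (by norm_num) ?_
    obtain ⟨t, ht, rfl⟩ : ∃ t : ℝ, 0 ≤ t ∧ L = (19/10:ℝ) + t := ⟨L - (19/10:ℝ), by linarith, by ring⟩
    nlinarith [mul_nonneg ht ht, mul_nonneg (mul_nonneg ht ht) ht]
  rcases le_total L (13/5:ℝ) with hcase | hcase
  · have hlow : (11/5:ℝ) ≤ L := by
      first | exact hL0 | (rcases hL1 with h | h <;> linarith)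
    have hE : (3713/50000:ℝ) ≤ exp (-L) := by
      refine (exp_neg_ge (p := 13) (q := 5) (by norm_num) (by norm_num) (by norm_num)).trans ?_
      apply exp_le_exp.2
      push_cast
      linarith
    refine A_step hLp (h := (39/50:ℝ)) (hj := (211/200:ℝ)) (by norm_num) (by norm_num)
      (le_trans (le_of_eq (by norm_num)) ((A3 L (by linarith)).trans (hA (19/20:ℝ) (by norm_num))))
      ((H3 (2*L+103/100) (by linarith)).trans (RBhalf N (by norm_num) (by positivity) (by norm_num))) hE (by norm_num) ?_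
    obtain ⟨t, ht, rfl⟩ : ∃ t : ℝ, 0 ≤ t ∧ L = (11/5:ℝ) + t := ⟨L - (11/5:ℝ), by linarith, by ring⟩
    nlinarith [mul_nonneg ht ht, mul_nonneg (mul_nonneg ht ht) ht]
  rcases le_total L (31/10:ℝ) with hcase | hcase
  · have hlow : (13/5:ℝ) ≤ L := by
      first | exact hL0 | (rcases hL1 with h | h <;> linarith)
    have hE : (563/12500:ℝ) ≤ exp (-L) := by
      refine (exp_neg_ge (p := 31) (q := 10) (by norm_num) (by norm_num) (by norm_num)).trans ?_
      apply exp_le_exp.2
      push_cast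
      linarith
    refine A_step hLp (h := (19/25:ℝ)) (hj := (21/20:ℝ)) (by norm_num) (by norm_num)
      (le_trans (le_of_eq (by norm_num)) ((A4 L (by linarith)).trans (hA (9/10:ℝ) (by norm_num))))
      ((H4 (2*L+103/100) (by linarith)).trans (RBhalf N (by norm_num) (by positivity) (by norm_num))) hE (by norm_num) ?_
    obtain ⟨t, ht, rfl⟩ : ∃ t : ℝ, 0 ≤ t ∧ L = (13/5:ℝ) + t := ⟨L - (13/5:ℝ), by linarith, by ring⟩
    nlinarith [mul_nonneg ht ht, mul_nonneg (mul_nonneg ht ht) ht]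
  rcases le_total L (17/5:ℝ) with hcase | hcase
  · have hlow : (31/10:ℝ) ≤ L := by
      first | exact hL0 | (rcases hL1 with h | h <;> linarith)
    have hE : (417/12500:ℝ) ≤ exp (-L) := by
      refine (exp_neg_ge (p := 17) (q := 5) (by norm_num) (by norm_num) (by norm_num)).trans ?_
      apply exp_le_exp.2
      push_cast
      linarith
    refine A_step hLp (h := (73/100:ℝ)) (hj := (21/20:ℝ)) (by norm_num) (by norm_num)
      (le_trans (le_of_eq (by norm_num)) ((A5 L (by linarith)).trans (hA (1:ℝ) (by norm_num))))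
      ((H5 (2*L+103/100) (by linarith)).trans (RBhalf N (by norm_num) (by positivity) (by norm_num))) hE (by norm_num) ?_
    obtain ⟨t, ht, rfl⟩ : ∃ t : ℝ, 0 ≤ t ∧ L = (31/10:ℝ) + t := ⟨L - (31/10:ℝ), by linarith, by ring⟩
    nlinarith [mul_nonneg ht ht, mul_nonneg (mul_nonneg ht ht) ht]
  have h1 := (A6 L (by linarith)).trans (hA (19/20:ℝ) (by norm_num))
  have h2 : 0 ≤ RB N (2*L+103/100) - 1/2*RB N (2*L+103/100+4/5) :=
    le_trans (by positivity) ((H5 (2*L+103/100) (by linarith)).trans (RBhalf N (by norm_num) (by positivity) (by norm_num)))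
  have h5 : 0 ≤ L*exp (-L)*(RB N (2*L+103/100) - 1/2*RB N (2*L+103/100+4/5)) :=
    mul_nonneg (by positivity) h2
  have h6 : 1/(L+1413/1000) = 1/(L+(1413/1000:ℝ)) := by norm_num
  rw [h6]
  linarith


theorem k2_final (N : ℕ) {k L x : ℝ} (hk : 2 ≤ k) (hL : 0 ≤ L) (hx : x = 23/100 + 4/5*k) :
    1/(693/1000*k+L+18/25) ≤ x*RB N (x+L) + L*(RB N (x+L) - 1/2*RB N (x+L+4/5)) := by
  set M := x + L with hM
  have hx2 : 183/100 ≤ x := by rw [hx]; linarith
  have hM2 : 183/100 ≤ M := by linarith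
  have hMx : x ≤ M := by linarith
  -- lower bound by Rc
  have hlow : x*Rc (17/20) M + (M-x)*(Rc (17/20) M - 1/2*Rc (17/20) (M+4/5)) ≤
      x*RB N M + L*(RB N M - 1/2*RB N (M+4/5)) := by
    have h1 := Rc_le_RB0 N (show (0:ℝ) ≤ 17/20 by norm_num) (show 0 < M by linarith)
    have h2 := RBhalf N (show (0:ℝ) ≤ 17/20 by norm_num) (show 0 < M by linarith) (show (0:ℝ) ≤ 4/5 by norm_num)
    have h3 := mul_le_mul_of_nonneg_left h2 hL
    have h4 := mul_le_mul_of_nonneg_left h1 (show 0 ≤ x by linarith)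
    have : M - x = L := by rw [hM]; ring
    rw [this]; linarith
  refine le_trans ?_ hlow
  -- the function z
  have hz : 693/1000*k+L+18/25 = 693/800*(x-23/100) + (M-x) + 18/25 := by
    rw [hM, hx]; ring
  rw [hz]
  have hA := lineA2 (M - 183/100) (by linarith)
  have hB := lineB M hM2
  rw [show M - 183/100 + 183/100 = M by ring, show M - 183/100 + 263/100 = M + 4/5 by ring] at hA
  have zA : M - 183/100 + 1053/500 = 693/800*(183/100-23/100) + (M-183/100) + 18/25 := by ring
  have zB : 693/800*M + 41661/80000 = 693/800*(M-23/100) + (M-M) + 18/25 := by ring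
  rw [zA] at hA
  rw [zB] at hB
  rcases eq_or_lt_of_le hM2 with hM3 | hM3
  · have hxe : x = 183/100 := by linarith
    rw [hxe, ← hM3]
    rw [← hM3] at hA
    convert hA using 2
  · set t := (x - 183/100)/(M - 183/100) with ht
    have hd : 0 < M - 183/100 := by linarith
    have ht0 : 0 ≤ t := div_nonneg (by linarith) hd.le
    have ht1 : t ≤ 1 := by rw [ht, div_le_one hd]; linarith
    have hxt : x = (1-t)*(183/100) + t*M := by
      have : t * (M - 183/100) = x - 183/100 := div_mul_cancel₀ _ hd.ne'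
      linarith
    set z1 := 693/800*(183/100-23/100) + (M-183/100) + 18/25 with hz1
    set z2 := 693/800*(M-23/100) + (M-M) + 18/25 with hz2
    have hz1p : 0 < z1 := by rw [hz1]; linarith
    have hz2p : 0 < z2 := by rw [hz2]; linarith
    have hzx : 693/800*(x-23/100) + (M-x) + 18/25 = (1-t)*z1 + t*z2 := by
      rw [hz1, hz2, hxt]; ring
    rw [hzx]
    have hconv : 1/((1-t)*z1 + t*z2) ≤ (1-t)*(1/z1) + t*(1/z2) := by
      have hpos : 0 < (1-t)*z1 + t*z2 := by
        rcases eq_or_lt_of_le ht0 with h | h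
        · rw [← h]; simp; exact hz1p
        · have : 0 ≤ (1-t)*z1 := mul_nonneg (by linarith) hz1p.le
          have : 0 < t*z2 := mul_pos h hz2p
          linarith
      rw [div_le_iff₀ hpos]
      have e : ((1-t)*(1/z1) + t*(1/z2)) * ((1-t)*z1 + t*z2) =
          1 + t*(1-t)*(z1-z2)^2/(z1*z2) := by
        field_simp; ring
      rw [e]
      have : 0 ≤ t*(1-t)*(z1-z2)^2/(z1*z2) := by
        have : 0 ≤ 1 - t := by linarith
        positivity
      linarith
    refine hconv.trans ?_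
    have h5 := mul_le_mul_of_nonneg_left hA (show 0 ≤ 1 - t by linarith)
    have h6 := mul_le_mul_of_nonneg_left hB ht0
    have e2 : x*Rc (17/20) M + (M-x)*(Rc (17/20) M - 1/2*Rc (17/20) (M+4/5)) =
        (1-t)*(183/100*Rc (17/20) M + (M - 183/100)*(Rc (17/20) M - 1/2*Rc (17/20) (M+4/5))) +
        t*(M*Rc (17/20) M) := by
      rw [hxt]; ring
    rw [e2]
    linarith

theorem Rc_lower {c X a b : ℝ} (hc : 0 ≤ c) (ha : 0 < a) (h1 : a ≤ X) (h2 : X ≤ b) :
    4/(b+c)^2 - 8/(a+2*c)^3 - 2/(a+693/1000+2*c)^2 ≤ Rc c X := by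
  unfold Rc
  have := ha.trans_le h1
  gcongr

theorem Rc_upper {c X a b : ℝ} (hc : 0 ≤ c) (ha : 0 < a) (h1 : a ≤ X) (h2 : X ≤ b) :
    Rc c X ≤ 4/(a+c)^2 - 8/(b+2*c)^3 - 2/(b+693/1000+2*c)^2 := by
  unfold Rc
  have := ha.trans_le h1
  gcongr

theorem E2_five (N : ℕ) {L : ℝ} (hL : 1609/1000 ≤ L) :
    1/(L+18/25) ≤ L*(RB N L - 1/4*RB N (L+183/100)) := by
  refine (E2a L (by linarith)).trans ?_
  apply mul_le_mul_of_nonneg_left _ (by linarith)
  exact Rc_le_RB N (by norm_num) (by linarith) (by norm_num) (by norm_num) (by norm_num)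

theorem N7_five (N : ℕ) {L : ℝ} (hL : 1609/1000 ≤ L) :
    1/(L+1) ≤ L*(RB N L - 1/2*RB N (L+103/100)) := by
  refine (N7a L (by linarith)).trans ?_
  apply mul_le_mul_of_nonneg_left _ (by linarith)
  exact Rc_le_RB N (by norm_num) (by linarith) (by norm_num) (by norm_num) (by norm_num)

theorem N7_two (N : ℕ) : 1/((693:ℝ)/1000+1) ≤ 103/100*RB N (103/100) := by
  have h1 := Rc_le_RB0 N (show (0:ℝ) ≤ 3/4 by norm_num) (show (0:ℝ) < 103/100 by norm_num)
  have h2 : 1/((693:ℝ)/1000+1) ≤ 103/100*Rc (3/4) (103/100) := by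
    unfold Rc; norm_num
  linarith

theorem E2_three (N : ℕ) {L : ℝ} (h1 : 10986/10000 ≤ L) (h2 : L ≤ 10987/10000) :
    1/(L+18/25) ≤ L*(RB N L - 1/4*RB N (L+183/100)) + L/3*(RB N (2*L) - 1/4*RB N (2*L+183/100)) := by
  have hLp : 0 < L := by linarith
  have a1 := Rc_le_RB N (c := 4/5) (X := L) (κ := 1/4) (x := 183/100) (by norm_num) hLp (by norm_num) (by norm_num) (by norm_num)
  have a2 := Rc_le_RB N (c := 4/5) (X := 2*L) (κ := 1/4) (x := 183/100) (by norm_num) (by positivity) (by norm_num) (by norm_num) (by norm_num)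
  have b1 := Rc_lower (c := 4/5) (X := L) (a := 10986/10000) (b := 10987/10000) (by norm_num) (by norm_num) h1 h2
  have b2 := Rc_upper (c := 4/5) (X := L+183/100) (a := 10986/10000+183/100) (b := 10987/10000+183/100) (by norm_num) (by norm_num) (by linarith) (by linarith)
  have b3 := Rc_lower (c := 4/5) (X := 2*L) (a := 21972/10000) (b := 21974/10000) (by norm_num) (by norm_num) (by linarith) (by linarith)
  have b4 := Rc_upper (c := 4/5) (X := 2*L+183/100) (a := 21972/10000+183/100) (b := 21974/10000+183/100) (by norm_num) (by norm_num) (by linarith) (by linarith)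
  norm_num at b1 b2 b3 b4
  have c1 : (49/100:ℝ) ≤ RB N L - 1/4*RB N (L+183/100) := by linarith
  have c2 : (18/100:ℝ) ≤ RB N (2*L) - 1/4*RB N (2*L+183/100) := by linarith
  have c3 : 1/(L+18/25) ≤ 5000/9093 := by
    rw [div_le_div_iff₀ (by positivity) (by norm_num)]; linarith
  have c4 : L*(49/100) ≤ L*(RB N L - 1/4*RB N (L+183/100)) := mul_le_mul_of_nonneg_left c1 hLp.le
  have c5 : L/3*(18/100) ≤ L/3*(RB N (2*L) - 1/4*RB N (2*L+183/100)) := mul_le_mul_of_nonneg_left c2 (by positivity)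
  linarith

theorem N7_three (N : ℕ) {L : ℝ} (h1 : 10986/10000 ≤ L) (h2 : L ≤ 10987/10000) :
    1/(L+1) ≤ L*(RB N L - 1/2*RB N (L+103/100)) + L/3*(RB N (2*L) - 1/2*RB N (2*L+103/100)) := by
  have hLp : 0 < L := by linarith
  have a1 := Rc_le_RB N (c := 4/5) (X := L) (κ := 1/2) (x := 103/100) (by norm_num) hLp (by norm_num) (by norm_num) (by norm_num)
  have a2 := Rc_le_RB N (c := 4/5) (X := 2*L) (κ := 1/2) (x := 103/100) (by norm_num) (by positivity) (by norm_num) (by norm_num) (by norm_num)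
  have b1 := Rc_lower (c := 4/5) (X := L) (a := 10986/10000) (b := 10987/10000) (by norm_num) (by norm_num) h1 h2
  have b2 := Rc_upper (c := 4/5) (X := L+103/100) (a := 10986/10000+103/100) (b := 10987/10000+103/100) (by norm_num) (by norm_num) (by linarith) (by linarith)
  have b3 := Rc_lower (c := 4/5) (X := 2*L) (a := 21972/10000) (b := 21974/10000) (by norm_num) (by norm_num) (by linarith) (by linarith)
  have b4 := Rc_upper (c := 4/5) (X := 2*L+103/100) (a := 21972/10000+103/100) (b := 21974/10000+103/100) (by norm_num) (by norm_num) (by linarith) (by linarith)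
  norm_num at b1 b2 b3 b4
  have c1 : (41/100:ℝ) ≤ RB N L - 1/2*RB N (L+103/100) := by linarith
  have c2 : (13/100:ℝ) ≤ RB N (2*L) - 1/2*RB N (2*L+103/100) := by linarith
  have c3 : 1/(L+1) ≤ 5000/10493 := by
    rw [div_le_div_iff₀ (by positivity) (by norm_num)]; linarith
  have c4 : L*(41/100) ≤ L*(RB N L - 1/2*RB N (L+103/100)) := mul_le_mul_of_nonneg_left c1 hLp.le
  have c5 : L/3*(13/100) ≤ L/3*(RB N (2*L) - 1/2*RB N (2*L+103/100)) := mul_le_mul_of_nonneg_left c2 (by positivity)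
  linarith

end H40.PR
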