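import Mathlib
import Pool.Agent.H40.PRFlow
import Pool.Agent.H40.PRNum2

/-!
# Lower bounds for the loads
-/

namespace H40.PR

open Real Finset MeasureTheory Set

/-- extra rate -/
noncomputable def DD (N n : ℕ) (u : ℝ) : ℝ :=
  ∑ q ∈ oddP N, (n.factorization q : ℝ) * Real.log q * (Em q u / (1 - Em q u))

theorem one_sub_Em_pos {N q : ℕ} (hq : q ∈ oddP N) {u : ℝ} (hu : 0 ≤ u) : 0 < 1 - Em q u := by
  have := Em_lt_one (m := q) (by have := oddP_three_le hq; omega) (u := u) (by linarith)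
  linarith

theorem sumF_eq {N n : ℕ} (hn : n ∈ N.smoothNumbers) {u : ℝ} (hu : 0 ≤ u) :
    ∑ q ∈ oddP N, F N n q u =
      (Real.log (mm n) + DD N n u) * (pi2 (kk n) u * Em (mm n) u) * B N u := by
  rw [log_mm hn, DD, ← Finset.sum_add_distrib, Finset.sum_mul, Finset.sum_mul]
  apply Finset.sum_congr rfl
  intro q hq
  have hq' := mem_oddP.1 hq
  have h1 : 1 - Em q u ≠ 0 := (one_sub_Em_pos hq hu).ne'
  unfold F
  rw [if_neg hq'.1]
  field_simp
  ring

theorem DD_nonneg (N n : ℕ) {u : ℝ} (hu : 0 ≤ u) : 0 ≤ DD N n u := by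
  apply Finset.sum_nonneg
  intro q hq
  have h1 := one_sub_Em_pos hq hu
  have h2 := Em_pos q u
  have h3 : 0 ≤ Real.log q := Real.log_natCast_nonneg q
  positivity

theorem integrableOn_tot (N : ℕ) {n : ℕ} (hn : n ≠ 0) :
    IntegrableOn (fun u => F N n 2 u + ∑ q ∈ oddP N, F N n q u) (Ioi 0) :=
  (integrableOn_F N hn Nat.prime_two).add
    (integrable_finsetSum _ (fun q hq => integrableOn_F N hn (mem_oddP.1 hq).2.2))

theorem load_eq (N : ℕ) {n : ℕ} (hn : n ≠ 0) :
    load N n = ∫ u in Ioi (0:ℝ), (F N n 2 u + ∑ q ∈ oddP N, F N n q u) := by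
  unfold load IF
  rw [integral_add (integrableOn_F N hn Nat.prime_two)
    (integrable_finsetSum _ (fun q hq => integrableOn_F N hn (mem_oddP.1 hq).2.2)),
    integral_finsetSum _ (fun q hq => integrableOn_F N hn (mem_oddP.1 hq).2.2)]

theorem load_ge (N : ℕ) {n : ℕ} (hn : n ≠ 0) {g : ℝ → ℝ} (hg : IntegrableOn g (Ioi 0))
    (h : ∀ u, 0 < u → g u ≤ F N n 2 u + ∑ q ∈ oddP N, F N n q u) :
    ∫ u in Ioi (0:ℝ), g u ≤ load N n := by
  rw [load_eq N hn]
  exact setIntegral_mono_on hg (integrableOn_tot N hn) measurableSet_Ioi (fun u hu => h u hu)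

/-- exponential times `B` -/
noncomputable def eB (N : ℕ) (X u : ℝ) : ℝ := exp (-(X*u)) * B N u

noncomputable def hfB (N : ℕ) (X κ x u : ℝ) : ℝ := eB N X u - κ * eB N (X+x) u

theorem hfB_eq (N : ℕ) (X κ x u : ℝ) :
    hfB N X κ x u = exp (-(X*u)) * (1 - κ * exp (-(x*u))) * B N u := by
  unfold hfB eB
  have : exp (-((X+x)*u)) = exp (-(X*u)) * exp (-(x*u)) := by rw [← exp_add]; congr 1; ring
  rw [this]; ring

theorem integrableOn_hfB (N : ℕ) {X κ x : ℝ} (hX : 0 < X) (hx : 0 ≤ x) :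
    IntegrableOn (hfB N X κ x) (Ioi 0) := by
  unfold hfB eB
  exact (integrableOn_exp_B N hX).sub ((integrableOn_exp_B N (by positivity)).const_mul κ)

theorem integral_hfB (N : ℕ) {X κ x : ℝ} (hX : 0 < X) (hx : 0 ≤ x) :
    ∫ u in Ioi (0:ℝ), hfB N X κ x u = RB N X - κ * RB N (X+x) := by
  unfold hfB eB RB
  rw [integral_sub (integrableOn_exp_B N hX) ((integrableOn_exp_B N (by positivity)).const_mul κ),
    integral_const_mul]

theorem int_comb (N : ℕ) {X0 X1 X2 : ℝ} (h0 : 0 < X0) (h1 : 0 < X1) (h2 : 0 < X2) {κ x : ℝ}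
    (hx : 0 ≤ x) (a0 a1 a2 : ℝ) :
    IntegrableOn (fun u => a0 * eB N X0 u + a1 * hfB N X1 κ x u + a2 * hfB N X2 κ x u) (Ioi 0) ∧
    ∫ u in Ioi (0:ℝ), (a0 * eB N X0 u + a1 * hfB N X1 κ x u + a2 * hfB N X2 κ x u) =
      a0 * RB N X0 + a1 * (RB N X1 - κ * RB N (X1+x)) + a2 * (RB N X2 - κ*RB N (X2+x)) := by
  have i0 : IntegrableOn (fun u => a0 * eB N X0 u) (Ioi 0) := (integrableOn_exp_B N h0).const_mul a0
  have i1 : IntegrableOn (fun u => a1 * hfB N X1 κ x u) (Ioi 0) := (integrableOn_hfB N h1 hx).const_mul a1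
  have i2 : IntegrableOn (fun u => a2 * hfB N X2 κ x u) (Ioi 0) := (integrableOn_hfB N h2 hx).const_mul a2
  refine ⟨(i0.add i1).add i2, ?_⟩
  have i01 : IntegrableOn (fun u => a0 * eB N X0 u + a1 * hfB N X1 κ x u) (Ioi 0) := i0.add i1
  rw [integral_add i01 i2, integral_add i0 i1, integral_const_mul,
    integral_const_mul, integral_const_mul, integral_hfB N h1 hx, integral_hfB N h2 hx]
  rfl

theorem n_Em {m : ℕ} (hm : m ≠ 0) (u : ℝ) : (m:ℝ) * Em m u = exp (-(Real.log m * u)) := by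
  have hm' : (0:ℝ) < m := by positivity
  unfold Em
  nth_rw 1 [← Real.exp_log hm']
  rw [← exp_add]; congr 1; ring

theorem n_eq (n : ℕ) : (n:ℝ) = 2^(kk n) * (mm n : ℝ) := by
  exact_mod_cast (two_pow_mul_mm n).symm

theorem n_pi_Em0 {n : ℕ} (hn : n ≠ 0) (hk : kk n = 0) (u : ℝ) :
    (n:ℝ) * (pi2 (kk n) u * Em (mm n) u) =
      exp (-(Real.log (mm n) * u)) * (1 - 1/2 * exp (-(103/100*u))) := by
  rw [n_eq n, ← n_Em (mm_ne_zero hn), hk, pi2_zero]; ring

theorem n_pi_Em {n : ℕ} (hn : n ≠ 0) (hk : kk n ≠ 0) (u : ℝ) :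
    (n:ℝ) * (pi2 (kk n) u * Em (mm n) u) =
      exp (-((xk (kk n) + Real.log (mm n)) * u)) * (1 - 1/2 * exp (-(4/5*u))) := by
  have e : exp (-((xk (kk n) + Real.log (mm n)) * u)) =
      exp (-(xk (kk n) * u)) * exp (-(Real.log (mm n) * u)) := by
    rw [← exp_add]; congr 1; ring
  rw [n_eq n, e, ← n_Em (mm_ne_zero hn), pi2_succ hk]
  have : (2:ℝ)^(kk n) * (1/2)^(kk n) = 1 := by rw [← mul_pow]; norm_num
  calc _ = (2:ℝ)^(kk n) * (1/2)^(kk n) * (↑(mm n) * (exp (-(xk (kk n) * u)) *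
        (1 - 1 / 2 * exp (-(4 / 5 * u))) * Em (mm n) u)) := by ring
    _ = _ := by rw [this]; ring

theorem n_F2 {n : ℕ} (N : ℕ) (hn : n ≠ 0) (hk : kk n ≠ 0) (u : ℝ) :
    (n:ℝ) * F N n 2 u = xk (kk n) * eB N (xk (kk n) + Real.log (mm n)) u := by
  have e : exp (-((xk (kk n) + Real.log (mm n)) * u)) =
      exp (-(xk (kk n) * u)) * exp (-(Real.log (mm n) * u)) := by
    rw [← exp_add]; congr 1; ring
  unfold F eB f2
  rw [if_pos rfl, if_neg hk, n_eq n, e, ← n_Em (mm_ne_zero hn)]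
  have : (2:ℝ)^(kk n) * (1/2)^(kk n) = 1 := by rw [← mul_pow]; norm_num
  calc _ = (2:ℝ)^(kk n) * (1/2)^(kk n) * (↑(mm n) * (xk (kk n) * exp (-(xk (kk n) * u)) *
        Em (mm n) u * B N u)) := by ring
    _ = _ := by rw [this]; ring

theorem F2_zero {n : ℕ} (N : ℕ) (hk : kk n = 0) (u : ℝ) : F N n 2 u = 0 := by
  unfold F f2
  rw [if_pos rfl, if_pos hk]; ring

/-- simple lower bound for the extra rate -/
theorem DD_ge {N n : ℕ} (hn : n ∈ N.smoothNumbers) {u : ℝ} (hu : 0 ≤ u) :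
    Real.log (mm n) * Em (mm n) u ≤ DD N n u := by
  have hn0 : n ≠ 0 := Nat.ne_zero_of_mem_smoothNumbers hn
  rw [log_mm hn, DD, Finset.sum_mul]
  apply Finset.sum_le_sum
  intro q hq
  have hq' := mem_oddP.1 hq
  have h1 := one_sub_Em_pos hq hu
  have h2 := Em_pos q u
  have h3 : 0 ≤ Real.log q := Real.log_natCast_nonneg q
  by_cases hv : n.factorization q = 0
  · rw [hv]; simp
  · apply mul_le_mul_of_nonneg_left _ (by positivity)
    have hdvd : q ∣ n := Nat.dvd_of_factorization_pos hv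
    have hpm : q ∣ mm n := by
      have h3 : q ∣ 2^(kk n) * mm n := by rw [two_pow_mul_mm]; exact hdvd
      exact (Nat.Coprime.dvd_of_dvd_mul_left
        (Nat.Coprime.pow_right _ ((Nat.coprime_primes hq'.2.2 Nat.prime_two).2 hq'.1)) h3)
    have hle : q ≤ mm n := Nat.le_of_dvd (Nat.pos_of_ne_zero (mm_ne_zero hn0)) hpm
    have h4 : Em (mm n) u ≤ Em q u := by
      unfold Em
      apply exp_le_exp.2
      have : Real.log q ≤ Real.log (mm n) :=
        Real.log_le_log (by have := hq'.2.2.pos; positivity) (by exact_mod_cast hle)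
      nlinarith
    refine h4.trans ?_
    rw [le_div_iff₀ h1]
    nlinarith

/-- general lower bound for `n * load n` when `k = 1` -/
theorem load_k1 {N n : ℕ} (hn : n ∈ N.smoothNumbers) (hk : kk n = 1) (hm : 2 ≤ mm n) :
    (103/100*RB N (Real.log (mm n)+103/100) +
      Real.log (mm n)*(RB N (Real.log (mm n)+103/100) - 1/2*RB N (Real.log (mm n)+183/100))) +
      Real.log (mm n)*exp (-Real.log (mm n))*(RB N (2*Real.log (mm n)+103/100) -
        1/2*RB N (2*Real.log (mm n)+103/100+4/5)) ≤ n * load N n := by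
  have hn0 : n ≠ 0 := Nat.ne_zero_of_mem_smoothNumbers hn
  have hnpos : (0:ℝ) < n := by positivity
  set L := Real.log (mm n) with hL
  have hL0 : 0 < L := Real.log_pos (by exact_mod_cast hm)
  have hx1 : xk (kk n) = 103/100 := by rw [hk]; unfold xk; norm_num
  obtain ⟨hi, hint⟩ := int_comb N (X0 := L+103/100) (X1 := L+103/100) (X2 := 2*L+103/100)
    (by positivity) (by positivity) (by positivity) (κ := 1/2) (x := 4/5) (by norm_num)
    (103/100) L (L*exp (-L))
  have hg := load_ge N hn0 (hi.const_mul (1/(n:ℝ))) (by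
    intro u hu
    rw [sumF_eq hn hu.le]
    have hD := DD_ge hn hu.le
    have hB := B_pos N hu.le
    have e1 := n_F2 N hn0 (by omega) u
    have e2 := n_pi_Em hn0 (by omega) u
    rw [hx1] at e1 e2
    rw [← hL] at e1 e2 hD ⊢
    rw [div_mul_eq_mul_div, one_mul, div_le_iff₀ hnpos]
    have e3 : (F N n 2 u + (L + DD N n u) * (pi2 (kk n) u * Em (mm n) u) * B N u) * n =
      (n:ℝ) * F N n 2 u + (L + DD N n u) * ((n:ℝ) * (pi2 (kk n) u * Em (mm n) u)) * B N u := by ring
    rw [e3, e1, e2]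
    have hpos : 0 ≤ exp (-((103/100 + L) * u)) * (1 - 1/2 * exp (-(4/5*u))) * B N u := by
      have : exp (-(4/5*u)) ≤ 1 := by rw [exp_le_one_iff]; linarith
      have : 0 ≤ 1 - 1/2 * exp (-(4/5*u)) := by linarith
      positivity
    have hEm : Em (mm n) u = exp (-L) * exp (-(L*u)) := by
      unfold Em; rw [← exp_add]; congr 1; rw [← hL]; ring
    have e4 : hfB N (L+103/100) (1/2) (4/5) u =
        exp (-((103/100 + L) * u)) * (1 - 1/2 * exp (-(4/5*u))) * B N u := by
      rw [hfB_eq]; congr 3; ring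
    have e5 : exp (-L) * hfB N (2*L+103/100) (1/2) (4/5) u =
        Em (mm n) u * (exp (-((103/100 + L) * u)) * (1 - 1/2 * exp (-(4/5*u))) * B N u) := by
      rw [hfB_eq, hEm]
      have : exp (-((2*L+103/100)*u)) = exp (-(L*u)) * exp (-((103/100 + L) * u)) := by
        rw [← exp_add]; congr 1; ring
      rw [this]; ring
    have e6 : L * exp (-L) * hfB N (2*L+103/100) (1/2) (4/5) u =
        L * Em (mm n) u * (exp (-((103/100 + L) * u)) * (1 - 1/2 * exp (-(4/5*u))) * B N u) := by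
      rw [mul_assoc, e5]; ring
    rw [e6, e4, show L + 103/100 = 103/100 + L by ring]
    have := mul_le_mul_of_nonneg_right hD hpos
    nlinarith)
  rw [integral_const_mul, hint, one_div, inv_mul_le_iff₀ hnpos] at hg
  rw [show L + 103/100 + 4/5 = L + 183/100 by ring] at hg
  linarith

/-- general lower bound for `n * load n` when `k ≥ 2` -/
theorem load_k2 {N n : ℕ} (hn : n ∈ N.smoothNumbers) (hk : kk n ≠ 0) :
    xk (kk n) * RB N (xk (kk n) + Real.log (mm n)) +
      Real.log (mm n)*(RB N (xk (kk n) + Real.log (mm n)) -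
        1/2*RB N (xk (kk n) + Real.log (mm n) + 4/5)) ≤ n * load N n := by
  have hn0 : n ≠ 0 := Nat.ne_zero_of_mem_smoothNumbers hn
  have hnpos : (0:ℝ) < n := by positivity
  set L := Real.log (mm n) with hL
  have hL0 : 0 ≤ L := Real.log_natCast_nonneg _
  set x := xk (kk n) with hx
  have hx0 : 0 < x := xk_pos _
  obtain ⟨hi, hint⟩ := int_comb N (X0 := x+L) (X1 := x+L) (X2 := x+L)
    (by positivity) (by positivity) (by positivity) (κ := 1/2) (x := 4/5) (by norm_num)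
    x L 0
  have hg := load_ge N hn0 (hi.const_mul (1/(n:ℝ))) (by
    intro u hu
    rw [sumF_eq hn hu.le]
    have hD := DD_nonneg N n hu.le
    have hB := B_pos N hu.le
    have e1 := n_F2 N hn0 hk u
    have e2 := n_pi_Em hn0 hk u
    rw [← hL, ← hx] at e1 e2
    rw [← hL]
    rw [div_mul_eq_mul_div, one_mul, div_le_iff₀ hnpos]
    have e3 : (F N n 2 u + (L + DD N n u) * (pi2 (kk n) u * Em (mm n) u) * B N u) * n =
      (n:ℝ) * F N n 2 u + (L + DD N n u) * ((n:ℝ) * (pi2 (kk n) u * Em (mm n) u)) * B N u := by ring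
    rw [e3, e1, e2]
    have hpos : 0 ≤ exp (-((x + L) * u)) * (1 - 1/2 * exp (-(4/5*u))) * B N u := by
      have : exp (-(4/5*u)) ≤ 1 := by rw [exp_le_one_iff]; linarith
      have : 0 ≤ 1 - 1/2 * exp (-(4/5*u)) := by linarith
      positivity
    have e4 : hfB N (x+L) (1/2) (4/5) u =
        exp (-((x + L) * u)) * (1 - 1/2 * exp (-(4/5*u))) * B N u := hfB_eq _ _ _ _ _
    rw [e4]
    have := mul_nonneg hD hpos
    nlinarith)
  rw [integral_const_mul, hint, one_div, inv_mul_le_iff₀ hnpos] at hg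
  linarith

/-- general lower bound for `n * load n` when `k = 0` -/
theorem load_k0 {N n : ℕ} (hn : n ∈ N.smoothNumbers) (hk : kk n = 0) (h2 : 2 ≤ n) {c a : ℝ} (ha : 0 ≤ a)
    (hD : ∀ u, 0 < u → c * exp (-(a*u)) ≤ DD N n u) :
    Real.log n*(RB N (Real.log n) - 1/2*RB N (Real.log n+103/100)) +
      c*(RB N (Real.log n + a) - 1/2*RB N (Real.log n + a+103/100)) ≤ n * load N n := by
  have hn0 : n ≠ 0 := Nat.ne_zero_of_mem_smoothNumbers hn
  have hnpos : (0:ℝ) < n := by positivity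
  have hmn : mm n = n := by
    have := two_pow_mul_mm n
    rwa [hk, pow_zero, one_mul] at this
  set L := Real.log n with hL
  have hL0 : 0 < L := Real.log_pos (by exact_mod_cast h2)
  obtain ⟨hi, hint⟩ := int_comb N (X0 := L) (X1 := L) (X2 := L+a)
    (by positivity) (by positivity) (by positivity) (κ := 1/2) (x := 103/100) (by norm_num)
    0 L c
  have hg := load_ge N hn0 (hi.const_mul (1/(n:ℝ))) (by
    intro u hu
    rw [sumF_eq hn hu.le]
    have hD' := hD u hu
    have hB := B_pos N hu.le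
    have e2 := n_pi_Em0 hn0 hk u
    rw [F2_zero N hk, zero_add]
    rw [hmn] at e2 ⊢
    rw [← hL] at e2 ⊢
    rw [div_mul_eq_mul_div, one_mul, div_le_iff₀ hnpos]
    have e3 : ((L + DD N n u) * (pi2 (kk n) u * Em n u) * B N u) * n =
      (L + DD N n u) * ((n:ℝ) * (pi2 (kk n) u * Em n u)) * B N u := by ring
    rw [e3, e2]
    have hpos : 0 ≤ exp (-(L * u)) * (1 - 1/2 * exp (-(103/100*u))) * B N u := by
      have : exp (-(103/100*u)) ≤ 1 := by rw [exp_le_one_iff]; linarith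
      have : 0 ≤ 1 - 1/2 * exp (-(103/100*u)) := by linarith
      positivity
    have e4 : hfB N L (1/2) (103/100) u =
        exp (-(L * u)) * (1 - 1/2 * exp (-(103/100*u))) * B N u := hfB_eq _ _ _ _ _
    have e5 : hfB N (L+a) (1/2) (103/100) u = exp (-(a*u)) *
        (exp (-(L * u)) * (1 - 1/2 * exp (-(103/100*u))) * B N u) := by
      rw [hfB_eq]
      have : exp (-((L+a)*u)) = exp (-(a*u)) * exp (-(L*u)) := by
        rw [← exp_add]; congr 1; ring
      rw [this]; ring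
    rw [e4, e5]
    have := mul_le_mul_of_nonneg_right hD' hpos
    nlinarith)
  rw [integral_const_mul, hint, one_div, inv_mul_le_iff₀ hnpos] at hg
  linarith

end H40.PR
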