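import Mathlib
import Pool.Agent.H40.PRLoad

/-!
# Lower bounds for the loads: composite numbers and primes
-/

namespace H40.PR

open Real Finset MeasureTheory Set

theorem exp_neg_le2 {d : ℝ} (hd : 0 ≤ d) : exp (-d) ≤ 1 - d + d^2/2 := by
  have hmono : MonotoneOn (fun t : ℝ => 1 - t + t^2/2 - exp (-t)) (Set.Ici 0) := by
    have hder : ∀ t : ℝ, HasDerivAt (fun t : ℝ => 1 - t + t^2/2 - exp (-t)) (-1 + t + exp (-t)) t := by
      intro t
      have h1 := (((hasDerivAt_id' t).const_sub 1).add (((hasDerivAt_id' t).pow 2).div_const 2)).sub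
        ((hasDerivAt_id' t).neg.exp)
      refine h1.congr_deriv ?_
      simp
    apply monotoneOn_of_deriv_nonneg (convex_Ici 0) (by fun_prop)
      (fun t _ => (hder t).differentiableAt.differentiableWithinAt)
    intro t ht
    rw [(hder t).deriv]
    have := Real.add_one_le_exp (-t)
    linarith
  have := hmono (Set.mem_Ici.2 le_rfl) (Set.mem_Ici.2 hd) hd
  simp at this
  linarith

theorem exp_neg_ge3 {d : ℝ} (hd : 0 ≤ d) : 1 - d + d^2/2 - d^3/6 ≤ exp (-d) := by
  have hmono : MonotoneOn (fun t : ℝ => exp (-t) - (1 - t + t^2/2 - t^3/6)) (Set.Ici 0) := by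
    have hder : ∀ t : ℝ, HasDerivAt (fun t : ℝ => exp (-t) - (1 - t + t^2/2 - t^3/6))
        (-exp (-t) + 1 - t + t^2/2) t := by
      intro t
      have h1 := ((hasDerivAt_id' t).neg.exp).sub ((((hasDerivAt_id' t).const_sub 1).add
        (((hasDerivAt_id' t).pow 2).div_const 2)).sub (((hasDerivAt_id' t).pow 3).div_const 6))
      refine h1.congr_deriv ?_
      simp; ring
    apply monotoneOn_of_deriv_nonneg (convex_Ici 0) (by fun_prop)
      (fun t _ => (hder t).differentiableAt.differentiableWithinAt)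
    intro t ht
    rw [interior_Ici] at ht
    rw [(hder t).deriv]
    have := exp_neg_le2 (d := t) (le_of_lt ht)
    linarith
  have := hmono (Set.mem_Ici.2 le_rfl) (Set.mem_Ici.2 hd) hd
  simp at this
  linarith

theorem key1 {d : ℝ} (hd : 0 ≤ d) : 9/5*(1+d) ≤ exp d + exp (-d)*(1+2*d) := by
  have h1 := Real.sum_le_exp_of_nonneg hd 5
  simp only [Finset.sum_range_succ, Finset.sum_range_zero, Nat.factorial] at h1
  norm_num at h1
  rcases le_total d (8/5:ℝ) with h | h
  · have h2 := exp_neg_ge3 hd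
    have h3 : (1 - d + d^2/2 - d^3/6)*(1+2*d) ≤ exp (-d)*(1+2*d) :=
      mul_le_mul_of_nonneg_right h2 (by linarith)
    have h4 : 0 ≤ 1/5 + 1/5*d - d^2 + d^3 - 7/24*d^4 := by
      -- sum of squares style
      nlinarith [mul_nonneg hd (sq_nonneg (d - 9/10)), mul_nonneg (mul_nonneg hd (sub_nonneg.2 h)) (sq_nonneg (d-9/10)),
        mul_nonneg (sub_nonneg.2 h) (sq_nonneg (d-9/10)), sq_nonneg (d-9/10), mul_nonneg hd (sub_nonneg.2 h),
        mul_nonneg (mul_nonneg hd hd) (sub_nonneg.2 h), mul_nonneg (mul_nonneg (mul_nonneg hd hd) hd) (sub_nonneg.2 h)]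
    nlinarith
  · obtain ⟨t, ht, rfl⟩ : ∃ t : ℝ, 0 ≤ t ∧ d = 8/5 + t := ⟨d - 8/5, by linarith, by ring⟩
    have h2 : 0 < exp (-(8/5+t)) := exp_pos _
    have h3 : 0 ≤ exp (-(8/5+t))*(1+2*(8/5+t)) := by positivity
    have : 9/5*(1+(8/5+t)) ≤ exp (8/5+t) := by
      refine le_trans ?_ h1
      nlinarith [pow_nonneg ht 2, pow_nonneg ht 3, pow_nonneg ht 4]
    linarith

theorem key2 {x d s : ℝ} (hx : 1 ≤ x) (hd : 0 ≤ d) (hs : 1 ≤ s) :
    9/5*(x+d) ≤ x*exp (s*d) + (x+2*d)*exp (-(s*d)) := by
  have h1 := key1 hd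
  set A := exp (s*d) with hA
  set A0 := exp d with hA0
  have hApos : 0 < A := exp_pos _
  have hA0pos : 0 < A0 := exp_pos _
  have hAi : exp (-(s*d)) = A⁻¹ := by rw [hA, exp_neg]
  have hA0i : exp (-d) = A0⁻¹ := by rw [hA0, exp_neg]
  rw [hA0i] at h1
  rw [hAi]
  have hAA : A0 ≤ A := by rw [hA, hA0]; apply exp_le_exp.2; nlinarith
  have h2 : 1 + 2*d ≤ A0*A0 := by
    have := Real.add_one_le_exp (2*d)
    have e : exp (2*d) = A0*A0 := by rw [hA0, ← exp_add]; congr 1; ring
    rw [e] at this; linarith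
  have h3 : A0*A0 ≤ A*A0 := mul_le_mul_of_nonneg_right hAA hA0pos.le
  have h4 : x + 2*d ≤ x*(A*A0) := by nlinarith
  have h5 : x*A0 + (x+2*d)*A0⁻¹ ≤ x*A + (x+2*d)*A⁻¹ := by
    have e : x*A + (x+2*d)*A⁻¹ - (x*A0 + (x+2*d)*A0⁻¹) = (A-A0)*(x*(A*A0) - (x+2*d))/(A*A0) := by
      field_simp; ring
    have : 0 ≤ (A-A0)*(x*(A*A0) - (x+2*d))/(A*A0) :=
      div_nonneg (mul_nonneg (by linarith) (by linarith)) (by positivity)
    linarith
  have h6 : 2 ≤ A0 + A0⁻¹ := by
    have e : A0 + A0⁻¹ - 2 = (A0-1)^2/A0 := by field_simp; ring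
    have : 0 ≤ (A0-1)^2/A0 := by positivity
    linarith
  nlinarith

noncomputable def D1 (N n : ℕ) (u : ℝ) : ℝ :=
  ∑ q ∈ oddP N, (n.factorization q : ℝ) * Real.log q * Em q u

theorem D1_le_DD (N n : ℕ) {u : ℝ} (hu : 0 ≤ u) : D1 N n u ≤ DD N n u := by
  apply Finset.sum_le_sum
  intro q hq
  have h1 := one_sub_Em_pos hq hu
  have h2 := Em_pos q u
  have h3 : 0 ≤ Real.log q := Real.log_natCast_nonneg q
  apply mul_le_mul_of_nonneg_left _ (by positivity)
  rw [le_div_iff₀ h1]
  nlinarith

theorem D1_mul (N : ℕ) {a b : ℕ} (ha : a ≠ 0) (hb : b ≠ 0) (u : ℝ) :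
    D1 N (a*b) u = D1 N a u + D1 N b u := by
  unfold D1
  rw [← Finset.sum_add_distrib]
  apply Finset.sum_congr rfl
  intro q _
  rw [Nat.factorization_mul ha hb, Finsupp.add_apply]
  push_cast; ring

theorem D1_ge {N n : ℕ} (hn : n ∈ N.smoothNumbers) {u : ℝ} (hu : 0 ≤ u) :
    Real.log (mm n) * Em (mm n) u ≤ D1 N n u := by
  have hn0 : n ≠ 0 := Nat.ne_zero_of_mem_smoothNumbers hn
  rw [log_mm hn, D1, Finset.sum_mul]
  apply Finset.sum_le_sum
  intro q hq
  have hq' := mem_oddP.1 hq
  have h2 := Em_pos q u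
  have h3 : 0 ≤ Real.log q := Real.log_natCast_nonneg q
  by_cases hv : n.factorization q = 0
  · rw [hv]; simp
  · apply mul_le_mul_of_nonneg_left _ (by positivity)
    have hdvd : q ∣ n := Nat.dvd_of_factorization_pos hv
    have hpm : q ∣ mm n := by
      have h3 : q ∣ 2^(kk n) * mm n := by rw [two_pow_mul_mm]; exact hdvd
      exact (Nat.Coprime.dvd_of_dvd_mul_left
        (Nat.Coprime.pow_right _ ((Nat.coprime_primes hq'.2.2 Nat.prime_two).2 hq'.1)) h3)
    have hle : q ≤ mm n := Nat.le_of_dvd (Nat.pos_of_ne_zero (mm_ne_zero hn0)) hpm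
    unfold Em
    apply exp_le_exp.2
    have : Real.log q ≤ Real.log (mm n) :=
      Real.log_le_log (by have := hq'.2.2.pos; positivity) (by exact_mod_cast hle)
    nlinarith

theorem mm_of_odd {n : ℕ} (hk : kk n = 0) : mm n = n := by
  have := two_pow_mul_mm n
  rwa [hk, pow_zero, one_mul] at this

theorem kk_zero_of_not_dvd {n : ℕ} (h : ¬ 2 ∣ n) : kk n = 0 :=
  Nat.factorization_eq_zero_of_not_dvd h

theorem DD_ge_comp {N n : ℕ} (hn : n ∈ N.smoothNumbers) (hk : kk n = 0) (h1 : 1 < n) (hnp : ¬ n.Prime)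
    {u : ℝ} (hu : 0 ≤ u) :
    9/10*(Real.log n*exp (-(Real.log n/2)))*exp (-(Real.log n/2*u)) ≤ DD N n u ∧ 9 ≤ n := by
  have hn0 : n ≠ 0 := by omega
  have h2n : ¬ 2 ∣ n := by
    intro h
    have := (Nat.prime_two.dvd_iff_one_le_factorization hn0).1 h
    unfold kk at hk; omega
  set p := n.minFac with hp
  have hpp : p.Prime := Nat.minFac_prime (by omega)
  have hpn : p ∣ n := Nat.minFac_dvd n
  obtain ⟨r, hr⟩ := hpn
  have hp2 : p ≠ 2 := by
    intro h; apply h2n; rw [← h]; exact Nat.minFac_dvd n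
  have hp3 : 3 ≤ p := by have := hpp.two_le; omega
  have hr0 : r ≠ 0 := by rintro rfl; simp at hr; omega
  have hr1 : r ≠ 1 := by
    rintro rfl; rw [mul_one] at hr; rw [hr] at hnp; exact hnp hpp
  have hpr : p ≤ r := by
    apply Nat.minFac_le_of_dvd (by omega)
    rw [hr]; exact Dvd.intro_left _ rfl
  have h9 : 9 ≤ n := by rw [hr]; nlinarith
  refine ⟨?_, h9⟩
  have hrodd : ¬ 2 ∣ r := by
    intro h; apply h2n; rw [hr]; exact Dvd.dvd.mul_left h _
  have hps : p ∈ N.smoothNumbers := by
    rw [Nat.mem_smoothNumbers']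
    intro q hq hqp
    exact Nat.mem_smoothNumbers'.1 hn q hq (hqp.trans (Nat.minFac_dvd n))
  have hrs : r ∈ N.smoothNumbers := by
    rw [Nat.mem_smoothNumbers']
    intro q hq hqr
    apply Nat.mem_smoothNumbers'.1 hn q hq
    rw [hr]; exact Dvd.dvd.mul_left hqr _
  have hpodd : ¬ 2 ∣ p := by
    intro h; exact h2n (h.trans (Nat.minFac_dvd n))
  have e1 := D1_ge hps hu
  have e2 := D1_ge hrs hu
  rw [mm_of_odd (kk_zero_of_not_dvd hpodd)] at e1
  rw [mm_of_odd (kk_zero_of_not_dvd hrodd)] at e2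
  have e3 : D1 N n u = D1 N p u + D1 N r u := by
    conv_lhs => rw [hr]
    exact D1_mul N hpp.ne_zero hr0 u
  have e4 := D1_le_DD N n hu
  set x := Real.log p with hx
  set y := Real.log r with hy
  have hppos : (0:ℝ) < p := by have := hpp.pos; positivity
  have hrpos : (0:ℝ) < r := by positivity
  have hx1 : 1 ≤ x := by
    have h3 := Real.log_three_gt_d9
    have : Real.log 3 ≤ x := Real.log_le_log (by norm_num) (by exact_mod_cast hp3)
    linarith
  have hxy : x ≤ y := Real.log_le_log hppos (by exact_mod_cast hpr)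
  have hLn : Real.log n = x + y := by
    rw [hr, Nat.cast_mul, Real.log_mul hppos.ne' hrpos.ne']
  set d := (y-x)/2 with hd
  have hd0 : 0 ≤ d := by rw [hd]; linarith
  have hkey := key2 hx1 hd0 (show 1 ≤ 1+u by linarith)
  have hyd : y = x + 2*d := by rw [hd]; ring
  have hE : 0 < exp (-((1+u)*(x+d))) := exp_pos _
  have h5 := mul_le_mul_of_nonneg_right hkey hE.le
  have h6 : (x*exp ((1+u)*d) + (x+2*d)*exp (-((1+u)*d))) * exp (-((1+u)*(x+d))) =
      x * Em p u + y * Em r u := by
    unfold Em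
    rw [← hx, ← hy, hyd, add_mul, mul_assoc, mul_assoc, ← exp_add, ← exp_add]
    congr 3 <;> ring_nf
  have h7 : 9/10*(Real.log n*exp (-(Real.log n/2)))*exp (-(Real.log n/2*u)) =
      9/5*(x+d) * exp (-((1+u)*(x+d))) := by
    rw [hLn, hyd]
    have : exp (-((1+u)*(x+d))) = exp (-((x+(x+2*d))/2)) * exp (-((x+(x+2*d))/2*u)) := by
      rw [← exp_add]; congr 1; ring
    rw [this]; ring
  rw [h7]
  linarith

theorem load_composite {N n : ℕ} (hn : n ∈ N.smoothNumbers) (h1 : 1 < n) (hnp : ¬ n.Prime) :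
    1/((n:ℝ)*(Real.log n + 18/25)) ≤ load N n := by
  have hn0 : n ≠ 0 := by omega
  have hnpos : (0:ℝ) < n := by positivity
  have hlogn : 0 < Real.log n := Real.log_pos (by exact_mod_cast h1)
  have hln : Real.log n = kk n * Real.log 2 + Real.log (mm n) := by
    conv_lhs => rw [← two_pow_mul_mm n]
    push_cast
    rw [Real.log_mul (by positivity) (by exact_mod_cast mm_ne_zero hn0), Real.log_pow]
  have hlog2 := log_two_ge
  suffices h : 1/(Real.log n + 18/25) ≤ n * load N n by
    rw [div_le_iff₀ (by positivity)]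
    rw [div_le_iff₀ (by positivity)] at h
    nlinarith
  have hL0 : 0 ≤ Real.log (mm n) := Real.log_natCast_nonneg _
  rcases Nat.eq_zero_or_pos (kk n) with hk | hk
  · have h9 := (DD_ge_comp hn hk h1 hnp le_rfl).2
    have hL : 2197/1000 ≤ Real.log n := by
      have h3 := Real.log_three_gt_d9
      have : Real.log 9 ≤ Real.log n := Real.log_le_log (by norm_num) (by exact_mod_cast h9)
      have h9' : Real.log 9 = 2 * Real.log 3 := by
        rw [show (9:ℝ) = 3^2 by norm_num, Real.log_pow]; norm_num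
      linarith
    refine (odd_final N hL).trans ?_
    have := load_k0 hn hk (by omega) (c := 9/10*(Real.log n*exp (-(Real.log n/2)))) (a := Real.log n/2)
      (by positivity) (fun u hu => (DD_ge_comp hn hk h1 hnp hu.le).1)
    rw [show Real.log n + Real.log n/2 = 3/2*Real.log n by ring] at this
    exact this
  · rcases Nat.lt_or_ge (kk n) 2 with hk2 | hk2
    · have hk1 : kk n = 1 := by omega
      have hnm : n = 2 * mm n := by
        have := two_pow_mul_mm n
        rw [hk1, pow_one] at this; exact this.symm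
      have hmodd : ¬ 2 ∣ mm n := Nat.not_dvd_ordCompl Nat.prime_two hn0
      have hm1 : mm n ≠ 1 := by
        intro h; rw [h] at hnm; apply hnp; rw [hnm]; norm_num
      have hm0 := mm_ne_zero hn0
      have hm2 : mm n ≠ 2 := by intro h; rw [h] at hmodd; norm_num at hmodd
      have hm4 : mm n ≠ 4 := by intro h; rw [h] at hmodd; norm_num at hmodd
      have hm3 : 3 ≤ mm n := by omega
      have hlow : 1098/1000 ≤ Real.log (mm n) := by
        have h3 := Real.log_three_gt_d9
        have : Real.log 3 ≤ Real.log (mm n) := Real.log_le_log (by norm_num) (by exact_mod_cast hm3)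
        linarith
      have hor : Real.log (mm n) ≤ 1099/1000 ∨ 1609/1000 ≤ Real.log (mm n) := by
        rcases Nat.lt_or_ge (mm n) 4 with h | h
        · left
          have h3 := Real.log_three_lt_d9
          have : mm n = 3 := by omega
          rw [this]; push_cast; linarith
        · right
          have h5 := Real.log_five_gt_d9
          have : Real.log 5 ≤ Real.log (mm n) :=
            Real.log_le_log (by norm_num) (by exact_mod_cast (show 5 ≤ mm n by omega))
          linarith
      have hA := A_final N hlow hor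
      have hB := load_k1 hn hk1 (by omega)
      refine le_trans ?_ (hA.trans hB)
      apply one_div_le_one_div_of_le (by linarith)
      rw [hln, hk1]; push_cast; linarith
    · have hA := k2_final N (k := (kk n : ℝ)) (L := Real.log (mm n)) (x := xk (kk n))
        (by exact_mod_cast hk2) hL0 rfl
      have hB := load_k2 hn (by omega)
      refine le_trans ?_ (hA.trans hB)
      apply one_div_le_one_div_of_le (by positivity)
      rw [hln]
      have : (0:ℝ) ≤ kk n := by positivity
      nlinarith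

/-! ### primes -/

theorem odd_prime_smooth {N q : ℕ} (hq : q ∈ oddP N) : q ∈ N.smoothNumbers := by
  have hq' := mem_oddP.1 hq
  rw [Nat.mem_smoothNumbers']
  intro p hp hpq
  rw [(Nat.prime_dvd_prime_iff_eq hp hq'.2.2).1 hpq]
  exact hq'.2.1

theorem kk_oddprime {N q : ℕ} (hq : q ∈ oddP N) : kk q = 0 := by
  have hq' := mem_oddP.1 hq
  apply kk_zero_of_not_dvd
  intro h
  exact hq'.1 ((Nat.prime_dvd_prime_iff_eq Nat.prime_two hq'.2.2).1 h).symm

theorem DD_prime {N q : ℕ} (hq : q ∈ oddP N) (u : ℝ) :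
    DD N q u = Real.log q * (Em q u / (1 - Em q u)) := by
  have hq' := mem_oddP.1 hq
  unfold DD
  rw [Finset.sum_eq_single q]
  · rw [hq'.2.2.factorization]; simp
  · intro r _ hrq
    rw [hq'.2.2.factorization]; simp [Ne.symm hrq]
  · intro h; exact absurd hq h

theorem Em_eq_div {q : ℕ} (hq : q ≠ 0) (u : ℝ) : Em q u = exp (-(Real.log q * u)) / q := by
  have hq0 : (q:ℝ) ≠ 0 := by exact_mod_cast hq
  rw [← n_Em hq]; field_simp

/-- the three prime load bounds -/
theorem load_oddprime_ge {N q : ℕ} (hq : q ∈ oddP N) :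
    1/((q:ℝ)*(Real.log q + 1)) ≤ load N q := by
  have hq' := mem_oddP.1 hq
  have h3 := oddP_three_le hq
  have hqpos : (0:ℝ) < q := by positivity
  have hlog : 0 < Real.log q := Real.log_pos (by exact_mod_cast (show 1 < q by omega))
  suffices h : 1/(Real.log q + 1) ≤ q * load N q by
    rw [div_le_iff₀ (by positivity)]
    rw [div_le_iff₀ (by positivity)] at h
    nlinarith
  rcases Nat.lt_or_ge q 4 with h4 | h4
  · have hq3 : q = 3 := by omega
    have hD : ∀ u, 0 < u → Real.log q / 3 * exp (-(Real.log q * u)) ≤ DD N q u := by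
      intro u hu
      refine le_trans ?_ (DD_ge (odd_prime_smooth hq) hu.le)
      rw [mm_of_odd (kk_oddprime hq), Em_eq_div (by omega)]
      rw [hq3]; push_cast
      apply le_of_eq; ring
    have := load_k0 (odd_prime_smooth hq) (kk_oddprime hq) (by omega) (c := Real.log q/3) (a := Real.log q)
      hlog.le hD
    rw [show Real.log q + Real.log q = 2*Real.log q by ring] at this
    refine (N7_three N (L := Real.log q) ?_ ?_).trans this
    · rw [hq3]; push_cast; have := Real.log_three_gt_d9; linarith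
    · rw [hq3]; push_cast; have := Real.log_three_lt_d9; linarith
  · have h5 : 5 ≤ q := by
      rcases Nat.lt_or_ge q 5 with h | h
      · have : q = 4 := by omega
        rw [this] at hq'; exact absurd hq'.2.2 (by decide)
      · exact h
    have := load_k0 (odd_prime_smooth hq) (kk_oddprime hq) (by omega) (c := 0) (a := 0)
      le_rfl (fun u hu => by rw [zero_mul]; exact DD_nonneg N q hu.le)
    rw [zero_mul, add_zero] at this
    refine (N7_five N (L := Real.log q) ?_).trans this
    have h5' := Real.log_five_gt_d9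
    have : Real.log 5 ≤ Real.log q := Real.log_le_log (by norm_num) (by exact_mod_cast h5)
    linarith

theorem load_two_ge (N : ℕ) : 1/(2*((693:ℝ)/1000 + 1)) ≤ load N 2 := by
  have h2 : (2:ℕ) ≠ 0 := by norm_num
  have hk : kk 2 = 1 := by unfold kk; rw [Nat.prime_two.factorization]; simp
  have hm : mm 2 = 1 := by
    have := two_pow_mul_mm 2
    rw [hk, pow_one] at this; omega
  have hx : xk 1 = 103/100 := by unfold xk; norm_num
  have hF : ∀ u, (2:ℝ) * F N 2 2 u = 103/100 * eB N (103/100) u := by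
    intro u
    have := n_F2 N h2 (by rw [hk]; norm_num) u
    rw [hk, hm, hx] at this
    simpa using this
  have hi : IntegrableOn (fun u => 103/200 * eB N (103/100) u) (Ioi 0) :=
    (integrableOn_exp_B N (by norm_num)).const_mul _
  have := load_ge N h2 hi (by
    intro u hu
    have h1 := hF u
    have h3 : 0 ≤ ∑ q ∈ oddP N, F N 2 q u :=
      Finset.sum_nonneg (fun q hq => F_nonneg N 2 (mem_oddP.1 hq).2.2 hu.le)
    linarith)
  rw [integral_const_mul] at this
  have h4 := N7_two N
  have e : ∫ u in Ioi (0:ℝ), eB N (103/100) u = RB N (103/100) := rfl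
  rw [e] at this
  have e2 : 1/(2*((693:ℝ)/1000 + 1)) = 1/2*(1/((693:ℝ)/1000 + 1)) := by norm_num
  rw [e2]; linarith

end H40.PR
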