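import Mathlib
import Pool.Agent.H40.PRNum2

/-!
# Upper bounds for the Euler product and for its Laplace transform
-/

set_option maxHeartbeats 4000000

namespace H40.PR

open Real Finset MeasureTheory Set

noncomputable def Ux (u : ℝ) : ℝ := 1 - exp (-(2*u)) * (1 + 3/10*u^2)

theorem Ux_le_one (u : ℝ) : Ux u ≤ 1 := by
  unfold Ux
  have : 0 ≤ exp (-(2*u)) * (1 + 3/10*u^2) := by positivity
  linarith

theorem Ux_poly (u : ℝ) (hu : 0 ≤ u) :
    6*u*(1+3/10*u^2) ≤ (u+3)*(exp (9/10*u) - (1+3/10*u^2)*exp (-(11/10*u))) := by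
  have h1 := Real.sum_le_exp_of_nonneg (show 0 ≤ 9/10*u by positivity) 6
  have h2 := Real.sum_le_exp_of_nonneg (show 0 ≤ 11/10*u by positivity) 6
  simp only [Finset.sum_range_succ, Finset.sum_range_zero, Nat.factorial] at h1 h2
  norm_num at h1 h2
  set E := exp (9/10*u) with hE
  set F := exp (11/10*u) with hF
  have hFi : exp (-(11/10*u)) = F⁻¹ := by rw [hF, ← exp_neg]
  rw [hFi]
  set p : ℝ := 1 + 9/10*u + (9/10*u)^2/2 + (9/10*u)^3/6 + (9/10*u)^4/24 + (9/10*u)^5/120 with hp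
  set q : ℝ := 1 + 11/10*u + (11/10*u)^2/2 + (11/10*u)^3/6 + (11/10*u)^4/24 + (11/10*u)^5/120 with hq
  have hpE : p ≤ E := by rw [hp]; linarith
  have hqF : q ≤ F := by rw [hq]; linarith
  have hq0 : 0 < q := by positivity
  have h3 : F⁻¹ ≤ q⁻¹ := inv_anti₀ hq0 hqF
  have h4 : 6*u*(1+3/10*u^2) ≤ (u+3)*(p - (1+3/10*u^2)*q⁻¹) := by
    have : 6*u*(1+3/10*u^2)*q ≤ (u+3)*(p*q - (1+3/10*u^2)) := by
      rw [← sub_nonneg]
      have e : (u+3)*(p*q - (1+3/10*u^2)) - 6*u*(1+3/10*u^2)*q = (1/2:ℝ)*u^2 + (27/100:ℝ)*u^3 + (67/3000:ℝ)*u^4 + (1397/120000:ℝ)*u^5 + (5269439/120000000:ℝ)*u^6 + (1661979/40000000:ℝ)*u^7 + (348833199/32000000000:ℝ)*u^8 + (204517467/32000000000:ℝ)*u^9 + (13843255833/16000000000000:ℝ)*u^10 + (1056655611/16000000000000:ℝ)*u^11 := by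
        rw [hp, hq]; ring
      rw [e]; positivity
    calc 6*u*(1+3/10*u^2) = (6*u*(1+3/10*u^2)*q) * q⁻¹ := by field_simp
      _ ≤ ((u+3)*(p*q - (1+3/10*u^2))) * q⁻¹ := mul_le_mul_of_nonneg_right this (by positivity)
      _ = _ := by field_simp
  refine h4.trans ?_
  apply mul_le_mul_of_nonneg_left _ (by positivity)
  have : (1+3/10*u^2)*F⁻¹ ≤ (1+3/10*u^2)*q⁻¹ := mul_le_mul_of_nonneg_left h3 (by positivity)
  linarith

/-- the lower bound for the sum over odd integers -/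
noncomputable def Zl (u : ℝ) : ℝ := 1 + (3:ℝ)^(-(1+u))/2 + (3:ℝ)^(-u)/(2*u)

theorem Ux_pos {u : ℝ} (hu : 0 < u) : 0 < Ux u := by
  unfold Ux
  have h1 := Real.sum_le_exp_of_nonneg (show 0 ≤ 2*u by positivity) 3
  simp only [Finset.sum_range_succ, Finset.sum_range_zero, Nat.factorial] at h1
  norm_num at h1
  have h2 : exp (-(2*u)) * exp (2*u) = 1 := by rw [← exp_add]; simp
  have h3 := exp_pos (-(2*u))
  have : exp (-(2*u)) * (1 + 3/10*u^2) < exp (-(2*u)) * exp (2*u) := by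
    apply mul_lt_mul_of_pos_left _ h3
    nlinarith
  linarith

theorem U_ineq {u : ℝ} (hu : 0 < u) : 1 ≤ Ux u * Zl u := by
  have hlog3 : Real.log 3 ≤ 11/10 := by
    have := Real.log_three_lt_d9; linarith
  set w := exp (-(11/10*u)) with hw
  have hw3 : w ≤ (3:ℝ)^(-u) := by
    rw [hw, Real.rpow_def_of_pos (by norm_num)]
    apply exp_le_exp.2; nlinarith
  have h31 : (3:ℝ)^(-(1+u)) = (3:ℝ)^(-u)/3 := by
    rw [show -(1+u) = -u - 1 by ring, Real.rpow_sub_one (by norm_num)]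
  have hZ : 1 + w/6 + w/(2*u) ≤ Zl u := by
    unfold Zl
    rw [h31]
    have : w/(2*u) ≤ (3:ℝ)^(-u)/(2*u) := by gcongr
    linarith
  have hpoly := Ux_poly u hu.le
  have hU := Ux_pos hu
  have h1 : 1 ≤ Ux u * (1 + w/6 + w/(2*u)) := by
    unfold Ux
    set E := exp (-(2*u)) with hE
    have hEpos : 0 < E := exp_pos _
    have e1 : exp (9/10*u) * E = w := by rw [hE, hw, ← exp_add]; congr 1; ring
    have h2 : 6*u*(1+3/10*u^2)*E ≤ (u+3)*(w - (1+3/10*u^2)*w*E) := by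
      calc 6*u*(1+3/10*u^2)*E ≤ ((u+3)*(exp (9/10*u) - (1+3/10*u^2)*w))*E :=
            mul_le_mul_of_nonneg_right hpoly hEpos.le
        _ = (u+3)*(exp (9/10*u)*E - (1+3/10*u^2)*w*E) := by ring
        _ = _ := by rw [e1]
    have h3 : (1 - E*(1+3/10*u^2)) * (1 + w/6 + w/(2*u)) - 1 =
      ((u+3)*(w - (1+3/10*u^2)*w*E) - 6*u*(1+3/10*u^2)*E)/(6*u) := by
      field_simp; ring
    have : 0 ≤ ((u+3)*(w - (1+3/10*u^2)*w*E) - 6*u*(1+3/10*u^2)*E)/(6*u) :=
      div_nonneg (by linarith) (by positivity)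
    linarith
  exact h1.trans (mul_le_mul_of_nonneg_left hZ hU.le)

/-- error term -/
noncomputable def eta (K : ℕ) (δ : ℝ) : ℝ := ((2*K+3 : ℕ):ℝ)^(-δ)/(2*δ)

theorem eta_nonneg (K : ℕ) {δ : ℝ} (hδ : 0 < δ) : 0 ≤ eta K δ := by unfold eta; positivity

theorem eta_mono {K : ℕ} {δ u : ℝ} (hδ : 0 < δ) (h : δ ≤ u) : eta K u ≤ eta K δ := by
  unfold eta
  have h1 : ((2*K+3 : ℕ):ℝ)^(-u) ≤ ((2*K+3 : ℕ):ℝ)^(-δ) := by
    apply Real.rpow_le_rpow_of_exponent_le _ (by linarith)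
    push_cast; have : (0:ℝ) ≤ K := by positivity
    linarith
  gcongr

theorem B_le_U {N K : ℕ} (hN : 2*K+4 ≤ N) {δ u : ℝ} (hδ : 0 < δ) (h : δ ≤ u) :
    B N u * (1 - eta K δ) ≤ Ux u := by
  have hu : 0 < u := hδ.trans_le h
  have h1 := B_upper hN hu
  have h2 := U_ineq hu
  have h3 := eta_mono (K := K) hδ h
  have hB := B_pos N hu.le
  have hU := Ux_pos hu
  have hU1 := Ux_le_one u
  have e : 1 + (3:ℝ)^(-(1+u))/2 + ((3:ℝ)^(-u) - ((2*K+3 : ℕ):ℝ)^(-u))/(2*u) = Zl u - eta K u := by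
    unfold Zl eta; ring
  rw [e] at h1
  -- B (Z - η) ≤ 1, U Z ≥ 1
  have h4 : B N u * (Zl u - eta K u) * Ux u ≤ Ux u := by
    nlinarith
  have h5 : B N u * 1 ≤ B N u * (Ux u * Zl u) := mul_le_mul_of_nonneg_left h2 hB.le
  have h6 : B N u * eta K u * Ux u ≤ B N u * eta K δ := by
    have h7 : eta K u * Ux u ≤ eta K δ := by
      have := eta_nonneg K hu
      nlinarith
    nlinarith
  nlinarith

theorem continuous_Ux : Continuous Ux := by unfold Ux; fun_prop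

theorem exp_mul_Ux (X u : ℝ) : exp (-(X*u)) * Ux u =
    1*(u^0*exp (-(X*u))) - 1*(u^0*exp (-((X+2)*u))) - 3/10*(u^2*exp (-((X+2)*u))) := by
  unfold Ux
  have e1 : exp (-((X+2)*u)) = exp (-(X*u)) * exp (-(2*u)) := by rw [← exp_add]; congr 1; ring
  rw [e1]; ring

theorem integrableOn_Ux {X : ℝ} (hX : 0 < X) :
    IntegrableOn (fun u : ℝ => exp (-(X*u)) * Ux u) (Ioi 0) := by
  simp_rw [exp_mul_Ux]
  exact (((integrableOn_pow_exp 0 (by positivity)).const_mul 1).sub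
    ((integrableOn_pow_exp 0 (by positivity)).const_mul 1)).sub
    ((integrableOn_pow_exp 2 (by positivity)).const_mul (3/10))

theorem integral_Ux {X : ℝ} (hX : 0 < X) :
    ∫ u in Ioi (0:ℝ), exp (-(X*u)) * Ux u = Vx X := by
  simp_rw [exp_mul_Ux]
  have h1 := (integrableOn_pow_exp 0 (show 0 < X by positivity)).const_mul 1
  have h2 := (integrableOn_pow_exp 0 (show 0 < X + 2 by positivity)).const_mul 1
  have h3 := (integrableOn_pow_exp 2 (show 0 < X + 2 by positivity)).const_mul (3/10)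
  rw [integral_sub3 h1 h2 h3, integral_const_mul, integral_const_mul,
    integral_const_mul, integral_pow_exp 0 (by positivity), integral_pow_exp 2 (by positivity),
    integral_pow_exp 0 (by positivity)]
  unfold Vx
  norm_num [Nat.factorial]
  ring

end H40.PR
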