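import Mathlib
import Pool.Agent.H40.PRUp

/-!
# Final upper inequalities at primes
-/

set_option maxHeartbeats 4000000

namespace H40.PR

open Real Finset MeasureTheory Set

theorem Vx_half_nonneg {X x : ℝ} (hX : 0 < X) (hx : 0 ≤ x) : 0 ≤ Vx X - 1/2*Vx (X+x) := by
  rw [← integral_Ux hX, ← integral_Ux (by positivity : 0 < X + x), ← integral_const_mul,
    ← integral_sub (integrableOn_Ux hX) ((integrableOn_Ux (by positivity)).const_mul _)]
  apply setIntegral_nonneg measurableSet_Ioi
  intro u hu
  have hU := Ux_pos hu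
  have e1 : exp (-((X+x)*u)) = exp (-(X*u)) * exp (-(x*u)) := by rw [← exp_add]; congr 1; ring
  rw [e1]
  have h2 : exp (-(x*u)) ≤ 1 := by
    rw [exp_le_one_iff]
    have : 0 ≤ x * u := mul_nonneg hx (le_of_lt hu)
    linarith
  have h5 := exp_pos (-(X*u))
  have : 0 ≤ exp (-(X*u)) * (1 - 1/2 * exp (-(x*u))) * Ux u := by
    apply mul_nonneg (mul_nonneg h5.le (by linarith)) hU.le
  linarith

theorem r_bound {q : ℝ} (hq : 1 < q) :
    (Real.log q/(q-1)) * (1 + Real.log q/2 + (Real.log q)^2/6 + (Real.log q)^3/24) ≤ 1 := by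
  set L := Real.log q with hL
  have hL0 : 0 < L := Real.log_pos hq
  have hqe : q = exp L := by rw [hL, Real.exp_log (by linarith)]
  have h1 := Real.sum_le_exp_of_nonneg hL0.le 5
  simp only [Finset.sum_range_succ, Finset.sum_range_zero, Nat.factorial] at h1
  norm_num at h1
  rw [div_mul_eq_mul_div, div_le_one (by linarith)]
  rw [hqe]
  nlinarith

theorem Vx_lower {X a b : ℝ} (ha : 0 < a) (h1 : a ≤ X) (h2 : X ≤ b) :
    1/b - 1/(a+2) - (3/5)/(a+2)^3 ≤ Vx X := by
  unfold Vx
  have := ha.trans_le h1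
  gcongr

theorem Vx_upper {X a b : ℝ} (ha : 0 < a) (h1 : a ≤ X) (h2 : X ≤ b) :
    Vx X ≤ 1/a - 1/(b+2) - (3/5)/(b+2)^3 := by
  unfold Vx
  have := ha.trans_le h1
  gcongr

theorem E1_final {q : ℕ} (hq : q.Prime) (hodd : q ≠ 2) :
    Real.log q*Vx (Real.log q) - 1/2*(Real.log q+103/100)*Vx (Real.log q+103/100) +
      (Real.log q/(q-1))*(Vx (2*Real.log q) - 1/2*Vx (2*Real.log q+103/100)) ≤ 1/(Real.log q+1) := by
  by_cases h3 : q = 3
  · subst h3
    set L := Real.log ((3:ℕ):ℝ) with hL
    have h1 : 109861/100000 ≤ L := by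
      have := Real.log_three_gt_d9; rw [hL]; push_cast; linarith
    have h2 : L ≤ 109862/100000 := by
      have := Real.log_three_lt_d9; rw [hL]; push_cast; linarith
    have hLp : 0 < L := by linarith
    have b1 := Vx_upper (X := L) (a := 109861/100000) (b := 109862/100000) (by norm_num) h1 h2
    have b2 := Vx_lower (X := L+103/100) (a := 109861/100000+103/100) (b := 109862/100000+103/100) (by norm_num) (by linarith) (by linarith)
    have b3 := Vx_upper (X := 2*L) (a := 219722/100000) (b := 219724/100000) (by norm_num) (by linarith) (by linarith)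
    have b4 := Vx_lower (X := 2*L+103/100) (a := 219722/100000+103/100) (b := 219724/100000+103/100) (by norm_num) (by linarith) (by linarith)
    have b0 := Vx_lower (X := L) (a := 109861/100000) (b := 109862/100000) (by norm_num) h1 h2
    norm_num at b1 b2 b3 b4 b0
    have c0 : (10000:ℝ)/20987 ≤ 1/(L+1) := by
      rw [div_le_div_iff₀ (by norm_num) (by positivity)]; linarith
    have c1 : L*Vx L ≤ 109862/100000*Vx L := mul_le_mul_of_nonneg_right h2 (by linarith)
    have c2 : (109861/100000+103/100)*Vx (L+103/100) ≤ (L+103/100)*Vx (L+103/100) :=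
      mul_le_mul_of_nonneg_right (by linarith) (by linarith)
    have c3 : (L/(((3:ℕ):ℝ)-1))*(Vx (2*L) - 1/2*Vx (2*L+103/100)) ≤
        (109862/200000)*(Vx (2*L) - 1/2*Vx (2*L+103/100)) := by
      apply mul_le_mul_of_nonneg_right _ (Vx_half_nonneg (by positivity) (by norm_num))
      push_cast; linarith
    linarith
  · have h5 : 5 ≤ q := by
      have := hq.two_le
      rcases Nat.lt_or_ge q 5 with h | h
      · interval_cases q
        · omega
        · omega
        · exact absurd hq (by decide)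
      · exact h
    have h5' : (5:ℝ) ≤ q := by exact_mod_cast h5
    set L := Real.log (q:ℝ) with hL
    have hL5 : 1609/1000 ≤ L := by
      have h1 := Real.log_five_gt_d9
      have h2 : Real.log 5 ≤ L := Real.log_le_log (by norm_num) h5'
      linarith
    have hr := r_bound (show (1:ℝ) < q by linarith)
    rw [← hL] at hr
    have hr0 : 0 ≤ L/((q:ℝ)-1) := div_nonneg (by linarith) (by linarith)
    have hE := E1a L (by linarith)
    have hK := Vx_half_nonneg (X := 2*L) (x := 103/100) (by linarith) (by norm_num)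
    set C := 1 + L/2 + L^2/6 + L^3/24 with hC
    have hCpos : 0 < C := by have : 0 < L := by linarith
                             positivity
    set main := L*Vx L - 1/2*(L+103/100)*Vx (L+103/100) with hmain
    have h1 : 0 ≤ 1/(L+1) - main := by
      have : 0 ≤ (1/(L+1) - main)*C := hK.trans hE
      exact nonneg_of_mul_nonneg_left this hCpos
    have h2 : (L/((q:ℝ)-1))*(Vx (2*L) - 1/2*Vx (2*L+103/100)) ≤ 1/(L+1) - main := by
      calc _ ≤ (L/((q:ℝ)-1))*((1/(L+1) - main)*C) := mul_le_mul_of_nonneg_left hE hr0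
        _ = (1/(L+1) - main)*((L/((q:ℝ)-1))*C) := by ring
        _ ≤ (1/(L+1) - main)*1 := mul_le_mul_of_nonneg_left hr h1
        _ = _ := by ring
    linarith

theorem N6_two : 78/100*Vx (78/100) ≤ 1/(Real.log 2+18/25) := by
  have h := Real.log_two_lt_d9
  have h1 : 1/((6932:ℝ)/10000+18/25) ≤ 1/(Real.log 2+18/25) := by
    apply one_div_le_one_div_of_le
    · have := Real.log_two_gt_d9; linarith
    · linarith
  refine le_trans ?_ h1
  unfold Vx; norm_num

theorem N6_three {L : ℝ} (h1 : 109861/100000 ≤ L) (h2 : L ≤ 109862/100000) :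
    L*(Vx L - 1/2*Vx (L+78/100)) + L*((Vx (2*L) - 1/2*Vx (2*L+78/100))/3 + (Vx (3*L) - 1/2*Vx (3*L+78/100))/6) ≤
      1/(L+18/25) := by
  have hLp : 0 < L := by linarith
  have b1 := Vx_upper (X := L) (a := 109861/100000) (b := 109862/100000) (by norm_num) h1 h2
  have b2 := Vx_lower (X := L+78/100) (a := 109861/100000+78/100) (b := 109862/100000+78/100) (by norm_num) (by linarith) (by linarith)
  have b3 := Vx_upper (X := 2*L) (a := 219722/100000) (b := 219724/100000) (by norm_num) (by linarith) (by linarith)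
  have b4 := Vx_lower (X := 2*L+78/100) (a := 219722/100000+78/100) (b := 219724/100000+78/100) (by norm_num) (by linarith) (by linarith)
  have b5 := Vx_upper (X := 3*L) (a := 329583/100000) (b := 329586/100000) (by norm_num) (by linarith) (by linarith)
  have b6 := Vx_lower (X := 3*L+78/100) (a := 329583/100000+78/100) (b := 329586/100000+78/100) (by norm_num) (by linarith) (by linarith)
  norm_num at b1 b2 b3 b4 b5 b6
  have c0 : (10000:ℝ)/18187 ≤ 1/(L+18/25) := by
    rw [div_le_div_iff₀ (by norm_num) (by positivity)]; linarith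
  have d1 := Vx_half_nonneg (X := L) (x := 78/100) hLp (by norm_num)
  have d2 := Vx_half_nonneg (X := 2*L) (x := 78/100) (by positivity) (by norm_num)
  have d3 := Vx_half_nonneg (X := 3*L) (x := 78/100) (by positivity) (by norm_num)
  have c1 : L*(Vx L - 1/2*Vx (L+78/100)) ≤ 109862/100000*(Vx L - 1/2*Vx (L+78/100)) :=
    mul_le_mul_of_nonneg_right h2 d1
  have c2 : L*((Vx (2*L) - 1/2*Vx (2*L+78/100))/3 + (Vx (3*L) - 1/2*Vx (3*L+78/100))/6) ≤
      109862/100000*((Vx (2*L) - 1/2*Vx (2*L+78/100))/3 + (Vx (3*L) - 1/2*Vx (3*L+78/100))/6) :=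
    mul_le_mul_of_nonneg_right h2 (by linarith)
  linarith

theorem N6_five {q : ℕ} (h5 : 5 ≤ q) :
    Real.log q*(Vx (Real.log q) - 1/2*Vx (Real.log q+78/100)) +
      (Real.log q/(q-1))*(Vx (2*Real.log q) - 1/2*Vx (2*Real.log q+78/100)) ≤ 1/(Real.log q+18/25) := by
  have h5' : (5:ℝ) ≤ q := by exact_mod_cast h5
  set L := Real.log (q:ℝ) with hL
  have hL5 : 1609/1000 ≤ L := by
    have h1 := Real.log_five_gt_d9
    have h2 : Real.log 5 ≤ L := Real.log_le_log (by norm_num) h5'
    linarith
  have hr := r_bound (show (1:ℝ) < q by linarith)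
  rw [← hL] at hr
  have hr0 : 0 ≤ L/((q:ℝ)-1) := div_nonneg (by linarith) (by linarith)
  have hE := N6a L (by linarith)
  rw [show (18/25:ℝ) = 18/25 by rfl, show (39/50:ℝ) = 78/100 by norm_num] at hE
  have hK := Vx_half_nonneg (X := 2*L) (x := 78/100) (by linarith) (by norm_num)
  set C := 1 + L/2 + L^2/6 + L^3/24 with hC
  have hCpos : 0 < C := by have : 0 < L := by linarith
                           positivity
  set main := L*(Vx L - 1/2*Vx (L+78/100)) with hmain
  have h1 : 0 ≤ 1/(L+18/25) - main := by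
    have : 0 ≤ (1/(L+18/25) - main)*C := hK.trans hE
    exact nonneg_of_mul_nonneg_left this hCpos
  have h2 : (L/((q:ℝ)-1))*(Vx (2*L) - 1/2*Vx (2*L+78/100)) ≤ 1/(L+18/25) - main := by
    calc _ ≤ (L/((q:ℝ)-1))*((1/(L+18/25) - main)*C) := mul_le_mul_of_nonneg_left hE hr0
      _ = (1/(L+18/25) - main)*((L/((q:ℝ)-1))*C) := by ring
      _ ≤ (1/(L+18/25) - main)*1 := mul_le_mul_of_nonneg_left hr h1
      _ = _ := by ring
  linarith

end H40.PR
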