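import Mathlib
import Pool.Agent.H40.PRLoad2
import Pool.Agent.H40.PRUp2

/-!
# Loads of primes: comparison with the flux between `2q` and `q`
-/

namespace H40.PR

open Real Finset MeasureTheory Set

theorem kk_q2 {N q : ℕ} (hq : q ∈ oddP N) : kk (q*2) = 1 := by
  rw [kk_mul_two (mem_oddP.1 hq).2.2.ne_zero, kk_oddprime hq]

theorem mm_q2 {N q : ℕ} (hq : q ∈ oddP N) : mm (q*2) = q := by
  rw [mm_mul_two, mm_of_odd (kk_oddprime hq)]

theorem pi2_one (u : ℝ) : pi2 1 u = 1/2 * exp (-(103/100*u)) - 1/4*exp (-(183/100*u)) := by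
  unfold pi2 tau xk
  norm_num

theorem F_q2_q {N q : ℕ} (hq : q ∈ oddP N) {u : ℝ} (hu : 0 ≤ u) :
    F N (q*2) q u = (Real.log q + DD N q u) * (pi2 1 u * Em q u) * B N u := by
  have hq' := mem_oddP.1 hq
  have h1 : 1 - Em q u ≠ 0 := (one_sub_Em_pos hq hu).ne'
  have hf : (q*2).factorization q = 1 := by
    rw [Nat.factorization_mul hq'.2.2.ne_zero two_ne_zero, Finsupp.add_apply,
      hq'.2.2.factorization, Nat.prime_two.factorization]
    simp [Ne.symm hq'.1]
  unfold F
  rw [if_neg hq'.1, hf, kk_q2 hq, mm_q2 hq, DD_prime hq]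
  push_cast
  field_simp
  ring

theorem q_F_q2_two {N q : ℕ} (hq : q ∈ oddP N) (u : ℝ) :
    (q:ℝ) * F N (q*2) 2 u = 103/200 * eB N (Real.log q + 103/100) u := by
  have hq' := mem_oddP.1 hq
  have := n_F2 (n := q*2) N (mul_ne_zero hq'.2.2.ne_zero two_ne_zero) (by rw [kk_q2 hq]; norm_num) u
  rw [kk_q2 hq, mm_q2 hq] at this
  have hx : xk 1 = 103/100 := by unfold xk; norm_num
  rw [hx] at this
  push_cast at this
  rw [add_comm (103/100:ℝ)] at this
  linarith

theorem E2_aux {N q : ℕ} (hq : q ∈ oddP N) {c a : ℝ} (ha : 0 ≤ a)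
    (hD : ∀ u, 0 < u → c * exp (-(a*u)) ≤ DD N q u) :
    Real.log q*(RB N (Real.log q) - 1/4*RB N (Real.log q+183/100)) +
      c*(RB N (Real.log q + a) - 1/4*RB N (Real.log q + a+183/100)) ≤
      q * (load N q + IF N (q*2) q) := by
  have hq' := mem_oddP.1 hq
  have hn0 : q ≠ 0 := hq'.2.2.ne_zero
  have hn := odd_prime_smooth hq
  have hk := kk_oddprime hq
  have hmn := mm_of_odd hk
  have hnpos : (0:ℝ) < q := by positivity
  set L := Real.log q with hL
  have hL0 : 0 < L := Real.log_pos (by exact_mod_cast hq'.2.2.one_lt)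
  obtain ⟨hi, hint⟩ := int_comb N (X0 := L) (X1 := L) (X2 := L+a)
    (by positivity) (by positivity) (by positivity) (κ := 1/4) (x := 183/100) (by norm_num)
    0 L c
  have hF2 := integrableOn_F N (mul_ne_zero hn0 two_ne_zero : q*2 ≠ 0) hq'.2.2
  have hsum : load N q + IF N (q*2) q =
      ∫ u in Ioi (0:ℝ), ((F N q 2 u + ∑ r ∈ oddP N, F N q r u) + F N (q*2) q u) := by
    rw [integral_add (integrableOn_tot N hn0) hF2, load_eq N hn0]; rfl
  have hg : ∫ u in Ioi (0:ℝ), (1/(q:ℝ)) * (0 * eB N L u + L * hfB N L (1/4) (183/100) u +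
      c * hfB N (L+a) (1/4) (183/100) u) ≤ load N q + IF N (q*2) q := by
    rw [hsum]
    apply setIntegral_mono_on (hi.const_mul _) ((integrableOn_tot N hn0).add hF2) measurableSet_Ioi
    intro u hu
    have hu0 : (0:ℝ) < u := hu
    have hD' := hD u hu
    have hB := B_pos N hu0.le
    rw [Pi.add_apply]
    rw [sumF_eq hn hu0.le, F_q2_q hq hu0.le, F2_zero N hk, zero_add, hk, hmn, ← hL, pi2_zero, pi2_one]
    rw [div_mul_eq_mul_div, one_mul, div_le_iff₀ hnpos]
    have e3 : ((L + DD N q u) * ((1 - 1/2*exp (-(103/100*u))) * Em q u) * B N u +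
        (L + DD N q u) * ((1/2 * exp (-(103/100*u)) - 1/4*exp (-(183/100*u))) * Em q u) * B N u) * q =
      (L + DD N q u) * (((q:ℝ) * Em q u) * (1 - 1/4*exp (-(183/100*u))) * B N u) := by ring
    rw [e3, n_Em hn0, ← hL]
    have hpos : 0 ≤ exp (-(L * u)) * (1 - 1/4 * exp (-(183/100*u))) * B N u := by
      have : exp (-(183/100*u)) ≤ 1 := by rw [exp_le_one_iff]; linarith
      have : 0 ≤ 1 - 1/4 * exp (-(183/100*u)) := by linarith
      positivity
    have e4 : hfB N L (1/4) (183/100) u =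
        exp (-(L * u)) * (1 - 1/4 * exp (-(183/100*u))) * B N u := hfB_eq _ _ _ _ _
    have e5 : hfB N (L+a) (1/4) (183/100) u = exp (-(a*u)) *
        (exp (-(L * u)) * (1 - 1/4 * exp (-(183/100*u))) * B N u) := by
      rw [hfB_eq]
      have : exp (-((L+a)*u)) = exp (-(a*u)) * exp (-(L*u)) := by
        rw [← exp_add]; congr 1; ring
      rw [this]; ring
    rw [e4, e5]
    have := mul_le_mul_of_nonneg_right hD' hpos
    nlinarith
  rw [integral_const_mul, hint, one_div, inv_mul_le_iff₀ hnpos] at hg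
  linarith

theorem E2_ge {N q : ℕ} (hq : q ∈ oddP N) :
    1/((q:ℝ)*(Real.log q + 18/25)) ≤ load N q + IF N (q*2) q := by
  have hq' := mem_oddP.1 hq
  have h3 := oddP_three_le hq
  have hqpos : (0:ℝ) < q := by positivity
  have hlog : 0 < Real.log q := Real.log_pos (by exact_mod_cast (show 1 < q by omega))
  suffices h : 1/(Real.log q + 18/25) ≤ q * (load N q + IF N (q*2) q) by
    rw [div_le_iff₀ (by positivity)]
    rw [div_le_iff₀ (by positivity)] at h
    nlinarith
  rcases Nat.lt_or_ge q 4 with h4 | h4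
  · have hq3 : q = 3 := by omega
    have hD : ∀ u, 0 < u → Real.log q / 3 * exp (-(Real.log q * u)) ≤ DD N q u := by
      intro u hu
      refine le_trans ?_ (DD_ge (odd_prime_smooth hq) hu.le)
      rw [mm_of_odd (kk_oddprime hq), Em_eq_div (by omega)]
      rw [hq3]; push_cast
      apply le_of_eq; ring
    have := E2_aux hq (c := Real.log q/3) (a := Real.log q) hlog.le hD
    rw [show Real.log q + Real.log q = 2*Real.log q by ring] at this
    refine (E2_three N (L := Real.log q) ?_ ?_).trans this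
    · rw [hq3]; push_cast; have := Real.log_three_gt_d9; linarith
    · rw [hq3]; push_cast; have := Real.log_three_lt_d9; linarith
  · have h5 : 5 ≤ q := by
      rcases Nat.lt_or_ge q 5 with h | h
      · have : q = 4 := by omega
        rw [this] at hq'; exact absurd hq'.2.2 (by decide)
      · exact h
    have := E2_aux hq (c := 0) (a := 0)
      le_rfl (fun u hu => by rw [zero_mul]; exact DD_nonneg N q hu.le)
    rw [zero_mul, add_zero] at this
    refine (E2_five N (L := Real.log q) ?_).trans this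
    have h5' := Real.log_five_gt_d9
    have : Real.log 5 ≤ Real.log q := Real.log_le_log (by norm_num) (by exact_mod_cast h5)
    linarith

/-! ### upper bounds through `Ux` -/

theorem eta_tendsto {δ : ℝ} (hδ : 0 < δ) : Filter.Tendsto (fun K : ℕ => eta K δ) Filter.atTop (nhds 0) := by
  unfold eta
  have h1 : Filter.Tendsto (fun K : ℕ => ((2*K+3 : ℕ):ℝ)) Filter.atTop Filter.atTop := by
    apply tendsto_natCast_atTop_atTop.comp
    apply Filter.tendsto_atTop_mono (f := fun K : ℕ => K) (fun K => by omega) Filter.tendsto_id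
  have h2 := (tendsto_rpow_neg_atTop hδ).comp h1
  have := h2.div_const (2*δ)
  simpa using this

theorem integrableOn_mul_B (N : ℕ) {K : ℝ → ℝ} (hK : Continuous K) (hKi : IntegrableOn K (Ioi 0)) :
    IntegrableOn (fun u => K u * B N u) (Ioi 0) := by
  refine hKi.abs.mono' (by
    have := continuous_B N
    fun_prop) ?_
  filter_upwards [self_mem_ae_restrict measurableSet_Ioi] with u hu
  have h1 := B_pos N (le_of_lt hu)
  have h2 := B_le_one N (le_of_lt hu)
  rw [norm_mul, Real.norm_eq_abs, Real.norm_eq_abs, abs_of_pos h1]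
  have := abs_nonneg (K u)
  nlinarith

theorem integrableOn_mul_Ux {K : ℝ → ℝ} (hK : Continuous K) (hKi : IntegrableOn K (Ioi 0)) :
    IntegrableOn (fun u => K u * Ux u) (Ioi 0) := by
  refine hKi.abs.mono' (by
    have := continuous_Ux
    fun_prop) ?_
  filter_upwards [self_mem_ae_restrict measurableSet_Ioi] with u hu
  have h1 := Ux_pos hu
  have h2 := Ux_le_one u
  rw [norm_mul, Real.norm_eq_abs, Real.norm_eq_abs, abs_of_pos h1]
  have := abs_nonneg (K u)
  nlinarith

theorem upper_split {K : ℝ → ℝ} (hK : Continuous K) (hKi : IntegrableOn K (Ioi 0)) {C : ℝ}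
    (hK0 : ∀ u, 0 < u → 0 ≤ K u) (hKC : ∀ u, 0 < u → K u ≤ C) {ε : ℝ} (hε : 0 < ε) :
    ∃ N0 : ℕ, ∀ N, N0 ≤ N → ∫ u in Ioi (0:ℝ), K u * B N u ≤ (∫ u in Ioi (0:ℝ), K u * Ux u) + ε := by
  have hC0 : 0 ≤ C := (hK0 1 one_pos).trans (hKC 1 one_pos)
  set M := ∫ u in Ioi (0:ℝ), K u with hM
  have hM0 : 0 ≤ M := setIntegral_nonneg measurableSet_Ioi (fun u hu => hK0 u hu)
  set δ := ε/(2*(C+1)) with hδd
  have hδ : 0 < δ := by positivity
  obtain ⟨K1, hK1⟩ := ((eta_tendsto hδ).eventually_lt_const (show 0 < ε/(2*(M+1)) by positivity)).exists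
  refine ⟨2*K1+4, fun N hN => ?_⟩
  have iKB := integrableOn_mul_B N hK hKi
  have iKU := integrableOn_mul_Ux hK hKi
  have hsplit : ∫ u in Ioi (0:ℝ), K u * B N u =
      (∫ u in Ioc (0:ℝ) δ, K u * B N u) + ∫ u in Ioi δ, K u * B N u := by
    rw [← setIntegral_union (Set.Ioc_disjoint_Ioi le_rfl) measurableSet_Ioi
      (iKB.mono_set Set.Ioc_subset_Ioi_self) (iKB.mono_set (Set.Ioi_subset_Ioi hδ.le)),
      Set.Ioc_union_Ioi_eq_Ioi hδ.le]
  have h1 : ∫ u in Ioc (0:ℝ) δ, K u * B N u ≤ C * δ := by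
    have : ∫ u in Ioc (0:ℝ) δ, K u * B N u ≤ ∫ u in Ioc (0:ℝ) δ, C := by
      apply setIntegral_mono_on (iKB.mono_set Set.Ioc_subset_Ioi_self) (by simp) measurableSet_Ioc
      intro u hu
      have h1 := B_pos N (le_of_lt hu.1)
      have h2 := B_le_one N (le_of_lt hu.1)
      have h3 := hK0 u hu.1
      have h4 := hKC u hu.1
      nlinarith
    refine this.trans (le_of_eq ?_)
    rw [setIntegral_const]
    simp [hδ.le, mul_comm]
  have h2 : (1 - eta K1 δ) * ∫ u in Ioi δ, K u * B N u ≤ ∫ u in Ioi (0:ℝ), K u * Ux u := by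
    rw [← integral_const_mul]
    have ha : ∫ u in Ioi δ, (1 - eta K1 δ) * (K u * B N u) ≤ ∫ u in Ioi δ, K u * Ux u := by
      apply setIntegral_mono_on ((iKB.mono_set (Set.Ioi_subset_Ioi hδ.le)).const_mul _)
        (iKU.mono_set (Set.Ioi_subset_Ioi hδ.le)) measurableSet_Ioi
      intro u hu
      have h1 := B_le_U hN hδ (le_of_lt hu)
      have h3 := hK0 u (hδ.trans hu)
      have := mul_le_mul_of_nonneg_left h1 h3
      linarith
    refine ha.trans ?_
    apply setIntegral_mono_set iKU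
    · filter_upwards [self_mem_ae_restrict measurableSet_Ioi] with u hu
      exact mul_nonneg (hK0 u hu) (Ux_pos hu).le
    · exact (Set.Ioi_subset_Ioi hδ.le).eventuallyLE
  have h3 : ∫ u in Ioi δ, K u * B N u ≤ M := by
    have ha : ∫ u in Ioi δ, K u * B N u ≤ ∫ u in Ioi δ, K u := by
      apply setIntegral_mono_on (iKB.mono_set (Set.Ioi_subset_Ioi hδ.le))
        (hKi.mono_set (Set.Ioi_subset_Ioi hδ.le)) measurableSet_Ioi
      intro u hu
      have hu0 : 0 < u := hδ.trans hu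
      have h1 := B_pos N hu0.le
      have h2 := B_le_one N hu0.le
      have h3 := hK0 u hu0
      nlinarith
    refine ha.trans ?_
    apply setIntegral_mono_set hKi
    · filter_upwards [self_mem_ae_restrict measurableSet_Ioi] with u hu
      exact hK0 u hu
    · exact (Set.Ioi_subset_Ioi hδ.le).eventuallyLE
  have h4 : eta K1 δ * M ≤ ε/2 := by
    have := eta_nonneg K1 hδ
    calc eta K1 δ * M ≤ ε/(2*(M+1)) * M := mul_le_mul_of_nonneg_right hK1.le hM0
      _ ≤ ε/(2*(M+1)) * (M+1) := mul_le_mul_of_nonneg_left (by linarith) (by positivity)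
      _ = ε/2 := by field_simp
  have h5 : C * δ ≤ ε/2 := by
    calc C * δ ≤ (C+1)*δ := mul_le_mul_of_nonneg_right (by linarith) hδ.le
      _ = ε/2 := by rw [hδd]; field_simp
  have h6 := eta_nonneg K1 hδ
  have h7 : eta K1 δ * (∫ u in Ioi δ, K u * B N u) ≤ eta K1 δ * M := mul_le_mul_of_nonneg_left h3 h6
  rw [hsplit]
  linarith

theorem DD_prime_le {N q : ℕ} (hq : q ∈ oddP N) {u : ℝ} (hu : 0 ≤ u) :
    DD N q u ≤ Real.log q/(q-1) * exp (-(Real.log q * u)) := by
  have hq' := mem_oddP.1 hq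
  have hq1 : (1:ℝ) < q := by exact_mod_cast hq'.2.2.one_lt
  have h1 := one_sub_Em_pos hq hu
  have hlog : 0 ≤ Real.log q := Real.log_natCast_nonneg q
  rw [DD_prime hq, Em_eq_div hq'.2.2.ne_zero] at *
  set v := exp (-(Real.log q * u)) with hv
  have hv0 : 0 < v := exp_pos _
  have hv1 : v ≤ 1 := by rw [hv, exp_le_one_iff]; have := mul_nonneg hlog hu; linarith
  have : v/q/(1 - v/q) ≤ v/(q-1) := by
    have e : v/q/(1 - v/q) = v/(q - v) := by
      have : (q:ℝ) - v ≠ 0 := by linarith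
      have : (q:ℝ) ≠ 0 := by linarith
      field_simp
    rw [e]
    apply div_le_div_of_nonneg_left hv0.le (by linarith) (by linarith)
  calc Real.log q * (v/q/(1 - v/q)) ≤ Real.log q * (v/(q-1)) := mul_le_mul_of_nonneg_left this hlog
    _ = _ := by ring

/-- exponential times `Ux` combos -/
theorem int_combU {X1 X2 X3 : ℝ} (h1 : 0 < X1) (h2 : 0 < X2) (h3 : 0 < X3) {x : ℝ}
    (hx : 0 ≤ x) (a1 a2 a3 : ℝ) :
    ∫ u in Ioi (0:ℝ), (a1*(exp (-(X1*u)) * (1 - 1/2*exp (-(x*u)))) +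
      a2*(exp (-(X2*u)) * (1 - 1/2*exp (-(x*u)))) + a3*(exp (-(X3*u)) * (1 - 1/2*exp (-(x*u))))) * Ux u =
      a1 * (Vx X1 - 1/2 * Vx (X1+x)) + a2 * (Vx X2 - 1/2*Vx (X2+x)) + a3 * (Vx X3 - 1/2*Vx (X3+x)) := by
  have hj : ∀ X, 0 < X → ∀ a : ℝ, IntegrableOn (fun u => a*(exp (-(X*u)) * (1 - 1/2*exp (-(x*u)))*Ux u)) (Ioi 0) ∧
      ∫ u in Ioi (0:ℝ), a*(exp (-(X*u)) * (1 - 1/2*exp (-(x*u)))*Ux u) = a * (Vx X - 1/2 * Vx (X+x)) := by
    intro X hX a
    have e : (fun u => a*(exp (-(X*u)) * (1 - 1/2*exp (-(x*u)))*Ux u)) =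
        fun u => a*(exp (-(X*u)) * Ux u - 1/2*(exp (-((X+x)*u)) * Ux u)) := by
      ext u
      have : exp (-((X+x)*u)) = exp (-(X*u)) * exp (-(x*u)) := by rw [← exp_add]; congr 1; ring
      rw [this]; ring
    rw [e]
    refine ⟨((integrableOn_Ux hX).sub ((integrableOn_Ux (by positivity)).const_mul _)).const_mul a, ?_⟩
    rw [integral_const_mul, integral_sub (integrableOn_Ux hX) ((integrableOn_Ux (by positivity)).const_mul _),
      integral_const_mul, integral_Ux hX, integral_Ux (by positivity)]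
  obtain ⟨i1, e1⟩ := hj X1 h1 a1
  obtain ⟨i2, e2⟩ := hj X2 h2 a2
  obtain ⟨i3, e3⟩ := hj X3 h3 a3
  have i12 : IntegrableOn (fun u => a1*(exp (-(X1*u)) * (1 - 1/2*exp (-(x*u)))*Ux u) +
    a2*(exp (-(X2*u)) * (1 - 1/2*exp (-(x*u)))*Ux u)) (Ioi 0) := i1.add i2
  rw [← e1, ← e2, ← e3, ← integral_add i1 i2, ← integral_add i12 i3]
  congr 1
  ext u; ring

/-- (E1) -/
theorem E1_ev {q : ℕ} (hqp : q.Prime) (hq2 : q ≠ 2) {x : ℝ} (hx0 : 0 ≤ x) (hx1 : x < 1) :
    ∃ N0 : ℕ, ∀ N, N0 ≤ N → load N q - IF N (q*2) 2 ≤ 1/((q:ℝ)*(Real.log q + x)) := by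
  have hq3 : 3 ≤ q := by have := hqp.two_le; omega
  have hqpos : (0:ℝ) < q := by positivity
  set L := Real.log q with hL
  have hL1 : 109/100 ≤ L := by
    have h3 := Real.log_three_gt_d9
    have : Real.log 3 ≤ L := Real.log_le_log (by norm_num) (by exact_mod_cast hq3)
    linarith
  have hL0 : 0 < L := by linarith
  have hq1 : (1:ℝ) < q := by exact_mod_cast hqp.one_lt
  have hb0 : 0 ≤ L/((q:ℝ)-1) := div_nonneg hL0.le (by linarith)
  set K : ℝ → ℝ := fun u => ((L + L/(q-1)*exp (-(L*u))) * (1 - 1/2*exp (-(103/100*u))) -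
    103/200*exp (-(103/100*u))) * exp (-(L*u)) with hK
  have hKc : Continuous K := by rw [hK]; fun_prop
  have hK0 : ∀ u, 0 < u → 0 ≤ K u := by
    intro u hu
    have h1 : exp (-(103/100*u)) ≤ 1 := by rw [exp_le_one_iff]; linarith
    have h2 := exp_pos (-(103/100*u))
    have h3 := exp_pos (-(L*u))
    rw [hK]
    apply mul_nonneg _ h3.le
    have h4 : 0 ≤ L/((q:ℝ)-1)*exp (-(L*u)) := by positivity
    nlinarith [mul_nonneg h4 (show 0 ≤ 1 - 1/2*exp (-(103/100*u)) by linarith)]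
  have hKle : ∀ u, 0 < u → K u ≤ (L + L/(q-1)) * exp (-(L*u)) := by
    intro u hu
    have h1 : exp (-(103/100*u)) ≤ 1 := by rw [exp_le_one_iff]; linarith
    have h2 := exp_pos (-(103/100*u))
    have h3 := exp_pos (-(L*u))
    have h5 : exp (-(L*u)) ≤ 1 := by rw [exp_le_one_iff]; have := mul_pos hL0 hu; linarith
    rw [hK]
    apply mul_le_mul_of_nonneg_right _ h3.le
    have h4 : 0 ≤ L/((q:ℝ)-1)*exp (-(L*u)) := by positivity
    have h6 : L/((q:ℝ)-1)*exp (-(L*u)) ≤ L/((q:ℝ)-1) := by nlinarith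
    have h7 : (L + L/((q:ℝ)-1)*exp (-(L*u))) * (1 - 1/2*exp (-(103/100*u))) ≤
        (L + L/((q:ℝ)-1)) * 1 := by
      apply mul_le_mul (by linarith) (by linarith) (by linarith) (by linarith)
    linarith
  have hKi : IntegrableOn K (Ioi 0) := by
    have h0 := (integrableOn_pow_exp 0 hL0).const_mul (L + L/((q:ℝ)-1))
    refine h0.mono' hKc.aestronglyMeasurable ?_
    filter_upwards [self_mem_ae_restrict measurableSet_Ioi] with u hu
    rw [Real.norm_eq_abs, abs_of_nonneg (hK0 u hu)]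
    have := hKle u hu
    simpa using this
  have hKC : ∀ u, 0 < u → K u ≤ L + L/((q:ℝ)-1) := by
    intro u hu
    refine (hKle u hu).trans ?_
    have h5 : exp (-(L*u)) ≤ 1 := by rw [exp_le_one_iff]; have := mul_pos hL0 hu; linarith
    nlinarith
  have hKU : ∫ u in Ioi (0:ℝ), K u * Ux u ≤ 1/(L+1) := by
    have e : ∀ u, K u * Ux u = (L*(exp (-(L*u)) * (1 - 1/2*exp (-(103/100*u)))) +
      (L/((q:ℝ)-1))*(exp (-((2*L)*u)) * (1 - 1/2*exp (-(103/100*u)))) +
      0*(exp (-(L*u)) * (1 - 1/2*exp (-(103/100*u))))) * Ux u -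
      103/200 * (exp (-((L+103/100)*u)) * Ux u) := by
      intro u
      rw [hK]
      have e1 : exp (-((2*L)*u)) = exp (-(L*u)) * exp (-(L*u)) := by rw [← exp_add]; congr 1; ring
      have e2 : exp (-((L+103/100)*u)) = exp (-(L*u)) * exp (-(103/100*u)) := by
        rw [← exp_add]; congr 1; ring
      rw [e1, e2]; ring
    have hi2 := (integrableOn_Ux (show 0 < L+103/100 by positivity)).const_mul (103/200)
    have hKUi := integrableOn_mul_Ux hKc hKi
    have hi1 : IntegrableOn (fun u => (L*(exp (-(L*u)) * (1 - 1/2*exp (-(103/100*u)))) +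
      (L/((q:ℝ)-1))*(exp (-((2*L)*u)) * (1 - 1/2*exp (-(103/100*u)))) +
      0*(exp (-(L*u)) * (1 - 1/2*exp (-(103/100*u))))) * Ux u) (Ioi 0) := by
      have := hKUi.add hi2
      refine this.congr_fun ?_ measurableSet_Ioi
      intro u _
      simp only [Pi.add_apply]
      rw [e u]; ring
    simp_rw [e]
    rw [integral_sub hi1 hi2, int_combU hL0 (by positivity) hL0 (by norm_num), integral_const_mul,
      integral_Ux (by positivity)]
    have := E1_final hqp hq2
    rw [← hL] at this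
    linarith
  have hεpos : 0 < 1/(L+x) - 1/(L+1) := by
    rw [sub_pos]; apply one_div_lt_one_div_of_lt (by linarith) (by linarith)
  obtain ⟨N0, hN0⟩ := upper_split hKc hKi hK0 hKC hεpos
  refine ⟨max N0 (q+1), fun N hN => ?_⟩
  have hNq : q < N := by omega
  have hq : q ∈ oddP N := mem_oddP.2 ⟨hq2, hNq, hqp⟩
  have h1 := hN0 N (by omega)
  have hkey : q * (load N q - IF N (q*2) 2) ≤ ∫ u in Ioi (0:ℝ), K u * B N u := by
    have hn0 := hqp.ne_zero
    have hn := odd_prime_smooth hq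
    have hk := kk_oddprime hq
    have hmn := mm_of_odd hk
    have hF2 := integrableOn_F N (mul_ne_zero hn0 two_ne_zero : q*2 ≠ 0) Nat.prime_two
    have hsum : load N q - IF N (q*2) 2 =
        ∫ u in Ioi (0:ℝ), ((F N q 2 u + ∑ r ∈ oddP N, F N q r u) - F N (q*2) 2 u) := by
      rw [integral_sub (integrableOn_tot N hn0) hF2, load_eq N hn0]; rfl
    rw [hsum, ← integral_const_mul]
    apply setIntegral_mono_on (((integrableOn_tot N hn0).sub hF2).const_mul _)
      (integrableOn_mul_B N hKc hKi) measurableSet_Ioi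
    intro u hu
    have hu0 : (0:ℝ) < u := hu
    have hD := DD_prime_le hq hu0.le
    rw [← hL] at hD
    have hB := B_pos N hu0.le
    have e1 := q_F_q2_two hq u
    rw [← hL] at e1
    have e2 : eB N (L + 103/100) u = exp (-(103/100*u)) * exp (-(L*u)) * B N u := by
      unfold eB
      rw [← exp_add]; congr 2; ring
    rw [e2] at e1
    rw [Pi.sub_apply]
    rw [mul_sub, e1, sumF_eq hn hu0.le, F2_zero N hk, zero_add, hk, hmn, ← hL, pi2_zero]
    have e3 : (q:ℝ) * ((L + DD N q u) * ((1 - 1/2*exp (-(103/100*u))) * Em q u) * B N u) =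
      (L + DD N q u) * (1 - 1/2*exp (-(103/100*u))) * ((q:ℝ) * Em q u) * B N u := by ring
    rw [e3, n_Em hn0, ← hL, hK]
    have h1 : exp (-(103/100*u)) ≤ 1 := by rw [exp_le_one_iff]; linarith
    have hpos : 0 ≤ (1 - 1/2*exp (-(103/100*u))) * exp (-(L*u)) * B N u := by
      have : 0 ≤ 1 - 1/2*exp (-(103/100*u)) := by linarith
      positivity
    have := mul_le_mul_of_nonneg_right hD hpos
    nlinarith
  rw [le_div_iff₀ (by positivity)]
  have h2 : q * (load N q - IF N (q*2) 2) ≤ 1/(L+x) := by linarith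
  rw [le_div_iff₀ (by linarith)] at h2
  linarith

end H40.PR
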