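import Mathlib
import Pool.Agent.H40.PRLoad3

/-!
# The function `T`
-/

namespace H40.PR

open Real Finset MeasureTheory Set

/-- the weight `f_x(n) = 1/(n (log n + x))` -/
noncomputable def fx (x : ℝ) (n : ℕ) : ℝ := 1 / ((n:ℝ) * (Real.log n + x))

/-- prime weights -/
noncomputable def tp (x : ℝ) (n : ℕ) : ℝ := if n.Prime then fx x n else 0

/-- real-valued version of `T` -/
noncomputable def TR (x : ℝ) : ℝ := ∑' n, tp x n

theorem log_nat_pos {n : ℕ} (hn : 2 ≤ n) : 0 < Real.log n := Real.log_pos (by exact_mod_cast hn)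

theorem fx_pos {x : ℝ} (hx : 0 ≤ x) {n : ℕ} (hn : 2 ≤ n) : 0 < fx x n := by
  have := log_nat_pos hn
  have h2 : (0:ℝ) < n := by positivity
  unfold fx; positivity

theorem fx_nonneg {x : ℝ} (hx : 0 ≤ x) (n : ℕ) : 0 ≤ fx x n := by
  have : 0 ≤ Real.log n := Real.log_natCast_nonneg n
  unfold fx; positivity

theorem fx_anti {x y : ℝ} (hx : 0 ≤ x) (hxy : x ≤ y) {n : ℕ} (hn : 2 ≤ n) : fx y n ≤ fx x n := by
  have := log_nat_pos hn
  have h2 : (0:ℝ) < n := by positivity
  unfold fx
  apply one_div_le_one_div_of_le (by positivity)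
  apply mul_le_mul_of_nonneg_left (by linarith) h2.le

theorem fx_strictAnti {x y : ℝ} (hx : 0 ≤ x) (hxy : x < y) {n : ℕ} (hn : 2 ≤ n) : fx y n < fx x n := by
  have := log_nat_pos hn
  have h2 : (0:ℝ) < n := by positivity
  unfold fx
  apply one_div_lt_one_div_of_lt (by positivity)
  apply mul_lt_mul_of_pos_left (by linarith) h2

theorem tp_nonneg {x : ℝ} (hx : 0 ≤ x) (n : ℕ) : 0 ≤ tp x n := by
  unfold tp; split_ifs
  · exact fx_nonneg hx n
  · exact le_rfl

theorem tp_anti {x y : ℝ} (hx : 0 ≤ x) (hxy : x ≤ y) (n : ℕ) : tp y n ≤ tp x n := by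
  unfold tp; split_ifs with h
  · exact fx_anti hx hxy h.two_le
  · exact le_rfl

theorem sum_range_tp {N : ℕ} (hN : 3 ≤ N) (x : ℝ) :
    ∑ n ∈ range N, tp x n = fx x 2 + ∑ q ∈ oddP N, fx x q := by
  have h1 : ∑ n ∈ range N, tp x n = ∑ p ∈ N.primesBelow, fx x p := by
    unfold tp
    rw [← Finset.sum_filter]
    apply Finset.sum_congr _ (fun _ _ => rfl)
    ext p; simp [Nat.mem_primesBelow]
  rw [h1]
  unfold oddP
  rw [Finset.add_sum_erase _ _ (by rw [Nat.mem_primesBelow]; exact ⟨by omega, Nat.prime_two⟩)]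

/-- the gap at the prime 2 -/
noncomputable def gap2 : ℝ := 1/(2*((693:ℝ)/1000 + 1)) - fx 1 2

theorem gap2_pos : 0 < gap2 := by
  unfold gap2 fx
  have h := Real.log_two_gt_d9
  rw [sub_pos]
  apply one_div_lt_one_div_of_lt (by norm_num)
  push_cast; linarith

theorem sum_fx_one_le {N : ℕ} (hN : 3 ≤ N) : ∑ n ∈ range N, tp 1 n ≤ 1 - gap2 := by
  rw [sum_range_tp hN]
  have h1 := load_primes_le (N := N)
  have h2 := load_two_ge N
  have h3 : ∑ q ∈ oddP N, fx 1 q ≤ ∑ q ∈ oddP N, load N q := by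
    apply Finset.sum_le_sum
    intro q hq
    exact load_oddprime_ge hq
  unfold gap2; linarith

theorem summable_tp_one : Summable (tp 1) := by
  apply summable_of_sum_range_le (c := 1) (fun n => tp_nonneg zero_le_one n)
  intro n
  have h1 : ∑ i ∈ range n, tp 1 i ≤ ∑ i ∈ range (n+3), tp 1 i :=
    Finset.sum_le_sum_of_subset_of_nonneg (Finset.range_subset_range.2 (by omega))
      (fun _ _ _ => tp_nonneg zero_le_one _)
  have := sum_fx_one_le (N := n+3) (by omega)
  have := gap2_pos
  linarith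

theorem TR_one_lt : TR 1 < 1 := by
  have h : TR 1 ≤ 1 - gap2 := by
    apply summable_tp_one.tsum_le_of_sum_range_le
    intro n
    have h1 : ∑ i ∈ range n, tp 1 i ≤ ∑ i ∈ range (n+3), tp 1 i :=
      Finset.sum_le_sum_of_subset_of_nonneg (Finset.range_subset_range.2 (by omega))
        (fun _ _ _ => tp_nonneg zero_le_one _)
    exact h1.trans (sum_fx_one_le (N := n+3) (by omega))
  have := gap2_pos
  linarith

theorem summable_tp {x : ℝ} (hx : 0 ≤ x) : Summable (tp x) := by
  refine Summable.of_nonneg_of_le (fun n => tp_nonneg hx n) ?_ (summable_tp_one.mul_left 3)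
  intro n
  refine (tp_anti le_rfl hx n).trans ?_
  unfold tp; split_ifs with h
  · have hn := h.two_le
    have h2 : (0:ℝ) < n := by positivity
    have hlog2 := log_two_ge
    have hl : Real.log 2 ≤ Real.log n := Real.log_le_log (by norm_num) (by exact_mod_cast hn)
    have hlp := log_nat_pos hn
    unfold fx
    rw [add_zero, ← mul_div_assoc, mul_one, div_le_div_iff₀ (by positivity) (by positivity)]
    nlinarith
  · simp

theorem TR_nonneg {x : ℝ} (hx : 0 ≤ x) : 0 ≤ TR x := tsum_nonneg (fun n => tp_nonneg hx n)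

theorem TR_strictAnti {x y : ℝ} (hx : 0 ≤ x) (hxy : x < y) : TR y < TR x := by
  apply Summable.tsum_lt_tsum (i := 2) (fun n => tp_anti hx hxy.le n) _
    (summable_tp (hx.trans hxy.le)) (summable_tp hx)
  unfold tp
  rw [if_pos Nat.prime_two, if_pos Nat.prime_two]
  exact fx_strictAnti hx hxy le_rfl

theorem continuousOn_TR : ContinuousOn TR (Set.Ici 0) := by
  unfold TR
  apply continuousOn_tsum (u := tp 0)
  · intro n
    unfold tp
    by_cases h : n.Prime
    · simp only [h, if_true]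
      unfold fx
      have := log_nat_pos h.two_le
      have h2 : (0:ℝ) < n := by have := h.pos; positivity
      apply ContinuousOn.div continuousOn_const (by fun_prop)
      intro x hx
      have hx' : (0:ℝ) ≤ x := hx
      positivity
    · simp only [h, if_false]
      exact continuousOn_const
  · exact summable_tp le_rfl
  · intro n x hx
    rw [Real.norm_eq_abs, abs_of_nonneg (tp_nonneg hx n)]
    exact tp_anti le_rfl hx n

/-! ### `T(18/25) ≥ 1` -/

noncomputable def Phi (N : ℕ) (u : ℝ) : ℝ := (1 - 1/2*exp (-(78/100*u))) * B N u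

/-- derivative of `Phi` divided by `B` -/
noncomputable def Kp (N : ℕ) (u : ℝ) : ℝ := 39/100*exp (-(78/100*u)) +
  ∑ q ∈ oddP N, (1 - 1/2*exp (-(78/100*u))) * (Real.log q * (Em q u / (1 - Em q u)))

theorem hasDerivAt_Phi (N : ℕ) {u : ℝ} (hu : 0 ≤ u) : HasDerivAt (Phi N) (Kp N u * B N u) u := by
  have h1 : HasDerivAt (fun u : ℝ => 1 - 1/2*exp (-(78/100*u))) (39/100*exp (-(78/100*u))) u := by
    have h0 : HasDerivAt (fun u : ℝ => -(78/100*u)) (-(78/100)) u := by
      have := ((hasDerivAt_id' u).const_mul (78/100:ℝ)).neg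
      exact this.congr_deriv (by ring)
    have := (h0.exp.const_mul (1/2:ℝ)).const_sub 1
    exact this.congr_deriv (by ring)
  have := h1.mul (hasDerivAt_B N hu)
  refine this.congr_deriv ?_
  unfold Kp
  rw [← Finset.mul_sum]
  ring

theorem tendsto_Phi (N : ℕ) : Filter.Tendsto (Phi N) Filter.atTop (nhds 1) := by
  have h2 := ((tendsto_exp_neg_mul (show (0:ℝ) < 78/100 by norm_num)).const_mul (1/2:ℝ)).const_sub 1
  have := h2.mul (tendsto_B N)
  unfold Phi
  simpa using this

/-- upper bound for the rate of `q` -/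
noncomputable def kq (q : ℕ) (u : ℝ) : ℝ :=
  (1/(q:ℝ)) * (Real.log q*(exp (-(Real.log q*u)) * (1 - 1/2*exp (-(78/100*u)))) +
      (if q = 3 then Real.log q/3 else Real.log q/(q-1))*(exp (-((2*Real.log q)*u)) * (1 - 1/2*exp (-(78/100*u)))) +
      (if q = 3 then Real.log q/6 else 0)*(exp (-((3*Real.log q)*u)) * (1 - 1/2*exp (-(78/100*u)))))

theorem half_pos (u : ℝ) (hu : 0 ≤ u) : 0 ≤ 1 - 1/2*exp (-(78/100*u)) := by
  have : exp (-(78/100*u)) ≤ 1 := by rw [exp_le_one_iff]; linarith
  linarith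

theorem rate_le_kq {N q : ℕ} (hq : q ∈ oddP N) {u : ℝ} (hu : 0 ≤ u) :
    (1 - 1/2*exp (-(78/100*u))) * (Real.log q * (Em q u / (1 - Em q u))) ≤ kq q u := by
  have hq' := mem_oddP.1 hq
  have hq1 : (1:ℝ) < q := by exact_mod_cast hq'.2.2.one_lt
  have h1 := one_sub_Em_pos hq hu
  have hlog : 0 ≤ Real.log q := Real.log_natCast_nonneg q
  have hh := half_pos u hu
  set L := Real.log q with hL
  set v := exp (-(L * u)) with hv
  have hv0 : 0 < v := exp_pos _
  have hv1 : v ≤ 1 := by rw [hv, exp_le_one_iff]; have := mul_nonneg hlog hu; linarith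
  have e2 : exp (-((2*L)*u)) = v^2 := by rw [hv, ← exp_nat_mul]; congr 1; push_cast; ring
  have e3 : exp (-((3*L)*u)) = v^3 := by rw [hv, ← exp_nat_mul]; congr 1; push_cast; ring
  rw [Em_eq_div hq'.2.2.ne_zero, ← hL, ← hv]
  have hqv : (q:ℝ) - v ≠ 0 := by linarith
  have hq0 : (q:ℝ) ≠ 0 := by linarith
  have e : v/q/(1 - v/q) = v/(q - v) := by
    field_simp
  have key : v/(q-v) ≤ (1/(q:ℝ))*(v + (if q = 3 then 1/3 else 1/((q:ℝ)-1))*v^2 + (if q = 3 then 1/6 else 0)*v^3) := by
    rw [div_le_iff₀ (by linarith)]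
    by_cases h3 : q = 3
    · simp only [h3, if_true]
      push_cast
      have : (1 / 3) * (v + 1 / 3 * v ^ 2 + 1 / 6 * v ^ 3) * (3 - v) - v = v^3*(1-v)/18 := by ring
      have h4 : 0 ≤ v^3*(1-v)/18 := by
        have : 0 ≤ 1 - v := by linarith
        positivity
      linarith
    · simp only [h3, if_false]
      have hq1' : (0:ℝ) < (q:ℝ) - 1 := by linarith
      have e4 : (1/(q:ℝ))*(v + 1/((q:ℝ)-1)*v^2 + 0*v^3)*((q:ℝ)-v) - v = v^2*(1-v)/((q:ℝ)*((q:ℝ)-1)) := by
        field_simp; ring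
      have h4 : 0 ≤ v^2*(1-v)/((q:ℝ)*((q:ℝ)-1)) := by
        have : 0 ≤ 1 - v := by linarith
        positivity
      linarith
  rw [e]
  unfold kq
  rw [← hL, e2, e3, ← hv]
  have h5 := mul_le_mul_of_nonneg_left key (mul_nonneg hh hlog)
  by_cases h3 : q = 3
  · simp only [h3, if_true] at h5 ⊢
    linarith
  · simp only [h3, if_false] at h5 ⊢
    have e6 : L/((q:ℝ)-1) = L*(1/((q:ℝ)-1)) := by ring
    rw [e6]
    linarith

theorem continuous_kq (q : ℕ) : Continuous (kq q) := by
  unfold kq; fun_prop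

theorem kq_nonneg {q : ℕ} (hq : 3 ≤ q) {u : ℝ} (hu : 0 ≤ u) : 0 ≤ kq q u := by
  have hh := half_pos u hu
  have hlog : 0 ≤ Real.log q := Real.log_natCast_nonneg q
  have hq1 : (0:ℝ) < (q:ℝ) - 1 := by
    have : (3:ℝ) ≤ q := by exact_mod_cast hq
    linarith
  unfold kq
  split_ifs <;> positivity

theorem integral_kq {q : ℕ} (hq : q.Prime) (hq2 : q ≠ 2) :
    ∫ u in Ioi (0:ℝ), kq q u * Ux u ≤ fx (18/25) q := by
  have hq3 : 3 ≤ q := by have := hq.two_le; omega
  have hq0 : (0:ℝ) < q := by positivity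
  have hL := log_nat_pos hq.two_le
  have e : ∀ u, kq q u * Ux u = (1/(q:ℝ)) * ((Real.log q*(exp (-(Real.log q*u)) * (1 - 1/2*exp (-(78/100*u)))) +
      (if q = 3 then Real.log q/3 else Real.log q/(q-1))*(exp (-((2*Real.log q)*u)) * (1 - 1/2*exp (-(78/100*u)))) +
      (if q = 3 then Real.log q/6 else 0)*(exp (-((3*Real.log q)*u)) * (1 - 1/2*exp (-(78/100*u))))) * Ux u) := by
    intro u; unfold kq; ring
  simp_rw [e]
  rw [integral_const_mul, int_combU hL (by positivity) (by positivity) (by norm_num)]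
  have hf : fx (18/25) q = (1/(q:ℝ)) * (1/(Real.log q + 18/25)) := by
    unfold fx; field_simp
  rw [hf]
  apply mul_le_mul_of_nonneg_left _ (by positivity)
  by_cases h3 : q = 3
  · subst h3
    simp only [if_true]
    have := N6_three (L := Real.log ((3:ℕ):ℝ)) (by push_cast; have := Real.log_three_gt_d9; linarith)
      (by push_cast; have := Real.log_three_lt_d9; linarith)
    linarith
  · simp only [h3, if_false]
    have h5 : 5 ≤ q := by
      rcases Nat.lt_or_ge q 5 with h | h
      · have : q = 4 := by omega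
        rw [this] at hq; exact absurd hq (by decide)
      · exact h
    have := N6_five h5
    linarith

theorem integrableOn_kqUx {q : ℕ} (hq : q.Prime) : IntegrableOn (fun u => kq q u * Ux u) (Ioi 0) := by
  have hL := log_nat_pos hq.two_le
  apply integrableOn_mul_Ux (continuous_kq q)
  set L := Real.log q with hLd
  have hj : ∀ X, 0 < X → ∀ a : ℝ, IntegrableOn (fun u => a*(exp (-(X*u)) * (1 - 1/2*exp (-(78/100*u))))) (Ioi 0) := by
    intro X hX a
    have e : (fun u => a*(exp (-(X*u)) * (1 - 1/2*exp (-(78/100*u))))) =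
        fun u => a*(u^0*exp (-(X*u)) - 1/2*(u^0*exp (-((X+78/100)*u)))) := by
      ext u
      have : exp (-((X+78/100)*u)) = exp (-(X*u)) * exp (-(78/100*u)) := by rw [← exp_add]; congr 1; ring
      rw [this]; ring
    rw [e]
    exact ((integrableOn_pow_exp 0 hX).sub ((integrableOn_pow_exp 0 (by positivity)).const_mul _)).const_mul a
  unfold kq
  rw [← hLd]
  exact (((hj L hL _).add (hj (2*L) (by positivity) _)).add (hj (3*L) (by positivity) _)).const_mul _

theorem TR_ge_one : 1 ≤ TR (18/25) := by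
  -- key finite inequality
  have hfin : ∀ δ : ℝ, 0 < δ → ∀ K : ℕ, (1 - eta K δ) * (1 - Phi (2*K+4) δ) ≤ TR (18/25) := by
    intro δ hδ K
    set N := 2*K+4 with hN
    -- integrability of the derivative
    have hKB : ∀ u, 0 < u → 0 ≤ Kp N u := by
      intro u hu
      unfold Kp
      apply add_nonneg (by positivity)
      apply Finset.sum_nonneg
      intro q hq
      have h1 := one_sub_Em_pos hq hu.le
      have h2 := Em_pos q u
      have h3 : 0 ≤ Real.log q := Real.log_natCast_nonneg q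
      exact mul_nonneg (half_pos u hu.le) (by positivity)
    have hbound : ∀ u, 0 < u → Kp N u ≤ 39/100*exp (-(78/100*u)) + ∑ q ∈ oddP N, kq q u := by
      intro u hu
      unfold Kp
      have := Finset.sum_le_sum (fun q (hq : q ∈ oddP N) => rate_le_kq hq hu.le)
      linarith
    have iR : IntegrableOn (fun u => (39/100*exp (-(78/100*u)) + ∑ q ∈ oddP N, kq q u) * Ux u) (Ioi 0) := by
      have e : (fun u => (39/100*exp (-(78/100*u)) + ∑ q ∈ oddP N, kq q u) * Ux u) =
          fun u => 39/100*(exp (-(78/100*u))*Ux u) + ∑ q ∈ oddP N, kq q u * Ux u := by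
        ext u; rw [add_mul, Finset.sum_mul, mul_assoc]
      rw [e]
      exact ((integrableOn_Ux (by norm_num)).const_mul _).add
        (integrable_finsetSum _ (fun q hq => integrableOn_kqUx (mem_oddP.1 hq).2.2))
    have vR : ∫ u in Ioi (0:ℝ), (39/100*exp (-(78/100*u)) + ∑ q ∈ oddP N, kq q u) * Ux u ≤ TR (18/25) := by
      have e : ∀ u, (39/100*exp (-(78/100*u)) + ∑ q ∈ oddP N, kq q u) * Ux u =
          39/100*(exp (-(78/100*u))*Ux u) + ∑ q ∈ oddP N, kq q u * Ux u := by
        intro u; rw [add_mul, Finset.sum_mul, mul_assoc]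
      simp_rw [e]
      rw [integral_add ((integrableOn_Ux (by norm_num)).const_mul _)
        (integrable_finsetSum _ (fun q hq => integrableOn_kqUx (mem_oddP.1 hq).2.2)),
        integral_const_mul, integral_Ux (by norm_num),
        integral_finsetSum _ (fun q hq => integrableOn_kqUx (mem_oddP.1 hq).2.2)]
      have h1 : ∑ q ∈ oddP N, ∫ u in Ioi (0:ℝ), kq q u * Ux u ≤ ∑ q ∈ oddP N, fx (18/25) q :=
        Finset.sum_le_sum (fun q hq => integral_kq (mem_oddP.1 hq).2.2 (mem_oddP.1 hq).1)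
      have h2 : 39/100 * Vx (78/100) ≤ fx (18/25) 2 := by
        have := N6_two
        have hf : fx (18/25) 2 = (1/2) * (1/(Real.log 2 + 18/25)) := by
          unfold fx
          have := log_two_ge
          push_cast
          field_simp
        rw [hf]; linarith
      have h3 : ∑ n ∈ range N, tp (18/25) n ≤ TR (18/25) :=
        (summable_tp (by norm_num)).sum_le_tsum _ (fun n _ => tp_nonneg (by norm_num) n)
      rw [sum_range_tp (by omega)] at h3
      linarith
    -- monotonicity gives integrability of the derivative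
    have hder : ∀ u ∈ Ioi δ, HasDerivAt (Phi N) (Kp N u * B N u) u := fun u hu =>
      hasDerivAt_Phi N (hδ.trans hu).le
    have hnn : ∀ u ∈ Ioi δ, 0 ≤ Kp N u * B N u := fun u hu =>
      mul_nonneg (hKB u (hδ.trans hu)) (B_pos N (hδ.trans hu).le).le
    have iD : IntegrableOn (fun u => Kp N u * B N u) (Ioi δ) :=
      integrableOn_Ioi_deriv_of_nonneg (hasDerivAt_Phi N hδ.le).continuousAt.continuousWithinAt
        hder hnn (tendsto_Phi N)
    have vD : ∫ u in Ioi δ, Kp N u * B N u = 1 - Phi N δ :=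
      integral_Ioi_of_hasDerivAt_of_nonneg (hasDerivAt_Phi N hδ.le).continuousAt.continuousWithinAt
        hder hnn (tendsto_Phi N)
    rw [← vD, ← integral_const_mul]
    have ha : ∫ u in Ioi δ, (1 - eta K δ) * (Kp N u * B N u) ≤
        ∫ u in Ioi δ, (39/100*exp (-(78/100*u)) + ∑ q ∈ oddP N, kq q u) * Ux u := by
      apply setIntegral_mono_on (iD.const_mul _) (iR.mono_set (Set.Ioi_subset_Ioi hδ.le)) measurableSet_Ioi
      intro u hu
      have hu0 : 0 < u := hδ.trans hu
      have h1 := B_le_U (N := N) (K := K) (by omega) hδ (le_of_lt hu)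
      have h3 := hKB u hu0
      have h4 := hbound u hu0
      have h5 := Ux_pos hu0
      have h6 := mul_le_mul_of_nonneg_left h1 h3
      have h7 := mul_le_mul_of_nonneg_right h4 h5.le
      linarith
    refine ha.trans (le_trans ?_ vR)
    apply setIntegral_mono_set iR
    · filter_upwards [self_mem_ae_restrict measurableSet_Ioi] with u hu
      have hu0 : (0:ℝ) < u := hu
      apply mul_nonneg _ (Ux_pos hu0).le
      apply add_nonneg (by positivity)
      exact Finset.sum_nonneg (fun q hq => kq_nonneg (oddP_three_le hq) hu0.le)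
    · exact (Set.Ioi_subset_Ioi hδ.le).eventuallyLE
  -- let K → ∞
  have hlim1 : ∀ δ : ℝ, 0 < δ → 1 - Ux δ ≤ TR (18/25) := by
    intro δ hδ
    have ht : Filter.Tendsto (fun K : ℕ => (1 - eta K δ) - Ux δ) Filter.atTop (nhds ((1 - 0) - Ux δ)) :=
      ((eta_tendsto hδ).const_sub 1).sub_const _
    rw [sub_zero] at ht
    refine le_of_tendsto ht ?_
    filter_upwards [(eta_tendsto hδ).eventually_lt_const one_pos] with K hK
    refine le_trans ?_ (hfin δ hδ K)
    have h1 := B_le_U (N := 2*K+4) (K := K) le_rfl hδ le_rfl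
    have h2 : Phi (2*K+4) δ ≤ B (2*K+4) δ := by
      unfold Phi
      have hB := B_pos (2*K+4) hδ.le
      have hE := exp_pos (-(78/100*δ))
      nlinarith
    have h3 : (1 - eta K δ) * Phi (2*K+4) δ ≤ (1 - eta K δ) * B (2*K+4) δ :=
      mul_le_mul_of_nonneg_left h2 (by linarith)
    linarith
  -- let δ → 0
  have ht : Filter.Tendsto (fun δ : ℝ => 1 - Ux δ) (nhdsWithin 0 (Ioi 0)) (nhds (1 - Ux 0)) :=
    (continuous_const.sub continuous_Ux).continuousAt.mono_left nhdsWithin_le_nhds
  have hU0 : Ux 0 = 0 := by unfold Ux; norm_num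
  rw [hU0, sub_zero] at ht
  refine le_of_tendsto ht ?_
  filter_upwards [self_mem_nhdsWithin] with δ hδ
  exact hlim1 δ hδ

theorem exists_x0 : ∃ x0 : ℝ, 18/25 ≤ x0 ∧ x0 < 1 ∧ TR x0 = 1 := by
  have hc : ContinuousOn TR (Set.Icc (18/25) 1) :=
    continuousOn_TR.mono (fun x hx => Set.mem_Ici.2 (by have := hx.1; linarith))
  have := intermediate_value_Icc' (show (18/25:ℝ) ≤ 1 by norm_num) hc
  obtain ⟨x0, hx0, h1⟩ := this (Set.mem_Icc.2 ⟨TR_one_lt.le, TR_ge_one⟩)
  refine ⟨x0, hx0.1, ?_, h1⟩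
  rcases lt_or_eq_of_le hx0.2 with h | h
  · exact h
  · rw [h] at h1
    have := TR_one_lt
    linarith

end H40.PR
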