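import Mathlib

set_option autoImplicit false

namespace Pool.Agent.H40.Box

open Finset

variable {ι α : Type*} [DecidableEq ι] [DecidableEq α]

/-- Finite family `F` of boxes with nonempty sides, pairwise disjoint, every line meets `≥ k`. -/
def Good (k d : ℕ) (F : Finset ι) (S : ι → Fin d → Finset α) : Prop :=
  (∀ j ∈ F, ∀ i, (S j i).Nonempty) ∧
  (∀ j ∈ F, ∀ j' ∈ F, j ≠ j' → ∀ x : Fin d → α,
    ¬ ((∀ l, x l ∈ S j l) ∧ (∀ l, x l ∈ S j' l))) ∧
  (∀ (i : Fin d) (x : Fin d → α), ∃ G : Finset ι, G ⊆ F ∧ k ≤ G.card ∧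
    ∀ j ∈ G, ∃ t : α, ∀ l, Function.update x i t l ∈ S j l)

lemma Good.slice {k d : ℕ} {F : Finset ι} {S : ι → Fin (d + 1) → Finset α}
    (h : Good k (d + 1) F S) (i : Fin (d + 1)) (a : α) :
    Good k d (F.filter (fun j => a ∈ S j i)) (fun j l => S j (i.succAbove l)) := by
  obtain ⟨h1, h2, h3⟩ := h
  refine ⟨?_, ?_, ?_⟩
  · intro j hj l
    exact h1 j (Finset.mem_filter.1 hj).1 _
  · intro j hj j' hj' hne x hx
    have hj1 := Finset.mem_filter.1 hj
    have hj2 := Finset.mem_filter.1 hj'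
    refine h2 j hj1.1 j' hj2.1 hne (i.insertNth a x) ⟨?_, ?_⟩
    · rw [Fin.forall_iff_succAbove i]
      refine ⟨by simpa using hj1.2, fun l => by simpa using hx.1 l⟩
    · rw [Fin.forall_iff_succAbove i]
      refine ⟨by simpa using hj2.2, fun l => by simpa using hx.2 l⟩
  · intro l x
    obtain ⟨G, hG, hk, hG2⟩ := h3 (i.succAbove l) (i.insertNth a x)
    refine ⟨G, ?_, hk, ?_⟩
    · intro j hj
      rw [Finset.mem_filter]
      refine ⟨hG hj, ?_⟩
      obtain ⟨t, ht⟩ := hG2 j hj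
      have := ht i
      rwa [Function.update_of_ne (Fin.succAbove_ne i l).symm, Fin.insertNth_apply_same] at this
    · intro j hj
      obtain ⟨t, ht⟩ := hG2 j hj
      refine ⟨t, fun l' => ?_⟩
      have := ht (i.succAbove l')
      by_cases hl : l' = l
      · subst hl
        simpa using this
      · rw [Function.update_of_ne (fun h => hl (Fin.succAbove_right_injective h)),
          Fin.insertNth_apply_succAbove] at this
        rwa [Function.update_of_ne hl]

/-- two distinct boxes are separated in some coordinate -/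
lemma Good.sep {k d : ℕ} {F : Finset ι} {S : ι → Fin d → Finset α}
    (h : Good k d F S) {j j' : ι} (hj : j ∈ F) (hj' : j' ∈ F) (hne : j ≠ j') :
    ∃ i, Disjoint (S j i) (S j' i) := by
  by_contra hcon
  push Not at hcon
  have : ∀ i, ∃ a, a ∈ S j i ∧ a ∈ S j' i := by
    intro i
    exact Finset.not_disjoint_iff.1 (hcon i)
  choose x hx using this
  exact h.2.1 j hj j' hj' hne x ⟨fun l => (hx l).1, fun l => (hx l).2⟩

/-- The pair count. -/
lemma Good.pairs {k d K : ℕ} [Nonempty α] {F : Finset ι} {S : ι → Fin d → Finset α}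
    (h : Good k d F S)
    (hK : ∀ (i : Fin d) (a : α), (F.filter (fun j => a ∉ S j i)).card ≤ K) :
    F.card * F.card - F.card ≤ d * (2 * (K * K)) := by
  classical
  obtain ⟨a⟩ := ‹Nonempty α›
  let P : Fin d → Finset (ι × ι) := fun i =>
    (F.filter (fun j => a ∉ S j i)).biUnion
      (fun j => (F.filter (fun j' => Disjoint (S j i) (S j' i))).image (fun j' => (j, j')))
  let Q : Fin d → Finset (ι × ι) := fun i =>
    (F.filter (fun j => a ∉ S j i)).biUnion
      (fun j => (F.filter (fun j' => Disjoint (S j i) (S j' i))).image (fun j' => (j', j)))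
  have hdis : ∀ i, ∀ j ∈ F, (F.filter (fun j' => Disjoint (S j i) (S j' i))).card ≤ K := by
    intro i j hj
    obtain ⟨b, hb⟩ := h.1 j hj i
    refine le_trans (Finset.card_le_card ?_) (hK i b)
    intro j' hj'
    rw [Finset.mem_filter] at hj' ⊢
    exact ⟨hj'.1, fun hb' => (Finset.disjoint_left.1 hj'.2) hb hb'⟩
  have hP : ∀ i, (P i).card ≤ K * K := by
    intro i
    refine le_trans (Finset.card_biUnion_le_card_mul _ _ K ?_) (Nat.mul_le_mul_right K (hK i a))
    intro j hj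
    exact le_trans Finset.card_image_le (hdis i j (Finset.mem_filter.1 hj).1)
  have hQ : ∀ i, (Q i).card ≤ K * K := by
    intro i
    refine le_trans (Finset.card_biUnion_le_card_mul _ _ K ?_) (Nat.mul_le_mul_right K (hK i a))
    intro j hj
    exact le_trans Finset.card_image_le (hdis i j (Finset.mem_filter.1 hj).1)
  have hsub : F.offDiag ⊆ (Finset.univ : Finset (Fin d)).biUnion (fun i => P i ∪ Q i) := by
    rintro ⟨j, j'⟩ hjj
    rw [Finset.mem_offDiag] at hjj
    obtain ⟨hj, hj', hne⟩ := hjj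
    obtain ⟨i, hi⟩ := h.sep hj hj' hne
    rw [Finset.mem_biUnion]
    refine ⟨i, Finset.mem_univ _, ?_⟩
    rw [Finset.mem_union]
    by_cases ha : a ∈ S j i
    · right
      have ha' : a ∉ S j' i := fun h' => (Finset.disjoint_left.1 hi) ha h'
      rw [Finset.mem_biUnion]
      refine ⟨j', Finset.mem_filter.2 ⟨hj', ha'⟩, ?_⟩
      rw [Finset.mem_image]
      exact ⟨j, Finset.mem_filter.2 ⟨hj, hi.symm⟩, rfl⟩
    · left
      rw [Finset.mem_biUnion]
      refine ⟨j, Finset.mem_filter.2 ⟨hj, ha⟩, ?_⟩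
      rw [Finset.mem_image]
      exact ⟨j', Finset.mem_filter.2 ⟨hj', hi⟩, rfl⟩
  calc F.card * F.card - F.card = F.offDiag.card := by rw [Finset.offDiag_card]
    _ ≤ _ := Finset.card_le_card hsub
    _ ≤ ∑ i : Fin d, (P i ∪ Q i).card := Finset.card_biUnion_le
    _ ≤ ∑ _i : Fin d, (2 * (K * K)) := by
        refine Finset.sum_le_sum fun i _ => le_trans (Finset.card_union_le _ _) ?_
        have := hP i
        have := hQ i
        omega
    _ = d * (2 * (K * K)) := by simp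

/-- Concave quadratic argument. -/
lemma quad {g G m D : ℝ} (hD : 1 ≤ D) (h1 : g ≤ m) (hg : 1 < g)
    (hG : 2 * D * (G - g) ^ 2 < G * (G - 1))
    (hm : m * (m - 1) ≤ 2 * D * (m - g) ^ 2) : G ≤ m := by
  by_contra hcon
  push Not at hcon
  have key : (G - g) * (m * (m - 1) - 2 * D * (m - g) ^ 2)
      = (G - m) * (g * (g - 1)) + (m - g) * (G * (G - 1) - 2 * D * (G - g) ^ 2)
        + (2 * D - 1) * (G - m) * (m - g) * (G - g) := by ring
  have a1 : 0 < (G - m) * (g * (g - 1)) := by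
    apply mul_pos (by linarith) (mul_pos (by linarith) (by linarith))
  have a2 : 0 ≤ (m - g) * (G * (G - 1) - 2 * D * (G - g) ^ 2) :=
    mul_nonneg (by linarith) (by linarith)
  have a3 : 0 ≤ (2 * D - 1) * (G - m) * (m - g) * (G - g) := by
    apply mul_nonneg (mul_nonneg (mul_nonneg (by linarith) (by linarith)) (by linarith)) (by linarith)
  have a4 : (G - g) * (m * (m - 1) - 2 * D * (m - g) ^ 2) ≤ 0 :=
    mul_nonpos_of_nonneg_of_nonpos (by linarith) (by linarith)
  linarith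

lemma exp_le {δ : ℝ} (h0 : 0 ≤ δ) (h2 : δ < 2) : Real.exp δ ≤ (2 + δ) / (2 - δ) := by
  have hx : 0 ≤ 2 * δ / (2 - δ) := div_nonneg (by linarith) (by linarith)
  have h := Real.le_log_one_add_of_nonneg hx
  have hne : (2 - δ) ≠ 0 := by linarith
  have e1 : 2 * (2 * δ / (2 - δ)) / (2 * δ / (2 - δ) + 2) = δ := by
    have : 2 * δ / (2 - δ) + 2 = 4 / (2 - δ) := by field_simp; ring
    rw [this]
    field_simp
    ring
  have e2 : 1 + 2 * δ / (2 - δ) = (2 + δ) / (2 - δ) := by field_simp; ring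
  rw [e1, e2] at h
  have hpos : 0 < (2 + δ) / (2 - δ) := div_pos (by linarith) (by linarith)
  calc Real.exp δ ≤ Real.exp (Real.log ((2 + δ) / (2 - δ))) := Real.exp_le_exp.2 h
    _ = _ := Real.exp_log hpos

set_option maxHeartbeats 1000000 in
/-- The growth step of `g d = c * exp (√(2d))`. -/
lemma growth {w v g : ℝ} (hw : 2 ≤ w) (hv0 : 0 < v) (hvw : v ^ 2 = w ^ 2 + 2)
    (hg : 4 * Real.exp (w - 2) ≤ g) :
    v ^ 2 * (g * Real.exp (v - w) - g) ^ 2
      < (g * Real.exp (v - w)) * (g * Real.exp (v - w) - 1) := by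
  have hv : 2.4445 ≤ v := by
    by_contra hcon
    push Not at hcon
    nlinarith
  have hvw' : w < v := by nlinarith
  set δ : ℝ := v - w with hδ
  have hδ0 : 0 < δ := by linarith
  have hδ1 : δ * (v + w) = 2 := by rw [hδ]; linarith [hvw, (by ring : (v - w) * (v + w) = v ^ 2 - w ^ 2)]
  have hδ2 : δ ≤ 0.45 := by
    by_contra hcon
    push Not at hcon
    nlinarith
  have hδ3 : v * δ = 1 + δ ^ 2 / 2 := by
    have : v ^ 2 = (v - δ) ^ 2 + 2 := by rw [hvw]; rw [hδ]; ring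
    nlinarith
  have hδ4 : 1 ≤ v * δ := by nlinarith
  set r : ℝ := Real.exp δ with hr
  have hr1 : 1 < r := by rw [hr]; exact Real.one_lt_exp_iff.2 hδ0
  have hr2 : r ≤ (2 + δ) / (2 - δ) := exp_le hδ0.le (by linarith)
  have hg0 : 0 < g := lt_of_lt_of_le (by positivity) hg
  set G : ℝ := g * r with hG
  have hG0 : 0 < G := by positivity
  -- G - g ≤ G * 2δ/(2+δ)
  have hGg : (G - g) * (2 + δ) ≤ G * (2 * δ) := by
    have h1 : r * (2 - δ) ≤ 2 + δ := by
      rwa [le_div_iff₀ (by linarith)] at hr2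
    have : (r - 1) * (2 + δ) ≤ r * (2 * δ) := by nlinarith
    calc (G - g) * (2 + δ) = g * ((r - 1) * (2 + δ)) := by rw [hG]; ring
      _ ≤ g * (r * (2 * δ)) := mul_le_mul_of_nonneg_left this hg0.le
      _ = _ := by rw [hG]; ring
  have hvG : v * (G - g) * (2 + δ) ≤ G * (2 + δ ^ 2) := by
    calc v * (G - g) * (2 + δ) = v * ((G - g) * (2 + δ)) := by ring
      _ ≤ v * (G * (2 * δ)) := mul_le_mul_of_nonneg_left hGg hv0.le
      _ = G * (2 * (v * δ)) := by ring
      _ = _ := by rw [hδ3]; ring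
  have hGpos : 0 ≤ v * (G - g) * (2 + δ) := by
    apply mul_nonneg (mul_nonneg hv0.le _) (by linarith)
    rw [hG]
    nlinarith
  have hsq : (v * (G - g) * (2 + δ)) ^ 2 ≤ (G * (2 + δ ^ 2)) ^ 2 :=
    pow_le_pow_left₀ hGpos hvG 2
  -- G is large
  have hGe : 4 * Real.exp (v - 2) ≤ G := by
    have : Real.exp (v - 2) = Real.exp (w - 2) * r := by
      rw [hr, ← Real.exp_add]; congr 1; rw [hδ]; ring
    rw [this, hG]
    nlinarith
  have hquad : 1 + (v - 2) + (v - 2) ^ 2 / 2 ≤ Real.exp (v - 2) :=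
    Real.quadratic_le_exp_of_nonneg (by linarith)
  have hG1 : v < 0.4263 * G := by
    have : v < 0.4263 * (4 * (1 + (v - 2) + (v - 2) ^ 2 / 2)) := by nlinarith
    nlinarith
  -- the key inequality
  have hkey : (2 + δ) ^ 2 < G * ((2 + δ) ^ 2 - (2 + δ ^ 2) ^ 2) := by
    have e1 : (2 + δ) ^ 2 - (2 + δ ^ 2) ^ 2 = δ * ((1 - δ) * (4 + δ + δ ^ 2)) := by ring
    have d2 : δ ^ 2 ≤ 0.45 ^ 2 := pow_le_pow_left₀ hδ0.le hδ2 2
    have d3 : δ ^ 3 ≤ 0.45 ^ 3 := pow_le_pow_left₀ hδ0.le hδ2 3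
    have e2 : 0.4263 * (2 + δ) ^ 2 ≤ (1 - δ) * (4 + δ + δ ^ 2) := by
      have e2a : (1 - δ) * (4 + δ + δ ^ 2) = 4 - 3 * δ - δ ^ 3 := by ring
      have e2b : 0.4263 * (2 + δ) ^ 2 = 1.7052 + 1.7052 * δ + 0.4263 * δ ^ 2 := by ring
      rw [e2a, e2b]
      norm_num at d2 d3 ⊢
      linarith
    rw [e1]
    have e3 : 1 < 0.4263 * (G * δ) := by
      have : v * δ < 0.4263 * G * δ := mul_lt_mul_of_pos_right hG1 hδ0
      have h3 : 0.4263 * G * δ = 0.4263 * (G * δ) := by ring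
      linarith
    have hGδ : 0 < G * δ := by positivity
    calc (2 + δ) ^ 2 < (0.4263 * (G * δ)) * (2 + δ) ^ 2 := by
          exact lt_mul_of_one_lt_left (by positivity) e3
      _ = (G * δ) * (0.4263 * (2 + δ) ^ 2) := by ring
      _ ≤ (G * δ) * ((1 - δ) * (4 + δ + δ ^ 2)) := mul_le_mul_of_nonneg_left e2 hGδ.le
      _ = _ := by ring
  have hfin : (v ^ 2 * (G - g) ^ 2) * (2 + δ) ^ 2 < (G * (G - 1)) * (2 + δ) ^ 2 := by
    calc (v ^ 2 * (G - g) ^ 2) * (2 + δ) ^ 2 = (v * (G - g) * (2 + δ)) ^ 2 := by ring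
      _ ≤ (G * (2 + δ ^ 2)) ^ 2 := hsq
      _ = G * (G * (2 + δ) ^ 2 - G * ((2 + δ) ^ 2 - (2 + δ ^ 2) ^ 2)) := by ring
      _ < G * (G * (2 + δ) ^ 2 - (2 + δ) ^ 2) := by
          apply mul_lt_mul_of_pos_left _ hG0
          linarith
      _ = _ := by ring
  exact lt_of_mul_lt_mul_right hfin (by positivity)

lemma slice_to_pairs {k d N : ℕ} [Nonempty α] {F : Finset ι} {S : ι → Fin (d + 1) → Finset α}
    (h : Good k (d + 1) F S)
    (hN : ∀ (i : Fin (d + 1)) (a : α), N ≤ (F.filter (fun j => a ∈ S j i)).card) :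
    N ≤ F.card ∧ (F.card : ℝ) * (F.card - 1) ≤ 2 * ((d : ℝ) + 1) * ((F.card : ℝ) - N) ^ 2 := by
  obtain ⟨a⟩ := ‹Nonempty α›
  have hle : N ≤ F.card := le_trans (hN 0 a) (Finset.card_filter_le _ _)
  refine ⟨hle, ?_⟩
  have hK : ∀ (i : Fin (d + 1)) (a : α), (F.filter (fun j => a ∉ S j i)).card ≤ F.card - N := by
    intro i a
    have h1 := Finset.card_filter_add_card_filter_not (s := F) (fun j => a ∈ S j i)
    have h2 := hN i a
    omega
  have : Nonempty α := ⟨a⟩
  have hp := h.pairs hK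
  have hp' : F.card * F.card ≤ (d + 1) * (2 * ((F.card - N) * (F.card - N))) + F.card := by
    omega
  have hp'' : (F.card : ℝ) * F.card
      ≤ ((d : ℝ) + 1) * (2 * (((F.card : ℝ) - N) * ((F.card : ℝ) - N))) + F.card := by
    have := (Nat.cast_le (α := ℝ)).2 hp'
    push_cast [Nat.cast_sub hle] at this
    exact this
  nlinarith

/-- The case `d = 1`. -/
lemma Good.one {k : ℕ} [Nonempty α] {F : Finset ι} {S : ι → Fin 1 → Finset α}
    (h : Good k 1 F S) : k ≤ F.card := by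
  obtain ⟨a⟩ := ‹Nonempty α›
  obtain ⟨G, hG, hk, -⟩ := h.2.2 0 (fun _ => a)
  exact hk.trans (Finset.card_le_card hG)

lemma Good.two {k : ℕ} (hk2 : 2 ≤ k) [Nonempty α] {F : Finset ι} {S : ι → Fin 2 → Finset α}
    (h : Good k 2 F S) : 2 * k ≤ F.card := by
  have hsl : ∀ (i : Fin 2) (a : α), k ≤ (F.filter (fun j => a ∈ S j i)).card := fun i a =>
    (h.slice i a).one
  obtain ⟨h1, h2⟩ := slice_to_pairs h hsl
  have hk' : (2 : ℝ) ≤ k := by exact_mod_cast hk2
  by_contra hcon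
  push Not at hcon
  have hm : (F.card : ℝ) ≤ 2 * k - 1 := by
    have : F.card + 1 ≤ 2 * k := hcon
    have := (Nat.cast_le (α := ℝ)).2 this
    push_cast at this
    linarith
  have h1' : (k : ℝ) ≤ F.card := by exact_mod_cast h1
  norm_num at h2
  -- m(m-1) ≤ 4 (m-k)^2 with k ≤ m ≤ 2k-1
  nlinarith [mul_nonneg (sub_nonneg.2 h1') (sub_nonneg.2 hm)]

theorem main {k : ℕ} (hk2 : 2 ≤ k) [Nonempty α] (d : ℕ) :
    ∀ (F : Finset ι) (S : ι → Fin (d + 2) → Finset α), Good k (d + 2) F S →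
      2 * (k : ℝ) * Real.exp (Real.sqrt (2 * ((d : ℝ) + 2)) - 2) ≤ F.card := by
  have hk' : (2 : ℝ) ≤ k := by exact_mod_cast hk2
  induction d with
  | zero =>
    intro F S h
    have h2 := h.two hk2
    have : Real.sqrt (2 * (((0 : ℕ) : ℝ) + 2)) = 2 := by
      rw [show (2 * (((0 : ℕ) : ℝ) + 2)) = 2 ^ 2 by norm_num, Real.sqrt_sq (by norm_num)]
    rw [this]
    have := (Nat.cast_le (α := ℝ)).2 h2
    push_cast at this
    simpa using this
  | succ d ih =>
    intro F S h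
    set w : ℝ := Real.sqrt (2 * ((d : ℝ) + 2)) with hw
    set v : ℝ := Real.sqrt (2 * (((d + 1 : ℕ) : ℝ) + 2)) with hv
    set g : ℝ := 2 * (k : ℝ) * Real.exp (w - 2) with hg
    have hw2 : w ^ 2 = 2 * ((d : ℝ) + 2) := Real.sq_sqrt (by positivity)
    have hv2 : v ^ 2 = 2 * ((d : ℝ) + 1 + 2) := by
      rw [hv, Real.sq_sqrt (by positivity)]; push_cast; ring
    have hw0 : 2 ≤ w := by
      apply Real.le_sqrt_of_sq_le
      have : (0 : ℝ) ≤ d := Nat.cast_nonneg d
      linarith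
    have hv0 : 0 < v := Real.sqrt_pos.2 (by positivity)
    have hg4 : 4 * Real.exp (w - 2) ≤ g := by
      rw [hg]
      have := Real.exp_pos (w - 2)
      nlinarith
    have hg1 : 1 < g := by
      have : 1 ≤ Real.exp (w - 2) := Real.one_le_exp (by linarith)
      linarith
    have hgr := growth hw0 hv0 (by rw [hv2, hw2]; ring) hg4
    have hGv : 2 * (k : ℝ) * Real.exp (v - 2) = g * Real.exp (v - w) := by
      rw [hg, mul_assoc (2 * (k : ℝ)), ← Real.exp_add]
      congr 2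
      ring
    rw [hGv]
    have hsl : ∀ (i : Fin (d + 2 + 1)) (a : α), ⌈g⌉₊ ≤ (F.filter (fun j => a ∈ S j i)).card := by
      intro i a
      exact Nat.ceil_le.2 (ih _ _ (h.slice i a))
    obtain ⟨h1, h2⟩ := slice_to_pairs h hsl
    have hgm : g ≤ F.card := Nat.ceil_le.1 h1
    have hgc : g ≤ (⌈g⌉₊ : ℝ) := Nat.le_ceil g
    have h1' : (⌈g⌉₊ : ℝ) ≤ F.card := by exact_mod_cast h1
    refine quad (D := (d : ℝ) + 2 + 1) ?_ hgm hg1 ?_ ?_
    · have : (0 : ℝ) ≤ d := Nat.cast_nonneg d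
      linarith
    · have : 2 * ((d : ℝ) + 2 + 1) = v ^ 2 := by rw [hv2]; ring
      rw [this]
      exact hgr
    · refine h2.trans ?_
      push_cast
      have hd : (0 : ℝ) ≤ 2 * ((d : ℝ) + 2 + 1) := by positivity
      apply mul_le_mul_of_nonneg_left _ hd
      apply pow_le_pow_left₀ (by linarith)
      linarith

end Pool.Agent.H40.Box
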