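import Pool.Agent.H40.HaarDefs

set_option autoImplicit false

open MeasureTheory Filter Topology

namespace Pool.Agent.H40.Haar

theorem mem_dyadic_iff (j k : ℤ) (x : ℝ) : x ∈ dyadic j k ↔ ⌊x / 2 ^ j⌋ = k := by
  have h := two_zpow_pos j
  rw [Int.floor_eq_iff, dyadic, Set.mem_Ico, le_div_iff₀ h, div_lt_iff₀ h]

theorem mem_dyadic_floor (j : ℤ) (x : ℝ) : x ∈ dyadic j ⌊x / 2 ^ j⌋ := by
  rw [mem_dyadic_iff]

theorem dyadic_disjoint {j k k' : ℤ} (h : k ≠ k') : Disjoint (dyadic j k) (dyadic j k') := by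
  rw [Set.disjoint_left]
  intro x hx hx'
  rw [mem_dyadic_iff] at hx hx'
  exact h (hx.symm.trans hx')

theorem dyadic_succ (j k : ℤ) :
    dyadic (j + 1) k = dyadic j (2 * k) ∪ dyadic j (2 * k + 1) := by
  have h := two_zpow_pos j
  unfold dyadic
  have e1 : ((k : ℝ)) * 2 ^ (j + 1) = ((2 * k : ℤ) : ℝ) * 2 ^ j := by
    rw [zpow_add₀ (by norm_num : (2 : ℝ) ≠ 0)]; push_cast; ring
  have e2 : ((k : ℝ) + 1) * 2 ^ (j + 1) = (((2 * k + 1 : ℤ) : ℝ) + 1) * 2 ^ j := by
    rw [zpow_add₀ (by norm_num : (2 : ℝ) ≠ 0)]; push_cast; ring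
  have e3 : (((2 * k : ℤ) : ℝ) + 1) * 2 ^ j = ((2 * k + 1 : ℤ) : ℝ) * 2 ^ j := by
    push_cast; ring
  rw [e1, e2, e3, Set.Ico_union_Ico_eq_Ico]
  · push_cast; nlinarith
  · push_cast; nlinarith

theorem two_zpow_succ (j : ℤ) : (2 : ℝ) ^ (j + 1) = 2 * 2 ^ j := by
  rw [zpow_add₀ (by norm_num : (2 : ℝ) ≠ 0)]; ring

/-- integral over a dyadic interval -/
noncomputable def A (f : ℝ → ℝ) (j k : ℤ) : ℝ := ∫ x in dyadic j k, f x

/-- average over a dyadic interval -/
noncomputable def av (f : ℝ → ℝ) (j k : ℤ) : ℝ := (2 ^ j)⁻¹ * A f j k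

/-- half difference of the averages over the two halves of `dyadic (j+1) k` -/
noncomputable def dd (f : ℝ → ℝ) (j k : ℤ) : ℝ := (av f (j - 1) (2 * k + 1) - av f (j - 1) (2 * k)) / 2

theorem A_eq (f : ℝ → ℝ) (j k : ℤ) : A f j k = 2 ^ j * av f j k := by
  unfold av
  have h := (two_zpow_pos j).ne'
  field_simp

theorem A_succ {f : ℝ → ℝ} (hf : LocallyIntegrable f) (j k : ℤ) :
    A f (j + 1) k = A f j (2 * k) + A f j (2 * k + 1) := by
  unfold A
  rw [dyadic_succ, setIntegral_union (dyadic_disjoint (by omega)) (measurableSet_dyadic _ _)]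
  · exact (hf.integrableOn_isCompact isCompact_Icc).mono_set Set.Ico_subset_Icc_self
  · exact (hf.integrableOn_isCompact isCompact_Icc).mono_set Set.Ico_subset_Icc_self

theorem integrableOn_dyadic {f : ℝ → ℝ} (hf : LocallyIntegrable f) (j k : ℤ) :
    IntegrableOn f (dyadic j k) :=
  (hf.integrableOn_isCompact isCompact_Icc).mono_set Set.Ico_subset_Icc_self

theorem A_pred {f : ℝ → ℝ} (hf : LocallyIntegrable f) (j k : ℤ) :
    A f j k = A f (j - 1) (2 * k) + A f (j - 1) (2 * k + 1) := by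
  have := A_succ hf (j - 1) k
  rwa [sub_add_cancel] at this

theorem av_pred {f : ℝ → ℝ} (hf : LocallyIntegrable f) (j k : ℤ) :
    av f j k = (av f (j - 1) (2 * k) + av f (j - 1) (2 * k + 1)) / 2 := by
  have h1 := A_pred hf j k
  rw [A_eq, A_eq, A_eq] at h1
  have h2 : (2 : ℝ) ^ j = 2 * 2 ^ (j - 1) := by
    rw [← two_zpow_succ, sub_add_cancel]
  rw [h2] at h1
  have h := two_zpow_pos (j - 1)
  have h3 : 2 ^ (j - 1) * (2 * av f j k) =
      2 ^ (j - 1) * (av f (j - 1) (2 * k) + av f (j - 1) (2 * k + 1)) := by linarith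
  have h4 := mul_left_cancel₀ h.ne' h3
  linarith

theorem av_left {f : ℝ → ℝ} (hf : LocallyIntegrable f) (j k : ℤ) :
    av f (j - 1) (2 * k) = av f j k - dd f j k := by
  rw [av_pred hf j k, dd]; ring

theorem av_right {f : ℝ → ℝ} (hf : LocallyIntegrable f) (j k : ℤ) :
    av f (j - 1) (2 * k + 1) = av f j k + dd f j k := by
  rw [av_pred hf j k, dd]; ring

theorem integral_haar_mul {f : ℝ → ℝ} (hf : LocallyIntegrable f) (j k : ℤ) :
    ∫ x, haar j k x * f x = Real.sqrt (2 ^ j) * dd f j k := by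
  have hi : ∀ m : ℤ, Integrable ((dyadic (j - 1) m).indicator f) := fun m =>
    (integrable_indicator_iff (measurableSet_dyadic _ _)).2 (integrableOn_dyadic hf _ _)
  have h1 : (fun x => haar j k x * f x) = fun x => (Real.sqrt ((2 : ℝ) ^ j))⁻¹ *
      ((dyadic (j - 1) (2 * k + 1)).indicator f x - (dyadic (j - 1) (2 * k)).indicator f x) := by
    funext x
    unfold haar
    by_cases h1 : x ∈ dyadic (j - 1) (2 * k + 1) <;> by_cases h2 : x ∈ dyadic (j - 1) (2 * k) <;>
      simp [h1, h2]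
  rw [h1, integral_const_mul, integral_sub (hi _) (hi _),
    integral_indicator (measurableSet_dyadic _ _), integral_indicator (measurableSet_dyadic _ _)]
  change (Real.sqrt ((2 : ℝ) ^ j))⁻¹ * (A f (j - 1) (2 * k + 1) - A f (j - 1) (2 * k)) = _
  rw [A_eq, A_eq, dd]
  have h2 : (2 : ℝ) ^ j = 2 * 2 ^ (j - 1) := by
    rw [← two_zpow_succ, sub_add_cancel]
  have h3 : Real.sqrt ((2 : ℝ) ^ j) * Real.sqrt ((2 : ℝ) ^ j) = 2 * 2 ^ (j - 1) := by
    rw [Real.mul_self_sqrt (two_zpow_pos j).le, h2]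
  have h4 : Real.sqrt ((2 : ℝ) ^ j) ≠ 0 := (Real.sqrt_pos.2 (two_zpow_pos j)).ne'
  field_simp
  have h5 : Real.sqrt ((2 : ℝ) ^ j) ^ 2 = 2 * 2 ^ (j - 1) := by rw [sq, h3]
  rw [h5]
  ring

theorem locallyIntegrable_of_memLp {f : ℝ → ℝ} (hf : MemLp f 2 (volume : Measure ℝ)) :
    LocallyIntegrable f := hf.locallyIntegrable (by norm_num)

theorem A_indicator_self (j k m : ℤ) :
    A ((dyadic j k).indicator (fun _ => (1 : ℝ))) j m = if m = k then 2 ^ j else 0 := by
  unfold A
  rw [setIntegral_indicator (measurableSet_dyadic _ _)]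
  split_ifs with h
  · rw [h, Set.inter_self, setIntegral_const, measureReal_def, volume_dyadic,
      ENNReal.toReal_ofReal (two_zpow_pos j).le, smul_eq_mul, mul_one]
  · rw [(dyadic_disjoint h).inter_eq, Measure.restrict_empty, integral_zero_measure]

theorem locallyIntegrable_haar (j k : ℤ) : LocallyIntegrable (haar j k) :=
  locallyIntegrable_of_memLp (memLp_haar j k)

theorem A_haar_pred (j k m : ℤ) : A (haar j k) (j - 1) m =
    (Real.sqrt ((2 : ℝ) ^ j))⁻¹ * ((if m = 2 * k + 1 then 2 ^ (j - 1) else 0) -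
      (if m = 2 * k then 2 ^ (j - 1) else 0)) := by
  rw [← A_indicator_self, ← A_indicator_self]
  unfold A haar
  have hi : ∀ m' : ℤ, Integrable ((dyadic (j - 1) m').indicator (fun _ => (1 : ℝ)))
      (volume.restrict (dyadic (j - 1) m)) := fun m' =>
    ((integrable_indicator_iff (measurableSet_dyadic _ _)).2
      (integrableOn_const (volume_dyadic_ne_top _ _))).restrict
  rw [integral_const_mul, integral_sub (hi _) (hi _)]

theorem A_haar_self (j k m : ℤ) : A (haar j k) j m = 0 := by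
  rw [A_pred (locallyIntegrable_haar j k), A_haar_pred, A_haar_pred]
  by_cases h : m = k
  · subst h
    have h1 : ¬ (2 * m = 2 * m + 1) := by omega
    have h2 : ¬ (2 * m + 1 = 2 * m) := by omega
    simp [h1]
  · have h1 : ¬ (2 * m = 2 * k + 1) := by omega
    have h2 : ¬ (2 * m + 1 = 2 * k) := by omega
    have h3 : ¬ (2 * m = 2 * k) := by omega
    have h4 : ¬ (2 * m + 1 = 2 * k + 1) := by omega
    simp [h1, h2, h]

theorem A_haar_add (j k : ℤ) (n : ℕ) : ∀ m : ℤ, A (haar j k) (j + n) m = 0 := by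
  induction n with
  | zero => intro m; simpa using A_haar_self j k m
  | succ n ih =>
    intro m
    have : (j + ((n + 1 : ℕ) : ℤ)) = (j + n) + 1 := by push_cast; ring
    rw [this, A_succ (locallyIntegrable_haar j k), ih, ih, add_zero]

theorem A_haar_of_le {j i : ℤ} (h : j ≤ i) (k m : ℤ) : A (haar j k) i m = 0 := by
  obtain ⟨n, hn⟩ := Int.eq_ofNat_of_zero_le (sub_nonneg.2 h)
  have : i = j + n := by omega
  rw [this]
  exact A_haar_add j k n m

theorem inner_haarL2_haarL2_of_lt {j j' : ℤ} (h : j' < j) (k k' : ℤ) :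
    ∫ x, haar j k x * haar j' k' x = 0 := by
  rw [integral_haar_mul (locallyIntegrable_haar j' k')]
  unfold dd av
  rw [A_haar_of_le (by omega), A_haar_of_le (by omega)]
  simp

theorem inner_haar_same (j k k' : ℤ) :
    ∫ x, haar j k x * haar j k' x = if k = k' then 1 else 0 := by
  rw [integral_haar_mul (locallyIntegrable_haar j k')]
  unfold dd av
  rw [A_haar_pred, A_haar_pred]
  have h2 : (2 : ℝ) ^ j = 2 * 2 ^ (j - 1) := by
    rw [← two_zpow_succ, sub_add_cancel]
  have h4 : Real.sqrt ((2 : ℝ) ^ j) ≠ 0 := (Real.sqrt_pos.2 (two_zpow_pos j)).ne'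
  have h5 := (two_zpow_pos (j - 1)).ne'
  by_cases h : k = k'
  · subst h
    have h1 : ¬ (2 * k = 2 * k + 1) := by omega
    have h2 : ¬ (2 * k + 1 = 2 * k) := by omega
    simp [h1]
    field_simp
  · have h1 : ¬ (2 * k = 2 * k' + 1) := by omega
    have h2 : ¬ (2 * k + 1 = 2 * k') := by omega
    have h3 : ¬ (2 * k = 2 * k') := by omega
    have h4 : ¬ (2 * k + 1 = 2 * k' + 1) := by omega
    simp [h1, h2, h]

theorem inner_toLp {f g : ℝ → ℝ} (hf : MemLp f 2 (volume : Measure ℝ))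
    (hg : MemLp g 2 (volume : Measure ℝ)) :
    inner ℝ (hf.toLp f) (hg.toLp g) = ∫ x, f x * g x := by
  rw [L2.inner_def]
  apply integral_congr_ae
  filter_upwards [hf.coeFn_toLp, hg.coeFn_toLp] with x h1 h2
  rw [h1, h2]
  simp [mul_comm]

theorem inner_toLp' {f : ℝ → ℝ} (hf : MemLp f 2 (volume : Measure ℝ))
    (g : Lp ℝ 2 (volume : Measure ℝ)) :
    inner ℝ (hf.toLp f) g = ∫ x, f x * g x := by
  rw [L2.inner_def]
  apply integral_congr_ae
  filter_upwards [hf.coeFn_toLp] with x h1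
  rw [h1]
  simp [mul_comm]

theorem locallyIntegrable_Lp (g : Lp ℝ 2 (volume : Measure ℝ)) :
    LocallyIntegrable (g : ℝ → ℝ) := locallyIntegrable_of_memLp (Lp.memLp g)

theorem inner_haarL2 (j k : ℤ) (g : Lp ℝ 2 (volume : Measure ℝ)) :
    inner ℝ (haarL2 j k) g = Real.sqrt (2 ^ j) * dd g j k := by
  unfold haarL2
  rw [inner_toLp' (memLp_haar j k), integral_haar_mul (locallyIntegrable_Lp g)]

theorem inner_haarL2_haarL2 (j k j' k' : ℤ) :
    inner ℝ (haarL2 j k) (haarL2 j' k') = if (j, k) = (j', k') then (1 : ℝ) else 0 := by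
  unfold haarL2
  rw [inner_toLp]
  rcases lt_trichotomy j j' with h | h | h
  · rw [if_neg (by simp; omega)]
    have : (fun x => haar j k x * haar j' k' x) = fun x => haar j' k' x * haar j k x := by
      funext x; ring
    rw [this, inner_haarL2_haarL2_of_lt h]
  · subst h
    rw [inner_haar_same]
    simp
  · rw [if_neg (by simp; omega), inner_haarL2_haarL2_of_lt h]

theorem orthonormal_haarL2 : Orthonormal ℝ (fun p : ℤ × ℤ => haarL2 p.1 p.2) := by
  rw [orthonormal_iff_ite]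
  intro p q
  rw [inner_haarL2_haarL2]

end Pool.Agent.H40.Haar
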