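import Pool.Agent.H40.HaarBasic

set_option autoImplicit false

open MeasureTheory Filter Topology

namespace Pool.Agent.H40.Haar

theorem tendsto_zpow_sub (j : ℤ) :
    Tendsto (fun n : ℕ => (2 : ℝ) ^ (j - (n : ℤ))) atTop (𝓝 0) := by
  have h : (fun n : ℕ => (2 : ℝ) ^ (j - (n : ℤ))) = fun n : ℕ => 2 ^ j * (1 / 2 : ℝ) ^ n := by
    funext n
    rw [zpow_sub₀ (by norm_num : (2 : ℝ) ≠ 0), zpow_natCast]
    simp [div_eq_mul_inv]
  rw [h]
  have := (tendsto_pow_atTop_nhds_zero_of_lt_one (by norm_num : (0 : ℝ) ≤ 1 / 2)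
    (by norm_num)).const_mul ((2 : ℝ) ^ j)
  simpa using this

/-- dyadic martingale function -/
noncomputable def E (f : ℝ → ℝ) (i : ℤ) (x : ℝ) : ℝ := av f i ⌊x / 2 ^ i⌋

theorem E_of_mem {f : ℝ → ℝ} {i k : ℤ} {x : ℝ} (h : x ∈ dyadic i k) : E f i x = av f i k := by
  rw [mem_dyadic_iff] at h
  rw [E, h]

theorem average_closedBall (f : ℝ → ℝ) (i m : ℤ) :
    ⨍ y in Metric.closedBall (((m : ℝ) + 1 / 2) * 2 ^ i) (2 ^ i / 2), f y = av f i m := by
  have h := two_zpow_pos i
  have e1 : ((m : ℝ) + 1 / 2) * 2 ^ i - 2 ^ i / 2 = m * 2 ^ i := by ring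
  have e2 : ((m : ℝ) + 1 / 2) * 2 ^ i + 2 ^ i / 2 = (m + 1) * 2 ^ i := by ring
  rw [Real.closedBall_eq_Icc, e1, e2, setAverage_eq, integral_Icc_eq_integral_Ico,
    measureReal_def, Real.volume_Icc, ENNReal.toReal_ofReal (by nlinarith)]
  have e3 : ((m : ℝ) + 1) * 2 ^ i - m * 2 ^ i = 2 ^ i := by ring
  rw [e3, smul_eq_mul]
  rfl

theorem ae_tendsto_E {f : ℝ → ℝ} (hf : LocallyIntegrable f) :
    ∀ᵐ x, ∀ j : ℤ, Tendsto (fun n : ℕ => E f (j - (n : ℤ)) x) atTop (𝓝 (f x)) := by
  filter_upwards [IsUnifLocDoublingMeasure.ae_tendsto_average (μ := (volume : Measure ℝ)) hf 1]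
    with x hx j
  have h := hx (l := atTop)
    (fun n : ℕ => (((⌊x / 2 ^ (j - (n : ℤ))⌋ : ℤ) : ℝ) + 1 / 2) * 2 ^ (j - (n : ℤ)))
    (fun n : ℕ => 2 ^ (j - (n : ℤ)) / 2) ?_ ?_
  · refine h.congr ?_
    intro n
    exact average_closedBall f _ _
  · rw [tendsto_nhdsWithin_iff]
    constructor
    · have := (tendsto_zpow_sub j).div_const 2
      simpa using this
    · refine Eventually.of_forall fun n => ?_
      have := two_zpow_pos (j - (n : ℤ))
      simp only [Set.mem_Ioi]
      positivity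
  · refine Eventually.of_forall fun n => ?_
    have hm := mem_dyadic_floor (j - (n : ℤ)) x
    have hp := two_zpow_pos (j - (n : ℤ))
    unfold dyadic at hm
    rw [Set.mem_Ico] at hm
    rw [Real.closedBall_eq_Icc, Set.mem_Icc]
    constructor <;> nlinarith [hm.1, hm.2]

theorem abs_A_le (g : Lp ℝ 2 (volume : Measure ℝ)) (j k : ℤ) :
    |A g j k| ≤ Real.sqrt (2 ^ j) * ‖g‖ := by
  have hm : MemLp ((dyadic j k).indicator (fun _ => (1 : ℝ))) 2 (volume : Measure ℝ) :=
    memLp_indicator_const 2 (measurableSet_dyadic _ _) 1 (Or.inr (volume_dyadic_ne_top _ _))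
  have h1 : A g j k = inner ℝ (hm.toLp _) g := by
    rw [inner_toLp' hm]
    unfold A
    rw [← integral_indicator (measurableSet_dyadic _ _)]
    congr 1
    funext x
    by_cases h : x ∈ dyadic j k <;> simp [h]
  have h2 : ‖hm.toLp _‖ = Real.sqrt (2 ^ j) := by
    have h3 : ‖hm.toLp _‖ ^ 2 = 2 ^ j := by
      rw [← real_inner_self_eq_norm_sq, inner_toLp hm hm]
      have : (fun x => (dyadic j k).indicator (fun _ => (1 : ℝ)) x *
          (dyadic j k).indicator (fun _ => (1 : ℝ)) x) =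
          (dyadic j k).indicator (fun _ => (1 : ℝ)) := by
        funext x
        by_cases h : x ∈ dyadic j k <;> simp [h]
      rw [this, integral_indicator (measurableSet_dyadic _ _), setIntegral_const, measureReal_def,
        volume_dyadic, ENNReal.toReal_ofReal (two_zpow_pos j).le, smul_eq_mul, mul_one]
    rw [← h3, Real.sqrt_sq (norm_nonneg _)]
  rw [h1, ← h2]
  exact abs_real_inner_le_norm _ _

/-- if all Haar coefficients vanish then all averages vanish -/
theorem av_eq_zero_of_dd {g : Lp ℝ 2 (volume : Measure ℝ)} (h : ∀ j k, dd g j k = 0) (j k : ℤ) :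
    av g j k = 0 := by
  have hl := locallyIntegrable_Lp g
  have h1 : ∀ (n : ℕ) (j k : ℤ), ∃ m : ℤ, av g j k = av g (j + n) m := by
    intro n
    induction n with
    | zero => intro j k; exact ⟨k, by simp⟩
    | succ n ih =>
      intro j k
      obtain ⟨m, hm⟩ : ∃ m : ℤ, av g j k = av g (j + 1) m := by
        rcases Int.even_or_odd' k with ⟨c, hc | hc⟩
        · refine ⟨c, ?_⟩
          have := av_left hl (j + 1) c
          rw [h, add_sub_cancel_right, sub_zero] at this
          rw [hc, this]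
        · refine ⟨c, ?_⟩
          have := av_right hl (j + 1) c
          rw [h, add_sub_cancel_right, add_zero] at this
          rw [hc, this]
      obtain ⟨m', hm'⟩ := ih (j + 1) m
      refine ⟨m', ?_⟩
      rw [hm, hm']
      congr 1
      push_cast
      ring
  have h2 : ∀ n : ℕ, |av g j k| ≤ ((2 : ℝ) ^ (j + n))⁻¹ * (Real.sqrt (2 ^ (j + n)) * ‖g‖) := by
    intro n
    obtain ⟨m, hm⟩ := h1 n j k
    rw [hm, av, abs_mul, abs_of_pos (inv_pos.2 (two_zpow_pos _))]
    exact mul_le_mul_of_nonneg_left (abs_A_le g _ _) (inv_nonneg.2 (two_zpow_pos _).le)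
  have h3 : Tendsto (fun n : ℕ => ((2 : ℝ) ^ (j + n))⁻¹ * (Real.sqrt (2 ^ (j + n)) * ‖g‖)) atTop
      (𝓝 0) := by
    have e : (fun n : ℕ => ((2 : ℝ) ^ (j + n))⁻¹ * (Real.sqrt (2 ^ (j + n)) * ‖g‖)) =
        fun n : ℕ => Real.sqrt ((2 : ℝ) ^ (-j - n)) * ‖g‖ := by
      funext n
      have hp := two_zpow_pos (j + n)
      rw [← mul_assoc]
      congr 1
      have : (-j - (n : ℤ)) = -(j + n) := by ring
      rw [this, zpow_neg, Real.sqrt_inv]
      have h4 : Real.sqrt ((2 : ℝ) ^ (j + (n : ℤ))) ≠ 0 := (Real.sqrt_pos.2 hp).ne'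
      have h5 : (2 : ℝ) ^ (j + (n : ℤ)) = Real.sqrt ((2 : ℝ) ^ (j + (n : ℤ))) *
        Real.sqrt ((2 : ℝ) ^ (j + (n : ℤ))) := (Real.mul_self_sqrt hp.le).symm
      nth_rewrite 1 [h5]
      field_simp
    rw [e]
    have h6 := ((Real.continuous_sqrt.tendsto 0).comp (tendsto_zpow_sub (-j))).mul_const ‖g‖
    simpa using h6
  have h4 : |av g j k| ≤ 0 := ge_of_tendsto' h3 h2
  exact abs_nonpos_iff.1 h4

theorem eq_zero_of_dd {g : Lp ℝ 2 (volume : Measure ℝ)} (h : ∀ j k, dd g j k = 0) : g = 0 := by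
  rw [Lp.eq_zero_iff_ae_eq_zero]
  filter_upwards [ae_tendsto_E (locallyIntegrable_Lp g)] with x hx
  have h1 := hx 0
  have h2 : (fun n : ℕ => E g (0 - (n : ℤ)) x) = fun _ => 0 := by
    funext n
    exact av_eq_zero_of_dd h _ _
  rw [h2] at h1
  exact tendsto_nhds_unique h1 tendsto_const_nhds

theorem dd_eq_zero_of_inner {g : Lp ℝ 2 (volume : Measure ℝ)} {j k : ℤ}
    (h : inner ℝ (haarL2 j k) g = 0) : dd g j k = 0 := by
  rw [inner_haarL2] at h
  rcases mul_eq_zero.1 h with h | h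
  · exact absurd h (Real.sqrt_pos.2 (two_zpow_pos j)).ne'
  · exact h

theorem span_orthogonal :
    (Submodule.span ℝ (Set.range (fun p : ℤ × ℤ => haarL2 p.1 p.2)))ᗮ = ⊥ := by
  rw [Submodule.eq_bot_iff]
  intro g hg
  apply eq_zero_of_dd
  intro j k
  apply dd_eq_zero_of_inner
  exact (Submodule.mem_orthogonal _ _).1 hg _ (Submodule.subset_span ⟨(j, k), rfl⟩)

/-- the Haar basis -/
noncomputable def haarBasis : HilbertBasis (ℤ × ℤ) ℝ (Lp ℝ 2 (volume : Measure ℝ)) :=
  HilbertBasis.mkOfOrthogonalEqBot orthonormal_haarL2 span_orthogonal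

theorem haarBasis_apply (p : ℤ × ℤ) : haarBasis p = haarL2 p.1 p.2 := by
  unfold haarBasis
  simp

/-- image family of the Haar shift -/
noncomputable def shifted (p : ℤ × ℤ) : Lp ℝ 2 (volume : Measure ℝ) :=
  if Even p.2 then - haarL2 p.1 (p.2 + 1) else haarL2 p.1 (p.2 - 1)

theorem orthonormal_shifted : Orthonormal ℝ shifted := by
  rw [orthonormal_iff_ite]
  rintro ⟨j, k⟩ ⟨j', k'⟩
  unfold shifted
  by_cases h1 : Even k <;> by_cases h2 : Even k'
  · simp only [h1, h2, if_true, inner_neg_neg, inner_haarL2_haarL2, Prod.mk.injEq]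
    congr 1
    simp
  · simp only [h1, h2, if_true, if_false, inner_neg_left, inner_haarL2_haarL2, Prod.mk.injEq]
    have e1 : ¬ (j = j' ∧ k + 1 = k' - 1) := by
      rintro ⟨-, h⟩
      apply h2
      have : k' = k + 2 := by omega
      rw [this]
      exact h1.add (by decide)
    have e2 : ¬ (j = j' ∧ k = k') := by
      rintro ⟨-, h⟩
      exact h2 (h ▸ h1)
    simp [e1, e2]
  · simp only [h1, h2, if_true, if_false, inner_neg_right, inner_haarL2_haarL2, Prod.mk.injEq]
    have e1 : ¬ (j = j' ∧ k - 1 = k' + 1) := by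
      rintro ⟨-, h⟩
      apply h1
      have : k = k' + 2 := by omega
      rw [this]
      exact h2.add (by decide)
    have e2 : ¬ (j = j' ∧ k = k') := by
      rintro ⟨-, h⟩
      exact h1 (h ▸ h2)
    simp [e1, e2]
  · simp only [h1, h2, if_false, inner_haarL2_haarL2, Prod.mk.injEq]
    congr 1
    simp

theorem span_shifted : (Submodule.span ℝ (Set.range shifted))ᗮ = ⊥ := by
  rw [Submodule.eq_bot_iff]
  intro g hg
  apply eq_zero_of_dd
  intro j k
  apply dd_eq_zero_of_inner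
  by_cases h : Even k
  · have h1 : ¬ Even (k + 1) := by
      rw [Int.even_add_one]; simpa using h
    have h2 := (Submodule.mem_orthogonal _ _).1 hg _
      (Submodule.subset_span ⟨(j, k + 1), rfl⟩)
    unfold shifted at h2
    simpa [h1] using h2
  · have h1 : Even (k - 1) := by
      rw [Int.even_sub_one]; exact h
    have h2 := (Submodule.mem_orthogonal _ _).1 hg _
      (Submodule.subset_span ⟨(j, k - 1), rfl⟩)
    unfold shifted at h2
    simpa [h1] using h2

/-- the shifted Haar basis -/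
noncomputable def shiftedBasis : HilbertBasis (ℤ × ℤ) ℝ (Lp ℝ 2 (volume : Measure ℝ)) :=
  HilbertBasis.mkOfOrthogonalEqBot orthonormal_shifted span_shifted

theorem shiftedBasis_apply (p : ℤ × ℤ) : shiftedBasis p = shifted p := by
  unfold shiftedBasis
  simp

/-- the Haar shift as a linear isometry equivalence -/
noncomputable def shiftIso :
    Lp ℝ 2 (volume : Measure ℝ) ≃ₗᵢ[ℝ] Lp ℝ 2 (volume : Measure ℝ) :=
  haarBasis.repr.trans shiftedBasis.repr.symm

theorem shiftIso_apply (p : ℤ × ℤ) : shiftIso (haarL2 p.1 p.2) = shifted p := by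
  unfold shiftIso
  rw [LinearIsometryEquiv.trans_apply, ← haarBasis_apply, HilbertBasis.repr_self,
    HilbertBasis.repr_symm_single, shiftedBasis_apply]

/-- the Haar shift -/
noncomputable def shiftOp : Lp ℝ 2 (volume : Measure ℝ) →L[ℝ] Lp ℝ 2 (volume : Measure ℝ) :=
  shiftIso.toContinuousLinearEquiv.toContinuousLinearMap

theorem shiftOp_apply (g : Lp ℝ 2 (volume : Measure ℝ)) : shiftOp g = shiftIso g := rfl

theorem isHaarShift_shiftOp : IsShiftCLM shiftOp := by
  intro j k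
  constructor
  · rw [shiftOp_apply, shiftIso_apply (j, 2 * k + 1)]
    unfold shifted
    have : ¬ Even (2 * k + 1) := by simp
    simp [this]
  · rw [shiftOp_apply, shiftIso_apply (j, 2 * k)]
    unfold shifted
    have : Even (2 * k) := by simp
    simp [this]

theorem IsShiftCLM.eq {T T' : Lp ℝ 2 (volume : Measure ℝ) →L[ℝ] Lp ℝ 2 (volume : Measure ℝ)}
    (h : IsShiftCLM T) (h' : IsShiftCLM T') : T = T' := by
  have hd := haarBasis.dense_span
  apply ContinuousLinearMap.ext_on (s := Set.range (fun p : ℤ × ℤ => haarL2 p.1 p.2))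
  · rw [← Submodule.dense_iff_topologicalClosure_eq_top] at hd
    have e : (fun p : ℤ × ℤ => haarL2 p.1 p.2) = fun p => haarBasis p := by
      funext p; rw [haarBasis_apply]
    rw [e]
    exact hd
  · rintro _ ⟨⟨j, k⟩, rfl⟩
    rcases Int.even_or_odd' k with ⟨c, hc | hc⟩
    · subst hc
      simp only [(h j c).2, (h' j c).2]
    · subst hc
      simp only [(h j c).1, (h' j c).1]


theorem isHaarShift_coe : IsHaarShift (fun g : L2R => shiftOp g) :=
  ⟨shiftOp.isBoundedLinearMap, isHaarShift_shiftOp⟩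

theorem IsHaarShift.eq_shiftOp {T : L2R → L2R} (h : IsHaarShift T) :
    T = fun g : L2R => shiftOp g := by
  have h1 : IsShiftCLM h.1.toContinuousLinearMap := fun j k => h.2 j k
  have h2 := h1.eq isHaarShift_shiftOp
  funext g
  rw [← h2]
  rfl

end Pool.Agent.H40.Haar
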