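import Mathlib

set_option autoImplicit false

open MeasureTheory

namespace Pool.Agent.H40.Haar

/-- The dyadic interval `[k 2^j, (k+1) 2^j)`, of length `2^j`. -/
def dyadic (j k : ℤ) : Set ℝ := Set.Ico ((k : ℝ) * 2 ^ j) (((k : ℝ) + 1) * 2 ^ j)

/-- The Haar function of the dyadic interval `J = dyadic j k`, whose left half is
`dyadic (j - 1) (2 * k)` and whose right half is `dyadic (j - 1) (2 * k + 1)`:
`|J|^(-1/2)` times (indicator of the right half minus indicator of the left half). -/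
noncomputable def haar (j k : ℤ) (x : ℝ) : ℝ :=
  (Real.sqrt ((2 : ℝ) ^ j))⁻¹ *
    ((dyadic (j - 1) (2 * k + 1)).indicator (fun _ => (1 : ℝ)) x
      - (dyadic (j - 1) (2 * k)).indicator (fun _ => (1 : ℝ)) x)

theorem measurableSet_dyadic (j k : ℤ) : MeasurableSet (dyadic j k) := measurableSet_Ico

theorem two_zpow_pos (j : ℤ) : (0 : ℝ) < 2 ^ j := by positivity

theorem volume_dyadic (j k : ℤ) : volume (dyadic j k) = ENNReal.ofReal (2 ^ j) := by
  unfold dyadic
  rw [Real.volume_Ico]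
  congr 1
  ring

theorem volume_dyadic_ne_top (j k : ℤ) : volume (dyadic j k) ≠ ⊤ := by
  rw [volume_dyadic]; exact ENNReal.ofReal_ne_top

theorem memLp_haar (j k : ℤ) : MemLp (haar j k) 2 (volume : Measure ℝ) := by
  have h1 : MemLp ((dyadic (j - 1) (2 * k + 1)).indicator (fun _ => (1 : ℝ))) 2
      (volume : Measure ℝ) :=
    memLp_indicator_const 2 (measurableSet_dyadic _ _) 1 (Or.inr (volume_dyadic_ne_top _ _))
  have h2 : MemLp ((dyadic (j - 1) (2 * k)).indicator (fun _ => (1 : ℝ))) 2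
      (volume : Measure ℝ) :=
    memLp_indicator_const 2 (measurableSet_dyadic _ _) 1 (Or.inr (volume_dyadic_ne_top _ _))
  exact (h1.sub h2).const_mul _

/-- The Haar function as an element of `L^2(ℝ)`. -/
noncomputable def haarL2 (j k : ℤ) : Lp ℝ 2 (volume : Measure ℝ) :=
  (memLp_haar j k).toLp (haar j k)

/-- The real Hilbert space `L^2(ℝ)` (Lebesgue measure). -/
abbrev L2R : Type := Lp ℝ 2 (volume : Measure ℝ)

/-- `T` is the Haar shift: a bounded linear operator on `L^2(ℝ)` such that for every dyadic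
interval `I = dyadic (j + 1) k`, with left half `I₋ = dyadic j (2 * k)` and right half
`I₊ = dyadic j (2 * k + 1)`, one has `T h_{I₊} = h_{I₋}` and `T h_{I₋} = - h_{I₊}`. -/
def IsHaarShift (T : L2R → L2R) : Prop :=
  IsBoundedLinearMap ℝ T ∧
    ∀ j k : ℤ, T (haarL2 j (2 * k + 1)) = haarL2 j (2 * k) ∧
      T (haarL2 j (2 * k)) = - haarL2 j (2 * k + 1)

/-- continuous linear version, used in the proofs -/
def IsShiftCLM (T : Lp ℝ 2 (volume : Measure ℝ) →L[ℝ] Lp ℝ 2 (volume : Measure ℝ)) : Prop :=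
  ∀ j k : ℤ, T (haarL2 j (2 * k + 1)) = haarL2 j (2 * k) ∧
    T (haarL2 j (2 * k)) = - haarL2 j (2 * k + 1)

end Pool.Agent.H40.Haar
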