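import Pool.Agent.H40.HaarRec

set_option autoImplicit false

open MeasureTheory Filter Topology

namespace Pool.Agent.H40.Haar

/-- cost on a dyadic interval -/
noncomputable def q (f g : ℝ → ℝ) (j k : ℤ) : ℝ := A (fun x => (1 - f x) * g x ^ 2) j k

open Classical in
/-- energy of the active steps -/
noncomputable def Af (f : ℝ → ℝ) (l : ℝ) : ℕ → ℤ → ℤ → ℝ
  | 0, _, _ => 0
  | n + 1, j, k => if l ≤ av f j k then 0 else
      2 ^ (j - 1) * (dd f (j - 1) (2 * k) ^ 2 + dd f (j - 1) (2 * k + 1) ^ 2) +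
        (Af f l n (j - 1) (2 * k) + Af f l n (j - 1) (2 * k + 1))

/-- pair energy -/
noncomputable def G (g : ℝ → ℝ) (j k : ℤ) : ℝ :=
  2 ^ (j - 1) * (av g (j - 1) (2 * k) ^ 2 + av g (j - 1) (2 * k + 1) ^ 2)

theorem two_zpow_pred (j : ℤ) : (2 : ℝ) ^ j = 2 * 2 ^ (j - 1) := by
  rw [← two_zpow_succ, sub_add_cancel]

theorem G_add {g : ℝ → ℝ} (hg : LocallyIntegrable g) (j k : ℤ) :
    G g j k + 2 ^ (j - 1) * (dd g (j - 1) (2 * k) ^ 2 + dd g (j - 1) (2 * k + 1) ^ 2) =
      G g (j - 1) (2 * k) + G g (j - 1) (2 * k + 1) := by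
  unfold G
  rw [av_left hg (j - 1) (2 * k), av_right hg (j - 1) (2 * k), av_left hg (j - 1) (2 * k + 1),
    av_right hg (j - 1) (2 * k + 1), two_zpow_pred (j - 1)]
  ring

namespace Sit

variable {V : Set ℝ} {f g : ℝ → ℝ}

theorem int_g_sq (S : Sit V f g) : Integrable (fun x => g x ^ 2) := S.hg.integrable_sq

theorem int_cost (S : Sit V f g) : Integrable (fun x => (1 - f x) * g x ^ 2) := by
  refine S.int_g_sq.bdd_mul (c := 1)
    ((measurable_const.sub S.meas_f).aestronglyMeasurable) ?_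
  refine Eventually.of_forall fun x => ?_
  have h1 := S.f_nonneg x
  have h2 := S.f_le_one x
  rw [Real.norm_eq_abs, abs_le]
  constructor <;> linarith

theorem li_cost (S : Sit V f g) : LocallyIntegrable (fun x => (1 - f x) * g x ^ 2) :=
  S.int_cost.locallyIntegrable

theorem q_nonneg (S : Sit V f g) (j k : ℤ) : 0 ≤ q f g j k := by
  apply setIntegral_nonneg (measurableSet_dyadic _ _)
  intro x _
  have h2 := S.f_le_one x
  exact mul_nonneg (by linarith) (sq_nonneg _)

theorem q_pred (S : Sit V f g) (j k : ℤ) :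
    q f g j k = q f g (j - 1) (2 * k) + q f g (j - 1) (2 * k + 1) := A_pred S.li_cost j k

theorem li_fg (S : Sit V f g) : LocallyIntegrable (fun x => f x * g x) := by
  have h1 : MemLp f ⊤ (volume : Measure ℝ) := by
    apply memLp_top_of_bound S.meas_f.aestronglyMeasurable 1
    refine Eventually.of_forall fun x => ?_
    rw [Real.norm_eq_abs, abs_of_nonneg (S.f_nonneg x)]; exact S.f_le_one x
  exact (S.hg.mul (p := ⊤) (r := 2) h1).locallyIntegrable (by norm_num)

theorem cost_CS (S : Sit V f g) (j k : ℤ) :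
    (A (fun x => (1 - f x) * g x) j k) ^ 2 ≤ 2 ^ j * q f g j k := by
  set a := A (fun x => (1 - f x) * g x) j k with ha
  have hp := two_zpow_pos j
  set t := a / 2 ^ j with ht
  have hi1 : IntegrableOn (fun x => (1 - f x) * g x ^ 2) (dyadic j k) :=
    integrableOn_dyadic S.li_cost j k
  have hi2 : IntegrableOn (fun x => (1 - f x) * g x) (dyadic j k) := by
    have : (fun x => (1 - f x) * g x) = fun x => g x - f x * g x := by funext x; ring
    rw [this]
    exact (integrableOn_dyadic S.li_g j k).sub (integrableOn_dyadic S.li_fg j k)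
  have hi3 : IntegrableOn (fun x => (1 - f x)) (dyadic j k) :=
    (integrableOn_const (volume_dyadic_ne_top _ _)).sub (integrableOn_dyadic S.li_f j k)
  have h1 : 0 ≤ ∫ x in dyadic j k, (1 - f x) * (g x - t) ^ 2 := by
    apply setIntegral_nonneg (measurableSet_dyadic _ _)
    intro x _
    have h2 := S.f_le_one x
    exact mul_nonneg (by linarith) (sq_nonneg _)
  have h2 : ∫ x in dyadic j k, (1 - f x) * (g x - t) ^ 2 =
      q f g j k - 2 * t * a + t ^ 2 * A (fun x => 1 - f x) j k := by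
    have e : (fun x => (1 - f x) * (g x - t) ^ 2) = fun x =>
        ((1 - f x) * g x ^ 2 - (2 * t) * ((1 - f x) * g x)) + t ^ 2 * (1 - f x) := by
      funext x; ring
    have i2 : IntegrableOn (fun x => (2 * t) * ((1 - f x) * g x)) (dyadic j k) :=
      hi2.const_mul _
    have i3 : IntegrableOn (fun x => t ^ 2 * (1 - f x)) (dyadic j k) := hi3.const_mul _
    have i4 : IntegrableOn (fun x => (1 - f x) * g x ^ 2 - (2 * t) * ((1 - f x) * g x))
      (dyadic j k) := hi1.sub i2
    rw [e, integral_add i4 i3, integral_sub hi1 i2, integral_const_mul, integral_const_mul]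
    rfl
  have h3 : A (fun x => 1 - f x) j k ≤ 2 ^ j := by
    have h4 : A (fun x => 1 - f x) j k ≤ ∫ _ in dyadic j k, (1 : ℝ) := by
      apply setIntegral_mono hi3 (integrableOn_const (volume_dyadic_ne_top _ _))
      intro x
      have := S.f_nonneg x
      simp only
      linarith
    rw [setIntegral_const, measureReal_def, volume_dyadic,
      ENNReal.toReal_ofReal (two_zpow_pos j).le, smul_eq_mul, mul_one] at h4
    exact h4
  rw [h2] at h1
  have h5 : t ^ 2 * A (fun x => 1 - f x) j k ≤ t ^ 2 * 2 ^ j :=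
    mul_le_mul_of_nonneg_left h3 (sq_nonneg _)
  have h6 : 0 ≤ q f g j k - 2 * t * a + t ^ 2 * 2 ^ j := by linarith
  have h7 : a = t * 2 ^ j := by rw [ht]; field_simp
  rw [h7] at h6 ⊢
  have h8 : 0 ≤ 2 ^ j * (q f g j k - 2 * t * (t * 2 ^ j) + t ^ 2 * 2 ^ j) :=
    mul_nonneg hp.le h6
  nlinarith

theorem key_identity (S : Sit V f g) (j k : ℤ) :
    (1 - av f j k) * av g j k =
      (2 ^ j)⁻¹ * A (fun x => (1 - f x) * g x) j k + dd f j k * dd g j k := by
  have h1 : A (fun x => (1 - f x) * g x) j k = A g j k - ∫ x in dyadic j k, f x * g x := by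
    have e : (fun x => (1 - f x) * g x) = fun x => g x - f x * g x := by funext x; ring
    rw [e]
    unfold A
    rw [integral_sub (integrableOn_dyadic S.li_g j k) (integrableOn_dyadic S.li_fg j k)]
  rw [h1, S.integral_mul, A_eq]
  have := (two_zpow_pos j).ne'
  field_simp
  ring

/-- bound for the value of `g` on a child -/
theorem child_bound (S : Sit V f g) {l : ℝ} (hl8 : l ≤ 1 / 8) {i m : ℤ} {b : ℝ}
    (hb : |dd f i m * dd g i m| ≤ b) (hbl : b ≤ 4 * l ^ 2)
    (hf : av f i m ≤ 4 * l) :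
    2 ^ i * av g i m ^ 2 ≤ 8 * q f g i m + 128 * l ^ 4 * 2 ^ i := by
  have hp := two_zpow_pos i
  have h1 := S.key_identity i m
  have h2 := S.cost_CS i m
  set a := A (fun x => (1 - f x) * g x) i m
  set e := dd f i m * dd g i m
  have h3 : (1 / 2 : ℝ) ≤ 1 - av f i m := by linarith
  have h4 : (1 / 4 : ℝ) * av g i m ^ 2 ≤ ((1 - av f i m) * av g i m) ^ 2 := by
    rw [mul_pow]
    apply mul_le_mul_of_nonneg_right _ (sq_nonneg _)
    nlinarith
  have h5 : ((1 - av f i m) * av g i m) ^ 2 ≤ 2 * (((2 ^ i)⁻¹ * a) ^ 2) + 2 * e ^ 2 := by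
    rw [h1]
    nlinarith [sq_nonneg ((2 ^ i)⁻¹ * a - e)]
  have h6 : e ^ 2 ≤ 16 * l ^ 4 := by
    have h7 : |e| ≤ 4 * l ^ 2 := hb.trans hbl
    have h8 : |e| ^ 2 ≤ (4 * l ^ 2) ^ 2 := pow_le_pow_left₀ (abs_nonneg _) h7 2
    rw [sq_abs] at h8
    nlinarith
  have h7 : 2 ^ i * ((2 ^ i)⁻¹ * a) ^ 2 ≤ q f g i m := by
    have e1 : 2 ^ i * (((2 : ℝ) ^ i)⁻¹ * a) ^ 2 = ((2 : ℝ) ^ i)⁻¹ * a ^ 2 := by
      field_simp
    rw [e1, inv_mul_le_iff₀ hp]
    exact h2
  have h8 : av g i m ^ 2 ≤ 4 * (2 * (((2 ^ i)⁻¹ * a) ^ 2) + 2 * e ^ 2) := by linarith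
  have h9 := mul_le_mul_of_nonneg_left h8 hp.le
  nlinarith

theorem G_bound (S : Sit V f g) {l : ℝ} (hl8 : l ≤ 1 / 8) {j k : ℤ}
    (hf : av f j k ≤ 2 * l) : G g j k ≤ 8 * q f g j k + 128 * l ^ 4 * 2 ^ j := by
  have h1 := S.av_left_le j k
  have h2 := S.av_right_le j k
  have h3 := S.av_half j k
  have h4 := S.av_nonneg (j - 1) (2 * k)
  have h5 := S.av_nonneg (j - 1) (2 * k + 1)
  have h6 := S.abs_dd_le (j - 1) (2 * k)
  have h7 := S.abs_dd_le (j - 1) (2 * k + 1)
  have h8 : |dd f (j - 1) (2 * k)| * |dd f (j - 1) (2 * k + 1)| ≤ 4 * l ^ 2 := by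
    have h9 := mul_le_mul h6 h7 (abs_nonneg _) h4
    have h10 : av f (j - 1) (2 * k) * av f (j - 1) (2 * k + 1) ≤ av f j k ^ 2 := by
      rw [h3]
      nlinarith [sq_nonneg (av f (j - 1) (2 * k) - av f (j - 1) (2 * k + 1))]
    have h11 : av f j k ^ 2 ≤ (2 * l) ^ 2 := pow_le_pow_left₀ (S.av_nonneg _ _) hf 2
    nlinarith
  have hA := S.child_bound hl8 (i := j - 1) (m := 2 * k) (b := 4 * l ^ 2)
    (by rw [S.left, abs_mul]; exact h8) le_rfl (by linarith)
  have hB := S.child_bound hl8 (i := j - 1) (m := 2 * k + 1) (b := 4 * l ^ 2)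
    (by rw [S.right, abs_mul, abs_neg, mul_comm]; exact h8) le_rfl (by linarith)
  rw [S.q_pred, two_zpow_pred j, G]
  nlinarith

theorem claimB (S : Sit V f g) {l : ℝ} (hl8 : l ≤ 1 / 8) (n : ℕ) :
    ∀ j k : ℤ, av f j k ≤ 2 * l → G g j k + Af f l n j k ≤ 8 * q f g j k + 128 * l ^ 4 * 2 ^ j := by
  induction n with
  | zero =>
    intro j k h
    simpa [Af] using S.G_bound hl8 h
  | succ n ih =>
    intro j k h
    rw [Af]
    split_ifs with hs
    · simpa using S.G_bound hl8 h
    · push Not at hs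
      have h1 := ih (j - 1) (2 * k) (by have := S.av_left_le j k; linarith)
      have h2 := ih (j - 1) (2 * k + 1) (by have := S.av_right_le j k; linarith)
      have h3 := G_add S.li_g j k
      rw [S.left, S.right] at h3
      rw [S.q_pred, two_zpow_pred j]
      nlinarith

theorem R_nonneg (S : Sit V f g) (n : ℕ) : ∀ j k : ℤ, 0 ≤ R f n j k := by
  induction n with
  | zero =>
    intro j k
    rw [R]
    have h1 := S.av_nonneg j k
    have h2 := S.av_le_one j k
    exact mul_nonneg (two_zpow_pos j).le (by nlinarith)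
  | succ n ih =>
    intro j k
    rw [R]
    exact add_nonneg (ih _ _) (ih _ _)

theorem G_f_ge (S : Sit V f g) (j k : ℤ) : 2 ^ j * av f j k ^ 2 ≤ G f j k := by
  rw [G, two_zpow_pred j, S.av_half j k]
  have hp := two_zpow_pos (j - 1)
  nlinarith [mul_nonneg hp.le (sq_nonneg (av f (j - 1) (2 * k) - av f (j - 1) (2 * k + 1)))]

theorem claimA (S : Sit V f g) {l : ℝ} (hl0 : 0 ≤ l) (hl1 : l < 1) (n : ℕ) :
    ∀ j k : ℤ, l * (2 ^ j * av f j k) - l / (1 - l) * R f n j k ≤ G f j k + Af f l n j k := by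
  have hc : 0 ≤ l / (1 - l) := div_nonneg hl0 (by linarith)
  have key : ∀ j k : ℤ, ∀ n, l ≤ av f j k →
      l * (2 ^ j * av f j k) - l / (1 - l) * R f n j k ≤ G f j k := by
    intro j k n h
    have h1 := S.G_f_ge j k
    have h2 := mul_nonneg hc (S.R_nonneg n j k)
    have hp := two_zpow_pos j
    have h3 : l * (2 ^ j * av f j k) ≤ 2 ^ j * av f j k ^ 2 := by
      have h4 := S.av_nonneg j k
      have h5 : 0 ≤ 2 ^ j * av f j k := mul_nonneg hp.le h4
      nlinarith
    linarith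
  induction n with
  | zero =>
    intro j k
    rw [Af, add_zero]
    by_cases h : l ≤ av f j k
    · exact key j k 0 h
    · push Not at h
      have h1 := S.G_f_ge j k
      have hp := two_zpow_pos j
      have h0 := S.av_nonneg j k
      have h2 : l * (2 ^ j * av f j k) ≤ l / (1 - l) * R f 0 j k := by
        rw [R, div_mul_eq_mul_div, le_div_iff₀ (by linarith)]
        have h5 : 0 ≤ 2 ^ j * av f j k := mul_nonneg hp.le h0
        have h6 : 2 ^ j * av f j k * (1 - l) ≤ 2 ^ j * (av f j k - av f j k ^ 2) := by nlinarith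
        nlinarith
      have h3 : 0 ≤ 2 ^ j * av f j k ^ 2 := mul_nonneg hp.le (sq_nonneg _)
      linarith
  | succ n ih =>
    intro j k
    rw [Af]
    split_ifs with hs
    · rw [add_zero]; exact key j k _ hs
    · have h1 := ih (j - 1) (2 * k)
      have h2 := ih (j - 1) (2 * k + 1)
      have h3 := G_add S.li_f j k
      have h4 := S.av_half j k
      rw [R, h4, two_zpow_pred j]
      nlinarith

/-- local claim -/
theorem local_claim (S : Sit V f g) {j k : ℤ} (h1 : 1 / 1024 ≤ av f j k)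
    (h2 : av f j k < 2 / 1024) : (1 / 2 ^ 22 : ℝ) * 2 ^ j ≤ q f g j k := by
  have hp := two_zpow_pos j
  have h3 : ∀ n : ℕ, (1 / 128 : ℝ) * (2 ^ j * av f j k) - 2 * (2 ^ j * av f j k ^ 2)
      - (1 / 127 : ℝ) * R f n j k ≤ 8 * q f g j k + 128 * (1 / 128) ^ 4 * 2 ^ j := by
    intro n
    have hA := S.claimA (l := 1 / 128) (by norm_num) (by norm_num) n j k
    have hB := S.claimB (l := 1 / 128) (by norm_num) n j k (by linarith)
    have hG : 0 ≤ G g j k := by
      rw [G]; have := two_zpow_pos (j - 1); positivity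
    have hF : G f j k ≤ 2 * (2 ^ j * av f j k ^ 2) := by
      rw [G, two_zpow_pred j, S.av_half j k]
      have hp' := two_zpow_pos (j - 1)
      have h4 := S.av_nonneg (j - 1) (2 * k)
      have h5 := S.av_nonneg (j - 1) (2 * k + 1)
      nlinarith [mul_nonneg hp'.le (mul_nonneg h4 h5)]
    norm_num at hA hB ⊢
    linarith
  have h4 : (1 / 128 : ℝ) * (2 ^ j * av f j k) - 2 * (2 ^ j * av f j k ^ 2) ≤
      8 * q f g j k + 128 * (1 / 128) ^ 4 * 2 ^ j := by
    have h5 : Tendsto (fun n => (1 / 128 : ℝ) * (2 ^ j * av f j k) - 2 * (2 ^ j * av f j k ^ 2)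
      - (1 / 127 : ℝ) * R f n j k) atTop (𝓝 ((1 / 128 : ℝ) * (2 ^ j * av f j k) -
        2 * (2 ^ j * av f j k ^ 2) - (1 / 127 : ℝ) * 0)) :=
      tendsto_const_nhds.sub ((S.tendsto_R j k).const_mul _)
    rw [mul_zero, sub_zero] at h5
    exact le_of_tendsto' h5 h3
  have h6 : (4 / 1024 ^ 2 : ℝ) ≤ (1 / 128) * av f j k - 2 * av f j k ^ 2 := by
    nlinarith [mul_nonneg (sub_nonneg.2 h1) (sub_nonneg.2 h2.le)]
  have h7 := mul_le_mul_of_nonneg_left h6 hp.le
  norm_num at h4 h7 ⊢
  nlinarith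

theorem global_rec (S : Sit V f g) (n : ℕ) : ∀ j k : ℤ, av f j k < 2 / 1024 →
    (1 / 2 ^ 22 : ℝ) * (2 ^ j * av f j k - (1024 / 1023 : ℝ) * R f n j k) ≤ q f g j k := by
  have key : ∀ j k : ℤ, ∀ n, 1 / 1024 ≤ av f j k → av f j k < 2 / 1024 →
      (1 / 2 ^ 22 : ℝ) * (2 ^ j * av f j k - (1024 / 1023 : ℝ) * R f n j k) ≤ q f g j k := by
    intro j k n h1 h2
    have h3 := S.local_claim h1 h2
    have h4 := S.R_nonneg n j k
    have hp := two_zpow_pos j
    have h5 : 2 ^ j * av f j k ≤ 2 ^ j * 1 := mul_le_mul_of_nonneg_left (S.av_le_one _ _) hp.le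
    nlinarith
  induction n with
  | zero =>
    intro j k h2
    by_cases h1 : 1 / 1024 ≤ av f j k
    · exact key j k 0 h1 h2
    · push Not at h1
      have hq := S.q_nonneg j k
      have h0 := S.av_nonneg j k
      have hp := two_zpow_pos j
      have h3 : 2 ^ j * av f j k ≤ (1024 / 1023 : ℝ) * R f 0 j k := by
        rw [R]
        have h5 : av f j k ≤ (1024 / 1023 : ℝ) * (av f j k - av f j k ^ 2) := by nlinarith
        have := mul_le_mul_of_nonneg_left h5 hp.le
        linarith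
      have h4 : (1 / 2 ^ 22 : ℝ) * (2 ^ j * av f j k - (1024 / 1023 : ℝ) * R f 0 j k) ≤ 0 := by
        apply mul_nonpos_of_nonneg_of_nonpos (by norm_num)
        linarith
      linarith
  | succ n ih =>
    intro j k h2
    by_cases h1 : 1 / 1024 ≤ av f j k
    · exact key j k _ h1 h2
    · push Not at h1
      have h3 := ih (j - 1) (2 * k) (by have := S.av_left_le j k; linarith)
      have h4 := ih (j - 1) (2 * k + 1) (by have := S.av_right_le j k; linarith)
      have h5 := S.av_half j k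
      rw [R, S.q_pred, h5, two_zpow_pred j]
      nlinarith

theorem global_bound (S : Sit V f g) {j k : ℤ} (h : av f j k < 2 / 1024) :
    (1 / 2 ^ 22 : ℝ) * A f j k ≤ q f g j k := by
  have h5 : Tendsto (fun n => (1 / 2 ^ 22 : ℝ) * (2 ^ j * av f j k -
      (1024 / 1023 : ℝ) * R f n j k)) atTop
      (𝓝 ((1 / 2 ^ 22 : ℝ) * (2 ^ j * av f j k - (1024 / 1023 : ℝ) * 0))) :=
    (tendsto_const_nhds.sub ((S.tendsto_R j k).const_mul _)).const_mul _
  rw [mul_zero, sub_zero] at h5
  rw [A_eq]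
  exact le_of_tendsto' h5 fun n => S.global_rec n j k h

theorem hasSum_A {h : ℝ → ℝ} (hh : Integrable h) (j : ℤ) :
    HasSum (fun k : ℤ => A h j k) (∫ x, h x) := by
  have h1 := hasSum_integral_iUnion (μ := (volume : Measure ℝ)) (f := h)
    (s := fun k : ℤ => dyadic j k)
    (fun k => measurableSet_dyadic j k) (fun k k' hk => dyadic_disjoint hk)
    hh.integrableOn
  have h2 : (⋃ k : ℤ, dyadic j k) = Set.univ := by
    apply Set.eq_univ_of_forall
    intro x
    exact Set.mem_iUnion.2 ⟨_, mem_dyadic_floor j x⟩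
  rw [h2, setIntegral_univ] at h1
  exact h1

theorem integral_f (S : Sit V f g) : ∫ x, f x = volume.real V := by
  rw [S.hf, integral_indicator S.mV, setIntegral_const, smul_eq_mul, mul_one]

theorem main (S : Sit V f g) :
    (1 / 2 ^ 22 : ℝ) * volume.real V ≤ ∫ x, (1 - f x) * g x ^ 2 := by
  obtain ⟨n, hn⟩ : ∃ n : ℕ, volume.real V < (1 / 1024 : ℝ) * 2 ^ n := by
    have := (tendsto_pow_atTop_atTop_of_one_lt (by norm_num : (1 : ℝ) < 2)).eventually_gt_atTop
      (1024 * volume.real V)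
    obtain ⟨n, hn⟩ := this.exists
    exact ⟨n, by linarith⟩
  have h1 : ∀ k : ℤ, av f (n : ℤ) k < 2 / 1024 := by
    intro k
    have h2 : A f (n : ℤ) k ≤ volume.real V := by
      rw [← S.integral_f]
      exact setIntegral_le_integral S.int_f (Eventually.of_forall S.f_nonneg)
    have hp := two_zpow_pos (n : ℤ)
    have h3 : (2 : ℝ) ^ (n : ℤ) = 2 ^ n := zpow_natCast _ _
    rw [av, inv_mul_lt_iff₀ hp, h3]
    have : (0 : ℝ) < 2 ^ n := by positivity
    linarith
  have h2 := (hasSum_A S.int_f (n : ℤ)).mul_left (1 / 2 ^ 22 : ℝ)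
  have h3 := hasSum_A S.int_cost (n : ℤ)
  rw [S.integral_f] at h2
  exact hasSum_le (fun k => S.global_bound (h1 k)) h2 h3

end Sit

/-- the main bound for the Haar shift -/
theorem shift_bound {V : Set ℝ} (hV : MeasurableSet V) (hfin : volume V ≠ ⊤)
    (F : Lp ℝ 2 (volume : Measure ℝ))
    (hF : (F : ℝ → ℝ) =ᵐ[volume] V.indicator (fun _ => (1 : ℝ))) :
    ∫ x in V, (shiftOp F x) ^ 2 ≤ (1 - 1 / 2 ^ 22 : ℝ) * volume.real V := by
  set f := V.indicator (fun _ => (1 : ℝ)) with hf
  set g : ℝ → ℝ := (shiftOp F : ℝ → ℝ) with hg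
  have hA : ∀ j k, A f j k = A F j k := by
    intro j k
    unfold A
    apply setIntegral_congr_ae (measurableSet_dyadic _ _)
    filter_upwards [hF] with x hx _
    exact hx.symm
  have hdd : ∀ j k, dd f j k = dd F j k := by
    intro j k
    unfold dd av
    rw [hA, hA]
  have S : Sit V f g := {
    mV := hV
    fV := hfin
    hf := hf
    hg := Lp.memLp _
    left := fun j k => by rw [hdd]; exact dd_shift_left F j k
    right := fun j k => by rw [hdd]; exact dd_shift_right F j k }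
  have h1 := S.main
  have h2 : ∫ x, g x ^ 2 = volume.real V := by
    have h3 : ‖shiftOp F‖ ^ 2 = ‖F‖ ^ 2 := by
      rw [shiftOp_apply, LinearIsometryEquiv.norm_map]
    rw [← real_inner_self_eq_norm_sq, ← real_inner_self_eq_norm_sq, L2.inner_def, L2.inner_def]
      at h3
    have h4 : ∫ x, inner ℝ (shiftOp F x) (shiftOp F x) = ∫ x, g x ^ 2 := by
      congr 1; funext x; simp [hg, sq]
    have h5 : ∫ x, inner ℝ (F x) (F x) = ∫ x, f x := by
      apply integral_congr_ae
      filter_upwards [hF] with x hx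
      rw [hx]
      simp only [real_inner_self_eq_norm_sq, Real.norm_eq_abs, sq_abs]
      rw [sq]
      exact S.f_sq x
    rw [h4, h5, S.integral_f] at h3
    exact h3
  have h3 : ∫ x in V, g x ^ 2 = (∫ x, g x ^ 2) - ∫ x, (1 - f x) * g x ^ 2 := by
    rw [← integral_sub S.int_g_sq S.int_cost, ← integral_indicator hV]
    congr 1
    funext x
    by_cases h : x ∈ V <;> simp [hf, h]
  rw [h3, h2]
  linarith

end Pool.Agent.H40.Haar
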