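import Pool.Agent.H40.HaarComplete

set_option autoImplicit false

open MeasureTheory Filter Topology

namespace Pool.Agent.H40.Haar

theorem dd_shift_left (f : Lp ℝ 2 (volume : Measure ℝ)) (j k : ℤ) :
    dd (shiftOp f) j (2 * k) = dd f j (2 * k + 1) := by
  have h1 : inner ℝ (haarL2 j (2 * k)) (shiftOp f) = inner ℝ (haarL2 j (2 * k + 1)) f := by
    have e : haarL2 j (2 * k) = shiftIso (haarL2 j (2 * k + 1)) :=
      ((isHaarShift_shiftOp j k).1).symm
    rw [e, shiftOp_apply, LinearIsometryEquiv.inner_map_map]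
  rw [inner_haarL2, inner_haarL2] at h1
  exact mul_left_cancel₀ (Real.sqrt_pos.2 (two_zpow_pos j)).ne' h1

theorem dd_shift_right (f : Lp ℝ 2 (volume : Measure ℝ)) (j k : ℤ) :
    dd (shiftOp f) j (2 * k + 1) = - dd f j (2 * k) := by
  have h1 : inner ℝ (haarL2 j (2 * k + 1)) (shiftOp f) = - inner ℝ (haarL2 j (2 * k)) f := by
    have e : haarL2 j (2 * k + 1) = - shiftIso (haarL2 j (2 * k)) := by
      have := (isHaarShift_shiftOp j k).2
      rw [← shiftOp_apply, this, neg_neg]
    rw [e, shiftOp_apply, inner_neg_left, LinearIsometryEquiv.inner_map_map]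
  rw [inner_haarL2, inner_haarL2, ← mul_neg] at h1
  exact mul_left_cancel₀ (Real.sqrt_pos.2 (two_zpow_pos j)).ne' h1

/-- The abstract situation: `f` is the indicator of a measurable set `V` of finite measure and `g`
is a square integrable function whose half differences are swapped. -/
structure Sit (V : Set ℝ) (f g : ℝ → ℝ) : Prop where
  mV : MeasurableSet V
  fV : volume V ≠ ⊤
  hf : f = V.indicator (fun _ => (1 : ℝ))
  hg : MemLp g 2 (volume : Measure ℝ)
  left : ∀ j k : ℤ, dd g j (2 * k) = dd f j (2 * k + 1)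
  right : ∀ j k : ℤ, dd g j (2 * k + 1) = - dd f j (2 * k)

namespace Sit

variable {V : Set ℝ} {f g : ℝ → ℝ}

theorem f_nonneg (S : Sit V f g) (x : ℝ) : 0 ≤ f x := by
  rw [S.hf]; exact Set.indicator_nonneg (fun _ _ => zero_le_one) x

theorem f_le_one (S : Sit V f g) (x : ℝ) : f x ≤ 1 := by
  rw [S.hf]; by_cases h : x ∈ V <;> simp [h]

theorem f_sq (S : Sit V f g) (x : ℝ) : f x * f x = f x := by
  rw [S.hf]; by_cases h : x ∈ V <;> simp [h]

theorem int_f (S : Sit V f g) : Integrable f := by
  rw [S.hf]; exact (integrable_indicator_iff S.mV).2 (integrableOn_const S.fV)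

theorem meas_f (S : Sit V f g) : Measurable f := by
  rw [S.hf]; exact measurable_const.indicator S.mV

theorem li_f (S : Sit V f g) : LocallyIntegrable f := S.int_f.locallyIntegrable

theorem li_g (S : Sit V f g) : LocallyIntegrable g := locallyIntegrable_of_memLp S.hg

theorem av_nonneg (S : Sit V f g) (j k : ℤ) : 0 ≤ av f j k :=
  mul_nonneg (inv_nonneg.2 (two_zpow_pos j).le)
    (setIntegral_nonneg (measurableSet_dyadic _ _) fun x _ => S.f_nonneg x)

theorem av_le_one (S : Sit V f g) (j k : ℤ) : av f j k ≤ 1 := by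
  have h : A f j k ≤ 2 ^ j := by
    have h1 : A f j k ≤ ∫ _ in dyadic j k, (1 : ℝ) := by
      apply setIntegral_mono
      · exact S.int_f.integrableOn
      · exact integrableOn_const (volume_dyadic_ne_top _ _)
      · intro x; exact S.f_le_one x
    rw [setIntegral_const, measureReal_def, volume_dyadic,
      ENNReal.toReal_ofReal (two_zpow_pos j).le, smul_eq_mul, mul_one] at h1
    exact h1
  rw [av, inv_mul_le_iff₀ (two_zpow_pos j), mul_one]
  exact h

theorem av_half (S : Sit V f g) (j k : ℤ) :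
    av f j k = (av f (j - 1) (2 * k) + av f (j - 1) (2 * k + 1)) / 2 := av_pred S.li_f j k

theorem av_left_le (S : Sit V f g) (j k : ℤ) : av f (j - 1) (2 * k) ≤ 2 * av f j k := by
  have := S.av_half j k
  have := S.av_nonneg (j - 1) (2 * k + 1)
  linarith

theorem av_right_le (S : Sit V f g) (j k : ℤ) : av f (j - 1) (2 * k + 1) ≤ 2 * av f j k := by
  have := S.av_half j k
  have := S.av_nonneg (j - 1) (2 * k)
  linarith

theorem abs_dd_le (S : Sit V f g) (j k : ℤ) : |dd f j k| ≤ av f j k := by
  have h1 := S.av_half j k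
  have h2 := S.av_nonneg (j - 1) (2 * k)
  have h3 := S.av_nonneg (j - 1) (2 * k + 1)
  rw [abs_le, dd]
  constructor <;> linarith

theorem abs_E_le_one (S : Sit V f g) (i : ℤ) (x : ℝ) : |E f i x| ≤ 1 := by
  rw [E, abs_of_nonneg (S.av_nonneg _ _)]
  exact S.av_le_one _ _

theorem measurable_E (i : ℤ) (f : ℝ → ℝ) : Measurable (E f i) := by
  have h1 : Measurable (fun x : ℝ => ⌊x / 2 ^ i⌋) :=
    Int.measurable_floor.comp (measurable_id.div_const _)
  exact (measurable_from_top (f := fun m : ℤ => av f i m)).comp h1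

end Sit

/-- the variance sum -/
noncomputable def R (f : ℝ → ℝ) : ℕ → ℤ → ℤ → ℝ
  | 0, j, k => 2 ^ j * (av f j k - av f j k ^ 2)
  | n + 1, j, k => R f n (j - 1) (2 * k) + R f n (j - 1) (2 * k + 1)

/-- the product sum -/
noncomputable def P (f g : ℝ → ℝ) : ℕ → ℤ → ℤ → ℝ
  | 0, j, k => 2 ^ j * (av f j k * av g j k)
  | n + 1, j, k => P f g n (j - 1) (2 * k) + P f g n (j - 1) (2 * k + 1)

namespace Sit

variable {V : Set ℝ} {f g : ℝ → ℝ}

theorem li_const_E (S : Sit V f g) (i : ℤ) : LocallyIntegrable (E f i) := by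
  have h1 : MemLp (E f i) ⊤ (volume : Measure ℝ) := by
    apply memLp_top_of_bound (Sit.measurable_E i f).aestronglyMeasurable 1
    refine Eventually.of_forall fun x => ?_
    rw [Real.norm_eq_abs]; exact S.abs_E_le_one i x
  exact h1.locallyIntegrable le_top

theorem li_phi_E (S : Sit V f g) (i : ℤ) :
    LocallyIntegrable (fun x => E f i x - E f i x ^ 2) := by
  have h1 : MemLp (fun x => E f i x - E f i x ^ 2) ⊤ (volume : Measure ℝ) := by
    apply memLp_top_of_bound
      ((Sit.measurable_E i f).sub ((Sit.measurable_E i f).pow_const 2)).aestronglyMeasurable 1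
    refine Eventually.of_forall fun x => ?_
    rw [Real.norm_eq_abs]
    have h0 := S.av_nonneg i ⌊x / 2 ^ i⌋
    have h1 := S.av_le_one i ⌊x / 2 ^ i⌋
    change |av f i ⌊x / 2 ^ i⌋ - av f i ⌊x / 2 ^ i⌋ ^ 2| ≤ 1
    rw [abs_le]
    constructor <;> nlinarith
  exact h1.locallyIntegrable le_top

theorem li_mul_E (S : Sit V f g) (i : ℤ) :
    LocallyIntegrable (fun x => E f i x * g x) := by
  have h1 : MemLp (E f i) ⊤ (volume : Measure ℝ) := by
    apply memLp_top_of_bound (Sit.measurable_E i f).aestronglyMeasurable 1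
    refine Eventually.of_forall fun x => ?_
    rw [Real.norm_eq_abs]; exact S.abs_E_le_one i x
  exact (S.hg.mul (p := ⊤) (r := 2) h1).locallyIntegrable (by norm_num)

theorem R_eq (S : Sit V f g) (n : ℕ) : ∀ j k : ℤ,
    R f n j k = A (fun x => E f (j - n) x - E f (j - n) x ^ 2) j k := by
  induction n with
  | zero =>
    intro j k
    unfold A R
    have : ∫ x in dyadic j k, (E f (j - (0 : ℕ)) x - E f (j - (0 : ℕ)) x ^ 2) =
        ∫ _ in dyadic j k, (av f j k - av f j k ^ 2) := by
      apply setIntegral_congr_fun (measurableSet_dyadic _ _)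
      intro x hx
      simp only [Nat.cast_zero, sub_zero]
      rw [E_of_mem hx]
    rw [this, setIntegral_const, measureReal_def, volume_dyadic,
      ENNReal.toReal_ofReal (two_zpow_pos j).le, smul_eq_mul]
  | succ n ih =>
    intro j k
    have : j - ((n + 1 : ℕ) : ℤ) = j - 1 - (n : ℤ) := by push_cast; ring
    rw [R, ih, ih, this, A_pred (S.li_phi_E (j - 1 - (n : ℤ))) j k]

theorem P_eq (S : Sit V f g) (n : ℕ) : ∀ j k : ℤ,
    P f g n j k = A (fun x => E f (j - n) x * g x) j k := by
  induction n with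
  | zero =>
    intro j k
    unfold A P
    have : ∫ x in dyadic j k, (E f (j - (0 : ℕ)) x * g x) =
        ∫ x in dyadic j k, (av f j k * g x) := by
      apply setIntegral_congr_fun (measurableSet_dyadic _ _)
      intro x hx
      simp only [Nat.cast_zero, sub_zero]
      rw [E_of_mem hx]
    rw [this, integral_const_mul]
    change _ = av f j k * A g j k
    rw [A_eq]
    ring
  | succ n ih =>
    intro j k
    have : j - ((n + 1 : ℕ) : ℤ) = j - 1 - (n : ℤ) := by push_cast; ring
    rw [P, ih, ih, this, A_pred (S.li_mul_E (j - 1 - (n : ℤ))) j k]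

theorem tendsto_R (S : Sit V f g) (j k : ℤ) : Tendsto (fun n => R f n j k) atTop (𝓝 0) := by
  have h1 : Tendsto (fun n : ℕ => ∫ x in dyadic j k, (E f (j - (n : ℤ)) x -
      E f (j - (n : ℤ)) x ^ 2)) atTop (𝓝 (∫ x in dyadic j k, (f x - f x ^ 2))) := by
    apply tendsto_integral_of_dominated_convergence (fun _ => (1 : ℝ))
    · intro n
      exact ((Sit.measurable_E _ f).sub
        ((Sit.measurable_E _ f).pow_const 2)).aestronglyMeasurable
    · exact integrableOn_const (volume_dyadic_ne_top _ _)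
    · intro n
      refine Eventually.of_forall fun x => ?_
      rw [Real.norm_eq_abs]
      have h0 := S.av_nonneg (j - (n : ℤ)) ⌊x / 2 ^ (j - (n : ℤ))⌋
      have h1 := S.av_le_one (j - (n : ℤ)) ⌊x / 2 ^ (j - (n : ℤ))⌋
      rw [abs_le]
      unfold E
      constructor <;> nlinarith
    · apply ae_restrict_of_ae
      filter_upwards [ae_tendsto_E S.li_f] with x hx
      exact (hx j).sub ((hx j).pow 2)
  have h2 : ∫ x in dyadic j k, (f x - f x ^ 2) = 0 := by
    have : (fun x => f x - f x ^ 2) = fun _ => 0 := by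
      funext x; rw [sq, S.f_sq, sub_self]
    rw [this]; simp
  rw [h2] at h1
  refine h1.congr ?_
  intro n
  rw [S.R_eq]; rfl

theorem tendsto_P (S : Sit V f g) (j k : ℤ) :
    Tendsto (fun n => P f g n j k) atTop (𝓝 (∫ x in dyadic j k, f x * g x)) := by
  have h1 : Tendsto (fun n : ℕ => ∫ x in dyadic j k, (E f (j - (n : ℤ)) x * g x)) atTop
      (𝓝 (∫ x in dyadic j k, f x * g x)) := by
    apply tendsto_integral_of_dominated_convergence (fun x => |g x|)
    · intro n
      exact ((Sit.measurable_E _ f).aestronglyMeasurable.mul S.hg.aestronglyMeasurable).restrict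
    · exact (integrableOn_dyadic S.li_g j k).abs
    · intro n
      refine Eventually.of_forall fun x => ?_
      rw [Real.norm_eq_abs, abs_mul]
      have := S.abs_E_le_one (j - (n : ℤ)) x
      have h2 := abs_nonneg (g x)
      nlinarith
    · apply ae_restrict_of_ae
      filter_upwards [ae_tendsto_E S.li_f] with x hx
      exact (hx j).mul_const _
  refine h1.congr ?_
  intro n
  rw [S.P_eq]; rfl

theorem P_one (S : Sit V f g) (j k : ℤ) :
    P f g 1 j k = 2 ^ j * (av f j k * av g j k + dd f j k * dd g j k) := by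
  rw [P, P, P, av_left S.li_f, av_left S.li_g, av_right S.li_f, av_right S.li_g]
  have h2 : (2 : ℝ) ^ j = 2 * 2 ^ (j - 1) := by
    rw [← two_zpow_succ, sub_add_cancel]
  rw [h2]
  ring

theorem P_two (S : Sit V f g) (j k : ℤ) : P f g 2 j k = P f g 1 j k := by
  have h1 : P f g 1 j k = P f g 0 (j - 1) (2 * k) + P f g 0 (j - 1) (2 * k + 1) := rfl
  have h2 : P f g 2 j k = P f g 1 (j - 1) (2 * k) + P f g 1 (j - 1) (2 * k + 1) := rfl
  rw [h1, h2, S.P_one, S.P_one, S.left, S.right, P, P]
  ring

theorem P_succ (S : Sit V f g) (n : ℕ) : ∀ j k : ℤ, P f g (n + 1) j k = P f g 1 j k := by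
  induction n with
  | zero => intro j k; rfl
  | succ n ih =>
    intro j k
    rw [P, ih, ih]
    exact S.P_two j k

theorem integral_mul (S : Sit V f g) (j k : ℤ) :
    ∫ x in dyadic j k, f x * g x = 2 ^ j * (av f j k * av g j k + dd f j k * dd g j k) := by
  have h1 := (tendsto_add_atTop_iff_nat 1).2 (S.tendsto_P j k)
  have h2 : (fun n => P f g (n + 1) j k) = fun _ => P f g 1 j k := by
    funext n; exact S.P_succ n j k
  rw [h2] at h1
  rw [← S.P_one]
  exact tendsto_nhds_unique h1 tendsto_const_nhds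

end Sit

end Pool.Agent.H40.Haar
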