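import Mathlib

set_option autoImplicit false

namespace Pool.Agent.H40.Hell

/-- `p` is a probability distribution on `Fin n`. -/
def IsDist {n : ℕ} (p : Fin n → ℝ) : Prop := (∀ i, 0 ≤ p i) ∧ ∑ i, p i = 1

/-- Hellinger distance `2^(-1/2) ‖√p - √q‖₂`. -/
noncomputable def dH {n : ℕ} (p q : Fin n → ℝ) : ℝ :=
  (1 / Real.sqrt 2) * Real.sqrt (∑ i, (Real.sqrt (p i) - Real.sqrt (q i)) ^ 2)

/-- The probability that the (possibly randomised) test `T`, where `T x` is the probability of
accepting on the sample `x`, accepts on `m` independent samples from `p`. -/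
noncomputable def acceptProb {n m : ℕ} (p : Fin n → ℝ) (T : (Fin m → Fin n) → ℝ) : ℝ :=
  ∑ x : Fin m → Fin n, (∏ j, p (x j)) * T x

/-- `T` is a tester of identity to `q` with Hellinger parameter `ε`, from `m` samples. -/
def IsTester {n m : ℕ} (q : Fin n → ℝ) (ε : ℝ) (T : (Fin m → Fin n) → ℝ) : Prop :=
  (∀ x, 0 ≤ T x ∧ T x ≤ 1) ∧ 2 / 3 ≤ acceptProb q T ∧
    ∀ p : Fin n → ℝ, IsDist p → ε < dH p q → 2 / 3 ≤ 1 - acceptProb p T

/-- The instance-specific sample complexity: the least number of samples of a tester. -/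
noncomputable def Psi {n : ℕ} (q : Fin n → ℝ) (ε : ℝ) : ℕ :=
  sInf {m : ℕ | ∃ T : (Fin m → Fin n) → ℝ, IsTester q ε T}

/-- The least number of elements of `Fin n` whose total `q`-mass is at least `1 - η`: the number of
entries of `q` that remain after removing smallest entries of total mass at most `η`. -/
noncomputable def effSupp {n : ℕ} (q : Fin n → ℝ) (η : ℝ) : ℕ :=
  sInf {k : ℕ | ∃ S : Finset (Fin n), S.card = k ∧ 1 - η ≤ ∑ i ∈ S, q i}

end Pool.Agent.H40.Hell
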