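import Pool.Agent.H40.HellDefs

set_option autoImplicit false

open Finset

namespace Pool.Agent.H40.Hell

variable {n : ℕ}

theorem acceptProb_add {m : ℕ} (p : Fin n → ℝ) (f g : (Fin m → Fin n) → ℝ) :
    acceptProb p (fun x => f x + g x) = acceptProb p f + acceptProb p g := by
  unfold acceptProb
  rw [← Finset.sum_add_distrib]
  exact Finset.sum_congr rfl fun x _ => by ring

theorem acceptProb_sub {m : ℕ} (p : Fin n → ℝ) (f g : (Fin m → Fin n) → ℝ) :
    acceptProb p (fun x => f x - g x) = acceptProb p f - acceptProb p g := by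
  unfold acceptProb
  rw [← Finset.sum_sub_distrib]
  exact Finset.sum_congr rfl fun x _ => by ring

theorem acceptProb_mul_left {m : ℕ} (p : Fin n → ℝ) (c : ℝ) (f : (Fin m → Fin n) → ℝ) :
    acceptProb p (fun x => c * f x) = c * acceptProb p f := by
  unfold acceptProb
  rw [Finset.mul_sum]
  exact Finset.sum_congr rfl fun x _ => by ring

theorem acceptProb_sum {m : ℕ} {ι : Type*} (s : Finset ι) (p : Fin n → ℝ)
    (f : ι → (Fin m → Fin n) → ℝ) :
    acceptProb p (fun x => ∑ i ∈ s, f i x) = ∑ i ∈ s, acceptProb p (f i) := by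
  unfold acceptProb
  rw [Finset.sum_comm]
  exact Finset.sum_congr rfl fun x _ => by rw [Finset.mul_sum]

theorem acceptProb_mono {m : ℕ} {p : Fin n → ℝ} (hp : ∀ i, 0 ≤ p i)
    {f g : (Fin m → Fin n) → ℝ} (h : ∀ x, f x ≤ g x) : acceptProb p f ≤ acceptProb p g := by
  unfold acceptProb
  exact Finset.sum_le_sum fun x _ =>
    mul_le_mul_of_nonneg_left (h x) (Finset.prod_nonneg fun j _ => hp _)

theorem acceptProb_nonneg {m : ℕ} {p : Fin n → ℝ} (hp : ∀ i, 0 ≤ p i)
    {f : (Fin m → Fin n) → ℝ} (h : ∀ x, 0 ≤ f x) : 0 ≤ acceptProb p f := by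
  unfold acceptProb
  exact Finset.sum_nonneg fun x _ =>
    mul_nonneg (Finset.prod_nonneg fun j _ => hp _) (h x)

theorem acceptProb_prod {m : ℕ} (p : Fin n → ℝ) (g : Fin m → Fin n → ℝ) :
    acceptProb p (fun x => ∏ l, g l (x l)) = ∏ l, ∑ i, p i * g l i := by
  unfold acceptProb
  rw [Finset.prod_univ_sum]
  simp only [Fintype.piFinset_univ]
  exact Finset.sum_congr rfl fun x _ => by rw [Finset.prod_mul_distrib]

theorem acceptProb_one {m : ℕ} {p : Fin n → ℝ} (hp : ∑ i, p i = 1) :
    acceptProb p (fun _ : Fin m → Fin n => 1) = 1 := by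
  have := acceptProb_prod (m := m) p (fun _ _ => 1)
  simpa [hp] using this

theorem acceptProb_const {m : ℕ} {p : Fin n → ℝ} (hp : ∑ i, p i = 1) (c : ℝ) :
    acceptProb p (fun _ : Fin m → Fin n => c) = c := by
  have := acceptProb_mul_left (m := m) p c (fun _ => 1)
  rw [acceptProb_one hp] at this
  simpa using this

/-- peel off the first sample -/
theorem acceptProb_succ {m : ℕ} (p : Fin n → ℝ) (f : (Fin (m + 1) → Fin n) → ℝ) :
    acceptProb p f = ∑ i, p i * acceptProb p (fun y : Fin m → Fin n => f (Fin.cons i y)) := by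
  unfold acceptProb
  rw [← (Fin.consEquiv (fun _ : Fin (m + 1) => Fin n)).sum_comp, Fintype.sum_prod_type]
  refine Finset.sum_congr rfl fun i _ => ?_
  rw [Finset.mul_sum]
  refine Finset.sum_congr rfl fun y _ => ?_
  change (∏ j, p ((Fin.cons i y : Fin (m + 1) → Fin n) j)) * f (Fin.cons i y) = _
  simp only [Fin.prod_univ_succ, Fin.cons_zero, Fin.cons_succ]
  ring

theorem sum_pca (p a : Fin n → ℝ) (c : ℝ) : ∑ i, p i * (c * a i) = c * ∑ i, p i * a i := by
  rw [Finset.mul_sum]
  exact Finset.sum_congr rfl fun i _ => by ring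

theorem acceptProb_lin {m : ℕ} {p : Fin n → ℝ} (hp : ∑ i, p i = 1) (a : Fin n → ℝ) :
    acceptProb p (fun x : Fin m → Fin n => ∑ l, a (x l)) = m * ∑ i, p i * a i := by
  induction m with
  | zero => simp [acceptProb]
  | succ m ih =>
    rw [acceptProb_succ]
    have : ∀ i, acceptProb p (fun y : Fin m → Fin n => ∑ l, a ((Fin.cons i y : Fin (m + 1) → Fin n) l))
        = a i + m * ∑ i, p i * a i := by
      intro i
      simp only [Fin.sum_univ_succ, Fin.cons_zero, Fin.cons_succ]
      rw [acceptProb_add, acceptProb_const hp, ih]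
    simp only [this]
    simp only [mul_add, Finset.sum_add_distrib]
    rw [← Finset.sum_mul, hp]
    push_cast
    ring

theorem acceptProb_quad {m : ℕ} {p : Fin n → ℝ} (hp : ∑ i, p i = 1) (a b : Fin n → ℝ) :
    acceptProb p (fun x : Fin m → Fin n => (∑ l, a (x l)) * (∑ l, b (x l))) =
      m * ∑ i, p i * (a i * b i) + m * (m - 1) * ((∑ i, p i * a i) * ∑ i, p i * b i) := by
  induction m with
  | zero => simp [acceptProb]
  | succ m ih =>
    rw [acceptProb_succ]
    set A := ∑ i, p i * a i with hA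
    set B := ∑ i, p i * b i with hB
    have : ∀ i, acceptProb p (fun y : Fin m → Fin n =>
        (∑ l, a ((Fin.cons i y : Fin (m + 1) → Fin n) l)) *
        (∑ l, b ((Fin.cons i y : Fin (m + 1) → Fin n) l)))
        = a i * b i + (m * B) * a i + (m * A) * b i +
          (m * ∑ i, p i * (a i * b i) + m * (m - 1) * (A * B)) := by
      intro i
      simp only [Fin.sum_univ_succ, Fin.cons_zero, Fin.cons_succ]
      have e : (fun y : Fin m → Fin n => (a i + ∑ l, a (y l)) * (b i + ∑ l, b (y l))) =
          fun y => a i * b i + (a i * (∑ l, b (y l)) + (b i * (∑ l, a (y l)) +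
            (∑ l, a (y l)) * (∑ l, b (y l)))) := by
        funext y; ring
      rw [e, acceptProb_add, acceptProb_const hp, acceptProb_add, acceptProb_mul_left,
        acceptProb_add, acceptProb_mul_left, acceptProb_lin hp, acceptProb_lin hp, ih]
      ring
    simp only [this]
    simp only [mul_add, Finset.sum_add_distrib]
    rw [sum_pca, sum_pca, ← Finset.sum_mul, ← Finset.sum_mul, hp, ← hA, ← hB]
    push_cast
    ring

end Pool.Agent.H40.Hell
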