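import Pool.Agent.H40.HellPert

set_option autoImplicit false

open Finset

namespace Pool.Agent.H40.Hell

variable {n : ℕ}

theorem even_sum_aux (g : ℕ → ℝ) (hg : Monotone g) (N : ℕ) :
    ∑ l ∈ Finset.range (2 * N), g l ≤ 2 * (∑ j ∈ Finset.range N, g (2 * j)) + g (2 * N) - g 0 := by
  induction N with
  | zero => simp
  | succ N ih =>
    have e : 2 * (N + 1) = 2 * N + 1 + 1 := by ring
    rw [e, Finset.sum_range_succ, Finset.sum_range_succ, Finset.sum_range_succ _ N]
    have h := hg (show 2 * N + 1 ≤ 2 * N + 1 + 1 by omega)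
    linarith

theorem even_sum (g : ℕ → ℝ) (hg : Monotone g) (τ : ℝ) (h0 : 0 ≤ g 0) (h1 : ∀ l, g l ≤ τ)
    (n : ℕ) :
    ∑ l ∈ Finset.range n, g l ≤ 2 * (∑ j ∈ Finset.range (n / 2), g (2 * j)) + 2 * τ := by
  have h2 := even_sum_aux g hg (n / 2)
  have h3 := h1 (2 * (n / 2))
  have h4 : 0 ≤ τ := h0.trans (h1 0)
  rcases Nat.even_or_odd' n with ⟨c, hc | hc⟩
  · have e : n / 2 = c := by omega
    rw [e] at h2 h3 ⊢
    rw [hc]
    linarith
  · have e : n / 2 = c := by omega
    rw [e] at h2 h3 ⊢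
    rw [hc, Finset.sum_range_succ]
    linarith

theorem gap_sum (g : ℕ → ℝ) (hg : Monotone g) (N : ℕ) :
    ∑ j ∈ Finset.range N, (g (2 * j + 1) - g (2 * j)) ≤ g (2 * N) - g 0 := by
  induction N with
  | zero => simp
  | succ N ih =>
    rw [Finset.sum_range_succ]
    have h := hg (show 2 * N + 1 ≤ 2 * (N + 1) by omega)
    linarith

/-- pairs from a monotone enumeration -/
def pairsOf {q : Fin n → ℝ} {N : ℕ} (φ : Fin N → Fin n) (hφ : Function.Injective φ)
    (hm : Monotone (q ∘ φ)) (e : Fin (N / 2) → ℝ) (e0 : ∀ j, 0 ≤ e j)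
    (eb : ∀ j : Fin (N / 2), e j ≤ q (φ ⟨2 * j, by have := j.2; omega⟩)) :
    Pairs q (Fin (N / 2)) where
  a := fun j => φ ⟨2 * j + 1, by have := j.2; omega⟩
  b := fun j => φ ⟨2 * j, by have := j.2; omega⟩
  e := e
  ainj := by
    intro j j' h
    have h1 := hφ h
    simp only [Fin.mk.injEq] at h1
    exact Fin.ext (by omega)
  binj := by
    intro j j' h
    have h1 := hφ h
    simp only [Fin.mk.injEq] at h1
    exact Fin.ext (by omega)
  ab := by
    intro j j' h
    have h1 := hφ h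
    simp only [Fin.mk.injEq] at h1
    omega
  e0 := e0
  eb := eb
  ba := fun j => hm (by simp [Fin.le_def])

/-- extension of a clipped monotone enumeration to `ℕ` -/
noncomputable def ext {q : Fin n → ℝ} {N : ℕ} (φ : Fin N → Fin n) (τ : ℝ) (l : ℕ) : ℝ :=
  if h : l < N then min (q (φ ⟨l, h⟩)) τ else τ

theorem ext_mono {q : Fin n → ℝ} {N : ℕ} (φ : Fin N → Fin n) (hm : Monotone (q ∘ φ)) (τ : ℝ) :
    Monotone (ext (q := q) φ τ) := by
  intro l l' hll
  unfold ext
  by_cases h' : l' < N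
  · have h : l < N := lt_of_le_of_lt hll h'
    rw [dif_pos h, dif_pos h']
    exact min_le_min_right τ (hm (show (⟨l, h⟩ : Fin N) ≤ ⟨l', h'⟩ from hll))
  · rw [dif_neg h']
    split_ifs
    · exact min_le_right _ _
    · exact le_rfl

theorem ext_nonneg {q : Fin n → ℝ} (hq : ∀ i, 0 ≤ q i) {N : ℕ} (φ : Fin N → Fin n) {τ : ℝ}
    (hτ : 0 ≤ τ) (l : ℕ) : 0 ≤ ext (q := q) φ τ l := by
  unfold ext
  split_ifs
  · exact le_min (hq _) hτ
  · exact hτ

theorem ext_le {q : Fin n → ℝ} {N : ℕ} (φ : Fin N → Fin n) (τ : ℝ) (l : ℕ) :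
    ext (q := q) φ τ l ≤ τ := by
  unfold ext
  split_ifs
  · exact min_le_right _ _
  · exact le_rfl

/-- sum of the clipped values against the values at the even positions -/
theorem pair_sum {q : Fin n → ℝ} (hq : ∀ i, 0 ≤ q i) {N : ℕ} (φ : Fin N → Fin n)
    (hm : Monotone (q ∘ φ)) {τ : ℝ} (hτ : 0 ≤ τ) :
    ∑ l, min (q (φ l)) τ ≤
      2 * (∑ j : Fin (N / 2), min (q (φ ⟨2 * j, by have := j.2; omega⟩)) τ) + 2 * τ := by
  have h2 := even_sum (ext (q := q) φ τ) (ext_mono φ hm τ) τ (ext_nonneg hq φ hτ 0)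
    (ext_le φ τ) N
  have h3 : ∑ l ∈ Finset.range N, ext (q := q) φ τ l = ∑ l, min (q (φ l)) τ := by
    rw [← Fin.sum_univ_eq_sum_range]
    refine Finset.sum_congr rfl fun l _ => ?_
    unfold ext
    rw [dif_pos l.2]
  have h4 : ∑ j ∈ Finset.range (N / 2), ext (q := q) φ τ (2 * j) =
      ∑ j : Fin (N / 2), min (q (φ ⟨2 * j, by have := j.2; omega⟩)) τ := by
    rw [← Fin.sum_univ_eq_sum_range (fun j => ext (q := q) φ τ (2 * j))]
    refine Finset.sum_congr rfl fun j _ => ?_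
    unfold ext
    rw [dif_pos]
  rw [h3, h4] at h2
  exact h2

theorem gap_pair {q : Fin n → ℝ} (hq : ∀ i, 0 ≤ q i) {N : ℕ} (φ : Fin N → Fin n)
    (hm : Monotone (q ∘ φ)) {τ : ℝ} (hτ : 0 ≤ τ) (hle : ∀ l, q (φ l) ≤ τ) :
    ∑ j : Fin (N / 2), (q (φ ⟨2 * j + 1, by have := j.2; omega⟩) -
      q (φ ⟨2 * j, by have := j.2; omega⟩)) ≤ τ := by
  have h2 := gap_sum (ext (q := q) φ τ) (ext_mono φ hm τ) (N / 2)
  have h3 := ext_nonneg hq φ hτ 0
  have h4 := ext_le (q := q) φ τ (2 * (N / 2))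
  have h5 : ∑ j ∈ Finset.range (N / 2), (ext (q := q) φ τ (2 * j + 1) -
      ext (q := q) φ τ (2 * j)) = ∑ j : Fin (N / 2), (q (φ ⟨2 * j + 1, by have := j.2; omega⟩) -
      q (φ ⟨2 * j, by have := j.2; omega⟩)) := by
    rw [← Fin.sum_univ_eq_sum_range (fun j => ext (q := q) φ τ (2 * j + 1) -
      ext (q := q) φ τ (2 * j))]
    refine Finset.sum_congr rfl fun j _ => ?_
    unfold ext
    rw [dif_pos (show 2 * (j : ℕ) + 1 < N by have := j.2; omega),
      dif_pos (show 2 * (j : ℕ) < N by have := j.2; omega), min_eq_left (hle _),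
      min_eq_left (hle _)]
  rw [h5] at h2
  linarith

/-- lower and upper bound for the clipped mass -/
theorem clip_upper {q : Fin n → ℝ} (hq : IsDist q) {η τ : ℝ} (hη : 0 ≤ η) {K : ℕ}
    (hK : K = effSupp q η) : ∑ i, min (q i) τ ≤ K * τ + η := by
  classical
  obtain ⟨S, hS, hS'⟩ := effSupp_spec hq hη
  rw [← Finset.sum_add_sum_compl S]
  have h1 : ∑ i ∈ S, min (q i) τ ≤ S.card * τ := by
    rw [← nsmul_eq_mul, ← Finset.sum_const]
    exact Finset.sum_le_sum fun i _ => min_le_right _ _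
  have h2 : ∑ i ∈ Sᶜ, min (q i) τ ≤ ∑ i ∈ Sᶜ, q i :=
    Finset.sum_le_sum fun i _ => min_le_left _ _
  have h5 := Finset.sum_add_sum_compl S q
  rw [hq.2] at h5
  rw [hS, ← hK] at h1
  linarith

/-- two atoms `x ≤ y` perturbed by `±x`, `∓x` -/
theorem pair_hell {x y : ℝ} (hx : 0 ≤ x) (hxy : x ≤ y) (s : ℝ) (hs : s = 1 ∨ s = -1) :
    117 / 100 * x - 22 / 10 * (Real.sqrt (y - x) * Real.sqrt y) ≤
      (Real.sqrt (x + s * x) - Real.sqrt x) ^ 2 + (Real.sqrt (y - s * x) - Real.sqrt y) ^ 2 := by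
  have hy : 0 ≤ y := hx.trans hxy
  have hsx := Real.mul_self_sqrt hx
  have hsy := Real.mul_self_sqrt hy
  have hyx : 0 ≤ y - x := by linarith
  have hsyx := Real.mul_self_sqrt hyx
  have h0 := Real.sqrt_nonneg x
  have h0' := Real.sqrt_nonneg y
  have h0'' := Real.sqrt_nonneg (y - x)
  have hprod : y - x ≤ Real.sqrt (y - x) * Real.sqrt y := by
    have : Real.sqrt (y - x) ≤ Real.sqrt y := Real.sqrt_le_sqrt (by linarith)
    nlinarith
  rcases hs with hs | hs
  · rw [hs]
    have e1 : x + 1 * x = 2 * x := by ring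
    have e2 : y - 1 * x = y - x := by ring
    rw [e1, e2, Real.sqrt_mul (by norm_num)]
    have h2 : Real.sqrt 2 * Real.sqrt 2 = 2 := Real.mul_self_sqrt (by norm_num)
    have h3 : Real.sqrt 2 ≤ 1415 / 1000 := by
      rw [Real.sqrt_le_left (by norm_num)]; norm_num
    have h4 : 0 ≤ Real.sqrt 2 := Real.sqrt_nonneg 2
    have h5 : (Real.sqrt 2 * Real.sqrt x - Real.sqrt x) ^ 2 = (3 - 2 * Real.sqrt 2) * x := by
      have : (Real.sqrt 2 * Real.sqrt x - Real.sqrt x) ^ 2 =
        (Real.sqrt 2 * Real.sqrt 2 - 2 * Real.sqrt 2 + 1) * (Real.sqrt x * Real.sqrt x) := by ring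
      rw [this, h2, hsx]; ring
    have h6 : (Real.sqrt (y - x) - Real.sqrt y) ^ 2 =
        2 * y - x - 2 * (Real.sqrt (y - x) * Real.sqrt y) := by
      nlinarith
    rw [h5, h6]
    nlinarith [mul_nonneg h0'' h0']
  · rw [hs]
    have e1 : x + -1 * x = 0 := by ring
    have e2 : y - -1 * x = y + x := by ring
    rw [e1, e2, Real.sqrt_zero]
    have hyx' : 0 ≤ y + x := by linarith
    have hs3 := Real.mul_self_sqrt hyx'
    have h03 := Real.sqrt_nonneg (y + x)
    have h5 : (0 - Real.sqrt x) ^ 2 = x := by nlinarith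
    have h6 : (Real.sqrt (y + x) - Real.sqrt y) * (Real.sqrt (y + x) + Real.sqrt y) = x := by
      nlinarith
    have h7 : (Real.sqrt (y + x) + Real.sqrt y) ^ 2 ≤ 583 / 100 * y := by
      have h8 : Real.sqrt (y + x) ≤ 1415 / 1000 * Real.sqrt y := by
        apply Real.sqrt_le_iff.2
        refine ⟨by positivity, ?_⟩
        nlinarith
      nlinarith
    have h9 : 17 / 100 * x - 18 / 100 * (y - x) ≤ (Real.sqrt (y + x) - Real.sqrt y) ^ 2 := by
      by_cases hy0 : y = 0
      · have : x = 0 := by linarith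
        rw [hy0, this]; simp
      · have hy1 : 0 < y := lt_of_le_of_ne hy (Ne.symm hy0)
        set D := (Real.sqrt (y + x) - Real.sqrt y) ^ 2 with hD
        have hD0 : 0 ≤ D := sq_nonneg _
        have h10 : x ^ 2 ≤ D * (583 / 100 * y) := by
          calc x ^ 2 = D * (Real.sqrt (y + x) + Real.sqrt y) ^ 2 := by
                rw [hD, ← mul_pow, h6]
            _ ≤ D * (583 / 100 * y) := mul_le_mul_of_nonneg_left h7 hD0
        by_contra hc
        push Not at hc
        have h11 : D * (583 / 100 * y) < (17 / 100 * x - 18 / 100 * (y - x)) * (583 / 100 * y) :=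
          mul_lt_mul_of_pos_right hc (by positivity)
        nlinarith [mul_nonneg hx hyx, mul_nonneg hyx hyx]
    rw [h5]
    nlinarith [mul_nonneg h0'' h0']

namespace Pairs

variable {q : Fin n → ℝ} {J : Type} [Fintype J] [DecidableEq J]

omit [DecidableEq J] in
theorem pert_b (S : Pairs q J) (σ : J → ℤˣ) (j : J) :
    S.pert σ (S.b j) = sg (σ j) * S.e j := by
  have hb : S.b j ≠ S.a j := fun h => S.ab j j h.symm
  unfold pert
  rw [Finset.sum_eq_single j]
  · unfold v
    simp [hb]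
  · intro j' _ hj'
    have h4 : S.b j ≠ S.b j' := fun h => hj' (S.binj h.symm)
    have h5 : S.b j ≠ S.a j' := fun h => S.ab j' j h.symm
    unfold v
    simp [h4, h5]
  · intro h; exact absurd (Finset.mem_univ _) h

omit [DecidableEq J] in
theorem pert_a (S : Pairs q J) (σ : J → ℤˣ) (j : J) :
    S.pert σ (S.a j) = - (sg (σ j) * S.e j) := by
  have hb : S.a j ≠ S.b j := S.ab j j
  unfold pert
  rw [Finset.sum_eq_single j]
  · unfold v
    simp [hb]
  · intro j' _ hj'
    have h4 : S.a j ≠ S.a j' := fun h => hj' (S.ainj h.symm)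
    have h5 : S.a j ≠ S.b j' := S.ab j j'
    unfold v
    simp [h4, h5]
  · intro h; exact absurd (Finset.mem_univ _) h

omit [Fintype J] [DecidableEq J] in
theorem w_le (S : Pairs q J) (hq : ∀ i, 0 ≤ q i) (j : J) {t : ℝ} (ht : 0 ≤ t)
    (h : S.e j ^ 2 = q (S.b j) * t) (hz : q (S.b j) = 0 → t = 0) :
    S.e j ^ 2 / q (S.b j) = t ∧ S.w j ≤ 2 * t := by
  have h1 : S.e j ^ 2 / q (S.b j) = t := by
    rw [h]
    by_cases h0 : q (S.b j) = 0
    · rw [h0, div_zero, hz h0]
    · field_simp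
  refine ⟨h1, ?_⟩
  rw [S.w_eq, h1]
  have h2 : S.e j ^ 2 / q (S.a j) ≤ t := by
    by_cases h0 : q (S.a j) = 0
    · rw [h0, div_zero]; exact ht
    · have h3 : 0 < q (S.a j) := lt_of_le_of_ne (hq _) (Ne.symm h0)
      rw [div_le_iff₀ h3, h, mul_comm]
      exact mul_le_mul_of_nonneg_left (S.ba j) ht
  linarith

/-- refined lower bound when the amplitudes are full -/
theorem dH_lower_full (S : Pairs q J) (hq : IsDist q) (hfull : ∀ j, S.e j = q (S.b j))
    (σ : J → ℤˣ) :
    (1 / 2) * ∑ j, (117 / 100 * q (S.b j) -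
      22 / 10 * (Real.sqrt (q (S.a j) - q (S.b j)) * Real.sqrt (q (S.a j)))) ≤
      dH (fun i => q i * S.R σ i) q ^ 2 := by
  rw [dH_sq]
  simp only [S.q_mul_R hq.1]
  set f : Fin n → ℝ := fun i => (Real.sqrt (q i + S.pert σ i) - Real.sqrt (q i)) ^ 2 with hf
  have h1 : ∑ j, (117 / 100 * q (S.b j) -
      22 / 10 * (Real.sqrt (q (S.a j) - q (S.b j)) * Real.sqrt (q (S.a j)))) ≤
      ∑ j, (f (S.b j) + f (S.a j)) := by
    apply Finset.sum_le_sum
    intro j _
    have h2 := pair_hell (hq.1 (S.b j)) (S.ba j) (sg (σ j)) (sg_cases (σ j))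
    rw [hf]
    simp only
    rw [S.pert_b, S.pert_a, hfull, ← sub_eq_add_neg]
    exact h2
  have h2 : ∑ j, (f (S.b j) + f (S.a j)) ≤ ∑ i, f i := by
    rw [Finset.sum_add_distrib]
    have h3 : ∑ j, f (S.b j) = ∑ i ∈ Finset.univ.map ⟨S.b, S.binj⟩, f i := by
      rw [Finset.sum_map]; rfl
    have h4 : ∑ j, f (S.a j) = ∑ i ∈ Finset.univ.map ⟨S.a, S.ainj⟩, f i := by
      rw [Finset.sum_map]; rfl
    rw [h3, h4, ← Finset.sum_union]
    · exact Finset.sum_le_sum_of_subset_of_nonneg (Finset.subset_univ _)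
        fun i _ _ => sq_nonneg _
    · rw [Finset.disjoint_left]
      intro i hi hi'
      simp only [Finset.mem_map, Finset.mem_univ, true_and, Function.Embedding.coeFn_mk] at hi hi'
      obtain ⟨j, hj⟩ := hi
      obtain ⟨j', hj'⟩ := hi'
      exact S.ab j' j (hj'.trans hj.symm)
  linarith

end Pairs

/-- from a pair system with small weights and distance, the bound on the number of samples -/
theorem conclude {q : Fin n → ℝ} (hq : IsDist q) {ε η τ : ℝ} (hη : η = 4 * ε ^ 2)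
    {K : ℕ} (hK0 : 0 < K) (hτ : τ = 16 * η / K)
    {J : Type} [Fintype J] [DecidableEq J] (S : Pairs q J) (t : J → ℝ)
    (ht0 : ∀ j, 0 ≤ t j) (htτ : ∀ j, t j ≤ τ) (hw : ∀ j, S.w j ≤ 2 * t j)
    (hsum : ∑ j, t j ≤ 17 * η)
    (hfar : ∀ σ : J → ℤˣ, ε ^ 2 < dH (fun i => q i * S.R σ i) q ^ 2)
    {m : ℕ} {T : (Fin m → Fin n) → ℝ} (hT : IsTester q ε T) :
    Real.sqrt K ≤ 300 * (m * ε ^ 2) := by
  have hKr : (0 : ℝ) < K := by exact_mod_cast hK0
  have hη0 : 0 ≤ η := by rw [hη]; positivity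
  have hτ0 : 0 ≤ τ := by rw [hτ]; positivity
  have hrej : ∀ σ : J → ℤˣ, acceptProb (fun i => q i * S.R σ i) T ≤ 1 / 3 := by
    intro σ
    have h1 : ε < dH (fun i => q i * S.R σ i) q := lt_of_pow_lt_pow_left₀ 2 (dH_nonneg _ _) (hfar σ)
    have := hT.2.2 _ (S.isDist hq σ) h1
    linarith
  have hmain := S.tester_bound hq hT.1 hT.2.1 hrej
  have hw2 : ∑ j, S.w j ^ 2 ≤ 1088 * η ^ 2 / K := by
    have h1 : ∑ j, S.w j ^ 2 ≤ ∑ j, (4 * τ) * t j := by
      apply Finset.sum_le_sum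
      intro j _
      have hw0 : 0 ≤ S.w j := by
        unfold Pairs.w
        exact Finset.sum_nonneg fun i _ => div_nonneg (sq_nonneg _) (hq.1 i)
      have h2 := pow_le_pow_left₀ hw0 (hw j) 2
      nlinarith [ht0 j, htτ j]
    rw [← Finset.mul_sum] at h1
    have h2 : 4 * τ * ∑ j, t j ≤ 4 * τ * (17 * η) := mul_le_mul_of_nonneg_left hsum (by positivity)
    have h3 : 4 * τ * (17 * η) = 1088 * η ^ 2 / K := by rw [hτ]; field_simp; ring
    linarith
  have h1 : 1 / 5 ≤ (m : ℝ) ^ 2 * (1088 * η ^ 2 / K) :=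
    hmain.trans (mul_le_mul_of_nonneg_left hw2 (by positivity))
  have h2 : (K : ℝ) ≤ (300 * (m * ε ^ 2)) ^ 2 := by
    have h3 : (m : ℝ) ^ 2 * (1088 * η ^ 2 / K) = (m : ℝ) ^ 2 * (1088 * η ^ 2) / K := by ring
    rw [h3, le_div_iff₀ hKr] at h1
    rw [hη] at h1
    nlinarith [sq_nonneg ((m : ℝ) * ε ^ 2)]
  exact Real.sqrt_le_iff.2 ⟨by positivity, h2⟩

theorem lower_main {q : Fin n → ℝ} (hq : IsDist q) {ε : ℝ} (h0 : 0 < ε) {K : ℕ}
    (hK : K = effSupp q (4 * ε ^ 2)) (hKbig : 14400 ≤ K) {m : ℕ} {T : (Fin m → Fin n) → ℝ}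
    (hT : IsTester q ε T) : Real.sqrt K ≤ 300 * (m * ε ^ 2) := by
  classical
  set η := 4 * ε ^ 2 with hη
  have hη0 : 0 < η := by positivity
  have hKr : (14400 : ℝ) ≤ K := by exact_mod_cast hKbig
  have hK0 : (0 : ℝ) < K := by linarith
  obtain ⟨τ, hτ⟩ : ∃ τ : ℝ, τ = 16 * η / K := ⟨_, rfl⟩
  have hτ0 : 0 ≤ τ := by rw [hτ]; positivity
  have hKτ : (K : ℝ) * τ = 16 * η := by rw [hτ]; field_simp
  have hτ1 : τ ≤ η / 900 := by
    have : (14400 : ℝ) * τ ≤ K * τ := mul_le_mul_of_nonneg_right hKr hτ0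
    linarith
  have hup := clip_upper (τ := τ) hq hη0.le hK
  rw [hKτ] at hup
  have hup' : ∑ i, min (q i) τ ≤ 17 * η := by linarith
  set H := Finset.univ.filter (fun i => τ ≤ q i) with hH
  by_cases hcase : K ≤ H.card
  · -- heavy case
    set π : Equiv.Perm (Fin n) := Tuple.sort q with hπ
    have hmono : Monotone (q ∘ π) := Tuple.monotone_sort q
    let t : Fin (n / 2) → ℝ := fun j => min (q (π ⟨2 * j, by have := j.2; omega⟩)) τ
    have ht0 : ∀ j, 0 ≤ t j := fun j => le_min (hq.1 _) hτ0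
    let S : Pairs q (Fin (n / 2)) := pairsOf (q := q) π π.injective hmono
      (fun j => Real.sqrt (q (π ⟨2 * j, by have := j.2; omega⟩) * t j))
      (fun j => Real.sqrt_nonneg _)
      (fun j => by
        have h0 := hq.1 (π ⟨2 * j, by have := j.2; omega⟩)
        apply Real.sqrt_le_iff.2
        refine ⟨h0, ?_⟩
        rw [sq]
        exact mul_le_mul_of_nonneg_left (min_le_left _ _) h0)
    have he : ∀ j, S.e j ^ 2 = q (S.b j) * t j := fun j =>
      Real.sq_sqrt (mul_nonneg (hq.1 _) (ht0 j))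
    have hz : ∀ j, q (S.b j) = 0 → t j = 0 := by
      intro j hj
      change min (q (S.b j)) τ = 0
      rw [hj, min_eq_left hτ0]
    have hw := fun j => S.w_le hq.1 j (ht0 j) (he j) (hz j)
    have hps := pair_sum hq.1 π hmono hτ0
    have hperm : ∑ l, min (q (π l)) τ = ∑ i, min (q i) τ :=
      Equiv.sum_comp π (fun i => min (q i) τ)
    rw [hperm] at hps
    have hlow : 16 * η ≤ ∑ i, min (q i) τ := by
      have h1 : ∑ i ∈ H, min (q i) τ ≤ ∑ i, min (q i) τ :=
        Finset.sum_le_sum_of_subset_of_nonneg (Finset.subset_univ _)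
          fun i _ _ => le_min (hq.1 i) hτ0
      have h2 : ∑ i ∈ H, min (q i) τ = H.card * τ := by
        rw [← nsmul_eq_mul, ← Finset.sum_const]
        refine Finset.sum_congr rfl fun i hi => ?_
        exact min_eq_right (Finset.mem_filter.1 hi).2
      have h3 : (K : ℝ) ≤ H.card := by exact_mod_cast hcase
      have h4 : (K : ℝ) * τ ≤ H.card * τ := mul_le_mul_of_nonneg_right h3 hτ0
      linarith
    have hsum : ∑ j, t j ≤ 17 * η := by
      have h1 : ∑ j, t j = ∑ i ∈ Finset.univ.map ⟨S.b, S.binj⟩, min (q i) τ := by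
        rw [Finset.sum_map]; rfl
      have h2 : ∑ i ∈ Finset.univ.map ⟨S.b, S.binj⟩, min (q i) τ ≤ ∑ i, min (q i) τ :=
        Finset.sum_le_sum_of_subset_of_nonneg (Finset.subset_univ _)
          fun i _ _ => le_min (hq.1 i) hτ0
      linarith
    apply conclude hq hη (by omega) hτ S t ht0 (fun j => min_le_right _ _) (fun j => (hw j).2)
      hsum _ hT
    intro σ
    have h1 := S.dH_lower hq σ
    have h2 : ∑ j, S.e j ^ 2 / q (S.b j) = ∑ j, t j :=
      Finset.sum_congr rfl fun j _ => (hw j).1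
    rw [h2] at h1
    have h3 : ∑ j : Fin (n / 2), min (q (π ⟨2 * j, by have := j.2; omega⟩)) τ = ∑ j, t j := rfl
    rw [h3] at hps
    have : ε ^ 2 = η / 4 := by rw [hη]; ring
    rw [this]
    linarith
  · -- light case
    push Not at hcase
    set L := Finset.univ.filter (fun i => q i < τ) with hL
    have hLc : L = Hᶜ := by
      ext i
      simp [hL, hH]
    have hLmass : η < ∑ i ∈ L, q i := by
      have h4 : ∑ i ∈ H, q i < 1 - η := by
        by_contra hc
        push Not at hc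
        have := effSupp_le hc
        omega
      have h5 := Finset.sum_add_sum_compl H q
      rw [hq.2, ← hLc] at h5
      linarith
    have hLup : ∑ i ∈ L, q i ≤ 17 * η := by
      have h1 : ∑ i ∈ L, q i = ∑ i ∈ L, min (q i) τ :=
        Finset.sum_congr rfl fun i hi => (min_eq_left (Finset.mem_filter.1 hi).2.le).symm
      have h2 : ∑ i ∈ L, min (q i) τ ≤ ∑ i, min (q i) τ :=
        Finset.sum_le_sum_of_subset_of_nonneg (Finset.subset_univ _)
          fun i _ _ => le_min (hq.1 i) hτ0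
      linarith
    set N := L.card with hN
    let ψ : Fin N → Fin n := fun l => (L.equivFin.symm l : Fin n)
    have hψinj : Function.Injective ψ := fun l l' h =>
      L.equivFin.symm.injective (Subtype.ext h)
    let π : Equiv.Perm (Fin N) := Tuple.sort (q ∘ ψ)
    have hmono : Monotone (q ∘ (ψ ∘ π)) := Tuple.monotone_sort (q ∘ ψ)
    let φ : Fin N → Fin n := ψ ∘ π
    have hφinj : Function.Injective φ := hψinj.comp π.injective
    have hφL : ∀ l, q (φ l) < τ := by
      intro l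
      have : (L.equivFin.symm (π l) : Fin n) ∈ L := (L.equivFin.symm (π l)).2
      exact (Finset.mem_filter.1 this).2
    have hφsum : ∑ l, q (φ l) = ∑ i ∈ L, q i := by
      have h1 : ∑ l, q (φ l) = ∑ l, q (ψ l) := Equiv.sum_comp π (fun l => q (ψ l))
      rw [h1]
      have h2 : ∑ l, q (ψ l) = ∑ i : L, q i :=
        Equiv.sum_comp L.equivFin.symm (fun i : L => q i)
      rw [h2]
      exact Finset.sum_coe_sort L q
    let S : Pairs q (Fin (N / 2)) := pairsOf (q := q) φ hφinj hmono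
      (fun j => q (φ ⟨2 * j, by have := j.2; omega⟩)) (fun j => hq.1 _) (fun j => le_rfl)
    have hfull : ∀ j, S.e j = q (S.b j) := fun j => rfl
    have hw := fun j => S.w_le hq.1 j (hq.1 (S.b j)) (by rw [hfull]; ring) (fun h => h)
    set X := ∑ j, q (S.b j) with hX
    have hps := pair_sum hq.1 φ hmono hτ0
    have hps1 : ∑ l, min (q (φ l)) τ = ∑ i ∈ L, q i := by
      rw [← hφsum]
      exact Finset.sum_congr rfl fun l _ => min_eq_left (hφL l).le
    have hps2 : ∑ j : Fin (N / 2), min (q (φ ⟨2 * j, by have := j.2; omega⟩)) τ = X := by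
      rw [hX]
      exact Finset.sum_congr rfl fun j _ => min_eq_left (hφL _).le
    rw [hps1, hps2] at hps
    have hgap := gap_pair hq.1 φ hmono hτ0 (fun l => (hφL l).le)
    have hgap' : ∑ j, (q (S.a j) - q (S.b j)) ≤ τ := hgap
    have hinjsum : ∀ (f : Fin (N / 2) → Fin n), Function.Injective f → (∀ j, f j ∈ L) →
        ∑ j, q (f j) ≤ ∑ i ∈ L, q i := by
      intro f hf hfL
      have h3 : ∑ j, q (f j) = ∑ i ∈ Finset.univ.map ⟨f, hf⟩, q i := by
        rw [Finset.sum_map]; rfl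
      rw [h3]
      apply Finset.sum_le_sum_of_subset_of_nonneg
      · intro i hi
        simp only [Finset.mem_map, Finset.mem_univ, true_and, Function.Embedding.coeFn_mk] at hi
        obtain ⟨j, hj⟩ := hi
        rw [← hj]; exact hfL j
      · intro i _ _; exact hq.1 i
    have hmemL : ∀ l, φ l ∈ L := fun l => by
      rw [hL, Finset.mem_filter]; exact ⟨Finset.mem_univ _, hφL l⟩
    have hXup : X ≤ ∑ i ∈ L, q i := hinjsum S.b S.binj (fun j => hmemL _)
    have hYup : ∑ j, q (S.a j) ≤ ∑ i ∈ L, q i := hinjsum S.a S.ainj (fun j => hmemL _)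
    set M := ∑ i ∈ L, q i with hM
    have hM0 : 0 < M := by linarith
    apply conclude hq hη (by omega) hτ S (fun j => q (S.b j)) (fun j => hq.1 _)
      (fun j => (hφL _).le) (fun j => (hw j).2) (by linarith) _ hT
    intro σ
    have h1 := S.dH_lower_full hq hfull σ
    have hCS : (∑ j, Real.sqrt (q (S.a j) - q (S.b j)) * Real.sqrt (q (S.a j))) ^ 2 ≤
        (∑ j, (q (S.a j) - q (S.b j))) * ∑ j, q (S.a j) := by
      apply Finset.sum_sq_le_sum_mul_sum_of_sq_le_mul
      · intro j _; have := S.ba j; linarith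
      · intro j _; exact hq.1 _
      · intro j _
        rw [mul_pow, Real.sq_sqrt (by have := S.ba j; linarith), Real.sq_sqrt (hq.1 _)]
    set C := ∑ j, Real.sqrt (q (S.a j) - q (S.b j)) * Real.sqrt (q (S.a j)) with hC
    have hC0 : 0 ≤ C := Finset.sum_nonneg fun j _ =>
      mul_nonneg (Real.sqrt_nonneg _) (Real.sqrt_nonneg _)
    have hC1 : C ^ 2 ≤ (M / 30) ^ 2 := by
      have h2 : (∑ j, (q (S.a j) - q (S.b j))) * ∑ j, q (S.a j) ≤ τ * M := by
        apply mul_le_mul hgap' hYup _ hτ0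
        exact Finset.sum_nonneg fun j _ => hq.1 _
      have h3 : τ * M ≤ (M / 900) * M := mul_le_mul_of_nonneg_right (by linarith) hM0.le
      nlinarith
    have hC2 : C ≤ M / 30 := by
      have := abs_le_of_sq_le_sq hC1 (by positivity)
      exact (le_abs_self _).trans this
    have h2 : ∑ j, (117 / 100 * q (S.b j) -
        22 / 10 * (Real.sqrt (q (S.a j) - q (S.b j)) * Real.sqrt (q (S.a j)))) =
        117 / 100 * X - 22 / 10 * C := by
      rw [Finset.sum_sub_distrib, ← Finset.mul_sum, ← Finset.mul_sum]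
    rw [h2] at h1
    have : ε ^ 2 = η / 4 := by rw [hη]; ring
    rw [this]
    nlinarith

theorem exists_alt' {q : Fin n → ℝ} (hq : IsDist q) (hn : 2 ≤ n) {t : ℝ} (ht0 : 0 ≤ t)
    (ht : t ≤ 29 / 100) : ∃ p, IsDist p ∧ dH p q ^ 2 = t := by
  -- an index of mass at most 1/2
  obtain ⟨i, hi⟩ : ∃ i, q i ≤ 1 / 2 := by
    by_contra hc
    push Not at hc
    have h0 := hc ⟨0, by omega⟩
    have h1 := hc ⟨1, by omega⟩
    have hs : q ⟨0, by omega⟩ + q ⟨1, by omega⟩ ≤ ∑ i, q i := by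
      have h3 : ∑ i ∈ ({⟨0, by omega⟩, ⟨1, by omega⟩} : Finset (Fin n)), q i ≤ ∑ i, q i :=
        Finset.sum_le_sum_of_subset_of_nonneg (Finset.subset_univ _) fun i _ _ => hq.1 i
      rw [Finset.sum_pair (by simp)] at h3
      exact h3
    rw [hq.2] at hs
    linarith
  set φ : ℝ → ℝ := fun s => dH (mix q i s) q ^ 2 with hφ
  have hcont : Continuous φ := by
    have : φ = fun s => (1 / 2) * ∑ l, (Real.sqrt ((1 - s) * q l + s * (if l = i then 1 else 0)) -
        Real.sqrt (q l)) ^ 2 := by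
      funext s
      rw [hφ]
      simp only [dH_sq, mix]
    rw [this]
    fun_prop
  have h0 : φ 0 = 0 := by
    rw [hφ]
    simp [dH_sq, mix]
  have h1 : 29 / 100 ≤ φ 1 := by
    have e : φ 1 = 1 - Real.sqrt (q i) := by
      have h := affinity (mix_isDist hq i zero_le_one le_rfl) hq
      have h2 : ∑ l, Real.sqrt (mix q i 1 l) * Real.sqrt (q l) = Real.sqrt (q i) := by
        rw [Finset.sum_eq_single i]
        · simp [mix]
        · intro l _ hl
          simp [mix, hl]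
        · intro h; exact absurd (Finset.mem_univ _) h
      rw [h2] at h
      rw [hφ]
      simp only
      linarith
    rw [e]
    have h3 : Real.sqrt (q i) ≤ 71 / 100 := by
      rw [Real.sqrt_le_left (by norm_num)]
      linarith
    linarith
  have hmem : t ∈ Set.Icc (φ 0) (φ 1) := ⟨by rw [h0]; exact ht0, ht.trans h1⟩
  obtain ⟨s, hs, hst⟩ := intermediate_value_Icc zero_le_one hcont.continuousOn hmem
  exact ⟨mix q i s, mix_isDist hq i hs.1 hs.2, hst⟩

theorem lower_trivial' {q : Fin n → ℝ} (hq : IsDist q) (hn : 2 ≤ n) {ε : ℝ} (h0 : 0 < ε)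
    (h1 : ε ^ 2 < 1 / 4) {m : ℕ} {T : (Fin m → Fin n) → ℝ} (hT : IsTester q ε T) :
    1 / 36 ≤ m * ε ^ 2 := by
  have he2 : 0 < ε ^ 2 := by positivity
  obtain ⟨p, hp, hpt⟩ := exists_alt' hq hn (t := min (2 * ε ^ 2) (29 / 100))
    (le_min (by positivity) (by norm_num)) (min_le_right _ _)
  have h2 : ε < dH p q := by
    by_contra h
    push Not at h
    have := pow_le_pow_left₀ (dH_nonneg p q) h 2
    rw [hpt] at this
    rcases min_le_iff.1 this with h3 | h3 <;> linarith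
  have h3 := hT.2.2 p hp h2
  have h4 := two_point' hp hq hT.1 hT.2.1 (by linarith)
  rw [hpt] at h4
  have h5 : (m : ℝ) * min (2 * ε ^ 2) (29 / 100) ≤ m * (2 * ε ^ 2) :=
    mul_le_mul_of_nonneg_left (min_le_left _ _) (Nat.cast_nonneg m)
  linarith

theorem lower {q : Fin n → ℝ} (hq : IsDist q) (hn : 2 ≤ n) {ε : ℝ} (h0 : 0 < ε)
    {m : ℕ} {T : (Fin m → Fin n) → ℝ} (hT : IsTester q ε T) :
    Real.sqrt (effSupp q (4 * ε ^ 2)) ≤ 4320 * (m * ε ^ 2) := by
  by_cases h1 : 1 ≤ 4 * ε ^ 2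
  · rw [effSupp_eq_zero h1]
    simp only [Nat.cast_zero, Real.sqrt_zero]
    positivity
  · push Not at h1
    by_cases h4 : 14400 ≤ effSupp q (4 * ε ^ 2)
    · have h5 := lower_main hq h0 rfl h4 hT
      have : (0 : ℝ) ≤ m * ε ^ 2 := by positivity
      linarith
    · push Not at h4
      have h5 := lower_trivial' hq hn h0 (by linarith) hT
      have h6 : Real.sqrt (effSupp q (4 * ε ^ 2)) ≤ 120 := by
        rw [Real.sqrt_le_left (by norm_num)]
        have : effSupp q (4 * ε ^ 2) ≤ 14400 := by omega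
        have h7 : ((effSupp q (4 * ε ^ 2) : ℕ) : ℝ) ≤ 14400 := by exact_mod_cast this
        linarith
      linarith

end Pool.Agent.H40.Hell
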