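import Pool.Agent.H40.HellTwo

set_option autoImplicit false

open Finset

namespace Pool.Agent.H40.Hell

variable {n : ℕ}

/-- second moment method for a uniform mixture of alternatives -/
theorem mixture {ι : Type*} [Fintype ι] [Nonempty ι] {m : ℕ} {q : Fin n → ℝ} (hq : IsDist q)
    (R : ι → Fin n → ℝ) (hR : ∀ σ, IsDist (fun i => q i * R σ i))
    {T : (Fin m → Fin n) → ℝ} (hT : ∀ x, 0 ≤ T x ∧ T x ≤ 1) (h1 : 2 / 3 ≤ acceptProb q T)
    (h2 : ∀ σ, acceptProb (fun i => q i * R σ i) T ≤ 1 / 3) :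
    (10 / 9 : ℝ) * (Fintype.card ι : ℝ) ^ 2 ≤
      ∑ σ, ∑ σ', (∑ i, q i * (R σ i * R σ' i)) ^ m := by
  set N : ℝ := (Fintype.card ι : ℝ) with hN
  have hN0 : 0 < N := by rw [hN]; exact_mod_cast Fintype.card_pos
  set L : (Fin m → Fin n) → ℝ := fun x => N⁻¹ * ∑ σ, ∏ l, R σ (x l) with hL
  have hLf : ∀ f : (Fin m → Fin n) → ℝ, acceptProb q (fun x => L x * f x) =
      N⁻¹ * ∑ σ, acceptProb (fun i => q i * R σ i) f := by
    intro f
    have e : (fun x => L x * f x) = fun x => N⁻¹ * ∑ σ, (∏ l, R σ (x l)) * f x := by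
      funext x
      rw [hL]
      simp only
      rw [mul_assoc, Finset.sum_mul]
    rw [e, acceptProb_mul_left, acceptProb_sum]
    congr 1
    refine Finset.sum_congr rfl fun σ _ => ?_
    unfold acceptProb
    refine Finset.sum_congr rfl fun x _ => ?_
    rw [Finset.prod_mul_distrib]
    ring
  have hL1 : acceptProb q L = 1 := by
    have h := hLf (fun _ => 1)
    simp only [mul_one] at h
    have e : (fun x => L x) = L := rfl
    rw [e] at h
    rw [h]
    have h3 : ∀ σ, acceptProb (fun i => q i * R σ i) (fun _ : Fin m → Fin n => (1 : ℝ)) = 1 :=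
      fun σ => acceptProb_one (hR σ).2
    simp only [h3]
    rw [Finset.sum_const, Finset.card_univ, nsmul_eq_mul, mul_one]
    exact inv_mul_cancel₀ hN0.ne'
  have hL2 : acceptProb q (fun x => L x * L x) =
      N⁻¹ * N⁻¹ * ∑ σ, ∑ σ', (∑ i, q i * (R σ i * R σ' i)) ^ m := by
    have e : (fun x => L x * L x) = fun x : Fin m → Fin n =>
        (N⁻¹ * N⁻¹) * ∑ σ, ∑ σ', ∏ l, (R σ (x l) * R σ' (x l)) := by
      funext x
      rw [hL]
      simp only
      have : N⁻¹ * ∑ σ, ∏ l, R σ (x l) * (N⁻¹ * ∑ σ, ∏ l, R σ (x l)) =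
        N⁻¹ * ∑ σ, ∏ l, R σ (x l) * (N⁻¹ * ∑ σ, ∏ l, R σ (x l)) := rfl
      calc (N⁻¹ * ∑ σ, ∏ l, R σ (x l)) * (N⁻¹ * ∑ σ, ∏ l, R σ (x l))
          = (N⁻¹ * N⁻¹) * ((∑ σ, ∏ l, R σ (x l)) * (∑ σ, ∏ l, R σ (x l))) := by ring
        _ = _ := by
          rw [Finset.sum_mul_sum]
          congr 1
          refine Finset.sum_congr rfl fun σ _ => Finset.sum_congr rfl fun σ' _ => ?_
          rw [Finset.prod_mul_distrib]
    rw [e, acceptProb_mul_left, acceptProb_sum]
    congr 1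
    refine Finset.sum_congr rfl fun σ _ => ?_
    rw [acceptProb_sum]
    refine Finset.sum_congr rfl fun σ' _ => ?_
    rw [acceptProb_prod q (fun _ i => R σ i * R σ' i)]
    simp
  have hLT : acceptProb q (fun x => L x * T x) ≤ 1 / 3 := by
    rw [hLf]
    have h3 : ∑ σ, acceptProb (fun i => q i * R σ i) T ≤ ∑ _σ : ι, (1 / 3 : ℝ) :=
      Finset.sum_le_sum fun σ _ => h2 σ
    rw [Finset.sum_const, Finset.card_univ, nsmul_eq_mul, ← hN] at h3
    rw [inv_mul_le_iff₀ hN0]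
    exact h3
  -- AM-GM
  have h4 : acceptProb q (fun x => (1 - L x) * T x) ≤
      acceptProb q (fun x => (3 / 2) * ((1 - L x) * (1 - L x)) + (1 / 6)) := by
    apply acceptProb_mono hq.1
    intro x
    have h5 : (T x) ^ 2 ≤ 1 := pow_le_one₀ (hT x).1 (hT x).2
    nlinarith [sq_nonneg (3 * (1 - L x) - T x)]
  have h5 : acceptProb q (fun x => (1 - L x) * T x) =
      acceptProb q T - acceptProb q (fun x => L x * T x) := by
    rw [← acceptProb_sub]
    congr 1
    funext x; ring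
  have h6 : acceptProb q (fun x => (3 / 2) * ((1 - L x) * (1 - L x)) + (1 / 6)) =
      (3 / 2) * (acceptProb q (fun x => L x * L x) - 1) + 1 / 6 := by
    have e : (fun x => (3 / 2 : ℝ) * ((1 - L x) * (1 - L x)) + (1 / 6)) =
        fun x => (3 / 2) * (L x * L x) + ((-3) * L x + (5 / 3)) := by
      funext x; ring
    rw [e, acceptProb_add, acceptProb_add, acceptProb_mul_left, acceptProb_mul_left,
      acceptProb_const hq.2, hL1]
    ring
  have h7 : (10 / 9 : ℝ) ≤ acceptProb q (fun x => L x * L x) := by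
    rw [h5, h6] at h4
    linarith
  rw [hL2] at h7
  have h8 : N⁻¹ * N⁻¹ * ∑ σ, ∑ σ', (∑ i, q i * (R σ i * R σ' i)) ^ m =
      (∑ σ, ∑ σ', (∑ i, q i * (R σ i * R σ' i)) ^ m) / N ^ 2 := by
    field_simp
  rw [h8, le_div_iff₀ (by positivity)] at h7
  exact h7

/-- sign of a unit of `ℤ` as a real number -/
def sg (u : ℤˣ) : ℝ := ((u : ℤ) : ℝ)

theorem sg_mul (u v : ℤˣ) : sg (u * v) = sg u * sg v := by
  unfold sg; push_cast; ring

theorem sg_cases (u : ℤˣ) : sg u = 1 ∨ sg u = -1 := by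
  rcases Int.units_eq_one_or u with h | h <;> simp [h, sg]

theorem sg_sq (u : ℤˣ) : sg u * sg u = 1 := by
  rcases sg_cases u with h | h <;> simp [h]

theorem abs_sg (u : ℤˣ) : |sg u| = 1 := by
  rcases sg_cases u with h | h <;> simp [h]

theorem sum_units_exp (y : ℝ) : ∑ u : ℤˣ, Real.exp (sg u * y) = 2 * Real.cosh y := by
  rw [Real.cosh_eq]
  have h : (Finset.univ : Finset ℤˣ) = {1, -1} := by decide
  rw [h, Finset.sum_pair (by decide)]
  simp [sg]
  ring

/-- exponential moment bound for the sign average -/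
theorem sign_sum_le {J : Type*} [Fintype J] [DecidableEq J] (m : ℕ) (w : J → ℝ)
    (h : ∀ τ : J → ℤˣ, 0 ≤ 1 + ∑ j, sg (τ j) * w j) :
    ∑ τ : J → ℤˣ, (1 + ∑ j, sg (τ j) * w j) ^ m ≤
      (Fintype.card (J → ℤˣ) : ℝ) * Real.exp ((m : ℝ) ^ 2 * (∑ j, w j ^ 2) / 2) := by
  have h1 : ∑ τ : J → ℤˣ, (1 + ∑ j, sg (τ j) * w j) ^ m ≤
      ∑ τ : J → ℤˣ, ∏ j, Real.exp (sg (τ j) * (m * w j)) := by
    apply Finset.sum_le_sum
    intro τ _
    rw [← Real.exp_sum]
    have h2 : 1 + ∑ j, sg (τ j) * w j ≤ Real.exp (∑ j, sg (τ j) * w j) := by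
      have := Real.add_one_le_exp (∑ j, sg (τ j) * w j)
      linarith
    have h3 := pow_le_pow_left₀ (h τ) h2 m
    rw [← Real.exp_nat_mul, Finset.mul_sum] at h3
    refine h3.trans (le_of_eq ?_)
    congr 1
    exact Finset.sum_congr rfl fun j _ => by ring
  have h4 : ∑ τ : J → ℤˣ, ∏ j, Real.exp (sg (τ j) * (m * w j)) =
      ∏ j, ∑ u : ℤˣ, Real.exp (sg u * (m * w j)) := by
    rw [Finset.prod_univ_sum, Fintype.piFinset_univ]
  rw [h4] at h1
  refine h1.trans ?_
  have h5 : ∏ j, ∑ u : ℤˣ, Real.exp (sg u * (m * w j)) ≤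
      ∏ j : J, (2 * Real.exp ((m * w j) ^ 2 / 2)) := by
    apply Finset.prod_le_prod
    · intro j _
      exact Finset.sum_nonneg fun u _ => (Real.exp_pos _).le
    · intro j _
      rw [sum_units_exp]
      have := Real.cosh_le_exp_half_sq (m * w j)
      linarith
  refine h5.trans (le_of_eq ?_)
  rw [Finset.prod_mul_distrib, Finset.prod_const, ← Real.exp_sum]
  congr 1
  · rw [Fintype.card_fun]
    simp
  · congr 1
    rw [Finset.mul_sum, Finset.sum_div]
    exact Finset.sum_congr rfl fun j _ => by ring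

/-- the double sum over signs reduces to a single one -/
theorem sign_double {J : Type*} [Fintype J] [DecidableEq J] (F : (J → ℤˣ) → ℝ) :
    ∑ σ : J → ℤˣ, ∑ σ' : J → ℤˣ, F (σ * σ') = (Fintype.card (J → ℤˣ) : ℝ) * ∑ τ, F τ := by
  have h : ∀ σ : J → ℤˣ, ∑ σ' : J → ℤˣ, F (σ * σ') = ∑ τ, F τ := by
    intro σ
    exact Equiv.sum_comp (Equiv.mulLeft σ) F
  simp only [h]
  rw [Finset.sum_const, Finset.card_univ, nsmul_eq_mul]

end Pool.Agent.H40.Hell
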