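import Pool.Agent.H40.HellMix

set_option autoImplicit false

open Finset

namespace Pool.Agent.H40.Hell

variable {n : ℕ}

/-- pairs of atoms with amplitudes -/
structure Pairs (q : Fin n → ℝ) (J : Type) where
  a : J → Fin n
  b : J → Fin n
  e : J → ℝ
  ainj : Function.Injective a
  binj : Function.Injective b
  ab : ∀ j j', a j ≠ b j'
  e0 : ∀ j, 0 ≤ e j
  eb : ∀ j, e j ≤ q (b j)
  ba : ∀ j, q (b j) ≤ q (a j)

namespace Pairs

variable {q : Fin n → ℝ} {J : Type} [Fintype J] [DecidableEq J]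

/-- elementary perturbation -/
def v (S : Pairs q J) (j : J) (i : Fin n) : ℝ :=
  S.e j * ((if i = S.b j then 1 else 0) - (if i = S.a j then 1 else 0))

omit [Fintype J] [DecidableEq J] in
theorem v_sum (S : Pairs q J) (j : J) : ∑ i, S.v j i = 0 := by
  unfold v
  rw [← Finset.mul_sum, Finset.sum_sub_distrib]
  simp

omit [Fintype J] [DecidableEq J] in
theorem v_mul (S : Pairs q J) {j j' : J} (h : j ≠ j') (i : Fin n) : S.v j i * S.v j' i = 0 := by
  unfold v
  by_cases h1 : i = S.b j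
  · have h2 : i ≠ S.b j' := fun h2 => h (S.binj (h1.symm.trans h2))
    have h3 : i ≠ S.a j' := fun h3 => S.ab j' j (h3.symm.trans h1)
    simp [h2, h3]
  · by_cases h4 : i = S.a j
    · have h2 : i ≠ S.b j' := fun h2 => S.ab j j' (h4.symm.trans h2)
      have h3 : i ≠ S.a j' := fun h3 => h (S.ainj (h4.symm.trans h3))
      simp [h2, h3]
    · simp [h1, h4]

omit [Fintype J] [DecidableEq J] in
theorem abs_v_le (S : Pairs q J) (j : J) (i : Fin n) : |S.v j i| ≤ q i ∨ S.v j i = 0 := by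
  unfold v
  have he := S.e0 j
  by_cases h1 : i = S.b j
  · have h2 : i ≠ S.a j := fun h2 => S.ab j j (h2.symm.trans h1)
    left
    simp only [h1, if_true]
    have h3 : S.b j ≠ S.a j := fun h => S.ab j j h.symm
    simp only [h3, if_false, sub_zero, mul_one, abs_of_nonneg he]
    exact S.eb j
  · by_cases h2 : i = S.a j
    · left
      subst h2
      simp only [h1, if_false, if_true, zero_sub, mul_neg, mul_one, abs_neg, abs_of_nonneg he]
      exact (S.eb j).trans (S.ba j)
    · right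
      simp [h1, h2]

/-- total perturbation for a sign vector -/
noncomputable def pert (S : Pairs q J) (σ : J → ℤˣ) (i : Fin n) : ℝ := ∑ j, sg (σ j) * S.v j i

omit [DecidableEq J] in
theorem pert_single (S : Pairs q J) (σ : J → ℤˣ) (i : Fin n) :
    S.pert σ i = 0 ∨ ∃ j, S.v j i ≠ 0 ∧ S.pert σ i = sg (σ j) * S.v j i := by
  by_cases h : ∃ j, S.v j i ≠ 0
  · obtain ⟨j, hj⟩ := h
    right
    refine ⟨j, hj, ?_⟩
    unfold pert
    rw [Finset.sum_eq_single j]
    · intro j' _ hj'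
      have := S.v_mul hj' i
      rcases mul_eq_zero.1 this with h | h
      · rw [h, mul_zero]
      · exact absurd h hj
    · intro h; exact absurd (Finset.mem_univ _) h
  · left
    push Not at h
    unfold pert
    exact Finset.sum_eq_zero fun j _ => by rw [h j, mul_zero]

omit [DecidableEq J] in
theorem abs_pert_le (S : Pairs q J) (hq : ∀ i, 0 ≤ q i) (σ : J → ℤˣ) (i : Fin n) :
    |S.pert σ i| ≤ q i := by
  rcases S.pert_single σ i with h | ⟨j, hj, h⟩
  · rw [h, abs_zero]; exact hq i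
  · rw [h, abs_mul, abs_sg, one_mul]
    rcases S.abs_v_le j i with h1 | h1
    · exact h1
    · exact absurd h1 hj

omit [DecidableEq J] in
theorem pert_sum (S : Pairs q J) (σ : J → ℤˣ) : ∑ i, S.pert σ i = 0 := by
  unfold pert
  rw [Finset.sum_comm]
  apply Finset.sum_eq_zero
  intro j _
  rw [← Finset.mul_sum, S.v_sum, mul_zero]

/-- density of the alternative with respect to `q` -/
noncomputable def R (S : Pairs q J) (σ : J → ℤˣ) (i : Fin n) : ℝ := 1 + S.pert σ i / q i

theorem q_mul_R (S : Pairs q J) (hq : ∀ i, 0 ≤ q i) (σ : J → ℤˣ) (i : Fin n) :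
    q i * S.R σ i = q i + S.pert σ i := by
  unfold R
  by_cases h : q i = 0
  · have h1 := S.abs_pert_le hq σ i
    rw [h] at h1
    have h2 : S.pert σ i = 0 := abs_nonpos_iff.1 h1
    rw [h, h2]; simp
  · field_simp

theorem R_nonneg (S : Pairs q J) (hq : ∀ i, 0 ≤ q i) (σ : J → ℤˣ) (i : Fin n) :
    0 ≤ S.R σ i := by
  unfold R
  by_cases h : q i = 0
  · rw [h]; simp
  · have h0 : 0 < q i := lt_of_le_of_ne (hq i) (Ne.symm h)
    have h1 := (abs_le.1 (S.abs_pert_le hq σ i)).1
    have h2 : -1 ≤ S.pert σ i / q i := by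
      rw [le_div_iff₀ h0]; linarith
    linarith

theorem isDist (S : Pairs q J) (hq : IsDist q) (σ : J → ℤˣ) :
    IsDist (fun i => q i * S.R σ i) := by
  constructor
  · intro i
    exact mul_nonneg (hq.1 i) (S.R_nonneg hq.1 σ i)
  · simp only [S.q_mul_R hq.1]
    rw [Finset.sum_add_distrib, hq.2, S.pert_sum, add_zero]

/-- weights -/
noncomputable def w (S : Pairs q J) (j : J) : ℝ := ∑ i, S.v j i ^ 2 / q i

theorem inner_R (S : Pairs q J) (hq : IsDist q) (σ σ' : J → ℤˣ) :
    ∑ i, q i * (S.R σ i * S.R σ' i) = 1 + ∑ j, sg ((σ * σ') j) * S.w j := by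
  have h1 : ∀ i, q i * (S.R σ i * S.R σ' i) =
      q i + S.pert σ i + S.pert σ' i + S.pert σ i * S.pert σ' i / q i := by
    intro i
    by_cases h : q i = 0
    · have h1 := S.abs_pert_le hq.1 σ i
      have h2 := S.abs_pert_le hq.1 σ' i
      rw [h] at h1 h2
      have h3 : S.pert σ i = 0 := abs_nonpos_iff.1 h1
      have h4 : S.pert σ' i = 0 := abs_nonpos_iff.1 h2
      rw [h, h3, h4]; simp
    · unfold R
      field_simp
      ring
  simp only [h1]
  rw [Finset.sum_add_distrib, Finset.sum_add_distrib, Finset.sum_add_distrib, hq.2,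
    S.pert_sum, S.pert_sum, add_zero, add_zero]
  congr 1
  have h2 : ∀ i, S.pert σ i * S.pert σ' i / q i =
      ∑ j, sg ((σ * σ') j) * (S.v j i ^ 2 / q i) := by
    intro i
    have h3 : S.pert σ i * S.pert σ' i = ∑ j, sg ((σ * σ') j) * S.v j i ^ 2 := by
      unfold pert
      rw [Finset.sum_mul_sum]
      refine Finset.sum_congr rfl fun j _ => ?_
      rw [Finset.sum_eq_single j]
      · rw [Pi.mul_apply, sg_mul]; ring
      · intro j' _ hj'
        have := S.v_mul hj' i
        calc sg (σ j) * S.v j i * (sg (σ' j') * S.v j' i) =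
            sg (σ j) * sg (σ' j') * (S.v j' i * S.v j i) := by ring
          _ = 0 := by rw [this, mul_zero]
      · intro h; exact absurd (Finset.mem_univ _) h
    rw [h3, Finset.sum_div]
    exact Finset.sum_congr rfl fun j _ => by ring
  simp only [h2]
  rw [Finset.sum_comm]
  refine Finset.sum_congr rfl fun j _ => ?_
  rw [w, Finset.mul_sum]

omit [Fintype J] [DecidableEq J] in
theorem w_eq (S : Pairs q J) (j : J) : S.w j = S.e j ^ 2 / q (S.b j) + S.e j ^ 2 / q (S.a j) := by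
  unfold w
  have h : ∀ i, S.v j i ^ 2 / q i = (if i = S.b j then S.e j ^ 2 / q (S.b j) else 0) +
      (if i = S.a j then S.e j ^ 2 / q (S.a j) else 0) := by
    intro i
    unfold v
    by_cases h1 : i = S.b j
    · have h2 : i ≠ S.a j := fun h2 => S.ab j j (h2.symm.trans h1)
      have h3 : S.b j ≠ S.a j := fun h => S.ab j j h.symm
      subst h1
      simp [h3]
    · by_cases h2 : i = S.a j
      · subst h2
        simp [h1]
      · simp [h1, h2]
  simp only [h]
  rw [Finset.sum_add_distrib]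
  simp

/-- main consequence: second moment bound for a tester -/
theorem tester_bound (S : Pairs q J) (hq : IsDist q) {m : ℕ}
    {T : (Fin m → Fin n) → ℝ} (hT : ∀ x, 0 ≤ T x ∧ T x ≤ 1) (h1 : 2 / 3 ≤ acceptProb q T)
    (h2 : ∀ σ : J → ℤˣ, acceptProb (fun i => q i * S.R σ i) T ≤ 1 / 3) :
    1 / 5 ≤ (m : ℝ) ^ 2 * ∑ j, S.w j ^ 2 := by
  have h3 := mixture hq S.R (S.isDist hq) hT h1 h2
  simp only [S.inner_R hq] at h3
  rw [sign_double (fun τ => (1 + ∑ j, sg (τ j) * S.w j) ^ m)] at h3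
  have hpos : ∀ τ : J → ℤˣ, 0 ≤ 1 + ∑ j, sg (τ j) * S.w j := by
    intro τ
    have h4 := S.inner_R hq τ 1
    rw [mul_one] at h4
    rw [← h4]
    exact Finset.sum_nonneg fun i _ =>
      mul_nonneg (hq.1 i) (mul_nonneg (S.R_nonneg hq.1 τ i) (S.R_nonneg hq.1 1 i))
  have h4 := sign_sum_le m S.w hpos
  set N : ℝ := (Fintype.card (J → ℤˣ) : ℝ) with hN
  have hN0 : 0 < N := by rw [hN]; exact_mod_cast Fintype.card_pos
  have h5 : (10 / 9 : ℝ) ≤ Real.exp ((m : ℝ) ^ 2 * (∑ j, S.w j ^ 2) / 2) := by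
    have h6 := mul_le_mul_of_nonneg_left h4 hN0.le
    have h7 : (10 / 9 : ℝ) * N ^ 2 ≤ N ^ 2 * Real.exp ((m : ℝ) ^ 2 * (∑ j, S.w j ^ 2) / 2) := by
      calc (10 / 9 : ℝ) * N ^ 2 ≤ _ := h3
        _ ≤ _ := h6
        _ = _ := by ring
    have hN2 : 0 < N ^ 2 := by positivity
    nlinarith
  by_contra hc
  push Not at hc
  set y := (m : ℝ) ^ 2 * (∑ j, S.w j ^ 2) / 2 with hy
  have hy1 : y < 1 / 10 := by rw [hy]; linarith
  have h6 := Real.add_one_le_exp (-y)
  have h7 : Real.exp (-y) * Real.exp y = 1 := by rw [← Real.exp_add]; simp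
  have h8 := Real.exp_pos y
  nlinarith

theorem sqrt_pert_lower {x e : ℝ} (hx : 0 < x) (he : e ^ 2 ≤ x ^ 2) (u : ℝ) (hu : u = e ∨ u = -e)
    (he0 : 0 ≤ e) :
    e ^ 2 / x / 6 ≤ (Real.sqrt (x + u) - Real.sqrt x) ^ 2 := by
  have hex : e ≤ x := by
    by_contra h
    push Not at h
    have := pow_lt_pow_left₀ h hx.le (by norm_num : (2 : ℕ) ≠ 0)
    linarith
  have hu1 : 0 ≤ x + u := by rcases hu with h | h <;> rw [h] <;> linarith
  have hu2 : x + u ≤ 2 * x := by rcases hu with h | h <;> rw [h] <;> linarith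
  have hus : u ^ 2 = e ^ 2 := by rcases hu with h | h <;> rw [h] ; ring
  have h1 := Real.mul_self_sqrt hu1
  have h2 := Real.mul_self_sqrt hx.le
  have h3 := Real.sqrt_nonneg (x + u)
  have h4 := Real.sqrt_nonneg x
  have h5 : (Real.sqrt (x + u) - Real.sqrt x) * (Real.sqrt (x + u) + Real.sqrt x) = u := by
    ring_nf
    rw [Real.sq_sqrt hu1, Real.sq_sqrt hx.le]
    ring
  have h6 : (Real.sqrt (x + u) + Real.sqrt x) ^ 2 ≤ 6 * x := by
    nlinarith [sq_nonneg (Real.sqrt (x + u) - Real.sqrt x)]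
  rw [div_div, div_le_iff₀ (by positivity)]
  have h7 : e ^ 2 = ((Real.sqrt (x + u) - Real.sqrt x) * (Real.sqrt (x + u) + Real.sqrt x)) ^ 2 := by
    rw [h5, hus]
  rw [h7, mul_pow]
  calc (Real.sqrt (x + u) - Real.sqrt x) ^ 2 * (Real.sqrt (x + u) + Real.sqrt x) ^ 2
      ≤ (Real.sqrt (x + u) - Real.sqrt x) ^ 2 * (6 * x) :=
        mul_le_mul_of_nonneg_left h6 (sq_nonneg _)
    _ = (Real.sqrt (x + u) - Real.sqrt x) ^ 2 * (x * 6) := by ring

theorem dH_lower (S : Pairs q J) (hq : IsDist q) (σ : J → ℤˣ) :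
    (1 / 12) * ∑ j, S.e j ^ 2 / q (S.b j) ≤ dH (fun i => q i * S.R σ i) q ^ 2 := by
  rw [dH_sq]
  simp only [S.q_mul_R hq.1]
  have h1 : ∑ j, S.e j ^ 2 / q (S.b j) / 6 ≤
      ∑ j, (Real.sqrt (q (S.b j) + S.pert σ (S.b j)) - Real.sqrt (q (S.b j))) ^ 2 := by
    apply Finset.sum_le_sum
    intro j _
    by_cases h : q (S.b j) = 0
    · rw [h, div_zero, zero_div]; exact sq_nonneg _
    · have h0 : 0 < q (S.b j) := lt_of_le_of_ne (hq.1 _) (Ne.symm h)
      apply sqrt_pert_lower h0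
      · exact pow_le_pow_left₀ (S.e0 j) (S.eb j) 2
      · have hb : S.b j ≠ S.a j := fun h => S.ab j j h.symm
        have h3 : S.pert σ (S.b j) = sg (σ j) * S.e j := by
          unfold pert
          rw [Finset.sum_eq_single j]
          · unfold v
            simp [hb]
          · intro j' _ hj'
            have h4 : S.b j ≠ S.b j' := fun h => hj' (S.binj h.symm)
            have h5 : S.b j ≠ S.a j' := fun h => S.ab j' j h.symm
            unfold v
            simp [h4, h5]
          · intro h; exact absurd (Finset.mem_univ _) h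
        rw [h3]
        rcases sg_cases (σ j) with h6 | h6 <;> rw [h6]
        · left; ring
        · right; ring
      · exact S.e0 j
  have h2 : ∑ j, (Real.sqrt (q (S.b j) + S.pert σ (S.b j)) - Real.sqrt (q (S.b j))) ^ 2 ≤
      ∑ i, (Real.sqrt (q i + S.pert σ i) - Real.sqrt (q i)) ^ 2 := by
    have h3 : ∑ j, (Real.sqrt (q (S.b j) + S.pert σ (S.b j)) - Real.sqrt (q (S.b j))) ^ 2 =
        ∑ i ∈ Finset.univ.map ⟨S.b, S.binj⟩,
          (Real.sqrt (q i + S.pert σ i) - Real.sqrt (q i)) ^ 2 := by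
      rw [Finset.sum_map]; rfl
    rw [h3]
    exact Finset.sum_le_sum_of_subset_of_nonneg (Finset.subset_univ _) fun i _ _ => sq_nonneg _
  rw [← Finset.sum_div] at h1
  linarith

end Pairs

end Pool.Agent.H40.Hell
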