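import Pool.Agent.H40.HellUpper

set_option autoImplicit false

open Finset

namespace Pool.Agent.H40.Hell

variable {n : ℕ}

theorem effSupp_nonempty {q : Fin n → ℝ} (hq : IsDist q) {η : ℝ} (hη : 0 ≤ η) :
    {k : ℕ | ∃ S : Finset (Fin n), S.card = k ∧ 1 - η ≤ ∑ i ∈ S, q i}.Nonempty :=
  ⟨_, Finset.univ, rfl, by rw [hq.2]; linarith⟩

theorem effSupp_spec {q : Fin n → ℝ} (hq : IsDist q) {η : ℝ} (hη : 0 ≤ η) :
    ∃ S : Finset (Fin n), S.card = effSupp q η ∧ 1 - η ≤ ∑ i ∈ S, q i :=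
  Nat.sInf_mem (effSupp_nonempty hq hη)

theorem effSupp_le {q : Fin n → ℝ} {η : ℝ} {S : Finset (Fin n)} (h : 1 - η ≤ ∑ i ∈ S, q i) :
    effSupp q η ≤ S.card := Nat.sInf_le ⟨S, rfl, h⟩

theorem effSupp_anti {q : Fin n → ℝ} (hq : IsDist q) {η η' : ℝ} (hη : 0 ≤ η) (h : η ≤ η') :
    effSupp q η' ≤ effSupp q η := by
  obtain ⟨S, hS, hS'⟩ := effSupp_spec hq hη
  rw [← hS]
  exact effSupp_le (by linarith)

theorem effSupp_pos {q : Fin n → ℝ} (hq : IsDist q) {η : ℝ} (hη : 0 ≤ η) (h1 : η < 1) :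
    1 ≤ effSupp q η := by
  obtain ⟨S, hS, hS'⟩ := effSupp_spec hq hη
  rw [← hS]
  by_contra h
  have h0 : S.card = 0 := by omega
  rw [Finset.card_eq_zero] at h0
  rw [h0, Finset.sum_empty] at hS'
  linarith

theorem effSupp_eq_zero {q : Fin n → ℝ} {η : ℝ} (h1 : 1 ≤ η) : effSupp q η = 0 := by
  have : effSupp q η ≤ (∅ : Finset (Fin n)).card := effSupp_le (by simp; exact h1)
  simpa using this

/-- the split used in the upper bound -/
theorem exists_split {q : Fin n → ℝ} (hq : IsDist q) {ε : ℝ} (h0 : 0 < ε) (h1 : ε ≤ 1) :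
    ∃ A : Finset (Fin n), Split q ε A (effSupp q (ε ^ 2 / 100)) := by
  classical
  have he2 : ε ^ 2 ≤ 1 := pow_le_one₀ h0.le h1
  have hη : 0 ≤ ε ^ 2 / 100 := by positivity
  obtain ⟨S, hS, hS'⟩ := effSupp_spec hq hη
  have hk := effSupp_pos hq hη (by linarith)
  set k := effSupp q (ε ^ 2 / 100) with hkdef
  have hk0 : (0 : ℝ) < k := by
    have : (1 : ℝ) ≤ k := by exact_mod_cast hk
    linarith
  refine ⟨S.filter (fun i => ε ^ 2 / (100 * k) ≤ q i), hq.1, hq.2, h0, h1, hk, ?_, ?_, ?_⟩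
  · rw [← hS]; exact Finset.card_filter_le _ _
  · intro i hi
    exact (Finset.mem_filter.1 hi).2
  · set A := S.filter (fun i => ε ^ 2 / (100 * k) ≤ q i) with hA
    have hAS : A ⊆ S := Finset.filter_subset _ _
    have e1 : ∑ i ∈ Aᶜ, q i = ∑ i ∈ Sᶜ, q i + ∑ i ∈ S \ A, q i := by
      have h2 := Finset.sum_add_sum_compl A q
      have h3 := Finset.sum_add_sum_compl S q
      have h4 := Finset.sum_sdiff (f := q) hAS
      linarith
    have e2 : ∑ i ∈ Sᶜ, q i ≤ ε ^ 2 / 100 := by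
      have h3 := Finset.sum_add_sum_compl S q
      rw [hq.2] at h3
      linarith
    have e3 : ∑ i ∈ S \ A, q i ≤ ε ^ 2 / 100 := by
      have h4 : ∑ i ∈ S \ A, q i ≤ ∑ i ∈ S \ A, ε ^ 2 / (100 * k) := by
        apply Finset.sum_le_sum
        intro i hi
        rw [Finset.mem_sdiff, hA, Finset.mem_filter, not_and] at hi
        exact (not_le.1 (hi.2 hi.1)).le
      rw [Finset.sum_const, nsmul_eq_mul] at h4
      have h5 : ((S \ A).card : ℝ) ≤ k := by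
        have : (S \ A).card ≤ S.card := Finset.card_le_card Finset.sdiff_subset
        rw [hS] at this
        exact_mod_cast this
      have h6 : ((S \ A).card : ℝ) * (ε ^ 2 / (100 * k)) ≤ k * (ε ^ 2 / (100 * k)) :=
        mul_le_mul_of_nonneg_right h5 (by positivity)
      have h7 : (k : ℝ) * (ε ^ 2 / (100 * k)) = ε ^ 2 / 100 := by field_simp
      linarith
    linarith

theorem upper {q : Fin n → ℝ} (hq : IsDist q) {ε : ℝ} (h0 : 0 < ε) (h1 : ε ≤ 1) :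
    ∃ m : ℕ, (∃ T : (Fin m → Fin n) → ℝ, IsTester q ε T) ∧
      (m : ℝ) ≤ 602 * (Real.sqrt (effSupp q (ε ^ 2 / 100)) / ε ^ 2) := by
  obtain ⟨A, hA⟩ := exists_split hq h0 h1
  set k := effSupp q (ε ^ 2 / 100) with hk
  have he2 : 0 < ε ^ 2 := by positivity
  set m := ⌈300 * Real.sqrt k / ε ^ 2⌉₊ with hm
  have h2 : 300 * Real.sqrt k ≤ m * ε ^ 2 := by
    rw [← div_le_iff₀ he2]
    exact Nat.le_ceil _
  refine ⟨m + m, exists_tester_of_split hA h2, ?_⟩
  have h3 : (m : ℝ) < 300 * Real.sqrt k / ε ^ 2 + 1 := Nat.ceil_lt_add_one (by positivity)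
  have hs : (1 : ℝ) ≤ Real.sqrt k := by
    rw [Real.one_le_sqrt]; exact_mod_cast hA.k1
  have h4 : (1 : ℝ) ≤ Real.sqrt k / ε ^ 2 := by
    rw [le_div_iff₀ he2]
    have : ε ^ 2 ≤ 1 := pow_le_one₀ h0.le h1
    linarith
  have h5 : 300 * Real.sqrt k / ε ^ 2 = 300 * (Real.sqrt k / ε ^ 2) := by ring
  push_cast
  linarith

end Pool.Agent.H40.Hell
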