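import Pool.Agent.H40.HellSupp

set_option autoImplicit false

open Finset

namespace Pool.Agent.H40.Hell

variable {n : ℕ}

theorem prod_nonneg' {m : ℕ} {p : Fin n → ℝ} (hp : ∀ i, 0 ≤ p i) (x : Fin m → Fin n) :
    0 ≤ ∏ j, p (x j) := Finset.prod_nonneg fun _ _ => hp _

theorem sum_prod_eq_one {m : ℕ} {p : Fin n → ℝ} (hp : IsDist p) :
    ∑ x : Fin m → Fin n, ∏ j, p (x j) = 1 := by
  have := acceptProb_one (m := m) hp.2
  unfold acceptProb at this
  simpa using this

theorem affinity {p q : Fin n → ℝ} (hp : IsDist p) (hq : IsDist q) :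
    ∑ i, Real.sqrt (p i) * Real.sqrt (q i) = 1 - dH p q ^ 2 := by
  rw [dH_sq]
  have h : ∀ i, (Real.sqrt (p i) - Real.sqrt (q i)) ^ 2 =
      p i + q i - 2 * (Real.sqrt (p i) * Real.sqrt (q i)) := by
    intro i
    have h1 := Real.mul_self_sqrt (hp.1 i)
    have h2 := Real.mul_self_sqrt (hq.1 i)
    nlinarith
  simp only [h]
  rw [Finset.sum_sub_distrib, Finset.sum_add_distrib, hp.2, hq.2, ← Finset.mul_sum]
  ring

/-- two-point bound: a tester with `m` samples and an alternative at distance `h` give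
`(1 - h^2)^(2m) ≤ 8/9` -/
theorem two_point {m : ℕ} {p q : Fin n → ℝ} (hp : IsDist p) (hq : IsDist q)
    {T : (Fin m → Fin n) → ℝ} (hT : ∀ x, 0 ≤ T x ∧ T x ≤ 1) (h1 : 2 / 3 ≤ acceptProb q T)
    (h2 : acceptProb p T ≤ 1 / 3) : (1 - dH p q ^ 2) ^ (2 * m) ≤ 8 / 9 := by
  set P : (Fin m → Fin n) → ℝ := fun x => ∏ j, p (x j) with hP
  set Q : (Fin m → Fin n) → ℝ := fun x => ∏ j, q (x j) with hQ
  have hP0 : ∀ x, 0 ≤ P x := fun x => prod_nonneg' hp.1 x
  have hQ0 : ∀ x, 0 ≤ Q x := fun x => prod_nonneg' hq.1 x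
  have hP1 : ∑ x, P x = 1 := sum_prod_eq_one hp
  have hQ1 : ∑ x, Q x = 1 := sum_prod_eq_one hq
  have haff : ∑ x, Real.sqrt (P x) * Real.sqrt (Q x) = (1 - dH p q ^ 2) ^ m := by
    rw [← affinity hp hq]
    have h3 : ∀ x : Fin m → Fin n, Real.sqrt (P x) * Real.sqrt (Q x) =
        ∏ j, (Real.sqrt (p (x j)) * Real.sqrt (q (x j))) := by
      intro x
      rw [hP, hQ, Finset.prod_mul_distrib]
      simp only
      rw [Real.sqrt_prod, Real.sqrt_prod]
      · intro i _; exact hq.1 _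
      · intro i _; exact hp.1 _
    simp only [h3]
    have h4 := Finset.prod_univ_sum (fun _ : Fin m => (Finset.univ : Finset (Fin n)))
      (fun _ i => Real.sqrt (p i) * Real.sqrt (q i))
    rw [Fintype.piFinset_univ] at h4
    rw [← h4]
    simp
  set a := ∑ x, Real.sqrt (P x) * Real.sqrt (Q x) with ha
  -- total variation
  have hdiff : acceptProb q T - acceptProb p T ≤ (1 / 2) * ∑ x, |Q x - P x| := by
    have h3 : acceptProb q T - acceptProb p T = ∑ x, (Q x - P x) * (T x - 1 / 2) := by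
      unfold acceptProb
      have h4 : ∑ x, (Q x - P x) * (T x - 1 / 2) =
          (∑ x, Q x * T x) - (∑ x, P x * T x) - (1 / 2) * ((∑ x, Q x) - ∑ x, P x) := by
        rw [← Finset.sum_sub_distrib, ← Finset.sum_sub_distrib, Finset.mul_sum,
          ← Finset.sum_sub_distrib]
        exact Finset.sum_congr rfl fun x _ => by ring
      rw [h4, hP1, hQ1]
      ring
    rw [h3, Finset.mul_sum]
    apply Finset.sum_le_sum
    intro x _
    have h5 : |T x - 1 / 2| ≤ 1 / 2 := by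
      rw [abs_le]; constructor <;> linarith [(hT x).1, (hT x).2]
    calc (Q x - P x) * (T x - 1 / 2) ≤ |(Q x - P x) * (T x - 1 / 2)| := le_abs_self _
      _ = |Q x - P x| * |T x - 1 / 2| := abs_mul _ _
      _ ≤ |Q x - P x| * (1 / 2) := mul_le_mul_of_nonneg_left h5 (abs_nonneg _)
      _ = 1 / 2 * |Q x - P x| := by ring
  have hCS : (∑ x, |Q x - P x|) ^ 2 ≤ (2 - 2 * a) * (2 + 2 * a) := by
    have h3 : ∑ x, (Real.sqrt (Q x) - Real.sqrt (P x)) ^ 2 = 2 - 2 * a := by
      have h4 : ∀ x, (Real.sqrt (Q x) - Real.sqrt (P x)) ^ 2 =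
          Q x + P x - 2 * (Real.sqrt (P x) * Real.sqrt (Q x)) := by
        intro x
        have h5 := Real.mul_self_sqrt (hP0 x)
        have h6 := Real.mul_self_sqrt (hQ0 x)
        nlinarith
      simp only [h4]
      rw [Finset.sum_sub_distrib, Finset.sum_add_distrib, hP1, hQ1, ← Finset.mul_sum]
      ring
    have h3' : ∑ x, (Real.sqrt (Q x) + Real.sqrt (P x)) ^ 2 = 2 + 2 * a := by
      have h4 : ∀ x, (Real.sqrt (Q x) + Real.sqrt (P x)) ^ 2 =
          Q x + P x + 2 * (Real.sqrt (P x) * Real.sqrt (Q x)) := by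
        intro x
        have h5 := Real.mul_self_sqrt (hP0 x)
        have h6 := Real.mul_self_sqrt (hQ0 x)
        nlinarith
      simp only [h4]
      rw [Finset.sum_add_distrib, Finset.sum_add_distrib, hP1, hQ1, ← Finset.mul_sum]
      ring
    rw [← h3, ← h3']
    apply Finset.sum_sq_le_sum_mul_sum_of_sq_le_mul
    · intro x _; positivity
    · intro x _; positivity
    · intro x _
      rw [sq_abs]
      have h5 := Real.mul_self_sqrt (hP0 x)
      have h6 := Real.mul_self_sqrt (hQ0 x)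
      have h7 : Q x - P x = (Real.sqrt (Q x) - Real.sqrt (P x)) *
          (Real.sqrt (Q x) + Real.sqrt (P x)) := by
        ring_nf
        rw [Real.sq_sqrt (hP0 x), Real.sq_sqrt (hQ0 x)]
      rw [h7, mul_pow]
  have h6 : (1 / 3 : ℝ) ≤ (1 / 2) * ∑ x, |Q x - P x| := by linarith
  have h7 : (2 / 3 : ℝ) ^ 2 ≤ (∑ x, |Q x - P x|) ^ 2 :=
    pow_le_pow_left₀ (by norm_num) (by linarith) 2
  have h8 : a ^ 2 ≤ 8 / 9 := by nlinarith
  rw [haff, ← pow_mul, mul_comm m 2] at h8
  exact h8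

theorem two_point' {m : ℕ} {p q : Fin n → ℝ} (hp : IsDist p) (hq : IsDist q)
    {T : (Fin m → Fin n) → ℝ} (hT : ∀ x, 0 ≤ T x ∧ T x ≤ 1) (h1 : 2 / 3 ≤ acceptProb q T)
    (h2 : acceptProb p T ≤ 1 / 3) : 1 / 18 ≤ m * dH p q ^ 2 := by
  have h := two_point hp hq hT h1 h2
  have h0 : 0 ≤ ∑ i, Real.sqrt (p i) * Real.sqrt (q i) :=
    Finset.sum_nonneg fun i _ => mul_nonneg (Real.sqrt_nonneg _) (Real.sqrt_nonneg _)
  rw [affinity hp hq] at h0
  have h3 := one_add_mul_le_pow (a := - dH p q ^ 2) (by linarith) (2 * m)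
  have h4 : (1 + - dH p q ^ 2) ^ (2 * m) = (1 - dH p q ^ 2) ^ (2 * m) := by
    rw [← sub_eq_add_neg]
  rw [h4] at h3
  push_cast at h3
  linarith

/-- mixing `q` with a point mass -/
noncomputable def mix (q : Fin n → ℝ) (i : Fin n) (s : ℝ) : Fin n → ℝ :=
  fun l => (1 - s) * q l + s * (if l = i then 1 else 0)

theorem mix_isDist {q : Fin n → ℝ} (hq : IsDist q) (i : Fin n) {s : ℝ} (h0 : 0 ≤ s)
    (h1 : s ≤ 1) : IsDist (mix q i s) := by
  constructor
  · intro l
    unfold mix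
    have := hq.1 l
    have h2 : 0 ≤ (1 - s) * q l := mul_nonneg (by linarith) this
    split_ifs <;> linarith
  · unfold mix
    rw [Finset.sum_add_distrib, ← Finset.mul_sum, ← Finset.mul_sum, hq.2]
    simp

theorem exists_alt {q : Fin n → ℝ} (hq : IsDist q) (hn : 2 ≤ n) {t : ℝ} (ht0 : 0 ≤ t)
    (ht : t ≤ 1 / 4) : ∃ p, IsDist p ∧ dH p q ^ 2 = t := by
  -- an index of mass at most 1/2
  obtain ⟨i, hi⟩ : ∃ i, q i ≤ 1 / 2 := by
    by_contra hc
    push Not at hc
    have h0 := hc ⟨0, by omega⟩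
    have h1 := hc ⟨1, by omega⟩
    have hs : q ⟨0, by omega⟩ + q ⟨1, by omega⟩ ≤ ∑ i, q i := by
      have h3 : ∑ i ∈ ({⟨0, by omega⟩, ⟨1, by omega⟩} : Finset (Fin n)), q i ≤ ∑ i, q i :=
        Finset.sum_le_sum_of_subset_of_nonneg (Finset.subset_univ _) fun i _ _ => hq.1 i
      rw [Finset.sum_pair (by simp)] at h3
      exact h3
    rw [hq.2] at hs
    linarith
  set φ : ℝ → ℝ := fun s => dH (mix q i s) q ^ 2 with hφ
  have hcont : Continuous φ := by
    have : φ = fun s => (1 / 2) * ∑ l, (Real.sqrt ((1 - s) * q l + s * (if l = i then 1 else 0)) -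
        Real.sqrt (q l)) ^ 2 := by
      funext s
      rw [hφ]
      simp only [dH_sq, mix]
    rw [this]
    fun_prop
  have h0 : φ 0 = 0 := by
    rw [hφ]
    simp [dH_sq, mix]
  have h1 : 1 / 4 ≤ φ 1 := by
    have e : φ 1 = 1 - Real.sqrt (q i) := by
      have h := affinity (mix_isDist hq i zero_le_one le_rfl) hq
      have h2 : ∑ l, Real.sqrt (mix q i 1 l) * Real.sqrt (q l) = Real.sqrt (q i) := by
        rw [Finset.sum_eq_single i]
        · simp [mix]
        · intro l _ hl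
          simp [mix, hl]
        · intro h; exact absurd (Finset.mem_univ _) h
      rw [h2] at h
      rw [hφ]
      simp only
      linarith
    rw [e]
    have h3 : Real.sqrt (q i) ≤ 3 / 4 := by
      rw [Real.sqrt_le_left (by norm_num)]
      linarith
    linarith
  have hmem : t ∈ Set.Icc (φ 0) (φ 1) := ⟨by rw [h0]; exact ht0, ht.trans h1⟩
  obtain ⟨s, hs, hst⟩ := intermediate_value_Icc zero_le_one hcont.continuousOn hmem
  exact ⟨mix q i s, mix_isDist hq i hs.1 hs.2, hst⟩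

theorem lower_trivial {q : Fin n → ℝ} (hq : IsDist q) (hn : 2 ≤ n) {ε : ℝ} (h0 : 0 < ε)
    (h1 : ε ^ 2 ≤ 1 / 8) {m : ℕ} {T : (Fin m → Fin n) → ℝ} (hT : IsTester q ε T) :
    1 / 36 ≤ m * ε ^ 2 := by
  obtain ⟨p, hp, hpt⟩ := exists_alt hq hn (t := 2 * ε ^ 2) (by positivity) (by linarith)
  have h2 : ε < dH p q := by
    by_contra h
    push Not at h
    have := pow_le_pow_left₀ (dH_nonneg p q) h 2
    rw [hpt] at this
    have : 0 < ε ^ 2 := by positivity
    linarith
  have h3 := hT.2.2 p hp h2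
  have h4 := two_point' hp hq hT.1 hT.2.1 (by linarith)
  rw [hpt] at h4
  linarith

end Pool.Agent.H40.Hell
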