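import Pool.Agent.H40.HellVar

set_option autoImplicit false

open Finset

namespace Pool.Agent.H40.Hell

variable {n : ℕ}

/-- number of samples outside `A` -/
noncomputable def NB {m : ℕ} (A : Finset (Fin n)) (x : Fin m → Fin n) : ℝ :=
  ∑ l, (if x l ∈ A then (0 : ℝ) else 1)

theorem NB_nonneg {m : ℕ} (A : Finset (Fin n)) (x : Fin m → Fin n) : 0 ≤ NB A x :=
  Finset.sum_nonneg fun l _ => by split_ifs <;> norm_num

theorem sum_out (p : Fin n → ℝ) (A : Finset (Fin n)) :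
    ∑ i, p i * (if i ∈ A then (0 : ℝ) else 1) = ∑ i ∈ Aᶜ, p i := by
  rw [← Finset.sum_subset (Finset.subset_univ Aᶜ)]
  · refine Finset.sum_congr rfl fun i hi => ?_
    rw [Finset.mem_compl] at hi
    simp [hi]
  · intro i _ hi
    rw [Finset.mem_compl, not_not] at hi
    simp [hi]

theorem mean_NB {m : ℕ} {p : Fin n → ℝ} (hp : ∑ i, p i = 1) (A : Finset (Fin n)) :
    acceptProb p (fun x : Fin m → Fin n => NB A x) = m * ∑ i ∈ Aᶜ, p i := by
  unfold NB
  rw [acceptProb_lin hp (fun r => if r ∈ A then (0 : ℝ) else 1), sum_out]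

theorem second_NB {m : ℕ} {p : Fin n → ℝ} (hp : ∑ i, p i = 1) (A : Finset (Fin n)) :
    acceptProb p (fun x : Fin m → Fin n => NB A x * NB A x) =
      m * (∑ i ∈ Aᶜ, p i) + m * (m - 1) * (∑ i ∈ Aᶜ, p i) ^ 2 := by
  unfold NB
  rw [acceptProb_quad hp (fun r => if r ∈ A then (0 : ℝ) else 1)
    (fun r => if r ∈ A then (0 : ℝ) else 1), sum_out, sq]
  congr 2
  rw [← sum_out p A]
  exact Finset.sum_congr rfl fun i _ => by split_ifs <;> simp

theorem var_NB {m : ℕ} {p : Fin n → ℝ} (hp : ∑ i, p i = 1)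
    (A : Finset (Fin n)) :
    acceptProb p (fun x : Fin m → Fin n => (NB A x - m * ∑ i ∈ Aᶜ, p i) ^ 2) ≤
      m * ∑ i ∈ Aᶜ, p i := by
  set P := ∑ i ∈ Aᶜ, p i with hP
  have e : (fun x : Fin m → Fin n => (NB A x - m * P) ^ 2) = fun x =>
      NB A x * NB A x + ((-2 * (m * P)) * NB A x + (m * P) ^ 2) := by
    funext x; ring
  rw [e, acceptProb_add, acceptProb_add, acceptProb_mul_left, acceptProb_const hp,
    second_NB hp, mean_NB hp, ← hP]
  have : (0 : ℝ) ≤ m * P ^ 2 := mul_nonneg (Nat.cast_nonneg m) (sq_nonneg _)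
  nlinarith

open Classical in
/-- the test on two batches -/
noncomputable def T2 {m : ℕ} (A : Finset (Fin n)) (q : Fin n → ℝ) (ε : ℝ)
    (x y : Fin m → Fin n) : ℝ :=
  if NB A x < m * ε ^ 2 / 4 ∧ Z A q x y < (m : ℝ) ^ 2 * ε ^ 2 / 2 then 1 else 0

/-- hypotheses on the split of the alphabet -/
structure Split (q : Fin n → ℝ) (ε : ℝ) (A : Finset (Fin n)) (k : ℕ) : Prop where
  q0 : ∀ i, 0 ≤ q i
  q1 : ∑ i, q i = 1
  e0 : 0 < ε
  e1 : ε ≤ 1
  k1 : 1 ≤ k
  card : A.card ≤ k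
  low : ∀ i ∈ A, ε ^ 2 / (100 * k) ≤ q i
  out : ∑ i ∈ Aᶜ, q i ≤ ε ^ 2 / 50

theorem null_bound {q : Fin n → ℝ} {ε : ℝ} {A : Finset (Fin n)} {k m : ℕ}
    (H : Split q ε A k) (hm : 300 * Real.sqrt k ≤ m * ε ^ 2) :
    2 / 3 ≤ E2 q (fun x y : Fin m → Fin n => T2 A q ε x y) := by
  have hk : (1 : ℝ) ≤ Real.sqrt k := by
    rw [Real.one_le_sqrt]; exact_mod_cast H.k1
  have hkk : Real.sqrt k * Real.sqrt k = k := Real.mul_self_sqrt (Nat.cast_nonneg k)
  have he := H.e0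
  have hme : 0 < m * ε ^ 2 := by nlinarith
  have hm0 : (0 : ℝ) < m := by
    by_contra h
    push Not at h
    have : (m : ℝ) * ε ^ 2 ≤ 0 := mul_nonpos_of_nonpos_of_nonneg h (sq_nonneg _)
    linarith
  have hc1 : 0 < 4 / (m * ε ^ 2) := by positivity
  have hc2 : 0 < 4 / ((m : ℝ) ^ 4 * ε ^ 4) := by positivity
  have h1 : E2 q (fun x y : Fin m → Fin n => 1) ≤
      E2 q (fun x y : Fin m → Fin n => T2 A q ε x y + ((4 / (m * ε ^ 2)) * NB A x +
        (4 / ((m : ℝ) ^ 4 * ε ^ 4)) * Z A q x y ^ 2)) := by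
    apply E2_mono H.q0
    intro x y
    have hN := mul_nonneg hc1.le (NB_nonneg A x)
    have hZ := mul_nonneg hc2.le (sq_nonneg (Z A q x y))
    unfold T2
    split_ifs with h
    · linarith
    · rw [not_and_or] at h
      push Not at h
      rcases h with h | h
      · have : 1 ≤ 4 / (m * ε ^ 2) * NB A x := by
          rw [div_mul_eq_mul_div, le_div_iff₀ hme]
          linarith
        linarith
      · have h2 : ((m : ℝ) ^ 2 * ε ^ 2 / 2) ^ 2 ≤ Z A q x y ^ 2 :=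
          pow_le_pow_left₀ (by positivity) h 2
        have : 1 ≤ 4 / ((m : ℝ) ^ 4 * ε ^ 4) * Z A q x y ^ 2 := by
          rw [div_mul_eq_mul_div, le_div_iff₀ (by positivity)]
          nlinarith
        linarith
  rw [E2_const H.q1, E2_add, E2_add, E2_mul_left, E2_mul_left, E2_left H.q1, mean_NB H.q1] at h1
  have hv := second_Z_le (m := m) (q := q) H.q0 H.q1 A
  have hz : ∀ i, q i - q i = 0 := fun i => sub_self _
  simp only [hz] at hv
  norm_num at hv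
  have hA : ∑ i ∈ A, q i ^ 2 / q i ^ 2 ≤ k := by
    have h2 : ∑ i ∈ A, q i ^ 2 / q i ^ 2 ≤ ∑ i ∈ A, (1 : ℝ) :=
      Finset.sum_le_sum fun i _ => div_self_le_one _
    rw [Finset.sum_const, nsmul_eq_mul, mul_one] at h2
    have h3 : (A.card : ℝ) ≤ k := by exact_mod_cast H.card
    linarith
  have hE : E2 q (fun x y : Fin m → Fin n => Z A q x y ^ 2) ≤ (m : ℝ) ^ 2 * k :=
    hv.trans (mul_le_mul_of_nonneg_left hA (by positivity))
  have h3 : (4 / (m * ε ^ 2)) * (m * ∑ i ∈ Aᶜ, q i) ≤ 4 / 50 := by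
    have h4 : (m : ℝ) * ∑ i ∈ Aᶜ, q i ≤ m * (ε ^ 2 / 50) :=
      mul_le_mul_of_nonneg_left H.out hm0.le
    have h5 := mul_le_mul_of_nonneg_left h4 hc1.le
    have h6 : 4 / (m * ε ^ 2) * (m * (ε ^ 2 / 50)) = 4 / 50 := by
      field_simp
    linarith
  have h4 : (4 / ((m : ℝ) ^ 4 * ε ^ 4)) * E2 q (fun x y : Fin m → Fin n => Z A q x y ^ 2) ≤
      4 / 90000 := by
    have h5 := mul_le_mul_of_nonneg_left hE hc2.le
    have h6 : 4 / ((m : ℝ) ^ 4 * ε ^ 4) * ((m : ℝ) ^ 2 * k) ≤ 4 / 90000 := by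
      rw [div_mul_eq_mul_div, div_le_div_iff₀ (by positivity) (by norm_num)]
      have h7 : (300 * Real.sqrt k) ^ 2 ≤ (m * ε ^ 2) ^ 2 := pow_le_pow_left₀ (by positivity) hm 2
      have h8 : 90000 * (k : ℝ) ≤ (m : ℝ) ^ 2 * ε ^ 4 := by nlinarith
      have h9 := mul_le_mul_of_nonneg_left h8 (by positivity : (0 : ℝ) ≤ 4 * (m : ℝ) ^ 2)
      nlinarith
    linarith
  linarith

theorem sqrt_diff_sq_le_div {a b : ℝ} (ha : 0 ≤ a) (hb : 0 < b) :
    (Real.sqrt a - Real.sqrt b) ^ 2 ≤ (a - b) ^ 2 / b := by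
  have h1 := Real.mul_self_sqrt ha
  have h2 := Real.mul_self_sqrt hb.le
  have h3 := Real.sqrt_nonneg a
  have h4 := Real.sqrt_nonneg b
  rw [le_div_iff₀ hb]
  have h5 : (a - b) ^ 2 = (Real.sqrt a - Real.sqrt b) ^ 2 * (Real.sqrt a + Real.sqrt b) ^ 2 := by
    have : a - b = (Real.sqrt a - Real.sqrt b) * (Real.sqrt a + Real.sqrt b) := by
      ring_nf
      rw [Real.sq_sqrt ha, Real.sq_sqrt hb.le]
    rw [this]; ring
  rw [h5]
  apply mul_le_mul_of_nonneg_left _ (sq_nonneg _)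
  nlinarith [mul_nonneg h3 h4, mul_nonneg h3 h3]

theorem sqrt_diff_sq_le_add {a b : ℝ} (ha : 0 ≤ a) (hb : 0 ≤ b) :
    (Real.sqrt a - Real.sqrt b) ^ 2 ≤ a + b := by
  have h1 := Real.mul_self_sqrt ha
  have h2 := Real.mul_self_sqrt hb
  nlinarith [mul_nonneg (Real.sqrt_nonneg a) (Real.sqrt_nonneg b)]

theorem dH_sq (p q : Fin n → ℝ) :
    dH p q ^ 2 = (1 / 2) * ∑ i, (Real.sqrt (p i) - Real.sqrt (q i)) ^ 2 := by
  unfold dH
  rw [mul_pow, Real.sq_sqrt (Finset.sum_nonneg fun i _ => sq_nonneg _), div_pow, one_pow,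
    Real.sq_sqrt (by norm_num)]

theorem dH_nonneg (p q : Fin n → ℝ) : 0 ≤ dH p q := by
  unfold dH; positivity

theorem alt_bound_out {q p : Fin n → ℝ} {ε : ℝ} {A : Finset (Fin n)} {k m : ℕ}
    (H : Split q ε A k) (hm : 300 * Real.sqrt k ≤ m * ε ^ 2) (hp : IsDist p)
    (hout : 49 / 50 * ε ^ 2 ≤ ∑ i ∈ Aᶜ, p i) :
    E2 p (fun x y : Fin m → Fin n => T2 A q ε x y) ≤ 1 / 3 := by
  have hk : (1 : ℝ) ≤ Real.sqrt k := by
    rw [Real.one_le_sqrt]; exact_mod_cast H.k1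
  have he := H.e0
  have hme : 300 ≤ m * ε ^ 2 := by nlinarith
  have hm0 : (0 : ℝ) < m := by
    by_contra h
    push Not at h
    have : (m : ℝ) * ε ^ 2 ≤ 0 := mul_nonpos_of_nonpos_of_nonneg h (sq_nonneg _)
    linarith
  set P := ∑ i ∈ Aᶜ, p i with hP
  have hP0 : 0 < P := by nlinarith [sq_pos_of_pos he]
  have hmP : 294 ≤ m * P := by
    have := mul_le_mul_of_nonneg_left hout hm0.le
    nlinarith
  have hc : (0 : ℝ) < 2 / (m * P) ^ 2 := by positivity
  have h1 : E2 p (fun x y : Fin m → Fin n => T2 A q ε x y) ≤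
      E2 p (fun x y : Fin m → Fin n => (2 / (m * P) ^ 2) * (NB A x - m * P) ^ 2) := by
    apply E2_mono hp.1
    intro x y
    unfold T2
    split_ifs with h
    · have h2 : NB A x < (50 / 196) * (m * P) := by
        have := mul_le_mul_of_nonneg_left hout hm0.le
        nlinarith [h.1]
      rw [div_mul_eq_mul_div, le_div_iff₀ (by positivity)]
      have h3 : (146 / 196) * (m * P) ≤ m * P - NB A x := by linarith
      have h4 : ((146 / 196) * (m * P)) ^ 2 ≤ (m * P - NB A x) ^ 2 :=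
        pow_le_pow_left₀ (by positivity) h3 2
      nlinarith [sq_nonneg (m * P)]
    · positivity
  have h2 : E2 p (fun x y : Fin m → Fin n => (2 / (m * P) ^ 2) * (NB A x - m * P) ^ 2) =
      (2 / (m * P) ^ 2) * acceptProb p (fun x : Fin m → Fin n => (NB A x - m * P) ^ 2) := by
    rw [E2_mul_left, E2_left hp.2]
  have h3 := var_NB (m := m) hp.2 A
  rw [← hP] at h3
  have h4 := mul_le_mul_of_nonneg_left h3 hc.le
  have h5 : 2 / (m * P) ^ 2 * (m * P) ≤ 1 / 3 := by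
    rw [div_mul_eq_mul_div, div_le_div_iff₀ (by positivity) (by norm_num)]
    nlinarith
  linarith

theorem final_ineq {M s r ε : ℝ} (he : 0 < ε) (her : ε ≤ r) (hk : 1 ≤ s) (hm0 : 0 < M)
    (hM : 300 * s ≤ M * ε ^ 2) :
    (4 / (M ^ 4 * (r * r) ^ 2)) * (M ^ 2 * (2 * (s * s) + 200 * (s * s) / ε ^ 2 * (r * r)) +
      2 * M ^ 3 * ((r * r) * (1 + 10 * s * r / ε))) ≤ 1 / 3 := by
  have hr0 : 0 < r := lt_of_lt_of_le he her
  have hs0 : 0 < s := by linarith
  have hMr : 300 * s ≤ M * r ^ 2 := by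
    have h1 : ε ^ 2 ≤ r ^ 2 := pow_le_pow_left₀ he.le her 2
    have h2 := mul_le_mul_of_nonneg_left h1 hm0.le
    linarith
  -- normalise
  set a := 300 * s / (M * r ^ 2) with ha
  have ha1 : a ≤ 1 := by rw [ha, div_le_one (by positivity)]; exact hMr
  have ha0 : 0 < a := by positivity
  set b := 300 * s / (M * r * ε) with hb
  have hb1 : b ≤ 1 := by
    rw [hb, div_le_one (by positivity)]
    have h1 : ε * ε ≤ r * ε := mul_le_mul_of_nonneg_right her he.le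
    have h2 := mul_le_mul_of_nonneg_left h1 hm0.le
    nlinarith
  have hb0 : 0 < b := by positivity
  set c := 300 / (M * r ^ 2) with hc
  have hc1 : c ≤ 1 := by
    rw [hc, div_le_one (by positivity)]
    linarith
  have hc0 : 0 < c := by positivity
  have e : (4 / (M ^ 4 * (r * r) ^ 2)) * (M ^ 2 * (2 * (s * s) + 200 * (s * s) / ε ^ 2 * (r * r)) +
      2 * M ^ 3 * ((r * r) * (1 + 10 * s * r / ε))) =
      (8 / 90000) * a ^ 2 + (800 / 90000) * b ^ 2 + (8 / 300) * c + (80 / 300) * b := by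
    rw [ha, hb, hc]
    field_simp
    ring
  rw [e]
  have h1 : a ^ 2 ≤ 1 := pow_le_one₀ ha0.le ha1
  have h2 : b ^ 2 ≤ 1 := pow_le_one₀ hb0.le hb1
  linarith

theorem alt_bound_in {q p : Fin n → ℝ} {ε : ℝ} {A : Finset (Fin n)} {k m : ℕ}
    (H : Split q ε A k) (hm : 300 * Real.sqrt k ≤ m * ε ^ 2) (hp : IsDist p)
    (hin : ε ^ 2 ≤ ∑ i ∈ A, (p i - q i) ^ 2 / q i) :
    E2 p (fun x y : Fin m → Fin n => T2 A q ε x y) ≤ 1 / 3 := by
  set s := Real.sqrt k with hs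
  have hk : (1 : ℝ) ≤ s := by
    rw [hs, Real.one_le_sqrt]; exact_mod_cast H.k1
  have hss : s * s = k := Real.mul_self_sqrt (Nat.cast_nonneg k)
  have he := H.e0
  have hk0 : (0 : ℝ) < k := by
    have : (1 : ℝ) ≤ k := by exact_mod_cast H.k1
    linarith
  have hm0 : (0 : ℝ) < m := by
    by_contra h
    push Not at h
    have : (m : ℝ) * ε ^ 2 ≤ 0 := mul_nonpos_of_nonpos_of_nonneg h (sq_nonneg _)
    linarith
  set χ := ∑ i ∈ A, (p i - q i) ^ 2 / q i with hχ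
  have hχ0 : 0 < χ := by nlinarith [sq_pos_of_pos he]
  set r := Real.sqrt χ with hr
  have hrr : r * r = χ := Real.mul_self_sqrt hχ0.le
  have hr0 : 0 < r := Real.sqrt_pos.2 hχ0
  have her : ε ≤ r := by
    rw [hr]; exact Real.le_sqrt_of_sq_le hin
  have hq : ∀ i ∈ A, 0 < q i := fun i hi => lt_of_lt_of_le (by positivity) (H.low i hi)
  have hqinv : ∀ i ∈ A, (q i)⁻¹ ≤ 100 * k / ε ^ 2 := by
    intro i hi
    rw [inv_le_comm₀ (hq i hi) (by positivity), inv_div]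
    exact H.low i hi
  have hterm : ∀ i ∈ A, (p i - q i) ^ 2 / q i ≤ χ := by
    intro i hi
    exact Finset.single_le_sum (f := fun i => (p i - q i) ^ 2 / q i)
      (fun j hj => div_nonneg (sq_nonneg _) (hq j hj).le) hi
  -- bound S1
  have hS1 : ∑ i ∈ A, p i ^ 2 / q i ^ 2 ≤ 2 * k + 200 * k / ε ^ 2 * χ := by
    have h1 : ∑ i ∈ A, p i ^ 2 / q i ^ 2 ≤
        ∑ i ∈ A, (2 + 200 * k / ε ^ 2 * ((p i - q i) ^ 2 / q i)) := by
      apply Finset.sum_le_sum
      intro i hi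
      have h2 := hq i hi
      have h3 : p i ^ 2 / q i ^ 2 ≤ 2 + 2 * ((p i - q i) ^ 2 / q i * (q i)⁻¹) := by
        have : 2 + 2 * ((p i - q i) ^ 2 / q i * (q i)⁻¹) - p i ^ 2 / q i ^ 2 =
            ((p i - q i) - q i) ^ 2 / q i ^ 2 := by
          field_simp
          ring
        have h4 : 0 ≤ ((p i - q i) - q i) ^ 2 / q i ^ 2 := by positivity
        linarith
      have h5 : (p i - q i) ^ 2 / q i * (q i)⁻¹ ≤ (p i - q i) ^ 2 / q i * (100 * k / ε ^ 2) :=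
        mul_le_mul_of_nonneg_left (hqinv i hi) (div_nonneg (sq_nonneg _) h2.le)
      have h6 : 200 * k / ε ^ 2 * ((p i - q i) ^ 2 / q i) =
          2 * ((p i - q i) ^ 2 / q i * (100 * k / ε ^ 2)) := by ring
      linarith
    rw [Finset.sum_add_distrib, Finset.sum_const, nsmul_eq_mul, ← Finset.mul_sum, ← hχ] at h1
    have h3 : (A.card : ℝ) ≤ k := by exact_mod_cast H.card
    linarith
  -- bound S2
  have hS2 : ∑ i ∈ A, p i * (p i - q i) ^ 2 / q i ^ 2 ≤ χ * (1 + 10 * s * r / ε) := by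
    have h1 : ∑ i ∈ A, p i * (p i - q i) ^ 2 / q i ^ 2 ≤
        ∑ i ∈ A, ((p i - q i) ^ 2 / q i) * (1 + 10 * s * r / ε) := by
      apply Finset.sum_le_sum
      intro i hi
      have h2 := hq i hi
      have h3 : p i * (p i - q i) ^ 2 / q i ^ 2 =
          ((p i - q i) ^ 2 / q i) * (1 + (p i - q i) / q i) := by
        field_simp
        ring
      rw [h3]
      apply mul_le_mul_of_nonneg_left _ (div_nonneg (sq_nonneg _) h2.le)
      have h4 : ((p i - q i) / q i) ^ 2 ≤ (10 * s * r / ε) ^ 2 := by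
        have h5 : ((p i - q i) / q i) ^ 2 = ((p i - q i) ^ 2 / q i) * (q i)⁻¹ := by
          field_simp
        have h6 : (10 * s * r / ε) ^ 2 = χ * (100 * k / ε ^ 2) := by
          rw [← hss, ← hrr]; ring
        rw [h5, h6]
        exact mul_le_mul (hterm i hi) (hqinv i hi) (inv_nonneg.2 h2.le) hχ0.le
      have h7 := le_trans (le_abs_self _) (abs_le_of_sq_le_sq h4 (by positivity))
      linarith
    rw [← Finset.sum_mul, ← hχ] at h1
    exact h1
  have hc : (0 : ℝ) < 4 / ((m : ℝ) ^ 4 * χ ^ 2) := by positivity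
  have h1 : E2 p (fun x y : Fin m → Fin n => T2 A q ε x y) ≤
      E2 p (fun x y : Fin m → Fin n => (4 / ((m : ℝ) ^ 4 * χ ^ 2)) *
        (Z A q x y - (m : ℝ) ^ 2 * χ) ^ 2) := by
    apply E2_mono hp.1
    intro x y
    unfold T2
    split_ifs with h
    · have h2 : Z A q x y < (m : ℝ) ^ 2 * χ / 2 := by
        have := mul_le_mul_of_nonneg_left hin (sq_nonneg (m : ℝ))
        linarith [h.2]
      rw [div_mul_eq_mul_div, le_div_iff₀ (by positivity)]
      have h3 : (m : ℝ) ^ 2 * χ / 2 ≤ (m : ℝ) ^ 2 * χ - Z A q x y := by linarith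
      have h4 : ((m : ℝ) ^ 2 * χ / 2) ^ 2 ≤ ((m : ℝ) ^ 2 * χ - Z A q x y) ^ 2 :=
        pow_le_pow_left₀ (by positivity) h3 2
      nlinarith
    · positivity
  rw [E2_mul_left] at h1
  have h2 := var_Z_le (m := m) (q := q) hp.1 hp.2 A
  rw [← hχ] at h2
  have h3 := mul_le_mul_of_nonneg_left h2 hc.le
  have hM : 300 * s ≤ m * ε ^ 2 := hm
  have hsum : (m : ℝ) ^ 2 * ∑ i ∈ A, p i ^ 2 / q i ^ 2 +
      2 * (m : ℝ) ^ 3 * ∑ i ∈ A, p i * (p i - q i) ^ 2 / q i ^ 2 ≤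
      (m : ℝ) ^ 2 * (2 * k + 200 * k / ε ^ 2 * χ) +
      2 * (m : ℝ) ^ 3 * (χ * (1 + 10 * s * r / ε)) := by
    have h5 := mul_le_mul_of_nonneg_left hS1 (by positivity : (0 : ℝ) ≤ (m : ℝ) ^ 2)
    have h6 := mul_le_mul_of_nonneg_left hS2 (by positivity : (0 : ℝ) ≤ 2 * (m : ℝ) ^ 3)
    linarith
  have hfin : (4 / ((m : ℝ) ^ 4 * χ ^ 2)) * ((m : ℝ) ^ 2 * (2 * k + 200 * k / ε ^ 2 * χ) +
      2 * (m : ℝ) ^ 3 * (χ * (1 + 10 * s * r / ε))) ≤ 1 / 3 := by
    rw [← hrr, ← hss]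
    exact final_ineq he her hk hm0 hM
  have h4 := mul_le_mul_of_nonneg_left hsum hc.le
  linarith

theorem alt_bound {q p : Fin n → ℝ} {ε : ℝ} {A : Finset (Fin n)} {k m : ℕ}
    (H : Split q ε A k) (hm : 300 * Real.sqrt k ≤ m * ε ^ 2) (hp : IsDist p)
    (hd : ε < dH p q) :
    E2 p (fun x y : Fin m → Fin n => T2 A q ε x y) ≤ 1 / 3 := by
  have he := H.e0
  have hq : ∀ i ∈ A, 0 < q i := fun i hi => by
    have : (1 : ℝ) ≤ k := by exact_mod_cast H.k1
    exact lt_of_lt_of_le (by positivity) (H.low i hi)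
  have h1 : ε ^ 2 < dH p q ^ 2 := pow_lt_pow_left₀ hd he.le (by norm_num)
  rw [dH_sq, ← Finset.sum_add_sum_compl A] at h1
  by_cases h2 : ε ^ 2 ≤ ∑ i ∈ Aᶜ, (Real.sqrt (p i) - Real.sqrt (q i)) ^ 2
  · apply alt_bound_out H hm hp
    have h3 : ∑ i ∈ Aᶜ, (Real.sqrt (p i) - Real.sqrt (q i)) ^ 2 ≤
        ∑ i ∈ Aᶜ, p i + ∑ i ∈ Aᶜ, q i := by
      rw [← Finset.sum_add_distrib]
      exact Finset.sum_le_sum fun i _ => sqrt_diff_sq_le_add (hp.1 i) (H.q0 i)
    have := H.out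
    linarith
  · push Not at h2
    apply alt_bound_in H hm hp
    have h3 : ∑ i ∈ A, (Real.sqrt (p i) - Real.sqrt (q i)) ^ 2 ≤
        ∑ i ∈ A, (p i - q i) ^ 2 / q i :=
      Finset.sum_le_sum fun i hi => sqrt_diff_sq_le_div (hp.1 i) (hq i hi)
    linarith

/-- transfer of a test on two batches to a test on `m + m` samples -/
theorem acceptProb_append {m : ℕ} (p : Fin n → ℝ) (F : (Fin m → Fin n) → (Fin m → Fin n) → ℝ) :
    acceptProb p (fun z : Fin (m + m) → Fin n =>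
      F (fun i => z (Fin.castAdd m i)) (fun i => z (Fin.natAdd m i))) = E2 p F := by
  unfold E2 acceptProb
  rw [← (Fin.appendEquiv (α := Fin n) m m).sum_comp, Fintype.sum_prod_type]
  refine Finset.sum_congr rfl fun x _ => ?_
  rw [Finset.mul_sum]
  refine Finset.sum_congr rfl fun y _ => ?_
  simp only [Fin.appendEquiv_apply, Fin.prod_univ_add, Fin.append_left, Fin.append_right]
  ring

theorem exists_tester_of_split {q : Fin n → ℝ} {ε : ℝ} {A : Finset (Fin n)} {k m : ℕ}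
    (H : Split q ε A k) (hm : 300 * Real.sqrt k ≤ m * ε ^ 2) :
    ∃ T : (Fin (m + m) → Fin n) → ℝ, IsTester q ε T := by
  refine ⟨fun z => T2 A q ε (fun i => z (Fin.castAdd m i)) (fun i => z (Fin.natAdd m i)),
    ?_, ?_, ?_⟩
  · intro z
    change 0 ≤ T2 A q ε (fun i => z (Fin.castAdd m i)) (fun i => z (Fin.natAdd m i)) ∧
      T2 A q ε (fun i => z (Fin.castAdd m i)) (fun i => z (Fin.natAdd m i)) ≤ 1
    unfold T2
    split_ifs <;> norm_num
  · rw [acceptProb_append]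
    exact null_bound H hm
  · intro p hp hd
    rw [acceptProb_append]
    have := alt_bound H hm hp hd
    linarith

end Pool.Agent.H40.Hell
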