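import Pool.Agent.H40.HellExp

set_option autoImplicit false

open Finset

namespace Pool.Agent.H40.Hell

variable {n : ℕ}

/-- expectation over two independent batches of `m` samples -/
noncomputable def E2 {m : ℕ} (p : Fin n → ℝ) (F : (Fin m → Fin n) → (Fin m → Fin n) → ℝ) : ℝ :=
  acceptProb p (fun x => acceptProb p (F x))

theorem E2_mul {m : ℕ} (p : Fin n → ℝ) (f g : (Fin m → Fin n) → ℝ) :
    E2 p (fun x y => f x * g y) = acceptProb p f * acceptProb p g := by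
  unfold E2
  have : (fun x => acceptProb p (fun y => f x * g y)) = fun x => acceptProb p g * f x := by
    funext x; rw [acceptProb_mul_left, mul_comm]
  rw [this, acceptProb_mul_left, mul_comm]

theorem E2_sum {m : ℕ} {ι : Type*} (s : Finset ι) (p : Fin n → ℝ)
    (f : ι → (Fin m → Fin n) → (Fin m → Fin n) → ℝ) :
    E2 p (fun x y => ∑ i ∈ s, f i x y) = ∑ i ∈ s, E2 p (f i) := by
  unfold E2
  have : (fun x => acceptProb p (fun y => ∑ i ∈ s, f i x y)) =
      fun x => ∑ i ∈ s, acceptProb p (f i x) := by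
    funext x; rw [acceptProb_sum]
  rw [this, acceptProb_sum]

theorem E2_mul_left {m : ℕ} (p : Fin n → ℝ) (c : ℝ)
    (F : (Fin m → Fin n) → (Fin m → Fin n) → ℝ) :
    E2 p (fun x y => c * F x y) = c * E2 p F := by
  unfold E2
  have : (fun x => acceptProb p (fun y => c * F x y)) = fun x => c * acceptProb p (F x) := by
    funext x; rw [acceptProb_mul_left]
  rw [this, acceptProb_mul_left]

theorem E2_add {m : ℕ} (p : Fin n → ℝ) (F G : (Fin m → Fin n) → (Fin m → Fin n) → ℝ) :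
    E2 p (fun x y => F x y + G x y) = E2 p F + E2 p G := by
  unfold E2
  have : (fun x => acceptProb p (fun y => F x y + G x y)) =
      fun x => acceptProb p (F x) + acceptProb p (G x) := by
    funext x; rw [acceptProb_add]
  rw [this, acceptProb_add]

theorem E2_mono {m : ℕ} {p : Fin n → ℝ} (hp : ∀ i, 0 ≤ p i)
    {F G : (Fin m → Fin n) → (Fin m → Fin n) → ℝ} (h : ∀ x y, F x y ≤ G x y) :
    E2 p F ≤ E2 p G :=
  acceptProb_mono hp fun x => acceptProb_mono hp (h x)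

theorem E2_const {m : ℕ} {p : Fin n → ℝ} (hp : ∑ i, p i = 1) (c : ℝ) :
    E2 p (fun (_ _ : Fin m → Fin n) => c) = c := by
  unfold E2
  rw [acceptProb_const hp, acceptProb_const hp]

theorem E2_left {m : ℕ} {p : Fin n → ℝ} (hp : ∑ i, p i = 1) (f : (Fin m → Fin n) → ℝ) :
    E2 p (fun (x _ : Fin m → Fin n) => f x) = acceptProb p f := by
  unfold E2
  congr 1
  funext x
  rw [acceptProb_const hp]

/-- centred count of the symbol `i` -/
noncomputable def U {m : ℕ} (q : Fin n → ℝ) (i : Fin n) (x : Fin m → Fin n) : ℝ :=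
  ∑ l, ((if x l = i then (1 : ℝ) else 0) - q i)

theorem mean_ind (p : Fin n → ℝ) (hp : ∑ i, p i = 1) (q : Fin n → ℝ) (i : Fin n) :
    ∑ r, p r * ((if r = i then (1 : ℝ) else 0) - q i) = p i - q i := by
  simp only [mul_sub, Finset.sum_sub_distrib, mul_ite, mul_one, mul_zero, Finset.sum_ite_eq',
    Finset.mem_univ, if_true]
  rw [← Finset.sum_mul, hp, one_mul]

theorem mean_U {m : ℕ} {p : Fin n → ℝ} (hp : ∑ i, p i = 1) (q : Fin n → ℝ) (i : Fin n) :
    acceptProb p (fun x : Fin m → Fin n => U q i x) = m * (p i - q i) := by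
  unfold U
  rw [acceptProb_lin hp (fun r => (if r = i then (1 : ℝ) else 0) - q i), mean_ind p hp]

theorem mean_prod (p : Fin n → ℝ) (hp : ∑ i, p i = 1) (q : Fin n → ℝ) (i l : Fin n) :
    ∑ r, p r * (((if r = i then (1 : ℝ) else 0) - q i) * ((if r = l then (1 : ℝ) else 0) - q l)) =
      (if i = l then p i else 0) - p i * p l + (p i - q i) * (p l - q l) := by
  have e : ∀ r, p r * (((if r = i then (1 : ℝ) else 0) - q i) *
      ((if r = l then (1 : ℝ) else 0) - q l)) =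
      (if r = i then (if i = l then p i else 0) else 0) - q l * (if r = i then p r else 0)
        - q i * (if r = l then p r else 0) + (q i * q l) * p r := by
    intro r
    by_cases h1 : r = i
    · subst h1
      by_cases h2 : r = l
      · subst h2; simp; ring
      · simp [h2]; ring
    · by_cases h2 : r = l
      · subst h2; simp [h1]; ring
      · simp [h1, h2]; ring
  simp only [e]
  rw [Finset.sum_add_distrib, Finset.sum_sub_distrib, Finset.sum_sub_distrib, ← Finset.mul_sum,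
    ← Finset.mul_sum, ← Finset.mul_sum, hp]
  simp only [Finset.sum_ite_eq', Finset.mem_univ, if_true]
  ring

theorem mean_UU {m : ℕ} {p : Fin n → ℝ} (hp : ∑ i, p i = 1) (q : Fin n → ℝ) (i l : Fin n) :
    acceptProb p (fun x : Fin m → Fin n => U q i x * U q l x) =
      m * ((if i = l then p i else 0) - p i * p l) + m ^ 2 * ((p i - q i) * (p l - q l)) := by
  unfold U
  rw [acceptProb_quad hp (fun r => (if r = i then (1 : ℝ) else 0) - q i)
    (fun r => (if r = l then (1 : ℝ) else 0) - q l), mean_ind p hp, mean_ind p hp,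
    mean_prod p hp]
  ring

/-- the bilinear statistic -/
noncomputable def Z {m : ℕ} (A : Finset (Fin n)) (q : Fin n → ℝ) (x y : Fin m → Fin n) : ℝ :=
  ∑ i ∈ A, (q i)⁻¹ * (U q i x * U q i y)

theorem mean_Z {m : ℕ} {p : Fin n → ℝ} (hp : ∑ i, p i = 1) (q : Fin n → ℝ)
    (A : Finset (Fin n)) :
    E2 p (fun x y : Fin m → Fin n => Z A q x y) =
      m ^ 2 * ∑ i ∈ A, (p i - q i) ^ 2 / q i := by
  unfold Z
  rw [E2_sum, Finset.mul_sum]
  refine Finset.sum_congr rfl fun i _ => ?_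
  rw [E2_mul_left, E2_mul, mean_U hp]
  ring

theorem second_Z {m : ℕ} {p : Fin n → ℝ} (hp : ∑ i, p i = 1) (q : Fin n → ℝ)
    (A : Finset (Fin n)) :
    E2 p (fun x y : Fin m → Fin n => Z A q x y ^ 2) =
      ∑ i ∈ A, ∑ l ∈ A, ((q i)⁻¹ * (q l)⁻¹) *
        (m * ((if i = l then p i else 0) - p i * p l) + m ^ 2 * ((p i - q i) * (p l - q l))) ^ 2 := by
  have e : (fun x y : Fin m → Fin n => Z A q x y ^ 2) = fun x y =>
      ∑ i ∈ A, ∑ l ∈ A, ((q i)⁻¹ * (q l)⁻¹) * ((U q i x * U q l x) * (U q i y * U q l y)) := by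
    funext x y
    unfold Z
    rw [sq, Finset.sum_mul_sum]
    refine Finset.sum_congr rfl fun i _ => Finset.sum_congr rfl fun l _ => ?_
    ring
  rw [e, E2_sum]
  refine Finset.sum_congr rfl fun i _ => ?_
  rw [E2_sum]
  refine Finset.sum_congr rfl fun l _ => ?_
  rw [E2_mul_left, E2_mul, mean_UU hp]
  ring

theorem second_Z_le {m : ℕ} {p q : Fin n → ℝ} (hp0 : ∀ i, 0 ≤ p i) (hp : ∑ i, p i = 1)
    (A : Finset (Fin n)) :
    E2 p (fun x y : Fin m → Fin n => Z A q x y ^ 2) ≤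
      (m : ℝ) ^ 2 * ∑ i ∈ A, (p i) ^ 2 / (q i) ^ 2 +
      2 * (m : ℝ) ^ 3 * ∑ i ∈ A, p i * (p i - q i) ^ 2 / (q i) ^ 2 +
      (m : ℝ) ^ 4 * (∑ i ∈ A, (p i - q i) ^ 2 / q i) ^ 2 := by
  rw [second_Z hp]
  have e : ∀ i ∈ A, ∀ l ∈ A, ((q i)⁻¹ * (q l)⁻¹) *
        ((m : ℝ) * ((if i = l then p i else 0) - p i * p l) +
          m ^ 2 * ((p i - q i) * (p l - q l))) ^ 2 =
      (if i = l then (m ^ 2 * (p i ^ 2 / q i ^ 2) + 2 * m ^ 3 * (p i * (p i - q i) ^ 2 / q i ^ 2)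
        - 2 * m ^ 2 * (p i ^ 3 / q i ^ 2)) else 0) +
      (m ^ 4 * (((p i - q i) ^ 2 / q i) * ((p l - q l) ^ 2 / q l)) -
        2 * m ^ 3 * ((p i * (p i - q i) / q i) * (p l * (p l - q l) / q l)) +
        m ^ 2 * ((p i ^ 2 / q i) * (p l ^ 2 / q l))) := by
    intro i _ l _
    by_cases h : i = l
    · subst h
      simp only [if_true]
      ring
    · simp only [h, if_false]
      ring
  rw [Finset.sum_congr rfl fun i hi => Finset.sum_congr rfl fun l hl => e i hi l hl]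
  have h1 : ∀ i ∈ A, ∑ l ∈ A, ((if i = l then ((m : ℝ) ^ 2 * (p i ^ 2 / q i ^ 2) +
        2 * m ^ 3 * (p i * (p i - q i) ^ 2 / q i ^ 2)
        - 2 * m ^ 2 * (p i ^ 3 / q i ^ 2)) else 0) +
      ((m : ℝ) ^ 4 * (((p i - q i) ^ 2 / q i) * ((p l - q l) ^ 2 / q l)) -
        2 * m ^ 3 * ((p i * (p i - q i) / q i) * (p l * (p l - q l) / q l)) +
        m ^ 2 * ((p i ^ 2 / q i) * (p l ^ 2 / q l)))) =
      (m ^ 2 * (p i ^ 2 / q i ^ 2) + 2 * m ^ 3 * (p i * (p i - q i) ^ 2 / q i ^ 2)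
        - 2 * m ^ 2 * (p i ^ 3 / q i ^ 2)) +
      (((p i - q i) ^ 2 / q i) * (m ^ 4 * ∑ l ∈ A, ((p l - q l) ^ 2 / q l)) -
        (p i * (p i - q i) / q i) * (2 * m ^ 3 * ∑ l ∈ A, (p l * (p l - q l) / q l)) +
        (p i ^ 2 / q i) * (m ^ 2 * ∑ l ∈ A, (p l ^ 2 / q l))) := by
    intro i hi
    rw [Finset.sum_add_distrib, Finset.sum_ite_eq, if_pos hi, Finset.sum_add_distrib,
      Finset.sum_sub_distrib]
    congr 1
    congr 1
    · congr 1
      · rw [Finset.mul_sum, Finset.mul_sum]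
        exact Finset.sum_congr rfl fun l _ => by ring
      · rw [Finset.mul_sum, Finset.mul_sum]
        exact Finset.sum_congr rfl fun l _ => by ring
    · rw [Finset.mul_sum, Finset.mul_sum]
      exact Finset.sum_congr rfl fun l _ => by ring
  rw [Finset.sum_congr rfl h1]
  rw [Finset.sum_add_distrib, Finset.sum_sub_distrib, Finset.sum_add_distrib,
    Finset.sum_add_distrib, Finset.sum_sub_distrib]
  rw [← Finset.sum_mul, ← Finset.sum_mul, ← Finset.sum_mul, ← Finset.mul_sum, ← Finset.mul_sum,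
    ← Finset.mul_sum]
  -- Cauchy-Schwarz
  have hCS : (∑ i ∈ A, p i ^ 2 / q i) ^ 2 ≤ (∑ i ∈ A, p i) * ∑ i ∈ A, p i ^ 3 / q i ^ 2 := by
    apply Finset.sum_sq_le_sum_mul_sum_of_sq_le_mul
    · intro i _; exact hp0 i
    · intro i _; exact div_nonneg (pow_nonneg (hp0 i) 3) (sq_nonneg _)
    · intro i _; exact le_of_eq (by ring)
  have hA1 : ∑ i ∈ A, p i ≤ 1 := by
    rw [← hp]
    exact Finset.sum_le_sum_of_subset_of_nonneg (Finset.subset_univ _) fun i _ _ => hp0 i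
  have h3 : 0 ≤ ∑ i ∈ A, p i ^ 3 / q i ^ 2 :=
    Finset.sum_nonneg fun i _ => div_nonneg (pow_nonneg (hp0 i) 3) (sq_nonneg _)
  have h4 : (∑ i ∈ A, p i ^ 2 / q i) ^ 2 ≤ ∑ i ∈ A, p i ^ 3 / q i ^ 2 := by nlinarith
  have hm : (0 : ℝ) ≤ (m : ℝ) := Nat.cast_nonneg m
  have hm2 : (0 : ℝ) ≤ (m : ℝ) ^ 2 := by positivity
  have hm3 : (0 : ℝ) ≤ (m : ℝ) ^ 3 := by positivity
  have h5 : 0 ≤ (m : ℝ) ^ 3 * (∑ i ∈ A, p i * (p i - q i) / q i) ^ 2 :=
    mul_nonneg hm3 (sq_nonneg _)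
  nlinarith [mul_le_mul_of_nonneg_left h4 hm2, mul_nonneg hm2 h3]

/-- variance bound for the bilinear statistic -/
theorem var_Z_le {m : ℕ} {p q : Fin n → ℝ} (hp0 : ∀ i, 0 ≤ p i) (hp : ∑ i, p i = 1)
    (A : Finset (Fin n)) :
    E2 p (fun x y : Fin m → Fin n =>
      (Z A q x y - (m : ℝ) ^ 2 * ∑ i ∈ A, (p i - q i) ^ 2 / q i) ^ 2) ≤
      (m : ℝ) ^ 2 * ∑ i ∈ A, (p i) ^ 2 / (q i) ^ 2 +
      2 * (m : ℝ) ^ 3 * ∑ i ∈ A, p i * (p i - q i) ^ 2 / (q i) ^ 2 := by
  set μ := (m : ℝ) ^ 2 * ∑ i ∈ A, (p i - q i) ^ 2 / q i with hμ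
  have e : (fun x y : Fin m → Fin n => (Z A q x y - μ) ^ 2) = fun x y =>
      Z A q x y ^ 2 + ((-2 * μ) * Z A q x y + μ ^ 2) := by
    funext x y; ring
  rw [e, E2_add, E2_add, E2_mul_left, E2_const hp, mean_Z hp]
  have h := second_Z_le (m := m) (q := q) hp0 hp A
  have h2 : (m : ℝ) ^ 4 * (∑ i ∈ A, (p i - q i) ^ 2 / q i) ^ 2 = μ ^ 2 := by
    rw [hμ]; ring
  rw [h2] at h
  rw [← hμ]
  linarith

end Pool.Agent.H40.Hell
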