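import Mathlib

set_option autoImplicit false

open scoped RealInnerProductSpace

namespace Pool.Agent.H40.NP

theorem rpow_sub_one_mul {s p : ℝ} (hs : 0 ≤ s) (hp : 1 < p) : s ^ (p - 1) * s = s ^ p := by
  rcases hs.eq_or_lt with h | h
  · subst h
    rw [mul_zero, Real.zero_rpow (by linarith)]
  · rw [Real.rpow_sub_one h.ne', div_mul_cancel₀ _ h.ne']

/-- Young's inequality in a crude form, with powers of the cut-off. -/
theorem young {p s t η δ : ℝ} {j : ℕ} (hp : 1 < p) (hj : p ≤ 2 * j + 2) (hs : 0 ≤ s) (ht : 0 ≤ t)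
    (hη : 0 ≤ η) (hη1 : η ≤ 1) (hδ : 0 < δ) :
    η ^ (2 * j + 1) * s ^ (p - 1) * t ≤ δ * (η ^ (2 * j + 2) * s ^ p) + δ ^ (1 - p) * t ^ p := by
  rcases le_or_gt t (δ * (η * s)) with h | h
  · have h1 : η ^ (2 * j + 1) * s ^ (p - 1) * t ≤ η ^ (2 * j + 1) * s ^ (p - 1) * (δ * (η * s)) :=
      mul_le_mul_of_nonneg_left h (by positivity)
    have h2 : η ^ (2 * j + 1) * s ^ (p - 1) * (δ * (η * s)) = δ * (η ^ (2 * j + 2) * s ^ p) := by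
      rw [← rpow_sub_one_mul hs hp]; ring
    have h3 : 0 ≤ δ ^ (1 - p) * t ^ p := by positivity
    linarith
  · have ht0 : 0 < t := lt_of_le_of_lt (by positivity) h
    have h1 : η * s ≤ t / δ := by
      rw [le_div_iff₀ hδ]; linarith
    have h2 : η ^ (2 * j + 1) ≤ η ^ (p - 1) := by
      rw [← Real.rpow_natCast]
      apply Real.rpow_le_rpow_of_exponent_ge' hη hη1 (by linarith)
      push_cast; linarith
    have h3 : η ^ (2 * j + 1) * s ^ (p - 1) ≤ (t / δ) ^ (p - 1) := by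
      calc η ^ (2 * j + 1) * s ^ (p - 1) ≤ η ^ (p - 1) * s ^ (p - 1) :=
            mul_le_mul_of_nonneg_right h2 (by positivity)
        _ = (η * s) ^ (p - 1) := (Real.mul_rpow hη hs).symm
        _ ≤ (t / δ) ^ (p - 1) := Real.rpow_le_rpow (by positivity) h1 (by linarith)
    have h4 : η ^ (2 * j + 1) * s ^ (p - 1) * t ≤ (t / δ) ^ (p - 1) * t :=
      mul_le_mul_of_nonneg_right h3 ht
    have h5 : (t / δ) ^ (p - 1) * t = δ ^ (1 - p) * t ^ p := by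
      rw [Real.div_rpow ht hδ.le, ← rpow_sub_one_mul ht hp, show 1 - p = -(p - 1) by ring,
        Real.rpow_neg hδ.le]
      field_simp
    have h6 : 0 ≤ δ * (η ^ (2 * j + 2) * s ^ p) := by positivity
    linarith

variable {H : Type*} [NormedAddCommGroup H] [InnerProductSpace ℝ H]

/-- The pointwise energy inequality. -/
theorem energy_point {p α β κ δ : ℝ} {j : ℕ} (hp : 1 < p) (hj : p ≤ 2 * j + 2) (hα : 0 < α)
    (hβ : 0 < β) (hκ : 0 < κ) (hδ : δ = κ * α / (2 * (j + 1) * β))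
    {a1 a2 b b' η l1 l2 : ℝ} {V U N bV bU : H} (hb : 0 ≤ b) (hb' : 0 ≤ b')
    (hη : 0 ≤ η) (hη1 : η ≤ 1)
    (hV1 : α * ‖V‖ ^ p ≤ ⟪bV, V⟫) (hV2 : ‖bV‖ ≤ β * ‖V‖ ^ (p - 1))
    (hU1 : α * ‖U‖ ^ p ≤ ⟪bU, U⟫) (hU2 : ‖bU‖ ≤ β * ‖U‖ ^ (p - 1))
    (hmono : 0 ≤ ⟪a1 ^ 2 • bV - a2 ^ 2 • bU, l1 • V - l2 • U⟫) :
    κ * α * (b ^ 2 * η ^ (2 * j + 2) * (a1 ^ 2 * ‖V‖ ^ p + a2 ^ 2 * ‖U‖ ^ p)) -
      2 * (j + 1) * β * δ ^ (1 - p) * (b ^ 2 * (a1 ^ 2 + a2 ^ 2) * ‖N‖ ^ p) ≤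
    ⟪bV, (2 * (a1 * (b * η ^ (j + 1)))) • (a1 • (b • (((j + 1 : ℝ) * η ^ j) • N) +
        (η ^ (j + 1)) • (b' • (l1 • V - l2 • U))) + (b * η ^ (j + 1)) • ((κ * a1) • V))⟫ -
    ⟪bU, (2 * (a2 * (b * η ^ (j + 1)))) • (a2 • (b • (((j + 1 : ℝ) * η ^ j) • N) +
        (η ^ (j + 1)) • (b' • (l1 • V - l2 • U))) + (b * η ^ (j + 1)) • ((-κ * a2) • U))⟫ := by
  have hj1 : (0:ℝ) < j + 1 := by positivity
  have hδ0 : 0 < δ := by rw [hδ]; positivity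
  have e : ⟪bV, (2 * (a1 * (b * η ^ (j + 1)))) • (a1 • (b • (((j + 1 : ℝ) * η ^ j) • N) +
        (η ^ (j + 1)) • (b' • (l1 • V - l2 • U))) + (b * η ^ (j + 1)) • ((κ * a1) • V))⟫ -
      ⟪bU, (2 * (a2 * (b * η ^ (j + 1)))) • (a2 • (b • (((j + 1 : ℝ) * η ^ j) • N) +
        (η ^ (j + 1)) • (b' • (l1 • V - l2 • U))) + (b * η ^ (j + 1)) • ((-κ * a2) • U))⟫ =
      2 * b ^ 2 * ((j + 1) * η ^ (2 * j + 1)) * (a1 ^ 2 * ⟪bV, N⟫ - a2 ^ 2 * ⟪bU, N⟫) +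
      2 * b * η ^ (2 * j + 2) * b' * ⟪a1 ^ 2 • bV - a2 ^ 2 • bU, l1 • V - l2 • U⟫ +
      2 * κ * b ^ 2 * η ^ (2 * j + 2) * (a1 ^ 2 * ⟪bV, V⟫ + a2 ^ 2 * ⟪bU, U⟫) := by
    simp only [inner_add_right, real_inner_smul_right, real_inner_smul_left, inner_sub_left,
      inner_sub_right]
    ring
  rw [e]
  have h1 : 0 ≤ 2 * b * η ^ (2 * j + 2) * b' *
      ⟪a1 ^ 2 • bV - a2 ^ 2 • bU, l1 • V - l2 • U⟫ := by positivity
  have h2 : 2 * κ * b ^ 2 * η ^ (2 * j + 2) * (a1 ^ 2 * (α * ‖V‖ ^ p) + a2 ^ 2 * (α * ‖U‖ ^ p)) ≤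
      2 * κ * b ^ 2 * η ^ (2 * j + 2) * (a1 ^ 2 * ⟪bV, V⟫ + a2 ^ 2 * ⟪bU, U⟫) := by
    apply mul_le_mul_of_nonneg_left _ (by positivity)
    exact add_le_add (mul_le_mul_of_nonneg_left hV1 (by positivity))
      (mul_le_mul_of_nonneg_left hU1 (by positivity))
  have hin : ∀ (X bX : H), ‖bX‖ ≤ β * ‖X‖ ^ (p - 1) → |⟪bX, N⟫| ≤ β * ‖X‖ ^ (p - 1) * ‖N‖ := by
    intro X bX hX
    exact (abs_real_inner_le_norm _ _).trans (mul_le_mul_of_nonneg_right hX (norm_nonneg _))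
  have hy : ∀ X : H, η ^ (2 * j + 1) * ‖X‖ ^ (p - 1) * ‖N‖ ≤
      δ * (η ^ (2 * j + 2) * ‖X‖ ^ p) + δ ^ (1 - p) * ‖N‖ ^ p := fun X =>
    young hp hj (norm_nonneg _) (norm_nonneg _) hη hη1 hδ0
  have hkey : ∀ (a : ℝ) (X bX : H), ‖bX‖ ≤ β * ‖X‖ ^ (p - 1) →
      |2 * b ^ 2 * ((j + 1) * η ^ (2 * j + 1)) * (a ^ 2 * ⟪bX, N⟫)| ≤
      κ * α * (b ^ 2 * η ^ (2 * j + 2) * (a ^ 2 * ‖X‖ ^ p)) +
      2 * (j + 1) * β * δ ^ (1 - p) * (b ^ 2 * a ^ 2 * ‖N‖ ^ p) := by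
    intro a X bX hX
    have e1 : |2 * b ^ 2 * ((j + 1) * η ^ (2 * j + 1)) * (a ^ 2 * ⟪bX, N⟫)| =
        2 * b ^ 2 * ((j + 1) * η ^ (2 * j + 1)) * a ^ 2 * |⟪bX, N⟫| := by
      rw [← mul_assoc, abs_mul, abs_of_nonneg (by positivity)]
    rw [e1]
    calc 2 * b ^ 2 * ((j + 1) * η ^ (2 * j + 1)) * a ^ 2 * |⟪bX, N⟫| ≤
        2 * b ^ 2 * ((j + 1) * η ^ (2 * j + 1)) * a ^ 2 * (β * ‖X‖ ^ (p - 1) * ‖N‖) :=
          mul_le_mul_of_nonneg_left (hin X bX hX) (by positivity)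
      _ = (2 * b ^ 2 * (j + 1) * a ^ 2 * β) * (η ^ (2 * j + 1) * ‖X‖ ^ (p - 1) * ‖N‖) := by ring
      _ ≤ (2 * b ^ 2 * (j + 1) * a ^ 2 * β) * (δ * (η ^ (2 * j + 2) * ‖X‖ ^ p) +
          δ ^ (1 - p) * ‖N‖ ^ p) := mul_le_mul_of_nonneg_left (hy X) (by positivity)
      _ = (2 * (j + 1) * β * δ) * (b ^ 2 * η ^ (2 * j + 2) * (a ^ 2 * ‖X‖ ^ p)) +
          2 * (j + 1) * β * δ ^ (1 - p) * (b ^ 2 * a ^ 2 * ‖N‖ ^ p) := by ring
      _ = _ := by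
          congr 2
          rw [hδ]; field_simp
  have k1 := abs_le.1 (hkey a1 V bV hV2)
  have k2 := abs_le.1 (hkey a2 U bU hU2)
  nlinarith [k1.1, k2.2, h1, h2]

/-- `(x + y + z)^p ≤ 3^p (x^p + y^p + z^p)` -/
theorem three_rpow {p x y z : ℝ} (hp : 1 < p) (hx : 0 ≤ x) (hy : 0 ≤ y) (hz : 0 ≤ z) :
    (x + y + z) ^ p ≤ 3 ^ p * (x ^ p + y ^ p + z ^ p) := by
  have hm : x + y + z ≤ 3 * max (max x y) z := by
    have h1 := le_max_left (max x y) z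
    have h2 := le_max_right (max x y) z
    have h3 := le_max_left x y
    have h4 := le_max_right x y
    linarith
  have hmax : (max (max x y) z) ^ p ≤ x ^ p + y ^ p + z ^ p := by
    have p1 : 0 ≤ x ^ p := by positivity
    have p2 : 0 ≤ y ^ p := by positivity
    have p3 : 0 ≤ z ^ p := by positivity
    rcases max_cases (max x y) z with ⟨h, _⟩ | ⟨h, _⟩ <;> rw [h]
    · rcases max_cases x y with ⟨h, _⟩ | ⟨h, _⟩ <;> rw [h] <;> linarith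
    · linarith
  have hm0 : 0 ≤ max (max x y) z := le_max_of_le_right hz
  calc (x + y + z) ^ p ≤ (3 * max (max x y) z) ^ p :=
        Real.rpow_le_rpow (by positivity) hm (by linarith)
    _ = 3 ^ p * (max (max x y) z) ^ p := Real.mul_rpow (by norm_num) hm0
    _ ≤ _ := mul_le_mul_of_nonneg_left hmax (by positivity)

/-- Pointwise bound of the gradient of the final test function. -/
theorem grad_point {p L M : ℝ} {j : ℕ} (hp : 1 < p) {b g2 g2' η l1 l2 : ℝ} {V U N : H}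
    (hη : 0 ≤ η) (hη1 : η ≤ 1) (hg : |g2| ≤ 1) (hg' : |g2'| ≤ L) (hbg : g2' ≠ 0 → b = 1)
    (hl1 : |l1| ≤ M) (hl2 : |l2| ≤ M) :
    ‖g2 • (((2 * j + 2 : ℝ) * η ^ (2 * j + 1)) • N) +
        (η ^ (2 * j + 2)) • (g2' • (l1 • V - l2 • U))‖ ^ p ≤
      3 ^ p * ((2 * j + 2) ^ p + (L * M) ^ p) *
        (b ^ 2 * η ^ (2 * j + 2) * (‖V‖ ^ p + ‖U‖ ^ p) + ‖N‖ ^ p) := by
  have hL : 0 ≤ L := (abs_nonneg _).trans hg'
  have hM : 0 ≤ M := (abs_nonneg _).trans hl1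
  have hηk : η ^ (2 * j + 1) ≤ 1 := pow_le_one₀ hη hη1
  have h1 : ‖g2 • (((2 * j + 2 : ℝ) * η ^ (2 * j + 1)) • N)‖ ≤ (2 * j + 2) * ‖N‖ := by
    rw [norm_smul, norm_smul, Real.norm_eq_abs, Real.norm_eq_abs, abs_mul,
      abs_of_nonneg (by positivity : (0:ℝ) ≤ 2 * j + 2),
      abs_of_nonneg (by positivity : (0:ℝ) ≤ η ^ (2 * j + 1))]
    calc |g2| * ((2 * j + 2) * η ^ (2 * j + 1) * ‖N‖) ≤ 1 * ((2 * j + 2) * 1 * ‖N‖) := by
          apply mul_le_mul hg _ (by positivity) (by norm_num)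
          apply mul_le_mul_of_nonneg_right _ (norm_nonneg _)
          exact mul_le_mul_of_nonneg_left hηk (by positivity)
      _ = _ := by ring
  have h2 : ∀ (l : ℝ) (X : H), |l| ≤ M →
      ‖(η ^ (2 * j + 2)) • (g2' • (l • X))‖ ≤ η ^ (2 * j + 2) * |g2'| * M * ‖X‖ := by
    intro l X hl
    rw [norm_smul, norm_smul, norm_smul, Real.norm_eq_abs, Real.norm_eq_abs, Real.norm_eq_abs,
      abs_of_nonneg (by positivity : (0:ℝ) ≤ η ^ (2 * j + 2))]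
    calc η ^ (2 * j + 2) * (|g2'| * (|l| * ‖X‖)) = η ^ (2 * j + 2) * |g2'| * ‖X‖ * |l| := by ring
      _ ≤ η ^ (2 * j + 2) * |g2'| * ‖X‖ * M := mul_le_mul_of_nonneg_left hl (by positivity)
      _ = _ := by ring
  have h3 : ‖g2 • (((2 * j + 2 : ℝ) * η ^ (2 * j + 1)) • N) +
        (η ^ (2 * j + 2)) • (g2' • (l1 • V - l2 • U))‖ ≤
      (2 * j + 2) * ‖N‖ + η ^ (2 * j + 2) * |g2'| * M * ‖V‖ +
        η ^ (2 * j + 2) * |g2'| * M * ‖U‖ := by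
    rw [smul_sub, smul_sub]
    refine (norm_add_le _ _).trans ?_
    rw [add_assoc]
    apply add_le_add h1
    exact (norm_sub_le _ _).trans (add_le_add (h2 _ _ hl1) (h2 _ _ hl2))
  have h4 : ∀ X : H, (η ^ (2 * j + 2) * |g2'| * M * ‖X‖) ^ p ≤
      (L * M) ^ p * (b ^ 2 * η ^ (2 * j + 2) * ‖X‖ ^ p) := by
    intro X
    by_cases h0 : g2' = 0
    · rw [h0, abs_zero, mul_zero, zero_mul, zero_mul, Real.zero_rpow (by linarith)]
      positivity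
    · rw [hbg h0]
      have hq : (η ^ (2 * j + 2)) ^ p ≤ η ^ (2 * j + 2) := by
        have := Real.rpow_le_rpow_of_exponent_ge' (x := η ^ (2 * j + 2)) (by positivity)
          (pow_le_one₀ hη hη1) zero_le_one hp.le
        rwa [Real.rpow_one] at this
      have hr : |g2'| ^ p ≤ L ^ p := Real.rpow_le_rpow (abs_nonneg _) hg' (by linarith)
      rw [Real.mul_rpow (by positivity) (norm_nonneg _), Real.mul_rpow (by positivity) hM,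
        Real.mul_rpow (by positivity) (abs_nonneg _), Real.mul_rpow hL hM]
      calc (η ^ (2 * j + 2)) ^ p * |g2'| ^ p * M ^ p * ‖X‖ ^ p ≤
          η ^ (2 * j + 2) * L ^ p * M ^ p * ‖X‖ ^ p := by
            apply mul_le_mul_of_nonneg_right _ (by positivity)
            apply mul_le_mul_of_nonneg_right _ (by positivity)
            exact mul_le_mul hq hr (by positivity) (by positivity)
        _ = _ := by ring
  calc _ ≤ ((2 * j + 2) * ‖N‖ + η ^ (2 * j + 2) * |g2'| * M * ‖V‖ +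
        η ^ (2 * j + 2) * |g2'| * M * ‖U‖) ^ p :=
        Real.rpow_le_rpow (norm_nonneg _) h3 (by linarith)
    _ ≤ 3 ^ p * (((2 * j + 2) * ‖N‖) ^ p + (η ^ (2 * j + 2) * |g2'| * M * ‖V‖) ^ p +
        (η ^ (2 * j + 2) * |g2'| * M * ‖U‖) ^ p) :=
        three_rpow hp (by positivity) (by positivity) (by positivity)
    _ ≤ 3 ^ p * ((2 * j + 2) ^ p * ‖N‖ ^ p + (L * M) ^ p * (b ^ 2 * η ^ (2 * j + 2) * ‖V‖ ^ p) +
        (L * M) ^ p * (b ^ 2 * η ^ (2 * j + 2) * ‖U‖ ^ p)) := by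
        apply mul_le_mul_of_nonneg_left _ (by positivity)
        apply add_le_add (add_le_add _ (h4 V)) (h4 U)
        rw [Real.mul_rpow (by positivity) (norm_nonneg _)]
    _ ≤ _ := by
        have q1 : 0 ≤ (2 * (j:ℝ) + 2) ^ p := by positivity
        have q2 : 0 ≤ (L * M) ^ p := by positivity
        have q3 : 0 ≤ b ^ 2 * η ^ (2 * j + 2) * ‖V‖ ^ p := by positivity
        have q4 : 0 ≤ b ^ 2 * η ^ (2 * j + 2) * ‖U‖ ^ p := by positivity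
        have q5 : 0 ≤ ‖N‖ ^ p := by positivity
        rw [mul_assoc ((3:ℝ) ^ p)]
        apply mul_le_mul_of_nonneg_left _ (by positivity)
        nlinarith [mul_nonneg q1 q3, mul_nonneg q1 q4, mul_nonneg q2 q5]

/-- The two pointwise estimates combined. -/
theorem final_point {p α β κ K L M : ℝ} {j : ℕ} (hp : 1 < p) (hj : p ≤ 2 * j + 2) (hα : 0 < α)
    (hβ : 0 < β) (hκ : 0 < κ) (hL : 0 ≤ L) (hM : 0 ≤ M) :
    ∃ C1 C2 : ℝ, 0 ≤ C1 ∧ 0 ≤ C2 ∧ ∀ (r s b b' g2 g2' η l1 l2 : ℝ) (V U N bV bU : H),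
    |r| ≤ K → |s| ≤ K → 0 ≤ b → b ≤ 1 → 0 ≤ b' → 0 ≤ η → η ≤ 1 →
    |g2| ≤ 1 → |g2'| ≤ L → (g2' ≠ 0 → b = 1) → |l1| ≤ M → |l2| ≤ M →
    α * ‖V‖ ^ p ≤ ⟪bV, V⟫ → ‖bV‖ ≤ β * ‖V‖ ^ (p - 1) →
    α * ‖U‖ ^ p ≤ ⟪bU, U⟫ → ‖bU‖ ≤ β * ‖U‖ ^ (p - 1) →
    0 ≤ ⟪Real.exp (κ * r) ^ 2 • bV - Real.exp (-κ * s) ^ 2 • bU, l1 • V - l2 • U⟫ →
    ‖g2 • (((2 * j + 2 : ℝ) * η ^ (2 * j + 1)) • N) +
        (η ^ (2 * j + 2)) • (g2' • (l1 • V - l2 • U))‖ ^ p ≤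
    C1 * (⟪bV, (2 * (Real.exp (κ * r) * (b * η ^ (j + 1)))) • (Real.exp (κ * r) •
          (b • (((j + 1 : ℝ) * η ^ j) • N) +
        (η ^ (j + 1)) • (b' • (l1 • V - l2 • U))) + (b * η ^ (j + 1)) •
          ((κ * Real.exp (κ * r)) • V))⟫ -
    ⟪bU, (2 * (Real.exp (-κ * s) * (b * η ^ (j + 1)))) • (Real.exp (-κ * s) •
          (b • (((j + 1 : ℝ) * η ^ j) • N) +
        (η ^ (j + 1)) • (b' • (l1 • V - l2 • U))) + (b * η ^ (j + 1)) •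
          ((-κ * Real.exp (-κ * s)) • U))⟫) +
    C2 * ‖N‖ ^ p := by
  set δ : ℝ := κ * α / (2 * (j + 1) * β) with hδ
  have hj1 : (0:ℝ) < j + 1 := by positivity
  have hδ0 : 0 < δ := by rw [hδ]; positivity
  set T : ℝ := κ * α * Real.exp (-(2 * κ * K)) with hT
  have hT0 : 0 < T := by rw [hT]; positivity
  set Q : ℝ := 2 * (j + 1) * β * δ ^ (1 - p) * (2 * Real.exp (2 * κ * K)) with hQ
  have hQ0 : 0 ≤ Q := by rw [hQ]; positivity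
  set P : ℝ := 3 ^ p * ((2 * j + 2) ^ p + (L * M) ^ p) with hP
  have hP0 : 0 ≤ P := by rw [hP]; positivity
  refine ⟨P / T, P / T * Q + P, by positivity, by positivity, ?_⟩
  intro r s b b' g2 g2' η l1 l2 V U N bV bU hr hs hb hb1 hb' hη hη1 hg hg' hbg hl1 hl2
    hV1 hV2 hU1 hU2 hmono
  have h1 := energy_point (j := j) (N := N) hp hj hα hβ hκ hδ hb hb' hη hη1 hV1 hV2 hU1 hU2 hmono
  have h2 := grad_point (j := j) (N := N) (V := V) (U := U) hp hη hη1 hg hg' hbg hl1 hl2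
  set Dd := ⟪bV, (2 * (Real.exp (κ * r) * (b * η ^ (j + 1)))) • (Real.exp (κ * r) •
          (b • (((j + 1 : ℝ) * η ^ j) • N) +
        (η ^ (j + 1)) • (b' • (l1 • V - l2 • U))) + (b * η ^ (j + 1)) •
          ((κ * Real.exp (κ * r)) • V))⟫ -
    ⟪bU, (2 * (Real.exp (-κ * s) * (b * η ^ (j + 1)))) • (Real.exp (-κ * s) •
          (b • (((j + 1 : ℝ) * η ^ j) • N) +
        (η ^ (j + 1)) • (b' • (l1 • V - l2 • U))) + (b * η ^ (j + 1)) •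
          ((-κ * Real.exp (-κ * s)) • U))⟫ with hDd
  have hsq : ∀ t : ℝ, Real.exp t ^ 2 = Real.exp (2 * t) := fun t => by
    rw [← Real.exp_nat_mul]; norm_num
  have hr' := abs_le.1 hr
  have hs' := abs_le.1 hs
  have q1 : 0 ≤ κ * (r + K) := mul_nonneg hκ.le (by linarith [hr'.1])
  have q2 : 0 ≤ κ * (K - r) := mul_nonneg hκ.le (by linarith [hr'.2])
  have q3 : 0 ≤ κ * (s + K) := mul_nonneg hκ.le (by linarith [hs'.1])
  have q4 : 0 ≤ κ * (K - s) := mul_nonneg hκ.le (by linarith [hs'.2])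
  clear_value Dd
  have l1' : Real.exp (-(2 * κ * K)) ≤ Real.exp (κ * r) ^ 2 := by
    rw [hsq]; apply Real.exp_le_exp.2; linarith
  have l2' : Real.exp (-(2 * κ * K)) ≤ Real.exp (-κ * s) ^ 2 := by
    rw [hsq]; apply Real.exp_le_exp.2; linarith
  have u1' : Real.exp (κ * r) ^ 2 ≤ Real.exp (2 * κ * K) := by
    rw [hsq]; apply Real.exp_le_exp.2; linarith
  have u2' : Real.exp (-κ * s) ^ 2 ≤ Real.exp (2 * κ * K) := by
    rw [hsq]; apply Real.exp_le_exp.2; linarith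
  have h3 : T * (b ^ 2 * η ^ (2 * j + 2) * (‖V‖ ^ p + ‖U‖ ^ p)) ≤
      κ * α * (b ^ 2 * η ^ (2 * j + 2) * (Real.exp (κ * r) ^ 2 * ‖V‖ ^ p +
        Real.exp (-κ * s) ^ 2 * ‖U‖ ^ p)) := by
    have q1 : Real.exp (-(2 * κ * K)) * (‖V‖ ^ p + ‖U‖ ^ p) ≤
        Real.exp (κ * r) ^ 2 * ‖V‖ ^ p + Real.exp (-κ * s) ^ 2 * ‖U‖ ^ p := by
      rw [mul_add]
      exact add_le_add (mul_le_mul_of_nonneg_right l1' (by positivity))
        (mul_le_mul_of_nonneg_right l2' (by positivity))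
    calc T * (b ^ 2 * η ^ (2 * j + 2) * (‖V‖ ^ p + ‖U‖ ^ p)) =
        κ * α * (b ^ 2 * η ^ (2 * j + 2) * (Real.exp (-(2 * κ * K)) *
          (‖V‖ ^ p + ‖U‖ ^ p))) := by rw [hT]; ring
      _ ≤ _ := by
        apply mul_le_mul_of_nonneg_left _ (by positivity)
        exact mul_le_mul_of_nonneg_left q1 (by positivity)
  have h4 : 2 * (j + 1) * β * δ ^ (1 - p) * (b ^ 2 * (Real.exp (κ * r) ^ 2 +
      Real.exp (-κ * s) ^ 2) * ‖N‖ ^ p) ≤ Q * ‖N‖ ^ p := by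
    have q1 : b ^ 2 * (Real.exp (κ * r) ^ 2 + Real.exp (-κ * s) ^ 2) ≤
        1 * (2 * Real.exp (2 * κ * K)) := by
      apply mul_le_mul (pow_le_one₀ hb hb1) (by linarith) (by positivity) (by norm_num)
    rw [one_mul] at q1
    calc 2 * (j + 1) * β * δ ^ (1 - p) * (b ^ 2 * (Real.exp (κ * r) ^ 2 +
      Real.exp (-κ * s) ^ 2) * ‖N‖ ^ p) ≤ 2 * (j + 1) * β * δ ^ (1 - p) *
        ((2 * Real.exp (2 * κ * K)) * ‖N‖ ^ p) := by
          apply mul_le_mul_of_nonneg_left _ (by positivity)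
          exact mul_le_mul_of_nonneg_right q1 (by positivity)
      _ = _ := by rw [hQ]; ring
  have h5 : b ^ 2 * η ^ (2 * j + 2) * (‖V‖ ^ p + ‖U‖ ^ p) ≤ (Dd + Q * ‖N‖ ^ p) / T := by
    rw [le_div_iff₀ hT0]
    linarith
  calc _ ≤ P * (b ^ 2 * η ^ (2 * j + 2) * (‖V‖ ^ p + ‖U‖ ^ p) + ‖N‖ ^ p) := h2
    _ ≤ P * ((Dd + Q * ‖N‖ ^ p) / T + ‖N‖ ^ p) := by
        apply mul_le_mul_of_nonneg_left _ hP0
        linarith
    _ = _ := by field_simp; ring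

end Pool.Agent.H40.NP
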