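import Pool.Agent.H40.NPFried
import Pool.Agent.H40.NPPoint

set_option autoImplicit false

open MeasureTheory Filter Topology Metric
open scoped ContDiff RealInnerProductSpace Manifold

namespace Pool.Agent.H40.NP

variable {n : ℕ} {p : ℝ} {w : E n → ℝ} {A : E n → E n → E n} {D Ω : Set (E n)}

/-! ### One-variable functions -/

/-- `g_h(t)`: smooth, nondecreasing, `0` for `t ≤ 0` and `1` for `t ≥ h` -/
noncomputable def gf (h : ℝ) (t : ℝ) : ℝ := Real.smoothTransition (t / h)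

theorem gf_contDiff (h : ℝ) : ContDiff ℝ ∞ (gf h) :=
  Real.smoothTransition.contDiff.comp (contDiff_id.div_const h)

theorem gf_nonneg (h t : ℝ) : 0 ≤ gf h t := Real.smoothTransition.nonneg _

theorem gf_le_one (h t : ℝ) : gf h t ≤ 1 := Real.smoothTransition.le_one _

theorem gf_zero {h t : ℝ} (hh : 0 < h) (ht : t ≤ 0) : gf h t = 0 :=
  Real.smoothTransition.zero_of_nonpos (div_nonpos_of_nonpos_of_nonneg ht hh.le)

theorem gf_one {h t : ℝ} (hh : 0 < h) (ht : h ≤ t) : gf h t = 1 :=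
  Real.smoothTransition.one_of_one_le ((one_le_div hh).2 ht)

theorem gf_monotone {h : ℝ} (hh : 0 < h) : Monotone (gf h) := fun _ _ hab =>
  Real.smoothTransition.monotone (div_le_div_of_nonneg_right hab hh.le)

theorem gf_deriv_nonneg {h : ℝ} (hh : 0 < h) (t : ℝ) : 0 ≤ deriv (gf h) t :=
  (gf_monotone hh).deriv_nonneg

theorem gf_deriv_zero_left {h t : ℝ} (hh : 0 < h) (ht : t < 0) : deriv (gf h) t = 0 := by
  have h1 : gf h =ᶠ[𝓝 t] fun _ => 0 := by
    filter_upwards [Iio_mem_nhds ht] with s hs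
    exact gf_zero hh (le_of_lt hs)
  rw [h1.deriv_eq, deriv_const]

theorem gf_deriv_zero_right {h t : ℝ} (hh : 0 < h) (ht : h < t) : deriv (gf h) t = 0 := by
  have h1 : gf h =ᶠ[𝓝 t] fun _ => 1 := by
    filter_upwards [Ioi_mem_nhds ht] with s hs
    exact gf_one hh (le_of_lt hs)
  rw [h1.deriv_eq, deriv_const]

theorem gf_deriv_bdd {h : ℝ} (hh : 0 < h) : ∃ L, 0 ≤ L ∧ ∀ t, |deriv (gf h) t| ≤ L := by
  have hc : Continuous (deriv (gf h)) := (gf_contDiff h).continuous_deriv (by simp)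
  obtain ⟨L, hL⟩ := isCompact_Icc.exists_bound_of_continuousOn (s := Set.Icc 0 h) hc.continuousOn
  refine ⟨max L 0, le_max_right _ _, fun t => ?_⟩
  by_cases h1 : t < 0
  · rw [gf_deriv_zero_left hh h1, abs_zero]; exact le_max_right _ _
  by_cases h2 : h < t
  · rw [gf_deriv_zero_right hh h2, abs_zero]; exact le_max_right _ _
  exact (hL t ⟨not_lt.1 h1, not_lt.1 h2⟩).trans (le_max_left _ _)

/-- `N(t)`: `1` for `t ≤ 1/2`, `0` for `t ≥ 1` -/
noncomputable def nf (t : ℝ) : ℝ := 1 - gf (1 / 2) (t - 1 / 2)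

theorem nf_contDiff : ContDiff ℝ ∞ nf :=
  contDiff_const.sub ((gf_contDiff _).comp (contDiff_id.sub contDiff_const))

theorem nf_nonneg (t : ℝ) : 0 ≤ nf t := sub_nonneg.2 (gf_le_one _ _)

theorem nf_le_one (t : ℝ) : nf t ≤ 1 := by
  have := gf_nonneg (1 / 2) (t - 1 / 2)
  unfold nf; linarith

theorem nf_one {t : ℝ} (ht : t ≤ 1 / 2) : nf t = 1 := by
  unfold nf; rw [gf_zero (by norm_num) (by linarith)]; norm_num

theorem nf_zero {t : ℝ} (ht : 1 ≤ t) : nf t = 0 := by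
  unfold nf; rw [gf_one (by norm_num) (by linarith)]; norm_num

theorem nf_deriv_bdd : ∃ L, 0 ≤ L ∧ ∀ t, |deriv nf t| ≤ L := by
  obtain ⟨L, hL0, hL⟩ := gf_deriv_bdd (h := 1 / 2) (by norm_num)
  refine ⟨L, hL0, fun t => ?_⟩
  have h1 : HasDerivAt (fun s : ℝ => s - 1 / 2) 1 t := by
    simpa using (hasDerivAt_id t).sub_const (1 / 2)
  have h2 : HasDerivAt (gf (1 / 2)) (deriv (gf (1 / 2)) (t - 1 / 2)) (t - 1 / 2) :=
    ((gf_contDiff _).differentiable (by simp) _).hasDerivAt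
  have h3 := (h2.comp t h1).const_sub 1
  have h4 : deriv nf t = -(deriv (gf (1 / 2)) (t - 1 / 2) * 1) := h3.deriv
  rw [h4, mul_one, abs_neg]
  exact hL _

/-- a smooth truncation -/
theorem exists_trunc (K : ℝ) : ∃ θ : ℝ → ℝ, ContDiff ℝ ∞ θ ∧ (∃ B, ∀ t, |θ t| ≤ B) ∧
    (∃ B', ∀ t, |deriv θ t| ≤ B') ∧ ∀ t, |t| ≤ K → θ t = t ∧ deriv θ t = 1 := by
  have hK : 0 < |K| + 1 := by positivity
  let b : ContDiffBump (0 : ℝ) := ⟨|K| + 1, |K| + 2, hK, by linarith⟩
  have hb : ContDiff ℝ ∞ b := b.contDiff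
  have hθ : ContDiff ℝ ∞ fun t : ℝ => t * b t := contDiff_id.mul hb
  have hsupp : HasCompactSupport fun t : ℝ => t * b t := b.hasCompactSupport.mul_left
  refine ⟨fun t => t * b t, hθ, ?_, ?_, ?_⟩
  · exact hsupp.exists_bound_of_continuous hθ.continuous
  · exact hsupp.deriv.exists_bound_of_continuous (hθ.continuous_deriv (by simp))
  · intro t ht
    have h1 : (fun t : ℝ => t * b t) =ᶠ[𝓝 t] id := by
      have : ball (0 : ℝ) (|K| + 1) ∈ 𝓝 t := by
        apply isOpen_ball.mem_nhds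
        rw [mem_ball_zero_iff, Real.norm_eq_abs]
        linarith [le_abs_self K]
      filter_upwards [this] with s hs
      have : b s = 1 := b.one_of_mem_closedBall (ball_subset_closedBall hs)
      rw [this, mul_one]; rfl
    refine ⟨h1.self_of_nhds, ?_⟩
    rw [h1.deriv_eq]
    simp

/-- bounded elements of `H^{1,p}` are bounded pairs -/
theorem MemH.toBH (hp : 1 < p) (hD : IsOpen D) {μ : Measure (E n)} {u : E n → ℝ} {U : E n → E n}
    (hu : MemH p μ D u U) {K : ℝ} (hK : ∀ x ∈ D, |u x| ≤ K) : BH p μ D u U := by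
  obtain ⟨θ, h1, ⟨B, h2⟩, ⟨B', h3⟩, h4⟩ := exists_trunc K
  refine (hu.comp hp hD h1 h2 h3).congr (ae_restrict_of_mem hD fun x hx => (h4 _ (hK x hx)).1)
    (ae_restrict_of_mem hD fun x hx => ?_)
  rw [(h4 _ (hK x hx)).2, one_smul]

/-- `F(t) = (e^{λ t} - 1)/λ` -/
noncomputable def FF (l t : ℝ) : ℝ := (Real.exp (l * t) - 1) / l

/-- `-(1 - e^{-λ t})/λ - c` -/
noncomputable def HH (l c t : ℝ) : ℝ := (Real.exp (-l * t) - 1) / l - c

theorem FF_contDiff (l : ℝ) : ContDiff ℝ ∞ (FF l) := by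
  unfold FF; fun_prop

theorem HH_contDiff (l c : ℝ) : ContDiff ℝ ∞ (HH l c) := by
  unfold HH; fun_prop

theorem deriv_exp_mul (k t : ℝ) : deriv (fun s => Real.exp (k * s)) t = k * Real.exp (k * t) := by
  have h1 : HasDerivAt (fun s : ℝ => k * s) k t := by
    simpa using (hasDerivAt_id t).const_mul k
  rw [h1.exp.deriv, mul_comm]

theorem FF_deriv {l : ℝ} (hl : 0 < l) (t : ℝ) : deriv (FF l) t = Real.exp (l * t) := by
  have h1 : HasDerivAt (fun s : ℝ => l * s) l t := by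
    simpa using (hasDerivAt_id t).const_mul l
  have h2 := (h1.exp.sub_const 1).div_const l
  have h3 : deriv (FF l) t = Real.exp (l * t) * l / l := h2.deriv
  rw [h3]; field_simp

theorem HH_deriv {l : ℝ} (hl : 0 < l) (c t : ℝ) : deriv (HH l c) t = -Real.exp (-l * t) := by
  have h1 : HasDerivAt (fun s : ℝ => -l * s) (-l) t := by
    simpa using (hasDerivAt_id t).const_mul (-l)
  have h2 := ((h1.exp.sub_const 1).div_const l).sub_const c
  have h3 : deriv (HH l c) t = Real.exp (-l * t) * -l / l := h2.deriv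
  rw [h3]; field_simp

theorem FF_le {l t K : ℝ} (hl : 0 < l) (hlK : l * K ≤ 1) (ht : |t| ≤ K) :
    FF l t ≤ t + l * K ^ 2 := by
  have h1 : |l * t| ≤ 1 := by
    rw [abs_mul, abs_of_pos hl]
    exact (mul_le_mul_of_nonneg_left ht hl.le).trans hlK
  have h2 := (abs_le.1 (Real.abs_exp_sub_one_sub_id_le h1)).2
  unfold FF
  rw [div_le_iff₀ hl]
  have h3 : t ^ 2 ≤ K ^ 2 := by
    rw [← sq_abs t]
    exact pow_le_pow_left₀ (abs_nonneg _) ht 2
  have h4 : l ^ 2 * t ^ 2 ≤ l ^ 2 * K ^ 2 := mul_le_mul_of_nonneg_left h3 (by positivity)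
  nlinarith

theorem HH_le {l c t K : ℝ} (hl : 0 < l) (hlK : l * K ≤ 1) (ht : |t| ≤ K) :
    HH l c t ≤ -t + l * K ^ 2 - c := by
  have := FF_le (t := -t) hl hlK (by rwa [abs_neg])
  unfold FF at this
  unfold HH
  rw [show -l * t = l * -t by ring]
  linarith

theorem FF_ge {l t : ℝ} (hl : 0 < l) : t ≤ FF l t := by
  unfold FF
  rw [le_div_iff₀ hl]
  linarith [Real.add_one_le_exp (l * t)]

theorem HH_ge {l c t : ℝ} (hl : 0 < l) : -t - c ≤ HH l c t := by
  unfold HH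
  have : -t ≤ (Real.exp (-l * t) - 1) / l := by
    rw [le_div_iff₀ hl]
    linarith [Real.add_one_le_exp (-l * t)]
  linarith

/-- the monotonicity of `𝒜` combined with its homogeneity -/
theorem mono_hom (hA : AOperator p w A) (hpos : ∀ᵐ x, 0 < w x) {l κ : ℝ}
    (hκ : κ = l * (p - 1) / 2) :
    ∀ᵐ x ∂(wMeasure w), ∀ (V U : E n) (r s : ℝ),
      0 ≤ ⟪Real.exp (κ * r) ^ 2 • ((w x)⁻¹ • A x V) - Real.exp (-κ * s) ^ 2 • ((w x)⁻¹ • A x U),
        Real.exp (l * r) • V - Real.exp (-l * s) • U⟫ := by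
  apply wMeasure_ac.ae_le
  filter_upwards [hpos, hA.mono, hA.hom] with x hx hm hh V U r s
  have hexp : ∀ t : ℝ, Real.exp t * |Real.exp t| ^ (p - 2) = Real.exp ((p - 1) * t) := by
    intro t
    rw [abs_of_pos (Real.exp_pos t), ← Real.exp_mul, ← Real.exp_add]
    congr 1; ring
  have hV : A x (Real.exp (l * r) • V) = Real.exp (κ * r) ^ 2 • A x V := by
    rw [hh V _ (Real.exp_pos _).ne', hexp, ← Real.exp_nat_mul]
    congr 2; rw [hκ]; push_cast; ring
  have hU : A x (Real.exp (-l * s) • U) = Real.exp (-κ * s) ^ 2 • A x U := by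
    rw [hh U _ (Real.exp_pos _).ne', hexp, ← Real.exp_nat_mul]
    congr 2; rw [hκ]; push_cast; ring
  have e : Real.exp (κ * r) ^ 2 • ((w x)⁻¹ • A x V) - Real.exp (-κ * s) ^ 2 • ((w x)⁻¹ • A x U) =
      (w x)⁻¹ • (A x (Real.exp (l * r) • V) - A x (Real.exp (-l * s) • U)) := by
    rw [hV, hU, smul_sub, smul_comm, smul_comm (w x)⁻¹ (Real.exp (-κ * s) ^ 2)]
  rw [e, real_inner_smul_left]
  apply mul_nonneg (inv_nonneg.2 hx.le)
  by_cases heq : Real.exp (l * r) • V = Real.exp (-l * s) • U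
  · rw [heq]; simp
  · exact (hm _ _ heq).le

/-- exhaustion by a compactly contained open set and a cut-off -/
theorem exhaust (hΩ : IsOpen Ω) (hb : Bornology.IsBounded Ω) {P : E n → Prop}
    (hP : ∀ x ∈ frontier Ω, ∀ᶠ y in 𝓝[Ω] x, P y) :
    ∃ (D D1 : Set (E n)) (χ : E n → ℝ), CompInside D Ω ∧ IsOpen D1 ∧ D1 ⊆ D ∧ Cut D χ ∧
      (∀ x ∈ D1, χ x = 1) ∧ (∀ x, 0 ≤ χ x ∧ χ x ≤ 1) ∧ ∀ x ∈ Ω, x ∉ D1 → P x := by
  set K0 : Set (E n) := closure {x | x ∈ Ω ∧ ¬ P x} with hK0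
  have hsub : K0 ⊆ Ω := by
    intro x hx
    by_contra hxΩ
    have hxc : x ∈ closure Ω := closure_mono (fun y hy => hy.1) hx
    have hxf : x ∈ frontier Ω := by
      rw [hΩ.frontier_eq]; exact ⟨hxc, hxΩ⟩
    obtain ⟨O, hO, hOP⟩ := (eventually_nhdsWithin_iff.1 (hP x hxf)).exists_mem
    obtain ⟨y, hyO, hyΩ, hyP⟩ := mem_closure_iff_nhds.1 hx O hO
    exact hyP (hOP y hyO hyΩ)
  have hcomp : IsCompact K0 :=
    Metric.isCompact_of_isClosed_isBounded isClosed_closure ((hb.subset (fun y hy => hy.1)).closure)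
  obtain ⟨D, hDo, hKD, hDΩ, hDc⟩ := exists_open_between_and_isCompact_closure hcomp hΩ hsub
  obtain ⟨D', hDo', hKD', hDD', hDc'⟩ := exists_open_between_and_isCompact_closure hcomp hDo hKD
  obtain ⟨f, hf1, hf2, hf3⟩ := exists_contMDiffMap_one_nhds_of_subset_interior (n := (⊤ : ℕ∞))
    𝓘(ℝ, E n) hcomp.isClosed (t := D') (by rwa [hDo'.interior_eq])
  obtain ⟨D1, hD1o, hKD1, hD1⟩ := mem_nhdsSet_iff_exists.1 hf1
  have hsupp : tsupport f ⊆ closure D' := by
    apply closure_mono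
    intro x hx
    by_contra h
    exact hx (hf2 x h)
  refine ⟨D, D1 ∩ D, f, ⟨hDo, hDc, hDΩ⟩, hD1o.inter hDo, Set.inter_subset_right,
    ⟨f.contMDiff.contDiff, hDc'.of_isClosed_subset (isClosed_tsupport _) hsupp,
      hsupp.trans hDD'⟩, fun x hx => hD1 hx.1, fun x => hf3 x, ?_⟩
  intro x hxΩ hxD
  by_contra hPx
  have : x ∈ K0 := subset_closure ⟨hxΩ, hPx⟩
  exact hxD ⟨hKD1 this, hKD this⟩

end Pool.Agent.H40.NP
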