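import Pool.Agent.H40.NPDefs

set_option autoImplicit false

open MeasureTheory Filter Topology Metric
open scoped ContDiff RealInnerProductSpace

namespace Pool.Agent.H40.NP

section Abstract

variable {α : Type*} [MeasurableSpace α] {ν : Measure α} {F : Type*} [NormedAddCommGroup F]
  [NormedSpace ℝ F]

/-- dominated convergence for a bounded factor times a fixed `L^q` function -/
theorem tendsto_eLpNorm_dom {q : ENNReal} (hq0 : q ≠ 0) (hqt : q ≠ ⊤) {a : ℕ → α → ℝ} {C : ℝ}
    (ha : ∀ k, AEStronglyMeasurable (a k) ν) (hC : ∀ k, ∀ᵐ x ∂ν, |a k x| ≤ C)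
    (hlim : ∀ᵐ x ∂ν, Tendsto (fun k => a k x) atTop (𝓝 0)) {f : α → F} (hf : MemLp f q ν) :
    Tendsto (fun k => eLpNorm (fun x => a k x • f x) q ν) atTop (𝓝 0) := by
  have hqr : 0 < q.toReal := ENNReal.toReal_pos hq0 hqt
  have h1 : Tendsto (fun k => ∫⁻ x, ‖a k x • f x‖ₑ ^ q.toReal ∂ν) atTop (𝓝 (∫⁻ _, 0 ∂ν)) := by
    apply tendsto_lintegral_of_dominated_convergence'
      (fun x => ENNReal.ofReal C ^ q.toReal * ‖f x‖ₑ ^ q.toReal)
    · intro k
      exact ((ha k).smul hf.1).enorm.pow_const _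
    · intro k
      filter_upwards [hC k] with x hx
      rw [enorm_smul, ENNReal.mul_rpow_of_nonneg _ _ hqr.le]
      apply mul_le_mul_left
      apply ENNReal.rpow_le_rpow _ hqr.le
      rw [← ofReal_norm, Real.norm_eq_abs]
      exact ENNReal.ofReal_le_ofReal hx
    · rw [lintegral_const_mul' _ _ (ENNReal.rpow_ne_top_of_nonneg hqr.le ENNReal.ofReal_ne_top)]
      apply ENNReal.mul_ne_top (ENNReal.rpow_ne_top_of_nonneg hqr.le ENNReal.ofReal_ne_top)
      have := hf.2
      rw [eLpNorm_eq_lintegral_rpow_enorm_toReal hq0 hqt] at this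
      intro h
      rw [h, ENNReal.top_rpow_of_pos (by positivity)] at this
      exact absurd this (lt_irrefl _)
    · filter_upwards [hlim] with x hx
      have h2 : Tendsto (fun k => ‖a k x • f x‖ₑ) atTop (𝓝 0) := by
        have h3 : Tendsto (fun k => a k x • f x) atTop (𝓝 ((0 : ℝ) • f x)) := hx.smul_const _
        rw [zero_smul] at h3
        have := h3.enorm
        simpa using this
      have h4 := h2.ennrpow_const q.toReal
      rwa [ENNReal.zero_rpow_of_pos hqr] at h4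
  rw [lintegral_zero] at h1
  have h5 := h1.ennrpow_const (1 / q.toReal)
  rw [ENNReal.zero_rpow_of_pos (by positivity)] at h5
  refine h5.congr ?_
  intro k
  rw [eLpNorm_eq_lintegral_rpow_enorm_toReal hq0 hqt]

/-- product of a bounded a.e. convergent sequence with an `L^q` convergent sequence -/
theorem tendsto_eLpNorm_smul {q : ENNReal} (hq1 : 1 ≤ q) (hqt : q ≠ ⊤) {a : ℕ → α → ℝ}
    {a0 : α → ℝ} {C : ℝ}
    (ha : ∀ k, AEStronglyMeasurable (a k) ν) (hC : ∀ k, ∀ᵐ x ∂ν, |a k x| ≤ C)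
    (hlim : ∀ᵐ x ∂ν, Tendsto (fun k => a k x) atTop (𝓝 (a0 x)))
    {f : ℕ → α → F} {f0 : α → F} (hfm : ∀ k, AEStronglyMeasurable (f k) ν) (hf0 : MemLp f0 q ν)
    (hf : Tendsto (fun k => eLpNorm (fun x => f k x - f0 x) q ν) atTop (𝓝 0)) :
    Tendsto (fun k => eLpNorm (fun x => a k x • f k x - a0 x • f0 x) q ν) atTop (𝓝 0) := by
  have hq0 : q ≠ 0 := by
    intro h; rw [h] at hq1; exact absurd hq1 (by norm_num)
  have ha0 : AEStronglyMeasurable a0 ν := aestronglyMeasurable_of_tendsto_ae atTop ha hlim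
  have hC0 : ∀ᵐ x ∂ν, |a0 x| ≤ C := by
    filter_upwards [ae_all_iff.2 hC, hlim] with x hx hl
    exact le_of_tendsto' hl.abs hx
  have h1 : Tendsto (fun k => eLpNorm (fun x => (a k x - a0 x) • f0 x) q ν) atTop (𝓝 0) := by
    apply tendsto_eLpNorm_dom hq0 hqt (C := 2 * C) (fun k => (ha k).sub ha0) _ _ hf0
    · intro k
      filter_upwards [hC k, hC0] with x h1 h2
      have := abs_sub (a k x) (a0 x)
      change |a k x - a0 x| ≤ 2 * C
      linarith
    · filter_upwards [hlim] with x hx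
      have := hx.sub_const (a0 x)
      simpa using this
  have h2 : Tendsto (fun k => ENNReal.ofReal C * eLpNorm (fun x => f k x - f0 x) q ν) atTop
      (𝓝 0) := by
    have := ENNReal.Tendsto.const_mul (a := ENNReal.ofReal C) hf (Or.inr ENNReal.ofReal_ne_top)
    simpa using this
  have h3 := h2.add h1
  rw [add_zero] at h3
  refine tendsto_of_tendsto_of_tendsto_of_le_of_le tendsto_const_nhds h3 (fun _ => zero_le) ?_
  intro k
  have e : (fun x => a k x • f k x - a0 x • f0 x) =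
      (fun x => a k x • (f k x - f0 x)) + fun x => (a k x - a0 x) • f0 x := by
    funext x
    simp only [Pi.add_apply, smul_sub, sub_smul]
    abel
  simp only
  rw [e]
  refine (eLpNorm_add_le ((ha k).smul ((hfm k).sub hf0.1)) (((ha k).sub ha0).smul hf0.1)
    hq1).trans ?_
  apply add_le_add _ le_rfl
  apply eLpNorm_le_mul_eLpNorm_of_ae_le_mul
  filter_upwards [hC k] with x hx
  change ‖a k x • (f k x - f0 x)‖ ≤ C * ‖f k x - f0 x‖
  rw [norm_smul, Real.norm_eq_abs]
  exact mul_le_mul_of_nonneg_right hx (norm_nonneg _)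

end Abstract

variable {n : ℕ} {p : ℝ} {μ : Measure (E n)} {D : Set (E n)}

theorem one_le_q (hp : 1 < p) : (1 : ENNReal) ≤ ENNReal.ofReal p := by
  rw [← ENNReal.ofReal_one]; exact ENNReal.ofReal_le_ofReal hp.le

theorem q_ne_zero (hp : 1 < p) : ENNReal.ofReal p ≠ 0 := by
  rw [Ne, ENNReal.ofReal_eq_zero]; linarith

theorem q_toReal (hp : 1 < p) : (ENNReal.ofReal p).toReal = p :=
  ENNReal.toReal_ofReal (by linarith)

/-- bounded approximable pairs, with explicit approximations -/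
def BHs (p : ℝ) (μ : Measure (E n)) (D : Set (E n)) (φ : ℕ → E n → ℝ) (C : ℝ)
    (u : E n → ℝ) (U : E n → E n) : Prop :=
  (∀ k, ContDiffOn ℝ ∞ (φ k) D) ∧ (∀ k, ∀ x ∈ D, |φ k x| ≤ C) ∧
    (∀ᵐ x ∂(μ.restrict D), Tendsto (fun k => φ k x) atTop (𝓝 (u x))) ∧
    (∀ k, InL p μ D (gradient (φ k))) ∧ InL p μ D U ∧
    Tendsto (fun k => nrm p μ D (fun x => gradient (φ k) x - U x)) atTop (𝓝 0)

/-- bounded approximable pairs -/
def BH (p : ℝ) (μ : Measure (E n)) (D : Set (E n)) (u : E n → ℝ) (U : E n → E n) : Prop :=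
  ∃ (φ : ℕ → E n → ℝ) (C : ℝ), BHs p μ D φ C u U

theorem aesm_of_contDiffOn (hD : IsOpen D) {φ : E n → ℝ} (h : ContDiffOn ℝ ∞ φ D) :
    AEStronglyMeasurable φ (μ.restrict D) :=
  h.continuousOn.aestronglyMeasurable hD.measurableSet

theorem hasGradientAt_of_contDiffOn (hD : IsOpen D) {φ : E n → ℝ} (h : ContDiffOn ℝ ∞ φ D)
    {x : E n} (hx : x ∈ D) : HasGradientAt φ (gradient φ x) x :=
  ((h.contDiffAt (hD.mem_nhds hx)).differentiableAt (by simp)).hasGradientAt

theorem gradient_comp {φ : E n → ℝ} {g : E n} {x : E n} (h : HasGradientAt φ g x) {ψ : ℝ → ℝ}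
    {ψ' : ℝ} (hψ : HasDerivAt ψ ψ' (φ x)) : HasGradientAt (fun y => ψ (φ y)) (ψ' • g) x := by
  rw [hasGradientAt_iff_hasFDerivAt] at h ⊢
  have h1 := hψ.comp_hasFDerivAt x h
  refine h1.congr_fderiv ?_
  simp

theorem gradient_mul {φ ψ : E n → ℝ} {g h : E n} {x : E n} (hφ : HasGradientAt φ g x)
    (hψ : HasGradientAt ψ h x) :
    HasGradientAt (fun y => φ y * ψ y) (φ x • h + ψ x • g) x := by
  rw [hasGradientAt_iff_hasFDerivAt] at hφ hψ ⊢
  have h1 := hφ.mul hψ
  refine h1.congr_fderiv ?_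
  simp

theorem gradient_add' {φ ψ : E n → ℝ} {g h : E n} {x : E n} (hφ : HasGradientAt φ g x)
    (hψ : HasGradientAt ψ h x) :
    HasGradientAt (fun y => φ y + ψ y) (g + h) x := by
  rw [hasGradientAt_iff_hasFDerivAt] at hφ hψ ⊢
  have h1 := hφ.add hψ
  refine h1.congr_fderiv ?_
  simp


theorem memLp_bdd_smul {α : Type*} [MeasurableSpace α] {ν : Measure α} {F : Type*}
    [NormedAddCommGroup F] [NormedSpace ℝ F] {q : ENNReal} {a : α → ℝ} {C : ℝ} {f : α → F}
    (ha : AEStronglyMeasurable a ν) (hC : ∀ᵐ x ∂ν, |a x| ≤ C) (hf : MemLp f q ν) :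
    MemLp (fun x => a x • f x) q ν := by
  apply MemLp.of_le_mul (c := C) hf (ha.smul hf.1)
  filter_upwards [hC] with x hx
  change ‖a x • f x‖ ≤ C * ‖f x‖
  rw [norm_smul, Real.norm_eq_abs]
  exact mul_le_mul_of_nonneg_right hx (norm_nonneg _)

theorem ae_restrict_of_mem {P : E n → Prop} (hD : IsOpen D) (h : ∀ x ∈ D, P x) :
    ∀ᵐ x ∂(μ.restrict D), P x := by
  rw [ae_restrict_iff' hD.measurableSet]
  exact Eventually.of_forall h

namespace BH

variable {u v : E n → ℝ} {U V : E n → E n}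

theorem aesm (hD : IsOpen D) (h : BH p μ D u U) : AEStronglyMeasurable u (μ.restrict D) := by
  obtain ⟨φ, C, h1, h2, h3, -⟩ := h
  exact aestronglyMeasurable_of_tendsto_ae atTop (fun k => aesm_of_contDiffOn hD (h1 k)) h3

theorem inL_grad (h : BH p μ D u U) : InL p μ D U := by
  obtain ⟨φ, C, h1, h2, h3, h4, h5, h6⟩ := h
  exact h5

theorem bdd (hD : IsOpen D) (h : BH p μ D u U) : ∃ C, ∀ᵐ x ∂(μ.restrict D), |u x| ≤ C := by
  obtain ⟨φ, C, h1, h2, h3, -⟩ := h
  refine ⟨C, ?_⟩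
  filter_upwards [h3, ae_restrict_of_mem hD (fun x hx => hx)] with x hx hxD
  exact le_of_tendsto' hx.abs fun k => h2 k x hxD

theorem congr (h : BH p μ D u U) {u' : E n → ℝ} {U' : E n → E n}
    (hu : ∀ᵐ x ∂(μ.restrict D), u x = u' x) (hU : ∀ᵐ x ∂(μ.restrict D), U x = U' x) :
    BH p μ D u' U' := by
  obtain ⟨φ, C, h1, h2, h3, h4, h5, h6⟩ := h
  refine ⟨φ, C, h1, h2, ?_, h4, h5.ae_eq hU, ?_⟩
  · filter_upwards [h3, hu] with x hx hx'
    rwa [← hx']
  · refine h6.congr fun k => ?_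
    apply eLpNorm_congr_ae
    filter_upwards [hU] with x hx
    rw [hx]

theorem _root_.Pool.Agent.H40.NP.BHs.mul (hp : 1 < p) (hD : IsOpen D) {φ ψ : ℕ → E n → ℝ}
    {C C' : ℝ} (hu : BHs p μ D φ C u U)
    (hv : BHs p μ D ψ C' v V) :
    BHs p μ D (fun k x => φ k x * ψ k x) (C * C')
      (fun x => u x * v x) (fun x => u x • V x + v x • U x) := by
  have hub := BH.bdd hD ⟨φ, C, hu⟩
  have hvb := BH.bdd hD ⟨ψ, C', hv⟩
  have hum := BH.aesm hD ⟨φ, C, hu⟩
  have hvm := BH.aesm hD ⟨ψ, C', hv⟩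
  obtain ⟨h1, h2, h3, h4, h5, h6⟩ := hu
  obtain ⟨h1', h2', h3', h4', h5', h6'⟩ := hv
  have hgrad : ∀ k, ∀ᵐ x ∂(μ.restrict D), gradient (fun y => φ k y * ψ k y) x =
      φ k x • gradient (ψ k) x + ψ k x • gradient (φ k) x := fun k =>
    ae_restrict_of_mem hD fun x hx => (gradient_mul (hasGradientAt_of_contDiffOn hD (h1 k) hx)
      (hasGradientAt_of_contDiffOn hD (h1' k) hx)).gradient
  have hm1 : ∀ k, AEStronglyMeasurable (φ k) (μ.restrict D) := fun k =>
    aesm_of_contDiffOn hD (h1 k)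
  have hm2 : ∀ k, AEStronglyMeasurable (ψ k) (μ.restrict D) := fun k =>
    aesm_of_contDiffOn hD (h1' k)
  have hb1 : ∀ k, ∀ᵐ x ∂(μ.restrict D), |φ k x| ≤ C := fun k => ae_restrict_of_mem hD (h2 k)
  have hb2 : ∀ k, ∀ᵐ x ∂(μ.restrict D), |ψ k x| ≤ C' := fun k => ae_restrict_of_mem hD (h2' k)
  refine ⟨fun k => (h1 k).mul (h1' k), ?_, ?_, ?_, ?_, ?_⟩
  · intro k x hx
    rw [abs_mul]
    exact mul_le_mul (h2 k x hx) (h2' k x hx) (abs_nonneg _) ((abs_nonneg _).trans (h2 k x hx))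
  · filter_upwards [h3, h3'] with x hx hx'
    exact hx.mul hx'
  · intro k
    have : MemLp (fun x => φ k x • gradient (ψ k) x + ψ k x • gradient (φ k) x)
        (ENNReal.ofReal p) (μ.restrict D) :=
      (memLp_bdd_smul (hm1 k) (hb1 k) (h4' k)).add (memLp_bdd_smul (hm2 k) (hb2 k) (h4 k))
    exact this.ae_eq ((hgrad k).mono fun x hx => hx.symm)
  · obtain ⟨B, hB⟩ := hub
    obtain ⟨B', hB'⟩ := hvb
    exact (memLp_bdd_smul hum hB h5').add (memLp_bdd_smul hvm hB' h5)
  · have t1 := tendsto_eLpNorm_smul (one_le_q hp) ENNReal.ofReal_ne_top hm1 hb1 h3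
      (fun k => (h4' k).1) h5' h6'
    have t2 := tendsto_eLpNorm_smul (one_le_q hp) ENNReal.ofReal_ne_top hm2 hb2 h3'
      (fun k => (h4 k).1) h5 h6
    have t3 := t1.add t2
    rw [add_zero] at t3
    refine tendsto_of_tendsto_of_tendsto_of_le_of_le tendsto_const_nhds t3
      (fun _ => zero_le) ?_
    intro k
    unfold nrm
    simp only
    have e : eLpNorm (fun x => gradient (fun x => φ k x * ψ k x) x - (u x • V x + v x • U x))
        (ENNReal.ofReal p) (μ.restrict D) = eLpNorm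
        ((fun x => φ k x • gradient (ψ k) x - u x • V x) +
          fun x => ψ k x • gradient (φ k) x - v x • U x) (ENNReal.ofReal p) (μ.restrict D) := by
      apply eLpNorm_congr_ae
      filter_upwards [hgrad k] with x hx
      rw [hx]
      simp only [Pi.add_apply]
      abel
    rw [e]
    exact eLpNorm_add_le (((hm1 k).smul (h4' k).1).sub (hum.smul h5'.1))
      (((hm2 k).smul (h4 k).1).sub (hvm.smul h5.1)) (one_le_q hp)

theorem mul (hp : 1 < p) (hD : IsOpen D) (hu : BH p μ D u U) (hv : BH p μ D v V) :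
    BH p μ D (fun x => u x * v x) (fun x => u x • V x + v x • U x) := by
  obtain ⟨φ, C, h⟩ := hu
  obtain ⟨ψ, C', h'⟩ := hv
  exact ⟨_, _, h.mul hp hD h'⟩

theorem add (hp : 1 < p) (hD : IsOpen D) (hu : BH p μ D u U) (hv : BH p μ D v V) :
    BH p μ D (fun x => u x + v x) (fun x => U x + V x) := by
  obtain ⟨φ, C, h1, h2, h3, h4, h5, h6⟩ := hu
  obtain ⟨ψ, C', h1', h2', h3', h4', h5', h6'⟩ := hv
  have hgrad : ∀ k, ∀ᵐ x ∂(μ.restrict D), gradient (fun y => φ k y + ψ k y) x =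
      gradient (φ k) x + gradient (ψ k) x := fun k =>
    ae_restrict_of_mem hD fun x hx => (gradient_add' (hasGradientAt_of_contDiffOn hD (h1 k) hx)
      (hasGradientAt_of_contDiffOn hD (h1' k) hx)).gradient
  refine ⟨fun k x => φ k x + ψ k x, C + C', fun k => (h1 k).add (h1' k), ?_, ?_, ?_,
    h5.add h5', ?_⟩
  · intro k x hx
    exact (abs_add_le _ _).trans (add_le_add (h2 k x hx) (h2' k x hx))
  · filter_upwards [h3, h3'] with x hx hx'
    exact hx.add hx'
  · intro k
    exact ((h4 k).add (h4' k)).ae_eq ((hgrad k).mono fun x hx => hx.symm)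
  · have t3 := h6.add h6'
    rw [add_zero] at t3
    refine tendsto_of_tendsto_of_tendsto_of_le_of_le tendsto_const_nhds t3
      (fun _ => zero_le) ?_
    intro k
    unfold nrm
    simp only
    have e : eLpNorm (fun x => gradient (fun x => φ k x + ψ k x) x - (U x + V x))
        (ENNReal.ofReal p) (μ.restrict D) = eLpNorm
        ((fun x => gradient (φ k) x - U x) +
          fun x => gradient (ψ k) x - V x) (ENNReal.ofReal p) (μ.restrict D) := by
      apply eLpNorm_congr_ae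
      filter_upwards [hgrad k] with x hx
      rw [hx]
      simp only [Pi.add_apply]
      abel
    rw [e]
    exact eLpNorm_add_le ((h4 k).1.sub h5.1) ((h4' k).1.sub h5'.1) (one_le_q hp)

/-- composition with a smooth function -/
theorem comp (hp : 1 < p) (hD : IsOpen D) (hu : BH p μ D u U) {ψ : ℝ → ℝ}
    (hψ : ContDiff ℝ ∞ ψ) :
    BH p μ D (fun x => ψ (u x)) (fun x => deriv ψ (u x) • U x) := by
  have hub := hu.bdd hD
  have hum := hu.aesm hD
  obtain ⟨φ, C, h1, h2, h3, h4, h5, h6⟩ := hu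
  have hψc : Continuous ψ := hψ.continuous
  have hψd : Continuous (deriv ψ) := hψ.continuous_deriv (by simp)
  have hψdiff : Differentiable ℝ ψ := hψ.differentiable (by simp)
  obtain ⟨B, hB⟩ := isCompact_Icc.exists_bound_of_continuousOn
    (s := Set.Icc (-C) C) hψc.continuousOn
  obtain ⟨B', hB'⟩ := isCompact_Icc.exists_bound_of_continuousOn
    (s := Set.Icc (-C) C) hψd.continuousOn
  have hgrad : ∀ k, ∀ᵐ x ∂(μ.restrict D), gradient (fun y => ψ (φ k y)) x =
      deriv ψ (φ k x) • gradient (φ k) x := fun k =>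
    ae_restrict_of_mem hD fun x hx => (gradient_comp (hasGradientAt_of_contDiffOn hD (h1 k) hx)
      (hψdiff _).hasDerivAt).gradient
  have hm1 : ∀ k, AEStronglyMeasurable (fun x => deriv ψ (φ k x)) (μ.restrict D) := fun k =>
    hψd.comp_aestronglyMeasurable (aesm_of_contDiffOn hD (h1 k))
  have hb1 : ∀ k, ∀ᵐ x ∂(μ.restrict D), |deriv ψ (φ k x)| ≤ B' := fun k =>
    ae_restrict_of_mem hD fun x hx => hB' _ (abs_le.1 (h2 k x hx))
  refine ⟨fun k x => ψ (φ k x), B, fun k => hψ.comp_contDiffOn (h1 k), ?_, ?_, ?_, ?_, ?_⟩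
  · intro k x hx
    exact hB _ (abs_le.1 (h2 k x hx))
  · filter_upwards [h3] with x hx
    exact (hψc.tendsto _).comp hx
  · intro k
    exact (memLp_bdd_smul (hm1 k) (hb1 k) (h4 k)).ae_eq ((hgrad k).mono fun x hx => hx.symm)
  · have hl : ∀ᵐ x ∂(μ.restrict D), |deriv ψ (u x)| ≤ B' := by
      filter_upwards [h3, ae_restrict_of_mem hD (fun x hx => hx)] with x hx hxD
      exact le_of_tendsto' ((hψd.tendsto _).comp hx).abs fun k => hB' _ (abs_le.1 (h2 k x hxD))
    exact memLp_bdd_smul (hψd.comp_aestronglyMeasurable hum) hl h5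
  · have t1 := tendsto_eLpNorm_smul (one_le_q hp) ENNReal.ofReal_ne_top hm1 hb1
      (h3.mono fun x hx => (hψd.tendsto _).comp hx) (fun k => (h4 k).1) h5 h6
    refine t1.congr fun k => ?_
    apply eLpNorm_congr_ae
    filter_upwards [hgrad k] with x hx
    rw [hx]

end BH

/-- from `H^{1,p}(D)` to bounded pairs by composition with a bounded smooth function with bounded
derivative -/
theorem MemH.comp (hp : 1 < p) (hD : IsOpen D) {u : E n → ℝ} {U : E n → E n}
    (hu : MemH p μ D u U) {ψ : ℝ → ℝ} (hψ : ContDiff ℝ ∞ ψ) {B B' : ℝ}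
    (hB : ∀ t, |ψ t| ≤ B) (hB' : ∀ t, |deriv ψ t| ≤ B') :
    BH p μ D (fun x => ψ (u x)) (fun x => deriv ψ (u x) • U x) := by
  obtain ⟨hu1, hU1, φ, h1, h2, h4, h5, h6⟩ := hu
  have hψc : Continuous ψ := hψ.continuous
  have hψd : Continuous (deriv ψ) := hψ.continuous_deriv (by simp)
  have hψdiff : Differentiable ℝ ψ := hψ.differentiable (by simp)
  -- subsequence
  have hmeas : TendstoInMeasure (μ.restrict D) φ atTop u :=
    tendstoInMeasure_of_tendsto_eLpNorm (q_ne_zero hp) (fun k => (h2 k).1) hu1.1 h5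
  obtain ⟨ns, hns, hae⟩ := hmeas.exists_seq_tendsto_ae
  have hgrad : ∀ k, ∀ᵐ x ∂(μ.restrict D), gradient (fun y => ψ (φ k y)) x =
      deriv ψ (φ k x) • gradient (φ k) x := fun k =>
    ae_restrict_of_mem hD fun x hx => (gradient_comp (hasGradientAt_of_contDiffOn hD (h1 k) hx)
      (hψdiff _).hasDerivAt).gradient
  have hm1 : ∀ k, AEStronglyMeasurable (fun x => deriv ψ (φ k x)) (μ.restrict D) := fun k =>
    hψd.comp_aestronglyMeasurable (aesm_of_contDiffOn hD (h1 k))
  refine ⟨fun k x => ψ (φ (ns k) x), B, fun k => hψ.comp_contDiffOn (h1 _), ?_, ?_, ?_, ?_, ?_⟩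
  · intro k x _; exact hB _
  · filter_upwards [hae] with x hx
    exact (hψc.tendsto _).comp hx
  · intro k
    exact (memLp_bdd_smul (hm1 _) (Eventually.of_forall fun x => hB' _) (h4 _)).ae_eq
      ((hgrad _).mono fun x hx => hx.symm)
  · exact memLp_bdd_smul (hψd.comp_aestronglyMeasurable hu1.1)
      (Eventually.of_forall fun x => hB' _) hU1
  · have t1 := tendsto_eLpNorm_smul (one_le_q hp) ENNReal.ofReal_ne_top (fun k => hm1 (ns k))
      (fun k => Eventually.of_forall fun x => hB' _)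
      (hae.mono fun x hx => (hψd.tendsto _).comp hx) (fun k => (h4 (ns k)).1) hU1
      (h6.comp hns.tendsto_atTop)
    refine t1.congr fun k => ?_
    apply eLpNorm_congr_ae
    filter_upwards [hgrad (ns k)] with x hx
    rw [hx]

/-- restriction to a smaller open set -/
theorem MemH.mono {D' : Set (E n)} {u : E n → ℝ} {U : E n → E n} (hu : MemH p μ D u U)
    (h : D' ⊆ D) : MemH p μ D' u U := by
  obtain ⟨hu1, hU1, φ, h1, h2, h4, h5, h6⟩ := hu
  refine ⟨hu1.mono_measure (Measure.restrict_mono h le_rfl),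
    hU1.mono_measure (Measure.restrict_mono h le_rfl), φ, fun k => (h1 k).mono h,
    fun k => (h2 k).mono_measure (Measure.restrict_mono h le_rfl),
    fun k => (h4 k).mono_measure (Measure.restrict_mono h le_rfl), ?_, ?_⟩
  · exact tendsto_of_tendsto_of_tendsto_of_le_of_le tendsto_const_nhds h5
      (fun _ => zero_le) fun k => eLpNorm_mono_measure _ (Measure.restrict_mono h le_rfl)
  · exact tendsto_of_tendsto_of_tendsto_of_le_of_le tendsto_const_nhds h6
      (fun _ => zero_le) fun k => eLpNorm_mono_measure _ (Measure.restrict_mono h le_rfl)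

end Pool.Agent.H40.NP
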