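import Mathlib

set_option autoImplicit false

open MeasureTheory Filter Topology Metric
open scoped ContDiff RealInnerProductSpace

namespace Pool.Agent.H40.NP

/-- Euclidean space `ℝⁿ`. -/
abbrev E (n : ℕ) : Type := EuclideanSpace ℝ (Fin n)

/-- The measure `dμ = w dx`. -/
noncomputable def wMeasure {n : ℕ} (w : E n → ℝ) : Measure (E n) :=
  volume.withDensity fun x => ENNReal.ofReal (w x)

/-- `L^p(D; μ)` norm of a function. -/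
noncomputable def nrm {n : ℕ} {F : Type} [NormedAddCommGroup F] (p : ℝ) (μ : Measure (E n))
    (D : Set (E n)) (f : E n → F) : ENNReal :=
  eLpNorm f (ENNReal.ofReal p) (μ.restrict D)

/-- Membership in `L^p(D; μ)`. -/
def InL {n : ℕ} {F : Type} [NormedAddCommGroup F] (p : ℝ) (μ : Measure (E n))
    (D : Set (E n)) (f : E n → F) : Prop :=
  MemLp f (ENNReal.ofReal p) (μ.restrict D)

/-- `u ∈ H^{1,p}(D; μ)` with gradient `U`: the pair `(u, U)` is a limit in `L^p(D; μ)` of pairs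
`(φ, ∇φ)` with `φ ∈ C^∞(D)` of finite norm. -/
def MemH {n : ℕ} (p : ℝ) (μ : Measure (E n)) (D : Set (E n)) (u : E n → ℝ) (U : E n → E n) :
    Prop :=
  InL p μ D u ∧ InL p μ D U ∧
    ∃ φ : ℕ → E n → ℝ, (∀ k, ContDiffOn ℝ ∞ (φ k) D) ∧
      (∀ k, InL p μ D (φ k)) ∧ (∀ k, InL p μ D (gradient (φ k))) ∧
      Tendsto (fun k => nrm p μ D (fun x => φ k x - u x)) atTop (𝓝 0) ∧
      Tendsto (fun k => nrm p μ D (fun x => gradient (φ k) x - U x)) atTop (𝓝 0)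

/-- `D ⋐ Ω` for an open set `D`. -/
def CompInside {n : ℕ} (D Ω : Set (E n)) : Prop :=
  IsOpen D ∧ IsCompact (closure D) ∧ closure D ⊆ Ω

/-- `u ∈ H^{1,p}_loc(Ω; μ)` with gradient `U`. -/
def MemHloc {n : ℕ} (p : ℝ) (μ : Measure (E n)) (Ω : Set (E n)) (u : E n → ℝ)
    (U : E n → E n) : Prop :=
  ∀ D : Set (E n), CompInside D Ω → MemH p μ D u U

/-- The Sobolev capacity `cap_{p,μ}`. -/
noncomputable def cap {n : ℕ} (p : ℝ) (μ : Measure (E n)) (S : Set (E n)) : ENNReal :=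
  sInf {c : ENNReal | ∃ (φ : E n → ℝ) (Φ : E n → E n), MemH p μ Set.univ φ Φ ∧
    (∃ W : Set (E n), IsOpen W ∧ S ⊆ W ∧ ∀ x ∈ W, φ x = 1) ∧
    c = ∫⁻ x, (ENNReal.ofReal (|φ x| ^ p) + ENNReal.ofReal (‖Φ x‖ ^ p)) ∂μ}

/-- `p`-admissible weights. -/
structure PAdmissible {n : ℕ} (p : ℝ) (w : E n → ℝ) : Prop where
  locallyIntegrable : LocallyIntegrable w volume
  pos : ∀ᵐ x, 0 < w x
  doubling : ∃ C : ℝ, ∀ (x : E n) (r : ℝ), 0 < r →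
    wMeasure w (ball x (2 * r)) ≤ ENNReal.ofReal C * wMeasure w (ball x r)
  uniqueGradient : ∀ (D : Set (E n)) (φ : ℕ → E n → ℝ) (V : E n → E n), IsOpen D →
    (∀ k, ContDiffOn ℝ ∞ (φ k) D) → InL p (wMeasure w) D V →
    Tendsto (fun k => nrm p (wMeasure w) D (φ k)) atTop (𝓝 0) →
    Tendsto (fun k => nrm p (wMeasure w) D (fun x => gradient (φ k) x - V x)) atTop (𝓝 0) →
    ∀ᵐ x ∂((wMeasure w).restrict D), V x = 0
  sobolev : ∃ κ C : ℝ, 1 < κ ∧ 0 < C ∧ ∀ (x : E n) (r : ℝ) (φ : E n → ℝ), 0 < r →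
    ContDiff ℝ ∞ φ → tsupport φ ⊆ ball x r →
    (⨍ y in ball x r, |φ y| ^ (κ * p) ∂(wMeasure w)) ^ (1 / (κ * p)) ≤
      C * r * (⨍ y in ball x r, ‖gradient φ y‖ ^ p ∂(wMeasure w)) ^ (1 / p)
  poincare : ∃ C : ℝ, 0 < C ∧ ∀ (x : E n) (r : ℝ) (φ : E n → ℝ), 0 < r →
    ContDiffOn ℝ ∞ φ (ball x r) → (∃ K : ℝ, ∀ y ∈ ball x r, |φ y| ≤ K) →
    InL p (wMeasure w) (ball x r) (gradient φ) →
    (⨍ y in ball x r, |φ y - ⨍ z in ball x r, φ z ∂(wMeasure w)| ∂(wMeasure w)) ≤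
      C * r * (⨍ y in ball x r, ‖gradient φ y‖ ^ p ∂(wMeasure w)) ^ (1 / p)

/-- The structural assumptions on `𝒜`. -/
structure AOperator {n : ℕ} (p : ℝ) (w : E n → ℝ) (A : E n → E n → E n) : Prop where
  meas : ∀ ξ, Measurable fun x => A x ξ
  cont : ∀ x, Continuous (A x)
  bounds : ∃ α β : ℝ, 0 < α ∧ α ≤ β ∧ ∀ᵐ x, ∀ ξ : E n,
    α * w x * ‖ξ‖ ^ p ≤ ⟪A x ξ, ξ⟫ ∧ ‖A x ξ‖ ≤ β * w x * ‖ξ‖ ^ (p - 1)
  mono : ∀ᵐ x, ∀ ξ₁ ξ₂ : E n, ξ₁ ≠ ξ₂ → 0 < ⟪A x ξ₁ - A x ξ₂, ξ₁ - ξ₂⟫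
  hom : ∀ᵐ x, ∀ (ξ : E n) (l : ℝ), l ≠ 0 → A x (l • ξ) = (l * |l| ^ (p - 2)) • A x ξ

/-- `u` is a (weak) supersolution of `-div A(x, ∇u) = 0` in `Ω`, with gradient `U`. -/
def IsSupersolution {n : ℕ} (p : ℝ) (w : E n → ℝ) (A : E n → E n → E n) (Ω : Set (E n))
    (u : E n → ℝ) (U : E n → E n) : Prop :=
  MemHloc p (wMeasure w) Ω u U ∧
    ∀ φ : E n → ℝ, ContDiff ℝ ∞ φ → HasCompactSupport φ → tsupport φ ⊆ Ω → (∀ x, 0 ≤ φ x) →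
      0 ≤ ∫ x in Ω, ⟪A x (U x), gradient φ x⟫

/-- `u` is a (weak) subsolution of `-div A(x, ∇u) = 0` in `Ω`, with gradient `U`. -/
def IsSubsolution {n : ℕ} (p : ℝ) (w : E n → ℝ) (A : E n → E n → E n) (Ω : Set (E n))
    (u : E n → ℝ) (U : E n → E n) : Prop :=
  MemHloc p (wMeasure w) Ω u U ∧
    ∀ φ : E n → ℝ, ContDiff ℝ ∞ φ → HasCompactSupport φ → tsupport φ ⊆ Ω → (∀ x, 0 ≤ φ x) →
      ∫ x in Ω, ⟪A x (U x), gradient φ x⟫ ≤ 0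

end Pool.Agent.H40.NP
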