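import Pool.Agent.H40.NPMain

set_option autoImplicit false

open MeasureTheory Filter Topology Metric
open scoped ContDiff RealInnerProductSpace

namespace Pool.Agent.H40.NP

variable {n : ℕ} {p : ℝ} {w : E n → ℝ} {A : E n → E n → E n} {D Ω : Set (E n)}

/-- `x` is a mean-value point of `u`: `u(x)` is the limit of the `μ`-averages of `u` over balls
centred at `x`. -/
def MeanPoint (w : E n → ℝ) (u : E n → ℝ) (x : E n) : Prop :=
  Tendsto (fun r : ℝ => ⨍ y in ball x r, u y ∂(wMeasure w)) (𝓝[>] 0) (𝓝 (u x))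

/-- A point of continuity is a mean-value point. -/
theorem MeanPoint.of_continuousAt (hw : PAdmissible p w) {u : E n → ℝ} {x : E n}
    (hu : ContinuousAt u x) (hm : ∀ᶠ r : ℝ in 𝓝[>] 0, IntegrableOn u (ball x r) (wMeasure w)) :
    MeanPoint w u x := by
  have := locFinite hw.locallyIntegrable
  unfold MeanPoint
  rw [Metric.tendsto_nhds]
  intro ε hε
  obtain ⟨δ, hδ, hball⟩ := Metric.continuousAt_iff.1 hu (ε / 2) (by positivity)
  filter_upwards [hm, Ioo_mem_nhdsGT hδ] with r hr hr2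
  have hμ0 : wMeasure w (ball x r) ≠ 0 := by
    intro h
    have h1 := ac_wMeasure hw.locallyIntegrable hw.pos h
    exact (measure_ball_pos volume x hr2.1).ne' h1
  have hμt : wMeasure w (ball x r) ≠ ⊤ := measure_ball_lt_top.ne
  have hmem : (⨍ y in ball x r, u y ∂(wMeasure w)) ∈ closedBall (u x) (ε / 2) := by
    have := ((convex_closedBall (u x) (ε / 2)).set_average_mem isClosed_closedBall hμ0 hμt
      (ae_restrict_of_mem isOpen_ball fun y hy => ?_) hr)
    · exact this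
    · exact (hball (lt_trans hy hr2.2)).le
  have := mem_closedBall.1 hmem
  linarith

theorem bdd_case {u v : E n → ℝ} {K ε : ℝ} (hε : 0 < ε) {x : E n}
    (hx : x ∈ closure Ω)
    (huK : ∀ x ∈ Ω, |u x| ≤ K) (hvK : ∀ x ∈ Ω, |v x| ≤ K)
    (h : limsup v (𝓝[Ω] x) ≤ liminf u (𝓝[Ω] x)) : ∀ᶠ y in 𝓝[Ω] x, v y < u y + ε := by
  have : (𝓝[Ω] x).NeBot := mem_closure_iff_nhdsWithin_neBot.1 hx
  have hmem : ∀ᶠ y in 𝓝[Ω] x, y ∈ Ω := self_mem_nhdsWithin
  have b1 : IsBoundedUnder (· ≤ ·) (𝓝[Ω] x) v :=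
    ⟨K, eventually_map.2 (hmem.mono fun y hy => (abs_le.1 (hvK y hy)).2)⟩
  have b2 : IsBoundedUnder (· ≥ ·) (𝓝[Ω] x) u :=
    ⟨-K, eventually_map.2 (hmem.mono fun y hy => (abs_le.1 (huK y hy)).1)⟩
  have h1 : ∀ᶠ y in 𝓝[Ω] x, v y < limsup v (𝓝[Ω] x) + ε / 2 :=
    eventually_lt_of_limsup_lt (by linarith) b1
  have h2 : ∀ᶠ y in 𝓝[Ω] x, liminf u (𝓝[Ω] x) - ε / 2 < u y :=
    eventually_lt_of_lt_liminf (by linarith) b2
  filter_upwards [h1, h2] with y h1 h2
  linarith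

theorem level_zero (hp : 1 < p) (hw : PAdmissible p w) (hA : AOperator p w A) (hΩ : IsOpen Ω)
    (hb : Bornology.IsBounded Ω) {S : Set (E n)} (hcap : cap p (wMeasure w) S = 0)
    {u v : E n → ℝ} {U V : E n → E n} {K l ε h : ℝ}
    (hu : IsSupersolution p w A Ω u U) (hv : IsSubsolution p w A Ω v V)
    (huK : ∀ x ∈ Ω, |u x| ≤ K) (hvK : ∀ x ∈ Ω, |v x| ≤ K) (hl : 0 < l) (hlK : l * K ≤ 1)
    (hh : 0 < h) (hε : 0 < ε)
    (hbd : ∀ x ∈ frontier Ω \ S, limsup v (𝓝[Ω] x) ≤ liminf u (𝓝[Ω] x)) :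
    wMeasure w {x | x ∈ Ω ∧ 2 * h ≤ FF l (v x) + HH l (ε + 2 * l * K ^ 2) (u x)} = 0 := by
  obtain ⟨C, hC, hest⟩ := main_est hp hw hA hΩ hb hu hv huK hvK hl hh (ε + 2 * l * K ^ 2)
  have key : ∀ δ : ENNReal, 0 < δ →
      wMeasure w {x | x ∈ Ω ∧ 2 * h ≤ FF l (v x) + HH l (ε + 2 * l * K ^ 2) (u x)} ≤ C * δ := by
    intro δ hδ
    have h1 : cap p (wMeasure w) S < δ := by rw [hcap]; exact hδ
    obtain ⟨c, ⟨φ, Φ, hφ, ⟨W, hWo, hSW, hφ1⟩, rfl⟩, hc⟩ := sInf_lt_iff.1 h1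
    refine (hest φ Φ hφ ?_).trans (mul_le_mul_right hc.le _)
    intro x hx
    by_cases hxS : x ∈ S
    · have : ∀ᶠ y in 𝓝[Ω] x, y ∈ W := mem_nhdsWithin_of_mem_nhds (hWo.mem_nhds (hSW hxS))
      filter_upwards [this] with y hy
      rw [hφ1 y hy, nf_zero le_rfl, mul_zero]
    · have h2 := bdd_case hε hx.1 huK hvK (hbd x ⟨hx, hxS⟩)
      filter_upwards [h2, self_mem_nhdsWithin] with y hy hyΩ
      rw [gf_zero hh, zero_mul]
      have h3 := FF_le hl hlK (hvK y hyΩ)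
      have h4 := HH_le (c := ε + 2 * l * K ^ 2) hl hlK (huK y hyΩ)
      linarith
  apply le_antisymm _ (zero_le)
  apply ENNReal.le_of_forall_pos_le_add
  intro δ hδ _
  rw [zero_add]
  rcases eq_or_ne C 0 with hC0 | hC0
  · have := key 1 (by norm_num)
    rw [hC0, zero_mul] at this
    exact this.trans (zero_le)
  · have := key (δ / C) (ENNReal.div_pos (by exact_mod_cast hδ.ne') hC)
    rwa [ENNReal.mul_div_cancel hC0 hC] at this

theorem ae_le (hp : 1 < p) (hw : PAdmissible p w) (hA : AOperator p w A) (hΩ : IsOpen Ω)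
    (hb : Bornology.IsBounded Ω) {S : Set (E n)} (hcap : cap p (wMeasure w) S = 0)
    {u v : E n → ℝ} {U V : E n → E n} {K : ℝ}
    (hu : IsSupersolution p w A Ω u U) (hv : IsSubsolution p w A Ω v V)
    (huK : ∀ x ∈ Ω, |u x| ≤ K) (hvK : ∀ x ∈ Ω, |v x| ≤ K)
    (hbd : ∀ x ∈ frontier Ω \ S, limsup v (𝓝[Ω] x) ≤ liminf u (𝓝[Ω] x)) :
    wMeasure w {x | x ∈ Ω ∧ u x < v x} = 0 := by
  have hK1 : 0 < |K| + 1 := by positivity
  let lk : ℕ → ℝ := fun k => 1 / ((|K| + 1) ^ 2 * (k + 1))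
  have hlk : ∀ k, 0 < lk k := fun k => by positivity
  have hlkK : ∀ k, lk k * |K| ≤ 1 := by
    intro k
    have h1 : (1:ℝ) ≤ k + 1 := by
      have : (0:ℝ) ≤ k := Nat.cast_nonneg k
      linarith
    change 1 / ((|K| + 1) ^ 2 * (k + 1)) * |K| ≤ 1
    rw [div_mul_eq_mul_div, one_mul, div_le_one (by positivity)]
    calc |K| ≤ (|K| + 1) ^ 2 := by nlinarith [abs_nonneg K]
      _ ≤ (|K| + 1) ^ 2 * (k + 1) := le_mul_of_one_le_right (by positivity) h1
  have hz : ∀ k : ℕ, wMeasure w {x | x ∈ Ω ∧ 2 * (1 / ((k:ℝ) + 1)) ≤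
      FF (lk k) (v x) + HH (lk k) (1 / ((k:ℝ) + 1) + 2 * lk k * |K| ^ 2) (u x)} = 0 := by
    intro k
    exact level_zero hp hw hA hΩ hb hcap hu hv (fun x hx => (huK x hx).trans (le_abs_self K))
      (fun x hx => (hvK x hx).trans (le_abs_self K)) (hlk k) (hlkK k) (by positivity)
      (by positivity) hbd
  refine measure_mono_null ?_ (measure_iUnion_null hz)
  rintro x ⟨hxΩ, hx⟩
  rw [Set.mem_iUnion]
  obtain ⟨k, hk⟩ := exists_nat_gt (5 / (v x - u x))
  refine ⟨k, hxΩ, ?_⟩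
  have hd : 0 < v x - u x := by linarith
  have hk1 : (0:ℝ) < k + 1 := by positivity
  have h1 : 5 * (1 / ((k:ℝ) + 1)) < v x - u x := by
    rw [div_lt_iff₀ hd] at hk
    rw [mul_one_div, div_lt_iff₀ hk1]
    nlinarith
  have h2 : 2 * lk k * |K| ^ 2 ≤ 2 * (1 / ((k:ℝ) + 1)) := by
    have e : 2 * lk k * |K| ^ 2 = 2 * (1 / ((k:ℝ) + 1)) * (|K| ^ 2 / (|K| + 1) ^ 2) := by
      change 2 * (1 / ((|K| + 1) ^ 2 * (k + 1))) * |K| ^ 2 = _
      field_simp
    rw [e]
    apply mul_le_of_le_one_right (by positivity)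
    rw [div_le_one (by positivity)]
    exact pow_le_pow_left₀ (abs_nonneg K) (by linarith) 2
  have h3 := FF_ge (t := v x) (hlk k)
  have h4 := HH_ge (c := 1 / ((k:ℝ) + 1) + 2 * lk k * |K| ^ 2) (t := u x) (hlk k)
  linarith

theorem integrableOn_ball (hw : PAdmissible p w) {u : E n → ℝ}
    {U : E n → E n} {K : ℝ} (hu : MemHloc p (wMeasure w) Ω u U) (huK : ∀ x ∈ Ω, |u x| ≤ K)
    {x : E n} {r : ℝ} (hr : closedBall x r ⊆ Ω) :
    IntegrableOn u (ball x r) (wMeasure w) := by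
  have := locFinite hw.locallyIntegrable
  have hB : CompInside (ball x r) Ω :=
    ⟨isOpen_ball, (isCompact_closedBall x r).of_isClosed_subset isClosed_closure
      closure_ball_subset_closedBall, closure_ball_subset_closedBall.trans hr⟩
  have h1 : AEStronglyMeasurable u ((wMeasure w).restrict (ball x r)) := (hu _ hB).1.1
  have hfin : IsFiniteMeasure ((wMeasure w).restrict (ball x r)) := by
    constructor
    rw [Measure.restrict_apply_univ]
    exact measure_ball_lt_top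
  apply Integrable.of_bound h1 K
  exact ae_restrict_of_mem isOpen_ball fun y hy => huK y (hr (ball_subset_closedBall hy))

theorem pointwise_le (hw : PAdmissible p w)
    {u v : E n → ℝ} {U V : E n → E n} {K : ℝ}
    (hu : MemHloc p (wMeasure w) Ω u U) (hv : MemHloc p (wMeasure w) Ω v V)
    (huK : ∀ x ∈ Ω, |u x| ≤ K) (hvK : ∀ x ∈ Ω, |v x| ≤ K)
    (hae : wMeasure w {x | x ∈ Ω ∧ u x < v x} = 0) {x : E n} (hΩ : IsOpen Ω) (hx : x ∈ Ω)
    (hmu : MeanPoint w u x ∨ ContinuousAt u x) (hmv : MeanPoint w v x ∨ ContinuousAt v x) :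
    v x ≤ u x := by
  have := locFinite hw.locallyIntegrable
  obtain ⟨R, hR, hRΩ⟩ := Metric.nhds_basis_closedBall.mem_iff.1 (hΩ.mem_nhds hx)
  have hsm : ∀ᶠ r : ℝ in 𝓝[>] 0, closedBall x r ⊆ Ω := by
    filter_upwards [Ioo_mem_nhdsGT hR] with r hr
    exact (closedBall_subset_closedBall hr.2.le).trans hRΩ
  have hmu' : MeanPoint w u x := by
    rcases hmu with h | h
    · exact h
    · exact MeanPoint.of_continuousAt hw h
        (hsm.mono fun r hr => integrableOn_ball hw hu huK hr)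
  have hmv' : MeanPoint w v x := by
    rcases hmv with h | h
    · exact h
    · exact MeanPoint.of_continuousAt hw h
        (hsm.mono fun r hr => integrableOn_ball hw hv hvK hr)
  apply le_of_tendsto_of_tendsto hmv' hmu'
  filter_upwards [hsm] with r hr
  rw [setAverage_eq, setAverage_eq]
  apply smul_le_smul_of_nonneg_left _ (by positivity)
  apply integral_mono_ae (integrableOn_ball hw hv hvK hr) (integrableOn_ball hw hu huK hr)
  have h1 : ∀ᵐ y ∂(wMeasure w), ¬ (y ∈ Ω ∧ u y < v y) := by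
    rw [ae_iff]
    simpa using hae
  filter_upwards [ae_restrict_of_ae h1, ae_restrict_of_mem isOpen_ball (fun y hy => hy)] with
    y hy hyb
  by_contra h
  exact hy ⟨hr (ball_subset_closedBall hyb), not_le.1 h⟩

end Pool.Agent.H40.NP
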