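import Pool.Agent.H40.NPTest

set_option autoImplicit false

open MeasureTheory Filter Topology Metric
open scoped ContDiff RealInnerProductSpace

namespace Pool.Agent.H40.NP

variable {n : ℕ} {p : ℝ} {w : E n → ℝ} {A : E n → E n → E n} {D Ω : Set (E n)}

/-- Friedrichs' inequality for smooth functions, from the weighted Sobolev inequality. -/
theorem fried_smooth (hp : 1 < p) (hw : PAdmissible p w) (x0 : E n) {R : ℝ} (hR : 0 < R) :
    ∃ C : ℝ, 0 ≤ C ∧ ∀ φ : E n → ℝ, Cut (ball x0 R) φ →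
      eLpNorm φ (ENNReal.ofReal p) (wMeasure w) ≤
        ENNReal.ofReal C * eLpNorm (gradient φ) (ENNReal.ofReal p) (wMeasure w) := by
  have := locFinite hw.locallyIntegrable
  obtain ⟨κ, C, hκ, hC, hS⟩ := hw.sobolev
  refine ⟨C * R, by positivity, fun φ hφ => ?_⟩
  set μ := wMeasure w with hμ
  set B := ball x0 R with hB
  have hp0 : 0 < p := by linarith
  have hμB0 : μ B ≠ 0 := by
    intro h
    have h1 := ac_wMeasure hw.locallyIntegrable hw.pos h
    exact (measure_ball_pos volume x0 hR).ne' h1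
  have hμBt : μ B ≠ ⊤ := measure_ball_lt_top.ne
  have hφc : Continuous φ := hφ.smooth.continuous
  have hφm : MemLp φ (ENNReal.ofReal p) μ := hφc.memLp_of_hasCompactSupport hφ.cpt
  have hgm : MemLp (gradient φ) (ENNReal.ofReal p) μ :=
    hφ.gradient_cont.memLp_of_hasCompactSupport hφ.gradient_cpt
  have hi1 : ∀ s : ℝ, 0 < s → Integrable (fun y => |φ y| ^ s) μ := by
    intro s hs
    have h1 : Continuous fun y => |φ y| ^ s :=
      hφc.abs.rpow_const fun x => Or.inr hs.le
    apply h1.integrable_of_hasCompactSupport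
    apply HasCompactSupport.intro hφ.cpt
    intro x hx
    rw [image_eq_zero_of_notMem_tsupport hx, abs_zero, Real.zero_rpow hs.ne']
  have hsob := hS x0 R φ hR hφ.smooth hφ.supp
  have hjen : (⨍ y in B, |φ y| ^ p ∂μ) ^ κ ≤ ⨍ y in B, |φ y| ^ (κ * p) ∂μ := by
    have h1 := ConvexOn.map_set_average_le (μ := μ) (t := B) (f := fun y => |φ y| ^ p)
      (g := fun x : ℝ => x ^ κ) (s := Set.Ici 0)
      (convexOn_rpow hκ.le) ((continuousOn_id.rpow_const fun x _ => Or.inr (by linarith)))
      isClosed_Ici hμB0 hμBt (Eventually.of_forall fun x => by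
        change 0 ≤ |φ x| ^ p
        positivity) (hi1 p hp0).integrableOn (by
        have := (hi1 (p * κ) (by positivity)).integrableOn (s := B)
        refine this.congr_fun (fun x _ => ?_) measurableSet_ball
        simp only [Function.comp]
        rw [Real.rpow_mul (abs_nonneg _)])
    refine h1.trans (le_of_eq ?_)
    congr 1
    funext y
    rw [mul_comm, Real.rpow_mul (abs_nonneg _)]
  have hn1 : 0 ≤ ⨍ y in B, |φ y| ^ p ∂μ := by
    rw [setAverage_eq]
    exact smul_nonneg (by positivity) (integral_nonneg fun x => by positivity)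
  have hn2 : 0 ≤ ⨍ y in B, ‖gradient φ y‖ ^ p ∂μ := by
    rw [setAverage_eq]
    exact smul_nonneg (by positivity) (integral_nonneg fun x => by positivity)
  have h2 : (⨍ y in B, |φ y| ^ p ∂μ) ^ (1 / p) ≤
      C * R * (⨍ y in B, ‖gradient φ y‖ ^ p ∂μ) ^ (1 / p) := by
    refine le_trans ?_ hsob
    calc (⨍ y in B, |φ y| ^ p ∂μ) ^ (1 / p) =
        ((⨍ y in B, |φ y| ^ p ∂μ) ^ κ) ^ (1 / (κ * p)) := by
          rw [← Real.rpow_mul hn1]
          congr 1
          field_simp
      _ ≤ _ := Real.rpow_le_rpow (by positivity) hjen (by positivity)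
  rw [setAverage_eq, setAverage_eq, smul_eq_mul, smul_eq_mul,
    Real.mul_rpow (by positivity) (integral_nonneg fun x => by positivity),
    Real.mul_rpow (by positivity) (integral_nonneg fun x => by positivity)] at h2
  have hmB : 0 < (μ.real B)⁻¹ ^ (1 / p) := by
    apply Real.rpow_pos_of_pos
    exact inv_pos.2 (ENNReal.toReal_pos hμB0 hμBt)
  have h3 : (∫ y in B, |φ y| ^ p ∂μ) ^ (1 / p) ≤
      C * R * (∫ y in B, ‖gradient φ y‖ ^ p ∂μ) ^ (1 / p) := by
    have : (μ.real B)⁻¹ ^ (1 / p) * (∫ y in B, |φ y| ^ p ∂μ) ^ (1 / p) ≤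
        (μ.real B)⁻¹ ^ (1 / p) * (C * R * (∫ y in B, ‖gradient φ y‖ ^ p ∂μ) ^ (1 / p)) := by
      refine h2.trans (le_of_eq (by ring))
    exact le_of_mul_le_mul_left this hmB
  have hs1 : Function.support φ ⊆ B := (subset_tsupport φ).trans hφ.supp
  have hs2 : Function.support (gradient φ) ⊆ B := by
    intro x hx
    by_contra hxB
    exact hx (gradient_eq_zero_of_notMem fun h => hxB (hφ.supp h))
  rw [← eLpNorm_restrict_eq_of_support_subset hs1, ← eLpNorm_restrict_eq_of_support_subset hs2,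
    (hφm.restrict B).eLpNorm_eq_integral_rpow_norm (q_ne_zero hp) ENNReal.ofReal_ne_top,
    (hgm.restrict B).eLpNorm_eq_integral_rpow_norm (q_ne_zero hp) ENNReal.ofReal_ne_top,
    q_toReal hp, ← ENNReal.ofReal_mul (by positivity)]
  apply ENNReal.ofReal_le_ofReal
  simpa [Real.norm_eq_abs] using h3

/-- Friedrichs' inequality for cut-off bounded pairs. -/
theorem fried (hp : 1 < p) (hw : PAdmissible p w) (x0 : E n) {R : ℝ} (hR : 0 < R) :
    ∃ C : ℝ, 0 ≤ C ∧ ∀ (D : Set (E n)), IsOpen D → D ⊆ ball x0 R →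
      ∀ (ξ : E n → ℝ) (Ξ : E n → E n) (χ : E n → ℝ), BH p (wMeasure w) D ξ Ξ → Cut D χ →
      nrm p (wMeasure w) D (fun x => ξ x * χ x) ≤ ENNReal.ofReal C *
        nrm p (wMeasure w) D (fun x => ξ x • gradient χ x + χ x • Ξ x) := by
  have := locFinite hw.locallyIntegrable
  obtain ⟨C, hC, hf⟩ := fried_smooth hp hw x0 hR
  refine ⟨C, hC, fun D hD hDB ξ Ξ χ hξ hχ => ?_⟩
  obtain ⟨φ, C', hφ, hφs⟩ := hχ.mul_bhs hD hp hξ
  set μ := wMeasure w with hμ
  have hum := BH.aesm hD ⟨φ, C', hφs⟩
  have hub := BH.bdd hD ⟨φ, C', hφs⟩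
  obtain ⟨h1, h2, h3, h4, h5, h6⟩ := hφs
  have hfin : IsFiniteMeasure (μ.restrict D) := by
    constructor
    rw [Measure.restrict_apply_univ]
    exact lt_of_le_of_lt (measure_mono hDB) measure_ball_lt_top
  have hm1 : ∀ k, AEStronglyMeasurable (φ k) (μ.restrict D) := fun k =>
    aesm_of_contDiffOn hD (h1 k)
  have hb1 : ∀ k, ∀ᵐ x ∂(μ.restrict D), |φ k x| ≤ C' := fun k => ae_restrict_of_mem hD (h2 k)
  have t1 : Tendsto (fun k => nrm p μ D (fun x => φ k x - ξ x * χ x)) atTop (𝓝 0) := by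
    have := tendsto_eLpNorm_smul (F := ℝ) (one_le_q hp) ENNReal.ofReal_ne_top hm1 hb1 h3
      (f := fun _ _ => (1 : ℝ)) (f0 := fun _ => (1 : ℝ)) (fun k => aestronglyMeasurable_const)
      (memLp_const 1) (by simp)
    simpa [nrm] using this
  have key : ∀ k, nrm p μ D (fun x => ξ x * χ x) ≤
      ENNReal.ofReal C * (nrm p μ D (fun x => gradient (φ k) x -
        (ξ x • gradient χ x + χ x • Ξ x)) +
        nrm p μ D (fun x => ξ x • gradient χ x + χ x • Ξ x)) +
      nrm p μ D (fun x => φ k x - ξ x * χ x) := by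
    intro k
    have e1 : nrm p μ D (fun x => ξ x * χ x) ≤ nrm p μ D (φ k) +
        nrm p μ D (fun x => φ k x - ξ x * χ x) := by
      have : (fun x => ξ x * χ x) = φ k - fun x => φ k x - ξ x * χ x := by
        funext x; simp
      unfold nrm
      rw [this]
      refine (eLpNorm_sub_le (hm1 k) ((hm1 k).sub hum) (one_le_q hp)).trans (le_of_eq ?_)
      rfl
    have e2 : nrm p μ D (φ k) ≤ ENNReal.ofReal C * nrm p μ D (gradient (φ k)) := by
      have hs1 : Function.support (φ k) ⊆ D := (subset_tsupport _).trans (hφ k).supp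
      have hs2 : Function.support (gradient (φ k)) ⊆ D := by
        intro x hx
        by_contra hxB
        exact hx (gradient_eq_zero_of_notMem fun h => hxB ((hφ k).supp h))
      unfold nrm
      rw [eLpNorm_restrict_eq_of_support_subset hs1, eLpNorm_restrict_eq_of_support_subset hs2]
      exact hf (φ k) ⟨(hφ k).smooth, (hφ k).cpt, (hφ k).supp.trans hDB⟩
    have e3 : nrm p μ D (gradient (φ k)) ≤ nrm p μ D (fun x => gradient (φ k) x -
        (ξ x • gradient χ x + χ x • Ξ x)) +
        nrm p μ D (fun x => ξ x • gradient χ x + χ x • Ξ x) := by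
      have : gradient (φ k) = (fun x => gradient (φ k) x -
        (ξ x • gradient χ x + χ x • Ξ x)) + fun x => ξ x • gradient χ x + χ x • Ξ x := by
        funext x; simp
      unfold nrm
      conv_lhs => rw [this]
      exact eLpNorm_add_le ((h4 k).1.sub h5.1) h5.1 (one_le_q hp)
    refine e1.trans (add_le_add_left (e2.trans ?_) _)
    exact mul_le_mul_right e3 _
  have hl : Tendsto (fun k => ENNReal.ofReal C * (nrm p μ D (fun x => gradient (φ k) x -
        (ξ x • gradient χ x + χ x • Ξ x)) +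
        nrm p μ D (fun x => ξ x • gradient χ x + χ x • Ξ x)) +
      nrm p μ D (fun x => φ k x - ξ x * χ x)) atTop
      (𝓝 (ENNReal.ofReal C * (0 + nrm p μ D (fun x => ξ x • gradient χ x + χ x • Ξ x)) + 0)) :=
    (ENNReal.Tendsto.const_mul (h6.add tendsto_const_nhds) (Or.inr ENNReal.ofReal_ne_top)).add t1
  rw [zero_add, add_zero] at hl
  exact ge_of_tendsto' hl key

end Pool.Agent.H40.NP
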