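import Pool.Agent.H40.NPAux

set_option autoImplicit false

open MeasureTheory Filter Topology Metric
open scoped ContDiff RealInnerProductSpace

namespace Pool.Agent.H40.NP

variable {n : ℕ} {p : ℝ} {w : E n → ℝ} {A : E n → E n → E n} {D Ω : Set (E n)}

theorem integrable_inner (hp : 1 < p) {ν : Measure (E n)} {b Y : E n → E n}
    (hb : MemLp b (ENNReal.ofReal (p / (p - 1))) ν) (hY : MemLp Y (ENNReal.ofReal p) ν) :
    Integrable (fun x => ⟪b x, Y x⟫) ν := by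
  have hc : Real.HolderConjugate (p / (p - 1)) p := by
    have := (Real.HolderConjugate.conjExponent hp).symm
    exact this
  have hc' := hc.ennrealOfReal
  rw [← memLp_one_iff_integrable]
  refine ⟨hb.1.inner hY.1, ?_⟩
  refine lt_of_le_of_lt (eLpNorm_le_eLpNorm_mul_eLpNorm_of_nnnorm
    (p := ENNReal.ofReal (p / (p - 1)))
    (q := ENNReal.ofReal p) hb.1 hY.1 (fun a c => ⟪a, c⟫) 1 ?_) ?_
  · refine Eventually.of_forall fun x => ?_
    rw [one_mul]
    exact nnnorm_inner_le_nnnorm _ _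
  · exact ENNReal.mul_lt_top (ENNReal.mul_lt_top (by simp) hb.2) hY.2

theorem nrm_rpow {F : Type} [NormedAddCommGroup F] (hp : 1 < p) (μ : Measure (E n))
    (D : Set (E n)) (f : E n → F) :
    nrm p μ D f ^ p = ∫⁻ x in D, ‖f x‖ₑ ^ p ∂μ := by
  unfold nrm
  rw [eLpNorm_eq_lintegral_rpow_enorm_toReal (q_ne_zero hp) ENNReal.ofReal_ne_top, q_toReal hp,
    ← ENNReal.rpow_mul, one_div, inv_mul_cancel₀ (by linarith), ENNReal.rpow_one]

theorem nrm_rpow_integral {F : Type} [NormedAddCommGroup F] (hp : 1 < p) {μ : Measure (E n)}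
    {D : Set (E n)} {f : E n → F} (hf : InL p μ D f) :
    nrm p μ D f ^ p = ENNReal.ofReal (∫ x in D, ‖f x‖ ^ p ∂μ) := by
  rw [nrm_rpow hp, ofReal_integral_eq_lintegral_ofReal]
  · apply lintegral_congr
    intro x
    rw [← ofReal_norm, ENNReal.ofReal_rpow_of_nonneg (norm_nonneg _) (by linarith)]
  · have := hf.integrable_norm_rpow (q_ne_zero hp) ENNReal.ofReal_ne_top
    rwa [q_toReal hp] at this
  · exact Eventually.of_forall fun x => by
      change 0 ≤ ‖f x‖ ^ p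
      positivity

theorem integrable_rpow {F : Type} [NormedAddCommGroup F] (hp : 1 < p) {μ : Measure (E n)}
    {D : Set (E n)} {f : E n → F} (hf : InL p μ D f) :
    Integrable (fun x => ‖f x‖ ^ p) (μ.restrict D) := by
  have := hf.integrable_norm_rpow (q_ne_zero hp) ENNReal.ofReal_ne_top
  rwa [q_toReal hp] at this

/-- The main estimate. -/
theorem main_est (hp : 1 < p) (hw : PAdmissible p w) (hA : AOperator p w A) (hΩ : IsOpen Ω)
    (hb : Bornology.IsBounded Ω) {u v : E n → ℝ} {U V : E n → E n} {K l h : ℝ}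
    (hu : IsSupersolution p w A Ω u U) (hv : IsSubsolution p w A Ω v V)
    (huK : ∀ x ∈ Ω, |u x| ≤ K) (hvK : ∀ x ∈ Ω, |v x| ≤ K) (hl : 0 < l) (hh : 0 < h) (c : ℝ) :
    ∃ C : ENNReal, C ≠ ⊤ ∧ ∀ (φ : E n → ℝ) (Φ : E n → E n), MemH p (wMeasure w) Set.univ φ Φ →
      (∀ x ∈ frontier Ω, ∀ᶠ y in 𝓝[Ω] x, gf h (FF l (v y) + HH l c (u y)) * nf (φ y) = 0) →
      wMeasure w {x | x ∈ Ω ∧ 2 * h ≤ FF l (v x) + HH l c (u x)} ≤
        C * ∫⁻ x, (ENNReal.ofReal (|φ x| ^ p) + ENNReal.ofReal (‖Φ x‖ ^ p)) ∂(wMeasure w) := by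
  have := locFinite hw.locallyIntegrable
  set μ := wMeasure w with hμ
  have hp0 : 0 < p := by linarith
  obtain ⟨j, hj⟩ : ∃ j : ℕ, p ≤ 2 * j + 2 := by
    obtain ⟨j, hj⟩ := exists_nat_ge p
    exact ⟨j, by linarith [(Nat.cast_nonneg j : (0:ℝ) ≤ j)]⟩
  obtain ⟨R, hR, hΩR⟩ := hb.subset_ball_lt 0 0
  obtain ⟨Cf, hCf, hfr⟩ := fried hp hw 0 hR
  obtain ⟨α, β, hα, hαβ, hst⟩ := struct hA hw.pos
  obtain ⟨L, hL0, hL⟩ := gf_deriv_bdd hh
  obtain ⟨Ln, hLn0, hLn⟩ := nf_deriv_bdd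
  obtain ⟨κ, hκ⟩ : ∃ κ, κ = l * (p - 1) / 2 := ⟨_, rfl⟩
  have hκ0 : 0 < κ := by
    rw [hκ]
    have : 0 < p - 1 := by linarith
    positivity
  obtain ⟨C1, C2, hC1, hC2, hfp⟩ := final_point (H := E n) (K := K) (L := L)
    (M := Real.exp (l * K)) (j := j) hp hj hα (lt_of_lt_of_le hα hαβ) hκ0 hL0
    (Real.exp_pos _).le
  refine ⟨ENNReal.ofReal Cf ^ p * (ENNReal.ofReal C2 * ENNReal.ofReal Ln ^ p) +
    ENNReal.ofReal 2 ^ p, ?_, ?_⟩
  · apply ENNReal.add_ne_top.2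
    constructor
    · apply ENNReal.mul_ne_top (ENNReal.rpow_ne_top_of_nonneg hp0.le ENNReal.ofReal_ne_top)
      exact ENNReal.mul_ne_top ENNReal.ofReal_ne_top
        (ENNReal.rpow_ne_top_of_nonneg hp0.le ENNReal.ofReal_ne_top)
    · exact ENNReal.rpow_ne_top_of_nonneg hp0.le ENNReal.ofReal_ne_top
  intro φ Φg hφ hbd
  obtain ⟨D, D1, χ, hD, hD1o, hD1D, hχ, hχ1, hχ01, hP⟩ := exhaust hΩ hb hbd
  have hDo : IsOpen D := hD.1
  have hDΩ : D ⊆ Ω := subset_closure.trans hD.2.2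
  -- the pairs
  have hvB : BH p μ D v V := (hv.1 D hD).toBH hp hDo (fun x hx => hvK x (hDΩ hx))
  have huB : BH p μ D u U := (hu.1 D hD).toBH hp hDo (fun x hx => huK x (hDΩ hx))
  obtain ⟨N, hN⟩ : ∃ N : E n → E n, N = fun x => deriv nf (φ x) • Φg x := ⟨_, rfl⟩
  have hη : BH p μ D (fun x => nf (φ x)) N := by
    rw [hN]
    exact (hφ.mono (Set.subset_univ _)).comp hp hDo nf_contDiff (B := 1)
      (fun t => by rw [abs_of_nonneg (nf_nonneg t)]; exact nf_le_one t) hLn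
  obtain ⟨Ph, hPhdef⟩ : ∃ Ph : E n → ℝ, Ph = fun x => FF l (v x) + HH l c (u x) := ⟨_, rfl⟩
  have hPh : BH p μ D Ph
      (fun x => Real.exp (l * v x) • V x - Real.exp (-l * u x) • U x) := by
    rw [hPhdef]
    have h1 := (hvB.comp hp hDo (FF_contDiff l)).add hp hDo (huB.comp hp hDo (HH_contDiff l c))
    refine h1.congr (Eventually.of_forall fun x => rfl) (Eventually.of_forall fun x => ?_)
    rw [FF_deriv hl, HH_deriv hl, neg_smul, ← sub_eq_add_neg]
  have hPhx : ∀ x, FF l (v x) + HH l c (u x) = Ph x := fun x => by rw [hPhdef]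
  simp only [hPhx] at hP ⊢
  have hbB := hPh.comp hp hDo (gf_contDiff h)
  have hcB : BH p μ D (fun x => nf (φ x) ^ (j + 1))
      (fun x => ((j + 1 : ℝ) * nf (φ x) ^ j) • N x) := by
    have h1 := hη.comp hp hDo (ψ := fun t => t ^ (j + 1)) (by fun_prop)
    refine h1.congr (Eventually.of_forall fun x => rfl) (Eventually.of_forall fun x => ?_)
    simp
  have hc2 : BH p μ D (fun x => nf (φ x) ^ (2 * j + 2))
      (fun x => ((2 * j + 2 : ℝ) * nf (φ x) ^ (2 * j + 1)) • N x) := by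
    have h1 := hη.comp hp hDo (ψ := fun t => t ^ (2 * j + 2)) (by fun_prop)
    refine h1.congr (Eventually.of_forall fun x => rfl) (Eventually.of_forall fun x => ?_)
    simp
  have ha1 : BH p μ D (fun x => Real.exp (κ * v x))
      (fun x => (κ * Real.exp (κ * v x)) • V x) := by
    have h1 := hvB.comp hp hDo (ψ := fun t => Real.exp (κ * t)) (by fun_prop)
    refine h1.congr (Eventually.of_forall fun x => rfl) (Eventually.of_forall fun x => ?_)
    rw [deriv_exp_mul]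
  have ha2 : BH p μ D (fun x => Real.exp (-κ * u x))
      (fun x => (-κ * Real.exp (-κ * u x)) • U x) := by
    have h1 := huB.comp hp hDo (ψ := fun t => Real.exp (-κ * t)) (by fun_prop)
    refine h1.congr (Eventually.of_forall fun x => rfl) (Eventually.of_forall fun x => ?_)
    rw [deriv_exp_mul]
  have hbc := hbB.mul hp hDo hcB
  obtain ⟨Ξ1, hΞ1⟩ : ∃ Ξ1 : E n → E n, Ξ1 = fun x => Real.exp (κ * v x) •
      (gf h (Ph x) • (((j + 1 : ℝ) * nf (φ x) ^ j) • N x) + nf (φ x) ^ (j + 1) •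
        (deriv (gf h) (Ph x) • (Real.exp (l * v x) • V x - Real.exp (-l * u x) • U x))) +
      (gf h (Ph x) * nf (φ x) ^ (j + 1)) • ((κ * Real.exp (κ * v x)) • V x) := ⟨_, rfl⟩
  obtain ⟨Ξ2, hΞ2⟩ : ∃ Ξ2 : E n → E n, Ξ2 = fun x => Real.exp (-κ * u x) •
      (gf h (Ph x) • (((j + 1 : ℝ) * nf (φ x) ^ j) • N x) + nf (φ x) ^ (j + 1) •
        (deriv (gf h) (Ph x) • (Real.exp (l * v x) • V x - Real.exp (-l * u x) • U x))) +
      (gf h (Ph x) * nf (φ x) ^ (j + 1)) • ((-κ * Real.exp (-κ * u x)) • U x) := ⟨_, rfl⟩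
  have hξ1 : BH p μ D (fun x => Real.exp (κ * v x) * (gf h (Ph x) * nf (φ x) ^ (j + 1))) Ξ1 := by
    rw [hΞ1]; exact ha1.mul hp hDo hbc
  have hξ2 : BH p μ D (fun x => Real.exp (-κ * u x) * (gf h (Ph x) * nf (φ x) ^ (j + 1))) Ξ2 := by
    rw [hΞ2]; exact ha2.mul hp hDo hbc
  have hg2 : BH p μ D (fun x => gf h (Ph x - h)) (fun x => deriv (gf h) (Ph x - h) •
      (Real.exp (l * v x) • V x - Real.exp (-l * u x) • U x)) := by
    have h1 := hPh.comp hp hDo (ψ := fun t => gf h (t - h))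
      ((gf_contDiff h).comp (contDiff_id.sub contDiff_const))
    refine h1.congr (Eventually.of_forall fun x => rfl) (Eventually.of_forall fun x => ?_)
    rw [deriv_comp_sub_const]
  obtain ⟨Ψ, hΨ⟩ : ∃ Ψ : E n → E n, Ψ = fun x => gf h (Ph x - h) •
      (((2 * j + 2 : ℝ) * nf (φ x) ^ (2 * j + 1)) • N x) + nf (φ x) ^ (2 * j + 2) •
        (deriv (gf h) (Ph x - h) •
          (Real.exp (l * v x) • V x - Real.exp (-l * u x) • U x)) := ⟨_, rfl⟩
  have hψ : BH p μ D (fun x => gf h (Ph x - h) * nf (φ x) ^ (2 * j + 2)) Ψ := by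
    rw [hΨ]; exact hg2.mul hp hDo hc2
  -- the cut-off disappears
  have hgχ : ∀ x ∈ D1, gradient χ x = 0 := by
    intro x hx
    have h1 : χ =ᶠ[𝓝 x] fun _ => 1 := by
      filter_upwards [hD1o.mem_nhds hx] with y hy
      exact hχ1 y hy
    exact ((hasGradientAt_const x (1:ℝ)).congr_of_eventuallyEq h1).gradient
  have hoff : ∀ x ∈ D, x ∉ D1 → gf h (Ph x) * nf (φ x) ^ (j + 1) = 0 := by
    intro x hx hx1
    rw [pow_succ', ← mul_assoc, hP x (hDΩ hx) hx1, zero_mul]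
  have hcut : ∀ (a : E n → ℝ) (Ξ : E n → E n), ∀ x ∈ D,
      (2 * (a x * (gf h (Ph x) * nf (φ x) ^ (j + 1)) * χ x)) •
        ((a x * (gf h (Ph x) * nf (φ x) ^ (j + 1))) • gradient χ x + χ x • Ξ x) =
      (2 * (a x * (gf h (Ph x) * nf (φ x) ^ (j + 1)))) • Ξ x := by
    intro a Ξ x hx
    by_cases hx1 : x ∈ D1
    · rw [hgχ x hx1, hχ1 x hx1, mul_one, smul_zero, zero_add, one_smul]
    · rw [hoff x hx hx1, mul_zero, zero_mul, mul_zero, zero_smul, zero_smul]
  have t1 := test_sub hp hw.locallyIntegrable hw.pos hA hΩ hv hD hξ1 hχ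
  have t2 := test_super hp hw.locallyIntegrable hw.pos hA hΩ hu hD hξ2 hχ
  have t1' : ∫ x in D, ⟪fld w A V x, (2 * (Real.exp (κ * v x) *
      (gf h (Ph x) * nf (φ x) ^ (j + 1)))) • Ξ1 x⟫ ∂μ ≤ 0 := by
    refine le_trans (le_of_eq ?_) t1
    apply setIntegral_congr_fun hDo.measurableSet
    intro x hx
    change _ = ⟪fld w A V x, _⟫
    rw [hcut (fun x => Real.exp (κ * v x)) Ξ1 x hx]
  have t2' : 0 ≤ ∫ x in D, ⟪fld w A U x, (2 * (Real.exp (-κ * u x) *
      (gf h (Ph x) * nf (φ x) ^ (j + 1)))) • Ξ2 x⟫ ∂μ := by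
    refine le_trans t2 (le_of_eq ?_)
    apply setIntegral_congr_fun hDo.measurableSet
    intro x hx
    change ⟪fld w A U x, _⟫ = _
    rw [hcut (fun x => Real.exp (-κ * u x)) Ξ2 x hx]
  clear t1 t2
  -- integrability
  have hVL : InL p μ D V := (hv.1 D hD).2.1
  have hUL : InL p μ D U := (hu.1 D hD).2.1
  have hfV := fld_memLp hp hw.locallyIntegrable hA hw.pos hVL
  have hfU := fld_memLp hp hw.locallyIntegrable hA hw.pos hUL
  have hbdL : ∀ {ξ : E n → ℝ} {Ξ : E n → E n}, BH p μ D ξ Ξ →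
      MemLp (fun x => (2 * ξ x) • Ξ x) (ENNReal.ofReal p) (μ.restrict D) := by
    intro ξ Ξ hξ
    obtain ⟨B, hB⟩ := hξ.bdd hDo
    apply memLp_bdd_smul (C := 2 * B) ((hξ.aesm hDo).const_mul 2) _ hξ.inL_grad
    filter_upwards [hB] with x hx
    rw [abs_mul, abs_of_pos (by norm_num : (0:ℝ) < 2)]
    linarith
  have i1 := integrable_inner hp hfV (hbdL hξ1)
  have i2 := integrable_inner hp hfU (hbdL hξ2)
  have iN := integrable_rpow hp hη.inL_grad
  have iΨ := integrable_rpow hp hψ.inL_grad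
  -- pointwise estimate
  have hpt : ∀ᵐ x ∂(μ.restrict D), ‖Ψ x‖ ^ p ≤
      C1 * (⟪fld w A V x, (2 * (Real.exp (κ * v x) *
        (gf h (Ph x) * nf (φ x) ^ (j + 1)))) • Ξ1 x⟫ -
      ⟪fld w A U x, (2 * (Real.exp (-κ * u x) *
        (gf h (Ph x) * nf (φ x) ^ (j + 1)))) • Ξ2 x⟫) + C2 * ‖N x‖ ^ p := by
    filter_upwards [ae_restrict_of_ae hst, ae_restrict_of_ae (mono_hom hA hw.pos hκ),
      ae_restrict_of_mem hDo (fun x hx => hx)] with x hx hm hxD
    have hlt : ∀ t : ℝ, |t| ≤ K → |Real.exp (l * t)| ≤ Real.exp (l * K) := by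
      intro t ht
      rw [abs_of_pos (Real.exp_pos _)]
      apply Real.exp_le_exp.2
      exact mul_le_mul_of_nonneg_left ((le_abs_self t).trans ht) hl.le
    have hux := huK x (hDΩ hxD)
    have hvx := hvK x (hDΩ hxD)
    rw [hΨ, hΞ1, hΞ2]
    apply hfp (v x) (u x) (gf h (Ph x)) (deriv (gf h) (Ph x)) (gf h (Ph x - h))
      (deriv (gf h) (Ph x - h)) (nf (φ x)) (Real.exp (l * v x)) (Real.exp (-l * u x))
      (V x) (U x) (N x) (fld w A V x) (fld w A U x) hvx hux (gf_nonneg _ _) (gf_le_one _ _)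
      (gf_deriv_nonneg hh _) (nf_nonneg _) (nf_le_one _) _ (hL _) _ (hlt _ hvx) _
      (hx (V x)).1 (hx (V x)).2 (hx (U x)).1 (hx (U x)).2 (hm (V x) (U x) (v x) (u x))
    · rw [abs_of_nonneg (gf_nonneg _ _)]; exact gf_le_one _ _
    · intro h0
      apply gf_one hh
      by_contra hlt'
      exact h0 (gf_deriv_zero_left hh (by linarith))
    · have := hlt (-u x) (by rwa [abs_neg])
      rwa [show l * -u x = -l * u x by ring] at this
  have hint : ∫ x in D, ‖Ψ x‖ ^ p ∂μ ≤ C2 * ∫ x in D, ‖N x‖ ^ p ∂μ := by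
    have i12 : Integrable (fun x => C1 * (⟪fld w A V x, (2 * (Real.exp (κ * v x) *
        (gf h (Ph x) * nf (φ x) ^ (j + 1)))) • Ξ1 x⟫ -
      ⟪fld w A U x, (2 * (Real.exp (-κ * u x) *
        (gf h (Ph x) * nf (φ x) ^ (j + 1)))) • Ξ2 x⟫)) (μ.restrict D) :=
      (i1.sub i2).const_mul C1
    have iC : Integrable (fun x => C2 * ‖N x‖ ^ p) (μ.restrict D) := iN.const_mul C2
    refine (integral_mono_ae iΨ (i12.add iC) hpt).trans ?_
    have e0 := integral_add i12 iC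
    have e1 := integral_sub i1 i2
    refine (le_of_eq e0).trans ?_
    rw [integral_const_mul, integral_const_mul, e1]
    have : C1 * ((∫ x in D, ⟪fld w A V x, (2 * (Real.exp (κ * v x) *
        (gf h (Ph x) * nf (φ x) ^ (j + 1)))) • Ξ1 x⟫ ∂μ) -
      ∫ x in D, ⟪fld w A U x, (2 * (Real.exp (-κ * u x) *
        (gf h (Ph x) * nf (φ x) ^ (j + 1)))) • Ξ2 x⟫ ∂μ) ≤ 0 :=
      mul_nonpos_of_nonneg_of_nonpos hC1 (by linarith)
    linarith
  -- conclusion in terms of norms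
  have hnΨ : nrm p μ D Ψ ^ p ≤ ENNReal.ofReal C2 * nrm p μ D N ^ p := by
    rw [nrm_rpow_integral hp hψ.inL_grad, nrm_rpow_integral hp hη.inL_grad,
      ← ENNReal.ofReal_mul hC2]
    exact ENNReal.ofReal_le_ofReal hint
  have hnN : nrm p μ D N ^ p ≤ ENNReal.ofReal Ln ^ p *
      ∫⁻ x, ENNReal.ofReal (‖Φg x‖ ^ p) ∂μ := by
    rw [nrm_rpow hp, ← lintegral_const_mul' _ _
      (ENNReal.rpow_ne_top_of_nonneg hp0.le ENNReal.ofReal_ne_top)]
    refine (setLIntegral_le_lintegral D _).trans (lintegral_mono fun x => ?_)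
    rw [hN]
    simp only
    rw [enorm_smul, ENNReal.mul_rpow_of_nonneg _ _ hp0.le,
      ← ENNReal.ofReal_rpow_of_nonneg (norm_nonneg _) hp0.le, ofReal_norm]
    apply mul_le_mul_left
    apply ENNReal.rpow_le_rpow _ hp0.le
    rw [← ofReal_norm]
    exact ENNReal.ofReal_le_ofReal (hLn _)
  have hF := hfr D hDo (hDΩ.trans hΩR) _ _ χ hψ hχ
  have hχΨ : nrm p μ D (fun x => (gf h (Ph x - h) * nf (φ x) ^ (2 * j + 2)) • gradient χ x +
      χ x • Ψ x) ≤ nrm p μ D Ψ := by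
    apply eLpNorm_mono_ae
    refine ae_restrict_of_mem hDo fun x hx => ?_
    have e1 : (gf h (Ph x - h) * nf (φ x) ^ (2 * j + 2)) • gradient χ x = 0 := by
      by_cases hx1 : x ∈ D1
      · rw [hgχ x hx1, smul_zero]
      · have h1 : gf h (Ph x) * nf (φ x) = 0 := hP x (hDΩ hx) hx1
        have h2 : gf h (Ph x - h) * nf (φ x) ^ (2 * j + 2) = 0 := by
          rcases mul_eq_zero.1 h1 with h3 | h3
          · have h4 : Ph x < h := by
              by_contra h5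
              rw [gf_one hh (not_lt.1 h5)] at h3
              norm_num at h3
            rw [gf_zero hh (by linarith), zero_mul]
          · rw [h3, zero_pow (by omega), mul_zero]
        rw [h2, zero_smul]
    rw [e1, zero_add, norm_smul, Real.norm_eq_abs, abs_of_nonneg (hχ01 x).1]
    exact mul_le_of_le_one_left (norm_nonneg _) (hχ01 x).2
  have hcheb : μ {x | x ∈ D ∧ (1:ENNReal) ≤
      ‖gf h (Ph x - h) * nf (φ x) ^ (2 * j + 2) * χ x‖ₑ} ≤
      nrm p μ D (fun x => gf h (Ph x - h) * nf (φ x) ^ (2 * j + 2) * χ x) ^ p := by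
    have hm : AEStronglyMeasurable (fun x => gf h (Ph x - h) * nf (φ x) ^ (2 * j + 2) * χ x)
        (μ.restrict D) :=
      (hψ.aesm hDo).mul hχ.smooth.continuous.aestronglyMeasurable
    have h1 := meas_ge_le_mul_pow_eLpNorm_enorm (μ.restrict D) (q_ne_zero hp)
      ENNReal.ofReal_ne_top hm (ε := 1) (by norm_num) (by norm_num)
    rw [Measure.restrict_apply' hDo.measurableSet, q_toReal hp, inv_one, ENNReal.one_rpow,
      one_mul] at h1
    refine le_trans (measure_mono ?_) h1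
    rintro x ⟨hx1, hx2⟩
    exact ⟨hx2, hx1⟩
  -- the good part
  have hgood : μ {x | x ∈ Ω ∧ 2 * h ≤ Ph x ∧ φ x ≤ 1 / 2} ≤
      ENNReal.ofReal Cf ^ p * (ENNReal.ofReal C2 * ENNReal.ofReal Ln ^ p) *
        ∫⁻ x, ENNReal.ofReal (‖Φg x‖ ^ p) ∂μ := by
    calc μ {x | x ∈ Ω ∧ 2 * h ≤ Ph x ∧ φ x ≤ 1 / 2} ≤
        μ {x | x ∈ D ∧ (1:ENNReal) ≤
          ‖gf h (Ph x - h) * nf (φ x) ^ (2 * j + 2) * χ x‖ₑ} := by
          apply measure_mono
          rintro x ⟨hxΩ, hx2, hx3⟩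
          have h1 : x ∈ D1 := by
            by_contra hx1
            have := hP x hxΩ hx1
            rw [gf_one hh (by linarith), nf_one hx3] at this
            norm_num at this
          refine ⟨hD1D h1, ?_⟩
          rw [gf_one hh (by linarith), nf_one hx3, hχ1 x h1, one_pow, one_mul, one_mul]
          simp
      _ ≤ nrm p μ D (fun x => gf h (Ph x - h) * nf (φ x) ^ (2 * j + 2) * χ x) ^ p := hcheb
      _ ≤ (ENNReal.ofReal Cf * nrm p μ D Ψ) ^ p := by
          apply ENNReal.rpow_le_rpow _ hp0.le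
          exact hF.trans (mul_le_mul_right hχΨ _)
      _ = ENNReal.ofReal Cf ^ p * nrm p μ D Ψ ^ p := ENNReal.mul_rpow_of_nonneg _ _ hp0.le
      _ ≤ ENNReal.ofReal Cf ^ p * (ENNReal.ofReal C2 * (ENNReal.ofReal Ln ^ p *
          ∫⁻ x, ENNReal.ofReal (‖Φg x‖ ^ p) ∂μ)) := by
          apply mul_le_mul_right
          exact hnΨ.trans (mul_le_mul_right hnN _)
      _ = _ := by ring
  have hbad : μ {x | 1 / 2 < φ x} ≤ ENNReal.ofReal 2 ^ p *
      ∫⁻ x, ENNReal.ofReal (|φ x| ^ p) ∂μ := by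
    have hφm : AEStronglyMeasurable φ μ := by
      have := hφ.1.1
      rwa [Measure.restrict_univ] at this
    have h1 := meas_ge_le_mul_pow_eLpNorm_enorm μ (q_ne_zero hp)
      ENNReal.ofReal_ne_top hφm (ε := ENNReal.ofReal (1 / 2)) (by simp) (by simp)
    have h2 : eLpNorm φ (ENNReal.ofReal p) μ ^ p = ∫⁻ x, ENNReal.ofReal (|φ x| ^ p) ∂μ := by
      have := nrm_rpow (F := ℝ) hp μ Set.univ φ
      unfold nrm at this
      rw [Measure.restrict_univ] at this
      rw [this]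
      apply lintegral_congr
      intro x
      rw [← ofReal_norm, ENNReal.ofReal_rpow_of_nonneg (norm_nonneg _) hp0.le, Real.norm_eq_abs]
    rw [q_toReal hp, h2, ← ENNReal.ofReal_inv_of_pos (by norm_num)] at h1
    norm_num at h1
    refine le_trans (measure_mono ?_) (h1.trans (le_of_eq ?_))
    · intro x hx
      change ENNReal.ofReal (1 / 2) ≤ ‖φ x‖ₑ
      rw [← ofReal_norm]
      apply ENNReal.ofReal_le_ofReal
      have hx' : 1 / 2 < φ x := hx
      rw [Real.norm_eq_abs]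
      linarith [le_abs_self (φ x)]
    · norm_num
  have hsplit : {x | x ∈ Ω ∧ 2 * h ≤ Ph x} ⊆
      {x | x ∈ Ω ∧ 2 * h ≤ Ph x ∧ φ x ≤ 1 / 2} ∪ {x | 1 / 2 < φ x} := by
    rintro x ⟨hx1, hx2⟩
    by_cases hx3 : φ x ≤ 1 / 2
    · exact Or.inl ⟨hx1, hx2, hx3⟩
    · exact Or.inr (not_le.1 hx3)
  refine (measure_mono hsplit).trans ((measure_union_le _ _).trans ?_)
  rw [add_mul]
  apply add_le_add
  · refine hgood.trans (mul_le_mul_right (lintegral_mono fun x => ?_) _)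
    exact le_add_self
  · refine hbad.trans (mul_le_mul_right (lintegral_mono fun x => ?_) _)
    exact le_self_add

end Pool.Agent.H40.NP
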