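import Pool.Agent.H40.NPCalc

set_option autoImplicit false

open MeasureTheory Filter Topology Metric
open scoped ContDiff RealInnerProductSpace

namespace Pool.Agent.H40.NP

variable {n : ℕ} {p : ℝ} {w : E n → ℝ} {A : E n → E n → E n} {D Ω : Set (E n)}

/-! ### Measure facts -/

theorem aem_ofReal_w (hw : LocallyIntegrable w volume) :
    AEMeasurable (fun x => ENNReal.ofReal (w x)) volume :=
  hw.aestronglyMeasurable.aemeasurable.ennreal_ofReal

theorem locFinite (hw : LocallyIntegrable w volume) : IsLocallyFiniteMeasure (wMeasure w) := by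
  constructor
  intro x
  obtain ⟨s, hs, hi⟩ := hw x
  obtain ⟨t, hts, hto, hxt⟩ := _root_.mem_nhds_iff.1 hs
  refine ⟨t, hto.mem_nhds hxt, ?_⟩
  unfold wMeasure
  rw [withDensity_apply _ hto.measurableSet]
  have h1 : IntegrableOn w t volume := hi.mono_set hts
  have h2 := h1.2
  rw [hasFiniteIntegral_iff_norm] at h2
  refine lt_of_le_of_lt (lintegral_mono fun y => ?_) h2
  exact ENNReal.ofReal_le_ofReal (le_abs_self _)

theorem wMeasure_ac : wMeasure w ≪ volume := withDensity_absolutelyContinuous _ _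

theorem ac_wMeasure (hw : LocallyIntegrable w volume) (hpos : ∀ᵐ x, 0 < w x) :
    (volume : Measure (E n)) ≪ wMeasure w := by
  apply withDensity_absolutelyContinuous' (aem_ofReal_w hw)
  filter_upwards [hpos] with x hx
  simpa using hx

/-- the normalised field `w⁻¹ A(x, U)` -/
noncomputable def fld (w : E n → ℝ) (A : E n → E n → E n) (U : E n → E n) (x : E n) : E n :=
  (w x)⁻¹ • A x (U x)

theorem fld_aesm (hw : LocallyIntegrable w volume) (hA : AOperator p w A) {U : E n → E n}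
    (hU : AEStronglyMeasurable U ((wMeasure w).restrict D)) :
    AEStronglyMeasurable (fld w A U) ((wMeasure w).restrict D) := by
  have h1 : AEMeasurable w ((wMeasure w).restrict D) :=
    (hw.aestronglyMeasurable.aemeasurable.mono_ac wMeasure_ac).mono_measure
      Measure.restrict_le_self
  have h2 : Measurable (Function.uncurry fun (ξ : E n) (x : E n) => A x ξ) :=
    measurable_uncurry_of_continuous_of_measurable (fun x => hA.cont x) (fun ξ => hA.meas ξ)
  have h3 : AEMeasurable (fun x => A x (U x)) ((wMeasure w).restrict D) := by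
    have := h2.comp_aemeasurable (hU.aemeasurable.prodMk (aemeasurable_id))
    exact this
  exact (h1.inv.smul h3).aestronglyMeasurable

/-- structural bounds for the normalised operator -/
theorem struct (hA : AOperator p w A) (hpos : ∀ᵐ x, 0 < w x) :
    ∃ α β : ℝ, 0 < α ∧ α ≤ β ∧ ∀ᵐ x ∂(wMeasure w), ∀ ξ : E n,
      α * ‖ξ‖ ^ p ≤ ⟪(w x)⁻¹ • A x ξ, ξ⟫ ∧ ‖(w x)⁻¹ • A x ξ‖ ≤ β * ‖ξ‖ ^ (p - 1) := by
  obtain ⟨α, β, hα, hαβ, hb⟩ := hA.bounds
  refine ⟨α, β, hα, hαβ, ?_⟩
  apply wMeasure_ac.ae_le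
  filter_upwards [hpos, hb] with x hx hb ξ
  obtain ⟨h1, h2⟩ := hb ξ
  constructor
  · rw [real_inner_smul_left]
    calc α * ‖ξ‖ ^ p = (w x)⁻¹ * (α * w x * ‖ξ‖ ^ p) := by field_simp
      _ ≤ (w x)⁻¹ * ⟪A x ξ, ξ⟫ := mul_le_mul_of_nonneg_left h1 (inv_nonneg.2 hx.le)
  · rw [norm_smul, norm_inv, Real.norm_of_nonneg hx.le]
    calc (w x)⁻¹ * ‖A x ξ‖ ≤ (w x)⁻¹ * (β * w x * ‖ξ‖ ^ (p - 1)) :=
          mul_le_mul_of_nonneg_left h2 (inv_nonneg.2 hx.le)
      _ = β * ‖ξ‖ ^ (p - 1) := by field_simp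

theorem integral_conv (hw : LocallyIntegrable w volume) (hpos : ∀ᵐ x, 0 < w x)
    (hD : MeasurableSet D) (U Z : E n → E n) :
    ∫ x in D, ⟪A x (U x), Z x⟫ = ∫ x in D, ⟪fld w A U x, Z x⟫ ∂(wMeasure w) := by
  unfold wMeasure
  rw [restrict_withDensity hD, integral_withDensity_eq_integral_toReal_smul₀
    ((aem_ofReal_w hw).mono_measure Measure.restrict_le_self)
    (Eventually.of_forall fun x => ENNReal.ofReal_lt_top)]
  apply integral_congr_ae
  filter_upwards [ae_restrict_of_ae hpos] with x hx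
  simp only [fld, real_inner_smul_left, smul_eq_mul]
  rw [ENNReal.toReal_ofReal hx.le]
  field_simp

theorem fld_memLp (hp : 1 < p) (hw : LocallyIntegrable w volume) (hA : AOperator p w A)
    (hpos : ∀ᵐ x, 0 < w x) {U : E n → E n} (hU : InL p (wMeasure w) D U) :
    MemLp (fld w A U) (ENNReal.ofReal (p / (p - 1))) ((wMeasure w).restrict D) := by
  obtain ⟨α, β, hα, hαβ, hb⟩ := struct hA hpos
  have h1 : MemLp (fun x => ‖U x‖ ^ (ENNReal.ofReal (p - 1)).toReal)
      (ENNReal.ofReal p / ENNReal.ofReal (p - 1)) ((wMeasure w).restrict D) :=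
    MemLp.norm_rpow_div hU _
  rw [ENNReal.toReal_ofReal (by linarith), ← ENNReal.ofReal_div_of_pos (by linarith)] at h1
  apply MemLp.of_le_mul (c := β) h1 (fld_aesm hw hA hU.1)
  filter_upwards [ae_restrict_of_ae hb] with x hx
  have := (hx (U x)).2
  rw [Real.norm_of_nonneg (by positivity)]
  exact this

theorem tendsto_integral_inner (hp : 1 < p) {ν : Measure (E n)} {b : E n → E n}
    (hb : MemLp b (ENNReal.ofReal (p / (p - 1))) ν) {Z : ℕ → E n → E n} {Z0 : E n → E n}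
    (hZ : ∀ k, MemLp (Z k) (ENNReal.ofReal p) ν) (hZ0 : MemLp Z0 (ENNReal.ofReal p) ν)
    (hlim : Tendsto (fun k => eLpNorm (fun x => Z k x - Z0 x) (ENNReal.ofReal p) ν) atTop
      (𝓝 0)) :
    Tendsto (fun k => ∫ x, ⟪b x, Z k x⟫ ∂ν) atTop (𝓝 (∫ x, ⟪b x, Z0 x⟫ ∂ν)) := by
  have hc : Real.HolderConjugate (p / (p - 1)) p := by
    have := (Real.HolderConjugate.conjExponent hp).symm
    exact this
  have hc' := hc.ennrealOfReal
  have hm : ∀ Y : E n → E n, MemLp Y (ENNReal.ofReal p) ν → Integrable (fun x => ⟪b x, Y x⟫) ν := by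
    intro Y hY
    rw [← memLp_one_iff_integrable]
    refine ⟨hb.1.inner hY.1, ?_⟩
    refine lt_of_le_of_lt (eLpNorm_le_eLpNorm_mul_eLpNorm_of_nnnorm (p := ENNReal.ofReal (p / (p - 1)))
      (q := ENNReal.ofReal p) hb.1 hY.1 (fun a c => ⟪a, c⟫) 1 ?_) ?_
    · refine Eventually.of_forall fun x => ?_
      rw [one_mul]
      exact nnnorm_inner_le_nnnorm _ _
    · exact ENNReal.mul_lt_top (ENNReal.mul_lt_top (by simp) hb.2) hY.2
  apply tendsto_integral_of_L1' _ (hm _ hZ0).1 (Eventually.of_forall fun k => hm _ (hZ k))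
  have h2 := ENNReal.Tendsto.const_mul (a := eLpNorm b (ENNReal.ofReal (p / (p - 1))) ν) hlim
    (Or.inr hb.2.ne)
  rw [mul_zero] at h2
  refine tendsto_of_tendsto_of_tendsto_of_le_of_le tendsto_const_nhds h2 (fun _ => zero_le) ?_
  intro k
  have h3 := eLpNorm_le_eLpNorm_mul_eLpNorm_of_nnnorm (p := ENNReal.ofReal (p / (p - 1)))
      (q := ENNReal.ofReal p) (r := 1) (μ := ν) hb.1 ((hZ k).1.sub hZ0.1) (fun a c => ⟪a, c⟫) 1
      (Eventually.of_forall fun x => by rw [one_mul]; exact nnnorm_inner_le_nnnorm _ _)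
  simp only [ENNReal.coe_one, one_mul] at h3
  refine le_trans (le_of_eq ?_) h3
  apply eLpNorm_congr_ae
  refine Eventually.of_forall fun x => ?_
  simp only [Pi.sub_apply, inner_sub_right]


/-! ### Cutoffs -/

/-- data of a cutoff function -/
structure Cut (D : Set (E n)) (χ : E n → ℝ) : Prop where
  smooth : ContDiff ℝ ∞ χ
  cpt : HasCompactSupport χ
  supp : tsupport χ ⊆ D

theorem Cut.gradient_cont {χ : E n → ℝ} (h : Cut D χ) : Continuous (gradient χ) := by
  have h1 : Continuous (fderiv ℝ χ) := h.smooth.continuous_fderiv (by simp)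
  exact (InnerProductSpace.toDual ℝ (E n)).symm.continuous.comp h1

theorem gradient_eq_zero_of_notMem {f : E n → ℝ} {x : E n} (hx : x ∉ tsupport f) :
    gradient f x = 0 := by
  have h1 : f =ᶠ[𝓝 x] fun _ => 0 := notMem_tsupport_iff_eventuallyEq.1 hx
  have h2 : HasGradientAt (fun _ : E n => (0 : ℝ)) 0 x := hasGradientAt_const _ _
  exact (h2.congr_of_eventuallyEq h1).gradient

theorem Cut.gradient_cpt {χ : E n → ℝ} (h : Cut D χ) : HasCompactSupport (gradient χ) := by
  apply HasCompactSupport.intro h.cpt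
  intro x hx
  exact gradient_eq_zero_of_notMem hx

theorem Cut.bhs {χ : E n → ℝ} (h : Cut D χ) {μ : Measure (E n)} [IsLocallyFiniteMeasure μ] :
    ∃ C, BHs p μ D (fun _ => χ) C χ (gradient χ) := by
  obtain ⟨C, hC⟩ := h.cpt.exists_bound_of_continuous h.smooth.continuous
  refine ⟨C, fun _ => h.smooth.contDiffOn, fun _ x _ => hC x, ?_, ?_, ?_, ?_⟩
  · exact Eventually.of_forall fun x => tendsto_const_nhds
  · intro _
    exact (h.gradient_cont.memLp_of_hasCompactSupport h.gradient_cpt).restrict _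
  · exact (h.gradient_cont.memLp_of_hasCompactSupport h.gradient_cpt).restrict _
  · simp [nrm]

/-- smoothness of a product with a cutoff -/
theorem Cut.contDiff_mul {χ : E n → ℝ} (h : Cut D χ) (hD : IsOpen D) {f : E n → ℝ}
    (hf : ContDiffOn ℝ ∞ f D) : ContDiff ℝ ∞ (fun x => f x * χ x) := by
  rw [contDiff_iff_contDiffAt]
  intro x
  by_cases hx : x ∈ tsupport χ
  · exact (hf.contDiffAt (hD.mem_nhds (h.supp hx))).mul h.smooth.contDiffAt
  · have h1 : χ =ᶠ[𝓝 x] fun _ => 0 := notMem_tsupport_iff_eventuallyEq.1 hx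
    have h2 : (fun x => f x * χ x) =ᶠ[𝓝 x] fun _ => 0 := by
      filter_upwards [h1] with y hy
      rw [hy, mul_zero]
    exact contDiffAt_const.congr_of_eventuallyEq h2

/-- the cut-off pair -/
theorem Cut.mul_bhs {χ : E n → ℝ} (h : Cut D χ) (hD : IsOpen D) (hp : 1 < p)
    {μ : Measure (E n)} [IsLocallyFiniteMeasure μ] {ξ : E n → ℝ} {Ξ : E n → E n}
    (hξ : BH p μ D ξ Ξ) :
    ∃ (φ : ℕ → E n → ℝ) (C : ℝ), (∀ k, Cut D (φ k)) ∧
      BHs p μ D φ C (fun x => ξ x * χ x) (fun x => ξ x • gradient χ x + χ x • Ξ x) := by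
  obtain ⟨ψ, C, hψ⟩ := hξ
  obtain ⟨C', hχ⟩ := h.bhs (p := p) (μ := μ)
  refine ⟨fun k x => ψ k x * χ x, C * C', fun k => ⟨h.contDiff_mul hD (hψ.1 k),
    h.cpt.mul_left, (tsupport_mul_subset_right).trans h.supp⟩, hψ.mul hp hD hχ⟩

/-- Extension of the supersolution inequality. -/
theorem test_super (hp : 1 < p) (hw : LocallyIntegrable w volume) (hpos : ∀ᵐ x, 0 < w x)
    (hA : AOperator p w A) {u : E n → ℝ} {U : E n → E n} (hΩ : IsOpen Ω)
    (hu : IsSupersolution p w A Ω u U) (hD : CompInside D Ω) {ξ : E n → ℝ} {Ξ : E n → E n}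
    (hξ : BH p (wMeasure w) D ξ Ξ) {χ : E n → ℝ} (hχ : Cut D χ) :
    0 ≤ ∫ x in D, ⟪fld w A U x, (2 * (ξ x * χ x)) • (ξ x • gradient χ x + χ x • Ξ x)⟫
      ∂(wMeasure w) := by
  have := locFinite hw
  have hDo : IsOpen D := hD.1
  have hDΩ : D ⊆ Ω := subset_closure.trans hD.2.2
  obtain ⟨φ, C, hφ, hφs⟩ := hχ.mul_bhs hDo hp hξ
  have hsq := hφs.mul hp hDo hφs
  have hUL : InL p (wMeasure w) D U := (hu.1 D hD).2.1
  have hlim := tendsto_integral_inner hp (fld_memLp hp hw hA hpos hUL) hsq.2.2.2.1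
    hsq.2.2.2.2.1 hsq.2.2.2.2.2
  have e : ∀ x, (ξ x * χ x) • (ξ x • gradient χ x + χ x • Ξ x) +
      (ξ x * χ x) • (ξ x • gradient χ x + χ x • Ξ x) =
      (2 * (ξ x * χ x)) • (ξ x • gradient χ x + χ x • Ξ x) := by
    intro x
    rw [← add_smul]; ring_nf
  simp only [e] at hlim
  apply ge_of_tendsto' hlim
  intro k
  rw [← integral_conv hw hpos hDo.measurableSet]
  have hc : Cut D (fun x => φ k x * φ k x) :=
    ⟨(hφ k).smooth.mul (hφ k).smooth, (hφ k).cpt.mul_left,
      (tsupport_mul_subset_right).trans (hφ k).supp⟩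
  have h1 := hu.2 (fun x => φ k x * φ k x) hc.smooth hc.cpt (hc.supp.trans hDΩ)
    (fun x => mul_self_nonneg _)
  rw [setIntegral_eq_of_subset_of_forall_diff_eq_zero hΩ.measurableSet hDΩ] at h1
  · exact h1
  · intro x hx
    rw [gradient_eq_zero_of_notMem (fun h => hx.2 (hc.supp h)), inner_zero_right]

/-- Extension of the subsolution inequality. -/
theorem test_sub (hp : 1 < p) (hw : LocallyIntegrable w volume) (hpos : ∀ᵐ x, 0 < w x)
    (hA : AOperator p w A) {u : E n → ℝ} {U : E n → E n} (hΩ : IsOpen Ω)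
    (hu : IsSubsolution p w A Ω u U) (hD : CompInside D Ω) {ξ : E n → ℝ} {Ξ : E n → E n}
    (hξ : BH p (wMeasure w) D ξ Ξ) {χ : E n → ℝ} (hχ : Cut D χ) :
    ∫ x in D, ⟪fld w A U x, (2 * (ξ x * χ x)) • (ξ x • gradient χ x + χ x • Ξ x)⟫
      ∂(wMeasure w) ≤ 0 := by
  have := locFinite hw
  have hDo : IsOpen D := hD.1
  have hDΩ : D ⊆ Ω := subset_closure.trans hD.2.2
  obtain ⟨φ, C, hφ, hφs⟩ := hχ.mul_bhs hDo hp hξ
  have hsq := hφs.mul hp hDo hφs
  have hUL : InL p (wMeasure w) D U := (hu.1 D hD).2.1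
  have hlim := tendsto_integral_inner hp (fld_memLp hp hw hA hpos hUL) hsq.2.2.2.1
    hsq.2.2.2.2.1 hsq.2.2.2.2.2
  have e : ∀ x, (ξ x * χ x) • (ξ x • gradient χ x + χ x • Ξ x) +
      (ξ x * χ x) • (ξ x • gradient χ x + χ x • Ξ x) =
      (2 * (ξ x * χ x)) • (ξ x • gradient χ x + χ x • Ξ x) := by
    intro x
    rw [← add_smul]; ring_nf
  simp only [e] at hlim
  apply le_of_tendsto' hlim
  intro k
  rw [← integral_conv hw hpos hDo.measurableSet]
  have hc : Cut D (fun x => φ k x * φ k x) :=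
    ⟨(hφ k).smooth.mul (hφ k).smooth, (hφ k).cpt.mul_left,
      (tsupport_mul_subset_right).trans (hφ k).supp⟩
  have h1 := hu.2 (fun x => φ k x * φ k x) hc.smooth hc.cpt (hc.supp.trans hDΩ)
    (fun x => mul_self_nonneg _)
  rw [setIntegral_eq_of_subset_of_forall_diff_eq_zero hΩ.measurableSet hDΩ] at h1
  · exact h1
  · intro x hx
    rw [gradient_eq_zero_of_notMem (fun h => hx.2 (hc.supp h)), inner_zero_right]

end Pool.Agent.H40.NP
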