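import Mathlib

set_option autoImplicit false

open Filter Topology

namespace Pool.Agent.H40.NP

/-- Intersection property of bounded closed convex sets, from a uniform convexity condition. -/
theorem exists_inter {X : Type*} [NormedAddCommGroup X] [NormedSpace ℝ X] [CompleteSpace X]
    {N : X → ℝ} (hN0 : ∀ x, 0 ≤ N x) {H : Set X}
    (hUC : ∀ η : ℝ, 0 < η → ∀ M : ℝ, ∃ δ : ℝ, 0 < δ ∧ ∀ x ∈ H, ∀ y ∈ H, N x ≤ M → N y ≤ M →
      (N x + N y) / 2 - N ((1 / 2 : ℝ) • x + (1 / 2 : ℝ) • y) ≤ δ → ‖x - y‖ ≤ η)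
    {ι : Type*} {C : ι → Set X} (hcl : ∀ i, IsClosed (C i)) (hco : ∀ i, Convex ℝ (C i))
    (hH : ∀ i, C i ⊆ H) (i0 : ι) {M : ℝ} (hM : ∀ x ∈ C i0, N x ≤ M)
    (hF : ∀ F : Finset ι, ∃ x, ∀ i ∈ F, x ∈ C i) : ∃ x, ∀ i, x ∈ C i := by
  classical
  let S : Finset ι → Set X := fun F => {x | x ∈ C i0 ∧ ∀ i ∈ F, x ∈ C i}
  have hSne : ∀ F, (S F).Nonempty := by
    intro F
    obtain ⟨x, hx⟩ := hF (insert i0 F)
    exact ⟨x, hx i0 (Finset.mem_insert_self _ _), fun i hi => hx i (Finset.mem_insert_of_mem hi)⟩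
  have hSco : ∀ F, ∀ x ∈ S F, ∀ y ∈ S F, (1 / 2 : ℝ) • x + (1 / 2 : ℝ) • y ∈ S F := by
    intro F x hx y hy
    refine ⟨hco i0 hx.1 hy.1 (by norm_num) (by norm_num) (by norm_num), fun i hi => ?_⟩
    exact hco i (hx.2 i hi) (hy.2 i hi) (by norm_num) (by norm_num) (by norm_num)
  have hSmono : ∀ F G : Finset ι, F ⊆ G → S G ⊆ S F := fun F G h x hx =>
    ⟨hx.1, fun i hi => hx.2 i (h hi)⟩
  let d : Finset ι → ℝ := fun F => sInf (N '' S F)
  have hbd : ∀ F, BddBelow (N '' S F) := fun F => ⟨0, by rintro _ ⟨x, -, rfl⟩; exact hN0 x⟩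
  have hdle : ∀ F, ∀ x ∈ S F, d F ≤ N x := fun F x hx => csInf_le (hbd F) ⟨x, hx, rfl⟩
  have hdM : ∀ F, d F ≤ M := by
    intro F
    obtain ⟨x, hx⟩ := hSne F
    exact (hdle F x hx).trans (hM x hx.1)
  have hdmono : ∀ F G : Finset ι, F ⊆ G → d F ≤ d G := fun F G h =>
    csInf_le_csInf (hbd F) ((hSne G).image N) (Set.image_mono (hSmono F G h))
  obtain ⟨D, hD⟩ : ∃ D, D = sSup (Set.range d) := ⟨_, rfl⟩
  have hdD : ∀ F, d F ≤ D := fun F => by
    rw [hD]; exact le_csSup ⟨M, by rintro _ ⟨F, rfl⟩; exact hdM F⟩ ⟨F, rfl⟩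
  have hDM : D ≤ M := by
    rw [hD]; exact csSup_le ⟨d ∅, ⟨∅, rfl⟩⟩ (by rintro _ ⟨F, rfl⟩; exact hdM F)
  have hex : ∀ F, ∀ δ : ℝ, 0 < δ → ∃ x ∈ S F, N x ≤ D + δ := by
    intro F δ hδ
    obtain ⟨_, ⟨x, hx, rfl⟩, h1⟩ := exists_lt_of_csInf_lt ((hSne F).image N)
      (show sInf (N '' S F) < d F + δ by change d F < d F + δ; linarith)
    exact ⟨x, hx, by linarith [hdD F]⟩
  have hsmall : ∀ k : ℕ, ∃ (F : Finset ι) (δ : ℝ), 0 < δ ∧ ∀ x ∈ S F, ∀ y ∈ S F,
      N x ≤ D + δ → N y ≤ D + δ → ‖x - y‖ ≤ 1 / ((k:ℝ) + 1) := by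
    intro k
    obtain ⟨δ0, hδ0, hU⟩ := hUC (1 / ((k:ℝ) + 1)) (by positivity) (M + 1)
    obtain ⟨_, ⟨F, rfl⟩, hF⟩ := exists_lt_of_lt_csSup (s := Set.range d) ⟨d ∅, ⟨∅, rfl⟩⟩
      (show D - δ0 / 2 < sSup (Set.range d) by rw [← hD]; linarith)
    refine ⟨F, min (δ0 / 2) 1, by positivity, fun x hx y hy h1 h2 => ?_⟩
    have m1 := min_le_left (δ0 / 2) 1
    have m2 := min_le_right (δ0 / 2) 1
    apply hU x (hH i0 hx.1) y (hH i0 hy.1) (by linarith) (by linarith)
    have h3 := hdle F _ (hSco F x hx y hy)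
    linarith
  choose F δ hδ hFδ using hsmall
  let G : ℕ → Finset ι := fun k => (Finset.range (k + 1)).biUnion F
  have hFG : ∀ k l, k ≤ l → F k ⊆ G l := fun k l h =>
    Finset.subset_biUnion_of_mem F (Finset.mem_range.2 (by omega))
  have hexe : ∀ l : ℕ, ∃ e : ℝ, 0 < e ∧ ∀ k, k ≤ l → e ≤ δ k := by
    intro l
    induction l with
    | zero => exact ⟨δ 0, hδ 0, fun k hk => by rw [Nat.le_zero.1 hk]⟩
    | succ l ih =>
      obtain ⟨e, he, h⟩ := ih
      refine ⟨min e (δ (l + 1)), lt_min he (hδ _), fun k hk => ?_⟩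
      rcases Nat.le_succ_iff.1 hk with h1 | h1
      · exact (min_le_left _ _).trans (h k h1)
      · rw [h1]; exact min_le_right _ _
  choose e he heδ' using hexe
  have heδ : ∀ k l, k ≤ l → e l ≤ δ k := fun k l h => heδ' l k h
  choose x hxS hxN using fun k => hex (G k) (e k) (he k)
  have hdist : ∀ k l, k ≤ l → ‖x k - x l‖ ≤ 1 / ((k:ℝ) + 1) := by
    intro k l h
    apply hFδ k _ (hSmono _ _ (hFG k k le_rfl) (hxS k)) _ (hSmono _ _ (hFG k l h) (hxS l))
    · exact (hxN k).trans (by linarith [heδ k k le_rfl])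
    · exact (hxN l).trans (by linarith [heδ k l h])
  have hcauchy : CauchySeq x := by
    rw [Metric.cauchySeq_iff']
    intro ε hε
    obtain ⟨k, hk⟩ := exists_nat_one_div_lt hε
    refine ⟨k, fun l hl => ?_⟩
    rw [dist_comm, dist_eq_norm]
    exact lt_of_le_of_lt (hdist k l hl) hk
  obtain ⟨x0, hx0⟩ := cauchySeq_tendsto_of_complete hcauchy
  refine ⟨x0, fun i => ?_⟩
  choose y hyS hyN using fun k => hex (insert i (G k)) (e k) (he k)
  have hxy : ∀ k, ‖y k - x k‖ ≤ 1 / ((k:ℝ) + 1) := by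
    intro k
    have h1 : y k ∈ S (G k) := hSmono _ _ (Finset.subset_insert _ _) (hyS k)
    apply hFδ k _ (hSmono _ _ (hFG k k le_rfl) h1) _ (hSmono _ _ (hFG k k le_rfl) (hxS k))
    · exact (hyN k).trans (by linarith [heδ k k le_rfl])
    · exact (hxN k).trans (by linarith [heδ k k le_rfl])
  have hy : Tendsto y atTop (𝓝 x0) := by
    have h1 : Tendsto (fun k => y k - x k) atTop (𝓝 0) :=
      squeeze_zero_norm hxy tendsto_one_div_add_atTop_nhds_zero_nat
    have h2 := h1.add hx0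
    rw [zero_add] at h2
    refine h2.congr fun k => ?_
    abel
  exact (hcl i).mem_of_tendsto hy (Eventually.of_forall fun k =>
    (hyS k).2 i (Finset.mem_insert_self _ _))

/-- a solvability lemma for matrices with nonnegative symmetric part -/
theorem farkas_mono {ι : Type*} [Fintype ι] [Nonempty ι] (a : ι → ι → ℝ)
    (h : ∀ i j, 0 ≤ a i j + a j i) :
    ∃ l : ι → ℝ, (∀ i, 0 ≤ l i) ∧ ∑ i, l i = 1 ∧ ∀ j, 0 ≤ ∑ i, l i * a j i := by
  classical
  by_contra hcon
  push Not at hcon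
  let L : (ι → ℝ) →ₗ[ℝ] (ι → ℝ) :=
    { toFun := fun l j => ∑ i, l i * a j i
      map_add' := by intro l l'; funext j; simp [add_mul, Finset.sum_add_distrib]
      map_smul' := by intro c l; funext j; simp [Finset.mul_sum, mul_assoc] }
  have hLc : Continuous L := LinearMap.continuous_of_finiteDimensional L
  have hQc : IsCompact (L '' stdSimplex ℝ ι) := (isCompact_stdSimplex ℝ ι).image hLc
  have hQv : Convex ℝ (L '' stdSimplex ℝ ι) := (convex_stdSimplex ℝ ι).linear_image L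
  have hPv : Convex ℝ {r : ι → ℝ | ∀ j, 0 ≤ r j} := by
    intro x hx y hy s t hs ht _ j
    have h1 := mul_nonneg hs (hx j)
    have h2 := mul_nonneg ht (hy j)
    change 0 ≤ s * x j + t * y j
    linarith
  have hPc : IsClosed {r : ι → ℝ | ∀ j, 0 ≤ r j} := by
    have : {r : ι → ℝ | ∀ j, 0 ≤ r j} = ⋂ j, {r | 0 ≤ r j} := by ext; simp
    rw [this]
    exact isClosed_iInter fun j => isClosed_le continuous_const (continuous_apply j)
  have hdisj : Disjoint (L '' stdSimplex ℝ ι) {r : ι → ℝ | ∀ j, 0 ≤ r j} := by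
    rw [Set.disjoint_left]
    rintro _ ⟨l, hl, rfl⟩ hr
    obtain ⟨j, hj⟩ := hcon l hl.1 hl.2
    exact absurd (hr j) (not_le.2 hj)
  obtain ⟨f, u, v, h1, h2, h3⟩ := geometric_hahn_banach_compact_closed hQv hQc hPv hPc hdisj
  have hv0 : v < 0 := by
    have := h3 0 (fun j => le_refl _)
    simpa using this
  let m : ι → ℝ := fun j => f (Pi.single j 1)
  have hfr : ∀ r : ι → ℝ, f r = ∑ j, r j * m j := by
    intro r
    conv_lhs => rw [← Finset.univ_sum_single r]
    rw [map_sum]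
    apply Finset.sum_congr rfl
    intro j _
    have : (Pi.single j (r j) : ι → ℝ) = r j • Pi.single j (1:ℝ) := by
      rw [← Pi.single_smul]; simp
    rw [this, map_smul, smul_eq_mul]
  have hm0 : ∀ j, 0 ≤ m j := by
    intro j
    by_contra hj
    push Not at hj
    have h4 : 0 ≤ v / m j := div_nonneg_of_nonpos hv0.le hj.le
    have h5 := h3 ((v / m j) • Pi.single j (1:ℝ)) (by
      intro i
      rw [Pi.smul_apply, smul_eq_mul]
      apply mul_nonneg h4
      by_cases hij : i = j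
      · subst hij; simp
      · simp [hij])
    rw [map_smul, smul_eq_mul, div_mul_cancel₀ _ hj.ne] at h5
    exact lt_irrefl _ h5
  have hsum0 : 0 ≤ ∑ j, m j := Finset.sum_nonneg fun j _ => hm0 j
  rcases hsum0.eq_or_lt with hs | hs
  · have hz : ∀ j, m j = 0 := fun j =>
      (Finset.sum_eq_zero_iff_of_nonneg fun j _ => hm0 j).1 hs.symm j (Finset.mem_univ j)
    obtain ⟨i1⟩ := ‹Nonempty ι›
    have h4 := h1 (L (Pi.single i1 1)) ⟨_, single_mem_stdSimplex ℝ i1, rfl⟩
    rw [hfr] at h4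
    simp only [hz, mul_zero, Finset.sum_const_zero] at h4
    linarith
  · obtain ⟨s, hsd⟩ : ∃ s, s = ∑ j, m j := ⟨_, rfl⟩
    rw [← hsd] at hs
    have hmem : (fun i => m i / s) ∈ stdSimplex ℝ ι := by
      refine ⟨fun i => div_nonneg (hm0 i) hs.le, ?_⟩
      rw [← Finset.sum_div, ← hsd, div_self hs.ne']
    have h4 := h1 _ ⟨_, hmem, rfl⟩
    rw [hfr] at h4
    have e1 : ∑ j, L (fun i => m i / s) j * m j = (∑ j, ∑ i, m i * m j * a j i) / s := by
      rw [Finset.sum_div]
      apply Finset.sum_congr rfl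
      intro j _
      change (∑ i, m i / s * a j i) * m j = _
      rw [Finset.sum_mul, Finset.sum_div]
      apply Finset.sum_congr rfl
      intro i _
      ring
    have e2 : 0 ≤ ∑ j, ∑ i, m i * m j * a j i := by
      have e3 : ∑ j, ∑ i, m i * m j * a j i = ∑ j, ∑ i, m i * m j * a i j := by
        rw [Finset.sum_comm]
        apply Finset.sum_congr rfl
        intro j _
        apply Finset.sum_congr rfl
        intro i _
        ring
      have e4 : 0 ≤ ∑ j, ∑ i, m i * m j * (a j i + a i j) :=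
        Finset.sum_nonneg fun j _ => Finset.sum_nonneg fun i _ =>
          mul_nonneg (mul_nonneg (hm0 i) (hm0 j)) (h j i)
      have e5 : ∑ j, ∑ i, m i * m j * (a j i + a i j) =
          (∑ j, ∑ i, m i * m j * a j i) + ∑ j, ∑ i, m i * m j * a i j := by
        rw [← Finset.sum_add_distrib]
        apply Finset.sum_congr rfl
        intro j _
        rw [← Finset.sum_add_distrib]
        apply Finset.sum_congr rfl
        intro i _
        ring
      rw [e5, ← e3] at e4
      linarith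
    rw [e1] at h4
    have := div_nonneg e2 hs.le
    linarith

/-- Variational inequalities for monotone operators. -/
theorem minty_vi {X : Type*} [NormedAddCommGroup X] [NormedSpace ℝ X] [CompleteSpace X]
    {N : X → ℝ} (hN0 : ∀ x, 0 ≤ N x) {H : Set X}
    (hUC : ∀ η : ℝ, 0 < η → ∀ M : ℝ, ∃ δ : ℝ, 0 < δ ∧ ∀ x ∈ H, ∀ y ∈ H, N x ≤ M → N y ≤ M →
      (N x + N y) / 2 - N ((1 / 2 : ℝ) • x + (1 / 2 : ℝ) • y) ≤ δ → ‖x - y‖ ≤ η)
    {K : Set X} (hKc : IsClosed K) (hKv : Convex ℝ K) (hK0 : (0 : X) ∈ K) (hKH : K ⊆ H)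
    (hKN : ∀ R : ℝ, ∃ M : ℝ, ∀ x ∈ K, ‖x‖ ≤ R → N x ≤ M)
    (T : X → X → ℝ) (hTl : ∀ x ∈ K, ∀ (s t : ℝ) (y z : X), T x (s • y + t • z) =
      s * T x y + t * T x z)
    (hTc : ∀ x ∈ K, Continuous (T x))
    (hmono : ∀ x ∈ K, ∀ y ∈ K, 0 ≤ T x (x - y) + T y (y - x))
    (hhemi : ∀ x ∈ K, ∀ z ∈ K, Tendsto (fun k : ℕ => T (x + (1 / ((k:ℝ) + 1)) • (z - x)) (z - x))
      atTop (𝓝 (T x (z - x))))
    {R : ℝ} (hR : 0 < R) (hcoer : ∀ x ∈ K, T x x ≤ 0 → ‖x‖ < R) :
    ∃ x ∈ K, ∀ z ∈ K, 0 ≤ T x (z - x) := by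
  classical
  have hsub : ∀ x ∈ K, ∀ y z, T x (y - z) = T x y - T x z := by
    intro x hx y z
    have := hTl x hx 1 (-1) y z
    rw [one_smul, neg_one_smul, ← sub_eq_add_neg] at this
    rw [this]; ring
  have hsmul : ∀ x ∈ K, ∀ (t : ℝ) y, T x (t • y) = t * T x y := by
    intro x hx t y
    have := hTl x hx t 0 y y
    rw [zero_smul, add_zero, zero_mul, add_zero] at this
    exact this
  let KR : Set X := {x | x ∈ K ∧ ‖x‖ ≤ R}
  have hKRc : IsClosed KR := hKc.inter (isClosed_le continuous_norm continuous_const)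
  have hKRv : Convex ℝ KR := by
    have h1 : KR = K ∩ Metric.closedBall 0 R := by
      ext x; simp [KR]
    rw [h1]
    exact hKv.inter (convex_closedBall _ _)
  have hKR0 : (0 : X) ∈ KR := ⟨hK0, by rw [norm_zero]; exact hR.le⟩
  obtain ⟨M, hM⟩ := hKN R
  -- step 1
  have step1 : ∃ x : X, ∀ y : KR, x ∈ {x | x ∈ KR ∧ 0 ≤ T y (y - x)} := by
    refine exists_inter (C := fun y : KR => {x | x ∈ KR ∧ 0 ≤ T y (y - x)}) hN0 hUC ?_ ?_ ?_
      ⟨0, hKR0⟩ (M := M) ?_ ?_
    · intro y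
      apply hKRc.inter
      exact isClosed_le continuous_const ((hTc y y.2.1).comp (continuous_const.sub continuous_id))
    · intro y x hx z hz s t hs ht hst
      refine ⟨hKRv hx.1 hz.1 hs ht hst, ?_⟩
      have e : (y : X) - (s • x + t • z) = s • ((y : X) - x) + t • ((y : X) - z) := by
        rw [smul_sub, smul_sub]
        have : (y : X) = s • (y : X) + t • (y : X) := by rw [← add_smul, hst, one_smul]
        nth_rewrite 1 [this]
        abel
      change 0 ≤ T y (y - (s • x + t • z))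
      rw [e, hTl y y.2.1]
      exact add_nonneg (mul_nonneg hs hx.2) (mul_nonneg ht hz.2)
    · intro y x hx
      exact hKH hx.1.1
    · intro x hx
      exact hM x hx.1.1 hx.1.2
    · intro F
      rcases F.eq_empty_or_nonempty with hF | hF
      · exact ⟨0, by simp [hF]⟩
      · have : Nonempty F := hF.to_subtype
        obtain ⟨l, hl0, hl1, hl⟩ := farkas_mono (ι := F)
          (fun i j => T (i : KR) ((i : KR) - (j : KR) : X))
          (fun i j => hmono _ (i : KR).2.1 _ (j : KR).2.1)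
        refine ⟨∑ i : F, l i • ((i : KR) : X), fun y hy => ?_⟩
        refine ⟨hKRv.sum_mem (fun i _ => hl0 i) hl1 (fun i _ => (i : KR).2), ?_⟩
        have h1 := hl ⟨y, hy⟩
        have e : (y : X) - ∑ i : F, l i • ((i : KR) : X) =
            ∑ i : F, l i • ((y : X) - ((i : KR) : X)) := by
          simp only [smul_sub, Finset.sum_sub_distrib]
          rw [← Finset.sum_smul, hl1, one_smul]
        change 0 ≤ T y ((y : X) - ∑ i : F, l i • ((i : KR) : X))
        rw [e]
        have hsum : ∀ (s : Finset F) (g : F → X), T y (∑ i ∈ s, l i • g i) =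
            ∑ i ∈ s, l i * T y (g i) := by
          intro s g
          induction s using Finset.induction_on with
          | empty =>
            simp only [Finset.sum_empty]
            have := hsmul y y.2.1 0 0
            rwa [zero_smul, zero_mul] at this
          | insert a s has ih =>
            rw [Finset.sum_insert has, Finset.sum_insert has, ← ih]
            have := hTl y y.2.1 (l a) 1 (g a) (∑ i ∈ s, l i • g i)
            rw [one_smul, one_mul] at this
            exact this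
        rw [hsum]
        exact h1
  obtain ⟨x, hx⟩ := step1
  have hxKR : x ∈ KR := (hx ⟨0, hKR0⟩).1
  -- step 2
  have step2 : ∀ z ∈ KR, 0 ≤ T x (z - x) := by
    intro z hz
    apply ge_of_tendsto' (hhemi x hxKR.1 z hz.1)
    intro k
    set t : ℝ := 1 / ((k:ℝ) + 1) with ht
    have ht0 : 0 < t := by positivity
    have ht1 : t ≤ 1 := by
      rw [ht, div_le_one (by positivity)]
      linarith [(Nat.cast_nonneg k : (0:ℝ) ≤ k)]
    have hmem : x + t • (z - x) ∈ KR := by
      have := hKRv hxKR hz (sub_nonneg.2 ht1) ht0.le (by ring)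
      convert this using 1
      rw [sub_smul, one_smul, smul_sub]; abel
    have h1 := (hx ⟨_, hmem⟩).2
    simp only [add_sub_cancel_left] at h1
    rw [hsmul _ hmem.1] at h1
    by_contra hneg
    push Not at hneg
    have := mul_neg_of_pos_of_neg ht0 hneg
    linarith
  have hxR : ‖x‖ < R := by
    apply hcoer x hxKR.1
    have h1 := step2 0 hKR0
    rw [hsub x hxKR.1] at h1
    have h2 := hsmul x hxKR.1 0 0
    rw [zero_smul, zero_mul] at h2
    linarith
  refine ⟨x, hxKR.1, fun z hz => ?_⟩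
  -- step 3
  obtain ⟨k, hk⟩ := exists_nat_gt (‖z - x‖ / (R - ‖x‖))
  have hRx : 0 < R - ‖x‖ := by linarith
  set t : ℝ := 1 / ((k:ℝ) + 1) with ht
  have ht0 : 0 < t := by positivity
  have ht1 : t ≤ 1 := by
    rw [ht, div_le_one (by positivity)]
    linarith [(Nat.cast_nonneg k : (0:ℝ) ≤ k)]
  have hmem : x + t • (z - x) ∈ KR := by
    constructor
    · have := hKv hxKR.1 hz (sub_nonneg.2 ht1) ht0.le (by ring)
      convert this using 1
      rw [sub_smul, one_smul, smul_sub]; abel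
    · have h1 : ‖x + t • (z - x)‖ ≤ ‖x‖ + t * ‖z - x‖ := by
        refine (norm_add_le _ _).trans ?_
        rw [norm_smul, Real.norm_of_nonneg ht0.le]
      have h2 : t * ‖z - x‖ ≤ R - ‖x‖ := by
        rw [div_lt_iff₀ hRx] at hk
        rw [ht, one_div, inv_mul_le_iff₀ (by positivity)]
        nlinarith
      linarith
  have h1 := step2 _ hmem
  rw [add_sub_cancel_left, hsmul x hxKR.1] at h1
  by_contra hneg
  push Not at hneg
  have := mul_neg_of_pos_of_neg ht0 hneg
  linarith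

end Pool.Agent.H40.NP
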