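import Pool.Agent.H40.NQSuper

set_option autoImplicit false

open MeasureTheory Filter Topology Metric
open scoped ContDiff RealInnerProductSpace

namespace Pool.Agent.H40.NP

variable {n : ℕ} {p : ℝ} {w : E n → ℝ} {A : E n → E n → E n} {D Ω : Set (E n)}
  {μ : Measure (E n)}

/-- lower semicontinuous functions on compact sets are limits of increasing sequences of
continuous functions -/
theorem lsc_approx {X : Type*} [PseudoMetricSpace X] {Kc : Set X} {u : X → ℝ} {K : ℝ} (hK : 0 ≤ K)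
    (hu : LowerSemicontinuousOn u Kc) (huK : ∀ x ∈ Kc, |u x| ≤ K) :
    ∃ f : ℕ → X → ℝ, (∀ i, Continuous (f i)) ∧ (∀ i j, i ≤ j → ∀ x, f i x ≤ f j x) ∧
      (∀ i, ∀ x ∈ Kc, f i x ≤ u x) ∧ (∀ x ∈ Kc, Tendsto (fun i => f i x) atTop (𝓝 (u x))) ∧
      ∀ i x, |f i x| ≤ K := by
  rcases Kc.eq_empty_or_nonempty with he | hne
  · refine ⟨fun _ _ => 0, fun _ => continuous_const, fun _ _ _ _ => le_rfl, ?_, ?_, ?_⟩
    · intro i x hx; rw [he] at hx; exact absurd hx (Set.notMem_empty x)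
    · intro x hx; rw [he] at hx; exact absurd hx (Set.notMem_empty x)
    · intro i x; rw [abs_zero]; exact hK
  have : Nonempty Kc := hne.to_subtype
  let F : ℕ → X → ℝ := fun i x => ⨅ y : Kc, (u y + i * dist x y)
  have hlow : ∀ (i : ℕ) (x : X) (y : Kc), -K ≤ u y + i * dist x y := by
    intro i x y
    have h1 := (abs_le.1 (huK y y.2)).1
    have h2 : 0 ≤ (i:ℝ) * dist x y := by positivity
    linarith
  have hbdd : ∀ (i : ℕ) (x : X), BddBelow (Set.range fun y : Kc => u y + (i:ℝ) * dist x y) :=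
    fun i x =>
    ⟨-K, by rintro _ ⟨y, rfl⟩; exact hlow i x y⟩
  have hFle : ∀ (i : ℕ) (x : X) (y : Kc), F i x ≤ u y + (i:ℝ) * dist x y := fun i x y =>
    ciInf_le (hbdd i x) y
  have hFlip : ∀ (i : ℕ) (x x' : X), F i x ≤ F i x' + (i:ℝ) * dist x x' := by
    intro i x x'
    have h1 : F i x - i * dist x x' ≤ F i x' := by
      apply le_ciInf
      intro y
      have h2 := hFle i x y
      have h3 : (i:ℝ) * dist x y ≤ i * (dist x x' + dist x' y) :=
        mul_le_mul_of_nonneg_left (dist_triangle _ _ _) (Nat.cast_nonneg i)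
      linarith
    linarith
  have hFc : ∀ i, Continuous (F i) := by
    intro i
    rw [Metric.continuous_iff]
    intro x ε hε
    refine ⟨ε / (i + 1), by positivity, fun y hy => ?_⟩
    rw [lt_div_iff₀ (by positivity)] at hy
    rw [Real.dist_eq, abs_lt]
    have h1 := hFlip i x y
    have h2 := hFlip i y x
    rw [dist_comm x y] at h1
    have h3 : 0 ≤ dist y x := dist_nonneg
    constructor <;> nlinarith
  refine ⟨fun i x => min (F i x) K, fun i => (hFc i).min continuous_const, ?_, ?_, ?_, ?_⟩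
  · intro i j hij x
    apply min_le_min_right
    apply le_ciInf
    intro y
    refine (hFle i x y).trans ?_
    have : (i:ℝ) ≤ j := by exact_mod_cast hij
    have := mul_le_mul_of_nonneg_right this (dist_nonneg (x := x) (y := (y : X)))
    linarith
  · intro i x hx
    refine (min_le_left _ _).trans ((hFle i x ⟨x, hx⟩).trans ?_)
    rw [dist_self, mul_zero, add_zero]
  · intro x hx
    rw [Metric.tendsto_atTop]
    intro ε hε
    obtain ⟨r, hr, hrb⟩ : ∃ r : ℝ, 0 < r ∧ ∀ y ∈ Kc, dist y x < r → u x - ε / 2 < u y := by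
      have h1 := hu x hx (u x - ε / 2) (by linarith)
      rw [eventually_nhdsWithin_iff, Metric.eventually_nhds_iff] at h1
      obtain ⟨r, hr, h2⟩ := h1
      exact ⟨r, hr, fun y hy hd => h2 hd hy⟩
    obtain ⟨N, hN⟩ := exists_nat_gt (2 * K / r)
    refine ⟨N, fun i hi => ?_⟩
    have hux := abs_le.1 (huK x hx)
    have h1 : u x - ε / 2 ≤ F i x := by
      apply le_ciInf
      intro y
      rcases lt_or_ge (dist (y : X) x) r with hd | hd
      · have h2 := hrb y y.2 hd
        have h3 : 0 ≤ (i:ℝ) * dist x y := by positivity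
        linarith
      · have h2 := (abs_le.1 (huK y y.2)).1
        have h3 : 2 * K ≤ i * dist x y := by
          rw [div_lt_iff₀ hr] at hN
          have h4 : (N:ℝ) ≤ i := by exact_mod_cast hi
          rw [dist_comm]
          calc 2 * K ≤ N * r := hN.le
            _ ≤ i * dist (y : X) x := mul_le_mul h4 hd hr.le (Nat.cast_nonneg i)
        linarith
    have h2 : min (F i x) K ≤ u x := by
      refine (min_le_left _ _).trans ((hFle i x ⟨x, hx⟩).trans ?_)
      rw [dist_self, mul_zero, add_zero]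
    have h3 : u x - ε / 2 ≤ min (F i x) K := le_min h1 (by linarith)
    rw [Real.dist_eq, abs_lt]
    constructor <;> linarith
  · intro i x
    rw [abs_le]
    have h1 : -K ≤ F i x := le_ciInf fun y => hlow i x y
    exact ⟨le_min h1 (by linarith), min_le_right _ _⟩

/-- Dini's lemma -/
theorem dini_lt {X : Type*} [TopologicalSpace X] {F : Set X} (hF : IsCompact F)
    {q : ℕ → X → ℝ} (hq : ∀ i, Continuous (q i)) (hm : ∀ i j, i ≤ j → ∀ x, q i x ≤ q j x)
    {a : ℝ} (h : ∀ x ∈ F, ∃ i, a < q i x) : ∃ N, ∀ i, N ≤ i → ∀ x ∈ F, a < q i x := by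
  obtain ⟨N, hN⟩ := hF.elim_directed_cover (fun i => {x | a < q i x})
    (fun i => isOpen_lt continuous_const (hq i))
    (fun x hx => by
      obtain ⟨i, hi⟩ := h x hx
      exact Set.mem_iUnion.2 ⟨i, hi⟩)
    (directed_of_isDirected_le fun i j hij x hx => lt_of_lt_of_le hx (hm i j hij x))
  exact ⟨N, fun i hi x hx => lt_of_lt_of_le (hN hx) (hm N i hi x)⟩

/-- the approximation of a superharmonic function by continuous supersolutions -/
theorem approx_super (hp : 1 < p) (hw : PAdmissible p w) (hA : AOperator p w A)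
    {u : E n → ℝ} (hu : IsSuperharmonic p w A Ω u) {K : ℝ} (hK : 0 ≤ K)
    (huK : ∀ x ∈ Ω, |u x| ≤ K) (hD : CompInside D Ω)
    (hext : ∀ x ∈ frontier D, ExtDens w D x) :
    ∃ (f F : ℕ → E n → ℝ) (Fg : ℕ → E n → E n), (∀ i, Continuous (f i)) ∧
      (∀ i j, i ≤ j → ∀ x, f i x ≤ f j x) ∧
      (∀ x ∈ closure D, Tendsto (fun i => f i x) atTop (𝓝 (u x))) ∧
      (∀ i, Continuous (F i)) ∧
      (∀ i : ℕ, ∀ x ∈ closure D, f i x - 2 / ((i:ℝ) + 1) ≤ F i x) ∧
      (∀ i, ∀ x ∈ closure D, F i x ≤ u x) ∧ (∀ i x, |F i x| ≤ K + 2) ∧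
      ∀ i, SupSol p w A D (F i) (Fg i) := by
  have hloc := locFinite hw.locallyIntegrable
  have hDo : IsOpen D := hD.1
  have hDb : Bornology.IsBounded D := hD.2.1.isBounded.subset subset_closure
  obtain ⟨f, hf1, hf2, hf3, hf4, hf5⟩ := lsc_approx hK (hu.lsc.mono hD.2.2)
    (fun x hx => huK x (hD.2.2 hx))
  obtain ⟨R, hR, hDR⟩ := hD.2.1.isBounded.subset_ball_lt 0 0
  obtain ⟨Lc, hLc, hcut⟩ := exists_cut (n := n)
  obtain ⟨χ, hχ, hχ01, hχ1, -⟩ := hcut 0 R (R + 1) hR (by linarith)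
  have hstep : ∀ i : ℕ, ∃ (F : E n → ℝ) (Fg : E n → E n), Continuous F ∧
      (∀ x ∈ closure D, f i x - 2 / ((i:ℝ) + 1) ≤ F x) ∧ (∀ x ∈ closure D, F x ≤ u x) ∧
      (∀ x, |F x| ≤ K + 2) ∧ SupSol p w A D F Fg := by
    intro i
    have hi : (0:ℝ) < 1 / ((i:ℝ) + 1) := by positivity
    have hi1 : (1:ℝ) / ((i:ℝ) + 1) ≤ 1 := by
      rw [div_le_one (by positivity)]
      linarith [(Nat.cast_nonneg i : (0:ℝ) ≤ i)]
    obtain ⟨ψ', hψ', hψa, -⟩ := Continuous.exists_contDiff_approx (f := fun x => f i x -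
      1 / ((i:ℝ) + 1)) (ε := fun _ => 1 / ((i:ℝ) + 1)) (⊤ : ℕ∞) ((hf1 i).sub continuous_const)
      continuous_const (fun _ => hi)
    have hψ'1 : ∀ x, ψ' x ≤ f i x := by
      intro x
      have := hψa x
      rw [Real.dist_eq] at this
      linarith [(abs_lt.1 this).2]
    have hψ'2 : ∀ x, f i x - 2 / ((i:ℝ) + 1) ≤ ψ' x := by
      intro x
      have := hψa x
      rw [Real.dist_eq] at this
      have h1 := (abs_lt.1 this).1
      have h2 : (2:ℝ) / ((i:ℝ) + 1) = 1 / ((i:ℝ) + 1) + 1 / ((i:ℝ) + 1) := by ring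
      linarith
    have hψ'3 : ∀ x, |ψ' x| ≤ K + 2 := by
      intro x
      have h1 := abs_le.1 (hf5 i x)
      have h2 : (2:ℝ) / ((i:ℝ) + 1) = 1 / ((i:ℝ) + 1) + 1 / ((i:ℝ) + 1) := by ring
      rw [abs_le]
      constructor
      · linarith [hψ'2 x]
      · linarith [hψ'1 x]
    have hψ : Cut Set.univ (fun x => ψ' x * χ x) :=
      (hχ.nonneg_mul_cut hψ').mono (Set.subset_univ _)
    have hψM : ∀ x, |ψ' x * χ x| ≤ K + 2 := by
      intro x
      rw [abs_mul, abs_of_nonneg (hχ01 x).1]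
      exact (mul_le_of_le_one_right (abs_nonneg _) (hχ01 x).2).trans (hψ'3 x)
    have hψD : ∀ x ∈ closure D, ψ' x * χ x = ψ' x := by
      intro x hx
      rw [hχ1 x (ball_subset_closedBall (hDR hx)), mul_one]
    obtain ⟨g, G, hobs⟩ := exists_obst hp hw hA hDo hDb hψ
    obtain ⟨F, hF1, hF2, hF3, hF4, hF5⟩ := hobs.cont hp hw hA hDo hDb hψ hψM hext
    refine ⟨F, _, hF1, ?_, ?_, hF5, (hobs.supSol hp hw hA hDo hDb hψ hψM).congr
      (ae_restrict_of_ae hF2)⟩
    · intro x hx
      have := hF4 x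
      rw [hψD x hx] at this
      linarith [hψ'2 x]
    · apply hobs.le_super hp hw hA hu hD hψ hψM _ hF1 hF2 hF3
      intro x hx
      rw [hψD x hx]
      exact (hψ'1 x).trans (hf3 i x hx)
  choose F Fg h1 h2 h3 h4 h5 using hstep
  exact ⟨f, F, Fg, hf1, hf2, hf4, h1, h2, h3, h4, h5⟩

/-! ### Inner parallel sets -/

/-- the points of `Ω` with distance `> ρ` to the complement -/
def inner' (Ω : Set (E n)) (ρ : ℝ) : Set (E n) := {x | ρ < infDist x Ωᶜ}

theorem inner_open (Ω : Set (E n)) (ρ : ℝ) : IsOpen (inner' Ω ρ) :=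
  isOpen_lt continuous_const (continuous_infDist_pt _)

theorem inner_closure (Ω : Set (E n)) (ρ : ℝ) : closure (inner' Ω ρ) ⊆ {x | ρ ≤ infDist x Ωᶜ} := by
  apply closure_minimal _ (isClosed_le continuous_const (continuous_infDist_pt _))
  intro x hx
  have hx' : ρ < infDist x Ωᶜ := hx
  exact hx'.le

theorem inner_comp (hb : Bornology.IsBounded Ω) {ρ : ℝ} (hρ : 0 < ρ) :
    CompInside (inner' Ω ρ) Ω := by
  have hsub : closure (inner' Ω ρ) ⊆ Ω := by
    intro x hx
    by_contra hxΩ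
    have h1 : ρ ≤ infDist x Ωᶜ := inner_closure Ω ρ hx
    rw [infDist_zero_of_mem (show x ∈ Ωᶜ from hxΩ)] at h1
    linarith
  exact ⟨inner_open Ω ρ, Metric.isCompact_of_isClosed_isBounded isClosed_closure (hb.subset hsub),
    hsub⟩

theorem inner_frontier {ρ : ℝ} {x : E n} (hx : x ∈ frontier (inner' Ω ρ)) :
    infDist x Ωᶜ = ρ := by
  rw [(inner_open Ω ρ).frontier_eq] at hx
  exact le_antisymm (not_lt.1 hx.2) (inner_closure Ω ρ hx.1)

theorem inner_ext (hw : PAdmissible p w) (hΩ : IsOpen Ω) (hne : Ωᶜ.Nonempty) {ρ : ℝ}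
    (hρ : 0 < ρ) {x : E n} (hx : x ∈ frontier (inner' Ω ρ)) : ExtDens w (inner' Ω ρ) x := by
  have hloc := locFinite hw.locallyIntegrable
  obtain ⟨z, hz, hxz⟩ := hΩ.isClosed_compl.exists_infDist_eq_dist hne x
  rw [inner_frontier hx] at hxz
  obtain ⟨Cd, hCd, hdb⟩ := ball_doubling hw
  refine ⟨1 / (Cd * Cd), ρ, by positivity, hρ, fun r hr hrρ => ?_⟩
  obtain ⟨y, hy⟩ : ∃ y, y = x + (r / (2 * ρ)) • (z - x) := ⟨_, rfl⟩
  have hnz : ‖z - x‖ = ρ := by rw [← dist_eq_norm, dist_comm]; exact hxz.symm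
  have hyx : dist y x = r / 2 := by
    rw [dist_eq_norm, hy, add_sub_cancel_left, norm_smul, hnz, Real.norm_of_nonneg (by positivity)]
    field_simp
  have hyz : dist y z = ρ - r / 2 := by
    have e : y - z = (-(1 - r / (2 * ρ))) • (z - x) := by
      rw [hy, neg_smul, sub_smul, one_smul]; abel
    rw [dist_eq_norm, e, norm_smul, hnz, norm_neg, Real.norm_of_nonneg]
    · field_simp
    · rw [sub_nonneg, div_le_one (by positivity)]; linarith
  have h1 : ball y (r / 2) ⊆ ball x r \ inner' Ω ρ := by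
    intro q hq
    have hq' : dist q y < r / 2 := hq
    refine ⟨?_, fun hqi => ?_⟩
    · rw [mem_ball]
      linarith [dist_triangle q y x]
    · have h2 : ρ < infDist q Ωᶜ := hqi
      have h3 : infDist q Ωᶜ ≤ dist q z := infDist_le_dist_of_mem hz
      linarith [dist_triangle q y z]
  have h2 : ball x r ⊆ ball y (2 * (2 * (r / 2))) := by
    intro q hq
    have hq' : dist q x < r := hq
    rw [mem_ball]
    have := dist_triangle q x y
    rw [dist_comm x y] at this
    linarith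
  have h3 := hdb y (2 * (r / 2)) (by positivity)
  have h4 := hdb y (r / 2) (by positivity)
  have h5 : (wMeasure w).real (ball x r) ≤ (wMeasure w).real (ball y (2 * (2 * (r / 2)))) :=
    measureReal_mono h2 measure_ball_lt_top.ne
  have h6 : (wMeasure w).real (ball y (r / 2)) ≤ (wMeasure w).real (ball x r \ inner' Ω ρ) :=
    measureReal_mono h1 (ne_top_of_le_ne_top measure_ball_lt_top.ne (measure_mono Set.sdiff_subset))
  refine le_trans ?_ h6
  rw [one_div, inv_mul_le_iff₀ (by positivity)]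
  calc (wMeasure w).real (ball x r) ≤ Cd * (wMeasure w).real (ball y (2 * (r / 2))) := h5.trans h3
    _ ≤ Cd * (Cd * (wMeasure w).real (ball y (r / 2))) := mul_le_mul_of_nonneg_left h4 hCd.le
    _ = _ := by ring

end Pool.Agent.H40.NP
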