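import Pool.Agent.H40.NQStep

set_option autoImplicit false

open MeasureTheory Filter Topology Metric
open scoped ContDiff RealInnerProductSpace

namespace Pool.Agent.H40.NP

variable {n : ℕ} {p : ℝ} {w : E n → ℝ} {A : E n → E n → E n} {D Ω : Set (E n)}
  {μ : Measure (E n)}

theorem fast_geom {Y : ℕ → ℝ} {Q b σ : ℝ} (hY : ∀ j, 0 ≤ Y j) (hQ : 0 < Q) (hb : 1 < b)
    (hσ : 0 < σ) (hstep : ∀ j, Y (j + 1) ≤ Q * b ^ j * Y j ^ (1 + σ))
    (h0 : Y 0 ≤ Q ^ (-(1 / σ)) * b ^ (-(1 / σ ^ 2))) : Tendsto Y atTop (𝓝 0) := by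
  have hb0 : 0 < b := by linarith
  obtain ⟨T, hT⟩ : ∃ T, T = Q ^ (-(1 / σ)) * b ^ (-(1 / σ ^ 2)) := ⟨_, rfl⟩
  obtain ⟨r, hr⟩ : ∃ r, r = b ^ (-(1 / σ)) := ⟨_, rfl⟩
  have hT0 : 0 < T := by rw [hT]; positivity
  have hr0 : 0 < r := by rw [hr]; positivity
  have hr1 : r < 1 := by
    rw [hr]
    apply Real.rpow_lt_one_of_one_lt_of_neg hb
    have : 0 < 1 / σ := by positivity
    linarith
  have hrσ : r ^ σ = b⁻¹ := by
    rw [hr, ← Real.rpow_mul hb0.le, show -(1 / σ) * σ = -1 by field_simp, Real.rpow_neg_one]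
  have hTσ : T ^ σ = Q⁻¹ * r := by
    rw [hT, Real.mul_rpow (by positivity) (by positivity), ← Real.rpow_mul hQ.le,
      ← Real.rpow_mul hb0.le, show -(1 / σ) * σ = -1 by field_simp, Real.rpow_neg_one, hr]
    congr 2
    field_simp
  have key : ∀ j, Y j ≤ T * r ^ j := by
    intro j
    induction j with
    | zero => rw [pow_zero, mul_one, hT]; exact h0
    | succ j ih =>
      have h1 : (r ^ j) ^ σ = (b ^ j)⁻¹ := by
        rw [← Real.rpow_natCast r j, ← Real.rpow_mul hr0.le, mul_comm (j:ℝ) σ,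
          Real.rpow_mul hr0.le, hrσ, Real.rpow_natCast, inv_pow]
      calc Y (j + 1) ≤ Q * b ^ j * Y j ^ (1 + σ) := hstep j
        _ ≤ Q * b ^ j * (T * r ^ j) ^ (1 + σ) := by
            apply mul_le_mul_of_nonneg_left _ (by positivity)
            exact Real.rpow_le_rpow (hY j) ih (by linarith)
        _ = Q * b ^ j * ((T * r ^ j) * (T ^ σ * (r ^ j) ^ σ)) := by
            rw [Real.rpow_add (by positivity), Real.rpow_one,
              Real.mul_rpow hT0.le (by positivity)]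
        _ = T * r ^ (j + 1) := by
            rw [h1, hTσ, pow_succ]
            field_simp
  have hl : Tendsto (fun j => T * r ^ j) atTop (𝓝 (T * 0)) :=
    (tendsto_pow_atTop_nhds_zero_of_lt_one hr0.le hr1).const_mul T
  rw [mul_zero] at hl
  exact squeeze_zero hY key hl

theorem sup_bound (hp : 1 < p) (hw : PAdmissible p w) (hA : AOperator p w A) :
    ∃ N C2 : ℝ, 0 < N ∧ 0 < C2 ∧ ∀ (x0 : E n) (R : ℝ) (u : E n → ℝ) (U : E n → E n), 0 < R →
      SubSol p w A (ball x0 R) u U → ∀ (s t X : ℝ), 0 < s → s < t → t ≤ R → 0 < X →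
      ∫ x in ball x0 t, (max (u x) 0) ^ p ∂(wMeasure w) ≤ X * (wMeasure w).real (ball x0 R) →
      ∀ᵐ x ∂((wMeasure w).restrict (ball x0 s)), u x ≤ C2 * (R / (t - s)) ^ N * X ^ (1 / p) := by
  have hp0 : 0 < p := by linarith
  obtain ⟨σ, C1, hσ, hC1, hstep⟩ := degiorgi_step hp hw hA
  obtain ⟨b0, hb0⟩ : ∃ b0 : ℝ, b0 = 2 ^ (p * (1 + σ)) := ⟨_, rfl⟩
  have hb01 : 1 < b0 := by
    rw [hb0]; exact Real.one_lt_rpow (by norm_num) (by positivity)
  have hb00 : 0 < b0 := by linarith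
  obtain ⟨G, hG⟩ : ∃ G : ℝ, G = C1 ^ (1 / σ) * b0 ^ (1 / σ ^ 2) * 2 ^ (p / σ) := ⟨_, rfl⟩
  have hG0 : 0 < G := by rw [hG]; positivity
  have hGσ : G ^ σ = C1 * b0 ^ (1 / σ) * 2 ^ p := by
    rw [hG, Real.mul_rpow (by positivity) (by positivity),
      Real.mul_rpow (by positivity) (by positivity), ← Real.rpow_mul hC1.le,
      ← Real.rpow_mul hb00.le, ← Real.rpow_mul (by norm_num), one_div_mul_cancel hσ.ne',
      Real.rpow_one, div_mul_cancel₀ _ hσ.ne']
    congr 3
    field_simp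
  refine ⟨1 / σ, 2 * G ^ (1 / p), by positivity, by positivity, ?_⟩
  intro x0 R u U hR hu s t X hs hst htR hX hint
  set μ := wMeasure w with hμ
  set m := μ.real (ball x0 R) with hm
  have hm0 : 0 < m := ball_pos hw x0 hR
  have hts : 0 < t - s := by linarith
  obtain ⟨ρ, hρ⟩ : ∃ ρ, ρ = R / (t - s) := ⟨_, rfl⟩
  have hρ0 : 0 < ρ := by rw [hρ]; positivity
  rw [← hρ]
  obtain ⟨K, hK⟩ : ∃ K, K = 2 * G ^ (1 / p) * ρ ^ (1 / σ) * X ^ (1 / p) := ⟨_, rfl⟩
  have hK0 : 0 < K := by rw [hK]; positivity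
  rw [← hK]
  have hK2 : (K / 2) ^ p = G * ρ ^ (p / σ) * X := by
    have e : K / 2 = G ^ (1 / p) * ρ ^ (1 / σ) * X ^ (1 / p) := by rw [hK]; ring
    rw [e, Real.mul_rpow (by positivity) (by positivity),
      Real.mul_rpow (by positivity) (by positivity), ← Real.rpow_mul hG0.le,
      ← Real.rpow_mul hρ0.le, ← Real.rpow_mul hX.le, one_div_mul_cancel hp0.ne', Real.rpow_one,
      Real.rpow_one]
    congr 3
    field_simp
  obtain ⟨Q, hQ⟩ : ∃ Q, Q = C1 * (2 * ρ) ^ p * (K / 2) ^ (-(p * σ)) * m ^ (-σ) := ⟨_, rfl⟩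
  have hQ0 : 0 < Q := by rw [hQ]; positivity
  have hQe : Q = b0 ^ (-(1 / σ)) * (X * m) ^ (-σ) := by
    have e1 : (K / 2) ^ (-(p * σ)) = (C1 * b0 ^ (1 / σ) * 2 ^ p)⁻¹ * (ρ ^ p)⁻¹ * X ^ (-σ) := by
      rw [show -(p * σ) = p * (-σ) by ring, Real.rpow_mul (by positivity), hK2,
        Real.mul_rpow (by positivity) hX.le, Real.mul_rpow hG0.le (by positivity),
        ← Real.rpow_mul hρ0.le, show p / σ * -σ = -p by field_simp, Real.rpow_neg hρ0.le,
        Real.rpow_neg hG0.le, hGσ]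
    rw [hQ, e1, Real.mul_rpow (by norm_num) hρ0.le, Real.mul_rpow hX.le hm0.le,
      Real.rpow_neg hb00.le]
    field_simp
  have hQpow : Q ^ (-(1 / σ)) * b0 ^ (-(1 / σ ^ 2)) = X * m := by
    rw [hQe, Real.mul_rpow (by positivity) (by positivity), ← Real.rpow_mul hb00.le,
      ← Real.rpow_mul (by positivity), show -σ * -(1 / σ) = 1 by field_simp, Real.rpow_one,
      show -(1 / σ) * -(1 / σ) = 1 / σ ^ 2 by field_simp, Real.rpow_neg hb00.le]
    field_simp
  -- the sequences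
  let kk : ℕ → ℝ := fun i => K * (1 - (1 / 2) ^ i)
  let rr : ℕ → ℝ := fun i => s + (t - s) * (1 / 2) ^ i
  let Y : ℕ → ℝ := fun i => ∫ x in ball x0 (rr i), (max (u x - kk i) 0) ^ p ∂μ
  have hhalf : ∀ i : ℕ, (0:ℝ) < (1 / 2) ^ i := fun i => by positivity
  have hhalf1 : ∀ i : ℕ, ((1:ℝ) / 2) ^ i ≤ 1 := fun i => pow_le_one₀ (by norm_num) (by norm_num)
  have hrs : ∀ i, s < rr i := fun i => by
    have := mul_pos hts (hhalf i)
    change s < s + (t - s) * (1 / 2) ^ i
    linarith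
  have hrt : ∀ i, rr i ≤ t := fun i => by
    have := mul_le_mul_of_nonneg_left (hhalf1 i) hts.le
    change s + (t - s) * (1 / 2) ^ i ≤ t
    linarith
  have hY0 : ∀ i, 0 ≤ Y i := fun i =>
    integral_nonneg fun x => Real.rpow_nonneg (le_max_right _ _) _
  have hYstep : ∀ i, Y (i + 1) ≤ Q * b0 ^ i * Y i ^ (1 + σ) := by
    intro i
    have hkk : kk (i + 1) - kk i = K / 2 * (1 / 2) ^ i := by
      change K * (1 - (1 / 2) ^ (i + 1)) - K * (1 - (1 / 2) ^ i) = _
      rw [pow_succ]; ring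
    have hrr : rr i - rr (i + 1) = (t - s) / 2 * (1 / 2) ^ i := by
      change s + (t - s) * (1 / 2) ^ i - (s + (t - s) * (1 / 2) ^ (i + 1)) = _
      rw [pow_succ]; ring
    have h1 := hstep x0 R u U hR hu (kk i) (kk (i + 1)) (rr (i + 1)) (rr i)
      (by
        have : 0 < K / 2 * (1 / 2) ^ i := by positivity
        linarith) (by linarith [hrs (i + 1)])
      (by
        have : 0 < (t - s) / 2 * (1 / 2) ^ i := by positivity
        linarith) ((hrt i).trans htR)
    rw [hkk, hrr] at h1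
    refine h1.trans (le_of_eq ?_)
    have hpow2 : ((1:ℝ) / 2) ^ i = (2 ^ i)⁻¹ := by rw [one_div, inv_pow]
    have e1 : (R / ((t - s) / 2 * (1 / 2) ^ i)) ^ p = (2 * ρ) ^ p * ((2:ℝ) ^ i) ^ p := by
      rw [← Real.mul_rpow (by positivity) (by positivity), hρ, hpow2]
      congr 1
      field_simp
    have e2 : (K / 2 * (1 / 2) ^ i) ^ (-(p * σ)) = (K / 2) ^ (-(p * σ)) *
        ((2:ℝ) ^ i) ^ (p * σ) := by
      rw [Real.mul_rpow (by positivity) (by positivity), hpow2, Real.inv_rpow (by positivity),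
        ← Real.rpow_neg (by positivity), neg_neg]
    have e3 : ((2:ℝ) ^ i) ^ p * ((2:ℝ) ^ i) ^ (p * σ) = b0 ^ i := by
      rw [← Real.rpow_add (by positivity), hb0, ← Real.rpow_natCast, ← Real.rpow_natCast,
        ← Real.rpow_mul (by norm_num), ← Real.rpow_mul (by norm_num)]
      congr 1; ring
    rw [e1, e2, hQ, ← e3]
    ring
  have hYinit : Y 0 ≤ Q ^ (-(1 / σ)) * b0 ^ (-(1 / σ ^ 2)) := by
    rw [hQpow]
    have e : Y 0 = ∫ x in ball x0 t, (max (u x) 0) ^ p ∂μ := by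
      change ∫ x in ball x0 (s + (t - s) * (1 / 2) ^ 0), (max (u x - K * (1 - (1 / 2) ^ 0)) 0) ^ p
        ∂μ = _
      simp
    rw [e]; exact hint
  have hlim := fast_geom hY0 hQ0 hb01 hσ hYstep hYinit
  have hfin := ball_fin hw x0 R
  have hum := hu.1.aesm isOpen_ball
  obtain ⟨Cu, hCu⟩ := hu.1.bdd isOpen_ball
  have hZ : ∫ x in ball x0 s, (max (u x - K) 0) ^ p ∂μ ≤ 0 := by
    apply ge_of_tendsto' hlim
    intro i
    have hfi := ball_fin hw x0 (rr i)
    have hle : μ.restrict (ball x0 (rr i)) ≤ μ.restrict (ball x0 R) :=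
      Measure.restrict_mono (ball_subset_ball ((hrt i).trans htR)) le_rfl
    have hsle : μ.restrict (ball x0 s) ≤ μ.restrict (ball x0 (rr i)) :=
      Measure.restrict_mono (ball_subset_ball (hrs i).le) le_rfl
    have il := integrable_level hp (hum.mono_measure hle) (hCu.filter_mono (ae_mono hle)) (kk i)
    calc ∫ x in ball x0 s, (max (u x - K) 0) ^ p ∂μ ≤
        ∫ x in ball x0 s, (max (u x - kk i) 0) ^ p ∂μ := by
          apply integral_mono_of_nonneg (Eventually.of_forall fun x =>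
            Real.rpow_nonneg (le_max_right _ _) _) (il.mono_measure hsle)
          refine Eventually.of_forall fun x => ?_
          apply Real.rpow_le_rpow (le_max_right _ _) _ hp0.le
          apply max_le_max _ le_rfl
          have : kk i ≤ K := by
            change K * (1 - (1 / 2) ^ i) ≤ K
            have := mul_pos hK0 (hhalf i)
            linarith
          linarith
      _ ≤ Y i := by
          apply setIntegral_mono_set il (Eventually.of_forall fun x =>
            Real.rpow_nonneg (le_max_right _ _) _) (ball_subset_ball (hrs i).le).eventuallyLE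
  have hsle : μ.restrict (ball x0 s) ≤ μ.restrict (ball x0 R) :=
    Measure.restrict_mono (ball_subset_ball (hst.le.trans htR)) le_rfl
  have hfs := ball_fin hw x0 s
  have il := integrable_level hp (hum.mono_measure hsle) (hCu.filter_mono (ae_mono hsle)) K
  have hz0 := le_antisymm hZ (integral_nonneg fun x => Real.rpow_nonneg (le_max_right _ _) _)
  rw [integral_eq_zero_iff_of_nonneg (fun x => Real.rpow_nonneg (le_max_right _ _) _) il] at hz0
  filter_upwards [hz0] with x hx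
  by_contra h
  have h1 : 0 < max (u x - K) 0 := lt_max_of_lt_left (by linarith)
  have h2 : 0 < (max (u x - K) 0) ^ p := Real.rpow_pos_of_pos h1 p
  exact h2.ne' hx

end Pool.Agent.H40.NP
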