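import Pool.Agent.H40.NPMain

set_option autoImplicit false

open MeasureTheory Filter Topology Metric
open scoped ContDiff RealInnerProductSpace

namespace Pool.Agent.H40.NP

variable {n : ℕ} {p : ℝ} {w : E n → ℝ} {A : E n → E n → E n} {D Ω : Set (E n)}
  {μ : Measure (E n)}

/-! ### Closedness of `H^{1,p}` and bounded pairs on sets of finite measure -/

theorem MemH.closed (hp : 1 < p) {u : ℕ → E n → ℝ} {U : ℕ → E n → E n} {u0 : E n → ℝ}
    {U0 : E n → E n} (h : ∀ k, MemH p μ D (u k) (U k)) (hu0 : InL p μ D u0) (hU0 : InL p μ D U0)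
    (h1 : Tendsto (fun k => nrm p μ D (fun x => u k x - u0 x)) atTop (𝓝 0))
    (h2 : Tendsto (fun k => nrm p μ D (fun x => U k x - U0 x)) atTop (𝓝 0)) :
    MemH p μ D u0 U0 := by
  have key : ∀ k : ℕ, ∃ φ : E n → ℝ, ContDiffOn ℝ ∞ φ D ∧ InL p μ D φ ∧ InL p μ D (gradient φ) ∧
      nrm p μ D (fun x => φ x - u k x) ≤ ((k : ENNReal) + 1)⁻¹ ∧
      nrm p μ D (fun x => gradient φ x - U k x) ≤ ((k : ENNReal) + 1)⁻¹ := by
    intro k
    obtain ⟨hu, hU, φ, a1, a2, a3, a4, a5⟩ := h k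
    have hpos : (0 : ENNReal) < ((k : ENNReal) + 1)⁻¹ := by
      rw [ENNReal.inv_pos]
      exact ENNReal.add_ne_top.2 ⟨ENNReal.natCast_ne_top k, ENNReal.one_ne_top⟩
    obtain ⟨m, hm1, hm2⟩ := ((a4.eventually (gt_mem_nhds hpos)).and
      (a5.eventually (gt_mem_nhds hpos))).exists
    exact ⟨φ m, a1 m, a2 m, a3 m, hm1.le, hm2.le⟩
  choose φ b1 b2 b3 b4 b5 using key
  have hinv : Tendsto (fun k : ℕ => ((k : ENNReal) + 1)⁻¹) atTop (𝓝 0) := by
    have := ENNReal.tendsto_inv_nat_nhds_zero.comp (tendsto_add_atTop_nat 1)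
    refine this.congr fun k => ?_
    simp
  refine ⟨hu0, hU0, φ, b1, b2, b3, ?_, ?_⟩
  · have h3 := hinv.add h1
    rw [add_zero] at h3
    refine tendsto_of_tendsto_of_tendsto_of_le_of_le tendsto_const_nhds h3
      (fun _ => zero_le) fun k => ?_
    have e : (fun x => φ k x - u0 x) = (fun x => φ k x - u k x) + fun x => u k x - u0 x := by
      funext x; simp
    unfold nrm
    simp only
    rw [e]
    refine (eLpNorm_add_le ((b2 k).1.sub (h k).1.1) ((h k).1.1.sub hu0.1) (one_le_q hp)).trans ?_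
    exact add_le_add_left (b4 k) _
  · have h3 := hinv.add h2
    rw [add_zero] at h3
    refine tendsto_of_tendsto_of_tendsto_of_le_of_le tendsto_const_nhds h3
      (fun _ => zero_le) fun k => ?_
    have e : (fun x => gradient (φ k) x - U0 x) =
        (fun x => gradient (φ k) x - U k x) + fun x => U k x - U0 x := by
      funext x; simp
    unfold nrm
    simp only
    rw [e]
    refine (eLpNorm_add_le ((b3 k).1.sub (h k).2.1.1) ((h k).2.1.1.sub hU0.1)
      (one_le_q hp)).trans ?_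
    exact add_le_add_left (b5 k) _

/-- bounded a.e. convergence gives `L^p` convergence on a set of finite measure -/
theorem tendsto_nrm_bdd (hp : 1 < p) [IsFiniteMeasure (μ.restrict D)] {u : ℕ → E n → ℝ}
    {u0 : E n → ℝ} {C : ℝ} (hm : ∀ k, AEStronglyMeasurable (u k) (μ.restrict D))
    (hC : ∀ k, ∀ᵐ x ∂(μ.restrict D), |u k x| ≤ C)
    (hlim : ∀ᵐ x ∂(μ.restrict D), Tendsto (fun k => u k x) atTop (𝓝 (u0 x))) :
    Tendsto (fun k => nrm p μ D (fun x => u k x - u0 x)) atTop (𝓝 0) := by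
  have := tendsto_eLpNorm_smul (F := ℝ) (one_le_q hp) ENNReal.ofReal_ne_top hm hC hlim
    (f := fun _ _ => (1 : ℝ)) (f0 := fun _ => (1 : ℝ)) (fun k => aestronglyMeasurable_const)
    (memLp_const 1) (by simp)
  simpa [nrm] using this

theorem BH.toMemH (hp : 1 < p) (hD : IsOpen D) [IsFiniteMeasure (μ.restrict D)] {u : E n → ℝ}
    {U : E n → E n} (h : BH p μ D u U) : MemH p μ D u U := by
  have hum := h.aesm hD
  obtain ⟨C0, hC0⟩ := h.bdd hD
  obtain ⟨φ, C, h1, h2, h3, h4, h5, h6⟩ := h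
  have hm1 : ∀ k, AEStronglyMeasurable (φ k) (μ.restrict D) := fun k =>
    aesm_of_contDiffOn hD (h1 k)
  have hb1 : ∀ k, ∀ᵐ x ∂(μ.restrict D), |φ k x| ≤ C := fun k => ae_restrict_of_mem hD (h2 k)
  refine ⟨MemLp.of_bound hum C0 hC0, h5, φ, h1, fun k => MemLp.of_bound (hm1 k) C (hb1 k), h4,
    tendsto_nrm_bdd hp hm1 hb1 h3, h6⟩

theorem MemH.toBH_ae (hp : 1 < p) (hD : IsOpen D) {u : E n → ℝ} {U : E n → E n}
    (hu : MemH p μ D u U) {K : ℝ} (hK : ∀ᵐ x ∂(μ.restrict D), |u x| ≤ K) : BH p μ D u U := by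
  obtain ⟨θ, h1, ⟨B, h2⟩, ⟨B', h3⟩, h4⟩ := exists_trunc K
  refine (hu.comp hp hD h1 h2 h3).congr (hK.mono fun x hx => (h4 _ hx).1)
    (hK.mono fun x hx => ?_)
  rw [(h4 _ hx).2, one_smul]

theorem BH.closed (hp : 1 < p) (hD : IsOpen D) [IsFiniteMeasure (μ.restrict D)]
    {u : ℕ → E n → ℝ} {U : ℕ → E n → E n} {u0 : E n → ℝ} {U0 : E n → E n} {C : ℝ}
    (h : ∀ k, BH p μ D (u k) (U k)) (hC : ∀ k, ∀ᵐ x ∂(μ.restrict D), |u k x| ≤ C)
    (hlim : ∀ᵐ x ∂(μ.restrict D), Tendsto (fun k => u k x) atTop (𝓝 (u0 x)))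
    (hU0 : InL p μ D U0)
    (h2 : Tendsto (fun k => nrm p μ D (fun x => U k x - U0 x)) atTop (𝓝 0)) :
    BH p μ D u0 U0 := by
  have hC0 : ∀ᵐ x ∂(μ.restrict D), |u0 x| ≤ C := by
    filter_upwards [ae_all_iff.2 hC, hlim] with x hx hl
    exact le_of_tendsto' hl.abs hx
  have hm0 : AEStronglyMeasurable u0 (μ.restrict D) :=
    aestronglyMeasurable_of_tendsto_ae atTop (fun k => (h k).aesm hD) hlim
  apply MemH.toBH_ae hp hD _ hC0
  exact MemH.closed hp (fun k => (h k).toMemH hp hD) (MemLp.of_bound hm0 C hC0) hU0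
    (tendsto_nrm_bdd hp (fun k => (h k).aesm hD) hC hlim) h2

/-- explicit approximations for compositions -/
theorem BHs.comp (hp : 1 < p) (hD : IsOpen D) {φ : ℕ → E n → ℝ} {C : ℝ} {u : E n → ℝ}
    {U : E n → E n} (hu : BHs p μ D φ C u U) {ψ : ℝ → ℝ} (hψ : ContDiff ℝ ∞ ψ) :
    ∃ B, BHs p μ D (fun k x => ψ (φ k x)) B (fun x => ψ (u x)) (fun x => deriv ψ (u x) • U x) := by
  have hub := BH.bdd hD ⟨φ, C, hu⟩
  have hum := BH.aesm hD ⟨φ, C, hu⟩
  obtain ⟨h1, h2, h3, h4, h5, h6⟩ := hu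
  have hψc : Continuous ψ := hψ.continuous
  have hψd : Continuous (deriv ψ) := hψ.continuous_deriv (by simp)
  have hψdiff : Differentiable ℝ ψ := hψ.differentiable (by simp)
  obtain ⟨B, hB⟩ := isCompact_Icc.exists_bound_of_continuousOn
    (s := Set.Icc (-C) C) hψc.continuousOn
  obtain ⟨B', hB'⟩ := isCompact_Icc.exists_bound_of_continuousOn
    (s := Set.Icc (-C) C) hψd.continuousOn
  have hgrad : ∀ k, ∀ᵐ x ∂(μ.restrict D), gradient (fun y => ψ (φ k y)) x =
      deriv ψ (φ k x) • gradient (φ k) x := fun k =>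
    ae_restrict_of_mem hD fun x hx => (gradient_comp (hasGradientAt_of_contDiffOn hD (h1 k) hx)
      (hψdiff _).hasDerivAt).gradient
  have hm1 : ∀ k, AEStronglyMeasurable (fun x => deriv ψ (φ k x)) (μ.restrict D) := fun k =>
    hψd.comp_aestronglyMeasurable (aesm_of_contDiffOn hD (h1 k))
  have hb1 : ∀ k, ∀ᵐ x ∂(μ.restrict D), |deriv ψ (φ k x)| ≤ B' := fun k =>
    ae_restrict_of_mem hD fun x hx => hB' _ (abs_le.1 (h2 k x hx))
  refine ⟨B, fun k => hψ.comp_contDiffOn (h1 k), ?_, ?_, ?_, ?_, ?_⟩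
  · intro k x hx
    exact hB _ (abs_le.1 (h2 k x hx))
  · filter_upwards [h3] with x hx
    exact (hψc.tendsto _).comp hx
  · intro k
    exact (memLp_bdd_smul (hm1 k) (hb1 k) (h4 k)).ae_eq ((hgrad k).mono fun x hx => hx.symm)
  · have hl : ∀ᵐ x ∂(μ.restrict D), |deriv ψ (u x)| ≤ B' := by
      filter_upwards [h3, ae_restrict_of_mem hD (fun x hx => hx)] with x hx hxD
      exact le_of_tendsto' ((hψd.tendsto _).comp hx).abs fun k => hB' _ (abs_le.1 (h2 k x hxD))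
    exact memLp_bdd_smul (hψd.comp_aestronglyMeasurable hum) hl h5
  · have t1 := tendsto_eLpNorm_smul (one_le_q hp) ENNReal.ofReal_ne_top hm1 hb1
      (h3.mono fun x hx => (hψd.tendsto _).comp hx) (fun k => (h4 k).1) h5 h6
    refine t1.congr fun k => ?_
    apply eLpNorm_congr_ae
    filter_upwards [hgrad k] with x hx
    rw [hx]

/-! ### Truncation -/

/-- smooth approximation of the positive part -/
noncomputable def qf (ε t : ℝ) : ℝ := t * gf ε t

theorem qf_contDiff (ε : ℝ) : ContDiff ℝ ∞ (qf ε) := contDiff_id.mul (gf_contDiff ε)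

theorem qf_deriv (ε t : ℝ) : deriv (qf ε) t = gf ε t + t * deriv (gf ε) t := by
  have h1 : HasDerivAt (gf ε) (deriv (gf ε) t) t :=
    ((gf_contDiff ε).differentiable (by simp) t).hasDerivAt
  have h2 := (hasDerivAt_id t).mul h1
  have h3 : deriv (qf ε) t = 1 * gf ε t + id t * deriv (gf ε) t := h2.deriv
  rw [h3]; simp

theorem qf_nonneg {ε : ℝ} (hε : 0 < ε) (t : ℝ) : 0 ≤ qf ε t := by
  unfold qf
  rcases le_or_gt t 0 with h | h
  · rw [gf_zero hε h, mul_zero]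
  · exact mul_nonneg h.le (gf_nonneg _ _)

theorem qf_le {ε : ℝ} (hε : 0 < ε) (t : ℝ) : qf ε t ≤ max t 0 := by
  unfold qf
  rcases le_or_gt t 0 with h | h
  · rw [gf_zero hε h, mul_zero]; exact le_max_right _ _
  · exact (mul_le_of_le_one_right h.le (gf_le_one _ _)).trans (le_max_left _ _)

theorem qf_deriv_nonneg {ε : ℝ} (hε : 0 < ε) (t : ℝ) : 0 ≤ deriv (qf ε) t := by
  rw [qf_deriv]
  rcases le_or_gt t 0 with h | h
  · rcases h.eq_or_lt with h0 | h0
    · rw [h0, zero_mul, add_zero]; exact gf_nonneg _ _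
    · rw [gf_deriv_zero_left hε h0, mul_zero, add_zero]; exact gf_nonneg _ _
  · exact add_nonneg (gf_nonneg _ _) (mul_nonneg h.le (gf_deriv_nonneg hε _))

theorem gf_deriv_scale {ε : ℝ} (t : ℝ) : deriv (gf ε) t = deriv (gf 1) (t / ε) / ε := by
  have h1 : HasDerivAt (gf 1) (deriv (gf 1) (t / ε)) (t / ε) :=
    ((gf_contDiff 1).differentiable (by simp) _).hasDerivAt
  have h2 : HasDerivAt (fun s : ℝ => s / ε) (1 / ε) t := (hasDerivAt_id t).div_const ε
  have h3 := h1.comp t h2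
  have h4 : gf ε = gf 1 ∘ fun s : ℝ => s / ε := by
    funext s
    simp [gf]
  rw [h4, h3.deriv, mul_one_div]

theorem qf_deriv_bdd : ∃ L, 0 ≤ L ∧ ∀ ε : ℝ, 0 < ε → ∀ t, |deriv (qf ε) t| ≤ L := by
  obtain ⟨L, hL0, hL⟩ := gf_deriv_bdd (h := 1) one_pos
  refine ⟨1 + L, by positivity, fun ε hε t => ?_⟩
  rw [abs_of_nonneg (qf_deriv_nonneg hε t), qf_deriv]
  apply add_le_add (gf_le_one _ _)
  rcases lt_or_ge t 0 with h | h
  · rw [gf_deriv_zero_left hε h, mul_zero]; exact hL0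
  rcases lt_or_ge ε t with h' | h'
  · rw [gf_deriv_zero_right hε h', mul_zero]; exact hL0
  rw [gf_deriv_scale]
  have h1 := (abs_le.1 (hL (t / ε))).2
  calc t * (deriv (gf 1) (t / ε) / ε) = (t / ε) * deriv (gf 1) (t / ε) := by ring
    _ ≤ 1 * L := by
        apply mul_le_mul ((div_le_one hε).2 h') h1 (gf_deriv_nonneg one_pos _) zero_le_one
    _ = L := one_mul L

theorem qf_tendsto (t : ℝ) : Tendsto (fun k : ℕ => qf (1 / ((k:ℝ) + 1)) t) atTop
    (𝓝 (max t 0)) := by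
  rcases le_or_gt t 0 with h | h
  · rw [max_eq_right h]
    refine tendsto_const_nhds.congr fun k => ?_
    unfold qf; rw [gf_zero (by positivity) h, mul_zero]
  · rw [max_eq_left h.le]
    refine tendsto_const_nhds.congr' ?_
    have h1 : Tendsto (fun k : ℕ => 1 / ((k:ℝ) + 1)) atTop (𝓝 0) :=
      tendsto_one_div_add_atTop_nhds_zero_nat
    filter_upwards [h1.eventually (gt_mem_nhds h)] with k hk
    unfold qf; rw [gf_one (by positivity) hk.le, mul_one]

theorem qf_deriv_tendsto (t : ℝ) : Tendsto (fun k : ℕ => deriv (qf (1 / ((k:ℝ) + 1))) t) atTop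
    (𝓝 (if 0 < t then 1 else 0)) := by
  rcases le_or_gt t 0 with h | h
  · rw [if_neg (not_lt.2 h)]
    refine tendsto_const_nhds.congr fun k => ?_
    rw [qf_deriv, gf_zero (by positivity) h]
    rcases h.eq_or_lt with h0 | h0
    · rw [h0]; simp
    · rw [gf_deriv_zero_left (by positivity) h0]; simp
  · rw [if_pos h]
    refine tendsto_const_nhds.congr' ?_
    have h1 : Tendsto (fun k : ℕ => 1 / ((k:ℝ) + 1)) atTop (𝓝 0) :=
      tendsto_one_div_add_atTop_nhds_zero_nat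
    filter_upwards [h1.eventually (gt_mem_nhds h)] with k hk
    rw [qf_deriv, gf_one (by positivity) hk.le, gf_deriv_zero_right (by positivity) hk]; simp

/-- truncation of bounded pairs -/
theorem BH.trunc (hp : 1 < p) (hD : IsOpen D) [IsFiniteMeasure (μ.restrict D)] {u : E n → ℝ}
    {U : E n → E n} (h : BH p μ D u U) (c : ℝ) :
    BH p μ D (fun x => max (u x - c) 0) (fun x => (if c < u x then (1:ℝ) else 0) • U x) := by
  obtain ⟨C, hC⟩ := h.bdd hD
  obtain ⟨L, hL0, hL⟩ := qf_deriv_bdd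
  have hψ : ∀ k : ℕ, ContDiff ℝ ∞ (fun t : ℝ => qf (1 / ((k:ℝ) + 1)) (t - c)) := fun k =>
    (qf_contDiff _).comp (contDiff_id.sub contDiff_const)
  have hB : ∀ k : ℕ, BH p μ D (fun x => qf (1 / ((k:ℝ) + 1)) (u x - c))
      (fun x => deriv (qf (1 / ((k:ℝ) + 1))) (u x - c) • U x) := by
    intro k
    refine (h.comp hp hD (hψ k)).congr (Eventually.of_forall fun x => rfl)
      (Eventually.of_forall fun x => ?_)
    rw [deriv_comp_sub_const]
  have hm : ∀ k : ℕ, AEStronglyMeasurable (fun x => deriv (qf (1 / ((k:ℝ) + 1))) (u x - c))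
      (μ.restrict D) := fun k =>
    ((qf_contDiff _).continuous_deriv (by simp)).comp_aestronglyMeasurable
      ((h.aesm hD).sub aestronglyMeasurable_const)
  have hbd : ∀ k : ℕ, ∀ᵐ x ∂(μ.restrict D), |deriv (qf (1 / ((k:ℝ) + 1))) (u x - c)| ≤ L :=
    fun k => Eventually.of_forall fun x => hL _ (by positivity) _
  have hl : ∀ᵐ x ∂(μ.restrict D), Tendsto (fun k : ℕ => deriv (qf (1 / ((k:ℝ) + 1))) (u x - c))
      atTop (𝓝 (if c < u x then (1:ℝ) else 0)) := by
    refine Eventually.of_forall fun x => ?_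
    have := qf_deriv_tendsto (u x - c)
    simpa [sub_pos] using this
  have hm0 : AEStronglyMeasurable (fun x => (if c < u x then (1:ℝ) else 0)) (μ.restrict D) :=
    aestronglyMeasurable_of_tendsto_ae atTop hm hl
  have hU0 : InL p μ D (fun x => (if c < u x then (1:ℝ) else 0) • U x) := by
    apply memLp_bdd_smul (C := 1) hm0 _ h.inL_grad
    refine Eventually.of_forall fun x => ?_
    split_ifs <;> simp
  apply BH.closed hp hD hB (C := C + |c|) _ _ hU0
  · exact tendsto_eLpNorm_smul (one_le_q hp) ENNReal.ofReal_ne_top hm hbd hl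
      (fun _ => h.inL_grad.1) h.inL_grad (by simp)
  · intro k
    filter_upwards [hC] with x hx
    rw [abs_of_nonneg (qf_nonneg (by positivity) _)]
    refine (qf_le (by positivity) _).trans (max_le ?_ (by linarith [abs_nonneg (u x), abs_nonneg c]))
    have := (abs_le.1 hx).2
    have := neg_abs_le c
    linarith
  · exact Eventually.of_forall fun x => qf_tendsto _

/-- restriction of bounded pairs -/
theorem BH.mono {D' : Set (E n)} {u : E n → ℝ} {U : E n → E n} (hu : BH p μ D u U)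
    (h : D' ⊆ D) : BH p μ D' u U := by
  obtain ⟨φ, C, h1, h2, h3, h4, h5, h6⟩ := hu
  have hle := Measure.restrict_mono h (le_refl μ)
  refine ⟨φ, C, fun k => (h1 k).mono h, fun k x hx => h2 k x (h hx),
    h3.filter_mono (ae_mono hle), fun k => (h4 k).mono_measure hle, h5.mono_measure hle, ?_⟩
  exact tendsto_of_tendsto_of_tendsto_of_le_of_le tendsto_const_nhds h6
    (fun _ => zero_le) fun k => eLpNorm_mono_measure _ hle

theorem BH.neg (hp : 1 < p) (hD : IsOpen D) {u : E n → ℝ} {U : E n → E n} (hu : BH p μ D u U) :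
    BH p μ D (fun x => -u x) (fun x => -U x) := by
  refine (hu.comp hp hD (ψ := fun t => -t) (by fun_prop)).congr
    (Eventually.of_forall fun x => rfl) (Eventually.of_forall fun x => ?_)
  have : deriv (fun t : ℝ => -t) (u x) = -1 := by simp
  rw [this, neg_one_smul]

theorem BH.add_const (hp : 1 < p) (hD : IsOpen D) {u : E n → ℝ} {U : E n → E n}
    (hu : BH p μ D u U) (c : ℝ) : BH p μ D (fun x => u x + c) U := by
  refine (hu.comp hp hD (ψ := fun t => t + c) (by fun_prop)).congr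
    (Eventually.of_forall fun x => rfl) (Eventually.of_forall fun x => ?_)
  have : deriv (fun t : ℝ => t + c) (u x) = 1 := by simp
  rw [this, one_smul]

theorem BH.const_mul (hp : 1 < p) (hD : IsOpen D) {u : E n → ℝ} {U : E n → E n}
    (hu : BH p μ D u U) (c : ℝ) : BH p μ D (fun x => c * u x) (fun x => c • U x) := by
  refine (hu.comp hp hD (ψ := fun t => c * t) (by fun_prop)).congr
    (Eventually.of_forall fun x => rfl) (Eventually.of_forall fun x => ?_)
  have : deriv (fun t : ℝ => c * t) (u x) = c := by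
    rw [deriv_const_mul_field]; simp
  rw [this]

/-! ### Test functions -/

theorem Cut.nonneg_mul_cut {χ ζ : E n → ℝ} (h : Cut D χ) (hζ : ContDiff ℝ ∞ ζ) :
    Cut D (fun x => ζ x * χ x) :=
  ⟨hζ.mul h.smooth, h.cpt.mul_left, (tsupport_mul_subset_right).trans h.supp⟩

/-- smooth nonnegative function equal to `t + ε` for `t ≥ 0` -/
noncomputable def pf (ε t : ℝ) : ℝ := (t + ε) * gf (ε / 2) (t + ε)

theorem pf_contDiff (ε : ℝ) : ContDiff ℝ ∞ (pf ε) :=
  (contDiff_id.add contDiff_const).mul ((gf_contDiff _).comp (contDiff_id.add contDiff_const))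

theorem pf_nonneg {ε : ℝ} (hε : 0 < ε) (t : ℝ) : 0 ≤ pf ε t := by
  unfold pf
  rcases le_or_gt (t + ε) 0 with h | h
  · rw [gf_zero (by positivity) h, mul_zero]
  · exact mul_nonneg h.le (gf_nonneg _ _)

theorem pf_eq {ε t : ℝ} (hε : 0 < ε) (ht : 0 ≤ t) : pf ε t = t + ε := by
  unfold pf; rw [gf_one (by positivity) (by linarith), mul_one]

theorem pf_deriv_eq {ε t : ℝ} (hε : 0 < ε) (ht : 0 ≤ t) : deriv (pf ε) t = 1 := by
  have h1 : pf ε =ᶠ[𝓝 t] fun s => s + ε := by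
    filter_upwards [Ioi_mem_nhds (show -(ε / 2) < t by linarith)] with s hs
    have hs' : -(ε / 2) < s := hs
    unfold pf; rw [gf_one (by positivity) (by linarith), mul_one]
  rw [h1.deriv_eq]; simp

theorem test_gen (hp : 1 < p) (hD : IsOpen D) [IsLocallyFiniteMeasure μ] {b : E n → E n}
    (hb : MemLp b (ENNReal.ofReal (p / (p - 1))) (μ.restrict D))
    (h : ∀ ζ : E n → ℝ, Cut D ζ → (∀ x, 0 ≤ ζ x) → 0 ≤ ∫ x in D, ⟪b x, gradient ζ x⟫ ∂μ)
    {ξ : E n → ℝ} {Ξ : E n → E n} (hξ : BH p μ D ξ Ξ) (hξ0 : ∀ᵐ x ∂(μ.restrict D), 0 ≤ ξ x)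
    {χ : E n → ℝ} (hχ : Cut D χ) (hχ0 : ∀ x, 0 ≤ χ x) :
    0 ≤ ∫ x in D, ⟪b x, ξ x • gradient χ x + χ x • Ξ x⟫ ∂μ := by
  obtain ⟨C', hχb⟩ := hχ.bhs (p := p) (μ := μ)
  have hG : MemLp (fun x => ξ x • gradient χ x + χ x • Ξ x) (ENNReal.ofReal p)
      (μ.restrict D) := by
    obtain ⟨ψ, C, hψ⟩ := hξ
    exact (hψ.mul hp hD hχb).2.2.2.2.1
  have hg : MemLp (fun x => gradient χ x) (ENNReal.ofReal p) (μ.restrict D) := hχb.2.2.2.2.1
  have key : ∀ ε : ℝ, 0 < ε → 0 ≤ (∫ x in D, ⟪b x, ξ x • gradient χ x + χ x • Ξ x⟫ ∂μ) +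
      ε * ∫ x in D, ⟪b x, gradient χ x⟫ ∂μ := by
    intro ε hε
    obtain ⟨ψ, C, hψ⟩ := hξ
    obtain ⟨B, hB⟩ := hψ.comp hp hD (pf_contDiff ε)
    have hs := hB.mul hp hD hχb
    have hlim := tendsto_integral_inner hp hb hs.2.2.2.1 hs.2.2.2.2.1 hs.2.2.2.2.2
    have e1 : ∫ x in D, ⟪b x, pf ε (ξ x) • gradient χ x + χ x • (deriv (pf ε) (ξ x) • Ξ x)⟫ ∂μ =
        (∫ x in D, ⟪b x, ξ x • gradient χ x + χ x • Ξ x⟫ ∂μ) +
      ε * ∫ x in D, ⟪b x, gradient χ x⟫ ∂μ := by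
      rw [← integral_const_mul, ← integral_add (integrable_inner hp hb hG)
        ((integrable_inner hp hb hg).const_mul ε)]
      apply integral_congr_ae
      filter_upwards [hξ0] with x hx
      rw [pf_eq hε hx, pf_deriv_eq hε hx, one_smul, ← real_inner_smul_right, ← inner_add_right,
        add_smul]
      congr 1; abel
    rw [e1] at hlim
    apply ge_of_tendsto' hlim
    intro k
    have hc : Cut D (fun x => pf ε (ψ k x) * χ x) :=
      ⟨hχ.contDiff_mul hD ((pf_contDiff ε).comp_contDiffOn (hψ.1 k)),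
        hχ.cpt.mul_left, (tsupport_mul_subset_right).trans hχ.supp⟩
    exact h _ hc fun x => mul_nonneg (pf_nonneg hε _) (hχ0 x)
  have hlim : Tendsto (fun ε : ℝ => (∫ x in D, ⟪b x, ξ x • gradient χ x + χ x • Ξ x⟫ ∂μ) +
      ε * ∫ x in D, ⟪b x, gradient χ x⟫ ∂μ) (𝓝[>] 0)
      (𝓝 ((∫ x in D, ⟪b x, ξ x • gradient χ x + χ x • Ξ x⟫ ∂μ) +
      0 * ∫ x in D, ⟪b x, gradient χ x⟫ ∂μ)) := by
    apply Tendsto.mono_left _ nhdsWithin_le_nhds
    exact tendsto_const_nhds.add ((continuous_id.tendsto 0).mul tendsto_const_nhds)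
  rw [zero_mul, add_zero] at hlim
  apply ge_of_tendsto hlim
  filter_upwards [self_mem_nhdsWithin] with ε hε
  exact key ε hε

/-- bounded weak subsolutions on an open set -/
def SubSol (p : ℝ) (w : E n → ℝ) (A : E n → E n → E n) (D : Set (E n)) (u : E n → ℝ)
    (U : E n → E n) : Prop :=
  BH p (wMeasure w) D u U ∧ ∀ ζ : E n → ℝ, Cut D ζ → (∀ x, 0 ≤ ζ x) →
    ∫ x in D, ⟪fld w A U x, gradient ζ x⟫ ∂(wMeasure w) ≤ 0

/-- bounded weak supersolutions on an open set -/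
def SupSol (p : ℝ) (w : E n → ℝ) (A : E n → E n → E n) (D : Set (E n)) (u : E n → ℝ)
    (U : E n → E n) : Prop :=
  BH p (wMeasure w) D u U ∧ ∀ ζ : E n → ℝ, Cut D ζ → (∀ x, 0 ≤ ζ x) →
    0 ≤ ∫ x in D, ⟪fld w A U x, gradient ζ x⟫ ∂(wMeasure w)

theorem SupSol.test (hp : 1 < p) (hw : PAdmissible p w) (hA : AOperator p w A) (hD : IsOpen D)
    {u : E n → ℝ} {U : E n → E n} (hu : SupSol p w A D u U)
    {ξ : E n → ℝ} {Ξ : E n → E n} (hξ : BH p (wMeasure w) D ξ Ξ)
    (hξ0 : ∀ᵐ x ∂((wMeasure w).restrict D), 0 ≤ ξ x)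
    {χ : E n → ℝ} (hχ : Cut D χ) (hχ0 : ∀ x, 0 ≤ χ x) :
    0 ≤ ∫ x in D, ⟪fld w A U x, ξ x • gradient χ x + χ x • Ξ x⟫ ∂(wMeasure w) := by
  have := locFinite hw.locallyIntegrable
  exact test_gen hp hD (fld_memLp hp hw.locallyIntegrable hA hw.pos hu.1.inL_grad) hu.2 hξ hξ0
    hχ hχ0

theorem SubSol.test (hp : 1 < p) (hw : PAdmissible p w) (hA : AOperator p w A) (hD : IsOpen D)
    {u : E n → ℝ} {U : E n → E n} (hu : SubSol p w A D u U)
    {ξ : E n → ℝ} {Ξ : E n → E n} (hξ : BH p (wMeasure w) D ξ Ξ)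
    (hξ0 : ∀ᵐ x ∂((wMeasure w).restrict D), 0 ≤ ξ x)
    {χ : E n → ℝ} (hχ : Cut D χ) (hχ0 : ∀ x, 0 ≤ χ x) :
    ∫ x in D, ⟪fld w A U x, ξ x • gradient χ x + χ x • Ξ x⟫ ∂(wMeasure w) ≤ 0 := by
  have := locFinite hw.locallyIntegrable
  have h1 := test_gen hp hD (b := fun x => -fld w A U x)
    (fld_memLp hp hw.locallyIntegrable hA hw.pos hu.1.inL_grad).neg (by
      intro ζ hζ hζ0
      have := hu.2 ζ hζ hζ0
      simp only [inner_neg_left, integral_neg]
      linarith) hξ hξ0 hχ hχ0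
  simp only [inner_neg_left, integral_neg] at h1
  linarith

end Pool.Agent.H40.NP
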