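import Pool.Agent.H40.NQApp
import Pool.Agent.H40.NQUnif
import Pool.Agent.H40.NPFinal

set_option autoImplicit false

open MeasureTheory Filter Topology Metric
open scoped ContDiff RealInnerProductSpace

namespace Pool.Agent.H40.NP

variable {n : ℕ} {p : ℝ} {w : E n → ℝ} {A : E n → E n → E n} {D Ω : Set (E n)}
  {μ : Measure (E n)}

theorem FF_mono {l s t : ℝ} (hl : 0 < l) (hst : s ≤ t) : FF l s ≤ FF l t := by
  unfold FF
  apply div_le_div_of_nonneg_right _ hl.le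
  have := Real.exp_le_exp.2 (mul_le_mul_of_nonneg_left hst hl.le)
  linarith

theorem HH_anti {l c s t : ℝ} (hl : 0 < l) (hst : s ≤ t) : HH l c t ≤ HH l c s := by
  have := FF_mono hl (neg_le_neg hst)
  unfold FF at this
  unfold HH
  rw [show -l * t = l * -t by ring, show -l * s = l * -s by ring]
  linarith

/-- near the boundary, off a neighbourhood of the exceptional set -/
theorem exists_rho (hΩ : IsOpen Ω) (hb : Bornology.IsBounded Ω) (hne : Ωᶜ.Nonempty)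
    {S W : Set (E n)} (hW : IsOpen W) (hSW : S ⊆ W) {u v : E n → ℝ} {K ε : ℝ} (hε : 0 < ε)
    (huK : ∀ x ∈ Ω, |u x| ≤ K) (hvK : ∀ x ∈ Ω, |v x| ≤ K)
    (hbd : ∀ x ∈ frontier Ω \ S, limsup v (𝓝[Ω] x) ≤ liminf u (𝓝[Ω] x)) {ρ0 : ℝ}
    (hρ0 : 0 < ρ0) :
    ∃ ρ : ℝ, 0 < ρ ∧ ρ ≤ ρ0 ∧ ∀ y ∈ frontier (inner' Ω ρ), y ∉ W → v y < u y + ε := by
  by_contra hcon
  push Not at hcon
  have hk : ∀ k : ℕ, 0 < ρ0 * (1 / ((k:ℝ) + 1)) := fun k => by positivity
  have hk1 : ∀ k : ℕ, ρ0 * (1 / ((k:ℝ) + 1)) ≤ ρ0 := fun k => by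
    apply mul_le_of_le_one_right hρ0.le
    rw [div_le_one (by positivity)]
    linarith [(Nat.cast_nonneg k : (0:ℝ) ≤ k)]
  choose y hy1 hy2 hy3 using fun k => hcon _ (hk k) (hk1 k)
  have hyΩ : ∀ k, y k ∈ Ω := fun k =>
    (inner_comp hb (hk k)).2.2 (frontier_subset_closure (hy1 k))
  obtain ⟨x, hx, ns, hns, hlim⟩ := hb.isCompact_closure.tendsto_subseq
    (fun k => subset_closure (hyΩ k))
  have hdist : infDist x Ωᶜ = 0 := by
    have h1 : Tendsto (fun k => infDist (y (ns k)) Ωᶜ) atTop (𝓝 (infDist x Ωᶜ)) :=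
      ((continuous_infDist_pt _).tendsto x).comp hlim
    have h2 : Tendsto (fun k : ℕ => ρ0 * (1 / ((k:ℝ) + 1))) atTop (𝓝 (ρ0 * 0)) :=
      tendsto_one_div_add_atTop_nhds_zero_nat.const_mul ρ0
    rw [mul_zero] at h2
    have h3 := h2.comp hns.tendsto_atTop
    refine tendsto_nhds_unique h1 (h3.congr fun k => ?_)
    exact (inner_frontier (hy1 (ns k))).symm
  have hxΩ : x ∉ Ω := by
    have h1 : x ∈ closure Ωᶜ := by
      rw [mem_closure_iff_infDist_zero hne]; exact hdist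
    rw [hΩ.isClosed_compl.closure_eq] at h1
    exact h1
  have hxf : x ∈ frontier Ω := by
    rw [hΩ.frontier_eq]; exact ⟨hx, hxΩ⟩
  have hxW : x ∉ W := by
    have h1 : x ∈ Wᶜ := hW.isClosed_compl.mem_of_tendsto hlim
      (Eventually.of_forall fun k => hy2 (ns k))
    exact h1
  have h2 := bdd_case hε hx huK hvK (hbd x ⟨hxf, fun h => hxW (hSW h)⟩)
  have h3 : Tendsto (fun k => y (ns k)) atTop (𝓝[Ω] x) :=
    tendsto_nhdsWithin_iff.2 ⟨hlim, Eventually.of_forall fun k => hyΩ (ns k)⟩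
  obtain ⟨k, hk⟩ := (h3.eventually h2).exists
  exact absurd hk (not_lt.2 (hy3 (ns k)))

theorem level_super (hp : 1 < p) (hw : PAdmissible p w) (hA : AOperator p w A) (hΩ : IsOpen Ω)
    (hb : Bornology.IsBounded Ω) (hne : Ωᶜ.Nonempty) {S : Set (E n)}
    (hcap : cap p (wMeasure w) S = 0)
    {u v : E n → ℝ} {K l ε h : ℝ} (hK : 0 ≤ K)
    (hu : IsSuperharmonic p w A Ω u) (hv : IsSubharmonic p w A Ω v)
    (huK : ∀ x ∈ Ω, |u x| ≤ K) (hvK : ∀ x ∈ Ω, |v x| ≤ K) (hl : 0 < l) (hlK : l * (K + 2) ≤ 1)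
    (hh : 0 < h) (hε : 0 < ε)
    (hbd : ∀ x ∈ frontier Ω \ S, limsup v (𝓝[Ω] x) ≤ liminf u (𝓝[Ω] x)) {ρ0 : ℝ}
    (hρ0 : 0 < ρ0) :
    wMeasure w {x | x ∈ inner' Ω ρ0 ∧
      2 * h ≤ FF l (v x) + HH l (ε + 2 * l * (K + 2) ^ 2) (u x)} = 0 := by
  obtain ⟨R, hR, hΩR⟩ := hb.subset_ball_lt 0 0
  obtain ⟨c, hc⟩ : ∃ c, c = ε + 2 * l * (K + 2) ^ 2 := ⟨_, rfl⟩
  rw [← hc]
  obtain ⟨C, hC, hest⟩ := main_est_unif (R := R) (K := K + 2) hp hw hA hR hl hh c
  have key : ∀ δ : ENNReal, 0 < δ →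
      wMeasure w {x | x ∈ inner' Ω ρ0 ∧ 2 * h ≤ FF l (v x) + HH l c (u x)} ≤ C * δ := by
    intro δ hδ
    have h1 : cap p (wMeasure w) S < δ := by rw [hcap]; exact hδ
    obtain ⟨_, ⟨φ, Φ, hφ, ⟨W, hWo, hSW, hφ1⟩, rfl⟩, hcδ⟩ := sInf_lt_iff.1 h1
    obtain ⟨ρ, hρ, hρρ0, hρW⟩ := exists_rho hΩ hb hne hWo hSW (half_pos hε) huK hvK hbd hρ0
    have hD := inner_comp (Ω := Ω) hb hρ
    have hext : ∀ x ∈ frontier (inner' Ω ρ), ExtDens w (inner' Ω ρ) x := fun x hx =>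
      inner_ext hw hΩ hne hρ hx
    obtain ⟨D, hDdef⟩ : ∃ D, D = inner' Ω ρ := ⟨_, rfl⟩
    rw [← hDdef] at hD hext hρW
    have hDsub : inner' Ω ρ0 ⊆ D := by
      rw [hDdef]
      intro x hx
      have hx' : ρ0 < infDist x Ωᶜ := hx
      exact lt_of_le_of_lt hρρ0 hx'
    obtain ⟨f, F, Fg, hf1, hf2, hf3, hF1, hF2, hF3, hF4, hF5⟩ :=
      approx_super hp hw hA hu hK huK hD hext
    obtain ⟨f', F', Fg', hf1', hf2', hf3', hF1', hF2', hF3', hF4', hF5'⟩ :=
      approx_super hp hw hA (hv.neg hA) hK (fun x hx => by rw [abs_neg]; exact hvK x hx) hD hext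
    -- Dini on the frontier
    have hFc : IsCompact (frontier D \ W) := by
      have h2 : IsCompact (frontier D) :=
        hD.2.1.of_isClosed_subset isClosed_frontier frontier_subset_closure
      exact h2.diff hWo
    obtain ⟨N, hN⟩ := dini_lt hFc (q := fun i x => f i x + f' i x)
      (fun i => (hf1 i).add (hf1' i)) (fun i j hij x => add_le_add (hf2 i j hij x)
        (hf2' i j hij x)) (a := -(ε / 2)) (fun x hx => by
        have hxD : x ∈ closure D := frontier_subset_closure hx.1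
        have h2 := (hf3 x hxD).add (hf3' x hxD)
        have h3 := hρW x hx.1 hx.2
        exact (h2.eventually (lt_mem_nhds (show -(ε / 2) < u x + -v x by linarith))).exists)
    obtain ⟨i, hiN, hi4⟩ : ∃ i : ℕ, N ≤ i ∧ 4 / ((i:ℝ) + 1) < ε / 2 := by
      have h2 : Tendsto (fun i : ℕ => 4 / ((i:ℝ) + 1)) atTop (𝓝 0) := by
        have := (tendsto_one_div_add_atTop_nhds_zero_nat (𝕜 := ℝ)).const_mul 4
        rw [mul_zero] at this
        exact this.congr fun k => by ring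
      obtain ⟨i, h3, h4⟩ := ((eventually_ge_atTop N).and
        (h2.eventually (gt_mem_nhds (half_pos hε)))).exists
      exact ⟨i, h3, h4⟩
    have hfront : ∀ x ∈ frontier D, x ∉ W → -F' i x - F i x < ε := by
      intro x hx hxW
      have hxD : x ∈ closure D := frontier_subset_closure hx
      have h2 := hN i hiN x ⟨hx, hxW⟩
      have h3 := hF2 i x hxD
      have h4 := hF2' i x hxD
      have e : (4:ℝ) / ((i:ℝ) + 1) = 2 / ((i:ℝ) + 1) + 2 / ((i:ℝ) + 1) := by ring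
      linarith
    have hK2 : ∀ x ∈ D, |-F' i x| ≤ K + 2 := fun x _ => by rw [abs_neg]; exact hF4' i x
    have hmain := hest D hD.1 ((subset_closure.trans hD.2.2).trans hΩR) (F i)
      (fun x => -F' i x) (Fg i) (fun x => -Fg' i x)
      ((hF5 i).isSupersolution hp hw hD.1) ((hF5' i).neg_isSubsolution hp hw hA hD.1)
      (fun x _ => hF4 i x) hK2 φ Φ hφ (by
        intro x hx
        by_cases hxW : x ∈ W
        · have : ∀ᶠ y in 𝓝[D] x, y ∈ W := mem_nhdsWithin_of_mem_nhds (hWo.mem_nhds hxW)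
          filter_upwards [this] with y hy
          rw [hφ1 y hy, nf_zero le_rfl, mul_zero]
        · have h2 := hfront x hx hxW
          have h3 : Continuous fun y => -F' i y - F i y := (hF1' i).neg.sub (hF1 i)
          have h4 : ∀ᶠ y in 𝓝 x, -F' i y - F i y < ε :=
            (h3.tendsto x).eventually (gt_mem_nhds h2)
          filter_upwards [mem_nhdsWithin_of_mem_nhds h4] with y hy
          rw [gf_zero hh, zero_mul]
          have h5 := FF_le (t := -F' i y) (K := K + 2) hl hlK (by rw [abs_neg]; exact hF4' i y)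
          have h6 := HH_le (c := c) hl hlK (hF4 i y)
          have hy' : -F' i y - F i y < ε := hy
          linarith)
    refine (measure_mono ?_).trans (hmain.trans (mul_le_mul_right hcδ.le _))
    rintro x ⟨hx1, hx2⟩
    have hxD : x ∈ D := hDsub hx1
    refine ⟨hxD, ?_⟩
    have h2 := hF3 i x (subset_closure hxD)
    have h3 := hF3' i x (subset_closure hxD)
    have h4 := FF_mono (l := l) hl (show v x ≤ -F' i x by linarith)
    have h5 := HH_anti (l := l) (c := c) hl h2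
    linarith
  apply le_antisymm _ (zero_le)
  apply ENNReal.le_of_forall_pos_le_add
  intro δ hδ _
  rw [zero_add]
  rcases eq_or_ne C 0 with hC0 | hC0
  · have := key 1 (by norm_num)
    rw [hC0, zero_mul] at this
    exact this.trans (zero_le)
  · have := key (δ / C) (ENNReal.div_pos (by exact_mod_cast hδ.ne') hC)
    rwa [ENNReal.mul_div_cancel hC0 hC] at this

theorem ae_le_super (hp : 1 < p) (hw : PAdmissible p w) (hA : AOperator p w A) (hΩ : IsOpen Ω)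
    (hb : Bornology.IsBounded Ω) (hne : Ωᶜ.Nonempty) {S : Set (E n)}
    (hcap : cap p (wMeasure w) S = 0)
    {u v : E n → ℝ} {K : ℝ} (hK0 : 0 ≤ K)
    (hu : IsSuperharmonic p w A Ω u) (hv : IsSubharmonic p w A Ω v)
    (huK : ∀ x ∈ Ω, |u x| ≤ K) (hvK : ∀ x ∈ Ω, |v x| ≤ K)
    (hbd : ∀ x ∈ frontier Ω \ S, limsup v (𝓝[Ω] x) ≤ liminf u (𝓝[Ω] x)) :
    wMeasure w {x | x ∈ Ω ∧ u x < v x} = 0 := by
  obtain ⟨K', hK'⟩ : ∃ K', K' = K + 2 := ⟨_, rfl⟩
  have hK'0 : 0 ≤ K' := by rw [hK']; linarith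
  have hK1 : 0 < K' + 1 := by positivity
  let lk : ℕ → ℝ := fun k => 1 / ((K' + 1) ^ 2 * (k + 1))
  have hlk : ∀ k, 0 < lk k := fun k => by positivity
  have hlkK : ∀ k, lk k * K' ≤ 1 := by
    intro k
    have h1 : (1:ℝ) ≤ k + 1 := by
      have : (0:ℝ) ≤ k := Nat.cast_nonneg k
      linarith
    change 1 / ((K' + 1) ^ 2 * (k + 1)) * K' ≤ 1
    rw [div_mul_eq_mul_div, one_mul, div_le_one (by positivity)]
    calc K' ≤ (K' + 1) ^ 2 := by nlinarith
      _ ≤ (K' + 1) ^ 2 * (k + 1) := le_mul_of_one_le_right (by positivity) h1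
  have hz : ∀ k m : ℕ, wMeasure w {x | x ∈ inner' Ω (1 / ((m:ℝ) + 1)) ∧ 2 * (1 / ((k:ℝ) + 1)) ≤
      FF (lk k) (v x) + HH (lk k) (1 / ((k:ℝ) + 1) + 2 * lk k * K' ^ 2) (u x)} = 0 := by
    intro k m
    have hlkK2 : lk k * (K + 2) ≤ 1 := by rw [← hK']; exact hlkK k
    rw [hK']
    exact level_super hp hw hA hΩ hb hne hcap hK0 hu hv huK hvK (hlk k) hlkK2 (by positivity)
      (by positivity) hbd (by positivity)
  refine measure_mono_null ?_ (measure_iUnion_null fun k => measure_iUnion_null (hz k))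
  rintro x ⟨hxΩ, hx⟩
  rw [Set.mem_iUnion]
  obtain ⟨k, hk⟩ := exists_nat_gt (5 / (v x - u x))
  refine ⟨k, ?_⟩
  rw [Set.mem_iUnion]
  have hpos : 0 < infDist x Ωᶜ :=
    (hΩ.isClosed_compl.notMem_iff_infDist_pos hne).1 (fun h => h hxΩ)
  obtain ⟨m, hm⟩ := exists_nat_one_div_lt hpos
  refine ⟨m, hm, ?_⟩
  have hd : 0 < v x - u x := by linarith
  have hk1 : (0:ℝ) < k + 1 := by positivity
  have h1 : 5 * (1 / ((k:ℝ) + 1)) < v x - u x := by
    rw [div_lt_iff₀ hd] at hk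
    rw [mul_one_div, div_lt_iff₀ hk1]
    nlinarith
  have h2 : 2 * lk k * K' ^ 2 ≤ 2 * (1 / ((k:ℝ) + 1)) := by
    have e : 2 * lk k * K' ^ 2 = 2 * (1 / ((k:ℝ) + 1)) * (K' ^ 2 / (K' + 1) ^ 2) := by
      change 2 * (1 / ((K' + 1) ^ 2 * (k + 1))) * K' ^ 2 = _
      field_simp
    rw [e]
    apply mul_le_of_le_one_right (by positivity)
    rw [div_le_one (by positivity)]
    exact pow_le_pow_left₀ hK'0 (by linarith) 2
  have h3 := FF_ge (t := v x) (hlk k)
  have h4 := HH_ge (c := 1 / ((k:ℝ) + 1) + 2 * lk k * K' ^ 2) (t := u x) (hlk k)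
  linarith

end Pool.Agent.H40.NP
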