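import Pool.Agent.H40.NQProp2

set_option autoImplicit false

open MeasureTheory Filter Topology Metric
open scoped ContDiff RealInnerProductSpace

namespace Pool.Agent.H40.NP

variable {n : ℕ} {p : ℝ} {w : E n → ℝ} {A : E n → E n → E n} {D Ω : Set (E n)}
  {μ : Measure (E n)}

/-! ### Essential limits -/

/-- `f` has the essential limit `L` at `x` -/
def EssLim (μ : Measure (E n)) (f : E n → ℝ) (x : E n) (L : ℝ) : Prop :=
  ∀ ε : ℝ, 0 < ε → ∃ r : ℝ, 0 < r ∧ ∀ᵐ y ∂(μ.restrict (ball x r)), |f y - L| ≤ ε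

theorem ae_exists (hw : PAdmissible p w) {x : E n} {r : ℝ} (hr : 0 < r) {P : E n → Prop}
    (h : ∀ᵐ y ∂((wMeasure w).restrict (ball x r)), P y) : ∃ y, P y := by
  have hpos : (wMeasure w).restrict (ball x r) ≠ 0 := by
    intro h0
    have h1 := ball_pos hw x hr
    have h2 : (wMeasure w) (ball x r) = 0 := by
      rw [← Measure.restrict_apply_univ, h0]; rfl
    unfold Measure.real at h1
    rw [h2] at h1
    simp at h1
  have : (ae ((wMeasure w).restrict (ball x r))).NeBot := ae_neBot.2 hpos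
  exact h.exists

theorem ae_ball_mono {x y : E n} {r s : ℝ} (h : ball y s ⊆ ball x r) {P : E n → Prop}
    (hP : ∀ᵐ z ∂(μ.restrict (ball x r)), P z) : ∀ᵐ z ∂(μ.restrict (ball y s)), P z :=
  ae_mono (Measure.restrict_mono h le_rfl) hP

/-- A function with essential limits everywhere has a continuous representative. -/
theorem essLim_cont (hw : PAdmissible p w) {f L : E n → ℝ}
    (h : ∀ x, EssLim (wMeasure w) f x (L x)) :
    Continuous L ∧ ∀ᵐ x ∂(wMeasure w), f x = L x := by
  have key : ∀ x : E n, ∀ ε : ℝ, 0 < ε → ∃ r : ℝ, 0 < r ∧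
      (∀ᵐ y ∂((wMeasure w).restrict (ball x r)), |f y - L x| ≤ ε) ∧
      ∀ y ∈ ball x r, |L y - L x| ≤ ε := by
    intro x ε hε
    obtain ⟨r, hr, hx⟩ := h x ε hε
    refine ⟨r, hr, hx, fun y hy => ?_⟩
    apply le_of_forall_pos_le_add
    intro δ hδ
    obtain ⟨s, hs, hy'⟩ := h y δ hδ
    obtain ⟨t, ht0, hts, htb⟩ : ∃ t, 0 < t ∧ t ≤ s ∧ ball y t ⊆ ball x r := by
      obtain ⟨t, ht, hb⟩ := Metric.isOpen_iff.1 isOpen_ball y hy
      exact ⟨min t s, lt_min ht hs, min_le_right _ _, (ball_subset_ball (min_le_left _ _)).trans hb⟩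
    obtain ⟨z, hz1, hz2⟩ := ae_exists hw ht0 ((ae_ball_mono htb hx).and
      (ae_ball_mono (ball_subset_ball hts) hy'))
    calc |L y - L x| = |(f z - L x) - (f z - L y)| := by congr 1; ring
      _ ≤ |f z - L x| + |f z - L y| := abs_sub _ _
      _ ≤ ε + δ := add_le_add hz1 hz2
  constructor
  · rw [Metric.continuous_iff]
    intro x ε hε
    obtain ⟨r, hr, -, h2⟩ := key x (ε / 2) (by positivity)
    refine ⟨r, hr, fun y hy => ?_⟩
    have := h2 y hy
    rw [Real.dist_eq]
    linarith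
  · have hk : ∀ k : ℕ, ∀ᵐ x ∂(wMeasure w), |f x - L x| ≤ 2 / ((k:ℝ) + 1) := by
      intro k
      choose r hr h1 h2 using fun x => key x (1 / ((k:ℝ) + 1)) (by positivity)
      obtain ⟨T, hT, hTU⟩ := TopologicalSpace.isOpen_iUnion_countable (fun x => ball x (r x))
        (fun x => isOpen_ball)
      have huniv : ⋃ x ∈ T, ball x (r x) = Set.univ := by
        rw [hTU]
        exact Set.iUnion_eq_univ_iff.2 fun x => ⟨x, mem_ball_self (hr x)⟩
      have h3 : ∀ᵐ x ∂((wMeasure w).restrict (⋃ x ∈ T, ball x (r x))),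
          |f x - L x| ≤ 2 / ((k:ℝ) + 1) := by
        rw [ae_restrict_biUnion_eq _ hT]
        rw [Filter.eventually_iSup]
        intro x
        rw [Filter.eventually_iSup]
        intro _
        filter_upwards [h1 x, ae_restrict_of_mem isOpen_ball (fun y hy => hy)] with y hy hyb
        have h4 := h2 x y hyb
        calc |f y - L y| = |(f y - L x) - (L y - L x)| := by congr 1; ring
          _ ≤ |f y - L x| + |L y - L x| := abs_sub _ _
          _ ≤ 1 / ((k:ℝ) + 1) + 1 / ((k:ℝ) + 1) := add_le_add hy h4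
          _ = 2 / ((k:ℝ) + 1) := by ring
      rwa [huniv, Measure.restrict_univ] at h3
    filter_upwards [ae_all_iff.2 hk] with x hx
    have hlim : Tendsto (fun k : ℕ => 2 / ((k:ℝ) + 1)) atTop (𝓝 0) := by
      have := (tendsto_one_div_add_atTop_nhds_zero_nat (𝕜 := ℝ)).const_mul 2
      rw [mul_zero] at this
      exact this.congr fun k => by ring
    have h5 := ge_of_tendsto' hlim hx
    exact sub_eq_zero.1 (abs_eq_zero.1 (le_antisymm h5 (abs_nonneg _)))

/-! ### Essential limits of solutions of the obstacle problem -/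

/-- interior points -/
theorem Obst.essLim_int (hp : 1 < p) (hw : PAdmissible p w) (hA : AOperator p w A)
    (hD : IsOpen D) (hDb : Bornology.IsBounded D)
    {ψ g : E n → ℝ} {G : E n → E n} (h : Obst p w A D ψ g G) (hψ : Cut Set.univ ψ) {M : ℝ}
    (hM : ∀ x, |ψ x| ≤ M) {x : E n} (hx : x ∈ D) :
    ∃ L, EssLim (wMeasure w) (fun x => ψ x + g x) x L := by
  have hloc := locFinite hw.locallyIntegrable
  set μ := wMeasure w with hμ
  have hM0 : 0 ≤ M := (abs_nonneg _).trans (hM 0)
  obtain ⟨R0, hR0, hR0D⟩ := Metric.isOpen_iff.1 hD x hx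
  have habs := h.abs_bound hp hw hA hD hDb hψ hM
  have hsup := h.supSol hp hw hA hD hDb hψ hM
  -- the essential lower limit
  let Q : Set ℝ := {c | ∃ r : ℝ, 0 < r ∧ ∀ᵐ y ∂(μ.restrict (ball x r)), c ≤ ψ y + g y}
  have hQM : ∀ c ∈ Q, c ≤ M := by
    rintro c ⟨r, hr, hc⟩
    obtain ⟨y, hy1, hy2⟩ := ae_exists hw hr (hc.and (ae_restrict_of_ae habs))
    exact hy1.trans (abs_le.1 hy2).2
  have hQne : (-M) ∈ Q := ⟨1, one_pos, by
    filter_upwards [ae_restrict_of_ae habs] with y hy
    exact (abs_le.1 hy).1⟩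
  have hQb : BddAbove Q := ⟨M, hQM⟩
  obtain ⟨L, hL⟩ : ∃ L, L = sSup Q := ⟨_, rfl⟩
  have hlow : ∀ ε : ℝ, 0 < ε → ∃ r : ℝ, 0 < r ∧ r ≤ R0 ∧
      ∀ᵐ y ∂(μ.restrict (ball x r)), L - ε ≤ ψ y + g y := by
    intro ε hε
    obtain ⟨c, ⟨r, hr, hc⟩, hcL⟩ := exists_lt_of_lt_csSup ⟨_, hQne⟩
      (show L - ε < sSup Q by rw [← hL]; linarith)
    refine ⟨min r R0, lt_min hr hR0, min_le_right _ _, ?_⟩
    filter_upwards [ae_ball_mono (ball_subset_ball (min_le_left _ _)) hc] with y hy
    linarith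
  have hnot : ∀ ε : ℝ, 0 < ε → ∀ r : ℝ, 0 < r →
      ¬ ∀ᵐ y ∂(μ.restrict (ball x r)), L + ε ≤ ψ y + g y := by
    intro ε hε r hr hcon
    have := le_csSup hQb (show L + ε ∈ Q from ⟨r, hr, hcon⟩)
    rw [← hL] at this
    linarith
  have hψL : ψ x ≤ L := by
    apply le_of_forall_pos_le_add
    intro ε hε
    obtain ⟨r, hr, hrb⟩ := Metric.continuous_iff.1 hψ.smooth.continuous x ε hε
    have : ψ x - ε ∈ Q := ⟨r, hr, by
      filter_upwards [ae_restrict_of_ae h.nonneg, ae_restrict_of_mem isOpen_ball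
        (fun y hy => hy)] with y hy hyb
      have := hrb y hyb
      rw [Real.dist_eq] at this
      linarith [(abs_lt.1 this).1]⟩
    have := le_csSup hQb this
    rw [← hL] at this
    linarith
  refine ⟨L, fun ε hε => ?_⟩
  obtain ⟨C3, hC3, hsupL1⟩ := sup_L1 hp hw hA
  -- the proportion of large values
  obtain ⟨B, hB⟩ : ∃ B, B = 2 * M + |L| + ε + 1 := ⟨_, rfl⟩
  have hB0 : 0 < B := by rw [hB]; positivity
  obtain ⟨τ, hτ⟩ : ∃ τ, τ = ε / (2 * C3 * B) := ⟨_, rfl⟩
  have hτ0 : 0 < τ := by rw [hτ]; positivity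
  obtain ⟨c, hc, hgrow⟩ := grow hp hw hA hτ0
  have hτprop : ∃ r0 : ℝ, 0 < r0 ∧ r0 ≤ R0 ∧ ∀ r : ℝ, 0 < r → r ≤ r0 →
      μ.real ({y | L + ε / 2 ≤ ψ y + g y} ∩ ball x (r / 2)) < τ * μ.real (ball x (r / 2)) := by
    obtain ⟨r0, hr0, hr0R, hr0a⟩ := hlow (c * (ε / 2) / 4) (by positivity)
    refine ⟨r0, hr0, hr0R, fun r hr hrr => ?_⟩
    by_contra hcon
    push Not at hcon
    have hsubr : ball x r ⊆ D := (ball_subset_ball (hrr.trans hr0R)).trans hR0D
    have hup : AEMeasurable (fun y => ψ y + g y) μ :=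
      hψ.smooth.continuous.aemeasurable.add h.h0.1.1.aemeasurable
    -- a measurable representative of the set
    obtain ⟨T, hTm, hTs, hTμ⟩ : ∃ T : Set (E n), MeasurableSet T ∧
        T ⊆ {y | L + ε / 2 ≤ ψ y + g y} ∧ μ.real (T ∩ ball x (r / 2)) =
          μ.real ({y | L + ε / 2 ≤ ψ y + g y} ∩ ball x (r / 2)) := by
      have hnm : NullMeasurableSet {y | L + ε / 2 ≤ ψ y + g y} μ :=
        nullMeasurableSet_le aemeasurable_const hup
      obtain ⟨T, hT1, hT2, hT3⟩ := hnm.exists_measurable_subset_ae_eq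
      refine ⟨T, hT2, hT1, ?_⟩
      unfold Measure.real
      congr 1
      exact measure_congr (hT3.inter (ae_eq_refl _))
    have h1 := hgrow x r (fun y => 1 * (ψ y + g y) + (-(L - c * (ε / 2) / 4))) _ hr
      ((hsup.mono hD hsubr).affine hp hA isOpen_ball one_pos _) (by
        filter_upwards [ae_ball_mono (ball_subset_ball hrr) hr0a] with y hy
        linarith) (T ∩ ball x (r / 2)) (hTm.inter measurableSet_ball) Set.inter_subset_right
      (ε / 2) (by positivity) (by
        rw [ae_restrict_iff' (hTm.inter measurableSet_ball)]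
        refine Eventually.of_forall fun y hy => ?_
        have h2 : L + ε / 2 ≤ ψ y + g y := hTs hy.1
        have h3 : 0 < c * (ε / 2) / 4 := by positivity
        linarith) (by rw [hTμ]; exact hcon)
    apply hnot (c * (ε / 2) / 2) (by positivity) (r / 4) (by positivity)
    filter_upwards [h1] with y hy
    have h3 : 0 < c * (ε / 2) := by positivity
    linarith
  obtain ⟨r0, hr0, hr0R, hprop⟩ := hτprop
  -- the obstacle is below `L + ε/2` near `x`
  obtain ⟨r1, hr1, hr1b⟩ := Metric.continuous_iff.1 hψ.smooth.continuous x (ε / 2) (by positivity)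
  obtain ⟨r2, hr2, hr2R, hr2a⟩ := hlow ε hε
  obtain ⟨r, hr⟩ : ∃ r, r = min r0 (min r1 r2) := ⟨_, rfl⟩
  have hrpos : 0 < r := by rw [hr]; exact lt_min hr0 (lt_min hr1 hr2)
  have hrr0 : r ≤ r0 := by rw [hr]; exact min_le_left _ _
  have hrr1 : r ≤ r1 := by rw [hr]; exact (min_le_right _ _).trans (min_le_left _ _)
  have hrr2 : r ≤ r2 := by rw [hr]; exact (min_le_right _ _).trans (min_le_right _ _)
  have hfin := ball_fin hw x (r / 2)
  have hk : ∀ y ∈ ball x (r / 2), ψ y ≤ L + ε / 2 := by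
    intro y hy
    have := hr1b y (lt_of_lt_of_le (mem_ball.1 hy) (by linarith))
    rw [Real.dist_eq] at this
    linarith [(abs_lt.1 this).2]
  have hsub := h.subSol hp hw hA hD hDb hψ hM (B := ball x (r / 2)) isOpen_ball hfin
    (k := L + ε / 2) hk
  obtain ⟨m, hm⟩ : ∃ m, m = μ.real (ball x (r / 2)) := ⟨_, rfl⟩
  have hint : ∫ y in ball x (r / 2), max (max (ψ y + g y - (L + ε / 2)) 0) 0 ∂μ ≤
      (B * τ) * μ.real (ball x (r / 2)) := by
    have hnm : NullMeasurableSet {y | L + ε / 2 ≤ ψ y + g y} (μ.restrict (ball x (r / 2))) := by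
      have hup : AEMeasurable (fun y => ψ y + g y) (μ.restrict (ball x (r / 2))) :=
        (hψ.smooth.continuous.aemeasurable.add h.h0.1.1.aemeasurable).restrict
      exact nullMeasurableSet_le aemeasurable_const hup
    have h1 : ∫ y in ball x (r / 2), max (max (ψ y + g y - (L + ε / 2)) 0) 0 ∂μ ≤
        ∫ y in ball x (r / 2), ({y | L + ε / 2 ≤ ψ y + g y}.indicator (fun _ => B)) y ∂μ := by
      apply integral_mono_of_nonneg (Eventually.of_forall fun y => le_max_right _ _)
      · exact (integrable_const B).indicator₀ hnm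
      · filter_upwards [ae_restrict_of_ae habs] with y hy
        by_cases hyk : L + ε / 2 ≤ ψ y + g y
        · rw [Set.indicator_of_mem (show y ∈ {y | L + ε / 2 ≤ ψ y + g y} from hyk)]
          apply max_le (max_le _ hB0.le) hB0.le
          rw [hB]
          have := (abs_le.1 hy).2
          have := neg_abs_le L
          linarith
        · rw [Set.indicator_of_notMem (show y ∉ {y | L + ε / 2 ≤ ψ y + g y} from hyk)]
          apply max_le (max_le (by push Not at hyk; linarith) le_rfl) le_rfl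
    refine h1.trans ?_
    rw [integral_indicator₀ hnm, integral_const, measureReal_restrict_apply_univ, smul_eq_mul]
    have h2 : (μ.restrict (ball x (r / 2))).real {y | L + ε / 2 ≤ ψ y + g y} =
        μ.real ({y | L + ε / 2 ≤ ψ y + g y} ∩ ball x (r / 2)) := by
      unfold Measure.real
      rw [Measure.restrict_apply' measurableSet_ball]
    rw [h2]
    have h3 := hprop r hrpos hrr0
    calc μ.real ({y | L + ε / 2 ≤ ψ y + g y} ∩ ball x (r / 2)) * B ≤
        (τ * μ.real (ball x (r / 2))) * B := mul_le_mul_of_nonneg_right h3.le hB0.le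
      _ = _ := by ring
  have h4 := hsupL1 x (r / 2) _ _ (by positivity) hsub (B * τ) (by positivity) hint
  refine ⟨r / 2 / 2, by positivity, ?_⟩
  filter_upwards [h4, ae_ball_mono (ball_subset_ball (by linarith : r / 2 / 2 ≤ r2)) hr2a]
    with y hy1 hy2
  have h5 : C3 * (B * τ) = ε / 2 := by
    rw [hτ]; field_simp
  rw [h5] at hy1
  have h6 := (le_max_left (ψ y + g y - (L + ε / 2)) 0).trans hy1
  rw [abs_le]
  constructor <;> linarith

/-- exterior measure density of `D` at a point -/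
def ExtDens (w : E n → ℝ) (D : Set (E n)) (x : E n) : Prop :=
  ∃ τ R : ℝ, 0 < τ ∧ 0 < R ∧ ∀ r : ℝ, 0 < r → r ≤ R →
    τ * (wMeasure w).real (ball x r) ≤ (wMeasure w).real (ball x r \ D)

/-- boundary points -/
theorem Obst.essLim_bdry (hp : 1 < p) (hw : PAdmissible p w) (hA : AOperator p w A)
    (hD : IsOpen D) (hDb : Bornology.IsBounded D)
    {ψ g : E n → ℝ} {G : E n → E n} (h : Obst p w A D ψ g G) (hψ : Cut Set.univ ψ) {M : ℝ}
    (hM : ∀ x, |ψ x| ≤ M) {x : E n} (hx : ExtDens w D x) :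
    EssLim (wMeasure w) (fun x => ψ x + g x) x (ψ x) := by
  have hloc := locFinite hw.locallyIntegrable
  set μ := wMeasure w with hμ
  have hM0 : 0 ≤ M := (abs_nonneg _).trans (hM 0)
  have habs := h.abs_bound hp hw hA hD hDb hψ hM
  obtain ⟨τ, R0, hτ, hR0, hdens⟩ := hx
  obtain ⟨c, hc, hgrow⟩ := grow hp hw hA hτ
  intro ε hε
  obtain ⟨r1, hr1, hr1b⟩ := Metric.continuous_iff.1 hψ.smooth.continuous x (ε / 2) (by positivity)
  obtain ⟨R, hR⟩ : ∃ R, R = min R0 r1 := ⟨_, rfl⟩
  have hRpos : 0 < R := by rw [hR]; exact lt_min hR0 hr1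
  have hRR0 : R ≤ R0 := by rw [hR]; exact min_le_left _ _
  have hRr1 : R ≤ r1 := by rw [hR]; exact min_le_right _ _
  have hk : ∀ y ∈ ball x R, ψ y ≤ ψ x + ε / 2 := by
    intro y hy
    have := hr1b y (lt_of_lt_of_le (mem_ball.1 hy) hRr1)
    rw [Real.dist_eq] at this
    linarith [(abs_lt.1 this).2]
  have hfin := ball_fin hw x R
  have hsub := h.subSol hp hw hA hD hDb hψ hM (B := ball x R) isOpen_ball hfin
    (k := ψ x + ε / 2) hk
  obtain ⟨B, hB⟩ : ∃ B, B = 2 * M + 1 := ⟨_, rfl⟩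
  have hB0 : 0 < B := by rw [hB]; positivity
  obtain ⟨q, hq⟩ : ∃ q, q = max (1 - c) (1 / 2) := ⟨_, rfl⟩
  have hq0 : 0 < q := by rw [hq]; exact lt_max_of_lt_right (by norm_num)
  have hq1 : q < 1 := by rw [hq]; exact max_lt (by linarith) (by norm_num)
  have hqc : 1 - c ≤ q := by rw [hq]; exact le_max_left _ _
  have key : ∀ j : ℕ, ∀ᵐ y ∂(μ.restrict (ball x (R * (1 / 4) ^ j))),
      max (ψ y + g y - (ψ x + ε / 2)) 0 ≤ B * q ^ j := by
    intro j
    induction j with
    | zero =>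
      rw [pow_zero, mul_one, pow_zero, mul_one]
      filter_upwards [ae_restrict_of_ae habs] with y hy
      apply max_le _ hB0.le
      have := (abs_le.1 hy).2
      have := (abs_le.1 (hM x)).1
      rw [hB]; linarith
    | succ j ih =>
      obtain ⟨s, hs⟩ : ∃ s, s = R * (1 / 4) ^ j := ⟨_, rfl⟩
      have hs0 : 0 < s := by rw [hs]; positivity
      have hsR : s ≤ R := by
        rw [hs]
        exact mul_le_of_le_one_right hRpos.le (pow_le_one₀ (by norm_num) (by norm_num))
      rw [← hs] at ih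
      have hBq : 0 < B * q ^ j := by positivity
      have hsub' := (hsub.mono isOpen_ball (ball_subset_ball hsR)).affine_neg hp hA isOpen_ball
        (show (-1:ℝ) < 0 by norm_num) (B * q ^ j)
      have h1 := hgrow x s _ _ hs0 hsub' (by
        filter_upwards [ih] with y hy
        linarith) (ball x (s / 2) \ D) (measurableSet_ball.diff hD.measurableSet)
        Set.sdiff_subset (B * q ^ j) hBq (by
          rw [ae_restrict_iff' (measurableSet_ball.diff hD.measurableSet)]
          refine Eventually.of_forall fun y hy => ?_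
          have h2 : g y = 0 := h.off y hy.2
          have h3 : ψ y ≤ ψ x + ε / 2 :=
            hk y (ball_subset_ball (by linarith) hy.1)
          rw [h2, add_zero, max_eq_right (by linarith)]
          linarith) (hdens (s / 2) (by positivity) (by linarith))
      have e : R * (1 / 4) ^ (j + 1) = s / 4 := by rw [hs, pow_succ]; ring
      rw [e]
      filter_upwards [h1] with y hy
      have h2 : (1 - c) * (B * q ^ j) ≤ q * (B * q ^ j) :=
        mul_le_mul_of_nonneg_right hqc hBq.le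
      have h3 : q * (B * q ^ j) = B * q ^ (j + 1) := by rw [pow_succ]; ring
      linarith
  obtain ⟨j, hj⟩ : ∃ j : ℕ, B * q ^ j < ε / 2 := by
    have h1 : Tendsto (fun j : ℕ => B * q ^ j) atTop (𝓝 (B * 0)) :=
      (tendsto_pow_atTop_nhds_zero_of_lt_one hq0.le hq1).const_mul B
    rw [mul_zero] at h1
    exact (h1.eventually (gt_mem_nhds (by positivity : (0:ℝ) < ε / 2))).exists
  refine ⟨R * (1 / 4) ^ j, by positivity, ?_⟩
  have hsR : R * (1 / 4) ^ j ≤ r1 := by
    refine le_trans ?_ hRr1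
    exact mul_le_of_le_one_right hRpos.le (pow_le_one₀ (by norm_num) (by norm_num))
  filter_upwards [key j, ae_restrict_of_ae h.nonneg, ae_restrict_of_mem isOpen_ball
    (fun y hy => hy)] with y hy hy0 hyb
  have h1 := (le_max_left (ψ y + g y - (ψ x + ε / 2)) 0).trans hy
  have h2 := hr1b y (lt_of_lt_of_le (mem_ball.1 hyb) hsR)
  rw [Real.dist_eq] at h2
  have h3 := (abs_lt.1 h2).1
  rw [abs_le]
  constructor <;> linarith

/-- exterior points -/
theorem Obst.essLim_ext {ψ g : E n → ℝ} {G : E n → E n} (h : Obst p w A D ψ g G)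
    (hψ : Cut Set.univ ψ) {x : E n} (hx : x ∉ closure D) :
    EssLim (wMeasure w) (fun x => ψ x + g x) x (ψ x) := by
  intro ε hε
  obtain ⟨r1, hr1, hr1b⟩ := Metric.continuous_iff.1 hψ.smooth.continuous x ε hε
  obtain ⟨r2, hr2, hr2b⟩ := Metric.isOpen_iff.1 isClosed_closure.isOpen_compl x hx
  refine ⟨min r1 r2, lt_min hr1 hr2, ae_restrict_of_mem isOpen_ball fun y hy => ?_⟩
  have h1 : y ∉ D := fun hyD =>
    hr2b (ball_subset_ball (min_le_right _ _) hy) (subset_closure hyD)
  change |ψ y + g y - ψ x| ≤ ε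
  rw [h.off y h1, add_zero]
  have := hr1b y (lt_of_lt_of_le (mem_ball.1 hy) (min_le_left _ _))
  rw [Real.dist_eq] at this
  exact this.le

theorem essLim_unique (hw : PAdmissible p w) {f : E n → ℝ} {x : E n} {L L' : ℝ}
    (h : EssLim (wMeasure w) f x L) (h' : EssLim (wMeasure w) f x L') : L = L' := by
  by_contra hne
  have hd : 0 < |L - L'| := abs_pos.2 (sub_ne_zero.2 hne)
  obtain ⟨r, hr, h1⟩ := h (|L - L'| / 3) (by positivity)
  obtain ⟨r', hr', h2⟩ := h' (|L - L'| / 3) (by positivity)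
  obtain ⟨y, hy1, hy2⟩ := ae_exists hw (lt_min hr hr')
    ((ae_ball_mono (ball_subset_ball (min_le_left r r')) h1).and
      (ae_ball_mono (ball_subset_ball (min_le_right r r')) h2))
  have : |L - L'| ≤ |f y - L| + |f y - L'| := by
    calc |L - L'| = |(f y - L') - (f y - L)| := by congr 1; ring
      _ ≤ |f y - L'| + |f y - L| := abs_sub _ _
      _ = _ := add_comm _ _
  linarith

/-- almost everywhere inequalities between continuous functions -/
theorem le_of_ae_le (hw : PAdmissible p w) {f g : E n → ℝ} (hf : Continuous f)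
    (hg : Continuous g) (h : ∀ᵐ x ∂(wMeasure w), f x ≤ g x) (x : E n) : f x ≤ g x := by
  by_contra hcon
  push Not at hcon
  have ho : IsOpen {y | g y < f y} := isOpen_lt hg hf
  obtain ⟨r, hr, hb⟩ := Metric.isOpen_iff.1 ho x hcon
  obtain ⟨y, hy1, hy2⟩ := ae_exists hw hr ((ae_restrict_of_ae h).and
    (ae_restrict_of_mem isOpen_ball (fun y hy => hy)))
  exact absurd hy1 (not_le.2 (hb hy2))

/-- the continuous representative of the solution of the obstacle problem -/
theorem Obst.cont (hp : 1 < p) (hw : PAdmissible p w) (hA : AOperator p w A)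
    (hD : IsOpen D) (hDb : Bornology.IsBounded D)
    {ψ g : E n → ℝ} {G : E n → E n} (h : Obst p w A D ψ g G) (hψ : Cut Set.univ ψ) {M : ℝ}
    (hM : ∀ x, |ψ x| ≤ M) (hext : ∀ x ∈ frontier D, ExtDens w D x) :
    ∃ f : E n → ℝ, Continuous f ∧ (∀ᵐ x ∂(wMeasure w), ψ x + g x = f x) ∧
      (∀ x, x ∉ D → f x = ψ x) ∧ (∀ x, ψ x ≤ f x) ∧ ∀ x, |f x| ≤ M := by
  have hall : ∀ x, ∃ L, EssLim (wMeasure w) (fun x => ψ x + g x) x L ∧ (x ∉ D → L = ψ x) := by
    intro x
    by_cases hx : x ∈ D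
    · obtain ⟨L, hL⟩ := h.essLim_int hp hw hA hD hDb hψ hM hx
      exact ⟨L, hL, fun hn => absurd hx hn⟩
    · by_cases hxc : x ∈ closure D
      · refine ⟨ψ x, h.essLim_bdry hp hw hA hD hDb hψ hM (hext x ?_), fun _ => rfl⟩
        rw [hD.frontier_eq]; exact ⟨hxc, hx⟩
      · exact ⟨ψ x, h.essLim_ext hψ hxc, fun _ => rfl⟩
  choose f hf1 hf2 using hall
  obtain ⟨hc, hae⟩ := essLim_cont hw hf1
  refine ⟨f, hc, hae, hf2, ?_, ?_⟩
  · apply le_of_ae_le hw hψ.smooth.continuous hc
    filter_upwards [hae, h.nonneg] with x hx hx0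
    rw [← hx]; linarith
  · apply le_of_ae_le hw hc.abs continuous_const
    filter_upwards [hae, h.abs_bound hp hw hA hD hDb hψ hM] with x hx hx0
    rwa [← hx]

end Pool.Agent.H40.NP
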