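import Pool.Agent.H40.NPDefs

set_option autoImplicit false

open MeasureTheory Filter Topology Metric
open scoped ContDiff RealInnerProductSpace

namespace Pool.Agent.H40.NP

/-- `h` is `𝒜`-harmonic in the open set `D`: a continuous weak solution
`h ∈ H^{1,p}_loc(D; μ)` of `-div 𝒜(x, ∇h) = 0`. -/
def IsHarmonic {n : ℕ} (p : ℝ) (w : E n → ℝ) (A : E n → E n → E n) (D : Set (E n))
    (h : E n → ℝ) : Prop :=
  ContinuousOn h D ∧ ∃ H : E n → E n, MemHloc p (wMeasure w) D h H ∧
    ∀ φ : E n → ℝ, ContDiff ℝ ∞ φ → HasCompactSupport φ → tsupport φ ⊆ D →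
      ∫ x in D, ⟪A x (H x), gradient φ x⟫ = 0

/-- Real-valued `𝒜`-superharmonic functions in the open set `Ω`: lower semicontinuous, and
satisfying the comparison condition with respect to `𝒜`-harmonic functions on every `D ⋐ Ω`. -/
structure IsSuperharmonic {n : ℕ} (p : ℝ) (w : E n → ℝ) (A : E n → E n → E n) (Ω : Set (E n))
    (u : E n → ℝ) : Prop where
  lsc : LowerSemicontinuousOn u Ω
  comparison : ∀ (D : Set (E n)) (h : E n → ℝ), CompInside D Ω → ContinuousOn h (closure D) →
    IsHarmonic p w A D h → (∀ x ∈ frontier D, h x ≤ u x) → ∀ x ∈ D, h x ≤ u x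

/-- Real-valued `𝒜`-subharmonic functions in the open set `Ω`. -/
structure IsSubharmonic {n : ℕ} (p : ℝ) (w : E n → ℝ) (A : E n → E n → E n) (Ω : Set (E n))
    (v : E n → ℝ) : Prop where
  usc : UpperSemicontinuousOn v Ω
  comparison : ∀ (D : Set (E n)) (h : E n → ℝ), CompInside D Ω → ContinuousOn h (closure D) →
    IsHarmonic p w A D h → (∀ x ∈ frontier D, v x ≤ h x) → ∀ x ∈ D, v x ≤ h x

end Pool.Agent.H40.NP
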