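import Pool.Agent.H40.NQUC

set_option autoImplicit false

open MeasureTheory Filter Topology Metric
open scoped ContDiff RealInnerProductSpace

namespace Pool.Agent.H40.NP

variable {n : ℕ} {p : ℝ} {w : E n → ℝ} {A : E n → E n → E n} {D Ω : Set (E n)}
  {μ : Measure (E n)}

theorem Cut.hasGradientAt {φ : E n → ℝ} (h : Cut D φ) (x : E n) :
    HasGradientAt φ (gradient φ x) x :=
  ((h.smooth.differentiable (by simp)) x).hasGradientAt

theorem Cut.add {φ ψ : E n → ℝ} (h : Cut D φ) (h' : Cut D ψ) :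
    Cut D (fun x => φ x + ψ x) :=
  ⟨h.smooth.add h'.smooth, h.cpt.add h'.cpt,
    (tsupport_add φ ψ).trans (Set.union_subset h.supp h'.supp)⟩

theorem Cut.gradient_add {φ ψ : E n → ℝ} (h : Cut D φ) (h' : Cut D ψ) (x : E n) :
    gradient (fun x => φ x + ψ x) x = gradient φ x + gradient ψ x :=
  (gradient_add' (h.hasGradientAt x) (h'.hasGradientAt x)).gradient

theorem Cut.const_mul {φ : E n → ℝ} (h : Cut D φ) (c : ℝ) : Cut D (fun x => c * φ x) :=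
  ⟨contDiff_const.mul h.smooth, h.cpt.mul_left, (tsupport_mul_subset_right).trans h.supp⟩

theorem Cut.gradient_const_mul {φ : E n → ℝ} (h : Cut D φ) (c : ℝ) (x : E n) :
    gradient (fun x => c * φ x) x = c • gradient φ x := by
  have h1 : HasDerivAt (fun t : ℝ => c * t) c (φ x) := by
    simpa using (hasDerivAt_id (φ x)).const_mul c
  exact (gradient_comp (h.hasGradientAt x) h1).gradient

theorem Cut.zero : Cut D (fun _ => 0) :=
  ⟨contDiff_const, HasCompactSupport.zero, by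
    have : (fun _ : E n => (0:ℝ)) = 0 := rfl
    rw [this]
    simp [tsupport]⟩

theorem Cut.memLp {φ : E n → ℝ} (h : Cut D φ) {ν : Measure (E n)} [IsLocallyFiniteMeasure ν]
    (q : ENNReal) : MemLp φ q ν :=
  h.smooth.continuous.memLp_of_hasCompactSupport h.cpt

theorem Cut.memLp_gradient {φ : E n → ℝ} (h : Cut D φ) {ν : Measure (E n)}
    [IsLocallyFiniteMeasure ν] (q : ENNReal) : MemLp (gradient φ) q ν :=
  h.gradient_cont.memLp_of_hasCompactSupport h.gradient_cpt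

theorem gradient_zero_fun (x : E n) : gradient (fun _ : E n => (0:ℝ)) x = 0 :=
  (hasGradientAt_const x (0:ℝ)).gradient

section Ex

variable {ν : Measure (E n)} [Fact (1 ≤ ENNReal.ofReal p)]

variable (p D ν) in
/-- smooth compactly supported functions with their gradients -/
noncomputable def SS : Submodule ℝ (Lp ℝ (ENNReal.ofReal p) ν × Lp (E n) (ENNReal.ofReal p) ν) where
  carrier := {x | ∃ φ : E n → ℝ, Cut D φ ∧ (x.1 : E n → ℝ) =ᵐ[ν] φ ∧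
    (x.2 : E n → E n) =ᵐ[ν] gradient φ}
  add_mem' := by
    rintro x y ⟨φ, h1, h2, h3⟩ ⟨ψ, k1, k2, k3⟩
    refine ⟨fun x => φ x + ψ x, h1.add k1, ?_, ?_⟩
    · filter_upwards [h2, k2, Lp.coeFn_add x.1 y.1] with a ha hb hc
      change (x.1 + y.1 : Lp ℝ (ENNReal.ofReal p) ν) a = _
      rw [hc, Pi.add_apply, ha, hb]
    · filter_upwards [h3, k3, Lp.coeFn_add x.2 y.2] with a ha hb hc
      change (x.2 + y.2 : Lp (E n) (ENNReal.ofReal p) ν) a = _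
      rw [hc, Pi.add_apply, ha, hb, h1.gradient_add k1]
  zero_mem' := by
    refine ⟨fun _ => 0, Cut.zero, ?_, ?_⟩
    · exact Lp.coeFn_zero ℝ (ENNReal.ofReal p) ν
    · filter_upwards [Lp.coeFn_zero (E n) (ENNReal.ofReal p) ν] with a ha
      change (0 : Lp (E n) (ENNReal.ofReal p) ν) a = _
      rw [ha, gradient_zero_fun]; rfl
  smul_mem' := by
    rintro c x ⟨φ, h1, h2, h3⟩
    refine ⟨fun x => c * φ x, h1.const_mul c, ?_, ?_⟩
    · filter_upwards [h2, Lp.coeFn_smul c x.1] with a ha hb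
      change (c • x.1 : Lp ℝ (ENNReal.ofReal p) ν) a = _
      rw [hb, Pi.smul_apply, ha, smul_eq_mul]
    · filter_upwards [h3, Lp.coeFn_smul c x.2] with a ha hb
      change (c • x.2 : Lp (E n) (ENNReal.ofReal p) ν) a = _
      rw [hb, Pi.smul_apply, ha, h1.gradient_const_mul]

theorem Lp_norm_rpow {F : Type} [NormedAddCommGroup F] (hp : 1 < p)
    (f : Lp F (ENNReal.ofReal p) ν) : ‖f‖ ^ p = ∫ x, ‖f x‖ ^ p ∂ν := by
  rw [Lp.norm_def, (Lp.memLp f).eLpNorm_eq_integral_rpow_norm (q_ne_zero hp)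
    ENNReal.ofReal_ne_top, q_toReal hp]
  have h0 : 0 ≤ ∫ x, ‖f x‖ ^ p ∂ν := integral_nonneg fun x => by positivity
  rw [ENNReal.toReal_ofReal (by positivity), ← Real.rpow_mul h0, inv_mul_cancel₀ (by linarith),
    Real.rpow_one]

end Ex

/-- Friedrichs' inequality on `H_0^{1,p}(D)` -/
theorem fried_closure (hp : 1 < p) (hw : PAdmissible p w) (x0 : E n) {R : ℝ} (hR : 0 < R)
    [Fact (1 ≤ ENNReal.ofReal p)] :
    ∃ C : ℝ, 0 ≤ C ∧ ∀ D : Set (E n), D ⊆ ball x0 R →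
      ∀ x ∈ (SS p D ((wMeasure w).restrict D)).topologicalClosure, ‖x.1‖ ≤ C * ‖x.2‖ := by
  have := locFinite hw.locallyIntegrable
  obtain ⟨C, hC, hf⟩ := fried_smooth hp hw x0 hR
  refine ⟨C, hC, fun D hDB x hx => ?_⟩
  set μ := wMeasure w with hμ
  have hcl : IsClosed {x : Lp ℝ (ENNReal.ofReal p) (μ.restrict D) ×
      Lp (E n) (ENNReal.ofReal p) (μ.restrict D) | ‖x.1‖ ≤ C * ‖x.2‖} :=
    isClosed_le continuous_fst.norm (continuous_const.mul continuous_snd.norm)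
  have hsub : ((SS p D (μ.restrict D) : Submodule ℝ _) : Set (Lp ℝ (ENNReal.ofReal p)
      (μ.restrict D) × Lp (E n) (ENNReal.ofReal p) (μ.restrict D))) ⊆
      {x | ‖x.1‖ ≤ C * ‖x.2‖} := by
    rintro y ⟨φ, hφ, h1, h2⟩
    change ‖y.1‖ ≤ C * ‖y.2‖
    rw [Lp.norm_def, Lp.norm_def, eLpNorm_congr_ae h1, eLpNorm_congr_ae h2]
    have hs1 : Function.support φ ⊆ D := (subset_tsupport _).trans hφ.supp
    have hs2 : Function.support (gradient φ) ⊆ D := by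
      intro x hx
      by_contra hxB
      exact hx (gradient_eq_zero_of_notMem fun h => hxB (hφ.supp h))
    rw [eLpNorm_restrict_eq_of_support_subset hs1, eLpNorm_restrict_eq_of_support_subset hs2]
    have h3 := hf φ ⟨hφ.smooth, hφ.cpt, hφ.supp.trans hDB⟩
    have h4 := ENNReal.toReal_mono (ENNReal.mul_ne_top ENNReal.ofReal_ne_top
      (hφ.memLp_gradient (ν := μ) (ENNReal.ofReal p)).2.ne) h3
    rwa [ENNReal.toReal_mul, ENNReal.toReal_ofReal hC] at h4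
  exact closure_minimal hsub hcl hx

/-- uniform convexity on `H_0^{1,p}(D)` -/
theorem uc_closure (hp : 1 < p) {ν : Measure (E n)} [Fact (1 ≤ ENNReal.ofReal p)] {C : ℝ}
    (H : Submodule ℝ (Lp ℝ (ENNReal.ofReal p) ν × Lp (E n) (ENNReal.ofReal p) ν))
    (hH : ∀ x ∈ H, ‖x.1‖ ≤ C * ‖x.2‖) (η : ℝ) (hη : 0 < η) (M : ℝ) :
    ∃ δ : ℝ, 0 < δ ∧ ∀ x ∈ H, ∀ y ∈ H, ‖x.2‖ ^ p ≤ M → ‖y.2‖ ^ p ≤ M →
      (‖x.2‖ ^ p + ‖y.2‖ ^ p) / 2 - ‖((1 / 2 : ℝ) • x + (1 / 2 : ℝ) • y).2‖ ^ p ≤ δ →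
      ‖x - y‖ ≤ η := by
  have hp0 : 0 < p := by linarith
  obtain ⟨κ, hκ⟩ : ∃ κ, κ = max C 1 := ⟨_, rfl⟩
  have hκ1 : 1 ≤ κ := by rw [hκ]; exact le_max_right _ _
  have hκC : C ≤ κ := by rw [hκ]; exact le_max_left _ _
  have hκ0 : 0 < κ := by linarith
  obtain ⟨ρ, hρ⟩ : ∃ ρ, ρ = (η / κ) ^ p := ⟨_, rfl⟩
  have hρ0 : 0 < ρ := by rw [hρ]; positivity
  have hM1 : 0 < |M| + 1 := by positivity
  obtain ⟨Cε, hCε, huc⟩ := uc_int (n := n) hp (ε := ρ / (4 * (|M| + 1))) (by positivity)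
  refine ⟨ρ / (2 * (Cε + 1)), by positivity, fun x hx y hy hxM hyM hxy => ?_⟩
  have h1 := huc ν x.2 y.2 (Lp.memLp x.2) (Lp.memLp y.2)
  have e1 : ∫ a, ‖x.2 a - y.2 a‖ ^ p ∂ν = ‖(x - y).2‖ ^ p := by
    rw [Lp_norm_rpow hp]
    apply integral_congr_ae
    filter_upwards [Lp.coeFn_sub x.2 y.2] with a ha
    rw [Prod.snd_sub, ha]; rfl
  have e2 : ∫ a, ‖(1 / 2 : ℝ) • x.2 a + (1 / 2 : ℝ) • y.2 a‖ ^ p ∂ν =
      ‖((1 / 2 : ℝ) • x + (1 / 2 : ℝ) • y).2‖ ^ p := by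
    rw [Lp_norm_rpow hp]
    apply integral_congr_ae
    filter_upwards [Lp.coeFn_add ((1 / 2 : ℝ) • x.2) ((1 / 2 : ℝ) • y.2),
      Lp.coeFn_smul (1 / 2 : ℝ) x.2, Lp.coeFn_smul (1 / 2 : ℝ) y.2] with a ha hb hc
    rw [Prod.snd_add, Prod.smul_snd, Prod.smul_snd, ha, Pi.add_apply, hb, hc]; rfl
  rw [e1, e2, ← Lp_norm_rpow hp, ← Lp_norm_rpow hp] at h1
  have h2 : ρ / (4 * (|M| + 1)) * (‖x.2‖ ^ p + ‖y.2‖ ^ p) ≤ ρ / 2 := by
    have h3 : ‖x.2‖ ^ p + ‖y.2‖ ^ p ≤ 2 * (|M| + 1) := by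
      linarith [le_abs_self M]
    calc ρ / (4 * (|M| + 1)) * (‖x.2‖ ^ p + ‖y.2‖ ^ p) ≤
        ρ / (4 * (|M| + 1)) * (2 * (|M| + 1)) := mul_le_mul_of_nonneg_left h3 (by positivity)
      _ = ρ / 2 := by field_simp; norm_num
  have h3 : Cε * ((‖x.2‖ ^ p + ‖y.2‖ ^ p) / 2 -
      ‖((1 / 2 : ℝ) • x + (1 / 2 : ℝ) • y).2‖ ^ p) ≤ ρ / 2 := by
    calc _ ≤ Cε * (ρ / (2 * (Cε + 1))) := mul_le_mul_of_nonneg_left hxy hCε
      _ = (Cε / (Cε + 1)) * (ρ / 2) := by field_simp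
      _ ≤ 1 * (ρ / 2) := by
          apply mul_le_mul_of_nonneg_right _ (by positivity)
          rw [div_le_one (by positivity)]; linarith
      _ = ρ / 2 := one_mul _
  have h4 : ‖(x - y).2‖ ^ p ≤ (η / κ) ^ p := by rw [← hρ]; linarith
  have h5 : ‖(x - y).2‖ ≤ η / κ :=
    (Real.rpow_le_rpow_iff (norm_nonneg _) (by positivity) hp0).1 h4
  have h6 : ‖(x - y).1‖ ≤ C * ‖(x - y).2‖ := hH _ (H.sub_mem hx hy)
  rw [Prod.norm_def]
  rw [le_div_iff₀ hκ0] at h5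
  apply max_le
  · refine h6.trans ((mul_le_mul_of_nonneg_right hκC (norm_nonneg _)).trans ?_)
    linarith
  · refine le_trans ?_ h5
    exact le_mul_of_one_le_right (norm_nonneg _) hκ1

/-- the monotonicity of the normalised field -/
theorem fld_mono (hA : AOperator p w A) (hpos : ∀ᵐ x, 0 < w x) :
    ∀ᵐ x ∂(wMeasure w), ∀ U V : E n, 0 ≤ ⟪(w x)⁻¹ • A x U - (w x)⁻¹ • A x V, U - V⟫ := by
  apply wMeasure_ac.ae_le
  filter_upwards [hpos, hA.mono] with x hx hm U V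
  rw [← smul_sub, real_inner_smul_left]
  apply mul_nonneg (inv_nonneg.2 hx.le)
  by_cases heq : U = V
  · rw [heq]; simp
  · exact (hm _ _ heq).le

/-- crude Young inequality -/
theorem young_crude {s t : ℝ} (hp : 1 < p) (hs : 0 ≤ s) (ht : 0 ≤ t) :
    s ^ (p - 1) * t ≤ s ^ p + t ^ p := by
  rcases le_total s t with h | h
  · have h1 : s ^ (p - 1) * t ≤ t ^ (p - 1) * t :=
      mul_le_mul_of_nonneg_right (Real.rpow_le_rpow hs h (by linarith)) ht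
    rw [rpow_sub_one_mul ht hp] at h1
    have : 0 ≤ s ^ p := by positivity
    linarith
  · have h1 : s ^ (p - 1) * t ≤ s ^ (p - 1) * s :=
      mul_le_mul_of_nonneg_left h (by positivity)
    rw [rpow_sub_one_mul hs hp] at h1
    have : 0 ≤ t ^ p := by positivity
    linarith

theorem integrable_rpow' {F : Type} [NormedAddCommGroup F] (hp : 1 < p) {ν : Measure (E n)}
    {f : E n → F} (hf : MemLp f (ENNReal.ofReal p) ν) :
    Integrable (fun x => ‖f x‖ ^ p) ν := by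
  have := hf.integrable_norm_rpow (q_ne_zero hp) ENNReal.ofReal_ne_top
  rwa [q_toReal hp] at this

/-- hemicontinuity -/
theorem fld_hemi (hp : 1 < p) (hw : PAdmissible p w) (hA : AOperator p w A)
    {X Y Z : E n → E n} (hX : MemLp X (ENNReal.ofReal p) ((wMeasure w).restrict D))
    (hY : MemLp Y (ENNReal.ofReal p) ((wMeasure w).restrict D))
    (hZ : MemLp Z (ENNReal.ofReal p) ((wMeasure w).restrict D)) :
    Tendsto (fun k : ℕ => ∫ a in D, ⟪fld w A (fun a => X a + (1 / ((k:ℝ) + 1)) • Y a) a, Z a⟫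
      ∂(wMeasure w)) atTop (𝓝 (∫ a in D, ⟪fld w A X a, Z a⟫ ∂(wMeasure w))) := by
  obtain ⟨α, β, hα, hαβ, hst⟩ := struct hA hw.pos
  have hβ : 0 < β := lt_of_lt_of_le hα hαβ
  have i1 := integrable_rpow' hp hX
  have i2 := integrable_rpow' hp hY
  have i3 := integrable_rpow' hp hZ
  apply tendsto_integral_of_dominated_convergence
    (fun a => β * (2 ^ p * (‖X a‖ ^ p + ‖Y a‖ ^ p) + ‖Z a‖ ^ p))
  · intro k
    exact (fld_aesm hw.locallyIntegrable hA (hX.add (hY.const_smul (1 / ((k:ℝ) + 1)))).1).inner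
      hZ.1
  · exact ((((i1.add i2).const_mul _).add i3).const_mul β)
  · intro k
    filter_upwards [ae_restrict_of_ae hst] with a ha
    have hk : (1:ℝ) / ((k:ℝ) + 1) ≤ 1 := by
      rw [div_le_one (by positivity)]
      linarith [(Nat.cast_nonneg k : (0:ℝ) ≤ k)]
    have hk0 : (0:ℝ) < 1 / ((k:ℝ) + 1) := by positivity
    have h1 : ‖X a + (1 / ((k:ℝ) + 1)) • Y a‖ ≤ ‖X a‖ + ‖Y a‖ := by
      refine (norm_add_le _ _).trans ?_
      rw [norm_smul, Real.norm_of_nonneg hk0.le]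
      have := mul_le_of_le_one_left (norm_nonneg (Y a)) hk
      linarith
    have h2 := (ha (X a + (1 / ((k:ℝ) + 1)) • Y a)).2
    rw [Real.norm_eq_abs]
    calc |⟪fld w A (fun a => X a + (1 / ((k:ℝ) + 1)) • Y a) a, Z a⟫| ≤
        ‖fld w A (fun a => X a + (1 / ((k:ℝ) + 1)) • Y a) a‖ * ‖Z a‖ :=
          abs_real_inner_le_norm _ _
      _ ≤ β * ‖X a + (1 / ((k:ℝ) + 1)) • Y a‖ ^ (p - 1) * ‖Z a‖ :=
          mul_le_mul_of_nonneg_right h2 (norm_nonneg _)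
      _ = β * (‖X a + (1 / ((k:ℝ) + 1)) • Y a‖ ^ (p - 1) * ‖Z a‖) := by ring
      _ ≤ β * (‖X a + (1 / ((k:ℝ) + 1)) • Y a‖ ^ p + ‖Z a‖ ^ p) :=
          mul_le_mul_of_nonneg_left (young_crude hp (norm_nonneg _) (norm_nonneg _)) hβ.le
      _ ≤ β * (2 ^ p * (‖X a‖ ^ p + ‖Y a‖ ^ p) + ‖Z a‖ ^ p) := by
          apply mul_le_mul_of_nonneg_left _ hβ.le
          apply add_le_add_left
          exact (Real.rpow_le_rpow (norm_nonneg _) h1 (by linarith)).trans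
            (two_rpow hp (norm_nonneg _) (norm_nonneg _))
  · refine Eventually.of_forall fun a => ?_
    have h1 : Tendsto (fun k : ℕ => X a + (1 / ((k:ℝ) + 1)) • Y a) atTop
        (𝓝 (X a + (0:ℝ) • Y a)) :=
      tendsto_const_nhds.add (tendsto_one_div_add_atTop_nhds_zero_nat.smul_const _)
    rw [zero_smul, add_zero] at h1
    exact ((((hA.cont a).tendsto _).comp h1).const_smul _).inner tendsto_const_nhds

/-- pointwise coercivity -/
theorem coer_point {H : Type*} [NormedAddCommGroup H] [InnerProductSpace ℝ H] {α β : ℝ}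
    (hp : 1 < p) (hα : 0 < α) (hβ : 0 < β) {b X P : H} (h1 : α * ‖X‖ ^ p ≤ ⟪b, X⟫)
    (h2 : ‖b‖ ≤ β * ‖X‖ ^ (p - 1)) :
    α / 2 * ‖X‖ ^ p - β * (α / (2 * β)) ^ (1 - p) * ‖P‖ ^ p ≤ ⟪b, X - P⟫ := by
  obtain ⟨j, hj⟩ : ∃ j : ℕ, p ≤ 2 * j + 2 := by
    obtain ⟨j, hj⟩ := exists_nat_ge p
    exact ⟨j, by linarith [(Nat.cast_nonneg j : (0:ℝ) ≤ j)]⟩
  have h3 := young (η := 1) (δ := α / (2 * β)) hp hj (norm_nonneg X) (norm_nonneg P)
    zero_le_one le_rfl (by positivity)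
  simp only [one_pow, one_mul] at h3
  have h4 : ⟪b, P⟫ ≤ β * ‖X‖ ^ (p - 1) * ‖P‖ :=
    (real_inner_le_norm _ _).trans (mul_le_mul_of_nonneg_right h2 (norm_nonneg _))
  have h5 : β * ‖X‖ ^ (p - 1) * ‖P‖ ≤ α / 2 * ‖X‖ ^ p +
      β * (α / (2 * β)) ^ (1 - p) * ‖P‖ ^ p := by
    calc β * ‖X‖ ^ (p - 1) * ‖P‖ = β * (‖X‖ ^ (p - 1) * ‖P‖) := by ring
      _ ≤ β * (α / (2 * β) * ‖X‖ ^ p + (α / (2 * β)) ^ (1 - p) * ‖P‖ ^ p) :=
          mul_le_mul_of_nonneg_left h3 hβ.le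
      _ = _ := by field_simp
  rw [inner_sub_right]
  linarith

end Pool.Agent.H40.NP
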