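import Pool.Agent.H40.NQComp

set_option autoImplicit false

open MeasureTheory Filter Topology Metric
open scoped ContDiff RealInnerProductSpace

namespace Pool.Agent.H40.NP

variable {n : ℕ} {p : ℝ} {w : E n → ℝ} {A : E n → E n → E n} {D Ω : Set (E n)}
  {μ : Measure (E n)}

/-- a superharmonic function is close to its value at a point on most of every small ball -/
theorem dens_super (hp : 1 < p) (hw : PAdmissible p w) (hA : AOperator p w A) (hΩ : IsOpen Ω)
    (hb : Bornology.IsBounded Ω) (hne : Ωᶜ.Nonempty) {u : E n → ℝ} {K : ℝ} (hK0 : 0 ≤ K)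
    (hu : IsSuperharmonic p w A Ω u) (huK : ∀ x ∈ Ω, |u x| ≤ K) {x0 : E n} (hx0 : x0 ∈ Ω)
    {ε τ : ℝ} (hε : 0 < ε) (hτ : 0 < τ) :
    ∃ r0 : ℝ, 0 < r0 ∧ ∀ r : ℝ, 0 < r → r ≤ r0 →
      (wMeasure w).real ({y | u x0 + ε < u y} ∩ ball x0 r) < τ * (wMeasure w).real (ball x0 r) := by
  have hloc := locFinite hw.locallyIntegrable
  obtain ⟨c, hc, hgrow⟩ := grow hp hw hA (half_pos hτ)
  obtain ⟨ε', hε'⟩ : ∃ ε', ε' = c * ε / 4 := ⟨_, rfl⟩
  have hε'0 : 0 < ε' := by rw [hε']; positivity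
  have hd : 0 < infDist x0 Ωᶜ :=
    (hΩ.isClosed_compl.notMem_iff_infDist_pos hne).1 (fun h => h hx0)
  obtain ⟨d, hdd⟩ : ∃ d, d = infDist x0 Ωᶜ := ⟨_, rfl⟩
  rw [← hdd] at hd
  obtain ⟨R1, hR1, hR1b⟩ : ∃ r : ℝ, 0 < r ∧ ∀ y ∈ Ω, dist y x0 < r → u x0 - ε' < u y := by
    have h1 := hu.lsc x0 hx0 (u x0 - ε') (by linarith)
    rw [eventually_nhdsWithin_iff, Metric.eventually_nhds_iff] at h1
    obtain ⟨r, hr, h2⟩ := h1
    exact ⟨r, hr, fun y hy hd => h2 hd hy⟩
  refine ⟨min R1 (d / 2) / 4, by positivity, fun r hr hrr => ?_⟩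
  by_contra hcon
  push Not at hcon
  have m1 := min_le_left R1 (d / 2)
  have m2 := min_le_right R1 (d / 2)
  obtain ⟨R, hRdef⟩ : ∃ R, R = 2 * r := ⟨_, rfl⟩
  have hR : 0 < R := by rw [hRdef]; positivity
  have hRr : R / 2 = r := by rw [hRdef]; ring
  have hRR1 : R < R1 := by linarith
  have hRd : R < d / 2 := by linarith
  -- the inner set
  obtain ⟨D, hDdef⟩ : ∃ D, D = inner' Ω (d / 4) := ⟨_, rfl⟩
  have hd4 : 0 < d / 4 := by positivity
  have hD : CompInside D Ω := by rw [hDdef]; exact inner_comp hb hd4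
  have hext : ∀ x ∈ frontier D, ExtDens w D x := by
    rw [hDdef]; intro x hx; exact inner_ext hw hΩ hne hd4 hx
  have hball : closedBall x0 R ⊆ D := by
    intro y hy
    rw [hDdef]
    change d / 4 < infDist y Ωᶜ
    have h1 : infDist x0 Ωᶜ ≤ infDist y Ωᶜ + dist x0 y := infDist_le_infDist_add_dist
    rw [← hdd, dist_comm] at h1
    have h2 : dist y x0 ≤ R := hy
    linarith
  obtain ⟨f, F, Fg, hf1, hf2, hf3, hF1, hF2, hF3, hF4, hF5⟩ :=
    approx_super hp hw hA hu hK0 huK hD hext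
  -- pointwise convergence
  have hconv : ∀ y ∈ closure D, Tendsto (fun i => F i y) atTop (𝓝 (u y)) := by
    intro y hy
    have h2 : Tendsto (fun i : ℕ => f i y - 2 / ((i:ℝ) + 1)) atTop (𝓝 (u y - 0)) := by
      apply (hf3 y hy).sub
      have := (tendsto_one_div_add_atTop_nhds_zero_nat (𝕜 := ℝ)).const_mul 2
      rw [mul_zero] at this
      exact this.congr fun k => by ring
    rw [sub_zero] at h2
    exact tendsto_of_tendsto_of_tendsto_of_le_of_le h2 tendsto_const_nhds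
      (fun i => hF2 i y hy) (fun i => hF3 i y hy)
  -- the sets
  let T : ℕ → Set (E n) := fun N => {y | ∀ i, N ≤ i → u x0 + ε < F i y} ∩ ball x0 r
  have hTm : ∀ N, MeasurableSet (T N) := by
    intro N
    apply MeasurableSet.inter _ measurableSet_ball
    have : {y | ∀ i, N ≤ i → u x0 + ε < F i y} = ⋂ i, ⋂ (_ : N ≤ i), {y | u x0 + ε < F i y} := by
      ext y; simp
    rw [this]
    exact MeasurableSet.iInter fun i => MeasurableSet.iInter fun _ =>
      (isOpen_lt continuous_const (hF1 i)).measurableSet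
  have hTmono : Monotone T := by
    intro N M hNM y hy
    exact ⟨fun i hi => hy.1 i (hNM.trans hi), hy.2⟩
  have hTsub : {y | u x0 + ε < u y} ∩ ball x0 r ⊆ ⋃ N, T N := by
    rintro y ⟨hy1, hy2⟩
    have hyD : y ∈ closure D := subset_closure (hball (ball_subset_closedBall
      (ball_subset_ball (by linarith) hy2)))
    have h1 := (hconv y hyD).eventually (lt_mem_nhds hy1)
    obtain ⟨N, hN⟩ := eventually_atTop.1 h1
    exact Set.mem_iUnion.2 ⟨N, hN, hy2⟩
  have hmpos := ball_pos hw x0 hr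
  obtain ⟨N, hN⟩ : ∃ N, τ / 2 * (wMeasure w).real (ball x0 r) ≤ (wMeasure w).real (T N) := by
    have hTfin : ∀ N, (wMeasure w) (T N) ≠ ⊤ := fun N =>
      ne_top_of_le_ne_top measure_ball_lt_top.ne (measure_mono Set.inter_subset_right)
    have h1 : ENNReal.ofReal (τ / 2 * (wMeasure w).real (ball x0 r)) <
        (wMeasure w) (⋃ N, T N) := by
      refine lt_of_lt_of_le ?_ (measure_mono hTsub)
      have hfin : (wMeasure w) ({y | u x0 + ε < u y} ∩ ball x0 r) ≠ ⊤ :=
        ne_top_of_le_ne_top measure_ball_lt_top.ne (measure_mono Set.inter_subset_right)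
      rw [← ENNReal.ofReal_toReal hfin]
      apply (ENNReal.ofReal_lt_ofReal_iff (by
        refine lt_of_lt_of_le ?_ hcon
        positivity)).2
      refine lt_of_lt_of_le ?_ hcon
      nlinarith [mul_pos hτ hmpos]
    rw [hTmono.measure_iUnion, lt_iSup_iff] at h1
    obtain ⟨N, hN⟩ := h1
    refine ⟨N, ?_⟩
    rw [← ENNReal.ofReal_toReal (hTfin N)] at hN
    have h2 := (ENNReal.ofReal_lt_ofReal_iff_of_nonneg (by positivity)).1 hN
    exact h2.le
  -- Dini on the closed ball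
  obtain ⟨N2, hN2⟩ := dini_lt (isCompact_closedBall x0 R) (q := f) hf1 hf2 (a := u x0 - ε')
    (fun x hx => by
      have hxD : x ∈ closure D := subset_closure (hball hx)
      have h2 : u x0 - ε' < u x :=
        hR1b x (hD.2.2 hxD) (lt_of_le_of_lt (mem_closedBall.1 hx) hRR1)
      exact ((hf3 x hxD).eventually (lt_mem_nhds h2)).exists)
  obtain ⟨i, hiN, hiN2, hi2⟩ : ∃ i : ℕ, N ≤ i ∧ N2 ≤ i ∧ 2 / ((i:ℝ) + 1) < ε' := by
    have h2 : Tendsto (fun i : ℕ => 2 / ((i:ℝ) + 1)) atTop (𝓝 0) := by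
      have := (tendsto_one_div_add_atTop_nhds_zero_nat (𝕜 := ℝ)).const_mul 2
      rw [mul_zero] at this
      exact this.congr fun k => by ring
    obtain ⟨i, h3, h4, h5⟩ := ((eventually_ge_atTop N).and ((eventually_ge_atTop N2).and
      (h2.eventually (gt_mem_nhds hε'0)))).exists
    exact ⟨i, h3, h4, h5⟩
  have hlow : ∀ y ∈ closedBall x0 R, u x0 - 2 * ε' ≤ F i y := by
    intro y hy
    have h1 := hN2 i hiN2 y hy
    have h2 := hF2 i y (subset_closure (hball hy))
    linarith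
  have hballD : ball x0 R ⊆ D := ball_subset_closedBall.trans hball
  have h1 := hgrow x0 R (fun y => 1 * F i y + (-(u x0 - 2 * ε'))) _ hR
    (((hF5 i).mono hD.1 hballD).affine hp hA isOpen_ball one_pos _)
    (ae_restrict_of_mem isOpen_ball fun y hy => by
      have := hlow y (ball_subset_closedBall hy)
      linarith) (T N) (hTm N) (by rw [hRr]; exact Set.inter_subset_right) ε hε (by
      rw [ae_restrict_iff' (hTm N)]
      refine Eventually.of_forall fun y hy => ?_
      have := hy.1 i hiN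
      linarith) (by rw [hRr]; exact hN)
  have h2 : F i x0 ≤ u x0 :=
    hF3 i x0 (subset_closure (hball (mem_closedBall_self hR.le)))
  have h3 : F i x0 < u x0 + 3 * ε' - 2 * ε' := by linarith
  obtain ⟨s, hs, hsb⟩ := Metric.isOpen_iff.1 (isOpen_lt (hF1 i) continuous_const) x0 h3
  obtain ⟨y, hy1, hy2⟩ := ae_exists hw (lt_min hs (by positivity : 0 < R / 4))
    ((ae_ball_mono (ball_subset_ball (min_le_right s (R / 4))) h1).and
      (ae_restrict_of_mem isOpen_ball (fun y hy => hy)))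
  have h4 : F i y < u x0 + 3 * ε' - 2 * ε' := hsb (ball_subset_ball (min_le_left _ _) hy2)
  have h5 : c * ε = 4 * ε' := by rw [hε']; ring
  linarith

/-- **The comparison principle with an exceptional boundary set of capacity zero.** -/
theorem comparison (hp : 1 < p) (hw : PAdmissible p w) (hA : AOperator p w A) (hΩ : IsOpen Ω)
    (hb : Bornology.IsBounded Ω) (hne : Ωᶜ.Nonempty) {S : Set (E n)}
    (hcap : cap p (wMeasure w) S = 0)
    {u v : E n → ℝ} {K : ℝ}
    (hu : IsSuperharmonic p w A Ω u) (hv : IsSubharmonic p w A Ω v)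
    (huK : ∀ x ∈ Ω, |u x| ≤ K) (hvK : ∀ x ∈ Ω, |v x| ≤ K)
    (hbd : ∀ x ∈ frontier Ω \ S, limsup v (𝓝[Ω] x) ≤ liminf u (𝓝[Ω] x)) :
    ∀ x ∈ Ω, v x ≤ u x := by
  have hloc := locFinite hw.locallyIntegrable
  intro x hx
  have hK0 : 0 ≤ K := (abs_nonneg _).trans (huK x hx)
  have hnull := ae_le_super hp hw hA hΩ hb hne hcap hK0 hu hv huK hvK hbd
  by_contra hcon
  push Not at hcon
  obtain ⟨ε, hε⟩ : ∃ ε, ε = (v x - u x) / 3 := ⟨_, rfl⟩
  have hε0 : 0 < ε := by rw [hε]; linarith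
  obtain ⟨r1, hr1, h1⟩ := dens_super hp hw hA hΩ hb hne hK0 hu huK hx hε0
    (show (0:ℝ) < 1 / 3 by norm_num)
  obtain ⟨r2, hr2, h2⟩ := dens_super hp hw hA hΩ hb hne hK0 (hv.neg hA)
    (fun y hy => by rw [abs_neg]; exact hvK y hy) hx hε0 (show (0:ℝ) < 1 / 3 by norm_num)
  obtain ⟨r3, hr3, hr3b⟩ := Metric.isOpen_iff.1 hΩ x hx
  obtain ⟨r, hr⟩ : ∃ r, r = min r1 (min r2 r3) := ⟨_, rfl⟩
  have hrpos : 0 < r := by rw [hr]; exact lt_min hr1 (lt_min hr2 hr3)
  have e1 := h1 r hrpos (by rw [hr]; exact min_le_left _ _)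
  have e2 := h2 r hrpos (by rw [hr]; exact (min_le_right _ _).trans (min_le_left _ _))
  have hrr3 : r ≤ r3 := by rw [hr]; exact (min_le_right _ _).trans (min_le_right _ _)
  have hsub : ball x r ⊆ (({y | u x + ε < u y} ∩ ball x r) ∪
      ({y | -v x + ε < -v y} ∩ ball x r)) ∪ {y | y ∈ Ω ∧ u y < v y} := by
    intro y hy
    have hyΩ : y ∈ Ω := hr3b (ball_subset_ball hrr3 hy)
    by_cases c1 : u x + ε < u y
    · exact Or.inl (Or.inl ⟨c1, hy⟩)
    by_cases c2 : -v x + ε < -v y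
    · exact Or.inl (Or.inr ⟨c2, hy⟩)
    · refine Or.inr ⟨hyΩ, ?_⟩
      push Not at c1 c2
      linarith
  have f1 : (wMeasure w) ({y | u x + ε < u y} ∩ ball x r) ≠ ⊤ :=
    ne_top_of_le_ne_top measure_ball_lt_top.ne (measure_mono Set.inter_subset_right)
  have f2 : (wMeasure w) ({y | -v x + ε < -v y} ∩ ball x r) ≠ ⊤ :=
    ne_top_of_le_ne_top measure_ball_lt_top.ne (measure_mono Set.inter_subset_right)
  have h3 := measure_mono (μ := wMeasure w) hsub
  have h4 := h3.trans ((measure_union_le _ _).trans (add_le_add_left (measure_union_le _ _) _))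
  rw [hnull, add_zero] at h4
  have h5 := ENNReal.toReal_mono (ENNReal.add_ne_top.2 ⟨f1, f2⟩) h4
  rw [ENNReal.toReal_add f1 f2] at h5
  have hm := ball_pos hw x hrpos
  unfold Measure.real at e1 e2 hm
  linarith

end Pool.Agent.H40.NP
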