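import Pool.Agent.H40.NQBound

set_option autoImplicit false

open MeasureTheory Filter Topology Metric
open scoped ContDiff RealInnerProductSpace

namespace Pool.Agent.H40.NP

variable {n : ℕ} {p : ℝ} {w : E n → ℝ} {A : E n → E n → E n} {D Ω : Set (E n)}
  {μ : Measure (E n)}

theorem absorb {p A M X : ℝ} (hp : 1 < p) (hA : 0 < A) (hM : 0 < M) (hX : 0 < X) :
    A * (M ^ (p - 1) * X) ^ (1 / p) ≤ M / 2 + 2 ^ (p - 1) * A ^ p * X := by
  have hp0 : 0 < p := by linarith
  have e : A * (M ^ (p - 1) * X) ^ (1 / p) = M ^ ((p - 1) / p) * (A ^ p * X) ^ (1 / p) := by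
    rw [Real.mul_rpow (by positivity) hX.le, Real.mul_rpow (by positivity) hX.le,
      ← Real.rpow_mul hM.le, ← Real.rpow_mul hA.le, mul_one_div_cancel hp0.ne', Real.rpow_one,
      mul_one_div]
    ring
  have hMM : M ^ ((p - 1) / p) * M ^ (1 / p) = M := by
    rw [← Real.rpow_add hM, ← add_div, sub_add_cancel, div_self hp0.ne', Real.rpow_one]
  rw [e]
  rcases le_or_gt (A ^ p * X) (M * (2:ℝ) ^ (-p)) with h | h
  · have h1 : (A ^ p * X) ^ (1 / p) ≤ M ^ (1 / p) * 2⁻¹ := by
      calc (A ^ p * X) ^ (1 / p) ≤ (M * (2:ℝ) ^ (-p)) ^ (1 / p) :=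
            Real.rpow_le_rpow (by positivity) h (by positivity)
        _ = M ^ (1 / p) * 2⁻¹ := by
            rw [Real.mul_rpow hM.le (by positivity), ← Real.rpow_mul (by norm_num),
              show -p * (1 / p) = -1 by field_simp, Real.rpow_neg_one]
    calc M ^ ((p - 1) / p) * (A ^ p * X) ^ (1 / p) ≤
        M ^ ((p - 1) / p) * (M ^ (1 / p) * 2⁻¹) := mul_le_mul_of_nonneg_left h1 (by positivity)
      _ = M / 2 := by rw [← mul_assoc, hMM]; ring
      _ ≤ _ := by
          have : 0 < 2 ^ (p - 1) * A ^ p * X := by positivity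
          linarith
  · have h1 : M ≤ 2 ^ p * (A ^ p * X) := by
      have h2 : M * (2:ℝ) ^ (-p) * 2 ^ p = M := by
        rw [mul_assoc, ← Real.rpow_add (by norm_num)]; simp
      calc M = M * (2:ℝ) ^ (-p) * 2 ^ p := h2.symm
        _ ≤ (A ^ p * X) * 2 ^ p := mul_le_mul_of_nonneg_right h.le (by positivity)
        _ = _ := mul_comm _ _
    set Z := A ^ p * X with hZ
    have hZ0 : 0 < Z := by positivity
    have hZZ : Z ^ ((p - 1) / p) * Z ^ (1 / p) = Z := by
      rw [← Real.rpow_add hZ0, ← add_div, sub_add_cancel, div_self hp0.ne', Real.rpow_one]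
    have hp1 : 0 ≤ (p - 1) / p := div_nonneg (by linarith) hp0.le
    calc M ^ ((p - 1) / p) * Z ^ (1 / p) ≤ (2 ^ p * Z) ^ ((p - 1) / p) * Z ^ (1 / p) :=
          mul_le_mul_of_nonneg_right (Real.rpow_le_rpow hM.le h1 hp1) (by positivity)
      _ = 2 ^ (p - 1) * Z := by
          rw [Real.mul_rpow (by positivity) hZ0.le, mul_assoc, hZZ, ← Real.rpow_mul (by norm_num),
            mul_div_cancel₀ _ hp0.ne']
      _ ≤ _ := by
          rw [hZ]
          have : (2:ℝ) ^ (p - 1) * (A ^ p * X) = 2 ^ (p - 1) * A ^ p * X := by ring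
          linarith

/-- integrability of `u_+` -/
theorem integrable_pos {ν : Measure (E n)} [IsFiniteMeasure ν] {u : E n → ℝ}
    (hu : AEStronglyMeasurable u ν) {C : ℝ} (hC : ∀ᵐ x ∂ν, |u x| ≤ C) :
    Integrable (fun x => max (u x) 0) ν := by
  apply Integrable.of_bound (C := |C|)
  · exact ((hu.aemeasurable.max aemeasurable_const)).aestronglyMeasurable
  · filter_upwards [hC] with x hx
    rw [Real.norm_of_nonneg (le_max_right _ _)]
    exact max_le ((le_abs_self _).trans (hx.trans (le_abs_self C))) (abs_nonneg _)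

theorem sup_L1 (hp : 1 < p) (hw : PAdmissible p w) (hA : AOperator p w A) :
    ∃ C3 : ℝ, 0 < C3 ∧ ∀ (x0 : E n) (R : ℝ) (u : E n → ℝ) (U : E n → E n), 0 < R →
      SubSol p w A (ball x0 R) u U → ∀ X : ℝ, 0 < X →
      ∫ x in ball x0 R, max (u x) 0 ∂(wMeasure w) ≤ X * (wMeasure w).real (ball x0 R) →
      ∀ᵐ x ∂((wMeasure w).restrict (ball x0 (R / 2))), u x ≤ C3 * X := by
  have hp0 : 0 < p := by linarith
  obtain ⟨N, C2, hN, hC2, hsup⟩ := sup_bound hp hw hA
  obtain ⟨lam, hlam⟩ : ∃ lam : ℝ, lam = (2 / 3) ^ (1 / (N * p)) := ⟨_, rfl⟩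
  have hNp : 0 < N * p := by positivity
  have hlam0 : 0 < lam := by rw [hlam]; positivity
  have hlam1 : lam < 1 := by
    rw [hlam]
    exact Real.rpow_lt_one (by norm_num) (by norm_num) (by positivity)
  have hlamp : lam ^ (-(N * p)) = 3 / 2 := by
    rw [hlam, ← Real.rpow_mul (by norm_num), show 1 / (N * p) * -(N * p) = -1 by field_simp,
      Real.rpow_neg_one]
    norm_num
  obtain ⟨C4, hC4⟩ : ∃ C4 : ℝ, C4 = C2 ^ p * (2 / (1 - lam)) ^ (N * p) := ⟨_, rfl⟩
  have h1lam : 0 < 1 - lam := by linarith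
  have hC40 : 0 < C4 := by rw [hC4]; positivity
  refine ⟨2 ^ (p - 1) * C4 * 4, by positivity, ?_⟩
  intro x0 R u U hR hu X hX hint
  set μ := wMeasure w with hμ
  set m := μ.real (ball x0 R) with hm
  have hm0 : 0 < m := ball_pos hw x0 hR
  have hfin := ball_fin hw x0 R
  have hum := hu.1.aesm isOpen_ball
  obtain ⟨Cu, hCu⟩ := hu.1.bdd isOpen_ball
  let s : ℕ → ℝ := fun i => R - R / 2 * lam ^ i
  have hlampow : ∀ i : ℕ, 0 < lam ^ i := fun i => by positivity
  have hlampow1 : ∀ i : ℕ, lam ^ i ≤ 1 := fun i => pow_le_one₀ hlam0.le hlam1.le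
  have hs0 : ∀ i, 0 < s i := fun i => by
    have := mul_le_mul_of_nonneg_left (hlampow1 i) (by positivity : 0 ≤ R / 2)
    change 0 < R - R / 2 * lam ^ i
    linarith
  have hsR : ∀ i, s i ≤ R := fun i => by
    have := mul_pos (by positivity : 0 < R / 2) (hlampow i)
    change R - R / 2 * lam ^ i ≤ R
    linarith
  have hsd : ∀ i, s (i + 1) - s i = R / 2 * (1 - lam) * lam ^ i := fun i => by
    change R - R / 2 * lam ^ (i + 1) - (R - R / 2 * lam ^ i) = _
    rw [pow_succ]; ring
  obtain ⟨M, hM⟩ : ∃ M : ℝ, M = |Cu| + 1 := ⟨_, rfl⟩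
  have hM0 : 0 < M := by rw [hM]; positivity
  have key : ∀ k : ℕ, ∀ i : ℕ, ∀ᵐ x ∂(μ.restrict (ball x0 (s i))),
      u x ≤ M * (1 / 2) ^ k + 2 ^ (p - 1) * C4 * X * (3 / 2) ^ i *
        ∑ l ∈ Finset.range k, (3 / 4 : ℝ) ^ l := by
    intro k
    induction k with
    | zero =>
      intro i
      have hle : μ.restrict (ball x0 (s i)) ≤ μ.restrict (ball x0 R) :=
        Measure.restrict_mono (ball_subset_ball (hsR i)) le_rfl
      filter_upwards [hCu.filter_mono (ae_mono hle)] with x hx
      simp only [pow_zero, mul_one, Finset.range_zero, Finset.sum_empty, mul_zero, add_zero]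
      rw [hM]
      linarith [le_abs_self (u x), le_abs_self Cu]
    | succ k ih =>
      intro i
      have h1 := ih (i + 1)
      obtain ⟨M', hM'⟩ : ∃ M' : ℝ, M' = M * (1 / 2) ^ k + 2 ^ (p - 1) * C4 * X *
        (3 / 2) ^ (i + 1) * ∑ l ∈ Finset.range k, (3 / 4 : ℝ) ^ l := ⟨_, rfl⟩
      have hsum : 0 ≤ ∑ l ∈ Finset.range k, (3 / 4 : ℝ) ^ l :=
        Finset.sum_nonneg fun l _ => by positivity
      have hM'0 : 0 < M' := by rw [hM']; positivity
      rw [← hM'] at h1
      have hle : μ.restrict (ball x0 (s (i + 1))) ≤ μ.restrict (ball x0 R) :=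
        Measure.restrict_mono (ball_subset_ball (hsR (i + 1))) le_rfl
      have hfi := ball_fin hw x0 (s (i + 1))
      have hCi := hCu.filter_mono (ae_mono hle)
      have hui := hum.mono_measure hle
      have hst : s i < s (i + 1) := by
        have := hsd i
        have h2 : 0 < R / 2 * (1 - lam) * lam ^ i := by positivity
        linarith
      have hpint : ∫ x in ball x0 (s (i + 1)), (max (u x) 0) ^ p ∂μ ≤
          M' ^ (p - 1) * X * m := by
        have il := integrable_level hp hui hCi 0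
        simp only [sub_zero] at il
        have ip := integrable_pos hui hCi
        calc ∫ x in ball x0 (s (i + 1)), (max (u x) 0) ^ p ∂μ ≤
            ∫ x in ball x0 (s (i + 1)), M' ^ (p - 1) * max (u x) 0 ∂μ := by
              apply integral_mono_ae il (ip.const_mul _)
              filter_upwards [h1] with x hx
              rw [← rpow_sub_one_mul (le_max_right _ _) hp]
              apply mul_le_mul_of_nonneg_right _ (le_max_right _ _)
              exact Real.rpow_le_rpow (le_max_right _ _) (max_le hx hM'0.le) (by linarith)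
          _ = M' ^ (p - 1) * ∫ x in ball x0 (s (i + 1)), max (u x) 0 ∂μ := integral_const_mul _ _
          _ ≤ M' ^ (p - 1) * (X * m) := by
              apply mul_le_mul_of_nonneg_left _ (by positivity)
              refine le_trans ?_ hint
              exact setIntegral_mono_set (integrable_pos hum hCu)
                (Eventually.of_forall fun x => le_max_right _ _)
                (ball_subset_ball (hsR (i + 1))).eventuallyLE
          _ = _ := by ring
      have h3 := hsup x0 R u U hR hu (s i) (s (i + 1)) (M' ^ (p - 1) * X) (hs0 i) hst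
        (hsR (i + 1)) (by positivity) hpint
      filter_upwards [h3] with x hx
      refine hx.trans ?_
      rw [hsd i]
      have hρ : 0 < R / (R / 2 * (1 - lam) * lam ^ i) := by positivity
      have h4 := absorb (p := p) (A := C2 * (R / (R / 2 * (1 - lam) * lam ^ i)) ^ N) (M := M')
        (X := X) hp (by positivity) hM'0 hX
      refine h4.trans (le_of_eq ?_)
      have e1 : (C2 * (R / (R / 2 * (1 - lam) * lam ^ i)) ^ N) ^ p = C4 * (3 / 2) ^ i := by
        have e2 : R / (R / 2 * (1 - lam) * lam ^ i) = (2 / (1 - lam)) * (lam ^ i)⁻¹ := by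
          field_simp
        rw [Real.mul_rpow hC2.le (by positivity), ← Real.rpow_mul hρ.le, e2,
          Real.mul_rpow (by positivity) (by positivity), hC4, ← hlamp, ← Real.rpow_natCast,
          ← Real.rpow_natCast, ← Real.rpow_mul hlam0.le, ← Real.rpow_neg hlam0.le,
          ← Real.rpow_mul hlam0.le]
        rw [show -(i:ℝ) * (N * p) = -(N * p) * i by ring]
        ring
      rw [e1, hM', Finset.sum_range_succ' _ k]
      simp only [pow_succ, pow_zero]
      rw [← Finset.sum_mul]
      ring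
  have h0 : s 0 = R / 2 := by
    change R - R / 2 * lam ^ 0 = R / 2
    rw [pow_zero]; ring
  have hall : ∀ᵐ x ∂(μ.restrict (ball x0 (R / 2))), ∀ k : ℕ,
      u x ≤ M * (1 / 2) ^ k + 2 ^ (p - 1) * C4 * X * 4 := by
    rw [ae_all_iff]
    intro k
    have h1 := key k 0
    rw [h0] at h1
    filter_upwards [h1] with x hx
    refine hx.trans ?_
    rw [pow_zero, mul_one]
    have hs4 : ∑ l ∈ Finset.range k, (3 / 4 : ℝ) ^ l ≤ 4 := by
      rw [geom_sum_eq (by norm_num)]
      have : (0:ℝ) ≤ (3 / 4) ^ k := by positivity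
      rw [div_le_iff_of_neg (by norm_num)]
      linarith
    have := mul_le_mul_of_nonneg_left hs4 (by positivity : 0 ≤ 2 ^ (p - 1) * C4 * X)
    linarith
  filter_upwards [hall] with x hx
  have hl : Tendsto (fun k : ℕ => M * (1 / 2) ^ k + 2 ^ (p - 1) * C4 * X * 4) atTop
      (𝓝 (M * 0 + 2 ^ (p - 1) * C4 * X * 4)) :=
    ((tendsto_pow_atTop_nhds_zero_of_lt_one (by norm_num) (by norm_num)).const_mul M).add
      tendsto_const_nhds
  have := ge_of_tendsto' hl hx
  linarith

end Pool.Agent.H40.NP
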