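import Pool.Agent.H40.NQObs

set_option autoImplicit false

open MeasureTheory Filter Topology Metric
open scoped ContDiff RealInnerProductSpace

namespace Pool.Agent.H40.NP

variable {n : ℕ} {p : ℝ} {w : E n → ℝ} {A : E n → E n → E n} {D Ω : Set (E n)}
  {μ : Measure (E n)}

theorem Cut.h0 [IsLocallyFiniteMeasure μ] {φ : E n → ℝ} (h : Cut D φ) :
    H0 p μ D φ (gradient φ) :=
  ⟨h.memLp _, h.memLp_gradient _, fun _ => φ, fun _ => h, by simp, by simp⟩

theorem H0.add (hp : 1 < p) [IsLocallyFiniteMeasure μ] {g g' : E n → ℝ} {G G' : E n → E n}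
    (h : H0 p μ D g G) (h' : H0 p μ D g' G') :
    H0 p μ D (fun x => g x + g' x) (fun x => G x + G' x) := by
  obtain ⟨h1, h2, φ, h3, h4, h5⟩ := h
  obtain ⟨k1, k2, ψ, k3, k4, k5⟩ := h'
  refine ⟨h1.add k1, h2.add k2, fun k x => φ k x + ψ k x, fun k => (h3 k).add (k3 k), ?_, ?_⟩
  · have t := h4.add k4
    rw [add_zero] at t
    refine tendsto_of_tendsto_of_tendsto_of_le_of_le tendsto_const_nhds t
      (fun _ => zero_le) fun k => ?_
    have e : (fun x => φ k x + ψ k x - (g x + g' x)) = (fun x => φ k x - g x) +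
        fun x => ψ k x - g' x := by
      funext x; simp only [Pi.add_apply]; ring
    simp only
    rw [e]
    exact eLpNorm_add_le (((h3 k).memLp (ENNReal.ofReal p)).1.sub h1.1)
      (((k3 k).memLp (ENNReal.ofReal p)).1.sub k1.1) (one_le_q hp)
  · have t := h5.add k5
    rw [add_zero] at t
    refine tendsto_of_tendsto_of_tendsto_of_le_of_le tendsto_const_nhds t
      (fun _ => zero_le) fun k => ?_
    have e : (fun x => gradient (fun y => φ k y + ψ k y) x - (G x + G' x)) =
        (fun x => gradient (φ k) x - G x) + fun x => gradient (ψ k) x - G' x := by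
      funext x
      simp only [Pi.add_apply]
      rw [(h3 k).gradient_add (k3 k)]
      abel
    simp only
    rw [e]
    exact eLpNorm_add_le (((h3 k).memLp_gradient (ENNReal.ofReal p)).1.sub h2.1)
      (((k3 k).memLp_gradient (ENNReal.ofReal p)).1.sub k2.1) (one_le_q hp)

theorem H0.const_mul {g : E n → ℝ} {G : E n → E n}
    (h : H0 p μ D g G) (c : ℝ) :
    H0 p μ D (fun x => c * g x) (fun x => c • G x) := by
  obtain ⟨h1, h2, φ, h3, h4, h5⟩ := h
  refine ⟨h1.const_mul c, h2.const_smul c, fun k x => c * φ k x, fun k => (h3 k).const_mul c,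
    ?_, ?_⟩
  · have t := ENNReal.Tendsto.const_mul (a := ‖c‖ₑ) h4 (Or.inr enorm_ne_top)
    rw [mul_zero] at t
    refine t.congr fun k => ?_
    have e : (fun x => c * φ k x - c * g x) = c • fun x => φ k x - g x := by
      funext x; simp only [Pi.smul_apply, smul_eq_mul]; ring
    rw [e, eLpNorm_const_smul]
  · have t := ENNReal.Tendsto.const_mul (a := ‖c‖ₑ) h5 (Or.inr enorm_ne_top)
    rw [mul_zero] at t
    refine t.congr fun k => ?_
    have e : (fun x => gradient (fun y => c * φ k y) x - c • G x) =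
        c • fun x => gradient (φ k) x - G x := by
      funext x
      simp only [Pi.smul_apply]
      rw [(h3 k).gradient_const_mul, smul_sub]
    rw [e, eLpNorm_const_smul]

theorem H0.memH (hp : 1 < p) [IsLocallyFiniteMeasure μ] {g : E n → ℝ} {G : E n → E n}
    (h : H0 p μ D g G) (B : Set (E n)) : MemH p μ B g G := by
  obtain ⟨h1, h2, φ, h3, h4, h5⟩ := h
  refine ⟨h1.restrict B, h2.restrict B, φ, fun k => (h3 k).smooth.contDiffOn,
    fun k => ((h3 k).memLp _).restrict B, fun k => ((h3 k).memLp_gradient _).restrict B, ?_, ?_⟩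
  · exact tendsto_of_tendsto_of_tendsto_of_le_of_le tendsto_const_nhds h4
      (fun _ => zero_le) fun k => eLpNorm_mono_measure _ Measure.restrict_le_self
  · exact tendsto_of_tendsto_of_tendsto_of_le_of_le tendsto_const_nhds h5
      (fun _ => zero_le) fun k => eLpNorm_mono_measure _ Measure.restrict_le_self

/-- Friedrichs' inequality on `H_0^{1,p}`: a zero gradient means a zero function -/
theorem H0.eq_zero (hp : 1 < p) (hw : PAdmissible p w) (hDb : Bornology.IsBounded D)
    {g : E n → ℝ} {G : E n → E n} (h : H0 p (wMeasure w) D g G)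
    (hG : ∀ᵐ x ∂(wMeasure w), G x = 0) : ∀ᵐ x ∂(wMeasure w), g x = 0 := by
  have := locFinite hw.locallyIntegrable
  obtain ⟨R, hR, hDR⟩ := hDb.subset_ball_lt 0 0
  obtain ⟨C, hC, hf⟩ := fried_smooth hp hw (0 : E n) hR
  obtain ⟨h1, h2, φ, h3, h4, h5⟩ := h
  set μ := wMeasure w with hμ
  have hG0 : Tendsto (fun k => eLpNorm (gradient (φ k)) (ENNReal.ofReal p) μ) atTop (𝓝 0) := by
    refine h5.congr fun k => ?_
    apply eLpNorm_congr_ae
    filter_upwards [hG] with x hx
    rw [hx, sub_zero]
  have hφ0 : Tendsto (fun k => eLpNorm (φ k) (ENNReal.ofReal p) μ) atTop (𝓝 0) := by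
    have t := ENNReal.Tendsto.const_mul (a := ENNReal.ofReal C) hG0 (Or.inr ENNReal.ofReal_ne_top)
    rw [mul_zero] at t
    exact tendsto_of_tendsto_of_tendsto_of_le_of_le tendsto_const_nhds t
      (fun _ => zero_le) fun k => hf (φ k) ⟨(h3 k).smooth, (h3 k).cpt, (h3 k).supp.trans hDR⟩
  have hg0 : eLpNorm g (ENNReal.ofReal p) μ = 0 := by
    have t := h4.add hφ0
    rw [add_zero] at t
    apply le_antisymm _ zero_le
    refine ge_of_tendsto' t fun k => ?_
    have e : g = φ k - fun x => φ k x - g x := by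
      funext x; simp
    conv_lhs => rw [e]
    refine (eLpNorm_sub_le ((h3 k).memLp (ENNReal.ofReal p)).1
      (((h3 k).memLp (ENNReal.ofReal p)).1.sub h1.1) (one_le_q hp)).trans ?_
    exact (add_comm _ _).le
  rw [eLpNorm_eq_zero_iff h1.1 (q_ne_zero hp)] at hg0
  exact hg0

/-- truncated and cut-off elements of `H_0^{1,p}` -/
theorem H0.step (hp : 1 < p) [IsLocallyFiniteMeasure μ] {g : E n → ℝ} {G : E n → E n}
    (h : H0 p μ D g G) {ψ : E n → ℝ} (hψ : Cut Set.univ ψ) {B : Set (E n)} {ζ : E n → ℝ}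
    (hζ : Cut B ζ) {k : ℝ} (hψk : ∀ x ∈ B, ψ x ≤ k) {S : ℝ → ℝ} (hS : ContDiff ℝ ∞ S)
    (hS0 : ∀ t, t ≤ 0 → S t = 0) {b L : ℝ} (hSb : ∀ t, |S t| ≤ b)
    (hSd : ∀ t, |deriv S t| ≤ L) :
    H0 p μ D (fun x => S (ψ x + g x - k) * ζ x)
      (fun x => S (ψ x + g x - k) • gradient ζ x +
        ζ x • (deriv S (ψ x + g x - k) • (gradient ψ x + G x))) := by
  obtain ⟨h1, h2, φ, h3, h4, h5⟩ := h
  have hmeas : TendstoInMeasure μ φ atTop g :=
    tendstoInMeasure_of_tendsto_eLpNorm (q_ne_zero hp)
      (fun k => ((h3 k).memLp (ENNReal.ofReal p)).1) h1.1 h4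
  obtain ⟨ns, hns, hae⟩ := hmeas.exists_seq_tendsto_ae
  have hSc : Continuous S := hS.continuous
  have hSdc : Continuous (deriv S) := hS.continuous_deriv (by simp)
  have hSdiff : Differentiable ℝ S := hS.differentiable (by simp)
  have hψc : Continuous ψ := hψ.smooth.continuous
  obtain ⟨Cζ, hCζ⟩ := hζ.cpt.exists_bound_of_continuous hζ.smooth.continuous
  let F : ℕ → E n → ℝ := fun i x => S (ψ x + φ (ns i) x - k) * ζ x
  have hFcut : ∀ i, Cut D (F i) := by
    intro i
    have hsm : ContDiff ℝ ∞ (F i) :=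
      (hS.comp ((hψ.smooth.add (h3 (ns i)).smooth).sub contDiff_const)).mul hζ.smooth
    have hts : tsupport (F i) ⊆ tsupport (φ (ns i)) := by
      apply closure_minimal _ (isClosed_tsupport _)
      intro x hx
      by_contra hxn
      apply hx
      change S (ψ x + φ (ns i) x - k) * ζ x = 0
      rw [image_eq_zero_of_notMem_tsupport hxn, add_zero]
      by_cases hxB : x ∈ B
      · rw [hS0 _ (by linarith [hψk x hxB]), zero_mul]
      · rw [image_eq_zero_of_notMem_tsupport (fun h => hxB (hζ.supp h)), mul_zero]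
    exact ⟨hsm, (h3 (ns i)).cpt.of_isClosed_subset (isClosed_tsupport _) hts,
      hts.trans (h3 (ns i)).supp⟩
  have hFg : ∀ i x, gradient (F i) x = S (ψ x + φ (ns i) x - k) • gradient ζ x +
      ζ x • (deriv S (ψ x + φ (ns i) x - k) • (gradient ψ x + gradient (φ (ns i)) x)) := by
    intro i x
    have e1 : HasGradientAt (fun y => ψ y + φ (ns i) y - k)
        (gradient ψ x + gradient (φ (ns i)) x) x := by
      have := gradient_add' (hψ.hasGradientAt x) ((h3 (ns i)).hasGradientAt x)
      rw [hasGradientAt_iff_hasFDerivAt] at this ⊢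
      exact this.sub_const k
    have e2 := gradient_comp e1 (hSdiff _).hasDerivAt
    exact (gradient_mul e2 (hζ.hasGradientAt x)).gradient
  have hmF : ∀ i, AEStronglyMeasurable (fun x => S (ψ x + φ (ns i) x - k)) μ := fun i =>
    (hSc.comp ((hψc.add (h3 (ns i)).smooth.continuous).sub continuous_const)).aestronglyMeasurable
  have hmF' : ∀ i, AEStronglyMeasurable (fun x => deriv S (ψ x + φ (ns i) x - k)) μ := fun i =>
    (hSdc.comp ((hψc.add (h3 (ns i)).smooth.continuous).sub continuous_const)).aestronglyMeasurable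
  have hlim : ∀ᵐ x ∂μ, Tendsto (fun i => S (ψ x + φ (ns i) x - k)) atTop
      (𝓝 (S (ψ x + g x - k))) := by
    filter_upwards [hae] with x hx
    exact (hSc.tendsto _).comp ((tendsto_const_nhds.add hx).sub_const k)
  have hlim' : ∀ᵐ x ∂μ, Tendsto (fun i => deriv S (ψ x + φ (ns i) x - k)) atTop
      (𝓝 (deriv S (ψ x + g x - k))) := by
    filter_upwards [hae] with x hx
    exact (hSdc.tendsto _).comp ((tendsto_const_nhds.add hx).sub_const k)
  have hm0 : AEStronglyMeasurable (fun x => S (ψ x + g x - k)) μ :=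
    aestronglyMeasurable_of_tendsto_ae atTop hmF hlim
  have hm0' : AEStronglyMeasurable (fun x => deriv S (ψ x + g x - k)) μ :=
    aestronglyMeasurable_of_tendsto_ae atTop hmF' hlim'
  have hζm : MemLp ζ (ENNReal.ofReal p) μ := hζ.memLp _
  have hζg : MemLp (gradient ζ) (ENNReal.ofReal p) μ := hζ.memLp_gradient _
  have hψg : MemLp (gradient ψ) (ENNReal.ofReal p) μ := hψ.memLp_gradient _
  -- the cut-off derivative
  have hmζ : AEStronglyMeasurable (fun x => ζ x * deriv S (ψ x + g x - k)) μ :=
    hζ.smooth.continuous.aestronglyMeasurable.mul hm0'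
  have hbζ : ∀ (x : E n) (t : ℝ), |ζ x * deriv S t| ≤ Cζ * L := by
    intro x t
    rw [abs_mul]
    exact mul_le_mul (hCζ x) (hSd t) (abs_nonneg _) ((norm_nonneg _).trans (hCζ x))
  refine ⟨?_, ?_, F, hFcut, ?_, ?_⟩
  · exact memLp_bdd_smul (F := ℝ) hm0 (Eventually.of_forall fun x => hSb _) hζm
  · have e1 := memLp_bdd_smul hm0 (Eventually.of_forall fun x => hSb _) hζg
    have e2 := memLp_bdd_smul hmζ (Eventually.of_forall fun x => hbζ x _) (hψg.add h2)
    have e3 := e1.add e2
    refine e3.ae_eq (Eventually.of_forall fun x => ?_)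
    simp only [Pi.add_apply, smul_smul]
  · have t := tendsto_eLpNorm_smul (F := ℝ) (one_le_q hp) ENNReal.ofReal_ne_top hmF
      (fun i => Eventually.of_forall fun x => hSb _) hlim (f := fun _ => ζ) (f0 := ζ)
      (fun _ => hζm.1) hζm (by simp)
    exact t
  · have t1 := tendsto_eLpNorm_smul (one_le_q hp) ENNReal.ofReal_ne_top hmF
      (fun i => Eventually.of_forall fun x => hSb _) hlim (f := fun _ => gradient ζ)
      (f0 := gradient ζ) (fun _ => hζg.1) hζg (by simp)
    have t2 := tendsto_eLpNorm_smul (one_le_q hp) ENNReal.ofReal_ne_top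
      (a := fun i x => ζ x * deriv S (ψ x + φ (ns i) x - k))
      (a0 := fun x => ζ x * deriv S (ψ x + g x - k))
      (fun i => hζ.smooth.continuous.aestronglyMeasurable.mul (hmF' i))
      (fun i => Eventually.of_forall fun x => hbζ x _)
      (hlim'.mono fun x hx => hx.const_mul (ζ x))
      (f := fun i x => gradient ψ x + gradient (φ (ns i)) x)
      (f0 := fun x => gradient ψ x + G x)
      (fun i => (hψg.add ((h3 (ns i)).memLp_gradient _)).1) (hψg.add h2) (by
        refine (h5.comp hns.tendsto_atTop).congr fun i => ?_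
        apply eLpNorm_congr_ae
        refine Eventually.of_forall fun x => ?_
        simp only [add_sub_add_left_eq_sub])
    have t3 := t1.add t2
    rw [add_zero] at t3
    refine tendsto_of_tendsto_of_tendsto_of_le_of_le tendsto_const_nhds t3
      (fun _ => zero_le) fun i => ?_
    have e : (fun x => gradient (F i) x - (S (ψ x + g x - k) • gradient ζ x +
        ζ x • (deriv S (ψ x + g x - k) • (gradient ψ x + G x)))) =
        (fun x => S (ψ x + φ (ns i) x - k) • gradient ζ x -
          S (ψ x + g x - k) • gradient ζ x) +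
        fun x => (ζ x * deriv S (ψ x + φ (ns i) x - k)) • (gradient ψ x + gradient (φ (ns i)) x) -
          (ζ x * deriv S (ψ x + g x - k)) • (gradient ψ x + G x) := by
      funext x
      rw [hFg]
      simp only [Pi.add_apply, smul_smul]
      abel
    simp only
    rw [e]
    refine eLpNorm_add_le ?_ ?_ (one_le_q hp)
    · exact ((hmF i).smul hζg.1).sub (hm0.smul hζg.1)
    · exact ((hζ.smooth.continuous.aestronglyMeasurable.mul (hmF' i)).smul
        (hψg.add ((h3 (ns i)).memLp_gradient _)).1).sub (hmζ.smul (hψg.add h2).1)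

end Pool.Agent.H40.NP
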