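import Pool.Agent.H40.NQGrow

set_option autoImplicit false

open MeasureTheory Filter Topology Metric
open scoped ContDiff RealInnerProductSpace

namespace Pool.Agent.H40.NP

variable {n : ℕ} {p : ℝ} {w : E n → ℝ} {A : E n → E n → E n} {D Ω : Set (E n)}
  {μ : Measure (E n)}

theorem poinc_pair (hp : 1 < p) (hw : PAdmissible p w) : ∃ CP : ℝ, 0 < CP ∧
    ∀ (x0 : E n) (R : ℝ) (u : E n → ℝ) (U : E n → E n), 0 < R →
      BH p (wMeasure w) (ball x0 R) u U →
      ∫ y in ball x0 R, |u y - ((wMeasure w).real (ball x0 R))⁻¹ *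
        ∫ z in ball x0 R, u z ∂(wMeasure w)| ∂(wMeasure w) ≤
        CP * R * (wMeasure w).real (ball x0 R) * (((wMeasure w).real (ball x0 R))⁻¹ *
          ∫ y in ball x0 R, ‖U y‖ ^ p ∂(wMeasure w)) ^ (1 / p) := by
  obtain ⟨CP, hCP, hP⟩ := hw.poincare
  refine ⟨CP, hCP, ?_⟩
  intro x0 R u U hR hu
  have hp0 : 0 < p := by linarith
  set μ := wMeasure w with hμ
  have hfin := ball_fin hw x0 R
  set m := μ.real (ball x0 R) with hm
  have hm0 : 0 < m := ball_pos hw x0 hR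
  obtain ⟨φ, B, h1, h2, h3, h4, h5, h6⟩ := hu
  have hm1 : ∀ k, AEStronglyMeasurable (φ k) (μ.restrict (ball x0 R)) := fun k =>
    aesm_of_contDiffOn isOpen_ball (h1 k)
  have l1 : Tendsto (fun k => ∫ z in ball x0 R, φ k z ∂μ) atTop
      (𝓝 (∫ z in ball x0 R, u z ∂μ)) := by
    apply tendsto_integral_of_dominated_convergence (fun _ => B) hm1 (integrable_const _)
    · intro k
      exact ae_restrict_of_mem isOpen_ball fun x hx => h2 k x hx
    · exact h3
  have l1' := l1.const_mul m⁻¹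
  obtain ⟨K, hK⟩ : ∃ K, ∀ k, |m⁻¹ * ∫ z in ball x0 R, φ k z ∂μ| ≤ K := by
    obtain ⟨K, hK⟩ := (l1'.isBoundedUnder_le.bddAbove_range)
    obtain ⟨K', hK'⟩ := (l1'.isBoundedUnder_ge.bddBelow_range)
    refine ⟨max K (-K'), fun k => abs_le.2 ⟨?_, ?_⟩⟩
    · have := hK' ⟨k, rfl⟩
      simp only at this
      linarith [le_max_right K (-K')]
    · have := hK ⟨k, rfl⟩
      simp only at this
      linarith [le_max_left K (-K')]
  have l2 : Tendsto (fun k => ∫ y in ball x0 R, |φ k y - m⁻¹ * ∫ z in ball x0 R, φ k z ∂μ| ∂μ)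
      atTop (𝓝 (∫ y in ball x0 R, |u y - m⁻¹ * ∫ z in ball x0 R, u z ∂μ| ∂μ)) := by
    apply tendsto_integral_of_dominated_convergence (fun _ => B + K) _ (integrable_const _)
    · intro k
      refine ae_restrict_of_mem isOpen_ball fun x hx => ?_
      rw [Real.norm_of_nonneg (abs_nonneg _)]
      have := abs_sub (φ k x) (m⁻¹ * ∫ z in ball x0 R, φ k z ∂μ)
      linarith [h2 k x hx, hK k]
    · filter_upwards [h3] with x hx
      exact (hx.sub l1').abs
    · intro k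
      exact ((hm1 k).sub aestronglyMeasurable_const).norm
  have l3 := tendsto_integral_rpow hp h4 h5 h6
  have l4 := ((l3.const_mul m⁻¹).rpow_const (p := 1 / p) (Or.inr (by positivity))).const_mul
    (CP * R * m)
  refine le_of_tendsto_of_tendsto' l2 l4 fun k => ?_
  have h7 := hP x0 R (φ k) hR (h1 k) ⟨B, h2 k⟩ (h4 k)
  simp only [setAverage_eq, smul_eq_mul] at h7
  change m⁻¹ * (∫ y in ball x0 R, |φ k y - m⁻¹ * ∫ z in ball x0 R, φ k z ∂μ| ∂μ) ≤
    CP * R * (m⁻¹ * ∫ y in ball x0 R, ‖gradient (φ k) y‖ ^ p ∂μ) ^ (1 / p) at h7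
  calc (∫ y in ball x0 R, |φ k y - m⁻¹ * ∫ z in ball x0 R, φ k z ∂μ| ∂μ) =
      m * (m⁻¹ * ∫ y in ball x0 R, |φ k y - m⁻¹ * ∫ z in ball x0 R, φ k z ∂μ| ∂μ) :=
        (mul_inv_cancel_left₀ hm0.ne' _).symm
    _ ≤ m * (CP * R * (m⁻¹ * ∫ y in ball x0 R, ‖gradient (φ k) y‖ ^ p ∂μ) ^ (1 / p)) :=
        mul_le_mul_of_nonneg_left h7 hm0.le
    _ = _ := by ring

/-! ### Logarithms of supersolutions -/

/-- smooth positive function equal to `s + δ` for `s ≥ 0` -/
noncomputable def tf (δ s : ℝ) : ℝ := (s + δ) * gf (δ / 2) (s + δ) + (1 - gf (δ / 2) (s + δ))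

theorem tf_contDiff (δ : ℝ) : ContDiff ℝ ∞ (tf δ) := by
  have h1 : ContDiff ℝ ∞ fun s : ℝ => gf (δ / 2) (s + δ) :=
    (gf_contDiff _).comp (contDiff_id.add contDiff_const)
  exact ((contDiff_id.add contDiff_const).mul h1).add (contDiff_const.sub h1)

theorem tf_pos {δ : ℝ} (hδ : 0 < δ) (s : ℝ) : 0 < tf δ s := by
  unfold tf
  rcases le_or_gt (s + δ) 0 with h | h
  · rw [gf_zero (by positivity) h]; simp
  · have h1 := gf_nonneg (δ / 2) (s + δ)
    have h2 := gf_le_one (δ / 2) (s + δ)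
    rcases h1.eq_or_lt with h3 | h3
    · rw [← h3]; simp
    · have := mul_pos h h3
      linarith

theorem tf_eventually {δ s : ℝ} (hδ : 0 < δ) (hs : 0 ≤ s) : tf δ =ᶠ[𝓝 s] fun t => t + δ := by
  filter_upwards [Ioi_mem_nhds (show -(δ / 2) < s by linarith)] with t ht
  have ht' : -(δ / 2) < t := ht
  unfold tf
  rw [gf_one (by positivity) (by linarith)]
  ring

/-- `-log(s + δ)` -/
noncomputable def lf (δ s : ℝ) : ℝ := -Real.log (tf δ s)

theorem lf_contDiff {δ : ℝ} (hδ : 0 < δ) : ContDiff ℝ ∞ (lf δ) :=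
  ((tf_contDiff δ).log fun s => (tf_pos hδ s).ne').neg

theorem lf_eq {δ s : ℝ} (hδ : 0 < δ) (hs : 0 ≤ s) : lf δ s = -Real.log (s + δ) := by
  unfold lf; rw [(tf_eventually hδ hs).self_of_nhds]

theorem lf_deriv {δ s : ℝ} (hδ : 0 < δ) (hs : 0 ≤ s) : deriv (lf δ) s = -(s + δ)⁻¹ := by
  have h1 : lf δ =ᶠ[𝓝 s] fun t => -Real.log (t + δ) := by
    filter_upwards [tf_eventually hδ hs] with t ht
    unfold lf; rw [ht]
  rw [h1.deriv_eq]
  have h2 : HasDerivAt (fun t : ℝ => t + δ) 1 s := (hasDerivAt_id s).add_const δ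
  have h3 := (h2.log (by positivity)).neg
  have h4 : deriv (fun t => -Real.log (t + δ)) s = -(1 / (s + δ)) := h3.deriv
  rw [h4, one_div]

/-- `(s + δ)^{1-p}` -/
noncomputable def sf (p δ s : ℝ) : ℝ := tf δ s ^ (1 - p)

theorem sf_contDiff {δ : ℝ} (hδ : 0 < δ) : ContDiff ℝ ∞ (sf p δ) :=
  (tf_contDiff δ).rpow_const_of_ne fun s => (tf_pos hδ s).ne'

theorem sf_nonneg {δ : ℝ} (hδ : 0 < δ) (s : ℝ) : 0 ≤ sf p δ s :=
  Real.rpow_nonneg (tf_pos hδ s).le _

theorem sf_eq {δ s : ℝ} (hδ : 0 < δ) (hs : 0 ≤ s) : sf p δ s = (s + δ) ^ (1 - p) := by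
  unfold sf; rw [(tf_eventually hδ hs).self_of_nhds]

theorem sf_deriv {δ s : ℝ} (hδ : 0 < δ) (hs : 0 ≤ s) :
    deriv (sf p δ) s = (1 - p) * (s + δ) ^ (-p) := by
  have h1 : sf p δ =ᶠ[𝓝 s] fun t => (t + δ) ^ (1 - p) := by
    filter_upwards [tf_eventually hδ hs] with t ht
    unfold sf; rw [ht]
  rw [h1.deriv_eq]
  have h2 : HasDerivAt (fun t : ℝ => t + δ) 1 s := (hasDerivAt_id s).add_const δ
  have h3 := h2.rpow_const (p := 1 - p) (Or.inl (by positivity))
  rw [h3.deriv, one_mul]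
  congr 2; ring

theorem fld_hom (hA : AOperator p w A) :
    ∀ᵐ x ∂(wMeasure w), ∀ (ξ : E n) (l : ℝ), l ≠ 0 →
      (w x)⁻¹ • A x (l • ξ) = (l * |l| ^ (p - 2)) • ((w x)⁻¹ • A x ξ) := by
  apply wMeasure_ac.ae_le
  filter_upwards [hA.hom] with x hx ξ l hl
  rw [hx ξ l hl, smul_comm]

/-- data on the logarithm of a nonnegative supersolution -/
theorem log_sub (hp : 1 < p) (hw : PAdmissible p w) (hA : AOperator p w A) {j : ℕ}
    (hj : p ≤ 2 * j + 2) : ∃ C5 : ℝ, 0 < C5 ∧ ∀ (D : Set (E n)), IsOpen D →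
      IsFiniteMeasure ((wMeasure w).restrict D) → ∀ (u : E n → ℝ) (U : E n → E n),
      SupSol p w A D u U → (∀ᵐ x ∂((wMeasure w).restrict D), 0 ≤ u x) → ∀ δ : ℝ, 0 < δ →
      SubSol p w A D (fun x => lf δ (u x)) (fun x => deriv (lf δ) (u x) • U x) ∧
      ∀ ζ : E n → ℝ, Cut D ζ → (∀ x, 0 ≤ ζ x ∧ ζ x ≤ 1) →
        ∫ x in D, ζ x ^ (2 * j + 2) * ‖deriv (lf δ) (u x) • U x‖ ^ p ∂(wMeasure w) ≤
          C5 * ∫ x in D, ‖gradient ζ x‖ ^ p ∂(wMeasure w) := by
  have hloc := locFinite hw.locallyIntegrable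
  obtain ⟨α, β, hα, hαβ, hst⟩ := struct hA hw.pos
  have hβ : 0 < β := lt_of_lt_of_le hα hαβ
  have hp0 : 0 < p := by linarith
  have hp1 : 0 < p - 1 := by linarith
  obtain ⟨η, hη⟩ : ∃ η, η = α / (2 * (2 * (j:ℝ) + 2) * β) := ⟨_, rfl⟩
  have hη0 : 0 < η := by rw [hη]; positivity
  set C0 : ℝ := (2 * j + 2) * β * η ^ (1 - p) with hC0
  have hC00 : 0 < C0 := by positivity
  refine ⟨2 / α * C0 * (1 / (p - 1)) ^ p, by positivity, ?_⟩
  intro D hD hfin u U hu hu0 δ hδ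
  set μ := wMeasure w with hμ
  have hVB : BH p μ D (fun x => lf δ (u x)) (fun x => deriv (lf δ) (u x) • U x) :=
    hu.1.comp hp hD (lf_contDiff hδ)
  have hSB : BH p μ D (fun x => sf p δ (u x)) (fun x => deriv (sf p δ) (u x) • U x) :=
    hu.1.comp hp hD (sf_contDiff hδ)
  obtain ⟨V, hV⟩ : ∃ V : E n → E n, V = fun x => deriv (lf δ) (u x) • U x := ⟨_, rfl⟩
  rw [← hV] at hVB
  -- relation between the fields
  have hfV : ∀ᵐ x ∂(μ.restrict D), fld w A V x = -(((u x + δ) ^ (1 - p)) • fld w A U x) := by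
    filter_upwards [hu0, ae_restrict_of_ae (fld_hom hA)] with x hx hh
    have hpos : 0 < u x + δ := by linarith
    unfold fld
    rw [hV]
    simp only
    rw [lf_deriv hδ hx, hh (U x) _ (neg_ne_zero.2 (inv_ne_zero hpos.ne')), ← neg_smul]
    congr 1
    rw [abs_neg, abs_of_pos (inv_pos.2 hpos), Real.inv_rpow hpos.le, ← Real.rpow_neg hpos.le,
      ← Real.rpow_neg_one, neg_mul, ← Real.rpow_add hpos]
    congr 2; ring
  have hinner : ∀ᵐ x ∂(μ.restrict D), ⟪fld w A V x, V x⟫ =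
      (u x + δ) ^ (-p) * ⟪fld w A U x, U x⟫ := by
    filter_upwards [hu0, hfV] with x hx hf
    have hpos : 0 < u x + δ := by linarith
    rw [hf, hV]
    simp only
    rw [lf_deriv hδ hx, inner_neg_left, real_inner_smul_left, real_inner_smul_right]
    have : (u x + δ) ^ (1 - p) * (u x + δ)⁻¹ = (u x + δ) ^ (-p) := by
      rw [← Real.rpow_neg_one, ← Real.rpow_add hpos]
      congr 1; ring
    rw [← this]; ring
  -- the basic inequality
  have hfU := fld_memLp hp hw.locallyIntegrable hA hw.pos hu.1.inL_grad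
  have hfVL := fld_memLp hp hw.locallyIntegrable hA hw.pos hVB.inL_grad
  have hbasic : ∀ χ : E n → ℝ, Cut D χ → (∀ x, 0 ≤ χ x) →
      ∫ x in D, ⟪fld w A V x, gradient χ x + ((p - 1) * χ x) • V x⟫ ∂μ ≤ 0 := by
    intro χ hχ hχ0
    have ht := hu.test hp hw hA hD hSB (Eventually.of_forall fun x => sf_nonneg hδ _) hχ hχ0
    have e : ∫ x in D, ⟪fld w A U x, sf p δ (u x) • gradient χ x + χ x •
        (deriv (sf p δ) (u x) • U x)⟫ ∂μ =
        -∫ x in D, ⟪fld w A V x, gradient χ x + ((p - 1) * χ x) • V x⟫ ∂μ := by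
      rw [← integral_neg]
      apply integral_congr_ae
      filter_upwards [hu0, hfV, hinner] with x hx hf hi
      rw [inner_add_right, inner_add_right, real_inner_smul_right, real_inner_smul_right,
        real_inner_smul_right, real_inner_smul_right, hi, hf, inner_neg_left,
        real_inner_smul_left, sf_eq hδ hx, sf_deriv hδ hx]
      ring
    rw [e] at ht
    linarith
  have hgL : ∀ χ : E n → ℝ, Cut D χ → MemLp (gradient χ) (ENNReal.ofReal p) (μ.restrict D) := by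
    intro χ hχ
    obtain ⟨C', hχb⟩ := hχ.bhs (p := p) (μ := μ)
    exact hχb.2.2.2.2.1
  have hχV : ∀ (c : ℝ) (χ : E n → ℝ), Cut D χ →
      MemLp (fun x => (c * χ x) • V x) (ENNReal.ofReal p) (μ.restrict D) := by
    intro c χ hχ
    obtain ⟨B, hB⟩ := hχ.cpt.exists_bound_of_continuous hχ.smooth.continuous
    apply memLp_bdd_smul (C := |c| * B)
      ((hχ.smooth.continuous.aestronglyMeasurable).const_mul c) _ hVB.inL_grad
    refine Eventually.of_forall fun x => ?_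
    rw [abs_mul]
    exact mul_le_mul_of_nonneg_left (hB x) (abs_nonneg _)
  refine ⟨⟨by rw [← hV]; exact hVB, ?_⟩, ?_⟩
  · intro ζ hζ hζ0
    rw [← hV]
    have h1 := hbasic ζ hζ hζ0
    have i1 := integrable_inner hp hfVL (hgL ζ hζ)
    have i2 := integrable_inner hp hfVL (hχV (p - 1) ζ hζ)
    have e : ∫ x in D, ⟪fld w A V x, gradient ζ x + ((p - 1) * ζ x) • V x⟫ ∂μ =
        (∫ x in D, ⟪fld w A V x, gradient ζ x⟫ ∂μ) +
          ∫ x in D, ⟪fld w A V x, ((p - 1) * ζ x) • V x⟫ ∂μ := by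
      rw [← integral_add i1 i2]
      apply integral_congr_ae
      exact Eventually.of_forall fun x => inner_add_right _ _ _
    have h2 : 0 ≤ ∫ x in D, ⟪fld w A V x, ((p - 1) * ζ x) • V x⟫ ∂μ := by
      apply integral_nonneg_of_ae
      filter_upwards [ae_restrict_of_ae hst] with x hx
      change 0 ≤ ⟪fld w A V x, ((p - 1) * ζ x) • V x⟫
      rw [real_inner_smul_right]
      have h3 := (hx (V x)).1
      have h4 : 0 ≤ ⟪fld w A V x, V x⟫ := le_trans (by positivity) h3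
      have := hζ0 x
      positivity
    rw [e] at h1
    linarith
  · intro ζ hζ hζ01
    have hχ : Cut D (fun x => ζ x ^ (2 * j + 2)) := hζ.pow (2 * j + 1)
    have hgχ : ∀ x, gradient (fun x => ζ x ^ (2 * j + 2)) x =
        ((2 * j + 2 : ℝ) * ζ x ^ (2 * j + 1)) • gradient ζ x := by
      intro x
      rw [hζ.gradient_pow (2 * j + 1) x]
      congr 2
      push_cast; ring
    have h1 := hbasic _ hχ (fun x => pow_nonneg (hζ01 x).1 _)
    simp only [hgχ] at h1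
    have hVx : ∀ x, deriv (lf δ) (u x) • U x = V x := fun x => by rw [hV]
    simp only [hVx]
    have iX := integrable_rpow hp hVB.inL_grad
    have i1 : Integrable (fun x => ζ x ^ (2 * j + 2) * ‖V x‖ ^ p) (μ.restrict D) := by
      apply iX.bdd_mul (c := 1) (hχ.smooth.continuous.aestronglyMeasurable)
      refine Eventually.of_forall fun x => ?_
      rw [Real.norm_of_nonneg (pow_nonneg (hζ01 x).1 _)]
      exact pow_le_one₀ (hζ01 x).1 (hζ01 x).2
    have i2 := integrable_rpow hp (hgL ζ hζ)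
    have i3 : Integrable (fun x => ⟪fld w A V x, ((2 * j + 2 : ℝ) * ζ x ^ (2 * j + 1)) •
        gradient ζ x + ((p - 1) * ζ x ^ (2 * j + 2)) • V x⟫) (μ.restrict D) := by
      apply integrable_inner hp hfVL
      have h2 := hgL _ hχ
      have h3 : MemLp (fun x => ((2 * j + 2 : ℝ) * ζ x ^ (2 * j + 1)) • gradient ζ x)
          (ENNReal.ofReal p) (μ.restrict D) := by
        refine h2.ae_eq (Eventually.of_forall fun x => hgχ x)
      exact h3.add (hχV (p - 1) _ hχ)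
    have hpt : ∀ᵐ x ∂(μ.restrict D), (p - 1) * (α / 2 * (ζ x ^ (2 * j + 2) * ‖V x‖ ^ p) -
        C0 * ((1 / (p - 1)) ^ p * ‖gradient ζ x‖ ^ p)) ≤
        ⟪fld w A V x, ((2 * j + 2 : ℝ) * ζ x ^ (2 * j + 1)) •
        gradient ζ x + ((p - 1) * ζ x ^ (2 * j + 2)) • V x⟫ := by
      filter_upwards [ae_restrict_of_ae hst] with x hx
      have h2 := cacc_point (s := 1 / (p - 1)) (z := ζ x) (N := gradient ζ x) (j := j) hp hj hα hβ hη
        (by positivity) (hζ01 x).1 (hζ01 x).2 (hx (V x)).1 (hx (V x)).2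
      have h3 := mul_le_mul_of_nonneg_left h2 hp1.le
      refine h3.trans (le_of_eq ?_)
      change (p - 1) * ⟪fld w A V x, _⟫ = _
      rw [← real_inner_smul_right, smul_add, smul_smul, smul_smul, smul_smul]
      congr 2
      congr 1
      field_simp
    have hint := (integral_mono_ae (((i1.const_mul (α / 2)).sub
      ((i2.const_mul ((1 / (p - 1)) ^ p)).const_mul C0)).const_mul (p - 1)) i3 hpt).trans h1
    have e0 : ∫ x in D, (p - 1) * (α / 2 * (ζ x ^ (2 * j + 2) * ‖V x‖ ^ p) -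
        C0 * ((1 / (p - 1)) ^ p * ‖gradient ζ x‖ ^ p)) ∂μ =
        (p - 1) * (α / 2 * (∫ x in D, ζ x ^ (2 * j + 2) * ‖V x‖ ^ p ∂μ) -
        C0 * ((1 / (p - 1)) ^ p * ∫ x in D, ‖gradient ζ x‖ ^ p ∂μ)) := by
      rw [integral_const_mul, integral_sub (i1.const_mul (α / 2))
        ((i2.const_mul ((1 / (p - 1)) ^ p)).const_mul C0), integral_const_mul,
        integral_const_mul, integral_const_mul]
    have hint' : (p - 1) * (α / 2 * (∫ x in D, ζ x ^ (2 * j + 2) * ‖V x‖ ^ p ∂μ) -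
        C0 * ((1 / (p - 1)) ^ p * ∫ x in D, ‖gradient ζ x‖ ^ p ∂μ)) ≤ 0 :=
      (le_of_eq e0.symm).trans hint
    have h5 : α / 2 * (∫ x in D, ζ x ^ (2 * j + 2) * ‖V x‖ ^ p ∂μ) ≤
        C0 * ((1 / (p - 1)) ^ p * ∫ x in D, ‖gradient ζ x‖ ^ p ∂μ) := by
      by_contra hcon
      have : 0 < (p - 1) * (α / 2 * (∫ x in D, ζ x ^ (2 * j + 2) * ‖V x‖ ^ p ∂μ) -
        C0 * ((1 / (p - 1)) ^ p * ∫ x in D, ‖gradient ζ x‖ ^ p ∂μ)) :=
        mul_pos hp1 (by linarith)
      linarith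
    calc (∫ x in D, ζ x ^ (2 * j + 2) * ‖V x‖ ^ p ∂μ) =
        2 / α * (α / 2 * (∫ x in D, ζ x ^ (2 * j + 2) * ‖V x‖ ^ p ∂μ)) := by field_simp
      _ ≤ 2 / α * (C0 * ((1 / (p - 1)) ^ p * ∫ x in D, ‖gradient ζ x‖ ^ p ∂μ)) :=
          mul_le_mul_of_nonneg_left h5 (by positivity)
      _ = _ := by ring

end Pool.Agent.H40.NP
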