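import Pool.Agent.H40.NQEx

set_option autoImplicit false

open MeasureTheory Filter Topology Metric
open scoped ContDiff RealInnerProductSpace

namespace Pool.Agent.H40.NP

variable {n : ℕ} {p : ℝ} {w : E n → ℝ} {A : E n → E n → E n} {D Ω : Set (E n)}
  {μ : Measure (E n)}

/-- `g ∈ H_0^{1,p}(D; μ)` with gradient `G` -/
def H0 (p : ℝ) (μ : Measure (E n)) (D : Set (E n)) (g : E n → ℝ) (G : E n → E n) : Prop :=
  MemLp g (ENNReal.ofReal p) μ ∧ MemLp G (ENNReal.ofReal p) μ ∧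
    ∃ φ : ℕ → E n → ℝ, (∀ k, Cut D (φ k)) ∧
      Tendsto (fun k => eLpNorm (fun x => φ k x - g x) (ENNReal.ofReal p) μ) atTop (𝓝 0) ∧
      Tendsto (fun k => eLpNorm (fun x => gradient (φ k) x - G x) (ENNReal.ofReal p) μ) atTop
        (𝓝 0)

/-- variational inequality in the space `H_0^{1,p}(D)` -/
theorem exists_vi (hp : 1 < p) (hw : PAdmissible p w) (hA : AOperator p w A) (hD : IsOpen D)
    (hDb : Bornology.IsBounded D) {Ψ : E n → E n}
    (hΨ : MemLp Ψ (ENNReal.ofReal p) ((wMeasure w).restrict D))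
    [Fact (1 ≤ ENNReal.ofReal p)] :
    ∃ x ∈ (SS p D ((wMeasure w).restrict D)).topologicalClosure, 0 ≤ x.1 ∧
      ∀ z ∈ (SS p D ((wMeasure w).restrict D)).topologicalClosure, 0 ≤ z.1 →
      0 ≤ ∫ a in D, ⟪fld w A (fun a => Ψ a + x.2 a) a, z.2 a - x.2 a⟫ ∂(wMeasure w) := by
  have hloc := locFinite hw.locallyIntegrable
  have hp0 : 0 < p := by linarith
  obtain ⟨α, β, hα, hαβ, hst⟩ := struct hA hw.pos
  have hβ : 0 < β := lt_of_lt_of_le hα hαβ
  obtain ⟨R, hR, hDR⟩ := hDb.subset_ball_lt 0 0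
  obtain ⟨CF, hCF, hF⟩ := fried_closure hp hw (0 : E n) hR
  have hF' := hF D hDR
  set μ := wMeasure w with hμ
  obtain ⟨HH, hHH⟩ : ∃ HH, HH = (SS p D (μ.restrict D)).topologicalClosure := ⟨_, rfl⟩
  rw [← hHH] at hF' ⊢
  let K : Set (Lp ℝ (ENNReal.ofReal p) (μ.restrict D) × Lp (E n) (ENNReal.ofReal p)
    (μ.restrict D)) := {x | x ∈ HH ∧ 0 ≤ x.1}
  let T : (Lp ℝ (ENNReal.ofReal p) (μ.restrict D) × Lp (E n) (ENNReal.ofReal p)
    (μ.restrict D)) → (Lp ℝ (ENNReal.ofReal p) (μ.restrict D) × Lp (E n) (ENNReal.ofReal p)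
    (μ.restrict D)) → ℝ := fun x z =>
      ∫ a in D, ⟪fld w A (fun a => Ψ a + x.2 a) a, z.2 a⟫ ∂μ
  have hfL : ∀ x : Lp ℝ (ENNReal.ofReal p) (μ.restrict D) × Lp (E n) (ENNReal.ofReal p)
      (μ.restrict D), MemLp (fld w A (fun a => Ψ a + x.2 a)) (ENNReal.ofReal (p / (p - 1)))
      (μ.restrict D) := fun x =>
    fld_memLp hp hw.locallyIntegrable hA hw.pos (hΨ.add (Lp.memLp x.2))
  have hTint : ∀ x z : Lp ℝ (ENNReal.ofReal p) (μ.restrict D) × Lp (E n) (ENNReal.ofReal p)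
      (μ.restrict D), Integrable (fun a => ⟪fld w A (fun a => Ψ a + x.2 a) a, z.2 a⟫)
      (μ.restrict D) := fun x z => integrable_inner hp (hfL x) (Lp.memLp z.2)
  have hTsub : ∀ x y z : Lp ℝ (ENNReal.ofReal p) (μ.restrict D) × Lp (E n) (ENNReal.ofReal p)
      (μ.restrict D), T x (y - z) =
        ∫ a in D, ⟪fld w A (fun a => Ψ a + x.2 a) a, y.2 a - z.2 a⟫ ∂μ := by
    intro x y z
    apply integral_congr_ae
    filter_upwards [Lp.coeFn_sub y.2 z.2] with a ha
    rw [Prod.snd_sub, ha]; rfl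
  -- constants for the coercivity
  obtain ⟨B0, hB0⟩ : ∃ B0, B0 = ∫ a in D, ‖Ψ a‖ ^ p ∂μ := ⟨_, rfl⟩
  have hB00 : 0 ≤ B0 := by rw [hB0]; exact integral_nonneg fun a => by positivity
  obtain ⟨c0, hc0⟩ : ∃ c0, c0 = β * (α / (2 * β)) ^ (1 - p) := ⟨_, rfl⟩
  have hc00 : 0 < c0 := by rw [hc0]; positivity
  obtain ⟨B2, hB2⟩ : ∃ B2, B2 = 2 ^ p * (2 * c0 / α * B0 + B0) := ⟨_, rfl⟩
  have hB20 : 0 ≤ B2 := by rw [hB2]; positivity
  obtain ⟨κ, hκ⟩ : ∃ κ, κ = max CF 1 := ⟨_, rfl⟩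
  have hκ1 : 1 ≤ κ := by rw [hκ]; exact le_max_right _ _
  have hκC : CF ≤ κ := by rw [hκ]; exact le_max_left _ _
  have hnorm : ∀ x ∈ HH, ‖x‖ ≤ κ * ‖x.2‖ := by
    intro x hx
    rw [Prod.norm_def]
    apply max_le
    · exact (hF' x hx).trans (mul_le_mul_of_nonneg_right hκC (norm_nonneg _))
    · exact le_mul_of_one_le_left (norm_nonneg _) hκ1
  have hmain : ∃ x ∈ K, ∀ z ∈ K, 0 ≤ T x (z - x) := by
    refine minty_vi (N := fun x => ‖x.2‖ ^ p) (H := (HH : Set _)) (fun x => by positivity)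
      (fun η hη M => uc_closure hp HH hF' η hη M) (K := K) ?_ ?_ ?_ (fun x hx => hx.1) ?_ T
      ?_ ?_ ?_ ?_ (R := κ * B2 ^ (1 / p) + 1) ?_ ?_
    · -- closed
      have h1 : IsClosed (HH : Set (Lp ℝ (ENNReal.ofReal p) (μ.restrict D) ×
          Lp (E n) (ENNReal.ofReal p) (μ.restrict D))) := by
        rw [hHH]; exact Submodule.isClosed_topologicalClosure _
      have h2 : IsClosed {y : Lp ℝ (ENNReal.ofReal p) (μ.restrict D) | 0 ≤ y} := isClosed_nonneg
      exact h1.inter (h2.preimage continuous_fst)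
    · -- convex
      intro x hx y hy s t hs ht _
      refine ⟨HH.add_mem (HH.smul_mem s hx.1) (HH.smul_mem t hy.1), ?_⟩
      have h1 : 0 ≤ᵐ[μ.restrict D] x.1 := (Lp.coeFn_nonneg _).2 hx.2
      have h2 : 0 ≤ᵐ[μ.restrict D] y.1 := (Lp.coeFn_nonneg _).2 hy.2
      rw [← Lp.coeFn_nonneg]
      filter_upwards [h1, h2, Lp.coeFn_add (s • x.1) (t • y.1), Lp.coeFn_smul s x.1,
        Lp.coeFn_smul t y.1] with a ha hb hc hd he
      change (0:ℝ) ≤ (s • x.1 + t • y.1 : Lp ℝ (ENNReal.ofReal p) (μ.restrict D)) a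
      rw [hc, Pi.add_apply, hd, he, Pi.smul_apply, Pi.smul_apply, smul_eq_mul, smul_eq_mul]
      exact add_nonneg (mul_nonneg hs ha) (mul_nonneg ht hb)
    · exact ⟨HH.zero_mem, le_refl _⟩
    · -- boundedness
      intro R'
      refine ⟨|R'| ^ p, fun x _ hx => ?_⟩
      apply Real.rpow_le_rpow (norm_nonneg _) _ hp0.le
      exact (norm_snd_le x).trans (hx.trans (le_abs_self _))
    · -- linearity
      intro x _ s t y z
      change (∫ a in D, ⟪fld w A (fun a => Ψ a + x.2 a) a, (s • y + t • z).2 a⟫ ∂μ) =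
        s * (∫ a in D, ⟪fld w A (fun a => Ψ a + x.2 a) a, y.2 a⟫ ∂μ) +
        t * (∫ a in D, ⟪fld w A (fun a => Ψ a + x.2 a) a, z.2 a⟫ ∂μ)
      rw [← integral_const_mul, ← integral_const_mul,
        ← integral_add ((hTint x y).const_mul s) ((hTint x z).const_mul t)]
      apply integral_congr_ae
      filter_upwards [Lp.coeFn_add (s • y.2) (t • z.2), Lp.coeFn_smul s y.2,
        Lp.coeFn_smul t z.2] with a ha hb hc
      rw [Prod.snd_add, Prod.smul_snd, Prod.smul_snd, ha, Pi.add_apply, hb, hc, Pi.smul_apply,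
        Pi.smul_apply, inner_add_right, real_inner_smul_right, real_inner_smul_right]
    · -- continuity
      intro x _
      rw [continuous_iff_seqContinuous]
      intro z z0 hz
      have h1 : Tendsto (fun k => (z k).2) atTop (𝓝 z0.2) :=
        (continuous_snd.tendsto z0).comp hz
      rw [Lp.tendsto_Lp_iff_tendsto_eLpNorm'] at h1
      exact tendsto_integral_inner hp (hfL x) (fun k => Lp.memLp (z k).2) (Lp.memLp z0.2) h1
    · -- monotonicity
      intro x _ y _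
      rw [hTsub, hTsub, ← integral_add]
      · apply integral_nonneg_of_ae
        filter_upwards [ae_restrict_of_ae (fld_mono hA hw.pos)] with a ha
        have h1 := ha (Ψ a + x.2 a) (Ψ a + y.2 a)
        change 0 ≤ ⟪(w a)⁻¹ • A a (Ψ a + x.2 a), x.2 a - y.2 a⟫ +
          ⟪(w a)⁻¹ • A a (Ψ a + y.2 a), y.2 a - x.2 a⟫
        rw [add_sub_add_left_eq_sub, inner_sub_left] at h1
        rw [← neg_sub (x.2 a) (y.2 a), inner_neg_right]
        linarith
      · exact integrable_inner hp (hfL x) ((Lp.memLp x.2).sub (Lp.memLp y.2))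
      · exact integrable_inner hp (hfL y) ((Lp.memLp y.2).sub (Lp.memLp x.2))
    · -- hemicontinuity
      intro x _ z _
      have h1 := fld_hemi hp hw hA (D := D) (X := fun a => Ψ a + x.2 a) (Y := (z - x).2)
        (Z := (z - x).2) (hΨ.add (Lp.memLp x.2)) (Lp.memLp _) (Lp.memLp _)
      refine h1.congr fun k => ?_
      apply integral_congr_ae
      filter_upwards [Lp.coeFn_add x.2 ((1 / ((k:ℝ) + 1)) • (z - x).2),
        Lp.coeFn_smul (1 / ((k:ℝ) + 1)) (z - x).2] with a ha hb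
      unfold fld
      simp only
      rw [Prod.snd_add, Prod.smul_snd, ha, Pi.add_apply, hb, Pi.smul_apply, add_assoc]
    · positivity
    · -- coercivity
      intro x hx hTx
      have h1 := integrable_rpow' hp (hΨ.add (Lp.memLp x.2))
      have h1' : Integrable (fun a => ‖Ψ a + x.2 a‖ ^ p) (μ.restrict D) := h1
      have h2 := integrable_rpow' hp hΨ
      have h3 : ∀ᵐ a ∂(μ.restrict D), α / 2 * ‖Ψ a + x.2 a‖ ^ p - c0 * ‖Ψ a‖ ^ p ≤
          ⟪fld w A (fun a => Ψ a + x.2 a) a, x.2 a⟫ := by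
        filter_upwards [ae_restrict_of_ae hst] with a ha
        have h4 := coer_point (P := Ψ a) hp hα hβ (ha (Ψ a + x.2 a)).1 (ha (Ψ a + x.2 a)).2
        rw [← hc0, add_sub_cancel_left] at h4
        exact h4
      have h4 := (integral_mono_ae ((h1'.const_mul (α / 2)).sub (h2.const_mul c0))
        (hTint x x) h3).trans hTx
      have h5 : ∫ a in D, (α / 2 * ‖Ψ a + x.2 a‖ ^ p - c0 * ‖Ψ a‖ ^ p) ∂μ =
          α / 2 * (∫ a in D, ‖Ψ a + x.2 a‖ ^ p ∂μ) - c0 * B0 := by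
        rw [integral_sub (h1'.const_mul (α / 2)) (h2.const_mul c0), integral_const_mul,
          integral_const_mul, ← hB0]
      have h6 : ∫ a in D, ‖Ψ a + x.2 a‖ ^ p ∂μ ≤ 2 * c0 / α * B0 := by
        have h7 : α / 2 * (∫ a in D, ‖Ψ a + x.2 a‖ ^ p ∂μ) - c0 * B0 ≤ 0 :=
          (le_of_eq h5.symm).trans h4
        calc ∫ a in D, ‖Ψ a + x.2 a‖ ^ p ∂μ =
            2 / α * (α / 2 * ∫ a in D, ‖Ψ a + x.2 a‖ ^ p ∂μ) := by field_simp
          _ ≤ 2 / α * (c0 * B0) := mul_le_mul_of_nonneg_left (by linarith) (by positivity)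
          _ = _ := by ring
      have h7 : ‖x.2‖ ^ p ≤ B2 := by
        rw [Lp_norm_rpow hp]
        have i1 := integrable_rpow' hp (Lp.memLp x.2)
        calc ∫ a in D, ‖x.2 a‖ ^ p ∂μ ≤
            ∫ a in D, 2 ^ p * (‖Ψ a + x.2 a‖ ^ p + ‖Ψ a‖ ^ p) ∂μ := by
              apply integral_mono i1 ((h1'.add h2).const_mul _)
              intro a
              have h8 : ‖x.2 a‖ ≤ ‖Ψ a + x.2 a‖ + ‖Ψ a‖ := by
                calc ‖x.2 a‖ = ‖(Ψ a + x.2 a) - Ψ a‖ := by rw [add_sub_cancel_left]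
                  _ ≤ _ := norm_sub_le _ _
              exact (Real.rpow_le_rpow (norm_nonneg _) h8 hp0.le).trans
                (two_rpow hp (norm_nonneg _) (norm_nonneg _))
          _ = 2 ^ p * ((∫ a in D, ‖Ψ a + x.2 a‖ ^ p ∂μ) + B0) := by
              rw [integral_const_mul, integral_add h1' h2, ← hB0]
          _ ≤ B2 := by
              rw [hB2]
              apply mul_le_mul_of_nonneg_left _ (by positivity)
              linarith
      have h8 : ‖x.2‖ ≤ B2 ^ (1 / p) := by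
        have h9 := Real.rpow_le_rpow (by positivity) h7 (show 0 ≤ 1 / p by positivity)
        rwa [← Real.rpow_mul (norm_nonneg _), mul_one_div_cancel hp0.ne', Real.rpow_one] at h9
      have h9 := (hnorm x hx.1).trans (mul_le_mul_of_nonneg_left h8 (by linarith))
      linarith
  obtain ⟨x, hx, hxz⟩ := hmain
  refine ⟨x, hx.1, hx.2, fun z hz hz0 => ?_⟩
  have h1 := hxz z ⟨hz, hz0⟩
  rwa [hTsub] at h1

end Pool.Agent.H40.NP
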