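import Pool.Agent.H40.NQH0

set_option autoImplicit false

open MeasureTheory Filter Topology Metric
open scoped ContDiff RealInnerProductSpace

namespace Pool.Agent.H40.NP

variable {n : ℕ} {p : ℝ} {w : E n → ℝ} {A : E n → E n → E n} {D Ω : Set (E n)}
  {μ : Measure (E n)}

/-- `ψ + g` solves the obstacle problem in `D` with obstacle and boundary values `ψ` -/
structure Obst (p : ℝ) (w : E n → ℝ) (A : E n → E n → E n) (D : Set (E n)) (ψ g : E n → ℝ)
    (G : E n → E n) : Prop where
  h0 : H0 p (wMeasure w) D g G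
  nonneg : ∀ᵐ x ∂(wMeasure w), 0 ≤ g x
  off : ∀ x, x ∉ D → g x = 0
  off' : ∀ x, x ∉ D → G x = 0
  vi : ∀ g' G', H0 p (wMeasure w) D g' G' → (∀ᵐ x ∂(wMeasure w), 0 ≤ g' x) →
    0 ≤ ∫ x in D, ⟪fld w A (fun x => gradient ψ x + G x) x, G' x - G x⟫ ∂(wMeasure w)

theorem exists_obst (hp : 1 < p) (hw : PAdmissible p w) (hA : AOperator p w A) (hD : IsOpen D)
    (hDb : Bornology.IsBounded D) {ψ : E n → ℝ} (hψ : Cut Set.univ ψ) :
    ∃ g G, Obst p w A D ψ g G := by
  have hloc := locFinite hw.locallyIntegrable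
  have hfact : Fact (1 ≤ ENNReal.ofReal p) := ⟨one_le_q hp⟩
  have hvi' := exists_vi hp hw hA hD hDb
    ((hψ.memLp_gradient (ν := wMeasure w) (ENNReal.ofReal p)).restrict D)
  set μ := wMeasure w with hμ
  obtain ⟨x, hx, hx0, hvi⟩ := hvi'
  have hDm : MeasurableSet D := hD.measurableSet
  have hg : MemLp (D.indicator x.1) (ENNReal.ofReal p) μ :=
    (memLp_indicator_iff_restrict hDm).2 (Lp.memLp x.1)
  have hG : MemLp (D.indicator x.2) (ENNReal.ofReal p) μ :=
    (memLp_indicator_iff_restrict hDm).2 (Lp.memLp x.2)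
  have hx' : x ∈ closure ((SS p D (μ.restrict D) : Submodule ℝ _) :
    Set (Lp ℝ (ENNReal.ofReal p) (μ.restrict D) × Lp (E n) (ENNReal.ofReal p)
      (μ.restrict D))) := hx
  rw [mem_closure_iff_seq_limit] at hx'
  obtain ⟨y, hy, hyx⟩ := hx'
  choose φ h1 h2 h3 using hy
  have hφoff : ∀ k, ∀ a ∉ D, φ k a = 0 := fun k a ha =>
    image_eq_zero_of_notMem_tsupport fun h => ha ((h1 k).supp h)
  have hφoff' : ∀ k, ∀ a ∉ D, gradient (φ k) a = 0 := fun k a ha =>
    gradient_eq_zero_of_notMem fun h => ha ((h1 k).supp h)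
  refine ⟨D.indicator x.1, D.indicator x.2, ⟨hg, hG, φ, h1, ?_, ?_⟩, ?_, ?_, ?_, ?_⟩
  · have t : Tendsto (fun k => (y k).1) atTop (𝓝 x.1) := (continuous_fst.tendsto x).comp hyx
    rw [Lp.tendsto_Lp_iff_tendsto_eLpNorm'] at t
    refine t.congr fun k => ?_
    have e : (fun a => φ k a - D.indicator x.1 a) = D.indicator fun a => φ k a - x.1 a := by
      funext a
      by_cases ha : a ∈ D
      · simp [ha]
      · simp [ha, hφoff k a ha]
    rw [e, eLpNorm_indicator_eq_eLpNorm_restrict hDm]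
    apply eLpNorm_congr_ae
    filter_upwards [h2 k] with a ha
    simp [ha]
  · have t : Tendsto (fun k => (y k).2) atTop (𝓝 x.2) := (continuous_snd.tendsto x).comp hyx
    rw [Lp.tendsto_Lp_iff_tendsto_eLpNorm'] at t
    refine t.congr fun k => ?_
    have e : (fun a => gradient (φ k) a - D.indicator x.2 a) =
        D.indicator fun a => gradient (φ k) a - x.2 a := by
      funext a
      by_cases ha : a ∈ D
      · simp [ha]
      · simp [ha, hφoff' k a ha]
    rw [e, eLpNorm_indicator_eq_eLpNorm_restrict hDm]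
    apply eLpNorm_congr_ae
    filter_upwards [h3 k] with a ha
    simp [ha]
  · have h4 : 0 ≤ᵐ[μ.restrict D] x.1 := (Lp.coeFn_nonneg _).2 hx0
    have h5 := (ae_restrict_iff' hDm).1 h4
    filter_upwards [h5] with a ha
    by_cases haD : a ∈ D
    · rw [Set.indicator_of_mem haD]; exact ha haD
    · rw [Set.indicator_of_notMem haD]
  · intro a ha; rw [Set.indicator_of_notMem ha]
  · intro a ha; rw [Set.indicator_of_notMem ha]
  · rintro g' G' ⟨k1, k2, θ, k3, k4, k5⟩ hg'0
    have m1 := k1.restrict D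
    have m2 := k2.restrict D
    have hz := hvi (m1.toLp g', m2.toLp G') (by
      change _ ∈ closure ((SS p D (μ.restrict D) : Submodule ℝ _) :
        Set (Lp ℝ (ENNReal.ofReal p) (μ.restrict D) × Lp (E n) (ENNReal.ofReal p)
        (μ.restrict D)))
      rw [mem_closure_iff_seq_limit]
      have n1 : ∀ k, MemLp (θ k) (ENNReal.ofReal p) (μ.restrict D) := fun k =>
        ((k3 k).memLp _).restrict D
      have n2 : ∀ k, MemLp (gradient (θ k)) (ENNReal.ofReal p) (μ.restrict D) := fun k =>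
        ((k3 k).memLp_gradient _).restrict D
      refine ⟨fun k => ((n1 k).toLp _, (n2 k).toLp _), fun k => ⟨θ k, k3 k,
        (n1 k).coeFn_toLp, (n2 k).coeFn_toLp⟩, ?_⟩
      apply Tendsto.prodMk_nhds
      · rw [Lp.tendsto_Lp_iff_tendsto_eLpNorm'']
        exact tendsto_of_tendsto_of_tendsto_of_le_of_le tendsto_const_nhds k4
          (fun _ => zero_le) fun k => eLpNorm_mono_measure _ Measure.restrict_le_self
      · rw [Lp.tendsto_Lp_iff_tendsto_eLpNorm'']
        exact tendsto_of_tendsto_of_tendsto_of_le_of_le tendsto_const_nhds k5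
          (fun _ => zero_le) fun k => eLpNorm_mono_measure _ Measure.restrict_le_self) (by
      rw [← Lp.coeFn_nonneg]
      filter_upwards [m1.coeFn_toLp, ae_restrict_of_ae hg'0] with a ha hb
      rw [ha]; exact hb)
    refine hz.trans (le_of_eq ?_)
    apply integral_congr_ae
    filter_upwards [m2.coeFn_toLp, ae_restrict_of_mem hD (fun a ha => ha)] with a ha hb
    unfold fld
    simp only
    rw [ha, Set.indicator_of_mem hb]

/-- the truncation inequality -/
theorem Obst.trunc_le (hp : 1 < p) (hw : PAdmissible p w) (hA : AOperator p w A)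
    {ψ g : E n → ℝ} {G : E n → E n} (h : Obst p w A D ψ g G) (hψ : Cut Set.univ ψ)
    {B : Set (E n)} {ζ : E n → ℝ} (hζ : Cut B ζ) (hζ0 : ∀ x, 0 ≤ ζ x) {k : ℝ}
    (hψk : ∀ x ∈ B, ψ x ≤ k) {S : ℝ → ℝ} (hS : ContDiff ℝ ∞ S) (hS0 : ∀ t, t ≤ 0 → S t = 0)
    {b L : ℝ} (hSb : ∀ t, |S t| ≤ b) (hSd : ∀ t, |deriv S t| ≤ L) :
    ∫ x in D, ⟪fld w A (fun x => gradient ψ x + G x) x, S (ψ x + g x - k) • gradient ζ x +
      ζ x • (deriv S (ψ x + g x - k) • (gradient ψ x + G x))⟫ ∂(wMeasure w) ≤ 0 := by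
  have hloc := locFinite hw.locallyIntegrable
  obtain ⟨Cζ, hCζ⟩ := hζ.cpt.exists_bound_of_continuous hζ.smooth.continuous
  have hL0 : 0 ≤ L := (abs_nonneg _).trans (hSd 0)
  have hCζ0 : 0 ≤ Cζ := (norm_nonneg _).trans (hCζ 0)
  -- `S t ≤ L t` for `t ≥ 0`
  have hSL : ∀ t, 0 ≤ t → S t ≤ L * t := by
    intro t ht
    have h1 := Convex.norm_image_sub_le_of_norm_deriv_le (f := S) (C := L) (s := Set.univ)
      (x := 0) (y := t) (fun x _ => (hS.differentiable (by simp)) x)
      (fun x _ => hSd x) convex_univ (Set.mem_univ _) (Set.mem_univ _)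
    rw [hS0 0 le_rfl, sub_zero, sub_zero, Real.norm_eq_abs, Real.norm_eq_abs,
      abs_of_nonneg ht] at h1
    exact (le_abs_self _).trans h1
  have hstep := h.h0.step hp hψ hζ hψk hS hS0 hSb hSd
  obtain ⟨t, ht⟩ : ∃ t : ℝ, t = 1 / (L * Cζ + 1) := ⟨_, rfl⟩
  have hLC : 0 ≤ L * Cζ := mul_nonneg hL0 hCζ0
  have ht0 : 0 < t := by rw [ht]; positivity
  have htLC : t * (L * Cζ) ≤ 1 := by
    rw [ht, one_div, inv_mul_le_iff₀ (by positivity)]; linarith
  have h1 := h.vi _ _ (h.h0.add hp (hstep.const_mul (-t))) (by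
    filter_upwards [h.nonneg] with x hx
    by_cases hxB : x ∈ B
    · rcases le_or_gt (ψ x + g x - k) 0 with hle | hgt
      · rw [hS0 _ hle, zero_mul, mul_zero, add_zero]; exact hx
      · have h2 := hSL _ hgt.le
        have h3 : ψ x + g x - k ≤ g x := by linarith [hψk x hxB]
        have h4 : S (ψ x + g x - k) * ζ x ≤ L * g x * Cζ := by
          have h5 : S (ψ x + g x - k) * ζ x ≤ (L * g x) * ζ x := by
            apply mul_le_mul_of_nonneg_right _ (hζ0 x)
            exact h2.trans (mul_le_mul_of_nonneg_left h3 hL0)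
          refine h5.trans (mul_le_mul_of_nonneg_left ?_ (mul_nonneg hL0 hx))
          exact (le_abs_self _).trans (hCζ x)
        have h5 : t * (S (ψ x + g x - k) * ζ x) ≤ t * (L * g x * Cζ) :=
          mul_le_mul_of_nonneg_left h4 ht0.le
        have h6 : t * (L * g x * Cζ) ≤ g x := by
          calc t * (L * g x * Cζ) = t * (L * Cζ) * g x := by ring
            _ ≤ 1 * g x := mul_le_mul_of_nonneg_right htLC hx
            _ = g x := one_mul _
        linarith
    · have : ζ x = 0 := image_eq_zero_of_notMem_tsupport fun h => hxB (hζ.supp h)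
      rw [this, mul_zero, mul_zero, add_zero]; exact hx)
  have e : ∫ x in D, ⟪fld w A (fun x => gradient ψ x + G x) x,
      (G x + (-t) • (S (ψ x + g x - k) • gradient ζ x +
      ζ x • (deriv S (ψ x + g x - k) • (gradient ψ x + G x)))) - G x⟫ ∂(wMeasure w) =
      (-t) * ∫ x in D, ⟪fld w A (fun x => gradient ψ x + G x) x, S (ψ x + g x - k) •
        gradient ζ x + ζ x • (deriv S (ψ x + g x - k) • (gradient ψ x + G x))⟫
        ∂(wMeasure w) := by
    rw [← integral_const_mul]
    congr 1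
    funext x
    rw [add_sub_cancel_left, real_inner_smul_right]
  rw [e] at h1
  by_contra hcon
  push Not at hcon
  have := mul_pos ht0 hcon
  linarith

end Pool.Agent.H40.NP
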