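import Pool.Agent.H40.NQProp

set_option autoImplicit false

open MeasureTheory Filter Topology Metric
open scoped ContDiff RealInnerProductSpace

namespace Pool.Agent.H40.NP

variable {n : ℕ} {p : ℝ} {w : E n → ℝ} {A : E n → E n → E n} {D Ω : Set (E n)}
  {μ : Measure (E n)}

theorem gf_deriv_zero_left' {h t : ℝ} (hh : 0 < h) (ht : t ≤ 0) : deriv (gf h) t = 0 := by
  have h1 : IsLocalMin (gf h) t := Eventually.of_forall fun s => by
    rw [gf_zero hh ht]; exact gf_nonneg _ _
  exact h1.deriv_eq_zero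

theorem gf_pos {h t : ℝ} (hh : 0 < h) (ht : 0 < t) : 0 < gf h t :=
  Real.smoothTransition.pos_of_pos (div_pos ht hh)

theorem gf_tendsto (t : ℝ) : Tendsto (fun k : ℕ => gf (1 / ((k:ℝ) + 1)) t) atTop
    (𝓝 (if 0 < t then 1 else 0)) := by
  rcases le_or_gt t 0 with h | h
  · rw [if_neg (not_lt.2 h)]
    refine tendsto_const_nhds.congr fun k => ?_
    rw [gf_zero (by positivity) h]
  · rw [if_pos h]
    refine tendsto_const_nhds.congr' ?_
    have h1 : Tendsto (fun k : ℕ => 1 / ((k:ℝ) + 1)) atTop (𝓝 0) :=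
      tendsto_one_div_add_atTop_nhds_zero_nat
    filter_upwards [h1.eventually (gt_mem_nhds h)] with k hk
    rw [gf_one (by positivity) hk.le]

theorem H0.mono {D' : Set (E n)} (hDD : D ⊆ D') {g : E n → ℝ} {G : E n → E n}
    (h : H0 p μ D g G) : H0 p μ D' g G := by
  obtain ⟨h1, h2, φ, h3, h4, h5⟩ := h
  exact ⟨h1, h2, φ, fun k => (h3 k).mono hDD, h4, h5⟩

/-- the field vanishes at the zero vector -/
theorem fld_zero (hA : AOperator p w A) (hp : 1 < p) :
    ∀ᵐ x ∂(wMeasure w), A x 0 = 0 := by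
  obtain ⟨α, β, hα, hαβ, hb⟩ := hA.bounds
  apply wMeasure_ac.ae_le
  filter_upwards [hb] with x hx
  have := (hx 0).2
  rw [norm_zero, Real.zero_rpow (by linarith), mul_zero] at this
  exact norm_le_zero_iff.1 this

theorem Obst.gradLp (hw : PAdmissible p w) {ψ g : E n → ℝ} {G : E n → E n}
    (h : Obst p w A D ψ g G) (hψ : Cut Set.univ ψ) :
    MemLp (fun x => gradient ψ x + G x) (ENNReal.ofReal p) (wMeasure w) := by
  have hloc := locFinite hw.locallyIntegrable
  exact (hψ.memLp_gradient _).add h.h0.2.1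

theorem Obst.fldLp (hp : 1 < p) (hw : PAdmissible p w) (hA : AOperator p w A)
    {ψ g : E n → ℝ} {G : E n → E n} (h : Obst p w A D ψ g G) (hψ : Cut Set.univ ψ)
    (B : Set (E n)) :
    MemLp (fld w A fun x => gradient ψ x + G x) (ENNReal.ofReal (p / (p - 1)))
      ((wMeasure w).restrict B) :=
  fld_memLp hp hw.locallyIntegrable hA hw.pos ((h.gradLp hw hψ).restrict B)

/-- upper bound for the solution -/
theorem Obst.le_bound (hp : 1 < p) (hw : PAdmissible p w) (hA : AOperator p w A)
    (hD : IsOpen D) (hDb : Bornology.IsBounded D)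
    {ψ g : E n → ℝ} {G : E n → E n} (h : Obst p w A D ψ g G) (hψ : Cut Set.univ ψ) {M : ℝ}
    (hM : ∀ x, ψ x ≤ M) : ∀ᵐ x ∂(wMeasure w), ψ x + g x ≤ M := by
  have hloc := locFinite hw.locallyIntegrable
  obtain ⟨α, β, hα, hαβ, hst⟩ := struct hA hw.pos
  obtain ⟨R, hR, hDR⟩ := hDb.subset_ball_lt 0 0
  obtain ⟨Lc, hLc, hcut⟩ := exists_cut (n := n)
  obtain ⟨ζ, hζ, hζ01, hζ1, -⟩ := hcut 0 R (R + 1) hR (by linarith)
  have hζ' : Cut Set.univ ζ := hζ.mono (Set.subset_univ _)
  obtain ⟨L, hL0, hL⟩ := gf_deriv_bdd (h := 1) one_pos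
  have hb1 : ∀ t, |gf 1 t| ≤ 1 := fun t => by
    rw [abs_of_nonneg (gf_nonneg _ _)]; exact gf_le_one _ _
  have hle := h.trunc_le hp hw hA hψ hζ' (fun x => (hζ01 x).1) (k := M) (fun x _ => hM x)
    (gf_contDiff 1) (fun t ht => gf_zero one_pos ht) hb1 hL
  have hst0 := h.h0.step hp hψ hζ' (k := M) (fun x _ => hM x)
    (gf_contDiff 1) (fun t ht => gf_zero one_pos ht) hb1 hL
  have hζD : ∀ x ∈ D, ζ x = 1 := fun x hx => hζ1 x (ball_subset_closedBall (hDR hx))
  have hζgD : ∀ x ∈ D, gradient ζ x = 0 := by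
    intro x hx
    have h1 : ζ =ᶠ[𝓝 x] fun _ => 1 := by
      filter_upwards [hD.mem_nhds hx] with y hy
      exact hζD y hy
    exact ((hasGradientAt_const x (1:ℝ)).congr_of_eventuallyEq h1).gradient
  -- the gradient vanishes
  have hpt : ∀ᵐ x ∂((wMeasure w).restrict D),
      deriv (gf 1) (ψ x + g x - M) * (α * ‖gradient ψ x + G x‖ ^ p) ≤
      ⟪fld w A (fun x => gradient ψ x + G x) x, gf 1 (ψ x + g x - M) • gradient ζ x +
      ζ x • (deriv (gf 1) (ψ x + g x - M) • (gradient ψ x + G x))⟫ := by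
    filter_upwards [ae_restrict_of_ae hst, ae_restrict_of_mem hD (fun x hx => hx)] with x hx hxD
    rw [hζD x hxD, hζgD x hxD, smul_zero, zero_add, one_smul, real_inner_smul_right]
    exact mul_le_mul_of_nonneg_left (hx _).1 (gf_deriv_nonneg one_pos _)
  have hint : Integrable (fun x => ⟪fld w A (fun x => gradient ψ x + G x) x,
      gf 1 (ψ x + g x - M) • gradient ζ x +
      ζ x • (deriv (gf 1) (ψ x + g x - M) • (gradient ψ x + G x))⟫)
      ((wMeasure w).restrict D) :=
    integrable_inner hp (h.fldLp hp hw hA hψ D) (hst0.2.1.restrict D)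
  have hnn : ∀ᵐ x ∂((wMeasure w).restrict D), 0 ≤
      ⟪fld w A (fun x => gradient ψ x + G x) x, gf 1 (ψ x + g x - M) • gradient ζ x +
      ζ x • (deriv (gf 1) (ψ x + g x - M) • (gradient ψ x + G x))⟫ := by
    filter_upwards [hpt] with x hx
    refine le_trans ?_ hx
    exact mul_nonneg (gf_deriv_nonneg one_pos _) (by positivity)
  have hz : ∀ᵐ x ∂((wMeasure w).restrict D),
      ⟪fld w A (fun x => gradient ψ x + G x) x, gf 1 (ψ x + g x - M) • gradient ζ x +
      ζ x • (deriv (gf 1) (ψ x + g x - M) • (gradient ψ x + G x))⟫ = 0 := by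
    have h1 := (integral_eq_zero_iff_of_nonneg_ae hnn hint).1
      (le_antisymm hle (integral_nonneg_of_ae hnn))
    exact h1
  have hz' : ∀ᵐ x ∂(wMeasure w), gf 1 (ψ x + g x - M) • gradient ζ x +
        ζ x • (deriv (gf 1) (ψ x + g x - M) • (gradient ψ x + G x)) = 0 := by
    have h1 := (ae_restrict_iff' hD.measurableSet).1 hz
    have h2 := (ae_restrict_iff' hD.measurableSet).1 hpt
    filter_upwards [h1, h2] with x hx1 hx2
    by_cases hxD : x ∈ D
    · have h3 := hx2 hxD
      rw [hx1 hxD] at h3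
      rw [hζD x hxD, hζgD x hxD, smul_zero, zero_add, one_smul]
      by_cases h4 : deriv (gf 1) (ψ x + g x - M) = 0
      · rw [h4, zero_smul]
      · have h5 : 0 < deriv (gf 1) (ψ x + g x - M) :=
          lt_of_le_of_ne (gf_deriv_nonneg one_pos _) (Ne.symm h4)
        have h6 : ‖gradient ψ x + G x‖ ^ p ≤ 0 := by
          by_contra hcon
          push Not at hcon
          have := mul_pos h5 (mul_pos hα hcon)
          linarith
        have h7 : ‖gradient ψ x + G x‖ ^ p = 0 := le_antisymm h6 (by positivity)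
        rw [Real.rpow_eq_zero (norm_nonneg _) (by linarith), norm_eq_zero] at h7
        rw [h7, smul_zero]
    · have h3 : ψ x + g x - M ≤ 0 := by rw [h.off x hxD]; linarith [hM x]
      rw [gf_zero one_pos h3, gf_deriv_zero_left' one_pos h3]
      simp
  have hθ := hst0.eq_zero hp hw hDb hz'
  filter_upwards [hθ] with x hx
  by_cases hxD : x ∈ D
  · rw [hζD x hxD, mul_one] at hx
    by_contra hcon
    push Not at hcon
    have := gf_pos (h := 1) one_pos (show 0 < ψ x + g x - M by linarith)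
    linarith
  · rw [h.off x hxD]; linarith [hM x]

theorem Obst.ge_bound {ψ g : E n → ℝ} {G : E n → E n} (h : Obst p w A D ψ g G) :
    ∀ᵐ x ∂(wMeasure w), ψ x ≤ ψ x + g x := by
  filter_upwards [h.nonneg] with x hx
  linarith

theorem Obst.abs_bound (hp : 1 < p) (hw : PAdmissible p w) (hA : AOperator p w A)
    (hD : IsOpen D) (hDb : Bornology.IsBounded D)
    {ψ g : E n → ℝ} {G : E n → E n} (h : Obst p w A D ψ g G) (hψ : Cut Set.univ ψ) {M : ℝ}
    (hM : ∀ x, |ψ x| ≤ M) : ∀ᵐ x ∂(wMeasure w), |ψ x + g x| ≤ M := by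
  filter_upwards [h.le_bound hp hw hA hD hDb hψ (fun x => (abs_le.1 (hM x)).2),
    h.nonneg] with x h1 h2
  rw [abs_le]
  exact ⟨by linarith [(abs_le.1 (hM x)).1], h1⟩

theorem Obst.bh (hp : 1 < p) (hw : PAdmissible p w) (hA : AOperator p w A)
    (hD : IsOpen D) (hDb : Bornology.IsBounded D)
    {ψ g : E n → ℝ} {G : E n → E n} (h : Obst p w A D ψ g G) (hψ : Cut Set.univ ψ) {M : ℝ}
    (hM : ∀ x, |ψ x| ≤ M) {B : Set (E n)} (hB : IsOpen B) :
    BH p (wMeasure w) B (fun x => ψ x + g x) (fun x => gradient ψ x + G x) := by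
  have hloc := locFinite hw.locallyIntegrable
  have h1 : H0 p (wMeasure w) Set.univ (fun x => ψ x + g x) (fun x => gradient ψ x + G x) :=
    (hψ.h0).add hp (h.h0.mono (Set.subset_univ _))
  exact (h1.memH hp B).toBH_ae hp hB
    (ae_restrict_of_ae (h.abs_bound hp hw hA hD hDb hψ hM))

theorem Obst.supSol (hp : 1 < p) (hw : PAdmissible p w) (hA : AOperator p w A)
    (hD : IsOpen D) (hDb : Bornology.IsBounded D)
    {ψ g : E n → ℝ} {G : E n → E n} (h : Obst p w A D ψ g G) (hψ : Cut Set.univ ψ) {M : ℝ}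
    (hM : ∀ x, |ψ x| ≤ M) :
    SupSol p w A D (fun x => ψ x + g x) (fun x => gradient ψ x + G x) := by
  have hloc := locFinite hw.locallyIntegrable
  refine ⟨h.bh hp hw hA hD hDb hψ hM hD, fun ζ hζ hζ0 => ?_⟩
  have h1 := h.vi _ _ (h.h0.add hp hζ.h0) (by
    filter_upwards [h.nonneg] with x hx
    exact add_nonneg hx (hζ0 x))
  simpa only [add_sub_cancel_left] using h1

/-- the truncations above the obstacle are subsolutions -/
theorem Obst.subSol (hp : 1 < p) (hw : PAdmissible p w) (hA : AOperator p w A)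
    (hD : IsOpen D) (hDb : Bornology.IsBounded D)
    {ψ g : E n → ℝ} {G : E n → E n} (h : Obst p w A D ψ g G) (hψ : Cut Set.univ ψ) {M : ℝ}
    (hM : ∀ x, |ψ x| ≤ M) {B : Set (E n)} (hB : IsOpen B)
    (hBf : IsFiniteMeasure ((wMeasure w).restrict B)) {k : ℝ} (hk : ∀ x ∈ B, ψ x ≤ k) :
    SubSol p w A B (fun x => max (ψ x + g x - k) 0)
      (fun x => (if k < ψ x + g x then (1:ℝ) else 0) • (gradient ψ x + G x)) := by
  have hloc := locFinite hw.locallyIntegrable
  obtain ⟨α, β, hα, hαβ, hst⟩ := struct hA hw.pos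
  refine ⟨(h.bh hp hw hA hD hDb hψ hM hB).trunc hp hB k, fun ζ hζ hζ0 => ?_⟩
  have hint : Integrable (fun x => ⟪fld w A (fun x => gradient ψ x + G x) x, gradient ζ x⟫)
      ((wMeasure w).restrict D) :=
    integrable_inner hp (h.fldLp hp hw hA hψ D) ((hζ.memLp_gradient _).restrict D)
  have hgm : AEStronglyMeasurable (fun x => ψ x + g x) ((wMeasure w).restrict D) :=
    (hψ.smooth.continuous.aestronglyMeasurable.add h.h0.1.1).restrict
  have key : ∀ j : ℕ, ∫ x in D, gf (1 / ((j:ℝ) + 1)) (ψ x + g x - k) *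
      ⟪fld w A (fun x => gradient ψ x + G x) x, gradient ζ x⟫ ∂(wMeasure w) ≤ 0 := by
    intro j
    have hj : (0:ℝ) < 1 / ((j:ℝ) + 1) := by positivity
    obtain ⟨L, hL0, hL⟩ := gf_deriv_bdd hj
    have hb1 : ∀ t, |gf (1 / ((j:ℝ) + 1)) t| ≤ 1 := fun t => by
      rw [abs_of_nonneg (gf_nonneg _ _)]; exact gf_le_one _ _
    have hle := h.trunc_le hp hw hA hψ hζ hζ0 hk
      (gf_contDiff (1 / ((j:ℝ) + 1))) (fun t ht => gf_zero hj ht) hb1 hL
    have hst0 := h.h0.step hp hψ hζ hk
      (gf_contDiff (1 / ((j:ℝ) + 1))) (fun t ht => gf_zero hj ht) hb1 hL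
    refine le_trans ?_ hle
    apply integral_mono_ae
    · have hm : AEStronglyMeasurable (fun x => gf (1 / ((j:ℝ) + 1)) (ψ x + g x - k))
          ((wMeasure w).restrict D) :=
        (gf_contDiff _).continuous.comp_aestronglyMeasurable (hgm.sub aestronglyMeasurable_const)
      exact hint.bdd_mul (c := 1) hm (Eventually.of_forall fun x => hb1 _)
    · exact integrable_inner hp (h.fldLp hp hw hA hψ D) (hst0.2.1.restrict D)
    · filter_upwards [ae_restrict_of_ae hst] with x hx
      rw [inner_add_right, real_inner_smul_right, real_inner_smul_right, real_inner_smul_right]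
      have h3 : 0 ≤ ⟪fld w A (fun x => gradient ψ x + G x) x, gradient ψ x + G x⟫ :=
        le_trans (by positivity) (hx (gradient ψ x + G x)).1
      have h4 := mul_nonneg (hζ0 x) (mul_nonneg (gf_deriv_nonneg hj (ψ x + g x - k)) h3)
      linarith
  have hlim : Tendsto (fun j : ℕ => ∫ x in D, gf (1 / ((j:ℝ) + 1)) (ψ x + g x - k) *
      ⟪fld w A (fun x => gradient ψ x + G x) x, gradient ζ x⟫ ∂(wMeasure w)) atTop
      (𝓝 (∫ x in D, (if 0 < ψ x + g x - k then (1:ℝ) else 0) *
      ⟪fld w A (fun x => gradient ψ x + G x) x, gradient ζ x⟫ ∂(wMeasure w))) := by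
    apply tendsto_integral_of_dominated_convergence
      (fun x => ‖⟪fld w A (fun x => gradient ψ x + G x) x, gradient ζ x⟫‖)
    · intro j
      exact ((gf_contDiff _).continuous.comp_aestronglyMeasurable
        (hgm.sub aestronglyMeasurable_const)).mul hint.1
    · exact hint.norm
    · intro j
      refine Eventually.of_forall fun x => ?_
      rw [norm_mul]
      apply mul_le_of_le_one_left (norm_nonneg _)
      rw [Real.norm_of_nonneg (gf_nonneg _ _)]
      exact gf_le_one _ _
    · exact Eventually.of_forall fun x => (gf_tendsto _).mul_const _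
  have hfin := le_of_tendsto' hlim key
  refine le_trans (le_of_eq ?_) hfin
  -- both integrals agree with the integral over the whole space
  have hF : ∀ᵐ x ∂(wMeasure w), ⟪fld w A (fun x => (if k < ψ x + g x then (1:ℝ) else 0) •
      (gradient ψ x + G x)) x, gradient ζ x⟫ = (if 0 < ψ x + g x - k then (1:ℝ) else 0) *
      ⟪fld w A (fun x => gradient ψ x + G x) x, gradient ζ x⟫ := by
    filter_upwards [fld_zero hA hp] with x hx
    by_cases hkx : k < ψ x + g x
    · have h2 : 0 < ψ x + g x - k := by linarith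
      unfold fld
      simp only [if_pos hkx, if_pos h2, one_smul, one_mul]
    · have h2 : ¬ 0 < ψ x + g x - k := by intro h; exact hkx (by linarith)
      unfold fld
      simp only [if_neg hkx, if_neg h2, zero_smul, zero_mul, hx, smul_zero, inner_zero_left]
  rw [setIntegral_eq_integral_of_forall_compl_eq_zero (s := B),
    setIntegral_eq_integral_of_forall_compl_eq_zero (s := D)]
  · exact integral_congr_ae hF
  · intro x hx
    by_cases hxB : x ∈ B
    · have : ¬ 0 < ψ x + g x - k := by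
        rw [h.off x hx]; linarith [hk x hxB]
      rw [if_neg this, zero_mul]
    · rw [gradient_eq_zero_of_notMem (fun h => hxB (hζ.supp h)), inner_zero_right, mul_zero]
  · intro x hx
    rw [gradient_eq_zero_of_notMem (fun h => hx (hζ.supp h)), inner_zero_right]

/-- the solution is `𝒜`-harmonic off the contact set -/
theorem Obst.harm (hp : 1 < p) (hw : PAdmissible p w)
    {ψ g : E n → ℝ} {G : E n → E n} (h : Obst p w A D ψ g G) {ζ : E n → ℝ} (hζ : Cut D ζ)
    {ε : ℝ} (hε : 0 < ε) (hg : ∀ᵐ x ∂(wMeasure w), x ∈ tsupport ζ → ε ≤ g x) :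
    ∫ x in D, ⟪fld w A (fun x => gradient ψ x + G x) x, gradient ζ x⟫ ∂(wMeasure w) = 0 := by
  have hloc := locFinite hw.locallyIntegrable
  obtain ⟨C, hC⟩ := hζ.cpt.exists_bound_of_continuous hζ.smooth.continuous
  have hC0 : 0 ≤ C := (norm_nonneg _).trans (hC 0)
  have key : ∀ s : ℝ, |s| ≤ ε / (C + 1) → 0 ≤ s *
      ∫ x in D, ⟪fld w A (fun x => gradient ψ x + G x) x, gradient ζ x⟫ ∂(wMeasure w) := by
    intro s hs
    have h1 := h.vi _ _ (h.h0.add hp (hζ.h0.const_mul s)) (by
      filter_upwards [h.nonneg, hg] with x hx hgx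
      by_cases hxs : x ∈ tsupport ζ
      · have h2 := hgx hxs
        have h3 : |s * ζ x| ≤ ε := by
          rw [abs_mul]
          calc |s| * |ζ x| ≤ ε / (C + 1) * C :=
                mul_le_mul hs (hC x) (abs_nonneg _) (by positivity)
            _ ≤ ε := by
                rw [div_mul_eq_mul_div, div_le_iff₀ (by positivity)]
                nlinarith
        have := (abs_le.1 h3).1
        linarith
      · rw [image_eq_zero_of_notMem_tsupport hxs, mul_zero, add_zero]; exact hx)
    simp only [add_sub_cancel_left, real_inner_smul_right] at h1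
    rwa [integral_const_mul] at h1
  have hs0 : 0 < ε / (C + 1) := by positivity
  have h1 := key (ε / (C + 1)) (by rw [abs_of_pos hs0])
  have h2 := key (-(ε / (C + 1))) (by rw [abs_neg, abs_of_pos hs0])
  have h3 : ε / (C + 1) * ∫ x in D, ⟪fld w A (fun x => gradient ψ x + G x) x, gradient ζ x⟫
      ∂(wMeasure w) = 0 := by linarith
  rcases mul_eq_zero.1 h3 with h4 | h4
  · exact absurd h4 hs0.ne'
  · exact h4

end Pool.Agent.H40.NP
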