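import Pool.Agent.H40.NQCalc

set_option autoImplicit false

open MeasureTheory Filter Topology Metric
open scoped ContDiff RealInnerProductSpace

namespace Pool.Agent.H40.NP

variable {n : ℕ} {p : ℝ} {w : E n → ℝ} {A : E n → E n → E n} {D Ω : Set (E n)}
  {μ : Measure (E n)}

/-- convergence of the integrals of `‖·‖^p` -/
theorem tendsto_integral_rpow {F : Type} [NormedAddCommGroup F] (hp : 1 < p)
    {f : ℕ → E n → F} {f0 : E n → F} (hf : ∀ k, InL p μ D (f k)) (hf0 : InL p μ D f0)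
    (h : Tendsto (fun k => nrm p μ D (fun x => f k x - f0 x)) atTop (𝓝 0)) :
    Tendsto (fun k => ∫ x in D, ‖f k x‖ ^ p ∂μ) atTop (𝓝 (∫ x in D, ‖f0 x‖ ^ p ∂μ)) := by
  have hp0 : 0 < p := by linarith
  have hfin : ∀ k, nrm p μ D (fun x => f k x - f0 x) ≠ ⊤ := fun k => ((hf k).sub hf0).2.ne
  have h1 : Tendsto (fun k => (nrm p μ D (f k)).toReal) atTop (𝓝 (nrm p μ D f0).toReal) := by
    rw [tendsto_iff_dist_tendsto_zero]
    have h2 : Tendsto (fun k => (nrm p μ D (fun x => f k x - f0 x)).toReal) atTop (𝓝 0) := by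
      have := (ENNReal.tendsto_toReal ENNReal.zero_ne_top).comp h
      rw [ENNReal.toReal_zero] at this
      exact this
    refine squeeze_zero (fun _ => dist_nonneg) (fun k => ?_) h2
    rw [Real.dist_eq, abs_le]
    constructor
    · have e : f0 = (f k) - fun x => f k x - f0 x := by funext x; simp
      have h3 : nrm p μ D f0 ≤ nrm p μ D (f k) + nrm p μ D (fun x => f k x - f0 x) := by
        unfold nrm
        conv_lhs => rw [e]
        exact eLpNorm_sub_le (hf k).1 ((hf k).1.sub hf0.1) (one_le_q hp)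
      have hk : nrm p μ D (f k) ≠ ⊤ := (hf k).2.ne
      have h4 := ENNReal.toReal_mono (ENNReal.add_ne_top.2 ⟨hk, hfin k⟩) h3
      rw [ENNReal.toReal_add hk (hfin k)] at h4
      linarith
    · have e : f k = f0 + fun x => f k x - f0 x := by funext x; simp
      have h3 : nrm p μ D (f k) ≤ nrm p μ D f0 + nrm p μ D (fun x => f k x - f0 x) := by
        unfold nrm
        conv_lhs => rw [e]
        exact eLpNorm_add_le hf0.1 ((hf k).1.sub hf0.1) (one_le_q hp)
      have hk : nrm p μ D f0 ≠ ⊤ := hf0.2.ne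
      have h4 := ENNReal.toReal_mono (ENNReal.add_ne_top.2 ⟨hk, hfin k⟩) h3
      rw [ENNReal.toReal_add hk (hfin k)] at h4
      linarith
  have e : ∀ g : E n → F, InL p μ D g → ∫ x in D, ‖g x‖ ^ p ∂μ = (nrm p μ D g).toReal ^ p := by
    intro g hg
    have := nrm_rpow_integral hp hg
    rw [ENNReal.toReal_rpow, this, ENNReal.toReal_ofReal (integral_nonneg fun x => by positivity)]
  rw [e f0 hf0]
  simp only [e _ (hf _)]
  exact h1.rpow_const (Or.inr hp0.le)

theorem ball_pos (hw : PAdmissible p w) (x0 : E n) {R : ℝ} (hR : 0 < R) :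
    0 < (wMeasure w).real (ball x0 R) := by
  have := locFinite hw.locallyIntegrable
  apply ENNReal.toReal_pos
  · intro h
    have h1 := ac_wMeasure hw.locallyIntegrable hw.pos h
    exact (measure_ball_pos volume x0 hR).ne' h1
  · exact measure_ball_lt_top.ne

theorem ball_fin (hw : PAdmissible p w) (x0 : E n) (R : ℝ) :
    IsFiniteMeasure ((wMeasure w).restrict (ball x0 R)) := by
  have := locFinite hw.locallyIntegrable
  constructor
  rw [Measure.restrict_apply_univ]
  exact measure_ball_lt_top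

/-- Sobolev inequality in unnormalised form for smooth functions -/
theorem sob_smooth (hp : 1 < p) (hw : PAdmissible p w) : ∃ κ C : ℝ, 1 < κ ∧ 0 < C ∧
    ∀ (x0 : E n) (R : ℝ) (φ : E n → ℝ), 0 < R → Cut (ball x0 R) φ →
      (∫ y in ball x0 R, |φ y| ^ (κ * p) ∂(wMeasure w)) ^ (1 / κ) ≤
        (C * R) ^ p * (wMeasure w).real (ball x0 R) ^ (-(1 - 1 / κ)) *
          ∫ y in ball x0 R, ‖gradient φ y‖ ^ p ∂(wMeasure w) := by
  obtain ⟨κ, C, hκ, hC, hS⟩ := hw.sobolev
  refine ⟨κ, C, hκ, hC, fun x0 R φ hR hφ => ?_⟩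
  have hp0 : 0 < p := by linarith
  have hκ0 : 0 < κ := by linarith
  have h := hS x0 R φ hR hφ.smooth hφ.supp
  set m := (wMeasure w).real (ball x0 R) with hm
  have hm0 : 0 < m := ball_pos hw x0 hR
  set I1 := ∫ y in ball x0 R, |φ y| ^ (κ * p) ∂(wMeasure w) with hI1
  set I2 := ∫ y in ball x0 R, ‖gradient φ y‖ ^ p ∂(wMeasure w) with hI2
  have hI1n : 0 ≤ I1 := integral_nonneg fun x => by positivity
  have hI2n : 0 ≤ I2 := integral_nonneg fun x => by positivity
  rw [setAverage_eq, setAverage_eq, smul_eq_mul, smul_eq_mul] at h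
  change (m⁻¹ * I1) ^ (1 / (κ * p)) ≤ C * R * (m⁻¹ * I2) ^ (1 / p) at h
  have h1 := Real.rpow_le_rpow (by positivity) h hp0.le
  have e1 : 1 / (κ * p) * p = 1 / κ := by field_simp
  have hl : ((m⁻¹ * I1) ^ (1 / (κ * p))) ^ p = m⁻¹ ^ (1 / κ) * I1 ^ (1 / κ) := by
    rw [← Real.rpow_mul (by positivity), e1, Real.mul_rpow (by positivity) hI1n]
  have hr : (C * R * (m⁻¹ * I2) ^ (1 / p)) ^ p = (C * R) ^ p * (m⁻¹ * I2) := by
    rw [Real.mul_rpow (by positivity) (by positivity), ← Real.rpow_mul (by positivity),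
      one_div_mul_cancel hp0.ne', Real.rpow_one]
  rw [hl, hr] at h1
  have e2 : m ^ (1 / κ) * (m⁻¹ ^ (1 / κ) * I1 ^ (1 / κ)) = I1 ^ (1 / κ) := by
    rw [← mul_assoc, ← Real.mul_rpow hm0.le (by positivity), mul_inv_cancel₀ hm0.ne',
      Real.one_rpow, one_mul]
  rw [← e2]
  calc m ^ (1 / κ) * (m⁻¹ ^ (1 / κ) * I1 ^ (1 / κ)) ≤ m ^ (1 / κ) * ((C * R) ^ p * (m⁻¹ * I2)) :=
        mul_le_mul_of_nonneg_left h1 (by positivity)
    _ = (C * R) ^ p * (m ^ (1 / κ) * m⁻¹) * I2 := by ring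
    _ = _ := by
        congr 2
        rw [← Real.rpow_neg_one m, ← Real.rpow_add hm0]
        congr 1; ring

/-- Sobolev inequality for cut-off bounded pairs -/
theorem sob_pair (hp : 1 < p) (hw : PAdmissible p w) : ∃ κ C : ℝ, 1 < κ ∧ 0 < C ∧
    ∀ (x0 : E n) (R : ℝ) (ξ : E n → ℝ) (Ξ : E n → E n) (χ : E n → ℝ), 0 < R →
      BH p (wMeasure w) (ball x0 R) ξ Ξ → Cut (ball x0 R) χ →
      (∫ y in ball x0 R, |ξ y * χ y| ^ (κ * p) ∂(wMeasure w)) ^ (1 / κ) ≤
        (C * R) ^ p * (wMeasure w).real (ball x0 R) ^ (-(1 - 1 / κ)) *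
          ∫ y in ball x0 R, ‖ξ y • gradient χ y + χ y • Ξ y‖ ^ p ∂(wMeasure w) := by
  obtain ⟨κ, C, hκ, hC, hS⟩ := sob_smooth hp hw
  refine ⟨κ, C, hκ, hC, fun x0 R ξ Ξ χ hR hξ hχ => ?_⟩
  have := locFinite hw.locallyIntegrable
  have hfin := ball_fin hw x0 R
  obtain ⟨φ, B, hφ, hφs⟩ := hχ.mul_bhs isOpen_ball hp hξ
  have hp0 : 0 < p := by linarith
  have hκp : 0 < κ * p := by positivity
  obtain ⟨h1, h2, h3, h4, h5, h6⟩ := hφs
  have l1 : Tendsto (fun k => ∫ y in ball x0 R, |φ k y| ^ (κ * p) ∂(wMeasure w)) atTop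
      (𝓝 (∫ y in ball x0 R, |ξ y * χ y| ^ (κ * p) ∂(wMeasure w))) := by
    apply tendsto_integral_of_dominated_convergence (fun _ => |B| ^ (κ * p))
    · intro k
      exact ((continuous_abs.rpow_const fun x => Or.inr hκp.le).comp_aestronglyMeasurable
        (aesm_of_contDiffOn isOpen_ball (h1 k)))
    · exact integrable_const _
    · intro k
      refine ae_restrict_of_mem isOpen_ball fun x hx => ?_
      rw [Real.norm_of_nonneg (by positivity)]
      exact Real.rpow_le_rpow (abs_nonneg _) ((h2 k x hx).trans (le_abs_self B)) hκp.le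
    · filter_upwards [h3] with x hx
      exact (hx.abs).rpow_const (Or.inr hκp.le)
  have l2 := tendsto_integral_rpow hp h4 h5 h6
  have l3 := l1.rpow_const (p := 1 / κ) (Or.inr (by positivity))
  have l4 := l2.const_mul ((C * R) ^ p * (wMeasure w).real (ball x0 R) ^ (-(1 - 1 / κ)))
  exact le_of_tendsto_of_tendsto' l3 l4 fun k => hS x0 R (φ k) hR (hφ k)

/-! ### Cut-off functions with controlled gradients -/

theorem hasGradientAt_normSq (x0 x : E n) :
    HasGradientAt (fun y : E n => ‖y - x0‖ ^ 2) ((2 : ℝ) • (x - x0)) x := by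
  rw [hasGradientAt_iff_hasFDerivAt]
  have h1 : HasFDerivAt (fun y : E n => y - x0) (ContinuousLinearMap.id ℝ (E n)) x :=
    (hasFDerivAt_id x).sub_const x0
  have h2 := (hasStrictFDerivAt_norm_sq (x - x0)).hasFDerivAt.comp x h1
  refine h2.congr_fderiv ?_
  ext v
  simp [InnerProductSpace.toDual_apply_apply]

theorem exists_cut : ∃ L : ℝ, 0 < L ∧ ∀ (x0 : E n) (a b : ℝ), 0 < a → a < b →
    ∃ ζ : E n → ℝ, Cut (ball x0 b) ζ ∧ (∀ x, 0 ≤ ζ x ∧ ζ x ≤ 1) ∧
      (∀ x ∈ closedBall x0 a, ζ x = 1) ∧ ∀ x, ‖gradient ζ x‖ ≤ L / (b - a) := by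
  obtain ⟨L, hL0, hL⟩ := gf_deriv_bdd (h := 1) one_pos
  refine ⟨4 * (L + 1), by positivity, fun x0 a b ha hab => ?_⟩
  set b' := (a + b) / 2 with hb'
  have hb1 : a < b' := by rw [hb']; linarith
  have hb2 : b' < b := by rw [hb']; linarith
  have hb0 : 0 < b' := by linarith
  have hd : 0 < b' ^ 2 - a ^ 2 := by nlinarith
  set q : E n → ℝ := fun x => (‖x - x0‖ ^ 2 - a ^ 2) / (b' ^ 2 - a ^ 2) with hq
  have hqs : ContDiff ℝ ∞ q := by
    have : ContDiff ℝ ∞ fun x : E n => ‖x - x0‖ ^ 2 :=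
      (contDiff_id.sub contDiff_const).norm_sq ℝ
    exact (this.sub contDiff_const).div_const _
  set ζ : E n → ℝ := fun x => 1 - gf 1 (q x) with hζ
  have hζs : ContDiff ℝ ∞ ζ := contDiff_const.sub ((gf_contDiff 1).comp hqs)
  have hsub : ∀ x ∉ closedBall x0 b', ζ x = 0 := by
    intro x hx
    rw [mem_closedBall, dist_eq_norm, not_le] at hx
    have : 1 ≤ q x := by
      rw [hq]; simp only
      rw [le_div_iff₀ hd]; nlinarith
    rw [hζ]; simp only
    rw [gf_one one_pos this]; norm_num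
  have hts : tsupport ζ ⊆ closedBall x0 b' := by
    apply closure_minimal _ isClosed_closedBall
    intro x hx
    by_contra h
    exact hx (hsub x h)
  refine ⟨ζ, ⟨hζs, (isCompact_closedBall x0 b').of_isClosed_subset (isClosed_tsupport _) hts,
    hts.trans (closedBall_subset_ball hb2)⟩, fun x => ⟨sub_nonneg.2 (gf_le_one _ _), ?_⟩, ?_, ?_⟩
  · have := gf_nonneg 1 (q x)
    rw [hζ]; simp only; linarith
  · intro x hx
    rw [mem_closedBall, dist_eq_norm] at hx
    have : q x ≤ 0 := by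
      rw [hq]; simp only
      apply div_nonpos_of_nonpos_of_nonneg _ hd.le
      have := norm_nonneg (x - x0)
      nlinarith
    rw [hζ]; simp only
    rw [gf_zero one_pos this]; norm_num
  · intro x
    have hqg : HasGradientAt q ((b' ^ 2 - a ^ 2)⁻¹ • ((2 : ℝ) • (x - x0))) x := by
      have h1 := hasGradientAt_normSq x0 x
      rw [hasGradientAt_iff_hasFDerivAt] at h1 ⊢
      have h2 := (h1.sub_const (a ^ 2)).mul_const ((b' ^ 2 - a ^ 2)⁻¹)
      refine h2.congr_fderiv ?_
      ext v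
      simp [InnerProductSpace.toDual_apply_apply, real_inner_smul_left]
    have hg : HasGradientAt ζ (-(deriv (gf 1) (q x) • ((b' ^ 2 - a ^ 2)⁻¹ •
        ((2 : ℝ) • (x - x0))))) x := by
      have h1 := gradient_comp hqg ((gf_contDiff 1).differentiable (by simp) (q x)).hasDerivAt
      rw [hasGradientAt_iff_hasFDerivAt] at h1 ⊢
      have h2 := h1.const_sub 1
      refine h2.congr_fderiv ?_
      rw [map_neg]
    rw [hg.gradient, norm_neg, norm_smul, norm_smul, norm_smul, Real.norm_eq_abs,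
      Real.norm_of_nonneg (by positivity), Real.norm_of_nonneg (by norm_num)]
    by_cases hx : x ∈ closedBall x0 b'
    · rw [mem_closedBall, dist_eq_norm] at hx
      have h1 : (b' ^ 2 - a ^ 2)⁻¹ * (2 * ‖x - x0‖) ≤ 4 / (b - a) := by
        have e : b' ^ 2 - a ^ 2 = (b' - a) * (b' + a) := by ring
        have e2 : b - a = 2 * (b' - a) := by rw [hb']; ring
        rw [e, e2, inv_mul_le_iff₀ (by rw [← e]; exact hd), div_eq_mul_inv, mul_inv]
        have h3 : 0 < b' - a := by linarith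
        have : (b' - a) * (b' + a) * (4 * (2⁻¹ * (b' - a)⁻¹)) = 2 * (b' + a) := by
          field_simp; ring
        rw [this]; linarith
      calc |deriv (gf 1) (q x)| * ((b' ^ 2 - a ^ 2)⁻¹ * (2 * ‖x - x0‖)) ≤ L * (4 / (b - a)) :=
            mul_le_mul (hL _) h1 (by positivity) hL0
        _ ≤ 4 * (L + 1) / (b - a) := by
            rw [mul_div_assoc']
            apply div_le_div_of_nonneg_right _ (by linarith)
            linarith
    · have h1 : deriv (gf 1) (q x) = 0 := by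
        apply gf_deriv_zero_right one_pos
        rw [mem_closedBall, dist_eq_norm, not_le] at hx
        rw [hq]; simp only
        rw [lt_div_iff₀ hd]; nlinarith
      rw [h1, abs_zero, zero_mul]
      apply div_nonneg (by positivity) (by linarith)

end Pool.Agent.H40.NP
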