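import Pool.Agent.H40.NQSup

set_option autoImplicit false

open MeasureTheory Filter Topology Metric
open scoped ContDiff RealInnerProductSpace

namespace Pool.Agent.H40.NP

variable {n : ℕ} {p : ℝ} {w : E n → ℝ} {A : E n → E n → E n} {D Ω : Set (E n)}
  {μ : Measure (E n)}

theorem two_rpow {p x y : ℝ} (hp : 1 < p) (hx : 0 ≤ x) (hy : 0 ≤ y) :
    (x + y) ^ p ≤ 2 ^ p * (x ^ p + y ^ p) := by
  have hm : x + y ≤ 2 * max x y := by
    have h1 := le_max_left x y
    have h2 := le_max_right x y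
    linarith
  have hmax : (max x y) ^ p ≤ x ^ p + y ^ p := by
    have p1 : 0 ≤ x ^ p := by positivity
    have p2 : 0 ≤ y ^ p := by positivity
    rcases max_cases x y with ⟨h, _⟩ | ⟨h, _⟩ <;> rw [h] <;> linarith
  have hm0 : 0 ≤ max x y := le_max_of_le_right hy
  calc (x + y) ^ p ≤ (2 * max x y) ^ p :=
        Real.rpow_le_rpow (by positivity) hm (by linarith)
    _ = 2 ^ p * (max x y) ^ p := Real.mul_rpow (by norm_num) hm0
    _ ≤ _ := mul_le_mul_of_nonneg_left hmax (by positivity)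

theorem grad_cut_point {H : Type*} [NormedAddCommGroup H] [InnerProductSpace ℝ H] {j : ℕ}
    (hp : 1 < p) {s z : ℝ} {X N : H} (hs : 0 ≤ s) (hz : 0 ≤ z) (hz1 : z ≤ 1) :
    ‖s • (((2 * j + 2 : ℝ) * z ^ (2 * j + 1)) • N) + z ^ (2 * j + 2) • X‖ ^ p ≤
      2 ^ p * ((2 * j + 2) ^ p * (s ^ p * ‖N‖ ^ p) + z ^ (2 * j + 2) * ‖X‖ ^ p) := by
  have hp0 : 0 < p := by linarith
  have h1 : ‖s • (((2 * j + 2 : ℝ) * z ^ (2 * j + 1)) • N)‖ ≤ (2 * j + 2) * (s * ‖N‖) := by
    rw [norm_smul, norm_smul, Real.norm_of_nonneg hs, Real.norm_of_nonneg (by positivity)]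
    calc s * ((2 * j + 2) * z ^ (2 * j + 1) * ‖N‖) = (2 * j + 2) * (s * ‖N‖) * z ^ (2 * j + 1) := by
          ring
      _ ≤ (2 * j + 2) * (s * ‖N‖) * 1 :=
          mul_le_mul_of_nonneg_left (pow_le_one₀ hz hz1) (by positivity)
      _ = _ := mul_one _
  have h2 : ‖z ^ (2 * j + 2) • X‖ = z ^ (2 * j + 2) * ‖X‖ := by
    rw [norm_smul, Real.norm_of_nonneg (by positivity)]
  have h3 : (z ^ (2 * j + 2) * ‖X‖) ^ p ≤ z ^ (2 * j + 2) * ‖X‖ ^ p := by
    rw [Real.mul_rpow (by positivity) (norm_nonneg _)]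
    apply mul_le_mul_of_nonneg_right _ (by positivity)
    have := Real.rpow_le_rpow_of_exponent_ge' (x := z ^ (2 * j + 2)) (by positivity)
      (pow_le_one₀ hz hz1) zero_le_one hp.le
    rwa [Real.rpow_one] at this
  calc _ ≤ ((2 * j + 2) * (s * ‖N‖) + z ^ (2 * j + 2) * ‖X‖) ^ p := by
        apply Real.rpow_le_rpow (norm_nonneg _) _ hp0.le
        refine (norm_add_le _ _).trans ?_
        rw [h2]
        exact add_le_add_left h1 _
    _ ≤ 2 ^ p * (((2 * j + 2) * (s * ‖N‖)) ^ p + (z ^ (2 * j + 2) * ‖X‖) ^ p) :=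
        two_rpow hp (by positivity) (by positivity)
    _ ≤ _ := by
        apply mul_le_mul_of_nonneg_left _ (by positivity)
        apply add_le_add _ h3
        rw [Real.mul_rpow (by positivity) (by positivity), Real.mul_rpow hs (norm_nonneg _)]

/-- the level function `(u - k)_+^p` is integrable -/
theorem integrable_level (hp : 1 < p) {ν : Measure (E n)} [IsFiniteMeasure ν] {u : E n → ℝ}
    (hu : AEStronglyMeasurable u ν) {C : ℝ} (hC : ∀ᵐ x ∂ν, |u x| ≤ C) (k : ℝ) :
    Integrable (fun x => (max (u x - k) 0) ^ p) ν := by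
  have hp0 : 0 < p := by linarith
  apply Integrable.of_bound (C := (|C| + |k|) ^ p)
  · exact (((hu.aemeasurable.sub_const k).max aemeasurable_const).pow_const p).aestronglyMeasurable
  · filter_upwards [hC] with x hx
    rw [Real.norm_of_nonneg (Real.rpow_nonneg (le_max_right _ _) _)]
    apply Real.rpow_le_rpow (le_max_right _ _) _ hp0.le
    apply max_le _ (by positivity)
    have := (abs_le.1 hx).2
    linarith [neg_abs_le k, le_abs_self C]

theorem degiorgi_step (hp : 1 < p) (hw : PAdmissible p w) (hA : AOperator p w A) :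
    ∃ σ C1 : ℝ, 0 < σ ∧ 0 < C1 ∧ ∀ (x0 : E n) (R : ℝ) (u : E n → ℝ) (U : E n → E n), 0 < R →
      SubSol p w A (ball x0 R) u U → ∀ (k k' a b : ℝ), k < k' → 0 < a → a < b → b ≤ R →
      ∫ x in ball x0 a, (max (u x - k') 0) ^ p ∂(wMeasure w) ≤
        C1 * (R / (b - a)) ^ p * (k' - k) ^ (-(p * σ)) * (wMeasure w).real (ball x0 R) ^ (-σ) *
          (∫ x in ball x0 b, (max (u x - k) 0) ^ p ∂(wMeasure w)) ^ (1 + σ) := by
  have hloc := locFinite hw.locallyIntegrable
  have hp0 : 0 < p := by linarith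
  obtain ⟨j, hj⟩ : ∃ j : ℕ, p ≤ 2 * j + 2 := by
    obtain ⟨j, hj⟩ := exists_nat_ge p
    exact ⟨j, by linarith [(Nat.cast_nonneg j : (0:ℝ) ≤ j)]⟩
  obtain ⟨κ, C, hκ, hC, hsob⟩ := sob_pair hp hw
  obtain ⟨Cc, hCc, hcacc⟩ := cacc hp hw hA hj
  obtain ⟨L, hL, hcut⟩ := exists_cut (n := n)
  have hκ0 : 0 < κ := by linarith
  set σ : ℝ := 1 - 1 / κ with hσ
  have hσ0 : 0 < σ := by
    rw [hσ, sub_pos, div_lt_one hκ0]; exact hκ
  set Q : ℝ := 2 ^ p * ((2 * j + 2) ^ p + Cc) with hQ
  have hQ0 : 0 < Q := by positivity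
  refine ⟨σ, C ^ p * Q * L ^ p, hσ0, by positivity, ?_⟩
  intro x0 R u U hR hu k k' a b hkk ha hab hbR
  set μ := wMeasure w with hμ
  have hfin := ball_fin hw x0 R
  have hfinb := ball_fin hw x0 b
  set m := μ.real (ball x0 R) with hm
  have hm0 : 0 < m := ball_pos hw x0 hR
  have hbs : ball x0 b ⊆ ball x0 R := ball_subset_ball hbR
  have has : ball x0 a ⊆ ball x0 b := ball_subset_ball hab.le
  have hab0 : 0 < b - a := by linarith
  obtain ⟨ζ, hζ, hζ01, hζ1, hζg⟩ := hcut x0 a b ha hab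
  have hζB : Cut (ball x0 R) ζ := hζ.mono hbs
  have hs := hu.1.trunc hp isOpen_ball k'
  have hχ : Cut (ball x0 R) (fun x => ζ x ^ (2 * j + 2)) := hζB.pow (2 * j + 1)
  have hgχ : ∀ x, gradient (fun x => ζ x ^ (2 * j + 2)) x =
      ((2 * j + 2 : ℝ) * ζ x ^ (2 * j + 1)) • gradient ζ x := by
    intro x
    rw [hζ.gradient_pow (2 * j + 1) x]
    congr 2
    push_cast; ring
  have hum := hu.1.aesm isOpen_ball
  obtain ⟨Cu, hCu⟩ := hu.1.bdd isOpen_ball
  have hleb : μ.restrict (ball x0 b) ≤ μ.restrict (ball x0 R) := Measure.restrict_mono hbs le_rfl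
  have humb : AEStronglyMeasurable u (μ.restrict (ball x0 b)) := hum.mono_measure hleb
  have hCub : ∀ᵐ x ∂(μ.restrict (ball x0 b)), |u x| ≤ Cu := hCu.filter_mono (ae_mono hleb)
  -- step 1: Sobolev
  have S1 := hsob x0 R _ _ _ hR hs hχ
  simp only [hgχ] at S1
  -- step 2, 3
  have hsm : AEStronglyMeasurable (fun x => max (u x - k') 0) (μ.restrict (ball x0 R)) :=
    hs.aesm isOpen_ball
  have hNm : AEStronglyMeasurable (gradient ζ) (μ.restrict (ball x0 R)) :=
    hζ.gradient_cont.aestronglyMeasurable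
  have iX := integrable_rpow hp hs.inL_grad
  have i1 : Integrable (fun x => ζ x ^ (2 * j + 2) *
      ‖(if k' < u x then (1:ℝ) else 0) • U x‖ ^ p) (μ.restrict (ball x0 R)) := by
    apply iX.bdd_mul (c := 1) (hχ.smooth.continuous.aestronglyMeasurable)
    refine Eventually.of_forall fun x => ?_
    rw [Real.norm_of_nonneg (pow_nonneg (hζ01 x).1 _)]
    exact pow_le_one₀ (hζ01 x).1 (hζ01 x).2
  have hsC : ∀ᵐ x ∂(μ.restrict (ball x0 R)), max (u x - k') 0 ≤ |Cu| + |k'| := by
    filter_upwards [hCu] with x hx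
    apply max_le _ (by positivity)
    have := (abs_le.1 hx).2
    linarith [neg_abs_le k', le_abs_self Cu]
  have i2 : Integrable (fun x => (max (u x - k') 0) ^ p * ‖gradient ζ x‖ ^ p)
      (μ.restrict (ball x0 R)) :=
    integrable_rpow_mul hp hsm hNm (Eventually.of_forall fun x => le_max_right _ _) hsC
      (Eventually.of_forall hζg)
  have S2 : ∫ x in ball x0 R, ‖max (u x - k') 0 • (((2 * j + 2 : ℝ) * ζ x ^ (2 * j + 1)) •
      gradient ζ x) + ζ x ^ (2 * j + 2) • ((if k' < u x then (1:ℝ) else 0) • U x)‖ ^ p ∂μ ≤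
      Q * ∫ x in ball x0 R, (max (u x - k') 0) ^ p * ‖gradient ζ x‖ ^ p ∂μ := by
    have h1 : ∫ x in ball x0 R, ‖max (u x - k') 0 • (((2 * j + 2 : ℝ) * ζ x ^ (2 * j + 1)) •
      gradient ζ x) + ζ x ^ (2 * j + 2) • ((if k' < u x then (1:ℝ) else 0) • U x)‖ ^ p ∂μ ≤
      ∫ x in ball x0 R, 2 ^ p * ((2 * j + 2) ^ p * ((max (u x - k') 0) ^ p *
        ‖gradient ζ x‖ ^ p) + ζ x ^ (2 * j + 2) *
        ‖(if k' < u x then (1:ℝ) else 0) • U x‖ ^ p) ∂μ := by
      apply integral_mono_of_nonneg (Eventually.of_forall fun x => by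
        change (0:ℝ) ≤ ‖_‖ ^ p
        positivity) (((i2.const_mul _).add i1).const_mul _)
      exact Eventually.of_forall fun x => grad_cut_point hp (le_max_right _ _) (hζ01 x).1
        (hζ01 x).2
    have h2 : ∫ x in ball x0 R, 2 ^ p * ((2 * j + 2) ^ p * ((max (u x - k') 0) ^ p *
        ‖gradient ζ x‖ ^ p) + ζ x ^ (2 * j + 2) *
        ‖(if k' < u x then (1:ℝ) else 0) • U x‖ ^ p) ∂μ =
      2 ^ p * ((2 * j + 2) ^ p * (∫ x in ball x0 R, (max (u x - k') 0) ^ p *
        ‖gradient ζ x‖ ^ p ∂μ) + ∫ x in ball x0 R, ζ x ^ (2 * j + 2) *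
        ‖(if k' < u x then (1:ℝ) else 0) • U x‖ ^ p ∂μ) := by
      rw [integral_const_mul, integral_add (i2.const_mul _) i1, integral_const_mul]
    have h3 := hcacc (ball x0 R) isOpen_ball hfin u U hu k' ζ hζB hζ01
    rw [h2] at h1
    refine h1.trans ?_
    rw [hQ, mul_assoc]
    apply mul_le_mul_of_nonneg_left _ (by positivity)
    rw [add_mul]
    exact add_le_add_right h3 _
  -- step 4
  set Y := ∫ x in ball x0 b, (max (u x - k) 0) ^ p ∂μ with hY
  have hY0 : 0 ≤ Y := integral_nonneg fun x => Real.rpow_nonneg (le_max_right _ _) _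
  have il := integrable_level hp humb hCub k
  have il' := integrable_level hp humb hCub k'
  have S4 : ∫ x in ball x0 R, (max (u x - k') 0) ^ p * ‖gradient ζ x‖ ^ p ∂μ ≤
      (L / (b - a)) ^ p * Y := by
    have h1 : ∫ x in ball x0 R, (max (u x - k') 0) ^ p * ‖gradient ζ x‖ ^ p ∂μ =
        ∫ x in ball x0 b, (max (u x - k') 0) ^ p * ‖gradient ζ x‖ ^ p ∂μ := by
      apply setIntegral_eq_of_subset_of_forall_sdiff_eq_zero isOpen_ball.measurableSet hbs
      intro x hx
      rw [gradient_eq_zero_of_notMem (fun h => hx.2 (hζ.supp h)), norm_zero,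
        Real.zero_rpow hp0.ne', mul_zero]
    rw [h1, hY, ← integral_const_mul]
    apply integral_mono_of_nonneg (Eventually.of_forall fun x => by
      change (0:ℝ) ≤ _ * _
      have := Real.rpow_nonneg (le_max_right (u x - k') 0) p
      positivity) (il.const_mul _)
    refine Eventually.of_forall fun x => ?_
    change (max (u x - k') 0) ^ p * ‖gradient ζ x‖ ^ p ≤ (L / (b - a)) ^ p * (max (u x - k) 0) ^ p
    rw [mul_comm]
    apply mul_le_mul (Real.rpow_le_rpow (norm_nonneg _) (hζg x) hp0.le) _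
      (Real.rpow_nonneg (le_max_right _ _) _) (by positivity)
    exact Real.rpow_le_rpow (le_max_right _ _) (max_le_max (by linarith) le_rfl) hp0.le
  -- step 5: Hölder
  have hgm : AEStronglyMeasurable (fun x => if k' < u x then (1:ℝ) else 0)
      (μ.restrict (ball x0 b)) := aesm_ite humb k'
  have ig : Integrable (fun x => if k' < u x then (1:ℝ) else 0) (μ.restrict (ball x0 b)) := by
    apply Integrable.of_bound hgm 1
    refine Eventually.of_forall fun x => ?_
    split_ifs <;> simp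
  have hconj : κ.HolderConjugate (κ / (κ - 1)) := Real.HolderConjugate.conjExponent hκ
  set f : E n → ℝ := fun x => (max (u x - k') 0 * ζ x ^ (2 * j + 2)) ^ p with hf
  have hf0 : ∀ x, 0 ≤ max (u x - k') 0 * ζ x ^ (2 * j + 2) := fun x =>
    mul_nonneg (le_max_right _ _) (pow_nonneg (hζ01 x).1 _)
  have hfm : AEStronglyMeasurable f (μ.restrict (ball x0 b)) :=
    ((((humb.aemeasurable.sub_const k').max aemeasurable_const).mul
      (hχ.smooth.continuous.aestronglyMeasurable (μ := μ.restrict (ball x0 b))).aemeasurable).pow_const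
        p).aestronglyMeasurable
  have hsCb : ∀ᵐ x ∂(μ.restrict (ball x0 b)), max (u x - k') 0 ≤ |Cu| + |k'| :=
    hsC.filter_mono (ae_mono hleb)
  have hfle : ∀ x, f x ≤ (max (u x - k') 0) ^ p := by
    intro x
    apply Real.rpow_le_rpow (hf0 x) _ hp0.le
    exact mul_le_of_le_one_right (le_max_right _ _) (pow_le_one₀ (hζ01 x).1 (hζ01 x).2)
  have hfB : ∀ᵐ x ∂(μ.restrict (ball x0 b)), ‖f x‖ ≤ (|Cu| + |k'|) ^ p := by
    filter_upwards [hsCb] with x hx
    rw [Real.norm_of_nonneg (Real.rpow_nonneg (hf0 x) _)]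
    exact (hfle x).trans (Real.rpow_le_rpow (le_max_right _ _) hx hp0.le)
  have hH := integral_mul_le_Lp_mul_Lq_of_nonneg (μ := μ.restrict (ball x0 b)) hconj (f := f)
    (g := fun x => if k' < u x then (1:ℝ) else 0)
    (Eventually.of_forall fun x => Real.rpow_nonneg (hf0 x) _)
    (Eventually.of_forall fun x => by
      change (0:ℝ) ≤ if k' < u x then (1:ℝ) else 0
      split_ifs <;> norm_num) (MemLp.of_bound hfm _ hfB)
    (MemLp.of_bound hgm 1 (Eventually.of_forall fun x => by split_ifs <;> simp))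
  have hexp : 1 / (κ / (κ - 1)) = σ := by
    have : κ - 1 ≠ 0 := by linarith
    rw [hσ]; field_simp
  have hgpow : (∫ x in ball x0 b, (if k' < u x then (1:ℝ) else 0) ^ (κ / (κ - 1)) ∂μ) =
      ∫ x in ball x0 b, (if k' < u x then (1:ℝ) else 0) ∂μ := by
    apply integral_congr_ae
    refine Eventually.of_forall fun x => ?_
    have : κ / (κ - 1) ≠ 0 := hconj.symm.ne_zero
    simp only
    split_ifs
    · rw [Real.one_rpow]
    · rw [Real.zero_rpow this]
  rw [hexp, hgpow] at hH
  have hfpow : (∫ x in ball x0 b, f x ^ κ ∂μ) ≤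
      ∫ x in ball x0 R, |max (u x - k') 0 * ζ x ^ (2 * j + 2)| ^ (κ * p) ∂μ := by
    have e : ∀ x, f x ^ κ = |max (u x - k') 0 * ζ x ^ (2 * j + 2)| ^ (κ * p) := by
      intro x
      rw [abs_of_nonneg (hf0 x), hf]
      simp only
      rw [← Real.rpow_mul (hf0 x), mul_comm p κ]
    simp only [e]
    apply setIntegral_mono_set _ (Eventually.of_forall fun x => by
      change (0:ℝ) ≤ _ ^ _
      positivity) hbs.eventuallyLE
    apply Integrable.of_bound (C := (|Cu| + |k'|) ^ (κ * p))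
    · exact (((hsm.aemeasurable.mul
        (hχ.smooth.continuous.aestronglyMeasurable (μ := μ.restrict (ball x0 R))).aemeasurable).abs).pow_const
        (κ * p)).aestronglyMeasurable
    · filter_upwards [hsC] with x hx
      rw [Real.norm_of_nonneg (by positivity), abs_of_nonneg (hf0 x)]
      apply Real.rpow_le_rpow (hf0 x) _ (by positivity)
      exact (mul_le_of_le_one_right (le_max_right _ _)
        (pow_le_one₀ (hζ01 x).1 (hζ01 x).2)).trans hx
  -- step 6
  have S6 : ∫ x in ball x0 b, (if k' < u x then (1:ℝ) else 0) ∂μ ≤ (k' - k) ^ (-p) * Y := by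
    rw [hY, ← integral_const_mul]
    apply integral_mono_of_nonneg (Eventually.of_forall fun x => by
      change (0:ℝ) ≤ if k' < u x then (1:ℝ) else 0
      split_ifs <;> norm_num) (il.const_mul _)
    refine Eventually.of_forall fun x => ?_
    change (if k' < u x then (1:ℝ) else 0) ≤ (k' - k) ^ (-p) * (max (u x - k) 0) ^ p
    have hd : 0 < k' - k := by linarith
    split_ifs with h
    · have h1 : k' - k ≤ max (u x - k) 0 := le_max_of_le_left (by linarith)
      have h2 : (k' - k) ^ p ≤ (max (u x - k) 0) ^ p := Real.rpow_le_rpow hd.le h1 hp0.le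
      calc (1:ℝ) = (k' - k) ^ (-p) * (k' - k) ^ p := by
            rw [← Real.rpow_add hd]; simp
        _ ≤ _ := mul_le_mul_of_nonneg_left h2 (by positivity)
    · have := Real.rpow_nonneg (le_max_right (u x - k) 0) p
      positivity
  -- combine
  have S5 : ∫ x in ball x0 a, (max (u x - k') 0) ^ p ∂μ ≤
      ∫ x in ball x0 b, f x * (if k' < u x then (1:ℝ) else 0) ∂μ := by
    have h1 : ∫ x in ball x0 a, (max (u x - k') 0) ^ p ∂μ =
        ∫ x in ball x0 a, f x * (if k' < u x then (1:ℝ) else 0) ∂μ := by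
      apply setIntegral_congr_fun measurableSet_ball
      intro x hx
      simp only [hf]
      rw [hζ1 x (ball_subset_closedBall hx), one_pow, mul_one]
      split_ifs with h
      · rw [mul_one]
      · rw [mul_zero, max_eq_right (by linarith), Real.zero_rpow hp0.ne']
    rw [h1]
    apply setIntegral_mono_set _ (Eventually.of_forall fun x => by
      change (0:ℝ) ≤ f x * _
      have := Real.rpow_nonneg (hf0 x) p
      split_ifs
      · rw [mul_one]; exact this
      · rw [mul_zero]) has.eventuallyLE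
    apply Integrable.of_bound (C := (|Cu| + |k'|) ^ p) (hfm.mul hgm)
    filter_upwards [hfB] with x hx
    change ‖f x * (if k' < u x then (1:ℝ) else 0)‖ ≤ _
    rw [norm_mul]
    split_ifs
    · simpa using hx
    · simp; positivity
  have hIg0 : 0 ≤ ∫ x in ball x0 b, (if k' < u x then (1:ℝ) else 0) ∂μ :=
    integral_nonneg fun x => by
      change (0:ℝ) ≤ if k' < u x then (1:ℝ) else 0
      split_ifs <;> norm_num
  calc ∫ x in ball x0 a, (max (u x - k') 0) ^ p ∂μ ≤ _ := S5
    _ ≤ _ := hH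
    _ ≤ (∫ x in ball x0 R, |max (u x - k') 0 * ζ x ^ (2 * j + 2)| ^ (κ * p) ∂μ) ^ (1 / κ) *
        ((k' - k) ^ (-p) * Y) ^ σ := by
        apply mul_le_mul (Real.rpow_le_rpow (integral_nonneg fun x => by
          have := Real.rpow_nonneg (hf0 x) p
          positivity) hfpow (by positivity))
          (Real.rpow_le_rpow hIg0 S6 hσ0.le) (by positivity) (by positivity)
    _ ≤ ((C * R) ^ p * m ^ (-σ) * (Q * ((L / (b - a)) ^ p * Y))) *
        ((k' - k) ^ (-p) * Y) ^ σ := by
        apply mul_le_mul_of_nonneg_right _ (by positivity)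
        refine S1.trans ?_
        apply mul_le_mul_of_nonneg_left _ (by positivity)
        exact S2.trans (mul_le_mul_of_nonneg_left S4 hQ0.le)
    _ = _ := by
        have hd : 0 < k' - k := by linarith
        rw [Real.mul_rpow (by positivity) hY0, ← Real.rpow_mul hd.le,
          Real.mul_rpow hC.le hR.le, Real.div_rpow hL.le hab0.le, Real.div_rpow hR.le hab0.le]
        rcases hY0.eq_or_lt with hY1 | hY1
        · rw [← hY1]
          rw [Real.zero_rpow hσ0.ne', Real.zero_rpow (show 1 + σ ≠ 0 by linarith)]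
          ring
        · rw [Real.rpow_add hY1, Real.rpow_one]
          rw [show -p * σ = -(p * σ) by ring]
          ring

end Pool.Agent.H40.NP
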