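import Pool.Agent.H40.NQSob

set_option autoImplicit false

open MeasureTheory Filter Topology Metric
open scoped ContDiff RealInnerProductSpace

namespace Pool.Agent.H40.NP

variable {n : ℕ} {p : ℝ} {w : E n → ℝ} {A : E n → E n → E n} {D Ω : Set (E n)}
  {μ : Measure (E n)}

/-! ### Powers of cut-offs -/

theorem Cut.pow {ζ : E n → ℝ} (h : Cut D ζ) (m : ℕ) : Cut D (fun x => ζ x ^ (m + 1)) := by
  have e : (fun x => ζ x ^ (m + 1)) = fun x => ζ x ^ m * ζ x := by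
    funext x; rw [pow_succ]
  rw [e]
  exact h.nonneg_mul_cut (h.smooth.pow m)

theorem Cut.gradient_pow {ζ : E n → ℝ} (h : Cut D ζ) (m : ℕ) (x : E n) :
    gradient (fun x => ζ x ^ (m + 1)) x = (((m:ℝ) + 1) * ζ x ^ m) • gradient ζ x := by
  have h1 : HasGradientAt ζ (gradient ζ x) x :=
    ((h.smooth.differentiable (by simp)) x).hasGradientAt
  have h2 : HasDerivAt (fun t : ℝ => t ^ (m + 1)) (((m:ℝ) + 1) * ζ x ^ m) (ζ x) := by
    have := hasDerivAt_pow (m + 1) (ζ x)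
    simpa using this
  exact (gradient_comp h1 h2).gradient

theorem Cut.mono {D' : Set (E n)} {ζ : E n → ℝ} (h : Cut D ζ) (hD : D ⊆ D') : Cut D' ζ :=
  ⟨h.smooth, h.cpt, h.supp.trans hD⟩

/-! ### Caccioppoli inequality -/

theorem cacc_point {H : Type*} [NormedAddCommGroup H] [InnerProductSpace ℝ H] {α β δ : ℝ}
    {j : ℕ} (hp : 1 < p) (hj : p ≤ 2 * j + 2) (hα : 0 < α) (hβ : 0 < β)
    (hδ : δ = α / (2 * (2 * j + 2) * β)) {s z : ℝ} {b X N : H} (hs : 0 ≤ s) (hz : 0 ≤ z)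
    (hz1 : z ≤ 1) (h1 : α * ‖X‖ ^ p ≤ ⟪b, X⟫) (h2 : ‖b‖ ≤ β * ‖X‖ ^ (p - 1)) :
    α / 2 * (z ^ (2 * j + 2) * ‖X‖ ^ p) - (2 * j + 2) * β * δ ^ (1 - p) * (s ^ p * ‖N‖ ^ p) ≤
      ⟪b, s • (((2 * j + 2 : ℝ) * z ^ (2 * j + 1)) • N) + z ^ (2 * j + 2) • X⟫ := by
  have hj1 : (0:ℝ) < 2 * j + 2 := by positivity
  have hδ0 : 0 < δ := by rw [hδ]; positivity
  have hy := young (p := p) (s := ‖X‖) (t := s * ‖N‖) (η := z) (δ := δ) (j := j) hp hj
    (norm_nonneg _) (by positivity) hz hz1 hδ0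
  have h3 : |⟪b, N⟫| ≤ β * ‖X‖ ^ (p - 1) * ‖N‖ :=
    (abs_real_inner_le_norm _ _).trans (mul_le_mul_of_nonneg_right h2 (norm_nonneg _))
  have e : ⟪b, s • (((2 * j + 2 : ℝ) * z ^ (2 * j + 1)) • N) + z ^ (2 * j + 2) • X⟫ =
      ((2 * j + 2) * z ^ (2 * j + 1) * s) * ⟪b, N⟫ + z ^ (2 * j + 2) * ⟪b, X⟫ := by
    rw [inner_add_right, real_inner_smul_right, real_inner_smul_right, real_inner_smul_right]
    ring
  rw [e]
  have h4 : -((2 * j + 2) * β * (z ^ (2 * j + 1) * ‖X‖ ^ (p - 1) * (s * ‖N‖))) ≤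
      ((2 * j + 2) * z ^ (2 * j + 1) * s) * ⟪b, N⟫ := by
    have h5 := (abs_le.1 h3).1
    calc -((2 * j + 2) * β * (z ^ (2 * j + 1) * ‖X‖ ^ (p - 1) * (s * ‖N‖))) =
        ((2 * j + 2) * z ^ (2 * j + 1) * s) * (-(β * ‖X‖ ^ (p - 1) * ‖N‖)) := by ring
      _ ≤ _ := mul_le_mul_of_nonneg_left h5 (by positivity)
  have h6 : z ^ (2 * j + 2) * (α * ‖X‖ ^ p) ≤ z ^ (2 * j + 2) * ⟪b, X⟫ :=
    mul_le_mul_of_nonneg_left h1 (by positivity)
  have h7 : (2 * j + 2) * β * (z ^ (2 * j + 1) * ‖X‖ ^ (p - 1) * (s * ‖N‖)) ≤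
      (2 * j + 2) * β * (δ * (z ^ (2 * j + 2) * ‖X‖ ^ p) + δ ^ (1 - p) * (s * ‖N‖) ^ p) :=
    mul_le_mul_of_nonneg_left hy (by positivity)
  have h8 : (2 * j + 2) * β * (δ * (z ^ (2 * j + 2) * ‖X‖ ^ p)) =
      α / 2 * (z ^ (2 * j + 2) * ‖X‖ ^ p) := by
    rw [hδ]; field_simp
  have h9 : (s * ‖N‖) ^ p = s ^ p * ‖N‖ ^ p := Real.mul_rpow hs (norm_nonneg _)
  rw [h9] at h7
  nlinarith

theorem aesm_ite {ν : Measure (E n)} {u : E n → ℝ} (hu : AEStronglyMeasurable u ν) (k : ℝ) :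
    AEStronglyMeasurable (fun x => if k < u x then (1:ℝ) else 0) ν := by
  have : Measurable fun t : ℝ => if k < t then (1:ℝ) else 0 :=
    measurable_const.ite measurableSet_Ioi measurable_const
  exact (this.comp_aemeasurable hu.aemeasurable).aestronglyMeasurable

theorem Cut.gradient_bdd {ζ : E n → ℝ} (h : Cut D ζ) : ∃ C, ∀ x, ‖gradient ζ x‖ ≤ C :=
  h.gradient_cpt.exists_bound_of_continuous h.gradient_cont

theorem integrable_rpow_mul (hp : 1 < p) {ν : Measure (E n)} [IsFiniteMeasure ν] {s : E n → ℝ}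
    {N : E n → E n} {C C' : ℝ} (hs : AEStronglyMeasurable s ν) (hN : AEStronglyMeasurable N ν)
    (hs0 : ∀ᵐ x ∂ν, 0 ≤ s x)
    (hC : ∀ᵐ x ∂ν, s x ≤ C) (hC' : ∀ᵐ x ∂ν, ‖N x‖ ≤ C') :
    Integrable (fun x => s x ^ p * ‖N x‖ ^ p) ν := by
  have hp0 : 0 < p := by linarith
  apply Integrable.of_bound (C := C ^ p * C' ^ p)
  · exact ((hs.aemeasurable.pow_const p).mul (hN.norm.aemeasurable.pow_const p)).aestronglyMeasurable
  · filter_upwards [hs0, hC, hC'] with x h0 h1 h2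
    rw [Real.norm_of_nonneg (by positivity)]
    exact mul_le_mul (Real.rpow_le_rpow h0 h1 hp0.le) (Real.rpow_le_rpow (norm_nonneg _) h2 hp0.le)
      (by positivity) (Real.rpow_nonneg (h0.trans h1) _)

theorem cacc (hp : 1 < p) (hw : PAdmissible p w) (hA : AOperator p w A) {j : ℕ}
    (hj : p ≤ 2 * j + 2) : ∃ C : ℝ, 0 < C ∧ ∀ (D : Set (E n)), IsOpen D →
      IsFiniteMeasure ((wMeasure w).restrict D) → ∀ (u : E n → ℝ) (U : E n → E n),
      SubSol p w A D u U → ∀ (k : ℝ) (ζ : E n → ℝ), Cut D ζ → (∀ x, 0 ≤ ζ x ∧ ζ x ≤ 1) →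
      ∫ x in D, ζ x ^ (2 * j + 2) * ‖(if k < u x then (1:ℝ) else 0) • U x‖ ^ p ∂(wMeasure w) ≤
        C * ∫ x in D, (max (u x - k) 0) ^ p * ‖gradient ζ x‖ ^ p ∂(wMeasure w) := by
  have hloc := locFinite hw.locallyIntegrable
  obtain ⟨α, β, hα, hαβ, hst⟩ := struct hA hw.pos
  have hβ : 0 < β := lt_of_lt_of_le hα hαβ
  have hp0 : 0 < p := by linarith
  obtain ⟨δ, hδ⟩ : ∃ δ, δ = α / (2 * (2 * (j:ℝ) + 2) * β) := ⟨_, rfl⟩
  have hδ0 : 0 < δ := by rw [hδ]; positivity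
  set C0 : ℝ := (2 * j + 2) * β * δ ^ (1 - p) with hC0
  have hC00 : 0 < C0 := by positivity
  refine ⟨2 / α * C0, by positivity, ?_⟩
  intro D hD hfin u U hu k ζ hζ hζ01
  set μ := wMeasure w with hμ
  have hs := hu.1.trunc hp hD k
  have hχ : Cut D (fun x => ζ x ^ (2 * j + 2)) := by
    have := hζ.pow (2 * j + 1)
    exact this
  have ht := hu.test hp hw hA hD hs (Eventually.of_forall fun x => le_max_right _ _) hχ
    (fun x => pow_nonneg (hζ01 x).1 _)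
  have hgχ : ∀ x, gradient (fun x => ζ x ^ (2 * j + 2)) x =
      ((2 * j + 2 : ℝ) * ζ x ^ (2 * j + 1)) • gradient ζ x := by
    intro x
    have := hζ.gradient_pow (2 * j + 1) x
    rw [this]
    congr 2
    push_cast; ring
  simp only [hgχ] at ht
  obtain ⟨Cu, hCu⟩ := hu.1.bdd hD
  obtain ⟨CN, hCN⟩ := hζ.gradient_bdd
  have hNm : AEStronglyMeasurable (gradient ζ) (μ.restrict D) :=
    hζ.gradient_cont.aestronglyMeasurable
  have hsm : AEStronglyMeasurable (fun x => max (u x - k) 0) (μ.restrict D) := hs.aesm hD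
  have hXL := hs.inL_grad
  have iX := integrable_rpow hp hXL
  have i1 : Integrable (fun x => ζ x ^ (2 * j + 2) *
      ‖(if k < u x then (1:ℝ) else 0) • U x‖ ^ p) (μ.restrict D) := by
    apply iX.bdd_mul (c := 1) (hχ.smooth.continuous.aestronglyMeasurable)
    refine Eventually.of_forall fun x => ?_
    rw [Real.norm_of_nonneg (pow_nonneg (hζ01 x).1 _)]
    exact pow_le_one₀ (hζ01 x).1 (hζ01 x).2
  have i2 : Integrable (fun x => (max (u x - k) 0) ^ p * ‖gradient ζ x‖ ^ p)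
      (μ.restrict D) := by
    apply integrable_rpow_mul hp (C := |Cu| + |k|) (C' := CN) hsm hNm
      (Eventually.of_forall fun x => le_max_right _ _) _ (Eventually.of_forall hCN)
    filter_upwards [hCu] with x hx
    apply max_le _ (by positivity)
    have := (abs_le.1 hx).2
    linarith [neg_abs_le k, le_abs_self Cu]
  have i3 : Integrable (fun x => ⟪fld w A U x, max (u x - k) 0 •
      (((2 * j + 2 : ℝ) * ζ x ^ (2 * j + 1)) • gradient ζ x) +
      ζ x ^ (2 * j + 2) • ((if k < u x then (1:ℝ) else 0) • U x)⟫) (μ.restrict D) := by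
    apply integrable_inner hp (fld_memLp hp hw.locallyIntegrable hA hw.pos hu.1.inL_grad)
    obtain ⟨C', hχb⟩ := hχ.bhs (p := p) (μ := μ)
    obtain ⟨ψ, C, hψ⟩ := hs
    have := (hψ.mul hp hD hχb).2.2.2.2.1
    simp only [hgχ] at this
    exact this
  have hpt : ∀ᵐ x ∂(μ.restrict D), α / 2 * (ζ x ^ (2 * j + 2) *
      ‖(if k < u x then (1:ℝ) else 0) • U x‖ ^ p) - C0 * ((max (u x - k) 0) ^ p *
        ‖gradient ζ x‖ ^ p) ≤ ⟪fld w A U x, max (u x - k) 0 •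
      (((2 * j + 2 : ℝ) * ζ x ^ (2 * j + 1)) • gradient ζ x) +
      ζ x ^ (2 * j + 2) • ((if k < u x then (1:ℝ) else 0) • U x)⟫ := by
    filter_upwards [ae_restrict_of_ae hst] with x hx
    by_cases hk : k < u x
    · rw [if_pos hk, one_smul]
      exact cacc_point hp hj hα hβ hδ (le_max_right _ _) (hζ01 x).1 (hζ01 x).2 (hx (U x)).1
        (hx (U x)).2
    · rw [if_neg hk, zero_smul, max_eq_right (by linarith), norm_zero, Real.zero_rpow hp0.ne']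
      simp
  have hint := (le_of_eq (integral_sub (i1.const_mul (α / 2)) (i2.const_mul C0)).symm).trans
    (integral_mono_ae ((i1.const_mul (α / 2)).sub (i2.const_mul C0)) i3 hpt)
  rw [integral_const_mul, integral_const_mul] at hint
  have h1 := hint.trans ht
  have h2 : α / 2 * (∫ x in D, ζ x ^ (2 * j + 2) *
      ‖(if k < u x then (1:ℝ) else 0) • U x‖ ^ p ∂μ) ≤
      C0 * ∫ x in D, (max (u x - k) 0) ^ p * ‖gradient ζ x‖ ^ p ∂μ := by linarith
  calc (∫ x in D, ζ x ^ (2 * j + 2) * ‖(if k < u x then (1:ℝ) else 0) • U x‖ ^ p ∂μ) =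
      2 / α * (α / 2 * (∫ x in D, ζ x ^ (2 * j + 2) *
        ‖(if k < u x then (1:ℝ) else 0) • U x‖ ^ p ∂μ)) := by field_simp
    _ ≤ 2 / α * (C0 * ∫ x in D, (max (u x - k) 0) ^ p * ‖gradient ζ x‖ ^ p ∂μ) :=
        mul_le_mul_of_nonneg_left h2 (by positivity)
    _ = _ := by ring

end Pool.Agent.H40.NP
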