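import Pool.Agent.H40.NQCont
import Pool.Agent.H40.NQDefs

set_option autoImplicit false

open MeasureTheory Filter Topology Metric
open scoped ContDiff RealInnerProductSpace

namespace Pool.Agent.H40.NP

variable {n : ℕ} {p : ℝ} {w : E n → ℝ} {A : E n → E n → E n} {D Ω : Set (E n)}
  {μ : Measure (E n)}

theorem MemH.congr {u u' : E n → ℝ} {U U' : E n → E n} (h : MemH p μ D u U)
    (hu : ∀ᵐ x ∂(μ.restrict D), u x = u' x) (hU : ∀ᵐ x ∂(μ.restrict D), U x = U' x) :
    MemH p μ D u' U' := by
  obtain ⟨h1, h2, φ, h3, h4, h5, h6, h7⟩ := h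
  refine ⟨h1.ae_eq hu, h2.ae_eq hU, φ, h3, h4, h5, ?_, ?_⟩
  · refine h6.congr fun k => ?_
    apply eLpNorm_congr_ae
    filter_upwards [hu] with x hx
    rw [hx]
  · refine h7.congr fun k => ?_
    apply eLpNorm_congr_ae
    filter_upwards [hU] with x hx
    rw [hx]

theorem SupSol.congr {u u' : E n → ℝ} {U : E n → E n} (h : SupSol p w A D u U)
    (hu : ∀ᵐ x ∂((wMeasure w).restrict D), u x = u' x) : SupSol p w A D u' U :=
  ⟨h.1.congr hu (Eventually.of_forall fun x => rfl), h.2⟩

theorem finite_of_compInside (hw : PAdmissible p w) (h : CompInside D Ω) :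
    IsFiniteMeasure ((wMeasure w).restrict D) := by
  have hloc := locFinite hw.locallyIntegrable
  constructor
  rw [Measure.restrict_apply_univ]
  exact lt_of_le_of_lt (measure_mono subset_closure) h.2.1.measure_lt_top

/-- bounded supersolutions in the sense of pairs are supersolutions -/
theorem SupSol.isSupersolution (hp : 1 < p) (hw : PAdmissible p w) (hD : IsOpen D) {u : E n → ℝ}
    {U : E n → E n} (h : SupSol p w A D u U) : IsSupersolution p w A D u U := by
  refine ⟨fun D' hD' => ?_, fun φ h1 h2 h3 h4 => ?_⟩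
  · have := finite_of_compInside hw hD'
    exact (h.1.mono (subset_closure.trans hD'.2.2)).toMemH hp hD'.1
  · rw [integral_conv hw.locallyIntegrable hw.pos hD.measurableSet]
    exact h.2 φ ⟨h1, h2, h3⟩ h4

/-- the operator is odd -/
theorem fld_neg (hA : AOperator p w A) : ∀ᵐ x ∂(wMeasure w), ∀ ξ : E n,
    (w x)⁻¹ • A x (-ξ) = -((w x)⁻¹ • A x ξ) := by
  filter_upwards [fld_hom hA] with x hx ξ
  have := hx ξ (-1) (by norm_num)
  rw [neg_one_smul] at this
  rw [this]
  simp

theorem A_neg (hA : AOperator p w A) : ∀ᵐ x, ∀ ξ : E n, A x (-ξ) = -A x ξ := by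
  filter_upwards [hA.hom] with x hx ξ
  have := hx ξ (-1) (by norm_num)
  rw [neg_one_smul] at this
  rw [this]
  simp

/-- the negative of a supersolution is a subsolution -/
theorem SupSol.neg_isSubsolution (hp : 1 < p) (hw : PAdmissible p w) (hA : AOperator p w A)
    (hD : IsOpen D) {u : E n → ℝ}
    {U : E n → E n} (h : SupSol p w A D u U) :
    IsSubsolution p w A D (fun x => -u x) (fun x => -U x) := by
  refine ⟨fun D' hD' => ?_, fun φ h1 h2 h3 h4 => ?_⟩
  · have := finite_of_compInside hw hD'
    exact ((h.1.neg hp hD).mono (subset_closure.trans hD'.2.2)).toMemH hp hD'.1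
  · have e : ∫ x in D, ⟪A x (-U x), gradient φ x⟫ = -∫ x in D, ⟪A x (U x), gradient φ x⟫ := by
      rw [← integral_neg]
      apply integral_congr_ae
      filter_upwards [ae_restrict_of_ae (A_neg hA)] with x hx
      rw [hx, inner_neg_left]
    rw [e, integral_conv hw.locallyIntegrable hw.pos hD.measurableSet]
    have := h.2 φ ⟨h1, h2, h3⟩ h4
    linarith

theorem IsHarmonic.neg (hA : AOperator p w A) {h : E n → ℝ} (hh : IsHarmonic p w A D h) :
    IsHarmonic p w A D (fun x => -h x) := by
  obtain ⟨h1, H, h2, h3⟩ := hh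
  refine ⟨h1.neg, fun x => -H x, fun D' hD' => ?_, fun φ k1 k2 k3 => ?_⟩
  · obtain ⟨m1, m2, φ, m3, m4, m5, m6, m7⟩ := h2 D' hD'
    have hg : ∀ k, ∀ x ∈ D', gradient (fun y => -φ k y) x = -gradient (φ k) x := by
      intro k x hx
      have e1 : HasDerivAt (fun t : ℝ => -t) (-1) (φ k x) := (hasDerivAt_id _).neg
      have e2 := gradient_comp (hasGradientAt_of_contDiffOn hD'.1 (m3 k) hx) e1
      rw [neg_one_smul] at e2
      exact e2.gradient
    refine ⟨m1.neg, m2.neg, fun k x => -φ k x, fun k => (m3 k).neg, fun k => (m4 k).neg,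
      fun k => (m5 k).neg.ae_eq (ae_restrict_of_mem hD'.1 fun x hx => (hg k x hx).symm), ?_, ?_⟩
    · refine m6.congr fun k => ?_
      unfold nrm
      rw [← eLpNorm_neg]
      apply eLpNorm_congr_ae
      refine Eventually.of_forall fun x => ?_
      simp only [Pi.neg_apply]; ring
    · refine m7.congr fun k => ?_
      unfold nrm
      rw [← eLpNorm_neg]
      apply eLpNorm_congr_ae
      refine ae_restrict_of_mem hD'.1 fun x hx => ?_
      simp only [Pi.neg_apply]
      rw [hg k x hx]; abel
  · have e : ∫ x in D, ⟪A x (-H x), gradient φ x⟫ = -∫ x in D, ⟪A x (H x), gradient φ x⟫ := by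
      rw [← integral_neg]
      apply integral_congr_ae
      filter_upwards [ae_restrict_of_ae (A_neg hA)] with x hx
      rw [hx, inner_neg_left]
    rw [e, h3 φ k1 k2 k3, neg_zero]

theorem IsSubharmonic.neg (hA : AOperator p w A) {v : E n → ℝ} (hv : IsSubharmonic p w A Ω v) :
    IsSuperharmonic p w A Ω (fun x => -v x) := by
  refine ⟨?_, fun D h hD hc hh hb x hx => ?_⟩
  · intro x hx y hy
    have := hv.usc x hx (-y) (by linarith)
    filter_upwards [this] with z hz
    linarith
  · have := hv.comparison D (fun x => -h x) hD hc.neg (hh.neg hA)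
      (fun x hx => by linarith [hb x hx]) x hx
    linarith

/-- comparison of solutions of obstacle problems with superharmonic functions -/
theorem Obst.le_super (hp : 1 < p) (hw : PAdmissible p w) (hA : AOperator p w A)
    {u : E n → ℝ} (hu : IsSuperharmonic p w A Ω u) (hD : CompInside D Ω)
    {ψ g : E n → ℝ} {G : E n → E n} (h : Obst p w A D ψ g G) (hψ : Cut Set.univ ψ) {M : ℝ}
    (hM : ∀ x, |ψ x| ≤ M) (hψu : ∀ x ∈ closure D, ψ x ≤ u x) {f : E n → ℝ}
    (hf : Continuous f) (hae : ∀ᵐ x ∂(wMeasure w), ψ x + g x = f x)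
    (hoff : ∀ x, x ∉ D → f x = ψ x) :
    ∀ x ∈ closure D, f x ≤ u x := by
  have hloc := locFinite hw.locallyIntegrable
  have hDo : IsOpen D := hD.1
  have hDb : Bornology.IsBounded D := hD.2.1.isBounded.subset subset_closure
  have key : ∀ ε : ℝ, 0 < ε → ∀ x ∈ closure D, f x ≤ u x + ε := by
    intro ε hε
    obtain ⟨Gε, hGε⟩ : ∃ Gε : Set (E n), Gε = {x | ψ x + ε < f x} := ⟨_, rfl⟩
    have hGo : IsOpen Gε := by
      rw [hGε]; exact isOpen_lt (hψ.smooth.continuous.add continuous_const) hf
    have hGD : closure Gε ⊆ D := by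
      intro x hx
      by_contra hxD
      have h1 : closure Gε ⊆ {x | ψ x + ε ≤ f x} := by
        apply closure_minimal _ (isClosed_le (hψ.smooth.continuous.add continuous_const) hf)
        intro y hy
        rw [hGε] at hy
        have hy' : ψ y + ε < f y := hy
        exact hy'.le
      have h2 : ψ x + ε ≤ f x := h1 hx
      rw [hoff x hxD] at h2
      linarith
    have hGD' : Gε ⊆ D := subset_closure.trans hGD
    have hGc : CompInside Gε Ω := by
      refine ⟨hGo, ?_, hGD.trans (subset_closure.trans hD.2.2)⟩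
      exact hD.2.1.of_isClosed_subset isClosed_closure (hGD.trans subset_closure)
    have hharm : IsHarmonic p w A Gε (fun x => f x - ε) := by
      refine ⟨(hf.sub continuous_const).continuousOn, fun x => gradient ψ x + G x,
        fun D' hD' => ?_, fun φ k1 k2 k3 => ?_⟩
      · have := finite_of_compInside hw hD'
        have h1 := ((h.bh hp hw hA hDo hDb hψ hM hD'.1).add_const hp hD'.1 (-ε)).toMemH hp hD'.1
        refine h1.congr ?_ (Eventually.of_forall fun x => rfl)
        filter_upwards [ae_restrict_of_ae hae] with x hx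
        rw [hx]; ring
      · have hc : Cut Gε φ := ⟨k1, k2, k3⟩
        rw [integral_conv hw.locallyIntegrable hw.pos hGo.measurableSet]
        rw [integral_cut_mono hDo hGD' hc]
        apply h.harm hp hw (hc.mono hGD') hε
        filter_upwards [hae] with x hx hxs
        have h1 : x ∈ Gε := k3 hxs
        rw [hGε] at h1
        have h2 : ψ x + ε < f x := h1
        linarith
    have hcmp := hu.comparison Gε (fun x => f x - ε) hGc (hf.sub continuous_const).continuousOn
      hharm (fun x hx => by
        have h1 : x ∉ Gε := fun hxG => by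
          rw [hGo.frontier_eq] at hx; exact hx.2 hxG
        rw [hGε] at h1
        have h2 : f x ≤ ψ x + ε := not_lt.1 h1
        have h3 := hψu x (subset_closure (hGD (frontier_subset_closure hx)))
        linarith)
    intro x hx
    by_cases hxG : x ∈ Gε
    · have := hcmp x hxG
      linarith
    · rw [hGε] at hxG
      have h2 : f x ≤ ψ x + ε := not_lt.1 hxG
      linarith [hψu x hx]
  intro x hx
  exact le_of_forall_pos_le_add fun ε hε => key ε hε x hx

end Pool.Agent.H40.NP
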