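import Pool.Agent.H40.NQWeak
import Pool.Agent.H40.NQAbs

set_option autoImplicit false

open MeasureTheory Filter Topology Metric
open scoped ContDiff RealInnerProductSpace

namespace Pool.Agent.H40.NP

variable {n : ℕ} {p : ℝ} {w : E n → ℝ} {A : E n → E n → E n} {D Ω : Set (E n)}
  {μ : Measure (E n)}

section General

variable {H : Type*} [NormedAddCommGroup H] [InnerProductSpace ℝ H]

/-- the defect of convexity of `‖·‖^p` -/
noncomputable def defect (p : ℝ) (a b : H) : ℝ :=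
  (‖a‖ ^ p + ‖b‖ ^ p) / 2 - ‖(1 / 2 : ℝ) • a + (1 / 2 : ℝ) • b‖ ^ p

theorem half_rpow_le (hp : 1 < p) {x y : ℝ} (hx : 0 ≤ x) (hy : 0 ≤ y) :
    ((1 / 2) * x + (1 / 2) * y) ^ p ≤ (x ^ p + y ^ p) / 2 := by
  have h := (convexOn_rpow hp.le).2 (show x ∈ Set.Ici (0:ℝ) from hx)
    (show y ∈ Set.Ici (0:ℝ) from hy) (show (0:ℝ) ≤ 1 / 2 by norm_num)
    (show (0:ℝ) ≤ 1 / 2 by norm_num) (by norm_num)
  simp only [smul_eq_mul] at h
  linarith

theorem half_rpow_lt (hp : 1 < p) {x y : ℝ} (hx : 0 ≤ x) (hy : 0 ≤ y) (hxy : x ≠ y) :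
    ((1 / 2) * x + (1 / 2) * y) ^ p < (x ^ p + y ^ p) / 2 := by
  have h := (strictConvexOn_rpow hp).2 (show x ∈ Set.Ici (0:ℝ) from hx)
    (show y ∈ Set.Ici (0:ℝ) from hy) hxy (show (0:ℝ) < 1 / 2 by norm_num)
    (show (0:ℝ) < 1 / 2 by norm_num) (by norm_num)
  simp only [smul_eq_mul] at h
  linarith

theorem norm_half_le (a b : H) :
    ‖(1 / 2 : ℝ) • a + (1 / 2 : ℝ) • b‖ ≤ (1 / 2) * ‖a‖ + (1 / 2) * ‖b‖ := by
  refine (norm_add_le _ _).trans (le_of_eq ?_)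
  rw [norm_smul, norm_smul]
  norm_num

theorem defect_nonneg (hp : 1 < p) (a b : H) : 0 ≤ defect p a b := by
  unfold defect
  have h1 := half_rpow_le hp (norm_nonneg a) (norm_nonneg b)
  have h2 : ‖(1 / 2 : ℝ) • a + (1 / 2 : ℝ) • b‖ ^ p ≤ ((1 / 2) * ‖a‖ + (1 / 2) * ‖b‖) ^ p :=
    Real.rpow_le_rpow (norm_nonneg _) (norm_half_le a b) (by linarith)
  linarith

theorem defect_pos (hp : 1 < p) {a b : H} (hab : a ≠ b) : 0 < defect p a b := by
  unfold defect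
  by_cases h : ‖a‖ = ‖b‖
  · have h1 : ‖(1 / 2 : ℝ) • a + (1 / 2 : ℝ) • b‖ < ‖b‖ :=
      norm_combo_lt_of_ne h.le le_rfl hab (by norm_num) (by norm_num) (by norm_num)
    have h2 := Real.rpow_lt_rpow (norm_nonneg _) h1 (show 0 < p by linarith)
    rw [h]
    linarith
  · have h1 := half_rpow_lt hp (norm_nonneg a) (norm_nonneg b) h
    have h2 : ‖(1 / 2 : ℝ) • a + (1 / 2 : ℝ) • b‖ ^ p ≤ ((1 / 2) * ‖a‖ + (1 / 2) * ‖b‖) ^ p :=
      Real.rpow_le_rpow (norm_nonneg _) (norm_half_le a b) (by linarith)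
    linarith

theorem defect_cont (hp : 1 < p) : Continuous fun z : H × H => defect p z.1 z.2 := by
  unfold defect
  have hp0 : 0 ≤ p := by linarith
  have h1 : Continuous fun z : H × H => ‖z.1‖ ^ p :=
    continuous_fst.norm.rpow_const fun _ => Or.inr hp0
  have h2 : Continuous fun z : H × H => ‖z.2‖ ^ p :=
    continuous_snd.norm.rpow_const fun _ => Or.inr hp0
  have h3 : Continuous fun z : H × H => ‖(1 / 2 : ℝ) • z.1 + (1 / 2 : ℝ) • z.2‖ ^ p :=
    (((continuous_const.smul continuous_fst).add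
      (continuous_const.smul continuous_snd)).norm).rpow_const fun _ => Or.inr hp0
  exact ((h1.add h2).div_const 2).sub h3

theorem defect_smul (hp : 1 < p) {l : ℝ} (hl : 0 ≤ l) (a b : H) :
    defect p (l • a) (l • b) = l ^ p * defect p a b := by
  unfold defect
  have h1 : ∀ c : H, ‖l • c‖ ^ p = l ^ p * ‖c‖ ^ p := fun c => by
    rw [norm_smul, Real.norm_of_nonneg hl, Real.mul_rpow hl (norm_nonneg _)]
  have h2 : (1 / 2 : ℝ) • l • a + (1 / 2 : ℝ) • l • b =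
      l • ((1 / 2 : ℝ) • a + (1 / 2 : ℝ) • b) := by
    rw [smul_add, smul_comm l, smul_comm l]
  rw [h2, h1, h1, h1]
  ring

/-- pointwise uniform convexity -/
theorem uc_point [FiniteDimensional ℝ H] (hp : 1 < p) {ε : ℝ} (hε : 0 < ε) : ∃ C : ℝ, 0 ≤ C ∧ ∀ a b : H,
    ‖a - b‖ ^ p ≤ ε * (‖a‖ ^ p + ‖b‖ ^ p) + C * defect p a b := by
  have hp0 : 0 < p := by linarith
  have hprop : ProperSpace H := FiniteDimensional.proper ℝ H
  have hc1 : Continuous fun z : H × H => ‖z.1‖ ^ p + ‖z.2‖ ^ p :=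
    (continuous_fst.norm.rpow_const fun _ => Or.inr hp0.le).add
      (continuous_snd.norm.rpow_const fun _ => Or.inr hp0.le)
  have hc2 : Continuous fun z : H × H => ‖z.1 - z.2‖ ^ p :=
    (continuous_fst.sub continuous_snd).norm.rpow_const fun _ => Or.inr hp0.le
  obtain ⟨Q, hQ⟩ : ∃ Q : Set (H × H), Q = {z | ‖z.1‖ ^ p + ‖z.2‖ ^ p = 1 ∧
    ε ≤ ‖z.1 - z.2‖ ^ p} := ⟨_, rfl⟩
  have hQcl : IsClosed Q := by
    rw [hQ]
    exact (isClosed_eq hc1 continuous_const).inter (isClosed_le continuous_const hc2)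
  have hle1 : ∀ c : H, ‖c‖ ^ p ≤ 1 → ‖c‖ ≤ 1 := by
    intro c hc
    by_contra hcon
    push Not at hcon
    exact absurd hc (not_le.2 (Real.one_lt_rpow hcon hp0))
  have hQb : Q ⊆ closedBall 0 1 ×ˢ closedBall 0 1 := by
    rintro ⟨a, b⟩ hz
    rw [hQ] at hz
    have h1 : ‖a‖ ^ p + ‖b‖ ^ p = 1 := hz.1
    have h2 : 0 ≤ ‖a‖ ^ p := by positivity
    have h3 : 0 ≤ ‖b‖ ^ p := by positivity
    refine ⟨mem_closedBall_zero_iff.2 (hle1 a (by linarith)),
      mem_closedBall_zero_iff.2 (hle1 b (by linarith))⟩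
  have hQc : IsCompact Q :=
    ((isCompact_closedBall _ _).prod (isCompact_closedBall _ _)).of_isClosed_subset hQcl hQb
  -- normalised version
  have hnorm : ∃ C : ℝ, 0 ≤ C ∧ ∀ a b : H, ‖a‖ ^ p + ‖b‖ ^ p = 1 →
      ‖a - b‖ ^ p ≤ ε + C * defect p a b := by
    rcases Q.eq_empty_or_nonempty with hQe | hQne
    · refine ⟨0, le_rfl, fun a b hab => ?_⟩
      by_contra hcon
      push Not at hcon
      have : (a, b) ∈ Q := by
        rw [hQ]; exact ⟨hab, by linarith⟩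
      rw [hQe] at this
      exact this
    · obtain ⟨z0, hz0, hmin⟩ := hQc.exists_isMinOn hQne (defect_cont (H := H) hp).continuousOn
      have hz0' := hz0
      rw [hQ] at hz0'
      have hd : 0 < defect p z0.1 z0.2 := by
        apply defect_pos hp
        intro h
        have h1 := hz0'.2
        rw [h, sub_self, norm_zero, Real.zero_rpow hp0.ne'] at h1
        linarith
      refine ⟨2 ^ p / defect p z0.1 z0.2, by positivity, fun a b hab => ?_⟩
      by_cases hz : (a, b) ∈ Q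
      · have h1 : defect p z0.1 z0.2 ≤ defect p a b := hmin hz
        have h2 : ‖a - b‖ ^ p ≤ 2 ^ p := by
          apply Real.rpow_le_rpow (norm_nonneg _) _ hp0.le
          have h3 := hQb hz
          have h4 : ‖a‖ ≤ 1 := mem_closedBall_zero_iff.1 h3.1
          have h5 : ‖b‖ ≤ 1 := mem_closedBall_zero_iff.1 h3.2
          exact (norm_sub_le _ _).trans (by linarith)
        have h3 : (2:ℝ) ^ p ≤ 2 ^ p / defect p z0.1 z0.2 * defect p a b := by
          rw [div_mul_eq_mul_div, le_div_iff₀ hd]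
          exact mul_le_mul_of_nonneg_left h1 (by positivity)
        linarith
      · rw [hQ] at hz
        have h1 : ‖a - b‖ ^ p < ε := by
          by_contra hcon
          exact hz ⟨hab, not_lt.1 hcon⟩
        have h2 : 0 ≤ 2 ^ p / defect p z0.1 z0.2 * defect p a b :=
          mul_nonneg (by positivity) (defect_nonneg hp a b)
        linarith
  obtain ⟨C, hC, h⟩ := hnorm
  refine ⟨C, hC, fun a b => ?_⟩
  have h2 : 0 ≤ ‖a‖ ^ p := by positivity
  have h3 : 0 ≤ ‖b‖ ^ p := by positivity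
  rcases (add_nonneg h2 h3).eq_or_lt with hs | hs
  · have ha : ‖a‖ ^ p = 0 := by linarith
    have hb : ‖b‖ ^ p = 0 := by linarith
    have ha' : a = 0 := by
      rwa [Real.rpow_eq_zero (norm_nonneg _) hp0.ne', norm_eq_zero] at ha
    have hb' : b = 0 := by
      rwa [Real.rpow_eq_zero (norm_nonneg _) hp0.ne', norm_eq_zero] at hb
    subst ha'; subst hb'
    have h4 := mul_nonneg hC (defect_nonneg hp (0 : H) 0)
    rw [sub_self, norm_zero, Real.zero_rpow hp0.ne']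
    linarith
  · obtain ⟨s, hsd⟩ : ∃ s, s = ‖a‖ ^ p + ‖b‖ ^ p := ⟨_, rfl⟩
    rw [← hsd] at hs ⊢
    obtain ⟨l, hl⟩ : ∃ l : ℝ, l = s ^ (-(1 / p)) := ⟨_, rfl⟩
    have hl0 : 0 < l := by rw [hl]; positivity
    have hlp : l ^ p = s⁻¹ := by
      rw [hl, ← Real.rpow_mul hs.le, show -(1 / p) * p = -1 by field_simp, Real.rpow_neg_one]
    have hsm : ∀ c : H, ‖l • c‖ ^ p = s⁻¹ * ‖c‖ ^ p := fun c => by
      rw [norm_smul, Real.norm_of_nonneg hl0.le, Real.mul_rpow hl0.le (norm_nonneg _), hlp]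
    have h4 := h (l • a) (l • b) (by
      rw [hsm, hsm, ← mul_add, ← hsd, inv_mul_cancel₀ hs.ne'])
    rw [← smul_sub, hsm, defect_smul hp hl0.le, hlp] at h4
    have h5 := mul_le_mul_of_nonneg_left h4 hs.le
    rw [← mul_assoc, mul_inv_cancel₀ hs.ne', one_mul] at h5
    have h6 : s * (ε + C * (s⁻¹ * defect p a b)) = ε * s + C * defect p a b := by
      field_simp
    linarith

end General

/-- integrated uniform convexity -/
theorem uc_int (hp : 1 < p) {ε : ℝ} (hε : 0 < ε) : ∃ C : ℝ, 0 ≤ C ∧ ∀ (μ : Measure (E n))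
    (X Y : E n → E n), MemLp X (ENNReal.ofReal p) μ → MemLp Y (ENNReal.ofReal p) μ →
    ∫ x, ‖X x - Y x‖ ^ p ∂μ ≤ ε * (∫ x, ‖X x‖ ^ p ∂μ + ∫ x, ‖Y x‖ ^ p ∂μ) +
      C * ((∫ x, ‖X x‖ ^ p ∂μ + ∫ x, ‖Y x‖ ^ p ∂μ) / 2 -
        ∫ x, ‖(1 / 2 : ℝ) • X x + (1 / 2 : ℝ) • Y x‖ ^ p ∂μ) := by
  obtain ⟨C, hC, h⟩ := uc_point (H := E n) hp hε
  refine ⟨C, hC, fun μ X Y hX hY => ?_⟩
  have hi : ∀ Z : E n → E n, MemLp Z (ENNReal.ofReal p) μ → Integrable (fun x => ‖Z x‖ ^ p) μ := by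
    intro Z hZ
    have := hZ.integrable_norm_rpow (q_ne_zero hp) ENNReal.ofReal_ne_top
    rwa [q_toReal hp] at this
  have i1 := hi X hX
  have i2 := hi Y hY
  have i3 := hi _ ((hX.const_smul (1 / 2 : ℝ)).add (hY.const_smul (1 / 2 : ℝ)))
  have i3' : Integrable (fun x => ‖(1 / 2 : ℝ) • X x + (1 / 2 : ℝ) • Y x‖ ^ p) μ := i3
  have i4 : Integrable (fun x => ‖X x - Y x‖ ^ p) μ := hi _ (hX.sub hY)
  have i12 : Integrable (fun x => ‖X x‖ ^ p + ‖Y x‖ ^ p) μ := i1.add i2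
  have idf : Integrable (fun x => defect p (X x) (Y x)) μ := (i12.div_const 2).sub i3'
  have e1 : ∫ x, defect p (X x) (Y x) ∂μ = (∫ x, ‖X x‖ ^ p ∂μ + ∫ x, ‖Y x‖ ^ p ∂μ) / 2 -
        ∫ x, ‖(1 / 2 : ℝ) • X x + (1 / 2 : ℝ) • Y x‖ ^ p ∂μ := by
    unfold defect
    rw [integral_sub (i12.div_const 2) i3', integral_div, integral_add i1 i2]
  rw [← e1, ← integral_add i1 i2, ← integral_const_mul, ← integral_const_mul,
    ← integral_add (i12.const_mul ε) (idf.const_mul C)]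
  exact integral_mono i4 ((i12.const_mul ε).add (idf.const_mul C)) fun x => h _ _

end Pool.Agent.H40.NP
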