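import Pool.Agent.H40.NQLog

set_option autoImplicit false

open MeasureTheory Filter Topology Metric
open scoped ContDiff RealInnerProductSpace

namespace Pool.Agent.H40.NP

variable {n : ℕ} {p : ℝ} {w : E n → ℝ} {A : E n → E n → E n} {D Ω : Set (E n)}
  {μ : Measure (E n)}

theorem integral_cut_mono {D' : Set (E n)} (hD : IsOpen D) (hDD : D' ⊆ D) {b : E n → E n}
    {ζ : E n → ℝ} (hζ : Cut D' ζ) :
    ∫ x in D', ⟪b x, gradient ζ x⟫ ∂μ = ∫ x in D, ⟪b x, gradient ζ x⟫ ∂μ := by
  symm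
  apply setIntegral_eq_of_subset_of_forall_sdiff_eq_zero hD.measurableSet hDD
  intro x hx
  rw [gradient_eq_zero_of_notMem (fun h => hx.2 (hζ.supp h)), inner_zero_right]

theorem SubSol.mono {D' : Set (E n)} (hD : IsOpen D) (hDD : D' ⊆ D) {u : E n → ℝ}
    {U : E n → E n} (hu : SubSol p w A D u U) : SubSol p w A D' u U := by
  refine ⟨hu.1.mono hDD, fun ζ hζ hζ0 => ?_⟩
  rw [integral_cut_mono hD hDD hζ]
  exact hu.2 ζ (hζ.mono hDD) hζ0

theorem SupSol.mono {D' : Set (E n)} (hD : IsOpen D) (hDD : D' ⊆ D) {u : E n → ℝ}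
    {U : E n → E n} (hu : SupSol p w A D u U) : SupSol p w A D' u U := by
  refine ⟨hu.1.mono hDD, fun ζ hζ hζ0 => ?_⟩
  rw [integral_cut_mono hD hDD hζ]
  exact hu.2 ζ (hζ.mono hDD) hζ0

/-- affine changes `c u + d` with `c > 0` of supersolutions -/
theorem SupSol.affine (hp : 1 < p) (hA : AOperator p w A) (hD : IsOpen D) {u : E n → ℝ}
    {U : E n → E n} (hu : SupSol p w A D u U) {c : ℝ} (hc : 0 < c) (d : ℝ) :
    SupSol p w A D (fun x => c * u x + d) (fun x => c • U x) := by
  refine ⟨(hu.1.const_mul hp hD c).add_const hp hD d, fun ζ hζ hζ0 => ?_⟩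
  have e : ∫ x in D, ⟪fld w A (fun x => c • U x) x, gradient ζ x⟫ ∂(wMeasure w) =
      (c * |c| ^ (p - 2)) * ∫ x in D, ⟪fld w A U x, gradient ζ x⟫ ∂(wMeasure w) := by
    rw [← integral_const_mul]
    apply integral_congr_ae
    filter_upwards [ae_restrict_of_ae (fld_hom hA)] with x hx
    unfold fld
    rw [hx (U x) c hc.ne', real_inner_smul_left]
  rw [e]
  exact mul_nonneg (mul_nonneg hc.le (by positivity)) (hu.2 ζ hζ hζ0)

/-- `c u + d` with `c < 0` of a subsolution is a supersolution -/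
theorem SubSol.affine_neg (hp : 1 < p) (hA : AOperator p w A) (hD : IsOpen D) {u : E n → ℝ}
    {U : E n → E n} (hu : SubSol p w A D u U) {c : ℝ} (hc : c < 0) (d : ℝ) :
    SupSol p w A D (fun x => c * u x + d) (fun x => c • U x) := by
  refine ⟨(hu.1.const_mul hp hD c).add_const hp hD d, fun ζ hζ hζ0 => ?_⟩
  have e : ∫ x in D, ⟪fld w A (fun x => c • U x) x, gradient ζ x⟫ ∂(wMeasure w) =
      (c * |c| ^ (p - 2)) * ∫ x in D, ⟪fld w A U x, gradient ζ x⟫ ∂(wMeasure w) := by
    rw [← integral_const_mul]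
    apply integral_congr_ae
    filter_upwards [ae_restrict_of_ae (fld_hom hA)] with x hx
    unfold fld
    rw [hx (U x) c hc.ne, real_inner_smul_left]
  rw [e]
  exact mul_nonneg_of_nonpos_of_nonpos (mul_nonpos_of_nonpos_of_nonneg hc.le (by positivity))
    (hu.2 ζ hζ hζ0)

theorem ball_doubling (hw : PAdmissible p w) : ∃ Cd : ℝ, 0 < Cd ∧ ∀ (x : E n) (r : ℝ), 0 < r →
    (wMeasure w).real (ball x (2 * r)) ≤ Cd * (wMeasure w).real (ball x r) := by
  have := locFinite hw.locallyIntegrable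
  obtain ⟨C, hC⟩ := hw.doubling
  refine ⟨max C 1, by positivity, fun x r hr => ?_⟩
  have h1 := hC x r hr
  have h2 : (wMeasure w) (ball x r) ≠ ⊤ := measure_ball_lt_top.ne
  unfold Measure.real
  have h3 := ENNReal.toReal_mono (ENNReal.mul_ne_top ENNReal.ofReal_ne_top h2) h1
  rw [ENNReal.toReal_mul] at h3
  refine h3.trans (mul_le_mul_of_nonneg_right ?_ ENNReal.toReal_nonneg)
  rcases le_or_gt 0 C with h | h
  · rw [ENNReal.toReal_ofReal h]; exact le_max_left _ _
  · rw [ENNReal.ofReal_of_nonpos h.le, ENNReal.toReal_zero]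
    exact zero_le_one.trans (le_max_right _ _)

/-- the growth lemma, normalised -/
theorem grow_one (hp : 1 < p) (hw : PAdmissible p w) (hA : AOperator p w A) {τ : ℝ}
    (hτ : 0 < τ) : ∃ c : ℝ, 0 < c ∧ ∀ (x0 : E n) (R : ℝ) (u : E n → ℝ) (U : E n → E n), 0 < R →
      SupSol p w A (ball x0 R) u U → (∀ᵐ x ∂((wMeasure w).restrict (ball x0 R)), 0 ≤ u x) →
      ∀ T : Set (E n), MeasurableSet T → T ⊆ ball x0 (R / 2) →
      (∀ᵐ x ∂((wMeasure w).restrict T), 1 ≤ u x) →
      τ * (wMeasure w).real (ball x0 (R / 2)) ≤ (wMeasure w).real T →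
      ∀ᵐ x ∂((wMeasure w).restrict (ball x0 (R / 4))), c ≤ u x := by
  have hloc := locFinite hw.locallyIntegrable
  have hp0 : 0 < p := by linarith
  obtain ⟨j, hj⟩ : ∃ j : ℕ, p ≤ 2 * j + 2 := by
    obtain ⟨j, hj⟩ := exists_nat_ge p
    exact ⟨j, by linarith [(Nat.cast_nonneg j : (0:ℝ) ≤ j)]⟩
  obtain ⟨C5, hC5, hlog⟩ := log_sub hp hw hA hj
  obtain ⟨C3, hC3, hsup⟩ := sup_L1 hp hw hA
  obtain ⟨CP, hCP, hpoi⟩ := poinc_pair hp hw
  obtain ⟨Cd, hCd, hdb⟩ := ball_doubling hw
  obtain ⟨L, hL, hcut⟩ := exists_cut (n := n)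
  obtain ⟨C6, hC6⟩ : ∃ C6 : ℝ, C6 = CP * L * (C5 * Cd) ^ (1 / p) := ⟨_, rfl⟩
  have hC60 : 0 < C6 := by rw [hC6]; positivity
  refine ⟨Real.exp (-(C3 * (C6 / τ))), Real.exp_pos _, ?_⟩
  intro x0 R u U hR hu hu0 T hTm hT hT1 hTτ
  set μ := wMeasure w with hμ
  have hR2 : 0 < R / 2 := by positivity
  set m := μ.real (ball x0 (R / 2)) with hm
  have hm0 : 0 < m := ball_pos hw x0 hR2
  have hfin := ball_fin hw x0 R
  have hfin2 := ball_fin hw x0 (R / 2)
  have hsubR : ball x0 (R / 2) ⊆ ball x0 R := ball_subset_ball (by linarith)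
  obtain ⟨ζ, hζ, hζ01, hζ1, hζg⟩ := hcut x0 (R / 2) R hR2 (by linarith)
  have key : ∀ δ : ℝ, 0 < δ → ∀ᵐ x ∂(μ.restrict (ball x0 (R / 4))),
      lf δ (u x) ≤ C3 * (C6 / τ) := by
    intro δ hδ
    obtain ⟨hv, hen⟩ := hlog (ball x0 R) isOpen_ball hfin u U hu hu0 δ hδ
    obtain ⟨V, hV⟩ : ∃ V : E n → E n, V = fun x => deriv (lf δ) (u x) • U x := ⟨_, rfl⟩
    have hVx : ∀ x, deriv (lf δ) (u x) • U x = V x := fun x => by rw [hV]
    rw [← hV] at hv
    simp only [hVx] at hen
    have hen' := hen ζ hζ hζ01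
    -- energy bound on the half ball
    have iV : Integrable (fun x => ‖V x‖ ^ p) (μ.restrict (ball x0 R)) :=
      integrable_rpow hp hv.1.inL_grad
    have iζV : Integrable (fun x => ζ x ^ (2 * j + 2) * ‖V x‖ ^ p) (μ.restrict (ball x0 R)) := by
      have hc : Continuous fun x => ζ x ^ (2 * j + 2) := hζ.smooth.continuous.pow _
      apply iV.bdd_mul (c := 1) hc.aestronglyMeasurable
      refine Eventually.of_forall fun x => ?_
      rw [Real.norm_of_nonneg (pow_nonneg (hζ01 x).1 _)]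
      exact pow_le_one₀ (hζ01 x).1 (hζ01 x).2
    have e1 : ∫ x in ball x0 (R / 2), ‖V x‖ ^ p ∂μ ≤
        ∫ x in ball x0 R, ζ x ^ (2 * j + 2) * ‖V x‖ ^ p ∂μ := by
      calc ∫ x in ball x0 (R / 2), ‖V x‖ ^ p ∂μ =
          ∫ x in ball x0 (R / 2), ζ x ^ (2 * j + 2) * ‖V x‖ ^ p ∂μ := by
            apply setIntegral_congr_fun measurableSet_ball
            intro x hx
            simp only
            rw [hζ1 x (ball_subset_closedBall hx), one_pow, one_mul]
        _ ≤ _ := by
            apply setIntegral_mono_set iζV _ (Eventually.of_forall hsubR)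
            exact Eventually.of_forall fun x => mul_nonneg (pow_nonneg (hζ01 x).1 _)
              (by positivity)
    have e2 : ∫ x in ball x0 R, ‖gradient ζ x‖ ^ p ∂μ ≤ (L / (R / 2)) ^ p * (Cd * m) := by
      have h1 : ∫ x in ball x0 R, ‖gradient ζ x‖ ^ p ∂μ ≤
          ∫ x in ball x0 R, (L / (R / 2)) ^ p ∂μ := by
        apply integral_mono_of_nonneg (Eventually.of_forall fun x => by positivity)
          (integrable_const _)
        refine Eventually.of_forall fun x => ?_
        apply Real.rpow_le_rpow (norm_nonneg _) _ hp0.le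
        have := hζg x
        rwa [show R - R / 2 = R / 2 by ring] at this
      rw [integral_const, measureReal_restrict_apply_univ, smul_eq_mul] at h1
      have h2 := hdb x0 (R / 2) hR2
      rw [show 2 * (R / 2) = R by ring] at h2
      refine h1.trans ?_
      rw [mul_comm]
      exact mul_le_mul_of_nonneg_left h2 (by positivity)
    have e3 : ∫ x in ball x0 (R / 2), ‖V x‖ ^ p ∂μ ≤
        C5 * ((L / (R / 2)) ^ p * (Cd * m)) :=
      e1.trans (hen'.trans (mul_le_mul_of_nonneg_left e2 hC5.le))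
    -- positive part
    have hvp := (hv.1.mono hsubR).trunc hp isOpen_ball 0
    simp only [sub_zero] at hvp
    have hp1 := hpoi x0 (R / 2) _ _ hR2 hvp
    rw [← hm] at hp1
    set a := m⁻¹ * ∫ z in ball x0 (R / 2), max (lf δ (u z)) 0 ∂μ with ha
    have e4 : ∫ y in ball x0 (R / 2), ‖(if 0 < lf δ (u y) then (1:ℝ) else 0) • V y‖ ^ p ∂μ ≤
        C5 * ((L / (R / 2)) ^ p * (Cd * m)) := by
      refine le_trans ?_ e3
      apply integral_mono_of_nonneg (Eventually.of_forall fun x => by positivity)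
        (iV.mono_measure (Measure.restrict_mono hsubR le_rfl))
      refine Eventually.of_forall fun x => ?_
      apply Real.rpow_le_rpow (norm_nonneg _) _ hp0.le
      split_ifs
      · rw [one_smul]
      · rw [zero_smul, norm_zero]; exact norm_nonneg _
    have e5 : CP * (R / 2) * m * (m⁻¹ * ∫ y in ball x0 (R / 2),
        ‖(if 0 < lf δ (u y) then (1:ℝ) else 0) • V y‖ ^ p ∂μ) ^ (1 / p) ≤ m * C6 := by
      have h1 : (m⁻¹ * ∫ y in ball x0 (R / 2),
          ‖(if 0 < lf δ (u y) then (1:ℝ) else 0) • V y‖ ^ p ∂μ) ^ (1 / p) ≤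
          L / (R / 2) * (C5 * Cd) ^ (1 / p) := by
        calc (m⁻¹ * ∫ y in ball x0 (R / 2),
          ‖(if 0 < lf δ (u y) then (1:ℝ) else 0) • V y‖ ^ p ∂μ) ^ (1 / p) ≤
          (m⁻¹ * (C5 * ((L / (R / 2)) ^ p * (Cd * m)))) ^ (1 / p) := by
              apply Real.rpow_le_rpow _ _ (by positivity)
              · exact mul_nonneg (by positivity) (integral_nonneg fun x => by positivity)
              · exact mul_le_mul_of_nonneg_left e4 (by positivity)
          _ = ((L / (R / 2)) ^ p * (C5 * Cd)) ^ (1 / p) := by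
              congr 1; field_simp
          _ = _ := by
              rw [Real.mul_rpow (by positivity) (by positivity), ← Real.rpow_mul (by positivity),
                mul_one_div_cancel hp0.ne', Real.rpow_one]
      calc _ ≤ CP * (R / 2) * m * (L / (R / 2) * (C5 * Cd) ^ (1 / p)) :=
            mul_le_mul_of_nonneg_left h1 (by positivity)
        _ = m * C6 := by rw [hC6]; field_simp
    have e6 := hp1.trans e5
    -- the mean value of the positive part
    have hvm := hvp.aesm isOpen_ball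
    obtain ⟨Cv, hCv⟩ := hvp.bdd isOpen_ball
    have ivp : Integrable (fun y => max (lf δ (u y)) 0) (μ.restrict (ball x0 (R / 2))) :=
      Integrable.of_bound hvm Cv hCv
    have iva : Integrable (fun y => |max (lf δ (u y)) 0 - a|) (μ.restrict (ball x0 (R / 2))) :=
      (ivp.sub (integrable_const a)).abs
    have ha0 : 0 ≤ a := by
      rw [ha]
      exact mul_nonneg (by positivity) (integral_nonneg fun x => le_max_right _ _)
    have e7 : a * μ.real T ≤ m * C6 := by
      have h1 : ∫ y in T, |max (lf δ (u y)) 0 - a| ∂μ = a * μ.real T := by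
        have h2 : ∫ y in T, |max (lf δ (u y)) 0 - a| ∂μ = ∫ y in T, a ∂μ := by
          apply integral_congr_ae
          filter_upwards [hT1] with x hx
          rw [lf_eq hδ (by linarith), max_eq_right, zero_sub, abs_neg, abs_of_nonneg ha0]
          have := Real.log_nonneg (show 1 ≤ u x + δ by linarith)
          linarith
        rw [h2, integral_const, measureReal_restrict_apply_univ, smul_eq_mul, mul_comm]
      rw [← h1]
      refine le_trans ?_ e6
      apply setIntegral_mono_set iva (Eventually.of_forall fun x => abs_nonneg _)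
        (Eventually.of_forall hT)
    have e8 : a ≤ C6 / τ := by
      rw [le_div_iff₀ hτ]
      have h1 : a * (τ * m) ≤ m * C6 := (mul_le_mul_of_nonneg_left hTτ ha0).trans e7
      have h2 : m * (a * τ) ≤ m * C6 := by linarith [show a * (τ * m) = m * (a * τ) by ring]
      exact le_of_mul_le_mul_left h2 hm0
    have e9 : ∫ x in ball x0 (R / 2), max (lf δ (u x)) 0 ∂μ ≤ (C6 / τ) * m := by
      have h1 : ∫ x in ball x0 (R / 2), max (lf δ (u x)) 0 ∂μ = a * m := by
        rw [ha]; field_simp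
      rw [h1]
      exact mul_le_mul_of_nonneg_right e8 hm0.le
    have h10 := hsup x0 (R / 2) _ _ hR2 (hv.mono isOpen_ball hsubR) (C6 / τ) (by positivity) e9
    rwa [show R / 2 / 2 = R / 4 by ring] at h10
  have hall : ∀ᵐ x ∂(μ.restrict (ball x0 (R / 4))), ∀ k : ℕ,
      lf (1 / ((k:ℝ) + 1)) (u x) ≤ C3 * (C6 / τ) :=
    ae_all_iff.2 fun k => key _ (by positivity)
  have hle : μ.restrict (ball x0 (R / 4)) ≤ μ.restrict (ball x0 R) :=
    Measure.restrict_mono (ball_subset_ball (by linarith)) le_rfl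
  filter_upwards [hall, ae_mono hle hu0] with x hx hx0
  have hlim : Tendsto (fun k : ℕ => u x + 1 / ((k:ℝ) + 1)) atTop (𝓝 (u x + 0)) :=
    tendsto_const_nhds.add tendsto_one_div_add_atTop_nhds_zero_nat
  rw [add_zero] at hlim
  apply ge_of_tendsto' hlim
  intro k
  have h1 := hx k
  have hk : (0:ℝ) < 1 / ((k:ℝ) + 1) := by positivity
  rw [lf_eq hk hx0] at h1
  have h2 : 0 < u x + 1 / ((k:ℝ) + 1) := by linarith
  rw [← Real.exp_log h2]
  exact Real.exp_le_exp.2 (by linarith)

/-- the growth lemma -/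
theorem grow (hp : 1 < p) (hw : PAdmissible p w) (hA : AOperator p w A) {τ : ℝ}
    (hτ : 0 < τ) : ∃ c : ℝ, 0 < c ∧ ∀ (x0 : E n) (R : ℝ) (u : E n → ℝ) (U : E n → E n), 0 < R →
      SupSol p w A (ball x0 R) u U → (∀ᵐ x ∂((wMeasure w).restrict (ball x0 R)), 0 ≤ u x) →
      ∀ T : Set (E n), MeasurableSet T → T ⊆ ball x0 (R / 2) → ∀ t : ℝ, 0 < t →
      (∀ᵐ x ∂((wMeasure w).restrict T), t ≤ u x) →
      τ * (wMeasure w).real (ball x0 (R / 2)) ≤ (wMeasure w).real T →
      ∀ᵐ x ∂((wMeasure w).restrict (ball x0 (R / 4))), c * t ≤ u x := by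
  obtain ⟨c, hc, h⟩ := grow_one hp hw hA hτ
  refine ⟨c, hc, ?_⟩
  intro x0 R u U hR hu hu0 T hTm hT t ht hT1 hTτ
  have h1 := h x0 R _ _ hR (hu.affine hp hA isOpen_ball (inv_pos.2 ht) 0) (by
    filter_upwards [hu0] with x hx
    have := mul_nonneg (inv_pos.2 ht).le hx
    linarith) T hTm hT (by
    filter_upwards [hT1] with x hx
    have := mul_le_mul_of_nonneg_left hx (inv_pos.2 ht).le
    rw [inv_mul_cancel₀ ht.ne'] at this
    linarith) hTτ
  filter_upwards [h1] with x hx
  rw [add_zero, inv_mul_eq_div, le_div_iff₀ ht] at hx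
  exact hx

end Pool.Agent.H40.NP
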