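import Mathlib

/-!
# Flows and primitive sets
-/

namespace H40.PR

open Finset

/-- all prime factors in `Q` -/
def Sm (Q : Finset ℕ) (n : ℕ) : Prop := ∀ p, p.Prime → p ∣ n → p ∈ Q

theorem Omega_mul_prime {m p : ℕ} (hm : m ≠ 0) (hp : p.Prime) :
    ArithmeticFunction.cardFactors (m*p) = ArithmeticFunction.cardFactors m + 1 := by
  rw [ArithmeticFunction.cardFactors_mul hm hp.ne_zero,
    ArithmeticFunction.cardFactors_apply_prime hp]

theorem eq_of_dvd_Omega {a b : ℕ} (hb : b ≠ 0) (h : a ∣ b)
    (hO : ArithmeticFunction.cardFactors b ≤ ArithmeticFunction.cardFactors a) : a = b := by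
  obtain ⟨c, rfl⟩ := h
  have ha : a ≠ 0 := left_ne_zero_of_mul hb
  have hc : c ≠ 0 := right_ne_zero_of_mul hb
  rw [ArithmeticFunction.cardFactors_mul ha hc] at hO
  have : ArithmeticFunction.cardFactors c = 0 := by omega
  rw [ArithmeticFunction.cardFactors_eq_zero_iff_eq_zero_or_one] at this
  rcases this with h | h
  · exact absurd h hc
  · rw [h, mul_one]

theorem antichain_flow (Q : Finset ℕ) (hQ : ∀ p ∈ Q, p.Prime)
    (f : ℕ → ℕ → ℝ) (hf : ∀ n p, p ∈ Q → 0 ≤ f n p)
    (l φ : ℕ → ℝ) (hl0 : ∀ n, 2 ≤ n → Sm Q n → 0 ≤ l n) (hφ0 : ∀ n, 2 ≤ n → 0 ≤ φ n)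
    (hload : ∀ n, 2 ≤ n → ¬ n.Prime → Sm Q n → l n ≤ ∑ p ∈ Q.filter (· ∣ n), f n p)
    (hin : ∀ n, 2 ≤ n → Sm Q n → ∑ p ∈ Q, f (n*p) p ≤ l n)
    (hφ : ∀ n p, 2 ≤ n → p ∈ Q → φ (n*p) ≤ φ n)
    (k : ℕ) : ∀ A : Finset ℕ, (∀ n ∈ A, 2 ≤ n ∧ Sm Q n ∧ ArithmeticFunction.cardFactors n ≤ k+1) →
      (∀ a ∈ A, ∀ b ∈ A, a ∣ b → a = b) →
      ∑ n ∈ A, l n * φ n ≤ ∑ p ∈ Q, l p * φ p := by
  classical
  have hSmp : ∀ p ∈ Q, Sm Q p := by
    intro p hp r hr hrp
    rw [(Nat.prime_dvd_prime_iff_eq hr (hQ p hp)).1 hrp]; exact hp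
  induction k with
  | zero =>
    intro A hA _
    have hsub : A ⊆ Q := by
      intro n hn
      obtain ⟨h2, hs, hO⟩ := hA n hn
      have hp : n.Prime := by
        rw [← ArithmeticFunction.cardFactors_eq_one_iff_prime]
        have : ArithmeticFunction.cardFactors n ≠ 0 := by
          intro h
          rw [ArithmeticFunction.cardFactors_eq_zero_iff_eq_zero_or_one] at h
          omega
        omega
      exact hs n hp dvd_rfl
    apply Finset.sum_le_sum_of_subset_of_nonneg hsub
    intro p hp _
    exact mul_nonneg (hl0 p (hQ p hp).two_le (hSmp p hp)) (hφ0 p (hQ p hp).two_le)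
  | succ k ih =>
    intro A hA hprim
    set A1 := A.filter (fun n => ArithmeticFunction.cardFactors n = k+2) with hA1
    set A0 := A.filter (fun n => ¬ ArithmeticFunction.cardFactors n = k+2) with hA0
    set S := A1.biUnion (fun n => (Q.filter (· ∣ n)).image (fun p => n / p)) with hS
    have hSmem : ∀ m ∈ S, ∃ p ∈ Q, m*p ∈ A1 ∧ m ≠ 0 := by
      intro m hm
      rw [hS, Finset.mem_biUnion] at hm
      obtain ⟨n, hn, hm⟩ := hm
      rw [Finset.mem_image] at hm
      obtain ⟨p, hp, rfl⟩ := hm
      rw [Finset.mem_filter] at hp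
      have hn2 := (hA n (Finset.mem_filter.1 hn).1).1
      refine ⟨p, hp.1, ?_, ?_⟩
      · rw [Nat.div_mul_cancel hp.2]; exact hn
      · have := Nat.div_mul_cancel hp.2
        intro h; rw [h] at this; omega
    have hSO : ∀ m ∈ S, ArithmeticFunction.cardFactors m = k+1 := by
      intro m hm
      obtain ⟨p, hp, hmp, hm0⟩ := hSmem m hm
      have := (Finset.mem_filter.1 hmp).2
      rw [Omega_mul_prime hm0 (hQ p hp)] at this
      omega
    have hS2 : ∀ m ∈ S, 2 ≤ m ∧ Sm Q m := by
      intro m hm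
      obtain ⟨p, hp, hmp, hm0⟩ := hSmem m hm
      refine ⟨?_, ?_⟩
      · have h := hSO m hm
        by_contra hlt
        have : m = 1 := by omega
        rw [this] at h; simp at h
      · intro r hr hrm
        exact (hA _ (Finset.mem_filter.1 hmp).1).2.1 r hr (Dvd.dvd.mul_right hrm p)
    -- elements of `A0` do not divide elements of `S`
    have hA0S : ∀ a ∈ A0, ∀ m ∈ S, ¬ a ∣ m := by
      intro a ha m hm hdvd
      obtain ⟨p, hp, hmp, hm0⟩ := hSmem m hm
      have h1 := hprim a (Finset.mem_filter.1 ha).1 _ (Finset.mem_filter.1 hmp).1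
        (Dvd.dvd.mul_right hdvd p)
      apply (Finset.mem_filter.1 ha).2
      rw [h1]; exact (Finset.mem_filter.1 hmp).2
    have hdisj : Disjoint A0 S := by
      rw [Finset.disjoint_left]
      intro a ha hs
      exact hA0S a ha a hs dvd_rfl
    have hih := ih (A0 ∪ S) (by
      intro n hn
      rcases Finset.mem_union.1 hn with h | h
      · obtain ⟨h2, hs, hO⟩ := hA n (Finset.mem_filter.1 h).1
        have := (Finset.mem_filter.1 h).2
        exact ⟨h2, hs, by omega⟩
      · exact ⟨(hS2 n h).1, (hS2 n h).2, (hSO n h).le⟩) (by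
      intro a ha b hb hab
      rcases Finset.mem_union.1 ha with ha | ha <;> rcases Finset.mem_union.1 hb with hb | hb
      · exact hprim a (Finset.mem_filter.1 ha).1 b (Finset.mem_filter.1 hb).1 hab
      · exact absurd hab (hA0S a ha b hb)
      · obtain ⟨h2, hs, hO⟩ := hA b (Finset.mem_filter.1 hb).1
        have := (Finset.mem_filter.1 hb).2
        exact eq_of_dvd_Omega (by omega) hab (by rw [hSO a ha]; omega)
      · exact eq_of_dvd_Omega (by have := (hS2 b hb).1; omega) hab (by rw [hSO a ha, hSO b hb]))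
    rw [Finset.sum_union hdisj] at hih
    have hsplit : ∑ n ∈ A, l n * φ n = ∑ n ∈ A1, l n * φ n + ∑ n ∈ A0, l n * φ n :=
      (Finset.sum_filter_add_sum_filter_not A _ _).symm
    rw [hsplit]
    suffices h : ∑ n ∈ A1, l n * φ n ≤ ∑ m ∈ S, l m * φ m by linarith
    calc ∑ n ∈ A1, l n * φ n ≤ ∑ n ∈ A1, ∑ p ∈ Q, (if p ∣ n then f n p * φ n else 0) := by
          apply Finset.sum_le_sum
          intro n hn
          obtain ⟨h2, hs, hO⟩ := hA n (Finset.mem_filter.1 hn).1
          have hOn := (Finset.mem_filter.1 hn).2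
          have hnp : ¬ n.Prime := by
            intro hp
            rw [ArithmeticFunction.cardFactors_apply_prime hp] at hOn; omega
          have h1 := mul_le_mul_of_nonneg_right (hload n h2 hnp hs) (hφ0 n h2)
          rw [Finset.sum_mul, Finset.sum_filter] at h1
          exact h1
      _ = ∑ p ∈ Q, ∑ n ∈ A1, (if p ∣ n then f n p * φ n else 0) := Finset.sum_comm
      _ ≤ ∑ p ∈ Q, ∑ m ∈ S, f (m*p) p * φ m := by
          apply Finset.sum_le_sum
          intro p hp
          rw [← Finset.sum_filter]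
          have hpp := hQ p hp
          calc ∑ n ∈ A1.filter (p ∣ ·), f n p * φ n
              ≤ ∑ n ∈ A1.filter (p ∣ ·), f (n/p*p) p * φ (n/p) := by
                apply Finset.sum_le_sum
                intro n hn
                rw [Finset.mem_filter] at hn
                have hm : n / p ∈ S := by
                  rw [hS, Finset.mem_biUnion]
                  refine ⟨n, hn.1, Finset.mem_image.2 ⟨p, Finset.mem_filter.2 ⟨hp, hn.2⟩, rfl⟩⟩
                have h2 := (hS2 _ hm).1
                have h3 := hφ (n/p) p h2 hp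
                rw [Nat.div_mul_cancel hn.2] at h3 ⊢
                exact mul_le_mul_of_nonneg_left h3 (hf n p hp)
            _ = ∑ m ∈ (A1.filter (p ∣ ·)).image (fun n => n / p), f (m*p) p * φ m := by
                rw [Finset.sum_image]
                intro a ha b hb hab
                rw [Finset.mem_coe, Finset.mem_filter] at ha hb
                simp only at hab
                rw [← Nat.div_mul_cancel ha.2, ← Nat.div_mul_cancel hb.2, hab]
            _ ≤ _ := by
                apply Finset.sum_le_sum_of_subset_of_nonneg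
                · intro m hm
                  rw [Finset.mem_image] at hm
                  obtain ⟨n, hn, rfl⟩ := hm
                  rw [Finset.mem_filter] at hn
                  rw [hS, Finset.mem_biUnion]
                  exact ⟨n, hn.1, Finset.mem_image.2 ⟨p, Finset.mem_filter.2 ⟨hp, hn.2⟩, rfl⟩⟩
                · intro m hm _
                  exact mul_nonneg (hf _ _ hp) (hφ0 m (hS2 m hm).1)
      _ = ∑ m ∈ S, (∑ p ∈ Q, f (m*p) p) * φ m := by
          rw [Finset.sum_comm]
          apply Finset.sum_congr rfl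
          intro m _
          rw [Finset.sum_mul]
      _ ≤ ∑ m ∈ S, l m * φ m := by
          apply Finset.sum_le_sum
          intro m hm
          exact mul_le_mul_of_nonneg_right (hin m (hS2 m hm).1 (hS2 m hm).2) (hφ0 m (hS2 m hm).1)

end H40.PR
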