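import Mathlib

/-!
# Definitions for the translated Erdős sums of primitive sets
-/

namespace H40.Prim

open scoped ENNReal

/-- A primitive set: a set of positive integers in which no element divides another one. -/
def IsPrimitive (A : Set ℕ) : Prop :=
  (∀ a ∈ A, 0 < a) ∧ ∀ a ∈ A, ∀ b ∈ A, a ∣ b → a = b

/-- The weight `f_x(n) = 1/(n (log n + x))`. -/
noncomputable def f (x : ℝ) (n : ℕ) : ℝ := 1 / ((n : ℝ) * (Real.log n + x))

/-- The sum of `f_x` over the set `A`, with values in `[0, ∞]`. -/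
noncomputable def fSum (x : ℝ) (A : Set ℕ) : ℝ≥0∞ := ∑' n : A, ENNReal.ofReal (f x n)

/-- `S(x)`: the supremum over all primitive sets different from `{1}`. -/
noncomputable def S (x : ℝ) : ℝ≥0∞ := ⨆ A ∈ {A : Set ℕ | IsPrimitive A ∧ A ≠ {1}}, fSum x A

/-- `T(x)`: the sum over the primes. -/
noncomputable def T (x : ℝ) : ℝ≥0∞ := fSum x {p : ℕ | p.Prime}

/-- The exceptional set `{x ≥ 0 : S(x) > T(x)}`. -/
def exceptional : Set ℝ := {x : ℝ | 0 ≤ x ∧ T x < S x}

end H40.Prim
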