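import Mathlib
import Pool.Agent.H40.PRT
import Pool.Agent.H40.PRAnti

/-!
# Primitive sets do not beat the primes for `h ≤ x₀`
-/

namespace H40.PR

open Real Finset MeasureTheory Set

section flow

variable (z N : ℕ) (x : ℝ)

/-- modified flow -/
noncomputable def gf (n p : ℕ) : ℝ :=
  if n = p*2 ∧ p ∈ oddP z then IF N n p + (load N p - fx x p)
  else if p = 2 ∧ n = n/2*2 ∧ n/2 ∈ oddP z then fx x (n/2) - (load N (n/2) - IF N n 2)
  else IF N n p

/-- modified load -/
noncomputable def lf (n : ℕ) : ℝ :=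
  if n = 2 then 1 - ∑ q ∈ oddP z, fx x q
  else if n ∈ oddP z then fx x n else load N n

end flow

theorem two_pow_Omega_le {n : ℕ} (hn : n ≠ 0) : 2^(ArithmeticFunction.cardFactors n) ≤ n := by
  conv_rhs => rw [← Nat.prod_primeFactorsList hn]
  rw [ArithmeticFunction.cardFactors_apply]
  apply List.pow_card_le_prod
  intro p hp
  exact (Nat.prime_of_mem_primeFactorsList hp).two_le

theorem load_nonneg (N n : ℕ) : 0 ≤ load N n := by
  unfold load
  apply add_nonneg (IF_nonneg N n Nat.prime_two)
  exact Finset.sum_nonneg (fun q hq => IF_nonneg N n (mem_oddP.1 hq).2.2)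

theorem oddP_mono {z N : ℕ} (h : z ≤ N) : oddP z ⊆ oddP N := by
  intro q hq
  rw [mem_oddP] at hq ⊢
  exact ⟨hq.1, by omega, hq.2.2⟩

theorem smooth_of_Sm {z N n : ℕ} (h : z ≤ N) (hn : Sm z.primesBelow n) : n ∈ N.smoothNumbers := by
  rw [Nat.mem_smoothNumbers']
  intro p hp hpn
  have := hn p hp hpn
  rw [Nat.mem_primesBelow] at this
  omega

/-- the load of a `z`-smooth number only uses primes below `z` -/
theorem load_eq_filter {z N n : ℕ} (h : z ≤ N) (hz : 3 ≤ z) (hn : Sm z.primesBelow n) :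
    load N n = ∑ p ∈ z.primesBelow.filter (· ∣ n), IF N n p := by
  have e1 : ∑ p ∈ z.primesBelow.filter (· ∣ n), IF N n p = ∑ p ∈ z.primesBelow, IF N n p := by
    apply Finset.sum_subset (Finset.filter_subset _ _)
    intro p hp hp'
    rw [Finset.mem_filter, not_and] at hp'
    exact IF_zero (Nat.mem_primesBelow.1 hp).2 (hp' hp)
  have h2 : 2 ∈ z.primesBelow := by rw [Nat.mem_primesBelow]; exact ⟨by omega, Nat.prime_two⟩
  rw [e1, ← Finset.add_sum_erase _ _ h2]
  unfold load
  congr 1
  symm
  apply Finset.sum_subset (oddP_mono h)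
  intro q hq hq'
  apply IF_zero (mem_oddP.1 hq).2.2
  intro hdvd
  have := hn q (mem_oddP.1 hq).2.2 hdvd
  apply hq'
  rw [mem_oddP]
  exact ⟨(mem_oddP.1 hq).1, (Nat.mem_primesBelow.1 this).1, (mem_oddP.1 hq).2.2⟩

theorem low_finite {x h : ℝ} (hx : 18/25 ≤ x) (hx1 : x < 1) (hT : TR x = 1) (hh : 0 ≤ h) (hhx : h ≤ x)
    {z : ℕ} (hz : 3 ≤ z) (A : Finset ℕ) (hA : ∀ n ∈ A, 2 ≤ n ∧ n < z)
    (hprim : ∀ a ∈ A, ∀ b ∈ A, a ∣ b → a = b) :
    ∑ n ∈ A, fx h n ≤ (1 - ∑ q ∈ oddP z, fx x q) * ((Real.log 2 + x)/(Real.log 2 + h)) +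
      ∑ q ∈ oddP z, fx h q := by
  have hx0 : 0 ≤ x := by linarith
  -- choose N
  obtain ⟨N, hzN, hE1⟩ : ∃ N, z ≤ N ∧ ∀ q ∈ oddP z, load N q - IF N (q*2) 2 ≤ fx x q := by
    choose N0 hN0 using fun (q : ℕ) (hq : q ∈ oddP z) =>
      E1_ev (mem_oddP.1 hq).2.2 (mem_oddP.1 hq).1 hx0 hx1
    refine ⟨z + ∑ q ∈ (oddP z).attach, N0 q.1 q.2, by omega, fun q hq => ?_⟩
    apply hN0 q hq
    have : N0 q hq ≤ ∑ q ∈ (oddP z).attach, N0 q.1 q.2 :=
      Finset.single_le_sum (f := fun q : {q // q ∈ oddP z} => N0 q.1 q.2) (fun _ _ => Nat.zero_le _)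
        (Finset.mem_attach _ ⟨q, hq⟩)
    omega
  have hQ2 : 2 ∈ z.primesBelow := by rw [Nat.mem_primesBelow]; exact ⟨by omega, Nat.prime_two⟩
  have hE2 : ∀ q ∈ oddP z, fx x q ≤ load N q + IF N (q*2) q := by
    intro q hq
    refine le_trans ?_ (E2_ge (oddP_mono hzN hq))
    exact fx_anti (by norm_num) hx (by have := oddP_three_le hq; omega)
  set φ : ℕ → ℝ := fun n => (Real.log n + x)/(Real.log n + h) with hφd
  have hφform : ∀ n, 2 ≤ n → φ n = 1 + (x-h)/(Real.log n + h) := by
    intro n hn
    have := log_nat_pos hn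
    rw [hφd]
    simp only
    field_simp
    ring
  have hfx : ∀ n, 2 ≤ n → fx h n = fx x n * φ n := by
    intro n hn
    have := log_nat_pos hn
    have hn0 : (0:ℝ) < n := by positivity
    rw [hφd]
    unfold fx
    have : Real.log n + x ≠ 0 := by positivity
    have : Real.log n + h ≠ 0 := by positivity
    field_simp
  have hφ0 : ∀ n, 2 ≤ n → 0 ≤ φ n := by
    intro n hn
    have := log_nat_pos hn
    rw [hφd]; positivity
  have hpartial : ∑ q ∈ oddP z, fx x q + fx x 2 ≤ 1 := by
    have h3 : ∑ n ∈ range z, tp x n ≤ TR x := (summable_tp hx0).sum_le_tsum _ (fun n _ => tp_nonneg hx0 n)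
    rw [sum_range_tp hz, hT] at h3
    linarith
  have hf2 := fx_pos hx0 (le_refl 2)
  have hmain := antichain_flow z.primesBelow (fun p hp => (Nat.mem_primesBelow.1 hp).2)
    (gf z N x) ?_ (lf z N x) φ ?_ hφ0 ?_ ?_ ?_ z A ?_ hprim
  · -- conclusion
    have hlow : ∑ n ∈ A, fx h n ≤ ∑ n ∈ A, lf z N x n * φ n := by
      apply Finset.sum_le_sum
      intro n hn
      obtain ⟨h2, hlt⟩ := hA n hn
      rw [hfx n h2]
      apply mul_le_mul_of_nonneg_right _ (hφ0 n h2)
      unfold lf
      split_ifs with h1 h3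
      · rw [h1]; linarith
      · exact le_rfl
      · have hnp : ¬ n.Prime := by
          intro hp
          exact h3 (mem_oddP.2 ⟨h1, hlt, hp⟩)
        have hsm : n ∈ N.smoothNumbers := Nat.mem_smoothNumbers_of_lt (by omega) (by omega)
        refine le_trans ?_ (load_composite hsm (by omega) hnp)
        exact fx_anti (by norm_num) hx h2
    refine hlow.trans (hmain.trans (le_of_eq ?_))
    have e1 : lf z N x 2 * φ 2 =
        (1 - ∑ q ∈ oddP z, fx x q) * ((Real.log 2 + x)/(Real.log 2 + h)) := by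
      unfold lf; rw [if_pos rfl, hφd]; push_cast; ring
    have e2 : ∑ q ∈ z.primesBelow.erase 2, lf z N x q * φ q = ∑ q ∈ oddP z, fx h q := by
      apply Finset.sum_congr rfl
      intro q hq
      have hq' : q ∈ oddP z := hq
      unfold lf
      rw [if_neg (mem_oddP.1 hq').1, if_pos hq', ← hfx q (by have := oddP_three_le hq'; omega)]
    rw [← Finset.add_sum_erase _ _ hQ2, e1, e2]
  · -- nonnegativity of the flow
    intro n p hp
    unfold gf
    split_ifs with h1 h2
    · have := hE2 p h1.2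
      rw [← h1.1] at this
      linarith
    · have := hE1 _ h2.2.2
      rw [← h2.2.1] at this
      linarith
    · exact IF_nonneg N n (Nat.mem_primesBelow.1 hp).2
  · -- nonnegativity of the load
    intro n hn _
    unfold lf
    split_ifs
    · linarith
    · exact fx_nonneg hx0 n
    · exact load_nonneg N n
  · -- load of composite numbers
    intro n h2 hnp hsm
    have hn2 : n ≠ 2 := by rintro rfl; exact hnp Nat.prime_two
    have hlf : lf z N x n = load N n := by
      unfold lf
      rw [if_neg hn2, if_neg]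
      intro h; exact hnp (mem_oddP.1 h).2.2
    rw [hlf, load_eq_filter hzN hz hsm]
    by_cases hq : n = n/2*2 ∧ n/2 ∈ oddP z
    · -- n = 2q
      obtain ⟨hn, hq⟩ := hq
      set q := n/2 with hqd
      have hqp := (mem_oddP.1 hq)
      have hfil : z.primesBelow.filter (· ∣ n) = {2, q} := by
        ext p
        rw [Finset.mem_filter, Finset.mem_insert, Finset.mem_singleton, Nat.mem_primesBelow]
        constructor
        · rintro ⟨⟨hpz, hp⟩, hpn⟩
          rw [hn] at hpn
          rcases (Nat.Prime.dvd_mul hp).1 hpn with h | h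
          · right; exact (Nat.prime_dvd_prime_iff_eq hp hqp.2.2).1 h
          · left; exact (Nat.prime_dvd_prime_iff_eq hp Nat.prime_two).1 h
        · rintro (rfl | rfl)
          · exact ⟨⟨by omega, Nat.prime_two⟩, by rw [hn]; exact Dvd.intro_left _ rfl⟩
          · exact ⟨⟨hqp.2.1, hqp.2.2⟩, by rw [hn]; exact Dvd.intro _ rfl⟩
      rw [hfil, Finset.sum_pair (Ne.symm hqp.1), Finset.sum_pair (Ne.symm hqp.1)]
      have g2 : gf z N x n 2 = fx x q - (load N q - IF N n 2) := by
        unfold gf
        rw [if_neg, if_pos ⟨rfl, hn, hq⟩]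
        rintro ⟨_, h⟩
        exact (mem_oddP.1 h).1 rfl
      have gq : gf z N x n q = IF N n q + (load N q - fx x q) := by
        unfold gf
        rw [if_pos ⟨hn, hq⟩]
      rw [g2, gq]
      linarith
    · apply Finset.sum_le_sum
      intro p hp
      rw [Finset.mem_filter, Nat.mem_primesBelow] at hp
      unfold gf
      rw [if_neg, if_neg]
      · rintro ⟨_, h1, h2⟩; exact hq ⟨h1, h2⟩
      · rintro ⟨h1, h2⟩
        apply hq
        have : n/2 = p := by rw [h1]; simp
        rw [this]; exact ⟨h1, h2⟩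
  · -- inflow
    intro n h2 hsm
    have hns : n ∈ N.smoothNumbers := smooth_of_Sm hzN hsm
    have hinf := inflow_le hns h2
    have hsumsub : ∑ q ∈ oddP z, IF N (n*q) q ≤ ∑ q ∈ oddP N, IF N (n*q) q :=
      Finset.sum_le_sum_of_subset_of_nonneg (oddP_mono hzN)
        (fun q hq _ => IF_nonneg N _ (mem_oddP.1 hq).2.2)
    rw [← Finset.add_sum_erase _ _ hQ2]
    change gf z N x (n*2) 2 + ∑ p ∈ oddP z, gf z N x (n*p) p ≤ lf z N x n
    by_cases hn2 : n = 2
    · subst hn2
      have g2 : gf z N x (2*2) 2 = IF N (2*2) 2 := by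
        unfold gf
        rw [if_neg, if_neg]
        · rintro ⟨_, _, h⟩
          norm_num at h
          exact (mem_oddP.1 h).1 rfl
        · rintro ⟨_, h⟩; exact (mem_oddP.1 h).1 rfl
      have gq : ∀ q ∈ oddP z, gf z N x (2*q) q = IF N (2*q) q + (load N q - fx x q) := by
        intro q hq
        unfold gf
        rw [if_pos ⟨mul_comm _ _, hq⟩]
      rw [g2, Finset.sum_congr rfl gq, Finset.sum_add_distrib, Finset.sum_sub_distrib]
      unfold lf
      rw [if_pos rfl]
      have h1 := load_primes_le (N := N)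
      have h3 : ∑ q ∈ oddP z, load N q ≤ ∑ q ∈ oddP N, load N q :=
        Finset.sum_le_sum_of_subset_of_nonneg (oddP_mono hzN) (fun q _ _ => load_nonneg N q)
      linarith
    · have gq : ∀ q ∈ oddP z, gf z N x (n*q) q = IF N (n*q) q := by
        intro q hq
        have hq' := mem_oddP.1 hq
        unfold gf
        rw [if_neg, if_neg]
        · rintro ⟨h, _⟩; exact hq'.1 h
        · rintro ⟨h, _⟩
          have : n = 2 := by
            have h' : n * q = 2 * q := by rw [h]; ring
            exact Nat.eq_of_mul_eq_mul_right hq'.2.2.pos h'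
          exact hn2 this
      rw [Finset.sum_congr rfl gq]
      by_cases hno : n ∈ oddP z
      · have g2 : gf z N x (n*2) 2 = fx x n - (load N n - IF N (n*2) 2) := by
          unfold gf
          rw [if_neg, if_pos]
          · simp
          · refine ⟨rfl, by simp, by simpa using hno⟩
          · rintro ⟨_, h⟩; exact (mem_oddP.1 h).1 rfl
        rw [g2]
        unfold lf
        rw [if_neg hn2, if_pos hno]
        linarith
      · have g2 : gf z N x (n*2) 2 = IF N (n*2) 2 := by
          unfold gf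
          rw [if_neg, if_neg]
          · rintro ⟨_, _, h⟩
            rw [Nat.mul_div_cancel _ two_pos] at h
            exact hno h
          · rintro ⟨_, h⟩; exact (mem_oddP.1 h).1 rfl
        rw [g2]
        unfold lf
        rw [if_neg hn2, if_neg hno]
        linarith
  · -- φ decreasing
    intro n p h2 hp
    have hp2 := (Nat.mem_primesBelow.1 hp).2.two_le
    have hnp : 2 ≤ n*p := by nlinarith
    rw [hφform n h2, hφform (n*p) hnp]
    have hl1 := log_nat_pos h2
    have hle : Real.log n ≤ Real.log ((n*p:ℕ):ℝ) :=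
      Real.log_le_log (by positivity) (by exact_mod_cast (Nat.le_mul_of_pos_right n (by omega)))
    have : (x-h)/(Real.log ((n*p:ℕ):ℝ) + h) ≤ (x-h)/(Real.log n + h) :=
      div_le_div_of_nonneg_left (by linarith) (by positivity) (by linarith)
    linarith
  · -- A
    intro n hn
    obtain ⟨h2, hlt⟩ := hA n hn
    refine ⟨h2, ?_, ?_⟩
    · intro p hp hpn
      rw [Nat.mem_primesBelow]
      exact ⟨lt_of_le_of_lt (Nat.le_of_dvd (by omega) hpn) hlt, hp⟩
    · have h1 : ArithmeticFunction.cardFactors n ≤ Nat.log 2 n := by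
        exact Nat.le_log_of_pow_le (by norm_num) (two_pow_Omega_le (by omega))
      have h4 : Nat.log 2 n < n := Nat.log_lt_self 2 (by omega)
      omega

end H40.PR
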