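import Mathlib
import Pool.Agent.H40.PRLow

/-!
# Passing to the limit
-/

namespace H40.PR

open Real Finset MeasureTheory Set

theorem tendsto_oddP {x : ℝ} (hx : 0 ≤ x) :
    Filter.Tendsto (fun z => ∑ q ∈ oddP z, fx x q) Filter.atTop (nhds (TR x - fx x 2)) := by
  have h1 := (summable_tp hx).hasSum.tendsto_sum_nat.sub_const (fx x 2)
  refine h1.congr' ?_
  filter_upwards [Filter.eventually_ge_atTop 3] with z hz
  rw [sum_range_tp hz]; ring

theorem low_real {x h : ℝ} (hx : 18/25 ≤ x) (hx1 : x < 1) (hT : TR x = 1) (hh : 0 ≤ h) (hhx : h ≤ x)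
    (A : Finset ℕ) (hA : ∀ n ∈ A, 2 ≤ n) (hprim : ∀ a ∈ A, ∀ b ∈ A, a ∣ b → a = b) :
    ∑ n ∈ A, fx h n ≤ TR h := by
  have hx0 : 0 ≤ x := by linarith
  have ht : Filter.Tendsto (fun z => (1 - ∑ q ∈ oddP z, fx x q) * ((Real.log 2 + x)/(Real.log 2 + h)) +
      ∑ q ∈ oddP z, fx h q) Filter.atTop
      (nhds ((1 - (TR x - fx x 2)) * ((Real.log 2 + x)/(Real.log 2 + h)) + (TR h - fx h 2))) :=
    (((tendsto_oddP hx0).const_sub 1).mul_const _).add (tendsto_oddP hh)
  have e : (1 - (TR x - fx x 2)) * ((Real.log 2 + x)/(Real.log 2 + h)) + (TR h - fx h 2) = TR h := by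
    rw [hT]
    have h2 := Real.log_pos (show (1:ℝ) < 2 by norm_num)
    have : fx x 2 * ((Real.log 2 + x)/(Real.log 2 + h)) = fx h 2 := by
      unfold fx
      have : Real.log 2 + x ≠ 0 := by positivity
      have : Real.log 2 + h ≠ 0 := by positivity
      push_cast
      field_simp
    linarith
  rw [e] at ht
  refine ge_of_tendsto ht ?_
  obtain ⟨M, hM⟩ := Finset.exists_nat_subset_range A
  filter_upwards [Filter.eventually_ge_atTop (M+3)] with z hz
  apply low_finite hx hx1 hT hh hhx (by omega) A _ hprim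
  intro n hn
  refine ⟨hA n hn, ?_⟩
  have := Finset.mem_range.1 (hM hn)
  omega

end H40.PR
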