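import Mathlib
import Pool.Agent.H40.PRT

/-!
# The sets `{n : Ω(n) = k}` have `f_h`-mass approaching `1` along a subsequence
-/

namespace H40.PR

open Real Finset MeasureTheory Set
open scoped ENNReal

/-- `n ^ (-(1+u))` -/
noncomputable def an (n : ℕ) (u : ℝ) : ℝ≥0∞ := ENNReal.ofReal ((n:ℝ)^(-(1+u)))

theorem an_zero {u : ℝ} (hu : 0 < u) : an 0 u = 0 := by
  unfold an
  rw [Nat.cast_zero, Real.zero_rpow (by linarith), ENNReal.ofReal_zero]

theorem an_mul (m n : ℕ) (u : ℝ) : an (m*n) u = an m u * an n u := by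
  unfold an
  rw [Nat.cast_mul, Real.mul_rpow (by positivity) (by positivity), ENNReal.ofReal_mul (by positivity)]

theorem an_one (u : ℝ) : an 1 u = 1 := by simp [an]

theorem an_pow (n j : ℕ) (u : ℝ) : an (n^j) u = (an n u)^j := by
  induction j with
  | zero => simp [an_one]
  | succ j ih => rw [pow_succ, pow_succ, an_mul, ih]

theorem measurable_an (n : ℕ) : Measurable (an n) := by
  unfold an
  have : Measurable (fun u : ℝ => (n:ℝ)^(-(1+u))) := Measurable.pow measurable_const (by fun_prop)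
  exact this.ennreal_ofReal

/-! ### comparison of the zeta sum with `1/u` -/

theorem rpow_diff_le {n : ℝ} (hn : 0 < n) {u : ℝ} (hu : 0 < u) :
    (n^(-u) - (n+1)^(-u))/u ≤ n^(-(1+u)) := by
  have h1 : (n+1)^(-u) = n^(-u) * (1+1/n)^(-u) := by
    rw [← Real.mul_rpow hn.le (by positivity)]; congr 1; field_simp
  have h2 : 1 - u/n ≤ (1+1/n)^(-u) := by
    rw [Real.rpow_def_of_pos (by positivity)]
    have h3 := Real.add_one_le_exp (Real.log (1+1/n) * -u)
    have h4 : Real.log (1+1/n) ≤ 1/n := by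
      have := Real.log_le_sub_one_of_pos (show 0 < 1+1/n by positivity)
      linarith
    have h5 : Real.log (1+1/n) * u ≤ 1/n*u := mul_le_mul_of_nonneg_right h4 hu.le
    have : u/n = 1/n*u := by ring
    linarith
  have h3 : n^(-(1+u)) = n^(-u)/n := by
    rw [show -(1+u) = -u - 1 by ring, Real.rpow_sub_one hn.ne']
  rw [h1, h3, div_le_iff₀ hu]
  have h4 : 0 < n^(-u) := by positivity
  have h5 := mul_le_mul_of_nonneg_left h2 h4.le
  have : n^(-u)/n*u = n^(-u)*(u/n) := by ring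
  linarith

theorem rpow_le_diff {n : ℝ} (hn : 0 < n) {u : ℝ} (hu : 0 < u) :
    (n+1)^(-(1+u)) ≤ (n^(-u) - (n+1)^(-u))/u := by
  set m := n+1 with hm
  have hmp : 0 < m := by positivity
  have h1 : n^(-u) = m^(-u) * (1-1/m)^(-u) := by
    rw [← Real.mul_rpow hmp.le (by rw [sub_nonneg, div_le_one hmp]; linarith)]; congr 1
    field_simp; linarith
  have h2 : 1 + u/m ≤ (1-1/m)^(-u) := by
    have hpos : 0 < 1 - 1/m := by rw [sub_pos, div_lt_one hmp]; linarith
    rw [Real.rpow_def_of_pos hpos]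
    have h3 := Real.add_one_le_exp (Real.log (1-1/m) * -u)
    have h4 : Real.log (1-1/m) ≤ -(1/m) := by
      have := Real.log_le_sub_one_of_pos hpos
      linarith
    have h5 : Real.log (1-1/m) * u ≤ -(1/m)*u := mul_le_mul_of_nonneg_right h4 hu.le
    have : u/m = 1/m*u := by ring
    linarith
  have h3 : m^(-(1+u)) = m^(-u)/m := by
    rw [show -(1+u) = -u - 1 by ring, Real.rpow_sub_one hmp.ne']
  rw [h1, h3, le_div_iff₀ hu]
  have h4 : 0 < m^(-u) := by positivity
  have h5 := mul_le_mul_of_nonneg_left h2 h4.le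
  have : m^(-u)/m*u = m^(-u)*(u/m) := by ring
  linarith

theorem zsum_ge {u : ℝ} (hu : 0 < u) (M : ℕ) :
    (1 - ((M+1:ℕ):ℝ)^(-u))/u ≤ ∑ n ∈ range (M+1), (n:ℝ)^(-(1+u)) := by
  have h0 : (0:ℝ)^(-(1+u)) = 0 := Real.zero_rpow (by linarith)
  induction M with
  | zero => rw [Finset.sum_range_one, Nat.cast_zero, h0]; simp
  | succ M ih =>
    rw [Finset.sum_range_succ]
    have := rpow_diff_le (n := ((M+1:ℕ):ℝ)) (by positivity) hu
    have e : ((M+1:ℕ):ℝ)+1 = ((M+1+1:ℕ):ℝ) := by push_cast; ring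
    rw [e] at this
    have e2 : (1 - ((M+1+1:ℕ):ℝ)^(-u))/u = (1 - ((M+1:ℕ):ℝ)^(-u))/u +
      (((M+1:ℕ):ℝ)^(-u) - ((M+1+1:ℕ):ℝ)^(-u))/u := by field_simp; ring
    linarith

theorem zsum_le {u : ℝ} (hu : 0 < u) (M : ℕ) :
    ∑ n ∈ range (M+2), (n:ℝ)^(-(1+u)) ≤ 1 + (1 - ((M+1:ℕ):ℝ)^(-u))/u := by
  have h0 : (0:ℝ)^(-(1+u)) = 0 := Real.zero_rpow (by linarith)
  induction M with
  | zero =>
    rw [Finset.sum_range_succ, Finset.sum_range_one, Nat.cast_zero, h0]; simp
  | succ M ih =>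
    rw [Finset.sum_range_succ]
    have := rpow_le_diff (n := ((M+1:ℕ):ℝ)) (by positivity) hu
    have e : ((M+1:ℕ):ℝ)+1 = ((M+1+1:ℕ):ℝ) := by push_cast; ring
    rw [e] at this
    have e2 : (1 - ((M+1+1:ℕ):ℝ)^(-u))/u = (1 - ((M+1:ℕ):ℝ)^(-u))/u +
      (((M+1:ℕ):ℝ)^(-u) - ((M+1+1:ℕ):ℝ)^(-u))/u := by field_simp; ring
    have e3 : ((M+2:ℕ):ℝ) = ((M+1+1:ℕ):ℝ) := by push_cast; ring
    rw [e3]
    linarith

theorem tsum_an_ge {u : ℝ} (hu : 0 < u) : ENNReal.ofReal (1/u) ≤ ∑' n, an n u := by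
  have h1 : ∀ M : ℕ, ENNReal.ofReal ((1 - ((M+1:ℕ):ℝ)^(-u))/u) ≤ ∑' n, an n u := by
    intro M
    refine (ENNReal.ofReal_le_ofReal (zsum_ge hu M)).trans ?_
    rw [ENNReal.ofReal_sum_of_nonneg (fun n _ => by positivity)]
    exact ENNReal.sum_le_tsum _
  have h2 : Filter.Tendsto (fun M : ℕ => ENNReal.ofReal ((1 - ((M+1:ℕ):ℝ)^(-u))/u)) Filter.atTop
      (nhds (ENNReal.ofReal ((1 - 0)/u))) := by
    apply ENNReal.tendsto_ofReal
    apply Filter.Tendsto.div_const
    apply Filter.Tendsto.const_sub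
    have h3 : Filter.Tendsto (fun M : ℕ => ((M+1 : ℕ):ℝ)) Filter.atTop Filter.atTop :=
      tendsto_natCast_atTop_atTop.comp (Filter.tendsto_add_atTop_nat 1)
    exact (tendsto_rpow_neg_atTop hu).comp h3
  rw [sub_zero] at h2
  exact le_of_tendsto' h2 h1

theorem tsum_an_le {u : ℝ} (hu : 0 < u) : ∑' n, an n u ≤ ENNReal.ofReal (1 + 1/u) := by
  rw [ENNReal.tsum_eq_iSup_nat]
  apply iSup_le
  intro M
  have h1 : ∑ n ∈ range M, an n u ≤ ∑ n ∈ range (M+2), an n u :=
    Finset.sum_le_sum_of_subset (Finset.range_subset_range.2 (by omega))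
  refine h1.trans ?_
  unfold an
  rw [← ENNReal.ofReal_sum_of_nonneg (fun n _ => by positivity)]
  apply ENNReal.ofReal_le_ofReal
  refine (zsum_le hu M).trans ?_
  have : 0 ≤ ((M+1:ℕ):ℝ)^(-u) := by positivity
  have : (1 - ((M+1:ℕ):ℝ)^(-u))/u ≤ 1/u := by
    apply div_le_div_of_nonneg_right (by linarith) hu.le
  linarith

/-! ### the sum over primes -/

theorem sum_oddP_le {u : ℝ} (hu : 0 < u) (N : ℕ) :
    ∑ q ∈ oddP N, (q:ℝ)^(-(1+u)) ≤ Real.log (1 + 1/(2*u)) := by
  have h1 := B_lower N hu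
  have hB := B_pos N hu.le
  have h2 : B N u ≤ exp (-∑ q ∈ oddP N, (q:ℝ)^(-(1+u))) := by
    rw [B_eq_prod, ← Finset.sum_neg_distrib, exp_sum]
    apply Finset.prod_le_prod
    · intro q hq
      exact (one_sub_Em_pos hq hu.le).le
    · intro q hq
      have := Real.add_one_le_exp (-((q:ℝ)^(-(1+u))))
      rw [Em_eq_rpow (mem_oddP.1 hq).2.2.ne_zero]
      linarith
  have h3 : (2:ℝ)^(-u) ≤ 1 := by
    apply Real.rpow_le_one_of_one_le_of_nonpos (by norm_num) (by linarith)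
  have h4 : 1 ≤ B N u * (1 + 1/(2*u)) := by
    refine h1.trans (mul_le_mul_of_nonneg_left ?_ hB.le)
    have : (2:ℝ)^(-u)/(2*u) ≤ 1/(2*u) := by gcongr
    linarith
  have h5 : 1 ≤ exp (-∑ q ∈ oddP N, (q:ℝ)^(-(1+u))) * (1 + 1/(2*u)) :=
    h4.trans (mul_le_mul_of_nonneg_right h2 (by positivity))
  have h6 := Real.log_le_log one_pos h5
  rw [Real.log_one, Real.log_mul (exp_pos _).ne' (by positivity), Real.log_exp] at h6
  linarith

theorem tsum_prime_an_le {u : ℝ} (hu : 0 < u) :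
    ∑' p : ℕ, (if p.Prime then an p u else 0) ≤ ENNReal.ofReal (1/2 + Real.log (1 + 1/(2*u))) := by
  rw [ENNReal.tsum_eq_iSup_nat]
  apply iSup_le
  intro M
  have h1 : ∑ p ∈ range M, (if p.Prime then an p u else 0) ≤
      ∑ p ∈ range (M+3), (if p.Prime then an p u else 0) :=
    Finset.sum_le_sum_of_subset (Finset.range_subset_range.2 (by omega))
  refine h1.trans ?_
  have h2 : ∑ p ∈ range (M+3), (if p.Prime then an p u else 0) = an 2 u + ∑ q ∈ oddP (M+3), an q u := by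
    rw [← Finset.sum_filter]
    have : (range (M+3)).filter Nat.Prime = (M+3).primesBelow := rfl
    rw [this]
    unfold oddP
    exact (Finset.add_sum_erase (M+3).primesBelow (fun p => an p u)
      (by rw [Nat.mem_primesBelow]; exact ⟨by omega, Nat.prime_two⟩)).symm
  rw [h2]
  have h3 : an 2 u ≤ ENNReal.ofReal (1/2) := by
    unfold an
    apply ENNReal.ofReal_le_ofReal
    calc ((2:ℕ):ℝ)^(-(1+u)) ≤ (2:ℝ)^(-(1:ℝ)) := by
          push_cast
          apply Real.rpow_le_rpow_of_exponent_le (by norm_num) (by linarith)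
      _ = 1/2 := by rw [Real.rpow_neg_one]; norm_num
  have h4 : ∑ q ∈ oddP (M+3), an q u ≤ ENNReal.ofReal (Real.log (1 + 1/(2*u))) := by
    unfold an
    rw [← ENNReal.ofReal_sum_of_nonneg (fun n _ => by positivity)]
    exact ENNReal.ofReal_le_ofReal (sum_oddP_le hu _)
  rw [ENNReal.ofReal_add (by norm_num) (Real.log_nonneg (by
    have : 0 ≤ 1/(2*u) := by positivity
    linarith))]
  exact add_le_add h3 h4

/-! ### the sum with `Ω` -/

theorem tsum_dvd_pow {p n : ℕ} (hp : p.Prime) (hn : n ≠ 0) :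
    ∑' j : ℕ, (if p^(j+1) ∣ n then (1:ℝ≥0∞) else 0) = (n.factorization p : ℝ≥0∞) := by
  rw [tsum_eq_sum (s := range (n.factorization p))]
  · rw [Finset.sum_congr rfl (g := fun _ => (1:ℝ≥0∞))]
    · simp
    · intro j hj
      rw [if_pos]
      rw [hp.pow_dvd_iff_le_factorization hn]
      have := Finset.mem_range.1 hj
      omega
  · intro j hj
    rw [if_neg]
    rw [hp.pow_dvd_iff_le_factorization hn]
    rw [Finset.mem_range] at hj
    omega

theorem Omega_eq_tsum {n : ℕ} (hn : n ≠ 0) :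
    (ArithmeticFunction.cardFactors n : ℝ≥0∞) =
      ∑' p : ℕ, if p.Prime then ∑' j : ℕ, (if p^(j+1) ∣ n then (1:ℝ≥0∞) else 0) else 0 := by
  have h1 : ArithmeticFunction.cardFactors n = ∑ p ∈ n.primeFactors, n.factorization p := by
    rw [ArithmeticFunction.cardFactors_eq_sum_factorization]; rfl
  rw [h1]
  push_cast
  rw [tsum_eq_sum (s := n.primeFactors)]
  · apply Finset.sum_congr rfl
    intro p hp
    have hpp := Nat.prime_of_mem_primeFactors hp
    rw [if_pos hpp, tsum_dvd_pow hpp hn]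
  · intro p hp
    by_cases hpp : p.Prime
    · rw [if_pos hpp, tsum_dvd_pow hpp hn]
      rw [← Nat.support_factorization, Finsupp.notMem_support_iff] at hp
      rw [hp]; simp
    · rw [if_neg hpp]

theorem tsum_dvd_an {d : ℕ} (hd : d ≠ 0) (u : ℝ) :
    ∑' n : ℕ, (if d ∣ n then an n u else 0) = an d u * ∑' n, an n u := by
  have hinj : Function.Injective (fun m : ℕ => d * m) := fun a b h =>
    Nat.eq_of_mul_eq_mul_left (Nat.pos_of_ne_zero hd) h
  have := hinj.tsum_eq (f := fun n : ℕ => (if d ∣ n then an n u else 0)) (by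
    intro n hn
    rw [Function.mem_support] at hn
    by_cases h : d ∣ n
    · obtain ⟨m, rfl⟩ := h
      exact ⟨m, rfl⟩
    · rw [if_neg h] at hn; exact absurd rfl hn)
  rw [← this, ← ENNReal.tsum_mul_left]
  apply tsum_congr
  intro m
  rw [if_pos (Dvd.intro _ rfl), an_mul]

theorem geom_le {x : ℝ} (hx0 : 0 ≤ x) (hx : x ≤ 1/2) :
    ∑' j : ℕ, (ENNReal.ofReal x)^(j+1) ≤ ENNReal.ofReal x + ENNReal.ofReal (2*x^2) := by
  have h1 : ∑' j : ℕ, (ENNReal.ofReal x)^(j+1) = ENNReal.ofReal (∑' j : ℕ, x^(j+1)) := by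
    rw [ENNReal.ofReal_tsum_of_nonneg (fun j => by positivity)
      ((summable_nat_add_iff 1).2 (summable_geometric_of_lt_one hx0 (by linarith)))]
    apply tsum_congr
    intro j
    rw [ENNReal.ofReal_pow hx0]
  rw [h1, ← ENNReal.ofReal_add hx0 (by positivity)]
  apply ENNReal.ofReal_le_ofReal
  have h2 : ∑' j : ℕ, x^(j+1) = x/(1-x) := by
    simp_rw [pow_succ]
    rw [tsum_mul_right, tsum_geometric_of_lt_one hx0 (by linarith)]
    ring
  rw [h2, div_le_iff₀ (by linarith)]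
  nlinarith [mul_nonneg hx0 (mul_nonneg hx0 (show 0 ≤ 1/2 - x by linarith))]

/-- constant -/
noncomputable def C1 : ℝ := ∑' n : ℕ, 2*(1/(n:ℝ)^2)

theorem C1_nonneg : 0 ≤ C1 := tsum_nonneg (fun n => by positivity)

theorem summable_C1 : Summable (fun n : ℕ => 2*(1/(n:ℝ)^2)) :=
  (Real.summable_one_div_nat_pow.2 (by norm_num)).mul_left 2

theorem tsum_Omega_le {u : ℝ} (hu : 0 < u) :
    ∑' n : ℕ, (ArithmeticFunction.cardFactors n : ℝ≥0∞) * an n u ≤
      ENNReal.ofReal ((1+1/u)*(1/2 + Real.log (1 + 1/(2*u)) + C1)) := by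
  have hlog : 0 ≤ Real.log (1 + 1/(2*u)) := Real.log_nonneg (by
    have : 0 ≤ 1/(2*u) := by positivity
    linarith)
  have h1 : ∀ n : ℕ, (ArithmeticFunction.cardFactors n : ℝ≥0∞) * an n u =
      ∑' p : ℕ, ∑' j : ℕ, (if p.Prime then (if p^(j+1) ∣ n then an n u else 0) else 0) := by
    intro n
    by_cases hn : n = 0
    · subst hn
      rw [an_zero hu]; simp
    · rw [Omega_eq_tsum hn, ← ENNReal.tsum_mul_right]
      apply tsum_congr
      intro p
      by_cases hp : p.Prime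
      · simp only [hp, if_true]
        rw [← ENNReal.tsum_mul_right]
        apply tsum_congr
        intro j
        split_ifs <;> simp
      · simp only [hp, if_false]; simp
  simp_rw [h1]
  rw [ENNReal.tsum_comm]
  have h2 : ∀ p : ℕ, ∑' (n : ℕ) (j : ℕ), (if p.Prime then (if p^(j+1) ∣ n then an n u else 0) else 0) ≤
      (if p.Prime then an p u else 0) * (∑' n, an n u) + ENNReal.ofReal (2*(1/(p:ℝ)^2)) * ∑' n, an n u := by
    intro p
    by_cases hp : p.Prime
    · simp only [hp, if_true]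
      rw [ENNReal.tsum_comm]
      have h3 : ∀ j : ℕ, ∑' n : ℕ, (if p^(j+1) ∣ n then an n u else 0) = (an p u)^(j+1) * ∑' n, an n u := by
        intro j
        rw [tsum_dvd_an (pow_ne_zero _ hp.ne_zero), an_pow]
      simp_rw [h3]
      rw [ENNReal.tsum_mul_right, ← add_mul]
      apply mul_le_mul_left
      unfold an
      have hp0 : (0:ℝ) < p := by have := hp.pos; positivity
      have hle : (p:ℝ)^(-(1+u)) ≤ 1/p := by
        have hp1 : (1:ℝ) ≤ p := by exact_mod_cast hp.one_lt.le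
        calc (p:ℝ)^(-(1+u)) ≤ (p:ℝ)^(-(1:ℝ)) :=
              Real.rpow_le_rpow_of_exponent_le hp1 (by linarith)
          _ = 1/p := by rw [Real.rpow_neg_one, one_div]
      have hhalf : 1/(p:ℝ) ≤ 1/2 := by
        apply one_div_le_one_div_of_le (by norm_num)
        exact_mod_cast hp.two_le
      have hx0 : 0 ≤ (p:ℝ)^(-(1+u)) := by positivity
      refine (geom_le hx0 (hle.trans hhalf)).trans ?_
      apply add_le_add_right
      apply ENNReal.ofReal_le_ofReal
      have : ((p:ℝ)^(-(1+u)))^2 ≤ (1/(p:ℝ))^2 := pow_le_pow_left₀ hx0 hle 2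
      rw [div_pow, one_pow] at this
      linarith
    · simp only [hp, if_false]; simp
  refine (ENNReal.tsum_le_tsum h2).trans ?_
  rw [ENNReal.tsum_add, ENNReal.tsum_mul_right, ENNReal.tsum_mul_right, ← add_mul]
  have h4 : ∑' p : ℕ, ENNReal.ofReal (2*(1/(p:ℝ)^2)) = ENNReal.ofReal C1 := by
    unfold C1
    rw [ENNReal.ofReal_tsum_of_nonneg (fun n => by positivity) summable_C1]
  rw [h4, mul_comm (1+1/u), ENNReal.ofReal_mul (by have := C1_nonneg; positivity)]
  apply mul_le_mul' _ (tsum_an_le hu)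
  rw [ENNReal.ofReal_add (by positivity) C1_nonneg]
  exact add_le_add (tsum_prime_an_le hu) le_rfl

end H40.PR
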