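import Mathlib
import Pool.Agent.H40.PRUpper

/-!
# The supremum is at least one
-/

namespace H40.PR

open Real Finset MeasureTheory Set
open scoped ENNReal

/-- the integral of `n^{-1-u}` over a window -/
noncomputable def Gn (δ δ' : ℝ) (n : ℕ) : ℝ≥0∞ := ∫⁻ u in Ioc δ δ', an n u

theorem Gn_le {h : ℝ} (hh : 0 ≤ h) {δ δ' : ℝ} (hδ : 0 < δ) {n : ℕ} (hn : 2 ≤ n) :
    Gn δ δ' n ≤ ENNReal.ofReal (exp (h*δ')) * ENNReal.ofReal (fx h n) := by
  have hl := log_nat_pos hn
  have hn0 : (0:ℝ) < n := by positivity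
  have h1 : Gn δ δ' n ≤ ∫⁻ u in Ioc δ δ', ENNReal.ofReal (exp (h*δ')/n * (u^0 * exp (-((Real.log n + h)*u)))) := by
    unfold Gn
    apply setLIntegral_mono' measurableSet_Ioc
    intro u hu
    unfold an
    apply ENNReal.ofReal_le_ofReal
    rw [Real.rpow_def_of_pos hn0]
    have e : exp (h*δ')/n * (u^0 * exp (-((Real.log n + h)*u))) =
        exp (Real.log n * -(1+u)) * exp (h*(δ'-u)) := by
      rw [pow_zero, one_mul]
      have : (n:ℝ)⁻¹ = exp (-Real.log n) := by rw [exp_neg, Real.exp_log hn0]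
      rw [div_eq_mul_inv, this, ← exp_add, ← exp_add, ← exp_add]
      congr 1; ring
    rw [e]
    have h2 : 1 ≤ exp (h*(δ'-u)) := by
      rw [Real.one_le_exp_iff]
      apply mul_nonneg hh; linarith [hu.2]
    have h3 := exp_pos (Real.log n * -(1+u))
    nlinarith
  refine h1.trans ?_
  have h2 : ∫⁻ u in Ioc δ δ', ENNReal.ofReal (exp (h*δ')/n * (u^0 * exp (-((Real.log n + h)*u)))) ≤
      ∫⁻ u in Ioi (0:ℝ), ENNReal.ofReal (exp (h*δ')/n * (u^0 * exp (-((Real.log n + h)*u)))) := by
    apply lintegral_mono_set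
    intro u hu
    exact hδ.trans hu.1
  refine h2.trans (le_of_eq ?_)
  rw [← ofReal_integral_eq_lintegral_ofReal
    ((integrableOn_pow_exp 0 (by positivity : 0 < Real.log n + h)).const_mul _)]
  · rw [integral_const_mul, integral_pow_exp 0 (by positivity), ← ENNReal.ofReal_mul (exp_pos _).le]
    congr 1
    unfold fx
    simp
    field_simp
  · filter_upwards [self_mem_ae_restrict measurableSet_Ioi] with u hu
    have : (0:ℝ) < u := hu
    positivity

theorem sumG_ge {δ δ' : ℝ} (hδ : 0 < δ) (hδ' : δ ≤ δ') :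
    ENNReal.ofReal (Real.log (δ'/δ)) ≤ ∑' n, Gn δ δ' n := by
  unfold Gn
  rw [← lintegral_tsum (fun n => (measurable_an n).aemeasurable)]
  have h0 : 0 < δ' := hδ.trans_le hδ'
  have hint : IntervalIntegrable (fun u : ℝ => 1/u) volume δ δ' := by
    apply intervalIntegral.intervalIntegrable_one_div
    · intro x hx
      rw [Set.uIcc_of_le hδ'] at hx
      linarith [hx.1]
    · exact continuousOn_id
  have h1 : ENNReal.ofReal (Real.log (δ'/δ)) = ∫⁻ u in Ioc δ δ', ENNReal.ofReal (1/u) := by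
    rw [← ofReal_integral_eq_lintegral_ofReal, ← intervalIntegral.integral_of_le hδ',
      integral_one_div_of_pos hδ h0]
    · exact (intervalIntegrable_iff_integrableOn_Ioc_of_le hδ').1 hint
    · filter_upwards [self_mem_ae_restrict measurableSet_Ioc] with u hu
      have : (0:ℝ) < u := hδ.trans hu.1
      positivity
  rw [h1]
  apply setLIntegral_mono' measurableSet_Ioc
  intro u hu
  exact tsum_an_ge (hδ.trans hu.1)

noncomputable def C3 : ℝ := 3/2 + C1

theorem C3_nonneg : 0 ≤ C3 := by have := C1_nonneg; unfold C3; linarith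

theorem sumOG_le {δ δ' : ℝ} (hδ : 0 < δ) (hδ' : δ ≤ δ') (h1 : δ' ≤ 1) :
    ∑' n, (ArithmeticFunction.cardFactors n : ℝ≥0∞) * Gn δ δ' n ≤
      ENNReal.ofReal (1/2*(Real.log δ)^2 + (C3+1)*(-Real.log δ) + C3) := by
  have hδ1 : δ ≤ 1 := hδ'.trans h1
  have hlogδ : Real.log δ ≤ 0 := Real.log_nonpos hδ.le hδ1
  unfold Gn
  simp_rw [← lintegral_const_mul _ (measurable_an _)]
  rw [← lintegral_tsum (fun n => ((measurable_an n).const_mul _).aemeasurable)]
  have hC := C3_nonneg
  -- pointwise bound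
  have hpt : ∀ u ∈ Ioc δ δ', ∑' n : ℕ, (ArithmeticFunction.cardFactors n : ℝ≥0∞) * an n u ≤
      ENNReal.ofReal ((1/u)*(-Real.log u + C3) + (-Real.log δ + C3)) := by
    intro u hu
    have hu0 : 0 < u := hδ.trans hu.1
    have hu1 : u ≤ 1 := hu.2.trans h1
    refine (tsum_Omega_le hu0).trans (ENNReal.ofReal_le_ofReal ?_)
    have h2 : Real.log (1 + 1/(2*u)) ≤ 1 - Real.log u := by
      have h3 : 1 + 1/(2*u) ≤ 2/u := by
        have : 1 + 1/(2*u) = (2*u+1)/(2*u) := by field_simp
        rw [this, div_le_div_iff₀ (by positivity) hu0]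
        nlinarith
      have h4 := Real.log_le_log (by positivity) h3
      rw [Real.log_div two_ne_zero hu0.ne'] at h4
      have := Real.log_two_lt_d9
      linarith
    have h5 : Real.log δ ≤ Real.log u := Real.log_le_log hδ hu.1.le
    have h6 : 1/2 + Real.log (1 + 1/(2*u)) + C1 ≤ -Real.log u + C3 := by
      unfold C3; linarith
    have h7 : (1+1/u)*(1/2 + Real.log (1 + 1/(2*u)) + C1) ≤ (1+1/u)*(-Real.log u + C3) :=
      mul_le_mul_of_nonneg_left h6 (by positivity)
    have h8 : (1+1/u)*(-Real.log u + C3) = (1/u)*(-Real.log u + C3) + (-Real.log u + C3) := by ring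
    linarith
  refine (setLIntegral_mono' measurableSet_Ioc hpt).trans ?_
  have h2 : ∫⁻ u in Ioc δ δ', ENNReal.ofReal ((1/u)*(-Real.log u + C3) + (-Real.log δ + C3)) ≤
      ∫⁻ u in Ioc δ 1, ENNReal.ofReal ((1/u)*(-Real.log u + C3) + (-Real.log δ + C3)) := by
    apply lintegral_mono_set
    intro u hu
    exact ⟨hu.1, hu.2.trans h1⟩
  refine h2.trans ?_
  have hcont : ContinuousOn (fun u : ℝ => (1/u)*(-Real.log u + C3) + (-Real.log δ + C3)) (Set.uIcc δ 1) := by
    rw [Set.uIcc_of_le hδ1]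
    have hne : ∀ u ∈ Set.Icc δ 1, u ≠ 0 := fun u hu => by linarith [hu.1]
    have h3 : ContinuousOn (fun u : ℝ => 1/u) (Set.Icc δ 1) :=
      continuousOn_const.div continuousOn_id hne
    have h4 : ContinuousOn (fun u : ℝ => Real.log u) (Set.Icc δ 1) :=
      Real.continuousOn_log.mono (fun u hu => hne u hu)
    fun_prop
  have hint := hcont.intervalIntegrable (μ := volume)
  have hder : ∀ u ∈ Set.uIcc δ 1, HasDerivAt (fun u : ℝ => -(1/2)*(Real.log u)^2 + C3 * Real.log u +
      (-Real.log δ + C3)*u) ((1/u)*(-Real.log u + C3) + (-Real.log δ + C3)) u := by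
    intro u hu
    rw [Set.uIcc_of_le hδ1] at hu
    have hu0 : u ≠ 0 := by linarith [hu.1]
    have hl := Real.hasDerivAt_log hu0
    have := (((hl.pow 2).const_mul (-(1/2):ℝ)).add (hl.const_mul C3)).add
      ((hasDerivAt_id' u).const_mul (-Real.log δ + C3))
    refine this.congr_deriv ?_
    field_simp
    ring
  have hval := intervalIntegral.integral_eq_sub_of_hasDerivAt hder hint
  rw [← ofReal_integral_eq_lintegral_ofReal, ← intervalIntegral.integral_of_le hδ1, hval]
  · apply ENNReal.ofReal_le_ofReal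
    rw [Real.log_one]
    nlinarith
  · exact (intervalIntegrable_iff_integrableOn_Ioc_of_le hδ1).1 hint
  · filter_upwards [self_mem_ae_restrict measurableSet_Ioc] with u hu
    have hu0 : (0:ℝ) < u := hδ.trans hu.1
    have : Real.log u ≤ 0 := Real.log_nonpos hu0.le hu.2
    have : 0 ≤ -Real.log u + C3 := by linarith
    have : 0 ≤ -Real.log δ + C3 := by linarith
    simp only [Pi.zero_apply]
    positivity

theorem pointwise_K (K : ℕ) (g : ℝ≥0∞) (m : ℕ) :
    (K:ℝ≥0∞) * g ≤ (m:ℝ≥0∞) * g + ∑ k ∈ range K, ((K-k : ℕ):ℝ≥0∞) * (if m = k then g else 0) := by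
  rcases Nat.lt_or_ge m K with h | h
  · rw [Finset.sum_eq_single m]
    · rw [if_pos rfl, ← add_mul]
      apply mul_le_mul_left
      rw [← Nat.cast_add]
      exact_mod_cast (by omega)
    · intro k _ hk
      rw [if_neg (Ne.symm hk), mul_zero]
    · intro hm
      exact absurd (Finset.mem_range.2 h) hm
  · have : (K:ℝ≥0∞) ≤ m := by exact_mod_cast h
    calc (K:ℝ≥0∞) * g ≤ m * g := mul_le_mul_left this g
      _ ≤ _ := le_self_add

theorem key_ineq {δ δ' c' : ℝ} (hδ : 0 < δ) (hδ' : δ ≤ δ') (h1 : δ' ≤ 1) (hc' : 0 ≤ c')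
    (hG : ∀ k : ℕ, ∑' n, (if ArithmeticFunction.cardFactors n = k then Gn δ δ' n else 0) ≤ ENNReal.ofReal c')
    (K : ℕ) : K * Real.log (δ'/δ) ≤ 1/2*(Real.log δ)^2 + (C3+1)*(-Real.log δ) + C3 + c' * (K*(K+1)/2) := by
  have hlogδ : Real.log δ ≤ 0 := Real.log_nonpos hδ.le (hδ'.trans h1)
  have hC := C3_nonneg
  have hA : 0 ≤ 1/2*(Real.log δ)^2 + (C3+1)*(-Real.log δ) + C3 := by
    have : 0 ≤ (C3+1)*(-Real.log δ) := mul_nonneg (by linarith) (by linarith)
    positivity
  have e1 : (K:ℝ≥0∞) * ∑' n, Gn δ δ' n ≤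
      ∑' n, (ArithmeticFunction.cardFactors n : ℝ≥0∞) * Gn δ δ' n +
      ∑ k ∈ range K, ((K-k : ℕ):ℝ≥0∞) * ENNReal.ofReal c' := by
    calc (K:ℝ≥0∞) * ∑' n, Gn δ δ' n = ∑' n, (K:ℝ≥0∞) * Gn δ δ' n := by rw [ENNReal.tsum_mul_left]
      _ ≤ ∑' n, ((ArithmeticFunction.cardFactors n : ℝ≥0∞) * Gn δ δ' n +
          ∑ k ∈ range K, ((K-k : ℕ):ℝ≥0∞) * (if ArithmeticFunction.cardFactors n = k then Gn δ δ' n else 0)) :=
          ENNReal.tsum_le_tsum (fun n => pointwise_K K _ _)
      _ = ∑' n, (ArithmeticFunction.cardFactors n : ℝ≥0∞) * Gn δ δ' n +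
          ∑ k ∈ range K, ((K-k : ℕ):ℝ≥0∞) * ∑' n, (if ArithmeticFunction.cardFactors n = k then Gn δ δ' n else 0) := by
          rw [ENNReal.tsum_add]
          congr 1
          rw [Summable.tsum_finsetSum (fun _ _ => ENNReal.summable)]
          apply Finset.sum_congr rfl
          intro k _
          rw [ENNReal.tsum_mul_left]
      _ ≤ _ := by
          apply add_le_add_right
          apply Finset.sum_le_sum
          intro k _
          exact mul_le_mul_right (hG k) _
  have e2 : ENNReal.ofReal (K * Real.log (δ'/δ)) ≤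
      ENNReal.ofReal (1/2*(Real.log δ)^2 + (C3+1)*(-Real.log δ) + C3 + ∑ k ∈ range K, ((K-k : ℕ):ℝ) * c') := by
    rw [ENNReal.ofReal_mul (by positivity), ENNReal.ofReal_natCast,
      ENNReal.ofReal_add hA (Finset.sum_nonneg (fun _ _ => by positivity)),
      ENNReal.ofReal_sum_of_nonneg (fun _ _ => by positivity)]
    refine (mul_le_mul_right (sumG_ge hδ hδ') _).trans (e1.trans ?_)
    apply add_le_add (sumOG_le hδ hδ' h1)
    apply le_of_eq
    apply Finset.sum_congr rfl
    intro k _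
    rw [ENNReal.ofReal_mul (by positivity), ENNReal.ofReal_natCast]
  have hsum : ∑ k ∈ range K, ((K-k : ℕ):ℝ) * c' = c' * (K*(K+1)/2) := by
    rw [← Finset.sum_mul, mul_comm]
    congr 1
    have : ∑ k ∈ range K, ((K-k : ℕ):ℝ) = ∑ k ∈ range K, ((k+1 : ℕ):ℝ) := by
      rw [← Finset.sum_range_reflect]
      apply Finset.sum_congr rfl
      intro k hk
      have := Finset.mem_range.1 hk
      congr 1; omega
    rw [this]
    clear this e1 e2 hG
    induction K with
    | zero => simp
    | succ K ih => rw [Finset.sum_range_succ, ih]; push_cast; ring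
  rw [hsum] at e2
  rwa [ENNReal.ofReal_le_ofReal_iff (by positivity)] at e2

theorem class_zero {δ δ' : ℝ} (hδ : 0 < δ) :
    ∑' n, (if ArithmeticFunction.cardFactors n = 0 then Gn δ δ' n else 0) ≤ ENNReal.ofReal δ' := by
  rw [tsum_eq_sum (s := range 2)]
  · rw [Finset.sum_range_succ, Finset.sum_range_one]
    have h0 : Gn δ δ' 0 = 0 := by
      unfold Gn
      rw [setLIntegral_congr_fun measurableSet_Ioc (g := fun _ => 0)
        (fun u hu => an_zero (hδ.trans hu.1))]
      simp
    have h1 : Gn δ δ' 1 ≤ ENNReal.ofReal δ' := by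
      unfold Gn
      simp_rw [an_one]
      rw [setLIntegral_const, one_mul, Real.volume_Ioc]
      apply ENNReal.ofReal_le_ofReal; linarith
    rw [h0]
    simpa using h1
  · intro n hn
    rw [if_neg]
    rw [ArithmeticFunction.cardFactors_eq_zero_iff_eq_zero_or_one]
    rw [Finset.mem_range] at hn
    omega

theorem upper_main {h : ℝ} (hh : 0 ≤ h) {c : ℝ} (hc0 : 0 ≤ c) (hc : c < 1) :
    ∃ k : ℕ, 1 ≤ k ∧ ENNReal.ofReal c <
      ∑' n : ℕ, (if ArithmeticFunction.cardFactors n = k then ENNReal.ofReal (fx h n) else 0) := by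
  by_contra hcon
  push Not at hcon
  set c' := (1+c)/2 with hc'
  have hc'1 : c' < 1 := by rw [hc']; linarith
  have hc'0 : 1/2 ≤ c' := by rw [hc']; linarith
  obtain ⟨δ', hδ'0, hδ'1, hexp⟩ : ∃ δ' : ℝ, 0 < δ' ∧ δ' < 1/2 ∧ exp (h*δ') * c < c' := by
    have hc1 : ContinuousAt (fun x : ℝ => exp (h*x) * c) 0 := by fun_prop
    have h1 : exp (h*0) * c < c' := by rw [mul_zero, exp_zero, one_mul, hc']; linarith
    have h2 := hc1.eventually_lt_const h1
    have h3 := (h2.filter_mono (nhdsWithin_le_nhds (s := Ioi 0)))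
    have h4 : ∀ᶠ x : ℝ in nhdsWithin 0 (Ioi 0), x < 1/2 :=
      (eventually_lt_nhds (by norm_num : (0:ℝ) < 1/2)).filter_mono nhdsWithin_le_nhds
    obtain ⟨x, ⟨hx1, hx2⟩, hx3⟩ := ((h3.and h4).and self_mem_nhdsWithin).exists
    exact ⟨x, hx3, hx2, hx1⟩
  have hG : ∀ δ, 0 < δ → ∀ k : ℕ,
      ∑' n, (if ArithmeticFunction.cardFactors n = k then Gn δ δ' n else 0) ≤ ENNReal.ofReal c' := by
    intro δ hδ k
    rcases Nat.eq_zero_or_pos k with hk | hk
    · subst hk
      exact (class_zero hδ).trans (ENNReal.ofReal_le_ofReal (by linarith))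
    · calc ∑' n, (if ArithmeticFunction.cardFactors n = k then Gn δ δ' n else 0)
          ≤ ∑' n : ℕ, ENNReal.ofReal (exp (h*δ')) *
            (if ArithmeticFunction.cardFactors n = k then ENNReal.ofReal (fx h n) else 0) := by
            apply ENNReal.tsum_le_tsum
            intro n
            split_ifs with hn
            · apply Gn_le hh hδ
              by_contra hlt
              have : n = 0 ∨ n = 1 := by omega
              rw [← ArithmeticFunction.cardFactors_eq_zero_iff_eq_zero_or_one] at this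
              omega
            · simp
        _ = ENNReal.ofReal (exp (h*δ')) *
            ∑' n : ℕ, (if ArithmeticFunction.cardFactors n = k then ENNReal.ofReal (fx h n) else 0) := by
            rw [ENNReal.tsum_mul_left]
        _ ≤ ENNReal.ofReal (exp (h*δ')) * ENNReal.ofReal c := mul_le_mul_right (hcon k hk) _
        _ = ENNReal.ofReal (exp (h*δ') * c) := by rw [ENNReal.ofReal_mul (exp_pos _).le]
        _ ≤ _ := ENNReal.ofReal_le_ofReal hexp.le
  have hC := C3_nonneg
  set a := c'*(1-c')/2 with ha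
  have ha0 : 0 < a := by rw [ha]; have : 0 < 1 - c' := by linarith
                         positivity
  set b := -Real.log δ' + (C3+1)*c' + c'/2 with hb
  have hlogδ' : Real.log δ' ≤ 0 := Real.log_nonpos hδ'0.le (by linarith)
  obtain ⟨K, hK⟩ := exists_nat_gt (max ((b + C3)/a + 1) (-Real.log δ'/c' + 1))
  have hK1 : (b + C3)/a + 1 < K := lt_of_le_of_lt (le_max_left _ _) hK
  have hK2 : -Real.log δ'/c' + 1 < K := lt_of_le_of_lt (le_max_right _ _) hK
  have hKge1 : (1:ℝ) ≤ K := by
    have : 0 ≤ -Real.log δ'/c' := div_nonneg (by linarith) (by linarith)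
    linarith
  have hδpos := exp_pos (-(c'*K))
  have hle : exp (-(c'*K)) ≤ δ' := by
    rw [← Real.le_log_iff_exp_le hδ'0]
    have : -Real.log δ' < c' * K := by
      have h5 : -Real.log δ'/c' < K := by linarith
      rw [div_lt_iff₀ (by linarith)] at h5
      linarith
    linarith
  have hkey := key_ineq hδpos hle (by linarith) (by linarith : (0:ℝ) ≤ c') (hG _ hδpos) K
  rw [Real.log_div hδ'0.ne' hδpos.ne', Real.log_exp] at hkey
  have h7 : a * K^2 ≤ b * K + C3 := by
    rw [ha, hb]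
    nlinarith
  have h8 : (b + C3) < a * K := by
    have h5 : (b + C3)/a < K := by linarith
    rw [div_lt_iff₀ ha0] at h5
    linarith
  nlinarith

end H40.PR
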